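import Mathlib

set_option autoImplicit false
set_option linter.unusedSectionVars false

/-!
# Concentration toolbox on finite weighted product spaces

No measure theory: a probability space is a finite type with a weight `w : Ω → ℝ` that is a
probability weight (`PW w`).  `Ex w f` is the expectation, `Pr w E` the probability of the event
`E`, and `prodW p` the product weight of a family `p i : A i → ℝ` of probability weights.

* `NWC.mcdiarmid_upper`, `NWC.mcdiarmid_lower`, `NWC.mcdiarmid_two`: bounded differences.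
* `NWC.hoeffding_upper` etc: sums of independent bounded variables.
* `NWC.chernoff_upper`, `NWC.chernoff_lower`: multiplicative bounds for rare events.
* `NWC.exists_avoid`: union bound, existence form.
-/

open Finset

namespace NWC

noncomputable section

section Basic

variable {Ω : Type*} [Fintype Ω]

/-- A probability weight on a finite type. -/
def PW (w : Ω → ℝ) : Prop := (∀ ω, 0 ≤ w ω) ∧ ∑ ω, w ω = 1

/-- Expectation. -/
def Ex (w f : Ω → ℝ) : ℝ := ∑ ω, w ω * f ω

open Classical in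
/-- Probability of an event. -/
def Pr (w : Ω → ℝ) (E : Ω → Prop) : ℝ := ∑ ω, if E ω then w ω else 0

/-- Uniform weight. -/
def unifW (Ω : Type*) [Fintype Ω] : Ω → ℝ := fun _ => 1 / (Fintype.card Ω : ℝ)

/-- A coin with success probability `p`. -/
def coinW (p : ℝ) : Bool → ℝ := fun b => if b then p else 1 - p

theorem pw_unif [Nonempty Ω] : PW (unifW Ω) := by
  refine ⟨fun ω => by unfold unifW; positivity, ?_⟩
  simp only [unifW, Finset.sum_const, Finset.card_univ, nsmul_eq_mul]
  have : (Fintype.card Ω : ℝ) ≠ 0 := by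
    exact_mod_cast Fintype.card_ne_zero
  field_simp

theorem pw_coin {p : ℝ} (h0 : 0 ≤ p) (h1 : p ≤ 1) : PW (coinW p) := by
  refine ⟨fun b => ?_, ?_⟩
  · cases b
    · simp only [coinW]; simp; linarith
    · simp only [coinW]; simp; linarith
  · simp [coinW]

theorem PW.nonneg {w : Ω → ℝ} (h : PW w) (ω : Ω) : 0 ≤ w ω := h.1 ω

theorem PW.sum_one {w : Ω → ℝ} (h : PW w) : ∑ ω, w ω = 1 := h.2

theorem PW.le_one {w : Ω → ℝ} (h : PW w) (ω : Ω) : w ω ≤ 1 := by
  rw [← h.2]
  exact Finset.single_le_sum (fun i _ => h.1 i) (Finset.mem_univ ω)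

theorem ex_const {w : Ω → ℝ} (h : PW w) (c : ℝ) : Ex w (fun _ => c) = c := by
  unfold Ex
  rw [← Finset.sum_mul, h.2, one_mul]

theorem ex_add (w f g : Ω → ℝ) : Ex w (fun ω => f ω + g ω) = Ex w f + Ex w g := by
  unfold Ex
  rw [← Finset.sum_add_distrib]
  exact Finset.sum_congr rfl fun ω _ => by ring

theorem ex_sub (w f g : Ω → ℝ) : Ex w (fun ω => f ω - g ω) = Ex w f - Ex w g := by
  unfold Ex
  rw [← Finset.sum_sub_distrib]
  exact Finset.sum_congr rfl fun ω _ => by ring

theorem ex_neg (w f : Ω → ℝ) : Ex w (fun ω => - f ω) = - Ex w f := by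
  unfold Ex
  rw [← Finset.sum_neg_distrib]
  exact Finset.sum_congr rfl fun ω _ => by ring

theorem ex_mul_left (w f : Ω → ℝ) (c : ℝ) : Ex w (fun ω => c * f ω) = c * Ex w f := by
  unfold Ex
  rw [Finset.mul_sum]
  exact Finset.sum_congr rfl fun ω _ => by ring

theorem ex_mul_right (w f : Ω → ℝ) (c : ℝ) : Ex w (fun ω => f ω * c) = Ex w f * c := by
  unfold Ex
  rw [Finset.sum_mul]
  exact Finset.sum_congr rfl fun ω _ => by ring

theorem ex_sum {J : Type*} (s : Finset J) (w : Ω → ℝ) (f : J → Ω → ℝ) :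
    Ex w (fun ω => ∑ j ∈ s, f j ω) = ∑ j ∈ s, Ex w (f j) := by
  unfold Ex
  rw [Finset.sum_comm]
  exact Finset.sum_congr rfl fun ω _ => by rw [Finset.mul_sum]

theorem ex_mono {w f g : Ω → ℝ} (h : PW w) (hfg : ∀ ω, f ω ≤ g ω) : Ex w f ≤ Ex w g :=
  Finset.sum_le_sum fun ω _ => mul_le_mul_of_nonneg_left (hfg ω) (h.1 ω)

theorem ex_nonneg {w f : Ω → ℝ} (h : PW w) (hf : ∀ ω, 0 ≤ f ω) : 0 ≤ Ex w f :=
  Finset.sum_nonneg fun ω _ => mul_nonneg (h.1 ω) (hf ω)

theorem ex_le_const {w f : Ω → ℝ} (h : PW w) {c : ℝ} (hf : ∀ ω, f ω ≤ c) : Ex w f ≤ c := by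
  have := ex_mono h hf
  rwa [ex_const h] at this

theorem const_le_ex {w f : Ω → ℝ} (h : PW w) {c : ℝ} (hf : ∀ ω, c ≤ f ω) : c ≤ Ex w f := by
  have := ex_mono h hf
  rwa [ex_const h] at this

theorem exists_ge_ex {w f : Ω → ℝ} (h : PW w) : ∃ ω, Ex w f ≤ f ω := by
  by_contra hcon
  push Not at hcon
  have h1 : Ex w f < Ex w f := by
    have h2 : ∃ ω, 0 < w ω := by
      by_contra h3
      push Not at h3
      have : ∑ ω, w ω ≤ 0 := Finset.sum_nonpos fun ω _ => h3 ω
      rw [h.2] at this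
      linarith
    obtain ⟨ω₀, hω₀⟩ := h2
    calc Ex w f = ∑ ω, w ω * f ω := rfl
      _ < ∑ ω, w ω * Ex w f := by
          refine Finset.sum_lt_sum (fun ω _ => mul_le_mul_of_nonneg_left (hcon ω).le (h.1 ω))
            ⟨ω₀, Finset.mem_univ _, mul_lt_mul_of_pos_left (hcon ω₀) hω₀⟩
      _ = Ex w f := ex_const h _
  exact lt_irrefl _ h1

theorem exists_le_ex {w f : Ω → ℝ} (h : PW w) : ∃ ω, f ω ≤ Ex w f := by
  obtain ⟨ω, hω⟩ := exists_ge_ex (f := fun ω => - f ω) h
  rw [ex_neg] at hω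
  exact ⟨ω, by linarith⟩

theorem pr_nonneg {w : Ω → ℝ} (h : PW w) (E : Ω → Prop) : 0 ≤ Pr w E := by
  classical
  unfold Pr
  refine Finset.sum_nonneg fun ω _ => ?_
  split_ifs
  · exact h.1 ω
  · exact le_rfl

theorem pr_mono {w : Ω → ℝ} (h : PW w) {E F : Ω → Prop} (hEF : ∀ ω, E ω → F ω) :
    Pr w E ≤ Pr w F := by
  classical
  unfold Pr
  refine Finset.sum_le_sum fun ω _ => ?_
  by_cases h1 : E ω
  · rw [if_pos h1, if_pos (hEF ω h1)]
  · rw [if_neg h1]
    split_ifs
    · exact h.1 ω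
    · exact le_rfl

theorem pr_congr (w : Ω → ℝ) {E F : Ω → Prop} (hEF : ∀ ω, E ω ↔ F ω) :
    Pr w E = Pr w F := by
  have : E = F := funext fun ω => propext (hEF ω)
  rw [this]

theorem pr_true {w : Ω → ℝ} (h : PW w) : Pr w (fun _ => True) = 1 := by
  unfold Pr
  simp [h.2]

theorem pr_false (w : Ω → ℝ) : Pr w (fun _ => False) = 0 := by
  unfold Pr
  simp

theorem pr_le_one {w : Ω → ℝ} (h : PW w) (E : Ω → Prop) : Pr w E ≤ 1 := by
  rw [← pr_true h]
  exact pr_mono h fun _ _ => trivial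

theorem pr_not {w : Ω → ℝ} (h : PW w) (E : Ω → Prop) : Pr w (fun ω => ¬ E ω) = 1 - Pr w E := by
  classical
  unfold Pr
  rw [← h.2, ← Finset.sum_sub_distrib]
  refine Finset.sum_congr rfl fun ω _ => ?_
  by_cases h1 : E ω
  · simp [h1]
  · simp [h1]

theorem pr_or {w : Ω → ℝ} (h : PW w) (E F : Ω → Prop) :
    Pr w (fun ω => E ω ∨ F ω) ≤ Pr w E + Pr w F := by
  classical
  unfold Pr
  rw [← Finset.sum_add_distrib]
  refine Finset.sum_le_sum fun ω _ => ?_
  have := h.1 ω
  by_cases h1 : E ω <;> by_cases h2 : F ω <;> simp [h1, h2] <;> linarith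

/-- Union bound. -/
theorem pr_exists_le {w : Ω → ℝ} (h : PW w) {J : Type*} (s : Finset J) (E : J → Ω → Prop) :
    Pr w (fun ω => ∃ j ∈ s, E j ω) ≤ ∑ j ∈ s, Pr w (E j) := by
  classical
  induction s using Finset.induction_on with
  | empty =>
    rw [Finset.sum_empty]
    refine le_of_eq ?_
    rw [← pr_false w]
    exact pr_congr w fun ω => by simp
  | insert a s ha ih =>
    rw [Finset.sum_insert ha]
    refine le_trans (le_trans (pr_mono h ?_) (pr_or h (E a) (fun ω => ∃ j ∈ s, E j ω))) ?_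
    · intro ω hω
      obtain ⟨j, hj, hE⟩ := hω
      rcases Finset.mem_insert.1 hj with rfl | hj
      · exact Or.inl hE
      · exact Or.inr ⟨j, hj, hE⟩
    · linarith

theorem pr_exists_le' {w : Ω → ℝ} (h : PW w) {J : Type*} [Fintype J] (E : J → Ω → Prop) :
    Pr w (fun ω => ∃ j, E j ω) ≤ ∑ j, Pr w (E j) := by
  refine le_trans (pr_mono h ?_) (pr_exists_le h Finset.univ E)
  rintro ω ⟨j, hj⟩
  exact ⟨j, Finset.mem_univ j, hj⟩

theorem exists_of_pr_lt_one {w : Ω → ℝ} (h : PW w) {E : Ω → Prop} (hE : Pr w E < 1) :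
    ∃ ω, 0 < w ω ∧ ¬ E ω := by
  classical
  by_contra hcon
  push Not at hcon
  have : Pr w E = 1 := by
    unfold Pr
    rw [← h.2]
    refine Finset.sum_congr rfl fun ω _ => ?_
    by_cases h1 : E ω
    · rw [if_pos h1]
    · rw [if_neg h1]
      by_contra h2
      exact h1 (hcon ω (lt_of_le_of_ne (h.1 ω) h2))
  linarith

/-- Union bound, existence form. -/
theorem exists_avoid {w : Ω → ℝ} (h : PW w) {J : Type*} (s : Finset J) (E : J → Ω → Prop)
    (hE : ∑ j ∈ s, Pr w (E j) < 1) : ∃ ω, 0 < w ω ∧ ∀ j ∈ s, ¬ E j ω := by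
  obtain ⟨ω, h1, h2⟩ := exists_of_pr_lt_one h (lt_of_le_of_lt (pr_exists_le h s E) hE)
  refine ⟨ω, h1, fun j hj hj' => h2 ⟨j, hj, hj'⟩⟩

theorem exists_avoid' {w : Ω → ℝ} (h : PW w) {J : Type*} [Fintype J] (E : J → Ω → Prop)
    (hE : ∑ j, Pr w (E j) < 1) : ∃ ω, 0 < w ω ∧ ∀ j, ¬ E j ω := by
  obtain ⟨ω, h1, h2⟩ := exists_avoid h Finset.univ E hE
  exact ⟨ω, h1, fun j => h2 j (Finset.mem_univ j)⟩

/-- Uniform bound version. -/
theorem exists_avoid_card {w : Ω → ℝ} (h : PW w) {J : Type*} (s : Finset J) (E : J → Ω → Prop)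
    (δ : ℝ) (hδ : ∀ j ∈ s, Pr w (E j) ≤ δ) (hs : (s.card : ℝ) * δ < 1) :
    ∃ ω, 0 < w ω ∧ ∀ j ∈ s, ¬ E j ω := by
  refine exists_avoid h s E (lt_of_le_of_lt (Finset.sum_le_sum hδ) ?_)
  rwa [Finset.sum_const, nsmul_eq_mul]

theorem pr_eq_ex (w : Ω → ℝ) (E : Ω → Prop) [DecidablePred E] :
    Pr w E = Ex w (fun ω => if E ω then 1 else 0) := by
  unfold Pr Ex
  refine Finset.sum_congr rfl fun ω _ => ?_
  by_cases h : E ω <;> simp [h]

theorem pr_le_ex {w : Ω → ℝ} (h : PW w) {E : Ω → Prop} {g : Ω → ℝ} (hg : ∀ ω, 0 ≤ g ω)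
    (hE : ∀ ω, E ω → 1 ≤ g ω) : Pr w E ≤ Ex w g := by
  classical
  rw [pr_eq_ex]
  refine ex_mono h fun ω => ?_
  split_ifs with h1
  · exact hE ω h1
  · exact hg ω

/-- Markov's inequality. -/
theorem markov {w : Ω → ℝ} (h : PW w) {f : Ω → ℝ} (hf : ∀ ω, 0 ≤ f ω) {a : ℝ} (ha : 0 < a) :
    Pr w (fun ω => a ≤ f ω) ≤ Ex w f / a := by
  have : Ex w f / a = Ex w (fun ω => f ω * a⁻¹) := by rw [ex_mul_right, div_eq_mul_inv]
  rw [this]
  refine pr_le_ex h (fun ω => mul_nonneg (hf ω) (by positivity)) fun ω hω => ?_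
  rw [← div_eq_mul_inv, le_div_iff₀ ha, one_mul]
  exact hω

end Basic

section Prod

variable {ι : Type*} [Fintype ι] [DecidableEq ι] {A : ι → Type*} [∀ i, Fintype (A i)]

/-- The product weight. -/
def prodW (p : ∀ i, A i → ℝ) : (∀ i, A i) → ℝ := fun ω => ∏ i, p i (ω i)

theorem pw_prod {p : ∀ i, A i → ℝ} (hp : ∀ i, PW (p i)) : PW (prodW p) := by
  refine ⟨fun ω => Finset.prod_nonneg fun i _ => (hp i).1 _, ?_⟩
  unfold prodW
  have h := Finset.prod_univ_sum (fun i => (univ : Finset (A i))) (fun i a => p i a)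
  rw [Fintype.piFinset_univ] at h
  rw [← h]
  exact Finset.prod_eq_one fun i _ => (hp i).2

theorem prodW_update (p : ∀ i, A i → ℝ) (ω : ∀ i, A i) (i : ι) (a : A i) :
    prodW p (Function.update ω i a) * p i (ω i) = prodW p ω * p i a := by
  unfold prodW
  rw [← Finset.mul_prod_erase univ _ (Finset.mem_univ i),
    ← Finset.mul_prod_erase univ (fun j => p j (ω j)) (Finset.mem_univ i),
    Function.update_self]
  have : ∏ j ∈ univ.erase i, p j (Function.update ω i a j) = ∏ j ∈ univ.erase i, p j (ω j) := by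
    refine Finset.prod_congr rfl fun j hj => ?_
    rw [Function.update_of_ne (Finset.ne_of_mem_erase hj)]
  rw [this]
  ring

/-- Resampling one coordinate. -/
theorem ex_resample {p : ∀ i, A i → ℝ} (hp : ∀ i, PW (p i)) (i : ι) (G : (∀ i, A i) → ℝ) :
    Ex (prodW p) G = Ex (prodW p) (fun ω => Ex (p i) (fun a => G (Function.update ω i a))) := by
  unfold Ex
  simp_rw [Finset.mul_sum]
  rw [← Finset.sum_product', ]
  have h1 : ∑ ω, prodW p ω * G ω
      = ∑ x ∈ (univ : Finset (∀ i, A i)) ×ˢ (univ : Finset (A i)),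
          prodW p x.1 * (p i x.2 * G x.1) := by
    rw [Finset.sum_product]
    refine Finset.sum_congr rfl fun ω _ => ?_
    simp only
    rw [← Finset.mul_sum, ← Finset.sum_mul, (hp i).2, one_mul]
  rw [h1]
  refine Finset.sum_nbij' (fun x => (Function.update x.1 i x.2, x.1 i))
    (fun x => (Function.update x.1 i x.2, x.1 i)) ?_ ?_ ?_ ?_ ?_
  · intro x _
    simp
  · intro x _
    simp
  · intro x _
    simp
  · intro x _
    simp
  · intro x _
    simp only [Function.update_idem, Function.update_eq_self]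
    rw [← mul_assoc, ← mul_assoc, prodW_update]

/-- Hoeffding's lemma for finite weights. -/
theorem hoeffding_lemma {K : Type*} [Fintype K] {p : K → ℝ} (hp : PW p) (ξ : K → ℝ) (c : ℝ)
    (hξ : ∀ k, |ξ k| ≤ c) (h0 : Ex p ξ = 0) (t : ℝ) :
    Ex p (fun k => Real.exp (t * ξ k)) ≤ Real.exp (t ^ 2 * c ^ 2 / 2) := by
  obtain ⟨k₀, -⟩ := exists_ge_ex (f := fun _ => (0 : ℝ)) hp
  have hc0 : 0 ≤ c := (abs_nonneg _).trans (hξ k₀)
  rcases hc0.eq_or_lt with hc | hc
  · have h1 : ∀ k, ξ k = 0 := fun k => abs_eq_zero.1 (le_antisymm (hc ▸ hξ k) (abs_nonneg _))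
    simp_rw [h1, ← hc]
    rw [ex_const hp]
    simp
  have h1 : ∀ k, Real.exp (t * ξ k) ≤
      (c - ξ k) / (2 * c) * Real.exp (-(t * c)) + (c + ξ k) / (2 * c) * Real.exp (t * c) := by
    intro k
    have h2 := abs_le.mp (hξ k)
    have ha : 0 ≤ (c - ξ k) / (2 * c) := div_nonneg (by linarith) (by linarith)
    have hb : 0 ≤ (c + ξ k) / (2 * c) := div_nonneg (by linarith) (by linarith)
    have hab : (c - ξ k) / (2 * c) + (c + ξ k) / (2 * c) = 1 := by
      field_simp
      ring
    have h3 := convexOn_exp.2 (Set.mem_univ (-(t * c))) (Set.mem_univ (t * c)) ha hb hab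
    simp only [smul_eq_mul] at h3
    have h4 : (c - ξ k) / (2 * c) * -(t * c) + (c + ξ k) / (2 * c) * (t * c) = t * ξ k := by
      field_simp
      ring
    rw [h4] at h3
    exact h3
  calc Ex p (fun k => Real.exp (t * ξ k))
      ≤ Ex p (fun k => (c - ξ k) / (2 * c) * Real.exp (-(t * c)) +
          (c + ξ k) / (2 * c) * Real.exp (t * c)) := ex_mono hp h1
    _ = Real.cosh (t * c) := by
        have h5 : (fun k => (c - ξ k) / (2 * c) * Real.exp (-(t * c)) +
          (c + ξ k) / (2 * c) * Real.exp (t * c)) =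
          fun k => ((Real.exp (t * c) + Real.exp (-(t * c))) / 2) +
            (ξ k) * ((Real.exp (t * c) - Real.exp (-(t * c))) / (2 * c)) := by
          funext k
          field_simp
          ring
        rw [h5, ex_add, ex_const hp, ex_mul_right, h0, Real.cosh_eq]
        ring
    _ ≤ Real.exp ((t * c) ^ 2 / 2) := Real.cosh_le_exp_half_sq _
    _ = Real.exp (t ^ 2 * c ^ 2 / 2) := by ring_nf

/-- Hoeffding's lemma, oscillation form: if `ξ` oscillates by at most `c`, then `ξ - Ex ξ` is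
bounded by `c`. -/
theorem hoeffding_lemma_osc {K : Type*} [Fintype K] {p : K → ℝ} (hp : PW p) (ξ : K → ℝ) (c : ℝ)
    (hξ : ∀ k l, |ξ k - ξ l| ≤ c) (t : ℝ) :
    Ex p (fun k => Real.exp (t * (ξ k - Ex p ξ))) ≤ Real.exp (t ^ 2 * c ^ 2 / 2) := by
  refine hoeffding_lemma hp (fun k => ξ k - Ex p ξ) c (fun k => ?_) ?_ t
  · obtain ⟨l, hl⟩ := exists_ge_ex (f := ξ) hp
    obtain ⟨l', hl'⟩ := exists_le_ex (f := ξ) hp
    have h1 := abs_le.1 (hξ k l)
    have h2 := abs_le.1 (hξ k l')
    rw [abs_le]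
    constructor <;> linarith
  · rw [ex_sub, ex_const hp, sub_self]

/-- The pointwise conditional exponential moment bound. -/
theorem mgf_aux {p : ∀ i, A i → ℝ} (hp : ∀ i, PW (p i)) (c : ι → ℝ) (t : ℝ) (s : Finset ι) :
    ∀ (f : (∀ i, A i) → ℝ), (∀ i ω a, |f (Function.update ω i a) - f ω| ≤ c i) →
    ∀ ω : ∀ i, A i,
    Ex (prodW p) (fun η => Real.exp (t * (f (s.piecewise η ω)
      - Ex (prodW p) (fun η' => f (s.piecewise η' ω)))))
      ≤ Real.exp (t ^ 2 * (∑ i ∈ s, c i ^ 2) / 2) := by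
  induction s using Finset.induction_on with
  | empty =>
    intro f hf ω
    simp only [Finset.piecewise_empty, Finset.sum_empty, mul_zero, zero_div, Real.exp_zero]
    rw [ex_const (pw_prod hp), ex_const (pw_prod hp), sub_self, mul_zero, Real.exp_zero]
  | insert i s hi ih =>
    intro f hf ω
    -- the section of `f` with coordinates in `s` averaged out
    set g : (∀ i, A i) → ℝ := fun ω => Ex (prodW p) (fun η' => f (s.piecewise η' ω)) with hg
    have hpw : ∀ (η ω : ∀ i, A i) (a : A i),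
        (insert i s).piecewise (Function.update η i a) ω
          = s.piecewise η (Function.update ω i a) := by
      intro η ω a
      rw [Finset.piecewise_insert, Function.update_self]
      ext j
      by_cases hj : j = i
      · subst hj
        rw [Function.update_self, Finset.piecewise_eq_of_notMem _ _ _ hi, Function.update_self]
      · rw [Function.update_of_ne hj]
        by_cases hjs : j ∈ s
        · rw [Finset.piecewise_eq_of_mem _ _ _ hjs, Finset.piecewise_eq_of_mem _ _ _ hjs,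
            Function.update_of_ne hj]
        · rw [Finset.piecewise_eq_of_notMem _ _ _ hjs, Finset.piecewise_eq_of_notMem _ _ _ hjs,
            Function.update_of_ne hj]
    have hfub : ∀ (F : (∀ i, A i) → ℝ) (ω : ∀ i, A i),
        Ex (prodW p) (fun η => F ((insert i s).piecewise η ω))
          = Ex (p i) (fun a => Ex (prodW p) (fun η => F (s.piecewise η (Function.update ω i a)))) := by
      intro F ω
      rw [ex_resample hp i]
      simp_rw [hpw]
      unfold Ex
      simp_rw [Finset.mul_sum]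
      rw [Finset.sum_comm]
      refine Finset.sum_congr rfl fun a _ => Finset.sum_congr rfl fun η _ => ?_
      ring
    have hmean : Ex (prodW p) (fun η' => f ((insert i s).piecewise η' ω))
        = Ex (p i) (fun a => g (Function.update ω i a)) := hfub f ω
    rw [hmean]
    set m := Ex (p i) (fun a => g (Function.update ω i a)) with hm
    have h1 := hfub (fun ζ => Real.exp (t * (f ζ - m))) ω
    rw [h1]
    have h2 : ∀ a, Ex (prodW p)
        (fun η => Real.exp (t * (f (s.piecewise η (Function.update ω i a)) - m)))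
        ≤ Real.exp (t * (g (Function.update ω i a) - m))
          * Real.exp (t ^ 2 * (∑ i ∈ s, c i ^ 2) / 2) := by
      intro a
      have h3 := ih f hf (Function.update ω i a)
      have h4 : (fun η => Real.exp (t * (f (s.piecewise η (Function.update ω i a)) - m)))
          = fun η => Real.exp (t * (g (Function.update ω i a) - m)) *
            Real.exp (t * (f (s.piecewise η (Function.update ω i a))
              - g (Function.update ω i a))) := by
        funext η
        rw [← Real.exp_add]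
        congr 1
        ring
      rw [h4, ex_mul_left]
      exact mul_le_mul_of_nonneg_left h3 (Real.exp_pos _).le
    refine (ex_mono (hp i) h2).trans ?_
    rw [ex_mul_right, Finset.sum_insert hi]
    have h5 : Ex (p i) (fun a => Real.exp (t * (g (Function.update ω i a) - m)))
        ≤ Real.exp (t ^ 2 * (c i) ^ 2 / 2) := by
      refine hoeffding_lemma_osc (hp i) (fun a => g (Function.update ω i a)) (c i) ?_ t
      intro a b
      have h6 : g (Function.update ω i a) - g (Function.update ω i b)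
          = Ex (prodW p) (fun η' => f (s.piecewise η' (Function.update ω i a))
            - f (s.piecewise η' (Function.update ω i b))) := by
        rw [ex_sub]
      rw [h6]
      have h7 : ∀ η', |f (s.piecewise η' (Function.update ω i a))
            - f (s.piecewise η' (Function.update ω i b))| ≤ c i := by
        intro η'
        have h8 := hf i (s.piecewise η' (Function.update ω i b)) a
        have h9 : Function.update (s.piecewise η' (Function.update ω i b)) i a
            = s.piecewise η' (Function.update ω i a) := by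
          ext j
          by_cases hj : j = i
          · subst hj
            rw [Function.update_self, Finset.piecewise_eq_of_notMem _ _ _ hi,
              Function.update_self]
          · rw [Function.update_of_ne hj]
            by_cases hjs : j ∈ s
            · rw [Finset.piecewise_eq_of_mem _ _ _ hjs, Finset.piecewise_eq_of_mem _ _ _ hjs]
            · rw [Finset.piecewise_eq_of_notMem _ _ _ hjs,
                Finset.piecewise_eq_of_notMem _ _ _ hjs, Function.update_of_ne hj,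
                Function.update_of_ne hj]
        rw [h9] at h8
        exact h8
      rw [abs_le]
      constructor
      · exact const_le_ex (pw_prod hp) fun η' => (abs_le.1 (h7 η')).1
      · exact ex_le_const (pw_prod hp) fun η' => (abs_le.1 (h7 η')).2
    refine (mul_le_mul_of_nonneg_right h5 (Real.exp_pos _).le).trans (le_of_eq ?_)
    rw [← Real.exp_add]
    congr 1
    ring

/-- Exponential moment of a function with bounded differences. -/
theorem mgf_le {p : ∀ i, A i → ℝ} (hp : ∀ i, PW (p i)) (f : (∀ i, A i) → ℝ) (c : ι → ℝ)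
    (hf : ∀ i ω a, |f (Function.update ω i a) - f ω| ≤ c i) (t : ℝ) :
    Ex (prodW p) (fun η => Real.exp (t * (f η - Ex (prodW p) f)))
      ≤ Real.exp (t ^ 2 * (∑ i, c i ^ 2) / 2) := by
  obtain ⟨ω, -⟩ := exists_ge_ex (f := fun _ => (0 : ℝ)) (pw_prod hp)
  have h := mgf_aux hp c t univ f hf ω
  simp only [Finset.piecewise_univ] at h
  exact h

/-- McDiarmid's inequality, upper tail; `V` is any positive bound for the sum of the squares. -/
theorem mcdiarmid_upper {p : ∀ i, A i → ℝ} (hp : ∀ i, PW (p i)) (f : (∀ i, A i) → ℝ) (c : ι → ℝ)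
    (hf : ∀ i ω a, |f (Function.update ω i a) - f ω| ≤ c i) (V : ℝ) (hV : 0 < V)
    (hcV : ∑ i, c i ^ 2 ≤ V) (x : ℝ) (hx : 0 ≤ x) :
    Pr (prodW p) (fun ω => Ex (prodW p) f + x ≤ f ω) ≤ Real.exp (-(x ^ 2 / (2 * V))) := by
  set t : ℝ := x / V with ht
  have ht0 : 0 ≤ t := by positivity
  have h1 := mgf_le hp f c hf t
  have h2 : Pr (prodW p) (fun ω => Ex (prodW p) f + x ≤ f ω)
      ≤ Ex (prodW p) (fun η => Real.exp (t * (f η - Ex (prodW p) f)) * Real.exp (-(t * x))) := by
    refine pr_le_ex (pw_prod hp) (fun ω => by positivity) fun ω hω => ?_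
    rw [← Real.exp_add]
    refine Real.one_le_exp ?_
    have : t * x ≤ t * (f ω - Ex (prodW p) f) := mul_le_mul_of_nonneg_left (by linarith) ht0
    linarith
  rw [ex_mul_right] at h2
  refine h2.trans ((mul_le_mul_of_nonneg_right h1 (Real.exp_pos _).le).trans ?_)
  rw [← Real.exp_add]
  refine Real.exp_le_exp.2 ?_
  have h3 : t ^ 2 * (∑ i, c i ^ 2) / 2 ≤ t ^ 2 * V / 2 := by
    have := mul_le_mul_of_nonneg_left hcV (sq_nonneg t)
    linarith
  have h4 : t ^ 2 * V / 2 + -(t * x) = -(x ^ 2 / (2 * V)) := by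
    rw [ht]
    field_simp
    ring
  linarith

/-- McDiarmid's inequality, lower tail. -/
theorem mcdiarmid_lower {p : ∀ i, A i → ℝ} (hp : ∀ i, PW (p i)) (f : (∀ i, A i) → ℝ) (c : ι → ℝ)
    (hf : ∀ i ω a, |f (Function.update ω i a) - f ω| ≤ c i) (V : ℝ) (hV : 0 < V)
    (hcV : ∑ i, c i ^ 2 ≤ V) (x : ℝ) (hx : 0 ≤ x) :
    Pr (prodW p) (fun ω => f ω ≤ Ex (prodW p) f - x) ≤ Real.exp (-(x ^ 2 / (2 * V))) := by
  have h := mcdiarmid_upper hp (fun ω => - f ω) c (fun i ω a => by
    rw [show - f (Function.update ω i a) - - f ω = -(f (Function.update ω i a) - f ω) by ring,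
      abs_neg]
    exact hf i ω a) V hV hcV x hx
  refine le_trans (pr_mono (pw_prod hp) ?_) h
  intro ω hω
  rw [ex_neg]
  linarith

/-- McDiarmid's inequality, two sided. -/
theorem mcdiarmid_two {p : ∀ i, A i → ℝ} (hp : ∀ i, PW (p i)) (f : (∀ i, A i) → ℝ) (c : ι → ℝ)
    (hf : ∀ i ω a, |f (Function.update ω i a) - f ω| ≤ c i) (V : ℝ) (hV : 0 < V)
    (hcV : ∑ i, c i ^ 2 ≤ V) (x : ℝ) (hx : 0 ≤ x) :
    Pr (prodW p) (fun ω => x ≤ |f ω - Ex (prodW p) f|) ≤ 2 * Real.exp (-(x ^ 2 / (2 * V))) := by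
  have h1 := mcdiarmid_upper hp f c hf V hV hcV x hx
  have h2 := mcdiarmid_lower hp f c hf V hV hcV x hx
  refine le_trans (pr_mono (pw_prod hp) (F := fun ω => (Ex (prodW p) f + x ≤ f ω) ∨
    (f ω ≤ Ex (prodW p) f - x)) ?_) ((pr_or (pw_prod hp) _ _).trans (by linarith))
  intro ω hω
  rcases le_abs.1 hω with h | h
  · left; linarith
  · right; linarith

/-- Expectation of a function of one coordinate. -/
theorem ex_coord {p : ∀ i, A i → ℝ} (hp : ∀ i, PW (p i)) (i : ι) (g : A i → ℝ) :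
    Ex (prodW p) (fun ω => g (ω i)) = Ex (p i) g := by
  rw [ex_resample hp i]
  simp only [Function.update_self]
  exact ex_const (pw_prod hp) _

/-- Expectation of a product of functions of different coordinates. -/
theorem ex_prod {p : ∀ i, A i → ℝ} (hp : ∀ i, PW (p i)) (s : Finset ι) (g : ∀ i, A i → ℝ) :
    Ex (prodW p) (fun ω => ∏ i ∈ s, g i (ω i)) = ∏ i ∈ s, Ex (p i) (g i) := by
  classical
  have h := Finset.prod_univ_sum (fun i => (univ : Finset (A i)))
    (fun i a => p i a * (if i ∈ s then g i a else 1))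
  rw [Fintype.piFinset_univ] at h
  unfold Ex prodW
  have h1 : ∀ ω : ∀ i, A i, (∏ i, p i (ω i)) * ∏ i ∈ s, g i (ω i)
      = ∏ i, (p i (ω i) * (if i ∈ s then g i (ω i) else 1)) := by
    intro ω
    rw [Finset.prod_mul_distrib, Finset.prod_ite_mem, Finset.univ_inter]
  simp_rw [h1]
  rw [← h]
  rw [← Finset.prod_subset (Finset.subset_univ s)]
  · refine Finset.prod_congr rfl fun i hi => ?_
    exact Finset.sum_congr rfl fun a _ => by rw [if_pos hi]
  · intro i _ hi
    simp only [if_neg hi, mul_one]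
    exact (hp i).2

/-- Probability of an event given by independent conditions on the coordinates. -/
theorem pr_forall {p : ∀ i, A i → ℝ} (hp : ∀ i, PW (p i)) (s : Finset ι) (E : ∀ i, A i → Prop) :
    Pr (prodW p) (fun ω => ∀ i ∈ s, E i (ω i)) = ∏ i ∈ s, Pr (p i) (E i) := by
  classical
  rw [pr_eq_ex]
  have h := ex_prod hp s (fun i a => if E i a then (1 : ℝ) else 0)
  have h1 : (fun ω : ∀ i, A i => if ∀ i ∈ s, E i (ω i) then (1 : ℝ) else 0)
      = fun ω => ∏ i ∈ s, if E i (ω i) then (1 : ℝ) else 0 := by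
    funext ω
    rw [Finset.prod_ite_zero]
    simp
  rw [h1, h]
  exact Finset.prod_congr rfl fun i _ => (pr_eq_ex _ _).symm

/-- Hoeffding's inequality, upper tail: sums of independent variables with values in an interval
of length `1` (or oscillation at most `1`). -/
theorem hoeffding_upper {p : ∀ i, A i → ℝ} (hp : ∀ i, PW (p i)) (s : Finset ι)
    (X : ∀ i, A i → ℝ) (hX0 : ∀ i a, 0 ≤ X i a) (hX1 : ∀ i a, X i a ≤ 1) (N : ℝ) (hN : 0 < N)
    (hsN : (s.card : ℝ) ≤ N) (x : ℝ) (hx : 0 ≤ x) :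
    Pr (prodW p) (fun ω => (∑ i ∈ s, Ex (p i) (X i)) + x ≤ ∑ i ∈ s, X i (ω i))
      ≤ Real.exp (-(x ^ 2 / (2 * N))) := by
  classical
  have h := mcdiarmid_upper hp (fun ω => ∑ i ∈ s, X i (ω i)) (fun i => if i ∈ s then 1 else 0)
    ?_ N hN ?_ x hx
  · rw [ex_sum] at h
    have h1 : ∀ i ∈ s, Ex (prodW p) (fun ω => X i (ω i)) = Ex (p i) (X i) :=
      fun i _ => ex_coord hp i (X i)
    rw [Finset.sum_congr rfl h1] at h
    exact h
  · intro i ω a
    by_cases hi : i ∈ s
    · rw [if_pos hi, ← Finset.sum_sub_distrib]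
      rw [Finset.sum_eq_single i]
      · rw [Function.update_self, abs_le]
        have := hX0 i a
        have := hX1 i a
        have := hX0 i (ω i)
        have := hX1 i (ω i)
        constructor <;> linarith
      · intro j _ hj
        rw [Function.update_of_ne hj, sub_self]
      · intro h; exact absurd hi h
    · rw [if_neg hi, ← Finset.sum_sub_distrib, Finset.sum_eq_zero, abs_zero]
      intro j hj
      have hji : j ≠ i := by
        rintro rfl
        exact hi hj
      rw [Function.update_of_ne hji, sub_self]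
  · refine le_trans (le_of_eq ?_) hsN
    simp

/-- Hoeffding's inequality, lower tail. -/
theorem hoeffding_lower {p : ∀ i, A i → ℝ} (hp : ∀ i, PW (p i)) (s : Finset ι)
    (X : ∀ i, A i → ℝ) (hX0 : ∀ i a, 0 ≤ X i a) (hX1 : ∀ i a, X i a ≤ 1) (N : ℝ) (hN : 0 < N)
    (hsN : (s.card : ℝ) ≤ N) (x : ℝ) (hx : 0 ≤ x) :
    Pr (prodW p) (fun ω => ∑ i ∈ s, X i (ω i) ≤ (∑ i ∈ s, Ex (p i) (X i)) - x)
      ≤ Real.exp (-(x ^ 2 / (2 * N))) := by
  have h := hoeffding_upper hp s (fun i a => 1 - X i a) (fun i a => by have := hX1 i a; linarith)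
    (fun i a => by have := hX0 i a; linarith) N hN hsN x hx
  refine le_trans (pr_mono (pw_prod hp) ?_) h
  intro ω hω
  have h1 : ∀ i ∈ s, Ex (p i) (fun a => 1 - X i a) = 1 - Ex (p i) (X i) := fun i _ => by
    rw [ex_sub, ex_const (hp i)]
  rw [Finset.sum_congr rfl h1, Finset.sum_sub_distrib, Finset.sum_sub_distrib]
  linarith

/-- Exponential moment of a sum of independent variables with values in `[0,1]`. -/
theorem mgf_sum_le {p : ∀ i, A i → ℝ} (hp : ∀ i, PW (p i)) (s : Finset ι)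
    (X : ∀ i, A i → ℝ) (hX0 : ∀ i a, 0 ≤ X i a) (hX1 : ∀ i a, X i a ≤ 1) (t : ℝ) :
    Ex (prodW p) (fun ω => Real.exp (t * ∑ i ∈ s, X i (ω i)))
      ≤ Real.exp ((Real.exp t - 1) * ∑ i ∈ s, Ex (p i) (X i)) := by
  classical
  have h1 : (fun ω : ∀ i, A i => Real.exp (t * ∑ i ∈ s, X i (ω i)))
      = fun ω => ∏ i ∈ s, (fun i a => Real.exp (t * X i a)) i (ω i) := by
    funext ω
    rw [Finset.mul_sum, Real.exp_sum]
  rw [h1, ex_prod hp s (fun i a => Real.exp (t * X i a)), Finset.mul_sum, Real.exp_sum]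
  refine Finset.prod_le_prod (fun i _ => ex_nonneg (hp i) fun a => (Real.exp_pos _).le)
    fun i _ => ?_
  have h2 : ∀ a, Real.exp (t * X i a) ≤ 1 + (Real.exp t - 1) * X i a := by
    intro a
    have h3 := convexOn_exp.2 (Set.mem_univ (0 : ℝ)) (Set.mem_univ t)
      (sub_nonneg.2 (hX1 i a)) (hX0 i a) (by ring)
    simp only [smul_eq_mul, mul_zero, zero_add, Real.exp_zero, mul_one] at h3
    rw [mul_comm t]
    linarith
  refine (ex_mono (hp i) h2).trans ?_
  rw [ex_add, ex_const (hp i), ex_mul_left]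
  have := Real.add_one_le_exp ((Real.exp t - 1) * Ex (p i) (X i))
  linarith

/-- Multiplicative Chernoff bound, upper tail: for `M` at least the mean and `0 ≤ x ≤ 2 M`. -/
theorem chernoff_upper {p : ∀ i, A i → ℝ} (hp : ∀ i, PW (p i)) (s : Finset ι)
    (X : ∀ i, A i → ℝ) (hX0 : ∀ i a, 0 ≤ X i a) (hX1 : ∀ i a, X i a ≤ 1) (M : ℝ) (hM : 0 < M)
    (hμ : ∑ i ∈ s, Ex (p i) (X i) ≤ M) (x : ℝ) (hx : 0 ≤ x) (hxM : x ≤ 2 * M) :
    Pr (prodW p) (fun ω => M + x ≤ ∑ i ∈ s, X i (ω i)) ≤ Real.exp (-(x ^ 2 / (4 * M))) := by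
  set t : ℝ := x / (2 * M) with ht
  have ht0 : 0 ≤ t := by positivity
  have ht1 : t ≤ 1 := by
    rw [ht, div_le_one (by positivity)]
    exact hxM
  have h1 := mgf_sum_le hp s X hX0 hX1 t
  have h2 : Pr (prodW p) (fun ω => M + x ≤ ∑ i ∈ s, X i (ω i))
      ≤ Ex (prodW p) (fun ω => Real.exp (t * ∑ i ∈ s, X i (ω i)) * Real.exp (-(t * (M + x)))) := by
    refine pr_le_ex (pw_prod hp) (fun ω => by positivity) fun ω hω => ?_
    rw [← Real.exp_add]
    refine Real.one_le_exp ?_
    have := mul_le_mul_of_nonneg_left hω ht0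
    linarith
  rw [ex_mul_right] at h2
  refine h2.trans ((mul_le_mul_of_nonneg_right h1 (Real.exp_pos _).le).trans ?_)
  rw [← Real.exp_add]
  refine Real.exp_le_exp.2 ?_
  have h3 := Real.abs_exp_sub_one_sub_id_le (x := t) (by rw [abs_of_nonneg ht0]; exact ht1)
  have h4 := (abs_le.1 h3).2
  have h5 : 0 ≤ Real.exp t - 1 := by
    have := Real.one_le_exp ht0
    linarith
  have h6 : (Real.exp t - 1) * ∑ i ∈ s, Ex (p i) (X i) ≤ (t + t ^ 2) * M :=
    (mul_le_mul_of_nonneg_left hμ h5).trans (mul_le_mul_of_nonneg_right (by linarith) hM.le)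
  have h7 : (t + t ^ 2) * M + -(t * (M + x)) = -(x ^ 2 / (4 * M)) := by
    rw [ht]
    field_simp
    ring
  linarith

/-- Multiplicative Chernoff bound, lower tail: for `M` at most the mean and `0 ≤ x ≤ 2 M`. -/
theorem chernoff_lower {p : ∀ i, A i → ℝ} (hp : ∀ i, PW (p i)) (s : Finset ι)
    (X : ∀ i, A i → ℝ) (hX0 : ∀ i a, 0 ≤ X i a) (hX1 : ∀ i a, X i a ≤ 1) (M : ℝ) (hM : 0 < M)
    (hμ : M ≤ ∑ i ∈ s, Ex (p i) (X i)) (x : ℝ) (hx : 0 ≤ x) (hxM : x ≤ 2 * M) :
    Pr (prodW p) (fun ω => ∑ i ∈ s, X i (ω i) ≤ M - x) ≤ Real.exp (-(x ^ 2 / (4 * M))) := by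
  set t : ℝ := x / (2 * M) with ht
  have ht0 : 0 ≤ t := by positivity
  have ht1 : t ≤ 1 := by
    rw [ht, div_le_one (by positivity)]
    exact hxM
  have h1 := mgf_sum_le hp s X hX0 hX1 (-t)
  have h2 : Pr (prodW p) (fun ω => ∑ i ∈ s, X i (ω i) ≤ M - x)
      ≤ Ex (prodW p) (fun ω => Real.exp (-t * ∑ i ∈ s, X i (ω i)) * Real.exp (t * (M - x))) := by
    refine pr_le_ex (pw_prod hp) (fun ω => by positivity) fun ω hω => ?_
    rw [← Real.exp_add]
    refine Real.one_le_exp ?_
    have := mul_le_mul_of_nonneg_left hω ht0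
    linarith
  rw [ex_mul_right] at h2
  refine h2.trans ((mul_le_mul_of_nonneg_right h1 (Real.exp_pos _).le).trans ?_)
  rw [← Real.exp_add]
  refine Real.exp_le_exp.2 ?_
  have h3 := Real.abs_exp_sub_one_sub_id_le (x := -t) (by rw [abs_neg, abs_of_nonneg ht0]; exact ht1)
  have h4 := (abs_le.1 h3).2
  have h5 : Real.exp (-t) - 1 ≤ 0 := by
    have := Real.exp_le_one_iff.2 (neg_nonpos.2 ht0)
    linarith
  have h6 : (Real.exp (-t) - 1) * ∑ i ∈ s, Ex (p i) (X i) ≤ (-t + t ^ 2) * M := by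
    have h8 := mul_le_mul_of_nonpos_left hμ h5
    have h9 : (Real.exp (-t) - 1) * M ≤ (-t + t ^ 2) * M :=
      mul_le_mul_of_nonneg_right (by nlinarith) hM.le
    linarith
  have h7 : (-t + t ^ 2) * M + (t * (M - x)) = -(x ^ 2 / (4 * M)) := by
    rw [ht]
    field_simp
    ring
  linarith

end Prod

end

end NWC
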