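import Mathlib

/-!
# Project NW: common definitions

A graph on the finite type `V` is a finset `E : Finset (Sym2 V)` without loops (`NL E`).
`Dec E` says that `E` is an edge-disjoint union of triangles.
-/

set_option linter.unusedSectionVars false

namespace NW

open Finset

section Basic

variable {V : Type*} [DecidableEq V]

/-- no loops -/
def NL (E : Finset (Sym2 V)) : Prop := ∀ e ∈ E, ¬ e.IsDiag

/-- the three edges of the triangle `a b c` -/
def tri (a b c : V) : Finset (Sym2 V) := {s(a, b), s(b, c), s(a, c)}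

/-- `Dec E`: the edge set `E` is an edge-disjoint union of triangles -/
inductive Dec : Finset (Sym2 V) → Prop
  | empty : Dec ∅
  | cons {a b c : V} {E : Finset (Sym2 V)} (hab : a ≠ b) (hbc : b ≠ c) (hac : a ≠ c)
      (hd : Disjoint (tri a b c) E) (hE : Dec E) : Dec (tri a b c ∪ E)

/-- the edges spanned by a vertex set `t` (all pairs of distinct elements) -/
def edg (t : Finset V) : Finset (Sym2 V) := t.sym2.filter (fun e => ¬ e.IsDiag)

/-- `𝒯` is a set of edge-disjoint triangles of `E` -/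
def IsPack (𝒯 : Finset (Finset V)) (E : Finset (Sym2 V)) : Prop :=
  (∀ t ∈ 𝒯, t.card = 3 ∧ edg t ⊆ E) ∧
    ∀ t ∈ 𝒯, ∀ t' ∈ 𝒯, t ≠ t' → Disjoint (edg t) (edg t')

theorem mem_tri {a b c : V} {e : Sym2 V} :
    e ∈ tri a b c ↔ e = s(a, b) ∨ e = s(b, c) ∨ e = s(a, c) := by
  simp [tri]

theorem mem_edg {t : Finset V} {e : Sym2 V} : e ∈ edg t ↔ (∀ v ∈ e, v ∈ t) ∧ ¬ e.IsDiag := by
  simp [edg, Finset.mem_sym2_iff]

theorem mk_mem_edg {t : Finset V} {a b : V} : s(a, b) ∈ edg t ↔ a ∈ t ∧ b ∈ t ∧ a ≠ b := by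
  rw [mem_edg]
  simp [and_assoc]

theorem NL.mono {E F : Finset (Sym2 V)} (h : F ⊆ E) (hE : NL E) : NL F := fun e he => hE e (h he)

theorem NL.union {E F : Finset (Sym2 V)} (hE : NL E) (hF : NL F) : NL (E ∪ F) := by
  intro e he
  rcases Finset.mem_union.1 he with h | h
  · exact hE e h
  · exact hF e h

theorem nl_edg (t : Finset V) : NL (edg t) := fun _ he => (mem_edg.1 he).2

theorem edg_triple {a b c : V} (hab : a ≠ b) (hbc : b ≠ c) (hac : a ≠ c) :
    edg ({a, b, c} : Finset V) = tri a b c := by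
  ext e
  induction e using Sym2.ind with
  | _ x y =>
    rw [mk_mem_edg, mem_tri]
    simp only [Finset.mem_insert, Finset.mem_singleton, Sym2.eq_iff]
    constructor
    · rintro ⟨h1, h2, h3⟩
      rcases h1 with rfl | rfl | rfl <;> rcases h2 with rfl | rfl | rfl <;> simp_all
    · rintro ((⟨rfl, rfl⟩ | ⟨rfl, rfl⟩) | (⟨rfl, rfl⟩ | ⟨rfl, rfl⟩) | (⟨rfl, rfl⟩ | ⟨rfl, rfl⟩)) <;>
        simp_all [ne_comm]

theorem nl_tri {a b c : V} (hab : a ≠ b) (hbc : b ≠ c) (hac : a ≠ c) : NL (tri a b c) := by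
  rw [← edg_triple hab hbc hac]; exact nl_edg _

theorem card_tri {a b c : V} (hab : a ≠ b) (hbc : b ≠ c) (hac : a ≠ c) :
    (tri a b c).card = 3 := by
  unfold tri
  rw [Finset.card_insert_of_notMem, Finset.card_insert_of_notMem, Finset.card_singleton]
  · simp only [Finset.mem_singleton, Sym2.eq_iff]
    rintro (⟨rfl, _⟩ | ⟨_, rfl⟩)
    · exact hab rfl
    · exact hac rfl
  · simp only [Finset.mem_insert, Finset.mem_singleton, Sym2.eq_iff]
    rintro ((⟨rfl, _⟩ | ⟨rfl, _⟩) | (⟨_, rfl⟩ | ⟨rfl, rfl⟩))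
    · exact hab rfl
    · exact hac rfl
    · exact hbc rfl
    · exact hac rfl

theorem Dec.tri {a b c : V} (hab : a ≠ b) (hbc : b ≠ c) (hac : a ≠ c) : Dec (NW.tri a b c) := by
  have := Dec.cons hab hbc hac (Finset.disjoint_empty_right _) Dec.empty
  rwa [Finset.union_empty] at this

theorem Dec.union {E F : Finset (Sym2 V)} (hE : Dec E) (hF : Dec F) (h : Disjoint E F) :
    Dec (E ∪ F) := by
  induction hE with
  | empty => rwa [Finset.empty_union]
  | cons hab hbc hac hd _ ih =>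
    rw [Finset.union_assoc]
    rw [Finset.disjoint_union_left] at h
    exact Dec.cons hab hbc hac (Finset.disjoint_union_right.2 ⟨hd, h.1⟩) (ih h.2)

theorem Dec.nl {E : Finset (Sym2 V)} (hE : Dec E) : NL E := by
  induction hE with
  | empty => intro e he; simp at he
  | cons hab hbc hac hd _ ih => exact (nl_tri hab hbc hac).union ih

theorem Dec.three_dvd {E : Finset (Sym2 V)} (hE : Dec E) : 3 ∣ E.card := by
  induction hE with
  | empty => simp
  | cons hab hbc hac hd _ ih =>
    rw [Finset.card_union_of_disjoint hd, card_tri hab hbc hac]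
    exact (Nat.dvd_add_right (dvd_refl 3)).2 ih

/-- an edge-disjoint family of decomposable sets has a decomposable union -/
theorem Dec.biUnion {ι : Type*} [DecidableEq ι] (s : Finset ι) (f : ι → Finset (Sym2 V))
    (hf : ∀ i ∈ s, Dec (f i)) (hd : ∀ i ∈ s, ∀ j ∈ s, i ≠ j → Disjoint (f i) (f j)) :
    Dec (s.biUnion f) := by
  induction s using Finset.induction_on with
  | empty => simpa using Dec.empty
  | insert a s ha ih =>
    rw [Finset.biUnion_insert]
    refine Dec.union (hf a (Finset.mem_insert_self _ _))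
      (ih (fun i hi => hf i (Finset.mem_insert_of_mem hi))
        (fun i hi j hj => hd i (Finset.mem_insert_of_mem hi) j (Finset.mem_insert_of_mem hj))) ?_
    rw [Finset.disjoint_biUnion_right]
    intro i hi
    refine hd a (Finset.mem_insert_self _ _) i (Finset.mem_insert_of_mem hi) ?_
    rintro rfl
    exact ha hi

theorem dec_edg {t : Finset V} (ht : t.card = 3) : Dec (edg t) := by
  obtain ⟨a, b, c, hab, hac, hbc, rfl⟩ := Finset.card_eq_three.1 ht
  rw [edg_triple hab hbc hac]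
  exact Dec.tri hab hbc hac

theorem IsPack.dec {𝒯 : Finset (Finset V)} {E : Finset (Sym2 V)} (h : IsPack 𝒯 E) :
    Dec (𝒯.biUnion edg) :=
  Dec.biUnion 𝒯 edg (fun t ht => dec_edg (h.1 t ht).1) h.2

theorem IsPack.subset {𝒯 : Finset (Finset V)} {E : Finset (Sym2 V)} (h : IsPack 𝒯 E) :
    𝒯.biUnion edg ⊆ E := Finset.biUnion_subset.2 fun t ht => (h.1 t ht).2

theorem IsPack.mono {𝒯 𝒯' : Finset (Finset V)} {E F : Finset (Sym2 V)} (h : IsPack 𝒯 E)
    (hT : 𝒯' ⊆ 𝒯) (hE : E ⊆ F) : IsPack 𝒯' F :=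
  ⟨fun t ht => ⟨(h.1 t (hT ht)).1, (h.1 t (hT ht)).2.trans hE⟩,
    fun t ht t' ht' => h.2 t (hT ht) t' (hT ht')⟩

/-- every decomposable edge set has a packing by triangles using every edge -/
theorem Dec.exists_pack {E : Finset (Sym2 V)} (hE : Dec E) :
    ∃ 𝒯 : Finset (Finset V), IsPack 𝒯 E ∧ 𝒯.biUnion edg = E := by
  induction hE with
  | empty => exact ⟨∅, ⟨by simp, by simp⟩, by simp⟩
  | @cons a b c E hab hbc hac hd _ ih =>
    obtain ⟨𝒯, h𝒯, hE⟩ := ih
    have hT : ∀ t ∈ 𝒯, edg t ⊆ E := fun t ht => (h𝒯.1 t ht).2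
    have hdis : ∀ t ∈ 𝒯, Disjoint (edg ({a, b, c} : Finset V)) (edg t) := fun t ht => by
      rw [edg_triple hab hbc hac]
      exact Finset.disjoint_of_subset_right (hT t ht) hd
    refine ⟨insert {a, b, c} 𝒯, ⟨?_, ?_⟩, ?_⟩
    · intro t ht
      rcases Finset.mem_insert.1 ht with rfl | ht
      · refine ⟨Finset.card_eq_three.2 ⟨a, b, c, hab, hac, hbc, rfl⟩, ?_⟩
        rw [edg_triple hab hbc hac]
        exact Finset.subset_union_left
      · exact ⟨(h𝒯.1 t ht).1, (hT t ht).trans Finset.subset_union_right⟩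
    · intro t ht t' ht' hne
      rcases Finset.mem_insert.1 ht with rfl | ht <;> rcases Finset.mem_insert.1 ht' with rfl | ht'
      · exact absurd rfl hne
      · exact hdis t' ht'
      · exact (hdis t ht).symm
      · exact h𝒯.2 t ht t' ht' hne
    · rw [Finset.biUnion_insert, hE, edg_triple hab hbc hac]

end Basic

section Deg

variable {V : Type*} [DecidableEq V] [Fintype V]

/-- the neighbours of `v` in the edge set `E` -/
def nbr (E : Finset (Sym2 V)) (v : V) : Finset V := univ.filter (fun u => s(v, u) ∈ E)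

/-- the degree of `v` in `E` -/
def deg (E : Finset (Sym2 V)) (v : V) : ℕ := (nbr E v).card

/-- the degree of `v` into the set `X` -/
def degIn (E : Finset (Sym2 V)) (X : Finset V) (v : V) : ℕ := (nbr E v ∩ X).card

/-- `K_3`-divisible edge set -/
def Divis (E : Finset (Sym2 V)) : Prop := NL E ∧ (∀ v, Even (deg E v)) ∧ 3 ∣ E.card

@[simp] theorem mem_nbr {E : Finset (Sym2 V)} {u v : V} : u ∈ nbr E v ↔ s(v, u) ∈ E := by
  simp [nbr]

theorem mem_nbr_comm {E : Finset (Sym2 V)} {u v : V} : u ∈ nbr E v ↔ v ∈ nbr E u := by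
  rw [mem_nbr, mem_nbr, Sym2.eq_swap]

theorem nbr_union (E F : Finset (Sym2 V)) (v : V) : nbr (E ∪ F) v = nbr E v ∪ nbr F v := by
  ext u; simp

theorem nbr_sdiff (E F : Finset (Sym2 V)) (v : V) : nbr (E \ F) v = nbr E v \ nbr F v := by
  ext u; simp

theorem nbr_inter (E F : Finset (Sym2 V)) (v : V) : nbr (E ∩ F) v = nbr E v ∩ nbr F v := by
  ext u; simp

theorem nbr_mono {E F : Finset (Sym2 V)} (h : E ⊆ F) (v : V) : nbr E v ⊆ nbr F v := by
  intro u; simpa using fun hu => h hu

theorem deg_mono {E F : Finset (Sym2 V)} (h : E ⊆ F) (v : V) : deg E v ≤ deg F v :=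
  Finset.card_le_card (nbr_mono h v)

theorem deg_union {E F : Finset (Sym2 V)} (h : Disjoint E F) (v : V) :
    deg (E ∪ F) v = deg E v + deg F v := by
  unfold deg
  rw [nbr_union, Finset.card_union_of_disjoint]
  rw [Finset.disjoint_left]
  intro u hu hu'
  exact Finset.disjoint_left.1 h (mem_nbr.1 hu) (mem_nbr.1 hu')

theorem deg_union_le (E F : Finset (Sym2 V)) (v : V) : deg (E ∪ F) v ≤ deg E v + deg F v := by
  unfold deg
  rw [nbr_union]
  exact Finset.card_union_le _ _

theorem deg_sdiff {E F : Finset (Sym2 V)} (h : F ⊆ E) (v : V) :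
    deg (E \ F) v = deg E v - deg F v := by
  unfold deg
  rw [nbr_sdiff, Finset.card_sdiff_of_subset (nbr_mono h v)]

theorem deg_sdiff_add {E F : Finset (Sym2 V)} (h : F ⊆ E) (v : V) :
    deg (E \ F) v + deg F v = deg E v := by
  rw [deg_sdiff h, Nat.sub_add_cancel (deg_mono h v)]

theorem Dec.even_deg {E : Finset (Sym2 V)} (hE : Dec E) (v : V) : Even (deg E v) := by
  induction hE with
  | empty => simp [deg, nbr]
  | @cons a b c E hab hbc hac hd _ ih =>
    rw [deg_union hd]
    refine Even.add ?_ ih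
    have : nbr (NW.tri a b c) v =
        if v = a then {b, c} else if v = b then {a, c} else if v = c then {a, b} else ∅ := by
      ext u
      rw [mem_nbr, mem_tri]
      simp only [Sym2.eq_iff]
      split_ifs with h1 h2 h3
      · subst h1; simp; tauto
      · subst h2; simp; tauto
      · subst h3; simp; tauto
      · simp; tauto
    unfold deg
    rw [this]
    split_ifs
    · rw [Finset.card_pair hbc]; decide
    · rw [Finset.card_pair hac]; decide
    · rw [Finset.card_pair hab]; decide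
    · simp

theorem Dec.divis {E : Finset (Sym2 V)} (hE : Dec E) : Divis E :=
  ⟨hE.nl, hE.even_deg, hE.three_dvd⟩

/-- removing a decomposable part keeps divisibility -/
theorem Divis.sdiff {E F : Finset (Sym2 V)} (hE : Divis E) (hF : Divis F) (h : F ⊆ E) :
    Divis (E \ F) := by
  refine ⟨hE.1.mono Finset.sdiff_subset, fun v => ?_, ?_⟩
  · have h1 := deg_sdiff_add h v
    have h2 := hE.2.1 v
    have h3 := hF.2.1 v
    rw [← h1] at h2
    exact (Nat.even_add.1 h2).2 h3
  · have h1 := Finset.card_sdiff_add_card_eq_card h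
    have h2 := hE.2.2
    rw [← h1] at h2
    exact (Nat.dvd_add_left hF.2.2).1 h2

end Deg

section Bridge

variable {V : Type*} [Fintype V] [DecidableEq V]

/-- the final form: a decomposition of a simple graph -/
theorem Dec.toSimpleGraph (G : SimpleGraph V) [DecidableRel G.Adj] (h : Dec G.edgeFinset) :
    ∃ 𝒯 : Finset (Finset V), (∀ t ∈ 𝒯, G.IsNClique 3 t) ∧
      ∀ u v : V, G.Adj u v → ∃! t, t ∈ 𝒯 ∧ u ∈ t ∧ v ∈ t := by
  obtain ⟨𝒯, h𝒯, hE⟩ := h.exists_pack
  refine ⟨𝒯, fun t ht => ?_, fun u v huv => ?_⟩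
  · rw [SimpleGraph.isNClique_iff, SimpleGraph.isClique_iff]
    refine ⟨fun a ha b hb hab => ?_, (h𝒯.1 t ht).1⟩
    have := (h𝒯.1 t ht).2 (mk_mem_edg.2 ⟨ha, hb, hab⟩)
    simpa using this
  · have : s(u, v) ∈ 𝒯.biUnion edg := by rw [hE]; simpa using huv
    obtain ⟨t, ht, hut⟩ := Finset.mem_biUnion.1 this
    obtain ⟨h1, h2, h3⟩ := mk_mem_edg.1 hut
    refine ⟨t, ⟨ht, h1, h2⟩, ?_⟩
    rintro t' ⟨ht', h1', h2'⟩
    by_contra hne
    exact Finset.disjoint_left.1 (h𝒯.2 t' ht' t ht hne) (mk_mem_edg.2 ⟨h1', h2', h3⟩) hut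

theorem deg_edgeFinset (G : SimpleGraph V) [DecidableRel G.Adj] (v : V) :
    deg G.edgeFinset v = G.degree v := by
  rw [deg, ← SimpleGraph.card_neighborFinset_eq_degree]
  refine congrArg Finset.card ?_
  ext u; simp

end Bridge

end NW
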