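import Pool.Agent.NW.Statements

/-!
# Project NW, N2: the nibble statement from the nibble for linear 3-uniform families
-/

set_option linter.unusedSectionVars false

namespace NW

open Finset

/-- The nibble for linear 3-uniform families: `C` is a family of three-element subsets of `H0`,
two of them meet in at most one point, `w` are small weights with sums in `[1 - η, 1]` at every
point; then there is a matching missing at most `γ m_j` points of every test set `S j`. -/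
def Lin3Statement : Prop :=
  ∀ γ : ℝ, 0 < γ → ∃ η > 0, ∃ c > 0, ∀ (E J : Type) [DecidableEq E] [Fintype J]
    (H0 : Finset E) (C : Finset (Finset E)) (w : Finset E → ℝ) (τ : ℝ) (S : J → Finset E)
    (m : J → ℝ),
    (∀ T ∈ C, T.card = 3 ∧ T ⊆ H0) →
    (∀ T ∈ C, ∀ T' ∈ C, T ≠ T' → (T ∩ T').card ≤ 1) →
    (∀ T ∈ C, 0 ≤ w T ∧ w T ≤ τ) →
    (∀ e ∈ H0, 1 - η ≤ ∑ T ∈ C with e ∈ T, w T ∧ ∑ T ∈ C with e ∈ T, w T ≤ 1) →
    (∀ j, S j ⊆ H0 ∧ ((S j).card : ℝ) ≤ m j ∧ 1 ≤ τ * m j) →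
    1 ≤ τ * (H0.card : ℝ) →
    τ * (Real.log (2 + H0.card + Fintype.card J)) ^ 2 ≤ c →
    ∃ M ⊆ C, (∀ T ∈ M, ∀ T' ∈ M, T ≠ T' → Disjoint T T') ∧
      ∀ j, ((S j \ M.biUnion id).card : ℝ) ≤ γ * m j

section Edg

variable {V : Type*} [DecidableEq V]

theorem card_edg_three {t : Finset V} (ht : t.card = 3) : (edg t).card = 3 := by
  obtain ⟨a, b, c, hab, hac, hbc, rfl⟩ := Finset.card_eq_three.1 ht
  rw [edg_triple hab hbc hac]
  exact card_tri hab hbc hac

theorem edg_inter (t t' : Finset V) : edg t ∩ edg t' = edg (t ∩ t') := by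
  ext e
  simp only [Finset.mem_inter, mem_edg]
  constructor
  · rintro ⟨⟨h1, h2⟩, ⟨h3, _⟩⟩
    exact ⟨fun v hv => ⟨h1 v hv, h3 v hv⟩, h2⟩
  · rintro ⟨h1, h2⟩
    exact ⟨⟨fun v hv => (h1 v hv).1, h2⟩, ⟨fun v hv => (h1 v hv).2, h2⟩⟩

theorem card_edg_le_one {t : Finset V} (ht : t.card ≤ 2) : (edg t).card ≤ 1 := by
  rw [Finset.card_le_one]
  intro e he f hf
  induction e using Sym2.ind with
  | _ a b =>
    induction f using Sym2.ind with
    | _ c d =>
      obtain ⟨ha, hb, hab⟩ := mk_mem_edg.1 he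
      obtain ⟨hc, hd, hcd⟩ := mk_mem_edg.1 hf
      have h1 : ({a, b} : Finset V) = t := by
        refine Finset.eq_of_subset_of_card_le ?_ ?_
        · intro x hx
          rcases Finset.mem_insert.1 hx with rfl | hx
          · exact ha
          · rwa [Finset.mem_singleton.1 hx]
        · rw [Finset.card_pair hab]; exact ht
      rw [← h1] at hc hd
      simp only [Finset.mem_insert, Finset.mem_singleton] at hc hd
      rw [Sym2.eq_iff]
      rcases hc with rfl | rfl <;> rcases hd with rfl | rfl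
      · exact absurd rfl hcd
      · exact Or.inl ⟨rfl, rfl⟩
      · exact Or.inr ⟨rfl, rfl⟩
      · exact absurd rfl hcd

theorem edg_lin {t t' : Finset V} (ht : t.card = 3) (ht' : t'.card = 3) (hne : t ≠ t') :
    (edg t ∩ edg t').card ≤ 1 := by
  rw [edg_inter]
  refine card_edg_le_one ?_
  by_contra h
  push Not at h
  have h1 : t ∩ t' = t := Finset.eq_of_subset_of_card_le Finset.inter_subset_left (by omega)
  have h2 : t ∩ t' = t' := Finset.eq_of_subset_of_card_le Finset.inter_subset_right (by omega)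
  exact hne (h1.symm.trans h2)

theorem edg_inj {t t' : Finset V} (ht : t.card = 3) (ht' : t'.card = 3) (h : edg t = edg t') :
    t = t' := by
  by_contra hne
  have h1 := edg_lin ht ht' hne
  rw [h, Finset.inter_self, card_edg_three ht'] at h1
  omega

end Edg

section Deg

variable {V : Type*} [DecidableEq V] [Fintype V]

/-- the edges at the vertex `v` -/
def lstar (E : Finset (Sym2 V)) (v : V) : Finset (Sym2 V) := E.filter (fun e => v ∈ e)

theorem card_star (E : Finset (Sym2 V)) (v : V) : (lstar E v).card = deg E v := by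
  have h : lstar E v = (nbr E v).image (fun u => s(v, u)) := by
    ext e
    simp only [lstar, Finset.mem_filter, Finset.mem_image, mem_nbr]
    constructor
    · rintro ⟨h1, h2⟩
      obtain ⟨u, rfl⟩ := h2
      exact ⟨u, h1, rfl⟩
    · rintro ⟨u, h1, rfl⟩
      exact ⟨h1, Sym2.mem_mk_left v u⟩
  rw [h, Finset.card_image_of_injective, deg]
  intro a b hab
  exact (Sym2.congr_right.1 hab)

theorem star_sdiff (E F : Finset (Sym2 V)) (v : V) : lstar (E \ F) v = lstar E v \ F := by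
  ext e
  simp only [lstar, Finset.mem_filter, Finset.mem_sdiff]
  tauto

theorem deg_le_cardV (E : Finset (Sym2 V)) (v : V) : deg E v ≤ Fintype.card V :=
  Finset.card_le_univ _

theorem sum_deg {E : Finset (Sym2 V)} (hE : NL E) : ∑ v, deg E v = 2 * E.card := by
  have h1 : ∀ v, deg E v = ∑ e ∈ E, if v ∈ e then 1 else 0 := by
    intro v
    rw [← card_star, lstar, Finset.card_filter]
  simp_rw [h1]
  rw [Finset.sum_comm]
  have h2 : ∀ e ∈ E, (∑ v : V, if v ∈ e then 1 else 0) = 2 := by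
    intro e he
    have hd := hE e he
    induction e using Sym2.ind with
    | _ a b =>
      have hab : a ≠ b := fun h => hd (by rw [h]; exact Sym2.mk_isDiag_iff.2 rfl)
      rw [← Finset.card_filter]
      have : (univ.filter (fun v : V => v ∈ s(a, b))) = {a, b} := by
        ext v
        simp [Sym2.mem_iff]
      rw [this, Finset.card_pair hab]
  rw [Finset.sum_congr rfl h2, Finset.sum_const, smul_eq_mul, mul_comm]

theorem card_le_sq {E : Finset (Sym2 V)} (hE : NL E) :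
    2 * E.card ≤ Fintype.card V * Fintype.card V := by
  rw [← sum_deg hE]
  calc ∑ v, deg E v ≤ ∑ _v : V, Fintype.card V := Finset.sum_le_sum fun v _ => deg_le_cardV E v
    _ = _ := by rw [Finset.sum_const, smul_eq_mul, Finset.card_univ]

end Deg

theorem exists_n0 (C c : ℝ) (hc : 0 < c) : ∃ n0 : ℕ, ∀ n : ℕ, n0 ≤ n →
    4 ≤ n ∧ C / n * (Real.log (2 + (n : ℝ) ^ 2 + n)) ^ 2 ≤ c := by
  have h1 : Filter.Tendsto (fun x : ℝ => (Real.log x) ^ 2 / x) Filter.atTop (nhds 0) := by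
    have := Real.tendsto_pow_log_div_mul_add_atTop 1 0 2 one_ne_zero
    simpa using this
  have h2 : Filter.Tendsto (fun n : ℕ => 9 * C * ((Real.log (n : ℝ)) ^ 2 / (n : ℝ)))
      Filter.atTop (nhds 0) := by
    have := (h1.comp tendsto_natCast_atTop_atTop).const_mul (9 * C)
    simpa using this
  have h3 := (h2.eventually (gt_mem_nhds hc)).and (Filter.eventually_ge_atTop 4)
  obtain ⟨n0, hn0⟩ := Filter.eventually_atTop.1 h3
  refine ⟨n0, fun n hn => ?_⟩
  obtain ⟨h4, h5⟩ := hn0 n hn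
  refine ⟨h5, ?_⟩
  have hn4 : (4 : ℝ) ≤ n := by exact_mod_cast h5
  have hlog : Real.log (2 + (n : ℝ) ^ 2 + n) ≤ 3 * Real.log n := by
    rw [show (3 : ℝ) * Real.log n = Real.log ((n : ℝ) ^ 3) by rw [Real.log_pow]; push_cast; ring]
    refine Real.log_le_log (by positivity) ?_
    nlinarith [sq_nonneg ((n : ℝ) - 2), mul_nonneg (sub_nonneg.2 hn4) (sq_nonneg (n : ℝ))]
  have hlog0 : 0 ≤ Real.log (2 + (n : ℝ) ^ 2 + n) := Real.log_nonneg (by nlinarith)
  have hsq : (Real.log (2 + (n : ℝ) ^ 2 + n)) ^ 2 ≤ 9 * (Real.log n) ^ 2 := by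
    nlinarith
  by_cases hC : 0 ≤ C
  · have h6 : C / n * (Real.log (2 + (n : ℝ) ^ 2 + n)) ^ 2 ≤ C / n * (9 * (Real.log n) ^ 2) :=
      mul_le_mul_of_nonneg_left hsq (by positivity)
    refine h6.trans (le_of_eq_of_le ?_ (le_of_lt h4))
    ring
  · push Not at hC
    have : C / n * (Real.log (2 + (n : ℝ) ^ 2 + n)) ^ 2 ≤ 0 := by
      refine mul_nonpos_of_nonpos_of_nonneg ?_ (sq_nonneg _)
      exact div_nonpos_of_nonpos_of_nonneg hC.le (by positivity)
    linarith

theorem nibble_of_lin (h : Lin3Statement) : NibbleStatement := by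
  intro γ hγ
  obtain ⟨η, hη, c, hc, hmain⟩ := h γ hγ
  refine ⟨η, hη, fun C => ?_⟩
  obtain ⟨n0, hn0⟩ := exists_n0 (max C 1) c hc
  refine ⟨n0, fun V _ _ E hE hn hdeg w hw hsum => ?_⟩
  obtain ⟨hn4, hlog⟩ := hn0 _ hn
  set n := Fintype.card V with hndef
  have hn4' : (4 : ℝ) ≤ n := by exact_mod_cast hn4
  have hn0' : (0 : ℝ) < n := by linarith
  set T0 : Finset (Finset V) := univ.filter (fun t => t.card = 3 ∧ edg t ⊆ E) with hT0
  have hmemT0 : ∀ t, t ∈ T0 ↔ t.card = 3 ∧ edg t ⊆ E := by intro t; simp [hT0]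
  set Cf : Finset (Finset (Sym2 V)) := T0.image edg with hCf
  -- the weight on sets of edges
  let vs : Finset (Sym2 V) → Finset V := fun T => univ.filter (fun v => ∃ e ∈ T, v ∈ e)
  have hvs : ∀ t : Finset V, t.card = 3 → vs (edg t) = t := by
    intro t ht
    obtain ⟨a, b, d, hab, had, hbd, rfl⟩ := Finset.card_eq_three.1 ht
    ext v
    simp only [vs, Finset.mem_filter, Finset.mem_univ, true_and, Finset.mem_insert,
      Finset.mem_singleton]
    rw [edg_triple hab hbd had]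
    constructor
    · rintro ⟨e, he, hv⟩
      rcases mem_tri.1 he with rfl | rfl | rfl <;> rw [Sym2.mem_iff] at hv <;> tauto
    · rintro (rfl | rfl | rfl)
      · exact ⟨s(v, b), mem_tri.2 (Or.inl rfl), Sym2.mem_mk_left _ _⟩
      · exact ⟨s(v, d), mem_tri.2 (Or.inr (Or.inl rfl)), Sym2.mem_mk_left _ _⟩
      · exact ⟨s(b, v), mem_tri.2 (Or.inr (Or.inl rfl)), Sym2.mem_mk_right _ _⟩
  have hinj : Set.InjOn (edg : Finset V → Finset (Sym2 V)) T0 := by
    intro t ht t' ht' htt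
    exact edg_inj ((hmemT0 t).1 ht).1 ((hmemT0 t').1 ht').1 htt
  have hEcard : (n : ℝ) ^ 2 ≤ 4 * (E.card : ℝ) := by
    have h1 : (∑ v : V, (n : ℝ)) ≤ ∑ v : V, 2 * (deg E v : ℝ) :=
      Finset.sum_le_sum fun v _ => hdeg v
    rw [Finset.sum_const, Finset.card_univ, nsmul_eq_mul, ← Finset.mul_sum, ← Nat.cast_sum,
      sum_deg hE] at h1
    push_cast at h1
    nlinarith
  have hEcard2 : (E.card : ℝ) ≤ (n : ℝ) ^ 2 := by
    have := card_le_sq hE
    have h2 : (2 : ℝ) * E.card ≤ n * n := by exact_mod_cast this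
    have h3 : (0 : ℝ) ≤ E.card := Nat.cast_nonneg _
    nlinarith
  have hC1 : (1 : ℝ) ≤ max C 1 := le_max_right _ _
  have hA1 : ∀ T ∈ Cf, T.card = 3 ∧ T ⊆ E := by
    intro T hT
    obtain ⟨t, ht, rfl⟩ := Finset.mem_image.1 hT
    exact ⟨card_edg_three ((hmemT0 t).1 ht).1, ((hmemT0 t).1 ht).2⟩
  have hA2 : ∀ T ∈ Cf, ∀ T' ∈ Cf, T ≠ T' → (T ∩ T').card ≤ 1 := by
    intro T hT T' hT' hne
    obtain ⟨t, ht, rfl⟩ := Finset.mem_image.1 hT
    obtain ⟨t', ht', rfl⟩ := Finset.mem_image.1 hT'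
    exact edg_lin ((hmemT0 t).1 ht).1 ((hmemT0 t').1 ht').1 (fun h => hne (by rw [h]))
  have hA3 : ∀ T ∈ Cf, 0 ≤ w (vs T) ∧ w (vs T) ≤ max C 1 / n := by
    intro T hT
    refine ⟨hw.1 _, ?_⟩
    rw [le_div_iff₀ hn0']
    exact (hw.2.1 _).trans (le_max_left _ _)
  have hA4 : ∀ e ∈ E, 1 - η ≤ ∑ T ∈ Cf with e ∈ T, w (vs T) ∧
      ∑ T ∈ Cf with e ∈ T, w (vs T) ≤ 1 := by
    intro e he
    have h1 : ∑ T ∈ Cf with e ∈ T, w (vs T) = wsum w e := by
      rw [wsum, hCf, Finset.filter_image, Finset.sum_image]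
      · have h2 : ∀ t ∈ T0.filter (fun t => e ∈ edg t), w (vs (edg t)) = w t := by
          intro t ht
          rw [hvs t ((hmemT0 t).1 (Finset.mem_filter.1 ht).1).1]
        rw [Finset.sum_congr rfl h2]
        refine Finset.sum_subset ?_ ?_
        · intro t ht
          rw [Finset.mem_filter] at ht ⊢
          exact ⟨Finset.mem_univ _, ht.2⟩
        · intro t ht hnt
          by_contra hne
          exact hnt (Finset.mem_filter.2 ⟨(hmemT0 t).2 (hw.2.2 t hne), (Finset.mem_filter.1 ht).2⟩)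
      · intro t ht t' ht' htt
        exact hinj (Finset.mem_filter.1 ht).1 (Finset.mem_filter.1 ht').1 htt
    rw [h1]
    exact hsum e he
  have hA5 : ∀ v : V, lstar E v ⊆ E ∧ ((lstar E v).card : ℝ) ≤ (n : ℝ) ∧
      1 ≤ max C 1 / n * (n : ℝ) := by
    intro v
    refine ⟨Finset.filter_subset _ _, ?_, ?_⟩
    · rw [card_star]
      exact_mod_cast deg_le_cardV E v
    · rw [div_mul_cancel₀ _ hn0'.ne']
      exact hC1
  have hA6 : 1 ≤ max C 1 / n * (E.card : ℝ) := by
    rw [div_mul_eq_mul_div, le_div_iff₀ hn0']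
    nlinarith
  have hA7 : max C 1 / n * (Real.log (2 + E.card + Fintype.card V)) ^ 2 ≤ c := by
    refine le_trans ?_ hlog
    refine mul_le_mul_of_nonneg_left ?_ (by positivity)
    refine pow_le_pow_left₀ (Real.log_nonneg ?_) (Real.log_le_log (by positivity) ?_) 2
    · have : (0 : ℝ) ≤ E.card := Nat.cast_nonneg _
      linarith
    · linarith
  obtain ⟨M, hMC, hMd, hMS⟩ := hmain (Sym2 V) V E Cf (fun T => w (vs T)) (max C 1 / n)
    (fun v => lstar E v) (fun _ => n) hA1 hA2 hA3 hA4 hA5 hA6 hA7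
  refine ⟨T0.filter (fun t => edg t ∈ M), ⟨fun t ht => ?_, fun t ht t' ht' hne => ?_⟩,
    fun v => ?_⟩
  · exact (hmemT0 t).1 (Finset.mem_filter.1 ht).1
  · rw [Finset.mem_filter] at ht ht'
    refine hMd _ ht.2 _ ht'.2 fun h => hne (hinj ht.1 ht'.1 h)
  · have hbi : (T0.filter (fun t => edg t ∈ M)).biUnion edg = M.biUnion id := by
      ext e
      simp only [Finset.mem_biUnion, Finset.mem_filter, id]
      constructor
      · rintro ⟨t, ⟨_, h2⟩, h3⟩
        exact ⟨edg t, h2, h3⟩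
      · rintro ⟨T, h1, h2⟩
        obtain ⟨t, ht, rfl⟩ := Finset.mem_image.1 (hMC h1)
        exact ⟨t, ⟨ht, h1⟩, h2⟩
    rw [← card_star, star_sdiff, hbi]
    exact hMS v

end NW
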