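import Pool.Agent.NW.Conc
import Pool.Agent.NW.Defs
import Pool.Agent.H56.NW.Defs

set_option autoImplicit false
set_option linter.unusedSectionVars false

/-!
# N1: bounded fractional triangle decompositions

If `G` has minimum degree at least `(3/4 + ε) n` then it has a fractional triangle packing `w` with
`w T ≤ C / n` such that the sum over the triangles at an edge is in `[1 - γ, 1]`.

Proof: average the fractional triangle decompositions of the graphs `G.comap ψ` over uniform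
random maps `ψ : Fin m → V`.
-/

open Finset

namespace NW

/-- The fractional Nash-Williams theorem (the hypothesis of this file). -/
def FNW : Prop := ∀ (m : ℕ) (H : SimpleGraph (Fin m)) [DecidableRel H.Adj],
  (∀ v, 3 * m ≤ 4 * H.degree v) → ∃ w, H56NW.IsFracDecomp H w

/-- Fractional decompositions as symmetric functions of ordered triples. -/
structure OrdFrac {α : Type*} [Fintype α] (H : SimpleGraph α) (D : α → α → α → ℝ) : Prop where
  nonneg : ∀ i j k, 0 ≤ D i j k
  le_one : ∀ i j k, D i j k ≤ 1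
  symm12 : ∀ i j k, D i j k = D j i k
  symm23 : ∀ i j k, D i j k = D i k j
  supp : ∀ i j k, D i j k ≠ 0 → H.Adj i j ∧ H.Adj j k ∧ H.Adj i k
  edge : ∀ i j, H.Adj i j → ∑ k, D i j k = 1

theorem ordFrac_of_isFracDecomp {m : ℕ} (H : SimpleGraph (Fin m)) [DecidableRel H.Adj]
    (w : Finset (Fin m) → ℝ) (hw : H56NW.IsFracDecomp H w) :
    ∃ D : Fin m → Fin m → Fin m → ℝ, OrdFrac H D := by
  classical
  set D : Fin m → Fin m → Fin m → ℝ :=
    fun i j k => if H.Adj i j ∧ H.Adj j k ∧ H.Adj i k then w {i, j, k} else 0 with hD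
  have hcl : ∀ i j k, H.Adj i j ∧ H.Adj j k ∧ H.Adj i k → ({i, j, k} : Finset (Fin m)) ∈
      H.cliqueFinset 3 := by
    intro i j k h
    rw [SimpleGraph.mem_cliqueFinset_iff, SimpleGraph.is3Clique_triple_iff]
    exact ⟨h.1, h.2.2, h.2.1⟩
  refine ⟨D, ?_, ?_, ?_, ?_, ?_, ?_⟩
  · intro i j k
    simp only [hD]
    split_ifs with h
    · exact (hw.1 _ (hcl i j k h)).1
    · exact le_rfl
  · intro i j k
    simp only [hD]
    split_ifs with h
    · exact (hw.1 _ (hcl i j k h)).2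
    · exact zero_le_one
  · intro i j k
    simp only [hD]
    have h1 : ({i, j, k} : Finset (Fin m)) = {j, i, k} := by
      ext a; simp only [Finset.mem_insert, Finset.mem_singleton]; tauto
    have h2 : (H.Adj i j ∧ H.Adj j k ∧ H.Adj i k) ↔ (H.Adj j i ∧ H.Adj i k ∧ H.Adj j k) := by
      rw [H.adj_comm j i]; tauto
    rw [h1]
    by_cases h : H.Adj i j ∧ H.Adj j k ∧ H.Adj i k
    · rw [if_pos h, if_pos (h2.1 h)]
    · rw [if_neg h, if_neg (fun h' => h (h2.2 h'))]
  · intro i j k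
    simp only [hD]
    have h1 : ({i, j, k} : Finset (Fin m)) = {i, k, j} := by
      ext a; simp only [Finset.mem_insert, Finset.mem_singleton]; tauto
    have h2 : (H.Adj i j ∧ H.Adj j k ∧ H.Adj i k) ↔ (H.Adj i k ∧ H.Adj k j ∧ H.Adj i j) := by
      rw [H.adj_comm k j]; tauto
    rw [h1]
    by_cases h : H.Adj i j ∧ H.Adj j k ∧ H.Adj i k
    · rw [if_pos h, if_pos (h2.1 h)]
    · rw [if_neg h, if_neg (fun h' => h (h2.2 h'))]
  · intro i j k h
    simp only [hD] at h
    by_contra h'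
    exact h (if_neg h')
  · intro i j hij
    rw [← hw.2 i j hij]
    have h1 : ∑ k, D i j k = ∑ k ∈ univ.filter (fun k => H.Adj j k ∧ H.Adj i k),
        w {i, j, k} := by
      rw [Finset.sum_filter]
      refine Finset.sum_congr rfl fun k _ => ?_
      simp only [hD]
      by_cases h : H.Adj j k ∧ H.Adj i k
      · rw [if_pos h, if_pos ⟨hij, h⟩]
      · rw [if_neg h, if_neg (fun h' => h h'.2)]
    rw [h1]
    refine Finset.sum_bij (fun k _ => ({i, j, k} : Finset (Fin m))) ?_ ?_ ?_ ?_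
    · intro k hk
      have h := (Finset.mem_filter.1 hk).2
      rw [Finset.mem_filter]
      refine ⟨hcl i j k ⟨hij, h⟩, ?_, ?_⟩ <;> simp
    · intro k hk l hl hkl
      have h2 := (Finset.mem_filter.1 hk).2
      have h3 : k ∈ ({i, j, l} : Finset (Fin m)) := by
        rw [← hkl]; simp
      simp only [Finset.mem_insert, Finset.mem_singleton] at h3
      rcases h3 with h3 | h3 | h3
      · exact absurd h3.symm h2.2.ne
      · exact absurd h3.symm h2.1.ne
      · exact h3
    · intro T hT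
      obtain ⟨hT1, hiT, hjT⟩ := Finset.mem_filter.1 hT
      rw [SimpleGraph.mem_cliqueFinset_iff, SimpleGraph.is3Clique_iff] at hT1
      obtain ⟨a, b, c, hab, hac, hbc, rfl⟩ := hT1
      simp only [Finset.mem_insert, Finset.mem_singleton] at hiT hjT
      have hne := hij.ne
      rcases hiT with rfl | rfl | rfl <;> rcases hjT with rfl | rfl | rfl
      · exact absurd rfl hne
      · exact ⟨c, Finset.mem_filter.2 ⟨Finset.mem_univ _, hbc, hac⟩, rfl⟩
      · refine ⟨b, Finset.mem_filter.2 ⟨Finset.mem_univ _, hbc.symm, hab⟩, ?_⟩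
        ext x; simp only [Finset.mem_insert, Finset.mem_singleton]; tauto
      · refine ⟨c, Finset.mem_filter.2 ⟨Finset.mem_univ _, hac, hbc⟩, ?_⟩
        ext x; simp only [Finset.mem_insert, Finset.mem_singleton]; tauto
      · exact absurd rfl hne
      · refine ⟨a, Finset.mem_filter.2 ⟨Finset.mem_univ _, hac.symm, hab.symm⟩, ?_⟩
        ext x; simp only [Finset.mem_insert, Finset.mem_singleton]; tauto
      · refine ⟨b, Finset.mem_filter.2 ⟨Finset.mem_univ _, hab, hbc.symm⟩, ?_⟩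
        ext x; simp only [Finset.mem_insert, Finset.mem_singleton]; tauto
      · refine ⟨a, Finset.mem_filter.2 ⟨Finset.mem_univ _, hab.symm, hac.symm⟩, ?_⟩
        ext x; simp only [Finset.mem_insert, Finset.mem_singleton]; tauto
      · exact absurd rfl hne
    · intro k hk
      rfl

section Avg

open NWC

variable {V : Type*} [Fintype V] [DecidableEq V] {m : ℕ}

/-- point mass -/
noncomputable def pin (x : V) : V → ℝ := fun a => if a = x then 1 else 0

theorem pw_pin (x : V) : PW (pin x) := by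
  refine ⟨fun a => ?_, ?_⟩
  · unfold pin; split_ifs <;> norm_num
  · simp [pin]

/-- two coordinates pinned, the others uniform -/
noncomputable def pp (i j : Fin m) (x y : V) : Fin m → V → ℝ :=
  fun l => if l = i then pin x else if l = j then pin y else unifW V

theorem pw_pp [Nonempty V] (i j : Fin m) (x y : V) (l : Fin m) : PW (pp i j x y l) := by
  unfold pp
  split_ifs
  · exact pw_pin x
  · exact pw_pin y
  · exact pw_unif

theorem prodW_pp (i j : Fin m) (hij : i ≠ j) (x y : V) (ψ : Fin m → V) :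
    prodW (pp i j x y) ψ
      = if ψ i = x ∧ ψ j = y then (1 / (Fintype.card V : ℝ)) ^ (m - 2) else 0 := by
  unfold prodW
  rw [← Finset.mul_prod_erase univ _ (Finset.mem_univ i),
    ← Finset.mul_prod_erase (univ.erase i) _
      (Finset.mem_erase.2 ⟨hij.symm, Finset.mem_univ j⟩)]
  have h1 : ∏ l ∈ (univ.erase i).erase j, pp i j x y l (ψ l)
      = (1 / (Fintype.card V : ℝ)) ^ (m - 2) := by
    rw [Finset.prod_congr rfl (g := fun _ => 1 / (Fintype.card V : ℝ)), Finset.prod_const]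
    · congr 1
      rw [Finset.card_erase_of_mem (Finset.mem_erase.2 ⟨hij.symm, Finset.mem_univ j⟩),
        Finset.card_erase_of_mem (Finset.mem_univ i), Finset.card_univ, Fintype.card_fin]
      omega
    · intro l hl
      have hl1 : l ≠ j := Finset.ne_of_mem_erase hl
      have hl2 : l ≠ i := Finset.ne_of_mem_erase (Finset.mem_of_mem_erase hl)
      unfold pp
      rw [if_neg hl2, if_neg hl1]
      rfl
  rw [h1]
  have h2 : pp i j x y i (ψ i) = if ψ i = x then 1 else 0 := by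
    unfold pp pin
    rw [if_pos rfl]
  have h3 : pp i j x y j (ψ j) = if ψ j = y then 1 else 0 := by
    unfold pp pin
    rw [if_neg hij.symm, if_pos rfl]
  rw [h2, h3]
  by_cases h4 : ψ i = x <;> by_cases h5 : ψ j = y <;> simp [h4, h5]

/-- the averaged weight -/
noncomputable def avgW (D : (Fin m → V) → Fin m → Fin m → Fin m → ℝ) (x y z : V) : ℝ :=
  (∑ ψ : Fin m → V, ∑ i, ∑ j, ∑ k, if ψ i = x ∧ ψ j = y ∧ ψ k = z then D ψ i j k else 0)
    * ((1 / (Fintype.card V : ℝ)) ^ (m - 2) / ((m : ℝ) * ((m : ℝ) - 1)))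

theorem avgW_nonneg (hm : 2 ≤ m) (D : (Fin m → V) → Fin m → Fin m → Fin m → ℝ)
    (hD : ∀ ψ i j k, 0 ≤ D ψ i j k) (x y z : V) : 0 ≤ avgW D x y z := by
  unfold avgW
  have hm' : (2 : ℝ) ≤ m := by exact_mod_cast hm
  refine mul_nonneg ?_ ?_
  · refine Finset.sum_nonneg fun ψ _ => Finset.sum_nonneg fun i _ => Finset.sum_nonneg fun j _ =>
      Finset.sum_nonneg fun k _ => ?_
    split_ifs
    · exact hD _ _ _ _
    · exact le_rfl
  · exact div_nonneg (by positivity) (mul_nonneg (by linarith) (by linarith))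

theorem avgW_symm12 (D : (Fin m → V) → Fin m → Fin m → Fin m → ℝ)
    (hD : ∀ ψ i j k, D ψ i j k = D ψ j i k) (x y z : V) : avgW D x y z = avgW D y x z := by
  unfold avgW
  congr 1
  refine Finset.sum_congr rfl fun ψ _ => ?_
  rw [Finset.sum_comm]
  refine Finset.sum_congr rfl fun i _ => Finset.sum_congr rfl fun j _ =>
    Finset.sum_congr rfl fun k _ => ?_
  rw [hD ψ j i k]
  by_cases h : ψ j = x ∧ ψ i = y ∧ ψ k = z
  · rw [if_pos h, if_pos ⟨h.2.1, h.1, h.2.2⟩]
  · rw [if_neg h, if_neg (fun h' => h ⟨h'.2.1, h'.1, h'.2.2⟩)]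

theorem avgW_symm23 (D : (Fin m → V) → Fin m → Fin m → Fin m → ℝ)
    (hD : ∀ ψ i j k, D ψ i j k = D ψ i k j) (x y z : V) : avgW D x y z = avgW D x z y := by
  unfold avgW
  congr 1
  refine Finset.sum_congr rfl fun ψ _ => Finset.sum_congr rfl fun i _ => ?_
  rw [Finset.sum_comm]
  refine Finset.sum_congr rfl fun j _ => Finset.sum_congr rfl fun k _ => ?_
  rw [hD ψ i k j]
  by_cases h : ψ i = x ∧ ψ k = y ∧ ψ j = z
  · rw [if_pos h, if_pos ⟨h.1, h.2.2, h.2.1⟩]
  · rw [if_neg h, if_neg (fun h' => h ⟨h'.1, h'.2.2, h'.2.1⟩)]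

theorem avgW_supp (D : (Fin m → V) → Fin m → Fin m → Fin m → ℝ) (x y z : V)
    (h : avgW D x y z ≠ 0) :
    ∃ ψ i j k, ψ i = x ∧ ψ j = y ∧ ψ k = z ∧ D ψ i j k ≠ 0 := by
  by_contra hcon
  push Not at hcon
  refine h ?_
  unfold avgW
  rw [Finset.sum_eq_zero, zero_mul]
  intro ψ _
  refine Finset.sum_eq_zero fun i _ => Finset.sum_eq_zero fun j _ => Finset.sum_eq_zero fun k _ => ?_
  split_ifs with h1
  · exact hcon ψ i j k h1.1 h1.2.1 h1.2.2
  · rfl

/-- `avgW` as an average of conditional expectations. -/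
theorem avgW_eq (D : (Fin m → V) → Fin m → Fin m → Fin m → ℝ)
    (hD0 : ∀ ψ i k, D ψ i i k = 0) (x y z : V) :
    avgW D x y z = (∑ q ∈ (univ : Finset (Fin m × Fin m)).filter (fun q => q.1 ≠ q.2),
      Ex (prodW (pp q.1 q.2 x y)) (fun ψ => ∑ k, if ψ k = z then D ψ q.1 q.2 k else 0))
        / ((m : ℝ) * ((m : ℝ) - 1)) := by
  unfold avgW
  rw [mul_div_assoc', Finset.sum_mul]
  congr 1
  have h1 : ∀ ψ : Fin m → V, (∑ i, ∑ j, ∑ k,
      if ψ i = x ∧ ψ j = y ∧ ψ k = z then D ψ i j k else 0) * (1 / (Fintype.card V : ℝ)) ^ (m - 2)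
      = ∑ q ∈ (univ : Finset (Fin m × Fin m)).filter (fun q => q.1 ≠ q.2),
          prodW (pp q.1 q.2 x y) ψ * ∑ k, if ψ k = z then D ψ q.1 q.2 k else 0 := by
    intro ψ
    rw [Finset.sum_mul, Finset.sum_filter, Fintype.sum_prod_type]
    refine Finset.sum_congr rfl fun i _ => ?_
    rw [Finset.sum_mul]
    refine Finset.sum_congr rfl fun j _ => ?_
    by_cases hij : i = j
    · subst hij
      simp [hD0]
    · rw [if_pos hij, prodW_pp i j hij]
      by_cases h2 : ψ i = x ∧ ψ j = y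
      · rw [if_pos h2, mul_comm]
        congr 1
        refine Finset.sum_congr rfl fun k _ => ?_
        by_cases h3 : ψ k = z
        · rw [if_pos ⟨h2.1, h2.2, h3⟩, if_pos h3]
        · rw [if_neg h3, if_neg (fun h => h3 h.2.2)]
      · rw [if_neg h2, zero_mul, Finset.sum_eq_zero, zero_mul]
        intro k _
        rw [if_neg (fun h => h2 ⟨h.1, h.2.1⟩)]
  rw [Finset.sum_congr rfl fun ψ _ => h1 ψ, Finset.sum_comm]
  rfl

theorem card_offdiag (hm : 2 ≤ m) :
    ((((univ : Finset (Fin m × Fin m)).filter (fun q => q.1 ≠ q.2)).card : ℕ) : ℝ)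
      = (m : ℝ) * ((m : ℝ) - 1) := by
  have h1 : (univ : Finset (Fin m × Fin m)).filter (fun q => q.1 ≠ q.2)
      = (univ : Finset (Fin m)).offDiag := by
    ext q; simp [Finset.mem_offDiag]
  rw [h1, Finset.offDiag_card, Finset.card_univ, Fintype.card_fin, Nat.cast_sub (by nlinarith)]
  push_cast
  ring

theorem avgW_le [Nonempty V] (hm : 2 ≤ m) (D : (Fin m → V) → Fin m → Fin m → Fin m → ℝ)
    (hD0 : ∀ ψ i k, D ψ i i k = 0) (hD1 : ∀ ψ i j, D ψ i j i = 0) (hD2 : ∀ ψ i j, D ψ i j j = 0)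
    (hle : ∀ ψ i j k, D ψ i j k ≤ 1) (x y z : V) :
    avgW D x y z ≤ (m : ℝ) / (Fintype.card V : ℝ) := by
  have hm' : (2 : ℝ) ≤ m := by exact_mod_cast hm
  have hpos : 0 < (m : ℝ) * ((m : ℝ) - 1) := mul_pos (by linarith) (by linarith)
  rw [avgW_eq D hD0, div_le_iff₀ hpos, mul_comm ((m : ℝ) / (Fintype.card V : ℝ)),
    ← card_offdiag hm, ← nsmul_eq_mul]
  refine Finset.sum_le_card_nsmul _ _ _ fun q hq => ?_
  obtain ⟨i, j⟩ := q
  have hij : i ≠ j := (Finset.mem_filter.1 hq).2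
  simp only
  have hpw := pw_pp i j x y
  have h1 : Ex (prodW (pp i j x y)) (fun ψ => ∑ k, if ψ k = z then D ψ i j k else 0)
      ≤ Ex (prodW (pp i j x y)) (fun ψ => ∑ k, if k = i ∨ k = j then 0 else
        if ψ k = z then 1 else 0) := by
    refine ex_mono (pw_prod hpw) fun ψ => Finset.sum_le_sum fun k _ => ?_
    by_cases h2 : k = i ∨ k = j
    · rw [if_pos h2]
      rcases h2 with rfl | rfl
      · rw [hD1]; simp
      · rw [hD2]; simp
    · rw [if_neg h2]
      split_ifs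
      · exact hle _ _ _ _
      · exact le_rfl
  refine h1.trans ?_
  rw [ex_sum]
  have h2 : ∀ k ∈ (univ : Finset (Fin m)), Ex (prodW (pp i j x y))
      (fun ψ => if k = i ∨ k = j then 0 else if ψ k = z then 1 else 0)
      ≤ 1 / (Fintype.card V : ℝ) := by
    intro k _
    by_cases h3 : k = i ∨ k = j
    · simp only [if_pos h3]
      rw [ex_const (pw_prod hpw)]
      positivity
    · simp only [if_neg h3]
      rw [ex_coord hpw k (fun a => if a = z then (1 : ℝ) else 0)]
      push Not at h3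
      unfold Ex pp
      rw [if_neg h3.1, if_neg h3.2]
      simp [unifW]
  refine (Finset.sum_le_card_nsmul _ _ _ h2).trans (le_of_eq ?_)
  rw [Finset.card_univ, Fintype.card_fin, nsmul_eq_mul]
  ring

/-- The sum of the averaged weight over the third vertex. -/
theorem sum_avgW (D : (Fin m → V) → Fin m → Fin m → Fin m → ℝ)
    (hD0 : ∀ ψ i k, D ψ i i k = 0) (x y : V) :
    ∑ z, avgW D x y z = (∑ q ∈ (univ : Finset (Fin m × Fin m)).filter (fun q => q.1 ≠ q.2),
      Ex (prodW (pp q.1 q.2 x y)) (fun ψ => ∑ k, D ψ q.1 q.2 k))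
        / ((m : ℝ) * ((m : ℝ) - 1)) := by
  simp_rw [avgW_eq D hD0]
  rw [← Finset.sum_div, Finset.sum_comm]
  congr 1
  refine Finset.sum_congr rfl fun q _ => ?_
  rw [← ex_sum]
  congr 1
  funext ψ
  rw [Finset.sum_comm]
  refine Finset.sum_congr rfl fun k _ => ?_
  rw [Finset.sum_ite_eq]
  simp

theorem _root_.NWC.pr_cond_le {ι : Type*} [Fintype ι] [DecidableEq ι] {A : ι → Type*}
    [∀ i, Fintype (A i)] {p : ∀ i, A i → ℝ} (hp : ∀ i, PW (p i)) (k : ι)
    (F : A k → (∀ i, A i) → Prop) (hF : ∀ a ω b, F a (Function.update ω k b) ↔ F a ω) (δ : ℝ)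
    (h : ∀ a, Pr (prodW p) (F a) ≤ δ) : Pr (prodW p) (fun ω => F (ω k) ω) ≤ δ := by
  classical
  rw [pr_eq_ex, ex_resample hp k]
  have h1 : (fun ω : ∀ i, A i => Ex (p k) (fun a =>
      if F (Function.update ω k a k) (Function.update ω k a) then (1 : ℝ) else 0))
      = fun ω => Ex (p k) (fun a => if F a ω then (1 : ℝ) else 0) := by
    funext ω
    congr 1
    funext a
    rw [Function.update_self]
    by_cases h2 : F a ω
    · rw [if_pos h2, if_pos ((hF a ω a).2 h2)]
    · rw [if_neg h2, if_neg (fun h3 => h2 ((hF a ω a).1 h3))]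
  rw [h1]
  have h2 : Ex (prodW p) (fun ω => Ex (p k) (fun a => if F a ω then (1 : ℝ) else 0))
      = Ex (p k) (fun a => Pr (prodW p) (F a)) := by
    simp_rw [pr_eq_ex]
    unfold Ex
    simp_rw [Finset.mul_sum]
    rw [Finset.sum_comm]
    refine Finset.sum_congr rfl fun a _ => Finset.sum_congr rfl fun ω _ => ?_
    ring
  rw [h2]
  exact ex_le_const (hp k) h

/-- the pulled back graph has large minimum degree -/
def GoodMap (G : SimpleGraph V) [DecidableRel G.Adj] (ψ : Fin m → V) : Prop :=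
  ∀ k, 3 * m ≤ 4 * (univ.filter (fun l => G.Adj (ψ k) (ψ l))).card

theorem pr_bad_le [Nonempty V] (G : SimpleGraph V) [DecidableRel G.Adj] (ε : ℝ) (hε : 0 < ε)
    (hε1 : ε ≤ 1) (hdeg : ∀ v, (3 / 4 + ε) * (Fintype.card V : ℝ) ≤ (G.degree v : ℝ))
    (hm : 11 ≤ ε * (m : ℝ)) (i j : Fin m) (x y : V) :
    Pr (prodW (pp i j x y)) (fun ψ => ¬ GoodMap G ψ)
      ≤ (m : ℝ) * Real.exp (-(ε ^ 2 * (m : ℝ) / 8)) := by
  classical
  have hpw := pw_pp i j x y
  have hm0 : (0 : ℝ) < m := by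
    by_contra h
    have : ε * (m : ℝ) ≤ 0 := mul_nonpos_of_nonneg_of_nonpos hε.le (not_lt.1 h)
    linarith
  have hn : (0 : ℝ) < (Fintype.card V : ℝ) := by exact_mod_cast Fintype.card_pos
  set S : Fin m → Finset (Fin m) := fun k => univ.filter (fun l => l ≠ i ∧ l ≠ j ∧ l ≠ k) with hS
  have hScard : ∀ k, (m : ℝ) - 3 ≤ ((S k).card : ℝ) := by
    intro k
    have h1 : (univ : Finset (Fin m)).card ≤ (S k).card + 3 := by
      have h2 : (univ : Finset (Fin m)) ⊆ S k ∪ {i, j, k} := by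
        intro l _
        simp only [hS, Finset.mem_union, Finset.mem_filter, Finset.mem_univ, true_and,
          Finset.mem_insert, Finset.mem_singleton]
        tauto
      refine (Finset.card_le_card h2).trans ((Finset.card_union_le _ _).trans ?_)
      exact Nat.add_le_add_left Finset.card_le_three _
    rw [Finset.card_univ, Fintype.card_fin] at h1
    have h3 : (m : ℝ) ≤ ((S k).card : ℝ) + 3 := by exact_mod_cast h1
    linarith
  have hScard' : ∀ k, ((S k).card : ℝ) ≤ (m : ℝ) := by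
    intro k
    have h1 := Finset.card_le_univ (S k)
    rw [Fintype.card_fin] at h1
    exact_mod_cast h1
  set F : Fin m → V → (Fin m → V) → Prop := fun k a ψ =>
    ∑ l ∈ S k, (if G.Adj a (ψ l) then (1 : ℝ) else 0) < 3 / 4 * (m : ℝ) with hF
  have hFk : ∀ k a, Pr (prodW (pp i j x y)) (F k a) ≤ Real.exp (-(ε ^ 2 * (m : ℝ) / 8)) := by
    intro k a
    have h1 := hoeffding_lower hpw (S k) (fun _ v => if G.Adj a v then (1 : ℝ) else 0)
      (fun _ v => by split_ifs <;> norm_num) (fun _ v => by split_ifs <;> norm_num)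
      (m : ℝ) hm0 (hScard' k) (ε * m / 2) (by positivity)
    have h2 : -((ε * (m : ℝ) / 2) ^ 2 / (2 * (m : ℝ))) = -(ε ^ 2 * (m : ℝ) / 8) := by
      field_simp
      ring
    rw [h2] at h1
    refine le_trans (pr_mono (pw_prod hpw) ?_) h1
    intro ψ hψ
    have h3 : ∑ l ∈ S k, Ex (pp i j x y l) (fun v => if G.Adj a v then (1 : ℝ) else 0)
        = ((S k).card : ℝ) * ((G.degree a : ℝ) / (Fintype.card V : ℝ)) := by
      rw [← nsmul_eq_mul, ← Finset.sum_const]
      refine Finset.sum_congr rfl fun l hl => ?_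
      have hl' := (Finset.mem_filter.1 hl).2
      unfold Ex pp
      rw [if_neg hl'.1, if_neg hl'.2.1]
      simp only [unifW, mul_ite, mul_one, mul_zero]
      rw [← Finset.sum_filter, Finset.sum_const, nsmul_eq_mul, ← SimpleGraph.card_neighborFinset_eq_degree]
      have h4 : univ.filter (fun v => G.Adj a v) = G.neighborFinset a := by
        ext v; simp
      rw [h4]
      ring
    rw [h3]
    have h4 : 3 / 4 + ε ≤ (G.degree a : ℝ) / (Fintype.card V : ℝ) := by
      rw [le_div_iff₀ hn]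
      exact hdeg a
    have hm3 : 0 ≤ (m : ℝ) - 3 := by
      have : (11 : ℝ) ≤ m := by nlinarith
      linarith
    have h5 : ((m : ℝ) - 3) * (3 / 4 + ε)
        ≤ ((S k).card : ℝ) * ((G.degree a : ℝ) / (Fintype.card V : ℝ)) :=
      mul_le_mul (hScard k) h4 (by linarith) (by positivity)
    have h6 : F k a ψ := hψ
    simp only [hF] at h6
    have h7 : 3 / 4 * (m : ℝ) ≤ ((m : ℝ) - 3) * (3 / 4 + ε) - ε * m / 2 := by nlinarith
    linarith
  have hmain : ∀ k, Pr (prodW (pp i j x y)) (fun ψ => F k (ψ k) ψ)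
      ≤ Real.exp (-(ε ^ 2 * (m : ℝ) / 8)) := by
    intro k
    refine NWC.pr_cond_le hpw k (fun a ψ => F k a ψ) ?_ _ (hFk k)
    intro a ψ b
    simp only [hF]
    have : ∑ l ∈ S k, (if G.Adj a (Function.update ψ k b l) then (1 : ℝ) else 0)
        = ∑ l ∈ S k, (if G.Adj a (ψ l) then (1 : ℝ) else 0) := by
      refine Finset.sum_congr rfl fun l hl => ?_
      rw [Function.update_of_ne (Finset.mem_filter.1 hl).2.2.2]
    rw [this]
  have h8 : Pr (prodW (pp i j x y)) (fun ψ => ¬ GoodMap G ψ)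
      ≤ Pr (prodW (pp i j x y)) (fun ψ => ∃ k, F k (ψ k) ψ) := by
    refine pr_mono (pw_prod hpw) ?_
    intro ψ hψ
    unfold GoodMap at hψ
    push Not at hψ
    obtain ⟨k, hk⟩ := hψ
    refine ⟨k, ?_⟩
    simp only [hF]
    have h9 : ∑ l ∈ S k, (if G.Adj (ψ k) (ψ l) then (1 : ℝ) else 0)
        ≤ ((univ.filter (fun l => G.Adj (ψ k) (ψ l))).card : ℝ) := by
      rw [← Finset.sum_filter, Finset.sum_const, nsmul_eq_mul, mul_one]
      exact_mod_cast Finset.card_le_card (Finset.filter_subset_filter _ (Finset.subset_univ _))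
    have h10 : (4 : ℝ) * ((univ.filter (fun l => G.Adj (ψ k) (ψ l))).card : ℝ) < 3 * (m : ℝ) := by
      exact_mod_cast hk
    linarith
  refine h8.trans ((pr_exists_le' (pw_prod hpw) _).trans ?_)
  refine (Finset.sum_le_sum fun k _ => hmain k).trans (le_of_eq ?_)
  rw [Finset.sum_const, Finset.card_univ, Fintype.card_fin, nsmul_eq_mul]

end Avg

theorem exists_m (ε γ : ℝ) (hε : 0 < ε) (hγ : 0 < γ) : ∃ m : ℕ, 2 ≤ m ∧ 11 ≤ ε * (m : ℝ) ∧
    (m : ℝ) * Real.exp (-(ε ^ 2 * (m : ℝ) / 8)) ≤ γ := by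
  obtain ⟨m, hm⟩ := exists_nat_ge (2 + 11 / ε + 128 / (ε ^ 4 * γ))
  have h1 : 0 < 11 / ε := by positivity
  have h2 : 0 < 128 / (ε ^ 4 * γ) := by positivity
  have hm2 : (2 : ℝ) ≤ m := by linarith
  refine ⟨m, by exact_mod_cast hm2, ?_, ?_⟩
  · have h3 : 11 / ε ≤ (m : ℝ) := by linarith
    rw [div_le_iff₀ hε] at h3
    linarith
  · have h3 : 128 / (ε ^ 4 * γ) ≤ (m : ℝ) := by linarith
    rw [div_le_iff₀ (by positivity)] at h3
    set t : ℝ := ε ^ 2 * (m : ℝ) / 8 with ht
    have ht0 : 0 < t := by positivity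
    have h4 := Real.quadratic_le_exp_of_nonneg ht0.le
    have h5 : t ^ 2 / 2 ≤ Real.exp t := by linarith
    rw [Real.exp_neg, ← div_eq_mul_inv, div_le_iff₀ (Real.exp_pos _)]
    have h6 : (m : ℝ) ≤ γ * (t ^ 2 / 2) := by
      rw [ht]
      have h7 : γ * ((ε ^ 2 * (m : ℝ) / 8) ^ 2 / 2) = (m : ℝ) * ((m : ℝ) * (ε ^ 4 * γ)) / 128 := by
        ring
      rw [h7]
      nlinarith
    exact h6.trans (mul_le_mul_of_nonneg_left h5 hγ.le)

open NWC in
/-- **N1**, ordered form. -/
theorem bounded_ord (hF : FNW) (ε γ : ℝ) (hε : 0 < ε) (hγ : 0 < γ) : ∃ C : ℝ, 0 < C ∧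
    ∀ (V : Type*) [Fintype V] [DecidableEq V] (G : SimpleGraph V) [DecidableRel G.Adj],
    (∀ v, (3 / 4 + ε) * (Fintype.card V : ℝ) ≤ (G.degree v : ℝ)) →
    ∃ W : V → V → V → ℝ, (∀ x y z, 0 ≤ W x y z) ∧
      (∀ x y z, W x y z * (Fintype.card V : ℝ) ≤ C) ∧
      (∀ x y z, W x y z = W y x z) ∧ (∀ x y z, W x y z = W x z y) ∧
      (∀ x y z, W x y z ≠ 0 → G.Adj x y ∧ G.Adj y z ∧ G.Adj x z) ∧
      ∀ x y, G.Adj x y → 1 - γ ≤ ∑ z, W x y z ∧ ∑ z, W x y z ≤ 1 := by
  obtain ⟨m, hm2, hm11, hmγ⟩ := exists_m ε γ hε hγ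
  have hm2' : (2 : ℝ) ≤ m := by exact_mod_cast hm2
  refine ⟨m, by linarith, ?_⟩
  intro V _ _ G _ hdeg
  classical
  rcases isEmpty_or_nonempty V with hV | hV
  · exact ⟨fun _ _ _ => 0, fun x => (hV.false x).elim, fun x => (hV.false x).elim,
      fun x => (hV.false x).elim, fun x => (hV.false x).elim, fun x => (hV.false x).elim,
      fun x => (hV.false x).elim⟩
  have hn : (0 : ℝ) < (Fintype.card V : ℝ) := by exact_mod_cast Fintype.card_pos
  have hε1 : ε ≤ 1 := by
    obtain ⟨v⟩ := hV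
    have h1 := hdeg v
    have h2 : (G.degree v : ℝ) < (Fintype.card V : ℝ) := by
      exact_mod_cast G.degree_lt_card_verts v
    by_contra h3
    push Not at h3
    nlinarith
  have hex : ∀ ψ : Fin m → V, ∃ D : Fin m → Fin m → Fin m → ℝ,
      (GoodMap G ψ → OrdFrac (G.comap ψ) D) ∧ (¬ GoodMap G ψ → D = fun _ _ _ => 0) := by
    intro ψ
    by_cases h : GoodMap G ψ
    · have h1 : ∀ v, 3 * m ≤ 4 * (G.comap ψ).degree v := by
        intro v
        refine (h v).trans (le_of_eq ?_)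
        rw [← SimpleGraph.card_neighborFinset_eq_degree]
        congr 2
        ext l
        simp
      obtain ⟨w, hw⟩ := hF m (G.comap ψ) h1
      obtain ⟨D, hD⟩ := ordFrac_of_isFracDecomp (G.comap ψ) w hw
      exact ⟨D, fun _ => hD, fun h' => absurd h h'⟩
    · exact ⟨fun _ _ _ => 0, fun h' => absurd h' h, fun _ => rfl⟩
  choose D hDg hDb using hex
  have hnonneg : ∀ ψ i j k, 0 ≤ D ψ i j k := by
    intro ψ i j k
    by_cases h : GoodMap G ψ
    · exact (hDg ψ h).nonneg i j k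
    · rw [hDb ψ h]
  have hle : ∀ ψ i j k, D ψ i j k ≤ 1 := by
    intro ψ i j k
    by_cases h : GoodMap G ψ
    · exact (hDg ψ h).le_one i j k
    · rw [hDb ψ h]; exact zero_le_one
  have hs12 : ∀ ψ i j k, D ψ i j k = D ψ j i k := by
    intro ψ i j k
    by_cases h : GoodMap G ψ
    · exact (hDg ψ h).symm12 i j k
    · rw [hDb ψ h]
  have hs23 : ∀ ψ i j k, D ψ i j k = D ψ i k j := by
    intro ψ i j k
    by_cases h : GoodMap G ψ
    · exact (hDg ψ h).symm23 i j k
    · rw [hDb ψ h]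
  have hsupp : ∀ ψ i j k, D ψ i j k ≠ 0 →
      G.Adj (ψ i) (ψ j) ∧ G.Adj (ψ j) (ψ k) ∧ G.Adj (ψ i) (ψ k) := by
    intro ψ i j k h0
    by_cases h : GoodMap G ψ
    · have := (hDg ψ h).supp i j k h0
      simpa using this
    · exact absurd (by rw [hDb ψ h]) h0
  have hD0 : ∀ ψ i k, D ψ i i k = 0 := by
    intro ψ i k
    by_contra h
    exact (hsupp ψ i i k h).1.ne rfl
  have hD1 : ∀ ψ i j, D ψ i j i = 0 := by
    intro ψ i k
    by_contra h
    exact (hsupp ψ i k i h).2.2.ne rfl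
  have hD2 : ∀ ψ i j, D ψ i j j = 0 := by
    intro ψ i k
    by_contra h
    exact (hsupp ψ i k k h).2.1.ne rfl
  have hsum1 : ∀ ψ i j, ∑ k, D ψ i j k ≤ 1 := by
    intro ψ i j
    by_cases h : GoodMap G ψ
    · by_cases h1 : (G.comap ψ).Adj i j
      · exact ((hDg ψ h).edge i j h1).le
      · rw [Finset.sum_eq_zero]
        · exact zero_le_one
        · intro k _
          by_contra h2
          exact h1 ((hDg ψ h).supp i j k h2).1
    · rw [hDb ψ h]; simp
  have hpos : 0 < (m : ℝ) * ((m : ℝ) - 1) := mul_pos (by linarith) (by linarith)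
  refine ⟨avgW D, fun x y z => avgW_nonneg hm2 D hnonneg x y z, ?_, avgW_symm12 D hs12,
    avgW_symm23 D hs23, ?_, ?_⟩
  · intro x y z
    have := avgW_le hm2 D hD0 hD1 hD2 hle x y z
    rwa [le_div_iff₀ hn] at this
  · intro x y z h
    obtain ⟨ψ, i, j, k, rfl, rfl, rfl, h1⟩ := avgW_supp D x y z h
    exact hsupp ψ i j k h1
  · intro x y hxy
    rw [sum_avgW D hD0]
    constructor
    · rw [le_div_iff₀ hpos, mul_comm, ← card_offdiag hm2, ← nsmul_eq_mul]
      refine Finset.card_nsmul_le_sum _ _ _ fun q hq => ?_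
      obtain ⟨i, j⟩ := q
      have hij : i ≠ j := (Finset.mem_filter.1 hq).2
      simp only
      have hpw := pw_pp i j x y
      have h1 := pr_bad_le G ε hε hε1 hdeg hm11 i j x y
      rw [pr_not (pw_prod hpw)] at h1
      have h2 : Pr (prodW (pp i j x y)) (fun ψ => GoodMap G ψ)
          ≤ Ex (prodW (pp i j x y)) (fun ψ => ∑ k, D ψ i j k) := by
        rw [pr_eq_ex]
        unfold Ex
        refine Finset.sum_le_sum fun ψ _ => ?_
        by_cases h3 : ψ i = x ∧ ψ j = y
        · refine mul_le_mul_of_nonneg_left ?_ ((pw_prod hpw).1 ψ)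
          simp only
          split_ifs with h4
          · refine ((hDg ψ h4).edge i j ?_).ge
            simp only [SimpleGraph.comap_adj]
            rw [h3.1, h3.2]
            exact hxy
          · exact Finset.sum_nonneg fun k _ => hnonneg ψ i j k
        · have h4 : prodW (pp i j x y) ψ = 0 := by
            rw [prodW_pp i j hij, if_neg h3]
          rw [h4, zero_mul, zero_mul]
      linarith
    · rw [div_le_one hpos, ← card_offdiag hm2, ← mul_one
        (((((univ : Finset (Fin m × Fin m)).filter (fun q => q.1 ≠ q.2)).card : ℕ) : ℝ)),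
        ← nsmul_eq_mul]
      refine Finset.sum_le_card_nsmul _ _ _ fun q _ => ?_
      exact ex_le_const (pw_prod (pw_pp q.1 q.2 x y)) fun ψ => hsum1 ψ q.1 q.2

/-- **N1**, ordered form, for edge sets `E : Finset (Sym2 V)`. -/
theorem bounded_edges (hF : FNW) (ε γ : ℝ) (hε : 0 < ε) (hγ : 0 < γ) : ∃ C : ℝ, 0 < C ∧
    ∀ (V : Type*) [Fintype V] [DecidableEq V] (E : Finset (Sym2 V)), NL E →
    (∀ v, (3 / 4 + ε) * (Fintype.card V : ℝ) ≤ (deg E v : ℝ)) →
    ∃ W : V → V → V → ℝ, (∀ x y z, 0 ≤ W x y z) ∧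
      (∀ x y z, W x y z * (Fintype.card V : ℝ) ≤ C) ∧
      (∀ x y z, W x y z = W y x z) ∧ (∀ x y z, W x y z = W x z y) ∧
      (∀ x y z, W x y z ≠ 0 → s(x, y) ∈ E ∧ s(y, z) ∈ E ∧ s(x, z) ∈ E) ∧
      ∀ x y, s(x, y) ∈ E → 1 - γ ≤ ∑ z, W x y z ∧ ∑ z, W x y z ≤ 1 := by
  obtain ⟨C, hC, h⟩ := bounded_ord hF ε γ hε hγ
  refine ⟨C, hC, ?_⟩
  intro V _ _ E hE hdeg
  classical
  set G : SimpleGraph V := SimpleGraph.fromEdgeSet (E : Set (Sym2 V)) with hG
  have hadj : ∀ x y, G.Adj x y ↔ s(x, y) ∈ E := by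
    intro x y
    rw [hG, SimpleGraph.fromEdgeSet_adj]
    constructor
    · rintro ⟨h1, -⟩
      exact_mod_cast h1
    · intro h1
      refine ⟨by exact_mod_cast h1, ?_⟩
      rintro rfl
      exact hE _ h1 (by simp)
  obtain ⟨W, h1, h2, h3, h4, h5, h6⟩ := h V G (fun v => by
    refine (hdeg v).trans (le_of_eq ?_)
    rw [deg, ← SimpleGraph.card_neighborFinset_eq_degree]
    congr 2
    ext u
    rw [mem_nbr, SimpleGraph.mem_neighborFinset, hadj])
  refine ⟨W, h1, h2, h3, h4, ?_, ?_⟩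
  · intro x y z h0
    have := h5 x y z h0
    rwa [hadj, hadj, hadj] at this
  · intro x y hxy
    exact h6 x y ((hadj x y).2 hxy)

end NW
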