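import Mathlib
import Pool.Agent.NW.Defs

/-!
# Project NW: transfer of edge sets along injective maps, in particular from a subtype
-/

set_option linter.unusedSectionVars false

namespace NW

open Finset

section Img

variable {V W : Type*} [DecidableEq V] [DecidableEq W]

/-- the image of an edge set under a map of the vertices -/
def img (f : V → W) (E : Finset (Sym2 V)) : Finset (Sym2 W) := E.image (Sym2.map f)

theorem img_union (f : V → W) (E F : Finset (Sym2 V)) : img f (E ∪ F) = img f E ∪ img f F :=
  Finset.image_union _ _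

theorem img_tri (f : V → W) (a b c : V) : img f (tri a b c) = tri (f a) (f b) (f c) := by
  simp [img, tri, Finset.image_insert]

theorem mem_img {f : V → W} (hf : Function.Injective f) {E : Finset (Sym2 V)} {e : Sym2 V} :
    e.map f ∈ img f E ↔ e ∈ E := by
  unfold img
  rw [Finset.mem_image]
  constructor
  · rintro ⟨e', he', h⟩
    rwa [← Sym2.map.injective hf h]
  · exact fun h => ⟨e, h, rfl⟩

theorem mk_mem_img {f : V → W} (hf : Function.Injective f) {E : Finset (Sym2 V)} {a b : V} :
    s(f a, f b) ∈ img f E ↔ s(a, b) ∈ E := by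
  have := mem_img hf (E := E) (e := s(a, b))
  rwa [Sym2.map_mk] at this

theorem img_disjoint {f : V → W} (hf : Function.Injective f) {E F : Finset (Sym2 V)}
    (h : Disjoint E F) : Disjoint (img f E) (img f F) := by
  unfold img
  exact (Finset.disjoint_image (Sym2.map.injective hf)).2 h

theorem Dec.img {f : V → W} (hf : Function.Injective f) {E : Finset (Sym2 V)} (h : Dec E) :
    Dec (NW.img f E) := by
  induction h with
  | empty => simpa [NW.img] using Dec.empty
  | cons hab hbc hac hd _ ih =>
    rw [img_union, img_tri]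
    refine Dec.cons (hf.ne hab) (hf.ne hbc) (hf.ne hac) ?_ ih
    rw [← img_tri]
    exact img_disjoint hf hd

end Img

section Sub

variable {V : Type*} [DecidableEq V]

/-- the restriction of an edge set to a vertex set, as an edge set on the subtype -/
def res (S : Finset V) (E : Finset (Sym2 V)) : Finset (Sym2 S) :=
  univ.filter (fun e => e.map Subtype.val ∈ E)

theorem mk_mem_res {S : Finset V} {E : Finset (Sym2 V)} {a b : S} :
    s(a, b) ∈ res S E ↔ s((a : V), (b : V)) ∈ E := by
  simp [res]

theorem img_res {S : Finset V} {E : Finset (Sym2 V)} (hE : E ⊆ edg S) :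
    img Subtype.val (res S E) = E := by
  ext e
  induction e using Sym2.ind with
  | _ a b =>
    unfold img
    rw [Finset.mem_image]
    constructor
    · rintro ⟨e', he', h⟩
      rw [res, Finset.mem_filter] at he'
      rw [← h]
      exact he'.2
    · intro h
      have h1 := mk_mem_edg.1 (hE h)
      exact ⟨s(⟨a, h1.1⟩, ⟨b, h1.2.1⟩), mk_mem_res.2 h, by simp⟩

theorem img_val_subset_of_subset_res {S : Finset V} {E : Finset (Sym2 V)} {H : Finset (Sym2 S)}
    (hH : H ⊆ res S E) : img Subtype.val H ⊆ E := by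
  intro e he
  unfold img at he
  obtain ⟨e', he', rfl⟩ := Finset.mem_image.1 he
  exact (Finset.mem_filter.1 (hH he')).2

theorem nl_res {S : Finset V} {E : Finset (Sym2 V)} (hE : NL E) : NL (res S E) := by
  intro e he
  induction e using Sym2.ind with
  | _ a b =>
    have h1 := hE _ (mk_mem_res.1 he)
    intro h2
    apply h1
    rw [Sym2.mk_isDiag_iff] at h2 ⊢
    rw [h2]

variable [Fintype V]

theorem nbr_res {S : Finset V} {E : Finset (Sym2 V)} (hE : E ⊆ edg S) (x : S) :
    (nbr (res S E) x).map (Function.Embedding.subtype _) = nbr E x := by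
  ext u
  rw [Finset.mem_map]
  constructor
  · rintro ⟨a, ha, rfl⟩
    rw [mem_nbr] at ha ⊢
    exact mk_mem_res.1 ha
  · intro h
    have h1 := mk_mem_edg.1 (hE (mem_nbr.1 h))
    exact ⟨⟨u, h1.2.1⟩, mem_nbr.2 (mk_mem_res.2 (mem_nbr.1 h)), rfl⟩

theorem deg_res {S : Finset V} {E : Finset (Sym2 V)} (hE : E ⊆ edg S) (x : S) :
    deg (res S E) x = deg E x := by
  unfold deg
  rw [← nbr_res hE x, Finset.card_map]

theorem degIn_res {S : Finset V} {E : Finset (Sym2 V)} (hE : E ⊆ edg S) (X : Finset V) (x : S) :
    degIn (res S E) (X.subtype (fun v => v ∈ S)) x = degIn E X x := by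
  unfold degIn
  rw [← nbr_res hE x, ← Finset.card_map (Function.Embedding.subtype _), Finset.map_inter]
  congr 1
  ext u
  rw [Finset.mem_inter, Finset.mem_inter]
  refine and_congr_right fun h => ?_
  rw [Finset.mem_map]
  constructor
  · rintro ⟨a, ha, rfl⟩
    exact Finset.mem_subtype.1 ha
  · intro h2
    obtain ⟨a, _, h3⟩ := Finset.mem_map.1 h
    exact ⟨a, Finset.mem_subtype.2 (by
      have h4 : (a : V) = u := h3
      rw [h4]; exact h2), h3⟩

theorem deg_img_val {S : Finset V} {H : Finset (Sym2 S)} (x : S) :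
    deg (img Subtype.val H) (x : V) = deg H x := by
  unfold deg
  rw [← Finset.card_map (Function.Embedding.subtype _)]
  congr 1
  ext u
  rw [Finset.mem_map]
  constructor
  · intro h
    rw [mem_nbr] at h
    unfold img at h
    obtain ⟨e, he, h2⟩ := Finset.mem_image.1 h
    induction e using Sym2.ind with
    | _ a b =>
      rw [Sym2.map_mk, Sym2.eq_iff] at h2
      rcases h2 with ⟨h3, h4⟩ | ⟨h3, h4⟩
      · exact ⟨b, mem_nbr.2 (by rwa [show x = a from Subtype.ext h3.symm]), h4⟩
      · exact ⟨a, mem_nbr.2 (by rwa [show x = b from Subtype.ext h4.symm, Sym2.eq_swap]), h3⟩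
  · rintro ⟨a, ha, rfl⟩
    rw [mem_nbr] at ha ⊢
    exact (mk_mem_img Subtype.val_injective).2 ha

theorem img_inter_edg {S U : Finset V} {H : Finset (Sym2 S)} :
    img Subtype.val H ∩ edg U = img Subtype.val (H ∩ edg (U.subtype (fun v => v ∈ S))) := by
  ext e
  rw [Finset.mem_inter]
  unfold img
  rw [Finset.mem_image, Finset.mem_image]
  constructor
  · rintro ⟨⟨e', he', rfl⟩, h⟩
    refine ⟨e', Finset.mem_inter.2 ⟨he', ?_⟩, rfl⟩
    induction e' using Sym2.ind with
    | _ a b =>
      rw [Sym2.map_mk, mk_mem_edg] at h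
      rw [mk_mem_edg, Finset.mem_subtype, Finset.mem_subtype]
      exact ⟨h.1, h.2.1, fun h3 => h.2.2 (by rw [h3])⟩
  · rintro ⟨e', he', rfl⟩
    rw [Finset.mem_inter] at he'
    refine ⟨⟨e', he'.1, rfl⟩, ?_⟩
    have h := he'.2
    induction e' using Sym2.ind with
    | _ a b =>
      rw [Sym2.map_mk, mk_mem_edg]
      rw [mk_mem_edg, Finset.mem_subtype, Finset.mem_subtype] at h
      exact ⟨h.1, h.2.1, fun h3 => h.2.2 (Subtype.ext h3)⟩

end Sub

end NW
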