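import Mathlib
import Pool.Agent.NW.Transfer

/-!
# Project NW: the glue (N6)

Inputs (as propositions): cover down (`CoverDown`), vortex (`VortexLemma`), absorbers
(`AbsorberLemma`).  Output: every large `K_3`-divisible edge set of minimum degree at least
`(3/4 + ε) n` is an edge-disjoint union of triangles.
-/

set_option linter.unusedSectionVars false

namespace NW

open Finset

/-! ## The three inputs -/

/-- Cover down with parameters `ε, η, μ` and threshold `n₀`: all edges of `E` which are not inside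
`U` are covered, using few edges inside `U`. -/
def CoverDown (ε η μ : ℝ) (n₀ : ℕ) : Prop :=
  ∀ (V : Type) [Fintype V] [DecidableEq V] (E : Finset (Sym2 V)) (U : Finset V), NL E →
    n₀ ≤ Fintype.card V → η / 2 * Fintype.card V ≤ U.card →
    (U.card : ℝ) ≤ η * Fintype.card V →
    (∀ v, (3 / 4 + ε) * Fintype.card V ≤ deg E v) →
    (∀ v, (3 / 4 + ε) * U.card ≤ degIn E U v) →
    (∀ v, v ∉ U → Even (deg E v)) →
    ∃ H, H ⊆ E ∧ Dec H ∧ E \ H ⊆ edg U ∧
      ∀ v ∈ U, (deg (H ∩ edg U) v : ℝ) ≤ μ * U.card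

def CoverDownLemma : Prop :=
  ∀ ε : ℝ, 0 < ε → ∃ η₀ : ℝ, 0 < η₀ ∧ ∀ η : ℝ, 0 < η → η ≤ η₀ → ∀ μ : ℝ, 0 < μ →
    ∃ n₀ : ℕ, CoverDown ε η μ n₀

/-- A vortex `univ = U 0 ⊇ U 1 ⊇ ... ⊇ U l` for the edge set `E`. -/
structure Vortex {V : Type} [Fintype V] [DecidableEq V] (E : Finset (Sym2 V)) (ε η : ℝ)
    (m l : ℕ) (U : ℕ → Finset V) : Prop where
  zero : U 0 = univ
  sub : ∀ i < l, U (i + 1) ⊆ U i
  lower : ∀ i < l, η / 2 * (U i).card ≤ (U (i + 1)).card
  upper : ∀ i < l, ((U (i + 1)).card : ℝ) ≤ η * (U i).card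
  large : ∀ i < l, m ≤ (U i).card
  last : (U l).card < m
  deg : ∀ i < l, ∀ v ∈ U i, (3 / 4 + ε) * (U (i + 1)).card ≤ degIn E (U (i + 1)) v

def VortexLemma : Prop :=
  ∀ ε : ℝ, 0 < ε → ∀ η : ℝ, 0 < η → η ≤ 1 / 4 → ∃ m₁ : ℕ, ∀ m : ℕ, m₁ ≤ m →
    ∀ (V : Type) [Fintype V] [DecidableEq V] (E : Finset (Sym2 V)), NL E →
      m ≤ Fintype.card V → (∀ v, (3 / 4 + 2 * ε) * Fintype.card V ≤ NW.deg E v) →
      ∃ (l : ℕ) (U : ℕ → Finset V), Vortex E ε η m l U

/-- Absorbers for all divisible edge sets inside the small set `Z`, with all new vertices in the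
reservoir `Y`. -/
def AbsorberLemma : Prop :=
  ∀ m : ℕ, ∃ M : ℕ, ∀ (V : Type) [Fintype V] [DecidableEq V] (E : Finset (Sym2 V))
    (Z Y : Finset V), NL E → Z.card ≤ m → Disjoint Z Y →
    (∀ S : Finset V, S.card ≤ 4 → M ≤ (Y.filter (fun y => ∀ s ∈ S, s(s, y) ∈ E)).card) →
    ∃ A, A ⊆ E ∧ (∀ e ∈ A, ∃ y ∈ e, y ∈ Y) ∧ (∀ v, deg A v ≤ M) ∧
      ∀ L : Finset (Sym2 V), L ⊆ E → L ⊆ edg Z → Divis L → Dec (A ∪ L)

/-! ## Degrees -/

section Deg

variable {V : Type*} [DecidableEq V] [Fintype V]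

theorem degIn_le_deg (E : Finset (Sym2 V)) (X : Finset V) (v : V) : degIn E X v ≤ deg E v :=
  Finset.card_le_card Finset.inter_subset_left

theorem degIn_le_card (E : Finset (Sym2 V)) (X : Finset V) (v : V) : degIn E X v ≤ X.card :=
  Finset.card_le_card Finset.inter_subset_right

theorem degIn_mono {E F : Finset (Sym2 V)} (h : E ⊆ F) (X : Finset V) (v : V) :
    degIn E X v ≤ degIn F X v :=
  Finset.card_le_card (Finset.inter_subset_inter_right (nbr_mono h v))

theorem degIn_le_sdiff_add (E F : Finset (Sym2 V)) (X : Finset V) (v : V) :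
    degIn E X v ≤ degIn (E \ F) X v + deg F v := by
  unfold degIn deg
  refine le_trans (Finset.card_le_card (t := (nbr (E \ F) v ∩ X) ∪ nbr F v) ?_)
    (Finset.card_union_le _ _)
  intro u hu
  rw [Finset.mem_inter] at hu
  rw [Finset.mem_union, Finset.mem_inter, nbr_sdiff, Finset.mem_sdiff]
  by_cases h : u ∈ nbr F v
  · exact Or.inr h
  · exact Or.inl ⟨⟨hu.1, h⟩, hu.2⟩

theorem deg_le_sdiff_add (E F : Finset (Sym2 V)) (v : V) :
    deg E v ≤ deg (E \ F) v + deg F v := by
  unfold deg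
  refine le_trans (Finset.card_le_card (t := nbr (E \ F) v ∪ nbr F v) ?_)
    (Finset.card_union_le _ _)
  intro u hu
  rw [Finset.mem_union, nbr_sdiff, Finset.mem_sdiff]
  by_cases h : u ∈ nbr F v
  · exact Or.inr h
  · exact Or.inl ⟨hu, h⟩

theorem edg_mono {S T : Finset V} (h : S ⊆ T) : edg S ⊆ edg T := by
  intro e he
  rw [mem_edg] at he ⊢
  exact ⟨fun v hv => h (he.1 v hv), he.2⟩

theorem nbr_edg_subset (W : Finset V) (v : V) : nbr (edg W) v ⊆ W := by
  intro u hu
  rw [mem_nbr, mk_mem_edg] at hu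
  exact hu.2.1

theorem nbr_edg_of_notMem {W : Finset V} {v : V} (hv : v ∉ W) : nbr (edg W) v = ∅ := by
  rw [Finset.eq_empty_iff_forall_notMem]
  intro u hu
  rw [mem_nbr, mk_mem_edg] at hu
  exact hv hu.1

theorem deg_edg_le (W : Finset V) (v : V) : deg (edg W) v ≤ W.card :=
  Finset.card_le_card (nbr_edg_subset W v)

theorem deg_sdiff_edg_of_notMem (E : Finset (Sym2 V)) {W : Finset V} {v : V} (hv : v ∉ W) :
    deg (E \ edg W) v = deg E v := by
  unfold deg
  rw [nbr_sdiff, nbr_edg_of_notMem hv, Finset.sdiff_empty]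

/-- the degree inside `X` of a vertex of `X` -/
theorem degIn_le_deg_inter_edg {E : Finset (Sym2 V)} (hE : NL E) {X : Finset V} {v : V}
    (hv : v ∈ X) : degIn E X v ≤ deg (E ∩ edg X) v := by
  unfold degIn deg
  refine Finset.card_le_card ?_
  intro u hu
  rw [Finset.mem_inter, mem_nbr] at hu
  rw [mem_nbr, Finset.mem_inter]
  refine ⟨hu.1, mk_mem_edg.2 ⟨hv, hu.2, ?_⟩⟩
  rintro rfl
  exact hE _ hu.1 (by simp)

/-- the degree into `Y ⊆ X` of a vertex of `X` is not changed by the restriction to `X` -/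
theorem degIn_le_degIn_inter_edg {E : Finset (Sym2 V)} (hE : NL E) {X Y : Finset V} (hY : Y ⊆ X)
    {v : V} (hv : v ∈ X) : degIn E Y v ≤ degIn (E ∩ edg X) Y v := by
  unfold degIn
  refine Finset.card_le_card ?_
  intro u hu
  rw [Finset.mem_inter, mem_nbr] at hu
  rw [Finset.mem_inter, mem_nbr, Finset.mem_inter]
  refine ⟨⟨hu.1, mk_mem_edg.2 ⟨hv, hY hu.2, ?_⟩⟩, hu.2⟩
  rintro rfl
  exact hE _ hu.1 (by simp)

end Deg

/-! ## Relative cover down with a protected set -/

section Rel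

variable {V : Type} [DecidableEq V] [Fintype V]

theorem coverDown_rel {ε η μ : ℝ} {n₀ : ℕ} (h : CoverDown ε η μ n₀)
    (E : Finset (Sym2 V)) (S U W : Finset V) (hE : E ⊆ edg S) (hU : U ⊆ S) (hW : W ⊆ U)
    (hn : n₀ ≤ S.card) (h1 : η / 2 * S.card ≤ U.card) (h2 : (U.card : ℝ) ≤ η * S.card)
    (hW2 : (W.card : ℝ) ≤ ε * U.card) (hε : 0 < ε)
    (h3 : ∀ v ∈ S, (3 / 4 + 2 * ε) * S.card ≤ deg E v)
    (h4 : ∀ v ∈ S, (3 / 4 + 2 * ε) * U.card ≤ degIn E U v)
    (h5 : ∀ v ∈ S, v ∉ U → Even (deg E v)) :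
    ∃ H, H ⊆ E ∧ Dec H ∧ E \ H ⊆ edg U ∧ Disjoint H (edg W) ∧
      ∀ v ∈ U, (deg (H ∩ edg U) v : ℝ) ≤ μ * U.card := by
  have hUS : (U.card : ℝ) ≤ S.card := by exact_mod_cast Finset.card_le_card hU
  have hE1 : E \ edg W ⊆ edg S := Finset.sdiff_subset.trans hE
  have hcardS : Fintype.card S = S.card := Fintype.card_coe S
  have hcardU : (U.subtype (fun v => v ∈ S)).card = U.card := by
    rw [Finset.card_subtype]
    congr 1
    exact Finset.filter_true_of_mem fun v hv => hU hv
  have hNL : NL (E \ edg W) := fun e he => (mem_edg.1 (hE1 he)).2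
  obtain ⟨H', hH'E, hH'dec, hH'U, hH'deg⟩ := h S (res S (E \ edg W))
    (U.subtype (fun v => v ∈ S)) (nl_res hNL) (by rw [hcardS]; exact hn)
    (by rw [hcardS, hcardU]; exact h1) (by rw [hcardS, hcardU]; exact h2)
    (fun v => by
      rw [hcardS, deg_res hE1]
      have h6 : (deg E v : ℝ) ≤ deg (E \ edg W) v + deg (edg W) v := by
        exact_mod_cast deg_le_sdiff_add E (edg W) v
      have h7 : (deg (edg W) (v : V) : ℝ) ≤ W.card := by exact_mod_cast deg_edg_le W v
      have h8 := h3 v v.2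
      have h9 : ε * (U.card : ℝ) ≤ ε * S.card := mul_le_mul_of_nonneg_left hUS hε.le
      linarith)
    (fun v => by
      rw [hcardU, degIn_res hE1]
      have h6 : (degIn E U v : ℝ) ≤ degIn (E \ edg W) U v + deg (edg W) v := by
        exact_mod_cast degIn_le_sdiff_add E (edg W) U v
      have h7 : (deg (edg W) (v : V) : ℝ) ≤ W.card := by exact_mod_cast deg_edg_le W v
      have h8 := h4 v v.2
      linarith)
    (fun v hv => by
      rw [deg_res hE1]
      have hvU : (v : V) ∉ U := fun h6 => hv (Finset.mem_subtype.2 h6)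
      rw [deg_sdiff_edg_of_notMem E (fun h6 => hvU (hW h6))]
      exact h5 v v.2 hvU)
  have hHsub : img Subtype.val H' ⊆ E \ edg W := img_val_subset_of_subset_res hH'E
  refine ⟨img Subtype.val H', hHsub.trans Finset.sdiff_subset, hH'dec.img Subtype.val_injective,
    ?_, ?_, ?_⟩
  · intro e he
    rw [Finset.mem_sdiff] at he
    by_cases heW : e ∈ edg W
    · exact edg_mono hW heW
    · have heE : e ∈ E \ edg W := Finset.mem_sdiff.2 ⟨he.1, heW⟩
      induction e using Sym2.ind with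
      | _ a b =>
        have hab := mk_mem_edg.1 (hE1 heE)
        have h6 : s((⟨a, hab.1⟩ : S), ⟨b, hab.2.1⟩) ∈ res S (E \ edg W) \ H' := by
          rw [Finset.mem_sdiff]
          refine ⟨mk_mem_res.2 heE, fun h7 => he.2 ?_⟩
          exact (mk_mem_img Subtype.val_injective (E := H') (a := ⟨a, hab.1⟩)
            (b := ⟨b, hab.2.1⟩)).2 h7
        have h7 := mk_mem_edg.1 (hH'U h6)
        rw [Finset.mem_subtype, Finset.mem_subtype] at h7
        exact mk_mem_edg.2 ⟨h7.1, h7.2.1, hab.2.2⟩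
  · rw [Finset.disjoint_left]
    intro e he he'
    exact (Finset.mem_sdiff.1 (hHsub he)).2 he'
  · intro v hv
    have h6 := hH'deg ⟨v, hU hv⟩ (Finset.mem_subtype.2 hv)
    rw [hcardU] at h6
    rw [img_inter_edg]
    have h7 := deg_img_val (H := H' ∩ edg (U.subtype (fun v => v ∈ S))) ⟨v, hU hv⟩
    rw [show ((⟨v, hU hv⟩ : S) : V) = v from rfl] at h7
    rw [h7]
    exact h6

end Rel

/-! ## Iteration over a vortex -/

section Iter

variable {V : Type} [DecidableEq V] [Fintype V]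

theorem Vortex.sub_one {E : Finset (Sym2 V)} {ε η : ℝ} {m l : ℕ} {U : ℕ → Finset V}
    (h : Vortex E ε η m l U) : ∀ i, 1 ≤ i → i ≤ l → U i ⊆ U 1 := by
  intro i hi
  induction i, hi using Nat.le_induction with
  | base => intro _; exact Finset.Subset.refl _
  | succ i hi ih =>
    intro hl
    exact (h.sub i (by omega)).trans (ih (by omega))

theorem iterate {ε η μ : ℝ} {n₀ : ℕ} (hCD : CoverDown ε η μ n₀) (hε : 0 < ε) (hη : 0 < η)
    (hηε : η ≤ ε) (hμ : μ ≤ ε * η) (hμ' : μ ≤ 2 * ε) (E E0 : Finset (Sym2 V)) (hNL : NL E)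
    {l : ℕ} {U : ℕ → Finset V} (hV : Vortex E (4 * ε) η n₀ l U) (hE0 : E0 ⊆ E)
    (heven : ∀ v, Even (deg E0 v))
    (h0 : ∀ v, (3 / 4 + 2 * ε) * Fintype.card V ≤ deg E0 v)
    (h1 : ∀ v, (3 / 4 + 2 * ε) * (U 1).card ≤ degIn E0 (U 1) v)
    (hc : ∀ e ∈ E, e ∈ edg (U 1) → e ∈ E0) :
    ∀ i, i ≤ l → ∃ H, H ⊆ E0 ∧ Dec H ∧ E0 \ H ⊆ edg (U i) ∧
      (i < l → (∀ v ∈ U i, (3 / 4 + 2 * ε) * (U i).card ≤ deg (E0 \ H) v) ∧
        (∀ v ∈ U i, (3 / 4 + 2 * ε) * (U (i + 1)).card ≤ degIn (E0 \ H) (U (i + 1)) v) ∧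
        Disjoint H (edg (U (i + 1)))) := by
  intro i
  induction i with
  | zero =>
    intro _
    refine ⟨∅, Finset.empty_subset _, Dec.empty, ?_, fun hl => ⟨?_, ?_, ?_⟩⟩
    · rw [hV.zero, Finset.sdiff_empty]
      intro e he
      rw [mem_edg]
      exact ⟨fun v _ => Finset.mem_univ v, hNL e (hE0 he)⟩
    · intro v _
      rw [Finset.sdiff_empty, hV.zero, Finset.card_univ]
      exact h0 v
    · intro v _
      rw [Finset.sdiff_empty]
      exact h1 v
    · exact Finset.disjoint_empty_left _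
  | succ i ih =>
    intro hil
    have hi : i < l := by omega
    obtain ⟨H, hHE, hHdec, hHU, hH⟩ := ih (by omega)
    obtain ⟨ha, hb, hd⟩ := hH hi
    -- the protected set
    obtain ⟨W, hW⟩ : ∃ W : Finset V, W = if i + 1 < l then U (i + 2) else ∅ := ⟨_, rfl⟩
    have hWU : W ⊆ U (i + 1) := by
      rw [hW]
      split_ifs with h
      · exact hV.sub (i + 1) h
      · exact Finset.empty_subset _
    have hWcard : (W.card : ℝ) ≤ ε * (U (i + 1)).card := by
      rw [hW]
      split_ifs with h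
      · refine (hV.upper (i + 1) h).trans ?_
        exact mul_le_mul_of_nonneg_right hηε (Nat.cast_nonneg _)
      · rw [Finset.card_empty]
        push_cast
        positivity
    obtain ⟨H', hH'E, hH'dec, hH'U, hH'W, hH'deg⟩ := coverDown_rel hCD (E0 \ H) (U i) (U (i + 1))
      W hHU (hV.sub i hi) hWU (hV.large i hi) (hV.lower i hi) (hV.upper i hi) hWcard hε ha hb
      (fun v _ _ => by
        have h6 := deg_sdiff_add hHE v
        have h7 := heven v
        rw [← h6] at h7
        exact (Nat.even_add.1 h7).2 (hHdec.even_deg v))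
    have hsd : E0 \ (H ∪ H') = (E0 \ H) \ H' := by rw [Finset.sdiff_union_distrib]; ext e; simp; tauto
    refine ⟨H ∪ H', Finset.union_subset hHE (hH'E.trans Finset.sdiff_subset),
      hHdec.union hH'dec ?_, ?_, fun hil' => ?_⟩
    · rw [Finset.disjoint_right]
      intro e he
      exact (Finset.mem_sdiff.1 (hH'E he)).2
    · rw [hsd]; exact hH'U
    · -- the new graph contains the old graph inside `U (i+1)` up to the used edges
      have hkey : (E ∩ edg (U (i + 1))) \ (H' ∩ edg (U (i + 1))) ⊆ E0 \ (H ∪ H') := by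
        intro e he
        rw [Finset.mem_sdiff, Finset.mem_inter, Finset.mem_inter] at he
        rw [Finset.mem_sdiff, Finset.mem_union]
        obtain ⟨⟨he1, he2⟩, he3⟩ := he
        refine ⟨hc e he1 (edg_mono (hV.sub_one (i + 1) (by omega) hil) he2), ?_⟩
        rintro (h6 | h6)
        · exact Finset.disjoint_left.1 hd h6 he2
        · exact he3 ⟨h6, he2⟩
      have hup : ∀ v ∈ U (i + 1), (deg (H' ∩ edg (U (i + 1))) v : ℝ) ≤ μ * (U (i + 1)).card :=
        hH'deg
      have hUi1 : (0 : ℝ) ≤ (U (i + 1)).card := Nat.cast_nonneg _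
      refine ⟨fun v hv => ?_, fun v hv => ?_, ?_⟩
      · have h6 := hV.deg i hi v (hV.sub i hi hv)
        have h7 : (degIn E (U (i + 1)) v : ℝ) ≤ deg (E ∩ edg (U (i + 1))) v := by
          exact_mod_cast degIn_le_deg_inter_edg hNL hv
        have h8 : (deg (E ∩ edg (U (i + 1))) v : ℝ) ≤
            deg ((E ∩ edg (U (i + 1))) \ (H' ∩ edg (U (i + 1)))) v +
              deg (H' ∩ edg (U (i + 1))) v := by
          exact_mod_cast deg_le_sdiff_add _ _ v
        have h9 : (deg ((E ∩ edg (U (i + 1))) \ (H' ∩ edg (U (i + 1)))) v : ℝ) ≤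
            deg (E0 \ (H ∪ H')) v := by exact_mod_cast deg_mono hkey v
        have h10 := hup v hv
        have h11 : μ * (U (i + 1)).card ≤ 2 * ε * (U (i + 1)).card :=
          mul_le_mul_of_nonneg_right hμ' hUi1
        linarith
      · have h6 := hV.deg (i + 1) hil' v hv
        have h7 : (degIn E (U (i + 2)) v : ℝ) ≤ degIn (E ∩ edg (U (i + 1))) (U (i + 2)) v := by
          exact_mod_cast degIn_le_degIn_inter_edg hNL (hV.sub (i + 1) hil') hv
        have h8 : (degIn (E ∩ edg (U (i + 1))) (U (i + 2)) v : ℝ) ≤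
            degIn ((E ∩ edg (U (i + 1))) \ (H' ∩ edg (U (i + 1)))) (U (i + 2)) v +
              deg (H' ∩ edg (U (i + 1))) v := by
          exact_mod_cast degIn_le_sdiff_add _ _ _ v
        have h9 : (degIn ((E ∩ edg (U (i + 1))) \ (H' ∩ edg (U (i + 1)))) (U (i + 2)) v : ℝ) ≤
            degIn (E0 \ (H ∪ H')) (U (i + 2)) v := by exact_mod_cast degIn_mono hkey _ v
        have h10 := hup v hv
        have h11 : μ * (U (i + 1)).card ≤ ε * η * (U (i + 1)).card :=
          mul_le_mul_of_nonneg_right hμ hUi1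
        have h12 : ε * (η / 2 * (U (i + 1)).card) ≤ ε * (U (i + 2)).card :=
          mul_le_mul_of_nonneg_left (hV.lower (i + 1) hil') hε.le
        have h13 : U (i + 1 + 1) = U (i + 2) := rfl
        rw [h13] at h6 ⊢
        linarith
      · rw [Finset.disjoint_union_left]
        refine ⟨?_, ?_⟩
        · exact Finset.disjoint_of_subset_right (edg_mono (hV.sub (i + 1) hil')) hd
        · rw [hW, if_pos hil'] at hH'W
          exact hH'W

end Iter

/-! ## The final theorem from the three inputs -/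

theorem CoverDown.mono {ε η μ : ℝ} {n₀ n₁ : ℕ} (h : CoverDown ε η μ n₀) (hn : n₀ ≤ n₁) :
    CoverDown ε η μ n₁ :=
  fun V _ _ E U hE hV => h V E U hE (hn.trans hV)

theorem asymptotic_of_inputs (hC : CoverDownLemma) (hVX : VortexLemma) (hA : AbsorberLemma) :
    ∀ ε : ℝ, 0 < ε → ∃ n₀ : ℕ, ∀ (V : Type) [Fintype V] [DecidableEq V] (E : Finset (Sym2 V)),
      Divis E → n₀ ≤ Fintype.card V → (∀ v, (3 / 4 + ε) * Fintype.card V ≤ deg E v) → Dec E := by
  intro ε hε
  obtain ⟨e, he⟩ : ∃ e : ℝ, e = ε / 8 := ⟨_, rfl⟩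
  have he0 : 0 < e := by rw [he]; positivity
  obtain ⟨η₀, hη₀, hC1⟩ := hC e he0
  obtain ⟨η, hηdef⟩ : ∃ η : ℝ, η = min η₀ (min e (1 / 4)) := ⟨_, rfl⟩
  have hη0 : 0 < η := by rw [hηdef]; exact lt_min hη₀ (lt_min he0 (by norm_num))
  have hη1 : η ≤ η₀ := by rw [hηdef]; exact min_le_left _ _
  have hη2 : η ≤ e := by rw [hηdef]; exact (min_le_right _ _).trans (min_le_left _ _)
  have hη3 : η ≤ 1 / 4 := by rw [hηdef]; exact (min_le_right _ _).trans (min_le_right _ _)
  have hμ0 : 0 < e * η := by positivity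
  obtain ⟨n₁, hCD⟩ := hC1 η hη0 hη1 (e * η) hμ0
  obtain ⟨m₁, hVm⟩ := hVX (4 * e) (by positivity) η hη0 hη3
  obtain ⟨m, hmdef⟩ : ∃ m : ℕ, m = max n₁ m₁ := ⟨_, rfl⟩
  have hCD' : CoverDown e η (e * η) m := hCD.mono (by rw [hmdef]; exact le_max_left _ _)
  obtain ⟨M, hM⟩ := hA m
  obtain ⟨n₂, hn₂⟩ := exists_nat_ge ((M : ℝ) / (e * η))
  refine ⟨max m n₂, ?_⟩
  intro V _ _ E hE hn hdeg
  have hn1 : m ≤ Fintype.card V := (le_max_left _ _).trans hn
  have hn2 : n₂ ≤ Fintype.card V := (le_max_right _ _).trans hn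
  have hMn : (M : ℝ) ≤ e * η * Fintype.card V := by
    have h1 : (M : ℝ) / (e * η) ≤ Fintype.card V := hn₂.trans (by exact_mod_cast hn2)
    rw [div_le_iff₀ hμ0] at h1
    linarith
  have hcard0 : (0 : ℝ) ≤ Fintype.card V := Nat.cast_nonneg _
  have hMn' : (M : ℝ) ≤ e * Fintype.card V := by
    have h1 : e * η * Fintype.card V ≤ e * 1 * Fintype.card V := by
      refine mul_le_mul_of_nonneg_right ?_ hcard0
      exact mul_le_mul_of_nonneg_left (by linarith) he0.le
    linarith
  obtain ⟨l, U, hVor⟩ := hVm m (by rw [hmdef]; exact le_max_right _ _) V E hE.1 hn1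
    (fun v => by
      have := hdeg v
      have h2 : (3 / 4 + 2 * (4 * e)) = 3 / 4 + ε := by rw [he]; ring
      rw [h2]; exact this)
  have hl : 0 < l := by
    rcases Nat.eq_zero_or_pos l with h | h
    · exfalso
      have h1 := hVor.last
      rw [h, hVor.zero, Finset.card_univ] at h1
      omega
    · exact h
  have hU1up : ((U 1).card : ℝ) ≤ η * Fintype.card V := by
    have h1 := hVor.upper 0 hl
    rw [hVor.zero, Finset.card_univ] at h1
    exact h1
  have hU1low : η / 2 * Fintype.card V ≤ ((U 1).card : ℝ) := by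
    have h1 := hVor.lower 0 hl
    rw [hVor.zero, Finset.card_univ] at h1
    exact h1
  -- the absorber
  obtain ⟨A, hAE, hAY, hAdeg, hAabs⟩ := hM V E (U l) (univ \ U 1) hE.1 hVor.last.le
    (by
      rw [Finset.disjoint_left]
      intro v hv hv'
      exact (Finset.mem_sdiff.1 hv').2 (hVor.sub_one l (by omega) le_rfl hv))
    (fun S hS => by
      have h1 : (univ : Finset V) ⊆ ((univ \ U 1).filter (fun y => ∀ s ∈ S, s(s, y) ∈ E)) ∪
          (U 1 ∪ S.biUnion (fun s => (nbr E s)ᶜ)) := by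
        intro y _
        by_cases hy1 : y ∈ U 1
        · exact Finset.mem_union_right _ (Finset.mem_union_left _ hy1)
        by_cases hy2 : ∀ s ∈ S, s(s, y) ∈ E
        · exact Finset.mem_union_left _ (Finset.mem_filter.2
            ⟨Finset.mem_sdiff.2 ⟨Finset.mem_univ _, hy1⟩, hy2⟩)
        · push Not at hy2
          obtain ⟨s, hs, hs2⟩ := hy2
          refine Finset.mem_union_right _ (Finset.mem_union_right _ (Finset.mem_biUnion.2
            ⟨s, hs, ?_⟩))
          rw [Finset.mem_compl, mem_nbr]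
          exact hs2
      have h2 := Finset.card_le_card h1
      rw [Finset.card_univ] at h2
      have h3 := h2.trans ((Finset.card_union_le _ _).trans
        (Nat.add_le_add_left (Finset.card_union_le _ _) _))
      have h4 : ((S.biUnion (fun s => (nbr E s)ᶜ)).card : ℝ) ≤
          4 * ((1 / 4 - 8 * e) * Fintype.card V) ∨ (1 / 4 - 8 * e) * (Fintype.card V : ℝ) < 0 := by
        by_cases hneg : (1 / 4 - 8 * e) * (Fintype.card V : ℝ) < 0
        · exact Or.inr hneg
        left
        push Not at hneg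
        have h5 : ((S.biUnion (fun s => (nbr E s)ᶜ)).card : ℝ) ≤
            ∑ s ∈ S, (((nbr E s)ᶜ).card : ℝ) := by
          exact_mod_cast Finset.card_biUnion_le
        have h6 : ∑ s ∈ S, (((nbr E s)ᶜ).card : ℝ) ≤
            ∑ _s ∈ S, ((1 / 4 - 8 * e) * (Fintype.card V : ℝ)) := by
          refine Finset.sum_le_sum fun s _ => ?_
          have h7 := hdeg s
          have h8 : (((nbr E s)ᶜ).card : ℝ) = Fintype.card V - deg E s := by
            rw [Finset.card_compl, Nat.cast_sub (Finset.card_le_univ _)]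
            rfl
          rw [h8, he]
          linarith
        rw [Finset.sum_const, nsmul_eq_mul] at h6
        have h9 : (S.card : ℝ) * ((1 / 4 - 8 * e) * (Fintype.card V : ℝ)) ≤
            4 * ((1 / 4 - 8 * e) * (Fintype.card V : ℝ)) :=
          mul_le_mul_of_nonneg_right (by exact_mod_cast hS) hneg
        linarith
      have h10 : (Fintype.card V : ℝ) ≤
          ((univ \ U 1).filter (fun y => ∀ s ∈ S, s(s, y) ∈ E)).card +
            ((U 1).card + (S.biUnion (fun s => (nbr E s)ᶜ)).card) := by exact_mod_cast h3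
      have h11 : (M : ℝ) ≤ ((univ \ U 1).filter (fun y => ∀ s ∈ S, s(s, y) ∈ E)).card := by
        rcases h4 with h4 | h4
        · have h12 : η * (Fintype.card V : ℝ) ≤ e * Fintype.card V :=
            mul_le_mul_of_nonneg_right hη2 hcard0
          nlinarith
        · -- impossible: degrees would exceed the number of vertices
          exfalso
          have h13 : 0 < (Fintype.card V : ℝ) := by
            rcases hcard0.lt_or_eq with h | h
            · exact h
            · rw [← h] at h4; simp at h4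
          have hne : Nonempty V := by
            rw [← Fintype.card_pos_iff]
            exact_mod_cast h13
          obtain ⟨v⟩ := hne
          have h14 := hdeg v
          have h15 : (deg E v : ℝ) ≤ Fintype.card V := by
            exact_mod_cast Finset.card_le_univ (nbr E v)
          rw [he] at h4
          nlinarith
      exact_mod_cast h11)
  -- the remaining graph
  obtain ⟨E0, hE0def⟩ : ∃ E0, E0 = E \ A := ⟨_, rfl⟩
  have hAdec : Dec A := by
    have h1 := hAabs ∅ (Finset.empty_subset _) (Finset.empty_subset _) Dec.empty.divis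
    rwa [Finset.union_empty] at h1
  have hE0 : Divis E0 := by rw [hE0def]; exact hE.sdiff hAdec.divis hAE
  have hE0E : E0 ⊆ E := by rw [hE0def]; exact Finset.sdiff_subset
  obtain ⟨H, hHE0, hHdec, hHU, -⟩ := iterate hCD' he0 hη0 hη2 le_rfl (by nlinarith) E E0 hE.1 hVor
    hE0E hE0.2.1
    (fun v => by
      have h1 : (deg E v : ℝ) ≤ deg (E \ A) v + deg A v := by
        exact_mod_cast deg_le_sdiff_add E A v
      have h2 : (deg A v : ℝ) ≤ M := by exact_mod_cast hAdeg v
      have h3 := hdeg v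
      rw [hE0def]
      have h4 : ε = 8 * e := by rw [he]; ring
      rw [h4] at h3
      nlinarith)
    (fun v => by
      have h1 : (degIn E (U 1) v : ℝ) ≤ degIn (E \ A) (U 1) v + deg A v := by
        exact_mod_cast degIn_le_sdiff_add E A (U 1) v
      have h2 : (deg A v : ℝ) ≤ M := by exact_mod_cast hAdeg v
      have h3 := hVor.deg 0 hl v (by rw [hVor.zero]; exact Finset.mem_univ v)
      rw [hE0def]
      have h5 : e * (η / 2 * Fintype.card V) ≤ e * (U 1).card :=
        mul_le_mul_of_nonneg_left hU1low he0.le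
      have h6 : U (0 + 1) = U 1 := rfl
      rw [h6] at h3
      linarith)
    (fun x hx hx1 => by
      rw [hE0def, Finset.mem_sdiff]
      refine ⟨hx, fun hxA => ?_⟩
      obtain ⟨y, hy, hyY⟩ := hAY x hxA
      exact (Finset.mem_sdiff.1 hyY).2 ((mem_edg.1 hx1).1 y hy))
    l le_rfl
  have hL : Divis (E0 \ H) := hE0.sdiff hHdec.divis hHE0
  have hAL := hAabs (E0 \ H) (Finset.sdiff_subset.trans hE0E) hHU hL
  have hfin : E = H ∪ (A ∪ (E0 \ H)) := by
    ext x
    rw [Finset.mem_union, Finset.mem_union, Finset.mem_sdiff]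
    have h1 : x ∈ E0 ↔ x ∈ E ∧ x ∉ A := by rw [hE0def, Finset.mem_sdiff]
    constructor
    · intro hx
      by_cases hxA : x ∈ A
      · exact Or.inr (Or.inl hxA)
      by_cases hxH : x ∈ H
      · exact Or.inl hxH
      · exact Or.inr (Or.inr ⟨h1.2 ⟨hx, hxA⟩, hxH⟩)
    · rintro (hx | hx | hx)
      · exact hE0E (hHE0 hx)
      · exact hAE hx
      · exact hE0E hx.1
  rw [hfin]
  refine hHdec.union hAL ?_
  rw [Finset.disjoint_union_right]
  refine ⟨?_, Finset.disjoint_sdiff⟩
  rw [Finset.disjoint_left]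
  intro x hx hxA
  have h1 := hHE0 hx
  rw [hE0def] at h1
  exact (Finset.mem_sdiff.1 h1).2 hxA

end NW
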