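import Pool.Agent.NW.Defs

/-!
# Project NW: the exact statements of all modules

Every module proves `theorem foo : FooStatement` (or takes earlier statements as hypotheses);
nothing is asserted here.  All graphs live on a finite type `V : Type`, as edge sets
`E : Finset (Sym2 V)`.
-/

set_option linter.unusedSectionVars false

namespace NW

open Finset

/-- the total weight of the triangles containing the edge `e` -/
noncomputable def wsum {V : Type*} [DecidableEq V] [Fintype V] (w : Finset V → ℝ) (e : Sym2 V) : ℝ :=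
  ∑ t ∈ (univ : Finset (Finset V)).filter (fun t => e ∈ edg t), w t

/-- `w` is a weighting of the triangles of `E` with all weights at most `C / n` -/
def IsWt {V : Type*} [DecidableEq V] [Fintype V] (E : Finset (Sym2 V)) (w : Finset V → ℝ)
    (C : ℝ) : Prop :=
  (∀ t, 0 ≤ w t) ∧ (∀ t, w t * (Fintype.card V : ℝ) ≤ C) ∧
    ∀ t, w t ≠ 0 → t.card = 3 ∧ edg t ⊆ E

/-- T1 (Split): one random colouring.  Every set of a small family is split evenly. -/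
def SplitStatement : Prop :=
  ∀ (K : ℕ), 0 < K → ∀ (C : ℝ), ∃ n0 : ℕ,
    ∀ (V : Type) [DecidableEq V] (U : Finset V) (ι : Type) [Fintype ι] (F : ι → Finset V),
      n0 ≤ U.card → (Fintype.card ι : ℝ) ≤ C * (U.card : ℝ) →
      ∃ c : V → Fin K, ∀ (i : ι) (k : Fin K),
        |((((F i ∩ U).filter (fun v => c v = k)).card : ℝ) - ((F i ∩ U).card : ℝ) / (K : ℝ))|
          ≤ (U.card : ℝ) ^ (3 / 4 : ℝ)

/-- a perfect matching of the vertex set `S` -/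
def IsPM {V : Type*} [DecidableEq V] [Fintype V] (M : Finset (Sym2 V)) (S : Finset V) : Prop :=
  M ⊆ S.sym2 ∧ NL M ∧ ∀ u ∈ S, deg M u = 1

/-- T2 (Match): Dirac type perfect matchings -/
def MatchStatement : Prop :=
  ∀ (V : Type) [Fintype V] [DecidableEq V] (H : Finset (Sym2 V)) (S : Finset V),
    NL H → Even S.card → (∀ u ∈ S, S.card ≤ 2 * degIn H S u) → ∃ M, M ⊆ H ∧ IsPM M S

/-- N1 (bounded fractional decomposition): weights at most `C / n`, sums in `[1 - δ, 1]` -/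
def FracStatement : Prop :=
  ∀ ε : ℝ, 0 < ε → ∀ δ : ℝ, 0 < δ → ∃ C : ℝ, ∃ n0 : ℕ,
    ∀ (V : Type) [Fintype V] [DecidableEq V] (E : Finset (Sym2 V)), NL E →
      n0 ≤ Fintype.card V →
      (∀ v, (3 / 4 + ε) * (Fintype.card V : ℝ) ≤ (deg E v : ℝ)) →
      ∃ w : Finset V → ℝ, IsWt E w C ∧ ∀ e ∈ E, 1 - δ ≤ wsum w e ∧ wsum w e ≤ 1

/-- N2 (nibble) -/
def NibbleStatement : Prop :=
  ∀ γ : ℝ, 0 < γ → ∃ δ : ℝ, 0 < δ ∧ ∀ C : ℝ, ∃ n0 : ℕ,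
    ∀ (V : Type) [Fintype V] [DecidableEq V] (E : Finset (Sym2 V)), NL E →
      n0 ≤ Fintype.card V → (∀ v, (Fintype.card V : ℝ) ≤ 2 * (deg E v : ℝ)) →
      ∀ w : Finset V → ℝ, IsWt E w C →
      (∀ e ∈ E, 1 - δ ≤ wsum w e ∧ wsum w e ≤ 1) →
      ∃ 𝒯 : Finset (Finset V), IsPack 𝒯 E ∧
        ∀ v, (deg (E \ 𝒯.biUnion edg) v : ℝ) ≤ γ * (Fintype.card V : ℝ)

/-- N2' (average nibble): only the total number of uncovered edges is small -/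
def AvgNibbleStatement : Prop :=
  ∀ γ : ℝ, 0 < γ → ∃ δ : ℝ, 0 < δ ∧ ∀ C : ℝ, ∃ n0 : ℕ,
    ∀ (V : Type) [Fintype V] [DecidableEq V] (E : Finset (Sym2 V)), NL E →
      n0 ≤ Fintype.card V → (∀ v, (Fintype.card V : ℝ) ≤ 2 * (deg E v : ℝ)) →
      ∀ w : Finset V → ℝ, IsWt E w C →
      (∀ e ∈ E, 1 - δ ≤ wsum w e ∧ wsum w e ≤ 1) →
      ∃ 𝒯 : Finset (Finset V), IsPack 𝒯 E ∧
        ((E \ 𝒯.biUnion edg).card : ℝ) ≤ γ * (Fintype.card V : ℝ) ^ 2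

/-- N2'' (repair): from a small average to a small maximum degree of the leftover.
Deterministic; uses `MatchStatement`. -/
def RepairStatement : Prop :=
  ∀ ε : ℝ, 0 < ε → ∀ γ : ℝ, 0 < γ → ∃ κ : ℝ, 0 < κ ∧ ∃ n0 : ℕ,
    ∀ (V : Type) [Fintype V] [DecidableEq V] (E : Finset (Sym2 V)), NL E →
      n0 ≤ Fintype.card V →
      (∀ v, (3 / 4 + ε) * (Fintype.card V : ℝ) ≤ (deg E v : ℝ)) →
      (∃ 𝒯 : Finset (Finset V), IsPack 𝒯 E ∧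
        ((E \ 𝒯.biUnion edg).card : ℝ) ≤ κ * (Fintype.card V : ℝ) ^ 2) →
      ∃ 𝒯 : Finset (Finset V), IsPack 𝒯 E ∧
        ∀ v, (deg (E \ 𝒯.biUnion edg) v : ℝ) ≤ γ * (Fintype.card V : ℝ)

/-- AD (approximate decomposition), relative to a vertex set `X`.
From N1 and N2 (or N1, N2', N2''), after transfer to the subtype. -/
def ADStatement : Prop :=
  ∀ ε : ℝ, 0 < ε → ∀ γ : ℝ, 0 < γ → ∃ n0 : ℕ,
    ∀ (V : Type) [Fintype V] [DecidableEq V] (E : Finset (Sym2 V)) (X : Finset V), NL E →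
      E ⊆ X.sym2 → n0 ≤ X.card →
      (∀ v ∈ X, (3 / 4 + ε) * (X.card : ℝ) ≤ (deg E v : ℝ)) →
      ∃ P, P ⊆ E ∧ Dec P ∧ ∀ v ∈ X, (deg (E \ P) v : ℝ) ≤ γ * (X.card : ℝ)

/-- N4 (cover down) -/
def CoverStatement : Prop :=
  ∀ α : ℝ, 0 < α → ∀ η : ℝ, 0 < η → ∀ μ : ℝ, 0 < μ → ∃ n0 : ℕ,
    ∀ (V : Type) [Fintype V] [DecidableEq V] (G : Finset (Sym2 V)) (X U : Finset V), NL G →
      G ⊆ X.sym2 → U ⊆ X → n0 ≤ X.card →
      η * (X.card : ℝ) ≤ (U.card : ℝ) → (U.card : ℝ) ≤ α / 8 * (X.card : ℝ) →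
      (∀ v ∈ X, (3 / 4 + α) * (X.card : ℝ) ≤ (deg G v : ℝ)) →
      (∀ v ∈ X, (3 / 4 + α) * (U.card : ℝ) ≤ (degIn G U v : ℝ)) →
      (∀ v ∈ X \ U, Even (deg G v)) →
      ∃ D, D ⊆ G ∧ Dec D ∧ G \ D ⊆ U.sym2 ∧
        ∀ v ∈ U, (degIn D U v : ℝ) ≤ μ * (U.card : ℝ)

/-- a vortex: `U 0 ⊇ U 1 ⊇ … ⊇ U ℓ` -/
def IsVortex {V : Type*} [DecidableEq V] [Fintype V] (E : Finset (Sym2 V)) (α : ℝ) (K : ℕ)
    (ℓ : ℕ) (U : ℕ → Finset V) : Prop :=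
  ∀ i < ℓ, U (i + 1) ⊆ U i ∧ (U i).card ≤ 2 * K * (U (i + 1)).card ∧
    K * (U (i + 1)).card ≤ 2 * (U i).card ∧
    ∀ x ∈ U i, (3 / 4 + α) * ((U (i + 1)).card : ℝ) ≤ (degIn E (U (i + 1)) x : ℝ)

/-- N3 (vortex); from `SplitStatement` -/
def VortexStatement : Prop :=
  ∀ ε : ℝ, 0 < ε → ∀ K : ℕ, 32 ≤ K → ∀ m : ℕ, ∃ M n0 : ℕ,
    ∀ (V : Type) [Fintype V] [DecidableEq V] (E : Finset (Sym2 V)), NL E →
      n0 ≤ Fintype.card V →
      (∀ v, (3 / 4 + ε) * (Fintype.card V : ℝ) ≤ (deg E v : ℝ)) →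
      ∃ (ℓ : ℕ) (U : ℕ → Finset V), 1 ≤ ℓ ∧ U 0 = univ ∧ IsVortex E (ε / 2) K ℓ U ∧
        m ≤ (U ℓ).card ∧ (U ℓ).card ≤ M

/-- the common neighbours of `S` outside `F` -/
def cnbr {V : Type*} [DecidableEq V] [Fintype V] (E : Finset (Sym2 V)) (S F : Finset V) :
    Finset V :=
  univ.filter (fun z => z ∉ F ∧ ∀ x ∈ S, s(x, z) ∈ E)

/-- N5 (absorber): one absorber for all `K_3`-divisible graphs on the small set `U`;
`F ⊇ U` is the forbidden set (`U 1` of the vortex). -/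
def AbsorberStatement : Prop :=
  ∀ m : ℕ, ∃ C : ℕ,
    ∀ (V : Type) [Fintype V] [DecidableEq V] (E : Finset (Sym2 V)) (U F : Finset V), NL E →
      U.card ≤ m → U ⊆ F → (∀ S : Finset V, S.card ≤ 4 → C ≤ (cnbr E S F).card) →
      ∃ A, A ⊆ E ∧ Dec A ∧ A.card ≤ C ∧ (∀ e ∈ A, ∃ v ∈ e, v ∉ F) ∧
        ∀ D, D ⊆ U.sym2 → Divis D → Dec (A ∪ D)

/-- N6a (iteration of the cover down along a vortex).  `H` is the current graph on `U 0`;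
inside `U 1` it agrees with the original graph `E`. -/
def IterateStatement : Prop :=
  ∀ α : ℝ, 0 < α → ∃ K0 : ℕ, ∀ K : ℕ, K0 ≤ K → ∃ n0 : ℕ,
    ∀ (V : Type) [Fintype V] [DecidableEq V] (E H : Finset (Sym2 V)) (ℓ : ℕ) (U : ℕ → Finset V),
      1 ≤ ℓ → IsVortex E (2 * α) K ℓ U → NL H → H ⊆ (U 0).sym2 → n0 ≤ (U ℓ).card →
      (∀ e ∈ (U 1).sym2, (e ∈ H ↔ e ∈ E)) →
      (∀ v ∈ U 0, (3 / 4 + α) * ((U 0).card : ℝ) ≤ (deg H v : ℝ)) →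
      (∀ v ∈ U 0, (3 / 4 + α) * ((U 1).card : ℝ) ≤ (degIn H (U 1) v : ℝ)) →
      (∀ v ∈ U 0 \ U ℓ, Even (deg H v)) →
      ∃ D, D ⊆ H ∧ Dec D ∧ H \ D ⊆ (U ℓ).sym2

/-- N6b: the asymptotic Nash-Williams theorem -/
def MainStatement : Prop :=
  ∀ ε : ℝ, 0 < ε → ∃ n0 : ℕ,
    ∀ (V : Type) [Fintype V] [DecidableEq V] (E : Finset (Sym2 V)), Divis E →
      n0 ≤ Fintype.card V →
      (∀ v, (3 / 4 + ε) * (Fintype.card V : ℝ) ≤ (deg E v : ℝ)) → Dec E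

end NW
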