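import Mathlib
import Pool.Agent.NW.Statements
import Pool.Agent.NW.Glue

/-!
# Project NW: the final theorem from the iteration, the vortex and the absorbers (N6b)
-/

set_option linter.unusedSectionVars false

namespace NW

open Finset

theorem deg_le_card {V : Type*} [DecidableEq V] [Fintype V] (A : Finset (Sym2 V)) (v : V) :
    deg A v ≤ A.card := by
  unfold deg
  refine Finset.card_le_card_of_injOn (fun u => s(v, u)) ?_ ?_
  · intro u hu
    exact mem_nbr.1 hu
  · intro u _ u' _ h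
    exact Sym2.congr_right.1 h

/-- four vertices have many common neighbours outside a small set -/
theorem card_cnbr {V : Type*} [DecidableEq V] [Fintype V] {E : Finset (Sym2 V)} {ε : ℝ}
    (hdeg : ∀ v, (3 / 4 + ε) * (Fintype.card V : ℝ) ≤ (deg E v : ℝ))
    (S F : Finset V) (hS : S.card ≤ 4) :
    4 * ε * (Fintype.card V : ℝ) - F.card ≤ ((cnbr E S F).card : ℝ) := by
  have hcard0 : (0 : ℝ) ≤ Fintype.card V := Nat.cast_nonneg _
  rcases isEmpty_or_nonempty V with hV | ⟨⟨v0⟩⟩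
  · have h1 : (Fintype.card V : ℝ) = 0 := by
      rw [Fintype.card_eq_zero]; simp
    rw [h1]
    have h2 : (0 : ℝ) ≤ F.card := Nat.cast_nonneg _
    have h3 : (0 : ℝ) ≤ (cnbr E S F).card := Nat.cast_nonneg _
    linarith
  have hpos : (0 : ℝ) ≤ (1 / 4 - ε) * Fintype.card V := by
    have h1 := hdeg v0
    have h2 : (deg E v0 : ℝ) ≤ Fintype.card V := by
      exact_mod_cast Finset.card_le_univ (nbr E v0)
    linarith
  have h1 : (univ : Finset V) ⊆ cnbr E S F ∪ (F ∪ S.biUnion (fun s => (nbr E s)ᶜ)) := by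
    intro y _
    by_cases hy1 : y ∈ F
    · exact Finset.mem_union_right _ (Finset.mem_union_left _ hy1)
    by_cases hy2 : ∀ s ∈ S, s(s, y) ∈ E
    · exact Finset.mem_union_left _ (Finset.mem_filter.2 ⟨Finset.mem_univ _, hy1, hy2⟩)
    · push Not at hy2
      obtain ⟨s, hs, hs2⟩ := hy2
      refine Finset.mem_union_right _ (Finset.mem_union_right _ (Finset.mem_biUnion.2
        ⟨s, hs, ?_⟩))
      rw [Finset.mem_compl, mem_nbr]
      exact hs2
  have h2 := Finset.card_le_card h1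
  rw [Finset.card_univ] at h2
  have h3 := h2.trans ((Finset.card_union_le _ _).trans
    (Nat.add_le_add_left (Finset.card_union_le _ _) _))
  have h3' : (Fintype.card V : ℝ) ≤ (cnbr E S F).card +
      (F.card + (S.biUnion (fun s => (nbr E s)ᶜ)).card) := by exact_mod_cast h3
  have h5 : ((S.biUnion (fun s => (nbr E s)ᶜ)).card : ℝ) ≤ ∑ s ∈ S, (((nbr E s)ᶜ).card : ℝ) := by
    exact_mod_cast Finset.card_biUnion_le
  have h6 : ∑ s ∈ S, (((nbr E s)ᶜ).card : ℝ) ≤ ∑ _s ∈ S, ((1 / 4 - ε) * (Fintype.card V : ℝ)) := by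
    refine Finset.sum_le_sum fun s _ => ?_
    have h7 := hdeg s
    have h8 : (((nbr E s)ᶜ).card : ℝ) = Fintype.card V - deg E s := by
      rw [Finset.card_compl, Nat.cast_sub (Finset.card_le_univ _)]
      rfl
    rw [h8]
    linarith
  rw [Finset.sum_const, nsmul_eq_mul] at h6
  have h9 : (S.card : ℝ) * ((1 / 4 - ε) * (Fintype.card V : ℝ)) ≤
      4 * ((1 / 4 - ε) * (Fintype.card V : ℝ)) :=
    mul_le_mul_of_nonneg_right (by exact_mod_cast hS) hpos
  linarith

/-- N6b: the final theorem. -/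
theorem main_of (hI : IterateStatement) (hV : VortexStatement) (hA : AbsorberStatement) :
    MainStatement := by
  intro ε hε
  obtain ⟨K0, hK0⟩ := hI (ε / 4) (by positivity)
  obtain ⟨K1, hK1⟩ := exists_nat_ge (1 / ε)
  obtain ⟨K, hK⟩ : ∃ K : ℕ, K = max K0 (max 32 K1) := ⟨_, rfl⟩
  have hKK0 : K0 ≤ K := by rw [hK]; exact le_max_left _ _
  have hK32 : 32 ≤ K := by rw [hK]; exact (le_max_left _ _).trans (le_max_right _ _)
  have hKK1 : K1 ≤ K := by rw [hK]; exact (le_max_right _ _).trans (le_max_right _ _)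
  have hKε : 1 ≤ ε * K := by
    have h1 : 1 / ε ≤ (K : ℝ) := hK1.trans (by exact_mod_cast hKK1)
    rw [div_le_iff₀ hε] at h1
    linarith
  have hKpos : (0 : ℝ) < K := by
    have : 0 < K := by omega
    exact_mod_cast this
  obtain ⟨m, hm⟩ := hK0 K hKK0
  obtain ⟨M, n1, hVor⟩ := hV ε hε K hK32 m
  obtain ⟨C, hC⟩ := hA M
  obtain ⟨n2, hn2⟩ := exists_nat_ge (8 * K * C / ε)
  refine ⟨max n1 n2, ?_⟩
  intro V _ _ E hE hn hdeg
  have hnn1 : n1 ≤ Fintype.card V := (le_max_left _ _).trans hn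
  have hnn2 : n2 ≤ Fintype.card V := (le_max_right _ _).trans hn
  have hCn : 8 * K * (C : ℝ) ≤ ε * Fintype.card V := by
    have h1 : 8 * K * (C : ℝ) / ε ≤ Fintype.card V := hn2.trans (by exact_mod_cast hnn2)
    rw [div_le_iff₀ hε] at h1
    linarith
  have hn0 : (0 : ℝ) ≤ Fintype.card V := Nat.cast_nonneg _
  have hC0 : (0 : ℝ) ≤ C := Nat.cast_nonneg _
  have hK1' : (32 : ℝ) ≤ K := by exact_mod_cast hK32
  have hCn' : (C : ℝ) ≤ ε / 4 * Fintype.card V := by
    have h1 : 4 * (C : ℝ) ≤ 8 * K * C := by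
      have := mul_le_mul_of_nonneg_right hK1' hC0
      linarith
    linarith
  obtain ⟨l, U, hl, hU0, hvor, hUm, hUM⟩ := hVor V E hE.1 hnn1 hdeg
  have hsub1 : ∀ i, 1 ≤ i → i ≤ l → U i ⊆ U 1 := by
    intro i hi
    induction i, hi using Nat.le_induction with
    | base => intro _; exact Finset.Subset.refl _
    | succ i hi ih => intro hil; exact ((hvor i (by omega)).1).trans (ih (by omega))
  obtain ⟨h01, h02, h03, h04⟩ := hvor 0 (by omega)
  rw [hU0, Finset.card_univ] at h02 h03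
  have h02' : (Fintype.card V : ℝ) ≤ 2 * K * (U 1).card := by exact_mod_cast h02
  have h03' : (K : ℝ) * (U 1).card ≤ 2 * Fintype.card V := by exact_mod_cast h03
  have hU1 : ((U 1).card : ℝ) ≤ 2 * ε * Fintype.card V := by
    have h1 : (1 : ℝ) * (U 1).card ≤ ε * K * (U 1).card :=
      mul_le_mul_of_nonneg_right hKε (Nat.cast_nonneg _)
    have h2 : ε * (K * (U 1).card) ≤ ε * (2 * Fintype.card V) :=
      mul_le_mul_of_nonneg_left h03' hε.le
    linarith
  have hCU : (C : ℝ) ≤ ε / 4 * (U 1).card := by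
    have h1 : ε * (Fintype.card V : ℝ) ≤ ε * (2 * K * (U 1).card) :=
      mul_le_mul_of_nonneg_left h02' hε.le
    have h2 : 8 * K * (C : ℝ) ≤ 2 * K * (ε * (U 1).card) := by linarith
    have h3 : 2 * K * (4 * (C : ℝ)) ≤ 2 * K * (ε * (U 1).card) := by linarith
    have h4 : 4 * (C : ℝ) ≤ ε * (U 1).card := le_of_mul_le_mul_left h3 (by positivity)
    linarith
  -- the absorber
  obtain ⟨A, hAE, hAdec, hAcard, hAF, hAabs⟩ := hC V E (U l) (U 1) hE.1 hUM (hsub1 l hl le_rfl)
    (fun S hS => by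
      have h1 := card_cnbr hdeg S (U 1) hS
      have h2 : (C : ℝ) ≤ ((cnbr E S (U 1)).card : ℝ) := by linarith
      exact_mod_cast h2)
  have hdegA : ∀ v, (deg A v : ℝ) ≤ C := fun v => by
    exact_mod_cast (deg_le_card A v).trans hAcard
  have hH : Divis (E \ A) := hE.sdiff hAdec.divis hAE
  obtain ⟨D, hDH, hDdec, hDU⟩ := hm V E (E \ A) l U hl
    (by rw [show 2 * (ε / 4) = ε / 2 by ring]; exact hvor) hH.1
    (by
      intro e _
      rw [hU0, Finset.mem_sym2_iff]
      exact fun v _ => Finset.mem_univ v) hUm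
    (fun e he => by
      rw [Finset.mem_sdiff]
      refine ⟨fun h => h.1, fun h => ⟨h, fun hA' => ?_⟩⟩
      obtain ⟨v, hv, hvF⟩ := hAF e hA'
      exact hvF (Finset.mem_sym2_iff.1 he v hv))
    (fun v _ => by
      rw [hU0, Finset.card_univ]
      have h1 : (deg E v : ℝ) ≤ deg (E \ A) v + deg A v := by
        exact_mod_cast deg_le_sdiff_add E A v
      have h2 := hdegA v
      have h3 := hdeg v
      linarith)
    (fun v _ => by
      have h1 : (degIn E (U 1) v : ℝ) ≤ degIn (E \ A) (U 1) v + deg A v := by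
        exact_mod_cast degIn_le_sdiff_add E A (U 1) v
      have h2 := hdegA v
      have h3 := h04 v (by rw [hU0]; exact Finset.mem_univ v)
      have h4 : U (0 + 1) = U 1 := rfl
      rw [h4] at h3
      linarith)
    (fun v _ => hH.2.1 v)
  have hL : Divis ((E \ A) \ D) := hH.sdiff hDdec.divis hDH
  have hAL := hAabs ((E \ A) \ D) hDU hL
  have hfin : E = D ∪ (A ∪ ((E \ A) \ D)) := by
    ext x
    have h1 := @hDH x
    have h2 := @hAE x
    rw [Finset.mem_sdiff] at h1
    rw [Finset.mem_union, Finset.mem_union, Finset.mem_sdiff, Finset.mem_sdiff]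
    tauto
  rw [hfin]
  refine hDdec.union hAL ?_
  rw [Finset.disjoint_union_right]
  refine ⟨?_, Finset.disjoint_sdiff⟩
  rw [Finset.disjoint_left]
  intro x hx hxA
  exact (Finset.mem_sdiff.1 (hDH hx)).2 hxA

/-- the final theorem for simple graphs -/
theorem MainStatement.simpleGraph (h : MainStatement) (ε : ℝ) (hε : 0 < ε) :
    ∃ n0 : ℕ, ∀ (V : Type) [Fintype V] [DecidableEq V] (G : SimpleGraph V) [DecidableRel G.Adj],
      n0 ≤ Fintype.card V → (∀ v, Even (G.degree v)) → 3 ∣ G.edgeFinset.card →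
      (∀ v, (3 / 4 + ε) * (Fintype.card V : ℝ) ≤ (G.degree v : ℝ)) →
      ∃ 𝒯 : Finset (Finset V), (∀ t ∈ 𝒯, G.IsNClique 3 t) ∧
        ∀ u v : V, G.Adj u v → ∃! t, t ∈ 𝒯 ∧ u ∈ t ∧ v ∈ t := by
  obtain ⟨n0, hn0⟩ := h ε hε
  refine ⟨n0, ?_⟩
  intro V _ _ G _ hn heven hdvd hdeg
  refine Dec.toSimpleGraph G (hn0 V G.edgeFinset ⟨?_, ?_, hdvd⟩ hn ?_)
  · intro e he
    exact G.not_isDiag_of_mem_edgeSet (SimpleGraph.mem_edgeFinset.1 he)
  · intro v
    rw [deg_edgeFinset]
    exact heven v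
  · intro v
    rw [deg_edgeFinset]
    exact hdeg v

end NW
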