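import Pool.Agent.NW.AbsB

/-!
# Absorbers: one absorber for all divisible graphs on a small set
-/

set_option linter.unusedSectionVars false

namespace NW

open Finset

namespace Ab

variable {V : Type} [DecidableEq V]

theorem St.octs {E : Finset (Sym2 V)} {W B S₀ : Finset V} {q : ℕ} {b : Multiset (Sym2 V)}
    (hR : Rich E B q) (hWB : W ⊆ B) (hWS : W ⊆ S₀) (l : List (V × V × V)) :
    ∀ (k : ℕ) (a : Multiset (Sym2 V)), (∀ t ∈ l, Tr W t) → k + 3 * l.length ≤ q →
      St E W B S₀ k a b → St E W B S₀ (k + 3 * l.length) (tsum l + a) b := by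
  induction l with
  | nil =>
    intro k a _ _ h
    rw [tsum_nil, zero_add]
    exact h
  | cons t l ih =>
    intro k a hl hk h
    rw [List.length_cons] at hk ⊢
    obtain ⟨t1, t2, t3, t4, t5, t6⟩ := hl t (List.mem_cons_self ..)
    have h1 := h.oct hR (by omega) hWB hWS t1 t2 t3 t4 t5 t6
    have h2 := ih (k + 3) _ (fun t ht => hl t (List.mem_cons_of_mem _ ht)) (by omega) h1
    have e : tsum (t :: l) + a = tsum l + (trim t.1 t.2.1 t.2.2 + a) := by
      rw [tsum_cons]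
      abel
    rw [e]
    exact h2.mono (by omega)

theorem St.cancels {E : Finset (Sym2 V)} {W B S₀ : Finset V} {q : ℕ} {a b : Multiset (Sym2 V)}
    (hR : Rich E B q) (hWB : W ⊆ B) (hWS : W ⊆ S₀)
    (ha : ∀ e ∈ a, ∀ v ∈ e, v ∈ W) (hb : ∀ e ∈ b, ∀ v ∈ e, v ∈ W) (s : Multiset (Sym2 V)) :
    ∀ k, (∀ e ∈ s, ¬ e.IsDiag ∧ ∀ v ∈ e, v ∈ W) → k + 2 * s.card ≤ q →
      St E W B S₀ k (s + a) (s + b) → St E W B S₀ (k + 2 * s.card) a b := by
  induction s using Multiset.induction_on with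
  | empty =>
    intro k _ _ h
    rw [zero_add, zero_add] at h
    exact h
  | cons e s ih =>
    intro k hs hk h
    rw [Multiset.card_cons] at hk ⊢
    have hs' : ∀ e ∈ s, ¬ e.IsDiag ∧ ∀ v ∈ e, v ∈ W := fun e he =>
      hs e (Multiset.mem_cons_of_mem he)
    obtain ⟨h1, h2⟩ := hs e (Multiset.mem_cons_self _ _)
    induction e with
    | _ x y =>
      rw [Sym2.mk_isDiag_iff] at h1
      rw [Multiset.cons_add, Multiset.cons_add] at h
      have supp : ∀ c : Multiset (Sym2 V), (∀ e ∈ c, ∀ v ∈ e, v ∈ W) →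
          ∀ e ∈ s + c, ∀ v ∈ e, v ∈ W := by
        intro c hc e he
        rcases Multiset.mem_add.1 he with he | he
        · exact (hs' e he).2
        · exact hc e he
      have h3 := h.cancel hR (by omega) hWB hWS (supp a ha) (supp b hb)
        (h2 x (Sym2.mem_mk_left _ _)) (h2 y (Sym2.mem_mk_right _ _)) h1
      exact (ih (k + 2) hs' (by omega) h3).mono (by omega)

theorem tsum_card (l : List (V × V × V)) : (tsum l).card = 3 * l.length := by
  induction l with
  | nil => rfl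
  | cons t l ih =>
    rw [tsum_cons, Multiset.card_add, ih, List.length_cons]
    unfold trim
    rw [Multiset.card_add, Multiset.card_add, Multiset.card_singleton, Multiset.card_singleton,
      Multiset.card_singleton]
    ring

theorem tsum_mem {W : Finset V} {l : List (V × V × V)} (hl : ∀ t ∈ l, Tr W t) :
    ∀ e ∈ tsum l, ¬ e.IsDiag ∧ ∀ v ∈ e, v ∈ W := by
  induction l with
  | nil =>
    intro e he
    exact absurd he (Multiset.notMem_zero e)
  | cons t l ih =>
    intro e he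
    rw [tsum_cons] at he
    rcases Multiset.mem_add.1 he with he | he
    · obtain ⟨t1, t2, t3, t4, t5, t6⟩ := hl t (List.mem_cons_self ..)
      simp only [trim, Multiset.mem_add, Multiset.mem_singleton] at he
      rcases he with (rfl | rfl) | rfl
      · refine ⟨by rwa [Sym2.mk_isDiag_iff], fun v hv => ?_⟩
        rcases Sym2.mem_iff.1 hv with rfl | rfl <;> assumption
      · refine ⟨by rwa [Sym2.mk_isDiag_iff], fun v hv => ?_⟩
        rcases Sym2.mem_iff.1 hv with rfl | rfl <;> assumption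
      · refine ⟨by rwa [Sym2.mk_isDiag_iff], fun v hv => ?_⟩
        rcases Sym2.mem_iff.1 hv with rfl | rfl <;> assumption
    · exact ih (fun t ht => hl t (List.mem_cons_of_mem _ ht)) e he

theorem Good.dec {E : Finset (Sym2 V)} {B S W : Finset V} {N : Multiset (Sym2 V)}
    (h : Good E B S N) {D : Finset (Sym2 V)} (hWB : W ⊆ B) (hD : ∀ e ∈ D, ∀ v ∈ e, v ∈ W)
    (hm : MDec W (N + D.val)) : Dec ((⟨N, h.nd⟩ : Finset (Sym2 V)) ∪ D) := by
  have hd : Disjoint (⟨N, h.nd⟩ : Finset (Sym2 V)) D := by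
    rw [Finset.disjoint_left]
    intro e he he'
    obtain ⟨v, hv, hvB⟩ := h.new e he
    exact hvB (hWB (hD e he' v hv))
  apply hm.dec
  rw [← Finset.disjUnion_eq_union _ _ hd, Finset.disjUnion_val]

variable [Fintype V]

/-- an absorber for one divisible graph -/
theorem one {E : Finset (Sym2 V)} {W B S₀ U : Finset V} {q : ℕ} (hR : Rich E B q)
    (hWB : W ⊆ B) (hWS : W ⊆ S₀) {D : Finset (Sym2 V)} (hU : U ⊆ W) (hD : D ⊆ U.sym2)
    (hsg : Sg W (16 * D.card) (∑ d ∈ D, dl d)) (hq : S₀.card + 144 * D.card ≤ q) :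
    ∃ (A : Finset (Sym2 V)) (S : Finset V), S₀ ⊆ S ∧ S.card ≤ S₀.card + 144 * D.card ∧ A ⊆ E ∧
      (∀ e ∈ A, ∃ v ∈ e, v ∉ B) ∧ (∀ e ∈ A, ∀ v ∈ e, v ∈ S) ∧ Dec A ∧ Dec (A ∪ D) := by
  obtain ⟨p, m, h1, h2, h3, h4⟩ := ms_divis hsg
  have s1 := St.octs hR hWB hWS p _ _ h2 (by omega) (St.start E W B S₀)
  have s2 := St.octs hR hWB hWS m _ _ h3 (by omega) s1.symm
  have s3 := s2.symm
  have e : tsum p + 0 = tsum m + D.val := by rw [add_zero, h4]
  rw [e] at s3
  have hDW : ∀ e ∈ D, ∀ v ∈ e, v ∈ W := fun e he v hv =>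
    hU (Finset.mem_sym2_iff.1 (hD he) v hv)
  have s4 := St.cancels hR hWB hWS (a := D.val) (b := 0) hDW
    (fun e he => absurd he (Multiset.notMem_zero e)) (tsum m) _ (tsum_mem h3) (by
      rw [tsum_card]
      omega) s3
  rw [tsum_card] at s4
  obtain ⟨S, N, k1, k2, k3, k4, k5⟩ := s4
  refine ⟨⟨N, k3.nd⟩, S, k1, by omega, fun e he => k3.sub e he, fun e he => k3.new e he,
    fun e he => k3.supp e he, ?_, k3.dec hWB hDW k4⟩
  apply k5.dec
  rw [add_zero]

/-- a common absorber for finitely many graphs -/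
theorem many {E : Finset (Sym2 V)} {W F U : Finset V} {q T : ℕ} (hR : Rich E (F ∪ W) q)
    (hU : U ⊆ W) (𝒟 : Finset (Finset (Sym2 V))) :
    (∀ D ∈ 𝒟, D ⊆ U.sym2 ∧ D.card ≤ T ∧ Sg W (16 * D.card) (∑ d ∈ D, dl d)) →
    ∀ S₀ : Finset V, W ⊆ S₀ → 2 * (S₀.card + 𝒟.card * (144 * T)) ≤ q →
    ∃ (A : Finset (Sym2 V)) (S : Finset V), S₀ ⊆ S ∧ S.card ≤ S₀.card + 𝒟.card * (144 * T) ∧
      A ⊆ E ∧ (∀ e ∈ A, ∃ v ∈ e, v ∉ F ∪ S₀) ∧ (∀ e ∈ A, ∀ v ∈ e, v ∈ S) ∧ Dec A ∧
      ∀ D ∈ 𝒟, Dec (A ∪ D) := by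
  induction 𝒟 using Finset.induction_on with
  | empty =>
    intro _ S₀ _ _
    refine ⟨∅, S₀, Finset.Subset.refl _, by simp, by simp, by simp, by simp, Dec.empty, by simp⟩
  | insert D 𝒟 hD𝒟 ih =>
    intro h S₀ hWS hq
    rw [Finset.card_insert_of_notMem hD𝒟, add_mul, one_mul] at hq ⊢
    obtain ⟨h1, h2, h3⟩ := h D (Finset.mem_insert_self _ _)
    -- the first absorber
    have hR' : Rich E (F ∪ S₀) (q - S₀.card) := by
      intro l S hl hS
      obtain ⟨w, w1, w2, w3⟩ := hR l (S ∪ S₀) hl (by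
        have := Finset.card_union_le S S₀
        omega)
      rw [Finset.mem_union, not_or] at w1 w2
      exact ⟨w, w1.1, by rw [Finset.mem_union, not_or]; exact ⟨w2.1, w1.2⟩, w3⟩
    obtain ⟨A₁, S₁, a1, a2, a3, a4, a5, a6, a7⟩ := one (q := q - S₀.card) hR'
      (hWS.trans Finset.subset_union_right) hWS hU h1 h3 (by
        have : 144 * D.card ≤ 144 * T := Nat.mul_le_mul_left _ h2
        omega)
    have h144 : 144 * D.card ≤ 144 * T := Nat.mul_le_mul_left _ h2
    obtain ⟨A₂, S₂, b1, b2, b3, b4, b5, b6, b7⟩ := ih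
      (fun D hD => h D (Finset.mem_insert_of_mem hD)) S₁ (hWS.trans a1) (by omega)
    have hd : Disjoint A₁ A₂ := by
      rw [Finset.disjoint_left]
      intro e he he'
      obtain ⟨v, hv, hv'⟩ := b4 e he'
      exact hv' (Finset.mem_union_right _ (a5 e he v hv))
    have hdD : ∀ D' ∈ insert D 𝒟, Disjoint D' A₁ ∧ Disjoint D' A₂ := by
      intro D' hD'
      have hD1 : ∀ e ∈ D', ∀ v ∈ e, v ∈ S₀ := fun e he v hv =>
        hWS (hU (Finset.mem_sym2_iff.1 ((h D' hD').1 he) v hv))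
      constructor
      · rw [Finset.disjoint_left]
        intro e he he'
        obtain ⟨v, hv, hv'⟩ := a4 e he'
        exact hv' (Finset.mem_union_right _ (hD1 e he v hv))
      · rw [Finset.disjoint_left]
        intro e he he'
        obtain ⟨v, hv, hv'⟩ := b4 e he'
        exact hv' (Finset.mem_union_right _ (a1 (hD1 e he v hv)))
    refine ⟨A₁ ∪ A₂, S₂, a1.trans b1, by omega, Finset.union_subset a3 b3, ?_, ?_,
      a6.union b6 hd, ?_⟩
    · intro e he
      rcases Finset.mem_union.1 he with he | he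
      · exact a4 e he
      · obtain ⟨v, hv, hv'⟩ := b4 e he
        refine ⟨v, hv, fun h => hv' ?_⟩
        rcases Finset.mem_union.1 h with h | h
        · exact Finset.mem_union_left _ h
        · exact Finset.mem_union_right _ (a1 h)
    · intro e he v hv
      rcases Finset.mem_union.1 he with he | he
      · exact b1 (a5 e he v hv)
      · exact b5 e he v hv
    · intro D' hD'
      obtain ⟨d1, d2⟩ := hdD D' hD'
      rcases Finset.mem_insert.1 hD' with rfl | hD'
      · have e : A₁ ∪ A₂ ∪ D' = (A₁ ∪ D') ∪ A₂ := by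
          rw [Finset.union_right_comm]
        rw [e]
        exact a7.union b6 (Finset.disjoint_union_left.2 ⟨hd, d2⟩)
      · rw [Finset.union_assoc]
        exact a6.union (b7 D' hD') (Finset.disjoint_union_right.2 ⟨hd, d1.symm⟩)

end Ab

open Ab

/-- **N5: absorbers.** -/
theorem absorber : AbsorberStatement := by
  intro m
  obtain ⟨M, hM⟩ : ∃ M, M = (m + 1) ^ 2 := ⟨_, rfl⟩
  obtain ⟨q, hq⟩ : ∃ q, q = 3 * (m + 5 + 2 ^ M * (144 * M)) := ⟨_, rfl⟩
  refine ⟨(q + 1) ^ 2, ?_⟩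
  intro V _ _ E U F hNL hUm hUF hC
  have hqC : q ≤ (q + 1) ^ 2 := by nlinarith
  have hR : Rich E F q := by
    intro l S hl hS
    have h1 := hC l.toFinset ((List.toFinset_card_le l).trans hl)
    have h2 : S.card < (cnbr E l.toFinset F).card := by omega
    obtain ⟨w, hw, hwS⟩ := Finset.exists_mem_notMem_of_card_lt_card h2
    unfold cnbr at hw
    rw [Finset.mem_filter] at hw
    refine ⟨w, hwS, hw.2.1, fun a ha => ?_⟩
    rw [Sym2.eq_swap]
    exact hw.2.2 a (List.mem_toFinset.2 ha)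
  -- five extra vertices
  have hq5 : 5 ≤ q := by omega
  obtain ⟨c, -, cF, -⟩ := hR [] ∅ (by simp) (by rw [Finset.card_empty]; omega)
  obtain ⟨r, r1, rF, -⟩ := hR [] {c} (by simp) (by rw [Finset.card_singleton]; omega)
  obtain ⟨y, y1, yF, -⟩ := hR [] {c, r} (by simp) (lt_of_le_of_lt (Finset.card_le_two) (by omega))
  obtain ⟨z, z1, zF, -⟩ := hR [] {c, r, y} (by simp)
    (lt_of_le_of_lt (Finset.card_le_three) (by omega))
  obtain ⟨s, s1, sF, -⟩ := hR [] {c, r, y, z} (by simp)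
    (lt_of_le_of_lt (Finset.card_le_four) (by omega))
  simp only [Finset.mem_insert, Finset.mem_singleton, not_or] at r1 y1 z1 s1
  obtain ⟨W, hW⟩ : ∃ W : Finset V, W = {c, r, y, z, s} ∪ U := ⟨_, rfl⟩
  have hUW : U ⊆ W := hW ▸ Finset.subset_union_right
  have hWc : W.card ≤ m + 5 := by
    rw [hW]
    have h1 := Finset.card_union_le {c, r, y, z, s} U
    have h2 : ({c, r, y, z, s} : Finset V).card ≤ 5 := Finset.card_le_five
    omega
  have hcW : c ∈ W := by rw [hW]; simp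
  have hrW : r ∈ W := by rw [hW]; simp
  have hyW : y ∈ W := by rw [hW]; simp
  have hzW : z ∈ W := by rw [hW]; simp
  have hsW : s ∈ W := by rw [hW]; simp
  have hcard : U.sym2.card ≤ M := by
    rw [Finset.card_sym2, Nat.choose_two_right, hM]
    have h1 : (U.card + 1) * (U.card + 1 - 1) ≤ (m + 1) * (m + 1) :=
      Nat.mul_le_mul (by omega) (by omega)
    have h2 : (U.card + 1) * (U.card + 1 - 1) / 2 ≤ (U.card + 1) * (U.card + 1 - 1) :=
      Nat.div_le_self _ _
    calc _ ≤ _ := h2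
      _ ≤ (m + 1) * (m + 1) := h1
      _ = (m + 1) ^ 2 := by ring
  classical
  obtain ⟨𝒟, h𝒟⟩ : ∃ 𝒟, 𝒟 = U.sym2.powerset.filter fun D => Divis D := ⟨_, rfl⟩
  have h𝒟c : 𝒟.card ≤ 2 ^ M := by
    rw [h𝒟]
    refine (Finset.card_filter_le _ _).trans ?_
    rw [Finset.card_powerset]
    exact Nat.pow_le_pow_right (by norm_num) hcard
  have hR' : Rich E (F ∪ W) (q - W.card) := by
    intro l S hl hS
    obtain ⟨w, w1, w2, w3⟩ := hR l (S ∪ W) hl (by
      have := Finset.card_union_le S W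
      omega)
    rw [Finset.mem_union, not_or] at w1
    exact ⟨w, w1.1, by rw [Finset.mem_union, not_or]; exact ⟨w2, w1.2⟩, w3⟩
  have hmul : 𝒟.card * (144 * M) ≤ 2 ^ M * (144 * M) := Nat.mul_le_mul_right _ h𝒟c
  have cU : c ∉ U := fun h => cF (hUF h)
  have yU : y ∉ U := fun h => yF (hUF h)
  have zU : z ∉ U := fun h => zF (hUF h)
  obtain ⟨A, S, a1, a2, a3, a4, a5, a6, a7⟩ := many (U := U) (T := M) hR' hUW 𝒟 (by
    intro D hD
    rw [h𝒟, Finset.mem_filter, Finset.mem_powerset] at hD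
    refine ⟨hD.1, (Finset.card_le_card hD.1).trans hcard, ?_⟩
    exact sg_divis hUW hD.1 hD.2 hcW hrW hyW hzW hsW cU yU zU (Ne.symm r1)
      (Ne.symm y1.1) (Ne.symm z1.1) (Ne.symm s1.1) (Ne.symm y1.2) (Ne.symm z1.2.1)
      (Ne.symm s1.2.1) (Ne.symm z1.2.2) (Ne.symm s1.2.2.1) (Ne.symm s1.2.2.2)) W
    (Finset.Subset.refl _) (by omega)
  refine ⟨A, a3, a6, ?_, ?_, ?_⟩
  · have h1 : A ⊆ S.sym2 := fun e he => Finset.mem_sym2_iff.2 (a5 e he)
    have h2 := Finset.card_le_card h1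
    rw [Finset.card_sym2, Nat.choose_two_right] at h2
    have h3 : S.card ≤ q := by omega
    have h4 : (S.card + 1) * (S.card + 1 - 1) / 2 ≤ (S.card + 1) * (S.card + 1 - 1) :=
      Nat.div_le_self _ _
    have h5 : (S.card + 1) * (S.card + 1 - 1) ≤ (q + 1) * (q + 1) :=
      Nat.mul_le_mul (by omega) (by omega)
    calc A.card ≤ _ := h2
      _ ≤ _ := h4
      _ ≤ (q + 1) * (q + 1) := h5
      _ = (q + 1) ^ 2 := by ring
  · intro e he
    obtain ⟨v, hv, hv'⟩ := a4 e he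
    exact ⟨v, hv, fun h => hv' (Finset.mem_union_left _ h)⟩
  · intro D hD hdiv
    apply a7 D
    rw [h𝒟, Finset.mem_filter, Finset.mem_powerset]
    exact ⟨hD, hdiv⟩

end NW
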