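import Pool.Agent.NW.AbsA

/-!
# Absorbers, part B: signed sums of triangles
-/

set_option linter.unusedSectionVars false

namespace NW

open Finset

namespace Ab

variable {V : Type} [DecidableEq V]

/-- a triangle inside `W` -/
def Tr (W : Finset V) (t : V × V × V) : Prop :=
  t.1 ∈ W ∧ t.2.1 ∈ W ∧ t.2.2 ∈ W ∧ t.1 ≠ t.2.1 ∧ t.2.1 ≠ t.2.2 ∧ t.1 ≠ t.2.2

/-- the sum of the triangles of a list -/
def tsum (l : List (V × V × V)) : Multiset (Sym2 V) := (l.map fun t => trim t.1 t.2.1 t.2.2).sum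

theorem tsum_append (l l' : List (V × V × V)) : tsum (l ++ l') = tsum l + tsum l' := by
  unfold tsum
  rw [List.map_append, List.sum_append]

theorem tsum_nil : tsum ([] : List (V × V × V)) = 0 := rfl

theorem tsum_cons (t : V × V × V) (l : List (V × V × V)) :
    tsum (t :: l) = trim t.1 t.2.1 t.2.2 + tsum l := by
  unfold tsum
  rw [List.map_cons, List.sum_cons]

/-- the indicator of a pair -/
def dl (e : Sym2 V) : Sym2 V → ℤ := fun e' => if e' = e then 1 else 0

/-- signed sums of at most `k` triangles of `W` -/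
def Sg (W : Finset V) (k : ℕ) (f : Sym2 V → ℤ) : Prop :=
  ∃ p m : List (V × V × V), p.length + m.length ≤ k ∧ (∀ t ∈ p, Tr W t) ∧ (∀ t ∈ m, Tr W t) ∧
    ∀ e, f e = ((tsum p).count e : ℤ) - ((tsum m).count e : ℤ)

variable {W : Finset V}

theorem Sg.zero : Sg W 0 0 := by
  refine ⟨[], [], by simp, by simp, by simp, fun e => ?_⟩
  simp [tsum_nil]

theorem Sg.mono {k k' : ℕ} {f : Sym2 V → ℤ} (h : Sg W k f) (hk : k ≤ k') : Sg W k' f := by
  obtain ⟨p, m, h1, h2⟩ := h
  exact ⟨p, m, h1.trans hk, h2⟩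

theorem Sg.add {k l : ℕ} {f g : Sym2 V → ℤ} (hf : Sg W k f) (hg : Sg W l g) :
    Sg W (k + l) (f + g) := by
  obtain ⟨p, m, h1, h2, h3, h4⟩ := hf
  obtain ⟨p', m', k1, k2, k3, k4⟩ := hg
  refine ⟨p ++ p', m ++ m', ?_, ?_, ?_, fun e => ?_⟩
  · rw [List.length_append, List.length_append]
    omega
  · intro t ht
    rcases List.mem_append.1 ht with h | h
    · exact h2 t h
    · exact k2 t h
  · intro t ht
    rcases List.mem_append.1 ht with h | h
    · exact h3 t h
    · exact k3 t h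
  · rw [Pi.add_apply, h4, k4, tsum_append, tsum_append, Multiset.count_add, Multiset.count_add]
    push_cast
    ring

theorem Sg.neg {k : ℕ} {f : Sym2 V → ℤ} (hf : Sg W k f) : Sg W k (-f) := by
  obtain ⟨p, m, h1, h2, h3, h4⟩ := hf
  refine ⟨m, p, by omega, h3, h2, fun e => ?_⟩
  rw [Pi.neg_apply, h4]
  ring

theorem Sg.sub {k l : ℕ} {f g : Sym2 V → ℤ} (hf : Sg W k f) (hg : Sg W l g) :
    Sg W (k + l) (f - g) := by
  rw [sub_eq_add_neg]
  exact hf.add hg.neg

theorem Sg.sum {ι : Type*} (s : Finset ι) (k : ι → ℕ) (f : ι → Sym2 V → ℤ)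
    (h : ∀ i ∈ s, Sg W (k i) (f i)) : Sg W (∑ i ∈ s, k i) (∑ i ∈ s, f i) := by
  classical
  induction s using Finset.induction_on with
  | empty =>
    rw [Finset.sum_empty, Finset.sum_empty]
    exact Sg.zero
  | insert a s ha ih =>
    rw [Finset.sum_insert ha, Finset.sum_insert ha]
    exact (h a (Finset.mem_insert_self _ _)).add
      (ih fun i hi => h i (Finset.mem_insert_of_mem hi))

theorem Sg.nsmul {k : ℕ} {f : Sym2 V → ℤ} (hf : Sg W k f) (n : ℕ) : Sg W (n * k) (n • f) := by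
  induction n with
  | zero =>
    rw [zero_mul, zero_smul]
    exact Sg.zero
  | succ n ih =>
    rw [add_mul, one_mul, succ_nsmul]
    exact ih.add hf

theorem Sg.tri {a b c : V} (ha : a ∈ W) (hb : b ∈ W) (hc : c ∈ W) (hab : a ≠ b) (hbc : b ≠ c)
    (hac : a ≠ c) : Sg W 1 (dl s(a, b) + dl s(b, c) + dl s(a, c)) := by
  refine ⟨[(a, b, c)], [], by simp, ?_, by simp, fun e => ?_⟩
  · intro t ht
    rw [List.mem_singleton] at ht
    subst ht
    exact ⟨ha, hb, hc, hab, hbc, hac⟩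
  · rw [tsum_cons, tsum_nil]
    simp only [trim, Pi.add_apply, dl, add_zero, Multiset.count_add, Multiset.count_singleton,
      Multiset.count_zero]
    push_cast
    ring

/-- twice the pair `c x` -/
def th (c x : V) : Sym2 V → ℤ := dl s(c, x) + dl s(c, x)

theorem sgA {c x y z : V} (hc : c ∈ W) (hx : x ∈ W) (hy : y ∈ W) (hz : z ∈ W) (hcx : c ≠ x)
    (hcy : c ≠ y) (hcz : c ≠ z) (hxy : x ≠ y) (hyz : y ≠ z) (hxz : x ≠ z) :
    Sg W 4 (th c x + th c y + th c z) := by
  have h1 := Sg.tri hc hx hy hcx hxy hcy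
  have h2 := Sg.tri hc hy hz hcy hyz hcz
  have h3 := Sg.tri hc hx hz hcx hxz hcz
  have h4 := Sg.tri hx hy hz hxy hyz hxz
  have h := ((h1.add h2).add h3).sub h4
  have e : th c x + th c y + th c z = dl s(c, x) + dl s(x, y) + dl s(c, y) +
      (dl s(c, y) + dl s(y, z) + dl s(c, z)) + (dl s(c, x) + dl s(x, z) + dl s(c, z)) -
      (dl s(x, y) + dl s(y, z) + dl s(x, z)) := by
    unfold th
    abel
  rw [e]
  exact h

theorem sgB {c x r y z : V} (hc : c ∈ W) (hx : x ∈ W) (hr : r ∈ W) (hy : y ∈ W) (hz : z ∈ W)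
    (hcx : c ≠ x) (hcr : c ≠ r) (hcy : c ≠ y) (hcz : c ≠ z) (hxy : x ≠ y) (hyz : y ≠ z)
    (hxz : x ≠ z) (hry : r ≠ y) (hrz : r ≠ z) : Sg W 8 (th c x - th c r) := by
  have h := (sgA hc hx hy hz hcx hcy hcz hxy hyz hxz).sub
    (sgA hc hr hy hz hcr hcy hcz hry hyz hrz)
  have e : th c x - th c r = th c x + th c y + th c z - (th c r + th c y + th c z) := by
    abel
  rw [e]
  exact h

theorem sgC {c r y z s : V} (hc : c ∈ W) (hr : r ∈ W) (hy : y ∈ W) (hz : z ∈ W) (hs : s ∈ W)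
    (hcr : c ≠ r) (hcy : c ≠ y) (hcz : c ≠ z) (hcs : c ≠ s) (hry : r ≠ y) (hrz : r ≠ z)
    (hrs : r ≠ s) (hyz : y ≠ z) (hys : y ≠ s) (hzs : z ≠ s) :
    Sg W 20 (th c r + th c r + th c r) := by
  have h1 := sgA hc hr hy hz hcr hcy hcz hry hyz hrz
  have h2 := sgB hc hr hy hz hs hcr hcy hcz hcs hrz hzs hrs hyz hys
  have h3 := sgB hc hr hz hy hs hcr hcz hcy hcs hry hys hrs hyz.symm hzs
  have h := (h1.add h2).add h3
  have e : th c r + th c r + th c r = th c r + th c y + th c z + (th c r - th c y) +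
      (th c r - th c z) := by
    abel
  rw [e]
  exact h

variable [Fintype V]

theorem card_inc (D : Finset (Sym2 V)) (x : V) : (D.filter fun d => x ∈ d).card = deg D x := by
  unfold deg
  symm
  refine Finset.card_bij (fun u _ => s(x, u)) ?_ ?_ ?_
  · intro u hu
    rw [Finset.mem_filter]
    exact ⟨mem_nbr.1 hu, Sym2.mem_mk_left _ _⟩
  · intro a _ b _ h
    rw [Sym2.eq_iff] at h
    rcases h with h | h
    · exact h.2
    · exact h.2.trans h.1
  · intro d hd
    rw [Finset.mem_filter] at hd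
    obtain ⟨u, rfl⟩ := Sym2.mem_iff_exists.1 hd.2
    exact ⟨u, mem_nbr.2 hd.1, rfl⟩

theorem filter_pair {U : Finset V} {a b : V} (ha : a ∈ U) (hb : b ∈ U) :
    U.filter (fun x => x ∈ s(a, b)) = {a, b} := by
  ext x
  rw [Finset.mem_filter, Sym2.mem_iff, Finset.mem_insert, Finset.mem_singleton]
  constructor
  · exact fun h => h.2
  · rintro (rfl | rfl)
    · exact ⟨ha, Or.inl rfl⟩
    · exact ⟨hb, Or.inr rfl⟩

theorem handshake {D : Finset (Sym2 V)} {U : Finset V} (hD : D ⊆ U.sym2) (hNL : NL D) :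
    ∑ x ∈ U, deg D x = 2 * D.card := by
  have h1 : ∑ x ∈ U, deg D x = ∑ x ∈ U, ∑ d ∈ D, if x ∈ d then 1 else 0 := by
    refine Finset.sum_congr rfl fun x _ => ?_
    rw [← card_inc, Finset.card_filter]
  rw [h1, Finset.sum_comm]
  have h2 : ∀ d ∈ D, (∑ x ∈ U, if x ∈ d then 1 else 0) = 2 := by
    intro d hd
    rw [← Finset.card_filter]
    induction d with
    | _ a b =>
      have h3 := Finset.mem_sym2_iff.1 (hD hd)
      have h4 := hNL _ hd
      rw [Sym2.mk_isDiag_iff] at h4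
      rw [filter_pair (h3 a (Sym2.mem_mk_left _ _)) (h3 b (Sym2.mem_mk_right _ _)),
        Finset.card_pair h4]
  rw [Finset.sum_congr rfl h2, Finset.sum_const, smul_eq_mul, mul_comm]

/-- **The algebra**: a divisible graph is a signed sum of few triangles. -/
theorem sg_divis {D : Finset (Sym2 V)} {U : Finset V} (hU : U ⊆ W) (hD : D ⊆ U.sym2)
    (hdiv : Divis D) {c r y z s : V} (hc : c ∈ W) (hr : r ∈ W) (hy : y ∈ W) (hz : z ∈ W)
    (hs : s ∈ W) (cU : c ∉ U) (yU : y ∉ U) (zU : z ∉ U)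
    (hcr : c ≠ r) (hcy : c ≠ y) (hcz : c ≠ z) (hcs : c ≠ s) (hry : r ≠ y) (hrz : r ≠ z)
    (hrs : r ≠ s) (hyz : y ≠ z) (hys : y ≠ s) (hzs : z ≠ s) :
    Sg W (16 * D.card) (∑ d ∈ D, dl d) := by
  obtain ⟨hNL, hev, ⟨j, hj⟩⟩ := hdiv
  -- every edge together with its two spokes is a triangle
  have h1 : ∀ d ∈ D, Sg W 1 (dl d + ∑ x ∈ U, if x ∈ d then dl s(c, x) else 0) := by
    intro d hd
    induction d with
    | _ a b =>
      have h3 := Finset.mem_sym2_iff.1 (hD hd)
      have h4 := hNL _ hd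
      rw [Sym2.mk_isDiag_iff] at h4
      have haU := h3 a (Sym2.mem_mk_left _ _)
      have hbU := h3 b (Sym2.mem_mk_right _ _)
      rw [← Finset.sum_filter, filter_pair haU hbU, Finset.sum_pair h4]
      have h5 := Sg.tri hc (hU haU) (hU hbU) (fun e => cU (e ▸ haU)) h4 (fun e => cU (e ▸ hbU))
      have e : dl s(a, b) + (dl s(c, a) + dl s(c, b)) = dl s(c, a) + dl s(a, b) + dl s(c, b) := by
        abel
      rw [e]
      exact h5
  have h2 := Sg.sum D (fun _ => 1) _ h1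
  rw [Finset.sum_const, smul_eq_mul, mul_one, Finset.sum_add_distrib, Finset.sum_comm] at h2
  have h3 : ∀ x ∈ U, (∑ d ∈ D, if x ∈ d then dl s(c, x) else 0) = (deg D x / 2) • th c x := by
    intro x _
    rw [← Finset.sum_filter, Finset.sum_const, card_inc]
    obtain ⟨h, hh⟩ := hev x
    rw [hh, show (h + h) / 2 = h by omega, add_smul]
    unfold th
    rw [smul_add]
  rw [Finset.sum_congr rfl h3] at h2
  -- replace all spokes by one
  have h4 : ∀ x ∈ U, Sg W ((deg D x / 2) * 8) ((deg D x / 2) • (th c x - th c r)) := by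
    intro x hx
    by_cases hxr : x = r
    · rw [hxr, sub_self, smul_zero]
      exact Sg.zero.mono (Nat.zero_le _)
    · exact (sgB hc (hU hx) hr hy hz (fun e => cU (e ▸ hx)) hcr hcy hcz
        (fun e => yU (e ▸ hx)) hyz (fun e => zU (e ▸ hx)) hry hrz).nsmul _
  have h5 := Sg.sum U _ _ h4
  have h6 := (sgC hc hr hy hz hs hcr hcy hcz hcs hry hrz hrs hyz hys hzs).nsmul j
  have hsum : ∑ x ∈ U, deg D x / 2 = D.card := by
    have h7 := handshake hD hNL
    have h8 : ∑ x ∈ U, deg D x = 2 * ∑ x ∈ U, deg D x / 2 := by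
      rw [Finset.mul_sum]
      refine Finset.sum_congr rfl fun x _ => ?_
      obtain ⟨h, hh⟩ := hev x
      omega
    omega
  have h9 := (h2.sub h5).sub h6
  rw [← Finset.sum_mul, hsum] at h9
  have e : ∑ d ∈ D, dl d = ∑ d ∈ D, dl d + ∑ x ∈ U, (deg D x / 2) • th c x -
      ∑ x ∈ U, (deg D x / 2) • (th c x - th c r) - j • (th c r + th c r + th c r) := by
    have h10 : ∑ x ∈ U, (deg D x / 2) • (th c x - th c r) =
        ∑ x ∈ U, (deg D x / 2) • th c x - (3 * j) • th c r := by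
      rw [← hj, ← hsum, Finset.sum_smul, ← Finset.sum_sub_distrib]
      refine Finset.sum_congr rfl fun x _ => ?_
      rw [smul_sub]
    have h11 : j • (th c r + th c r + th c r) = (3 * j) • th c r := by
      rw [mul_comm, mul_smul]
      congr 1
      rw [show (3 : ℕ) = 1 + 1 + 1 from rfl, add_smul, add_smul, one_smul]
    rw [h10, h11]
    abel
  rw [e]
  refine h9.mono ?_
  omega

/-- the same as an identity of multisets -/
theorem ms_divis {D : Finset (Sym2 V)} {k : ℕ} (h : Sg W k (∑ d ∈ D, dl d)) :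
    ∃ p m : List (V × V × V), p.length + m.length ≤ k ∧ (∀ t ∈ p, Tr W t) ∧
      (∀ t ∈ m, Tr W t) ∧ tsum p = tsum m + D.val := by
  obtain ⟨p, m, h1, h2, h3, h4⟩ := h
  refine ⟨p, m, h1, h2, h3, ?_⟩
  rw [Multiset.ext]
  intro e
  have h5 := h4 e
  have h6 : (∑ d ∈ D, dl d) e = (D.val.count e : ℤ) := by
    rw [Finset.sum_apply]
    unfold dl
    rw [Finset.sum_ite_eq, Multiset.count_eq_of_nodup D.nodup]
    simp only [Finset.mem_val]
    split_ifs <;> simp
  rw [h6] at h5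
  rw [Multiset.count_add]
  omega

end Ab

end NW
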