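import Pool.Agent.NW.LinStep
import Pool.Agent.NW.NibbleOfLin

/-!
# Project NW, part N2: the derandomised single-triangle nibble (induction and constants)
-/

set_option linter.unusedSectionVars false

namespace NW

open Finset

section Run

variable {E : Type*} [DecidableEq E] {J : Type*} [Fintype J]
variable {C : Finset (Finset E)} {w : Finset E → ℝ} {H0 : Finset E}
variable {S : J → Finset E} {m : J → ℝ} {τ η g M lam θ : ℝ}

/-- the induction: after `t` steps -/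
theorem run (hC : ∀ T ∈ C, T.card = 3)
    (hlin : ∀ T ∈ C, ∀ T' ∈ C, T ≠ T' → (T ∩ T').card ≤ 1)
    (hw : ∀ T ∈ C, 0 ≤ w T ∧ w T ≤ τ) (hm : ∀ j, 0 < m j) (hm1 : ∀ j, 1 ≤ τ * m j)
    (hH : (H0.card : ℝ) = M) (hM : M * θ = 3) (hg : 0 < g) (hη : 0 < η)
    (hηg : 16 * η ≤ g ^ 20) (hθ : 0 < θ) (hθη : θ ≤ g * η / 2) (hτ0 : 0 ≤ τ)
    (hτη : τ ≤ 2 * η * g ^ 2)
    (hlam : 0 < lam) (hlam1 : lam * ((6 * θ + 3 * τ) / g ^ 2) ≤ 1)
    (hsmall : ∀ t : ℕ, (t : ℝ) * θ ≤ 1 →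
      (1 + lam ^ 2 * (2 * (6 * θ / g ^ 2) ^ 2 + 2 * (12 * τ * θ / g ^ 4))) ^ t *
        Pot C w S m lam H0 1 (bar η 1) < 1) :
    ∀ t : ℕ, g ≤ 1 - (t : ℝ) * θ → ∃ N ⊆ C,
      (∀ T ∈ N, ∀ T' ∈ N, T ≠ T' → Disjoint T T') ∧
      ((H0 \ N.biUnion id).card : ℝ) = (1 - (t : ℝ) * θ) * M ∧
      Pot C w S m lam (H0 \ N.biUnion id) (1 - (t : ℝ) * θ) (bar η (1 - (t : ℝ) * θ)) ≤
        (1 + lam ^ 2 * (2 * (6 * θ / g ^ 2) ^ 2 + 2 * (12 * τ * θ / g ^ 4))) ^ t *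
          Pot C w S m lam H0 1 (bar η 1) := by
  intro t
  induction t with
  | zero =>
    intro _
    refine ⟨∅, Finset.empty_subset _, by simp, ?_, ?_⟩
    · simp [hH]
    · simp
  | succ t ih =>
    intro hgt
    push_cast at hgt ⊢
    have hgt' : g ≤ 1 - (t : ℝ) * θ := by linarith
    obtain ⟨N, hNC, hNd, hNc, hNP⟩ := ih hgt'
    have hOK : StepOK g η (1 - (t : ℝ) * θ) θ τ :=
      ⟨hg, hη, hηg, hθ, by
        have : 0 ≤ (t : ℝ) * θ := by positivity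
        linarith, by linarith, hθη, hτ0, hτη⟩
    have hlt := hNP.trans_lt (hsmall t (by linarith))
    obtain ⟨T, hT, hTP⟩ := one_step hC hlin hw hm hm1 hNc hOK hM hlam hlam1 hlt
    obtain ⟨hTC, hTH⟩ := mem_alive.1 hT
    have hTH0 : T ⊆ H0 := hTH.trans Finset.sdiff_subset
    have hTN : ∀ T' ∈ N, Disjoint T T' := by
      intro T' hT'
      rw [Finset.disjoint_left]
      intro x hx hx'
      have := (Finset.mem_sdiff.1 (hTH hx)).2
      exact this (Finset.mem_biUnion.2 ⟨T', hT', hx'⟩)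
    have hset : H0 \ (insert T N).biUnion id = (H0 \ N.biUnion id) \ T := by
      ext x
      simp only [Finset.biUnion_insert, id, Finset.mem_sdiff, Finset.mem_union]
      tauto
    refine ⟨insert T N, Finset.insert_subset hTC hNC, ?_, ?_, ?_⟩
    · intro A hA B hB hAB
      rcases Finset.mem_insert.1 hA with hA | hA
      · rcases Finset.mem_insert.1 hB with hB | hB
        · exact absurd (hA.trans hB.symm) hAB
        · rw [hA]; exact hTN B hB
      · rcases Finset.mem_insert.1 hB with hB | hB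
        · rw [hB]; exact (hTN A hA).symm
        · exact hNd A hA B hB hAB
    · rw [hset, Finset.card_sdiff_of_subset hTH, Nat.cast_sub (Finset.card_le_card hTH), hNc,
        hC T hTC]
      push_cast
      linarith
    · rw [hset]
      have e1 : 1 - ((t : ℝ) + 1) * θ = 1 - (t : ℝ) * θ - θ := by ring
      rw [e1]
      refine hTP.trans ?_
      have hQ0 : 0 ≤ 1 + lam ^ 2 * (2 * (6 * θ / g ^ 2) ^ 2 + 2 * (12 * τ * θ / g ^ 4)) := by
        positivity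
      generalize 1 + lam ^ 2 * (2 * (6 * θ / g ^ 2) ^ 2 + 2 * (12 * τ * θ / g ^ 4)) = Q at *
      rw [pow_succ', mul_assoc]
      exact mul_le_mul_of_nonneg_left hNP hQ0

/-- the start -/
theorem Pot_start (hCH : ∀ T ∈ C, T ⊆ H0) (hη : 0 < η) (hlam : 0 < lam)
    (hs : ∀ e ∈ H0, 1 - η ≤ ∑ T ∈ C with e ∈ T, w T ∧ ∑ T ∈ C with e ∈ T, w T ≤ 1)
    (hm : ∀ j, 0 < m j) (hS : ∀ j, S j ⊆ H0 ∧ ((S j).card : ℝ) ≤ m j) :
    Pot C w S m lam H0 1 (bar η 1) ≤
      (2 * (H0.card : ℝ) + (Fintype.card J : ℝ)) * Real.exp (-(lam * η)) := by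
  have hal : alive C H0 = C := by
    unfold alive
    exact Finset.filter_true_of_mem hCH
  have hbar : bar η 1 = 2 * η := by unfold bar; norm_num
  have hsw : ∀ e, sw C w H0 e = ∑ T ∈ C with e ∈ T, w T := by
    intro e; unfold sw; rw [hal]
  unfold Pot
  rw [hbar]
  have h1 : ∑ e ∈ H0, Real.exp (lam * (sw C w H0 e / 1 ^ 2 - 1 - 2 * η)) ≤
      (H0.card : ℝ) * Real.exp (-(lam * η)) := by
    rw [← nsmul_eq_mul]
    refine Finset.sum_le_card_nsmul _ _ _ fun e he => ?_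
    rw [Real.exp_le_exp, hsw, one_pow, div_one]
    have := (hs e he).2
    nlinarith
  have h2 : ∑ e ∈ H0, Real.exp (lam * (1 - 2 * η - sw C w H0 e / 1 ^ 2)) ≤
      (H0.card : ℝ) * Real.exp (-(lam * η)) := by
    rw [← nsmul_eq_mul]
    refine Finset.sum_le_card_nsmul _ _ _ fun e he => ?_
    rw [Real.exp_le_exp, hsw, one_pow, div_one]
    have := (hs e he).1
    nlinarith
  have h3 : ∑ j, Real.exp (lam * (((S j ∩ H0).card : ℝ) / (1 * m j) - 1 - 2 * η)) ≤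
      (Fintype.card J : ℝ) * Real.exp (-(lam * η)) := by
    rw [← nsmul_eq_mul]
    refine Finset.sum_le_card_nsmul _ _ _ fun j _ => ?_
    rw [Real.exp_le_exp, one_mul, Finset.inter_eq_left.2 (hS j).1]
    have : ((S j).card : ℝ) / m j ≤ 1 := (div_le_one (hm j)).2 (hS j).2
    nlinarith
  linarith

end Run

/-- the constants -/
theorem consts {g η τ M n c : ℝ} (hg : 0 < g) (hg1 : g ≤ 1 / 2) (hη : 0 < η) (hη1 : η ≤ 1 / 16)
    (hM : 0 < M) (hn : 0 ≤ n) (hτM : 1 ≤ τ * M) (hcd : c = g ^ 4 * η ^ 2 / 7680)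
    (hτL : τ * (Real.log (2 + M + n)) ^ 2 ≤ c) :
    ∃ lam : ℝ, 0 < lam ∧ lam * η = 4 * Real.log (2 + M + n) ∧ 0 < τ ∧ 3 / M ≤ g * η / 2 ∧
      τ ≤ 2 * η * g ^ 2 ∧ lam * ((6 * (3 / M) + 3 * τ) / g ^ 2) ≤ 1 ∧
      lam ^ 2 * (2 * (6 * (3 / M) / g ^ 2) ^ 2 + 2 * (12 * τ * (3 / M) / g ^ 4)) ≤
        (3 / M) / 2 := by
  have hτ : 0 < τ := by
    by_contra hc
    push Not at hc
    have := mul_nonneg_of_nonpos_of_nonpos hc (neg_nonpos.2 hM.le)
    linarith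
  obtain ⟨L, hLd⟩ : ∃ L, L = Real.log (2 + M + n) := ⟨_, rfl⟩
  rw [← hLd] at hτL ⊢
  have hL2 : Real.log 2 ≤ L := by
    rw [hLd]; exact Real.log_le_log (by norm_num) (by linarith)
  have hL : 1 / 2 ≤ L := by
    have := Real.log_two_gt_d9
    linarith
  have hL0 : 0 < L := by linarith
  have hc0 : 0 < c := by rw [hcd]; positivity
  have hτL1 : τ * L ≤ 2 * c := by
    have h1 : 0 ≤ τ * L * (L - 1 / 2) := mul_nonneg (mul_nonneg hτ.le hL0.le) (by linarith)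
    have h2 : τ * L * (L - 1 / 2) = τ * L ^ 2 - 1 / 2 * (τ * L) := by ring
    linarith
  have hτ1 : τ ≤ 4 * c := by
    have h1 : 0 ≤ τ * (L - 1 / 2) := mul_nonneg hτ.le (by linarith)
    have h2 : τ * (L - 1 / 2) = τ * L - 1 / 2 * τ := by ring
    linarith
  have hθτ : 3 / M ≤ 3 * τ := by
    rw [div_le_iff₀ hM]
    linarith
  have hθ : 0 < 3 / M := by positivity
  obtain ⟨θ, hθd⟩ : ∃ θ, θ = 3 / M := ⟨_, rfl⟩
  rw [← hθd] at hθτ hθ ⊢
  clear hLd hL2 hθd hτM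
  have hg2 : g ^ 2 ≤ 1 := pow_le_one₀ hg.le (by linarith)
  have hg3 : g ^ 3 ≤ 1 := pow_le_one₀ hg.le (by linarith)
  have hg4 : g ^ 4 ≤ g ^ 2 := by
    have : g ^ 4 = g ^ 2 * g ^ 2 := by ring
    rw [this]
    exact mul_le_of_le_one_right (by positivity) hg2
  have hg41 : g ^ 4 ≤ g := by
    have : g ^ 4 = g * g ^ 3 := by ring
    rw [this]
    exact mul_le_of_le_one_right hg.le hg3
  have hη2 : η ^ 2 ≤ η := by
    rw [sq]
    exact mul_le_of_le_one_right hη.le (by linarith)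
  have hc1 : c ≤ g ^ 2 * η / 7680 := by
    rw [hcd]
    have : g ^ 4 * η ^ 2 ≤ g ^ 2 * η := mul_le_mul hg4 hη2 (by positivity) (by positivity)
    linarith
  have hc2 : c ≤ g * η / 7680 := by
    rw [hcd]
    have : g ^ 4 * η ^ 2 ≤ g * η := mul_le_mul hg41 hη2 (by positivity) (by positivity)
    linarith
  have hgη : 0 < g * η := by positivity
  have hg2η : 0 < g ^ 2 * η := by positivity
  have hlam0 : 0 < 4 / η * L := by positivity
  have hlamη : 4 / η * L * η = 4 * L := by field_simp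
  obtain ⟨lam, hlamd⟩ : ∃ lam, lam = 4 / η * L := ⟨_, rfl⟩
  have hlamτ : lam * τ ≤ 8 * c / η := by
    have : lam * τ = 4 / η * (τ * L) := by rw [hlamd]; ring
    rw [this]
    calc 4 / η * (τ * L) ≤ 4 / η * (2 * c) := by gcongr
      _ = 8 * c / η := by ring
  have hlam2 : lam ^ 2 * τ ≤ g ^ 4 / 480 := by
    have h1 : lam ^ 2 * τ = 16 / η ^ 2 * (τ * L ^ 2) := by rw [hlamd]; field_simp; ring
    rw [h1]
    calc 16 / η ^ 2 * (τ * L ^ 2) ≤ 16 / η ^ 2 * c := by gcongr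
      _ = g ^ 4 / 480 := by rw [hcd]; field_simp; norm_num
  rw [← hlamd] at hlam0 hlamη
  refine ⟨lam, hlam0, hlamη, hτ, by linarith, by linarith, ?_, ?_⟩
  · have h1 : 8 * c / η ≤ g ^ 2 / 960 := by
      rw [div_le_iff₀ hη]
      linarith
    have h3 : 0 ≤ lam * (3 * τ - θ) := mul_nonneg hlam0.le (by linarith)
    have h4 : lam * (6 * θ + 3 * τ) ≤ 21 * (lam * τ) := by linarith
    have h5 : 0 < g ^ 2 := by positivity
    rw [← mul_div_assoc, div_le_one h5]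
    linarith
  · have e1 : lam ^ 2 * (2 * (6 * θ / g ^ 2) ^ 2 + 2 * (12 * τ * θ / g ^ 4)) =
        (lam ^ 2 * (72 * θ + 24 * τ)) * θ / g ^ 4 := by
      field_simp; ring
    rw [e1, div_le_iff₀ (by positivity)]
    have e2 : lam ^ 2 * (72 * θ + 24 * τ) ≤ g ^ 4 / 2 := by
      calc lam ^ 2 * (72 * θ + 24 * τ) ≤ lam ^ 2 * (240 * τ) := by
            refine mul_le_mul_of_nonneg_left ?_ (by positivity)
            linarith
        _ = 240 * (lam ^ 2 * τ) := by ring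
        _ ≤ 240 * (g ^ 4 / 480) := by linarith
        _ = g ^ 4 / 2 := by ring
    calc lam ^ 2 * (72 * θ + 24 * τ) * θ ≤ g ^ 4 / 2 * θ := by gcongr
      _ = θ / 2 * g ^ 4 := by ring

theorem pow_small {x θ : ℝ} {t : ℕ} (hx0 : 0 ≤ x) (hx1 : x ≤ θ / 2) (ht : (t : ℝ) * θ ≤ 1) :
    (1 + x) ^ t ≤ 2 := by
  have h1 : 1 + x ≤ Real.exp x := by linarith [Real.add_one_le_exp x]
  have h2 : (1 + x) ^ t ≤ Real.exp (1 / 2) :=
    calc (1 + x) ^ t ≤ (Real.exp x) ^ t := pow_le_pow_left₀ (by linarith) h1 t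
      _ = Real.exp ((t : ℝ) * x) := (Real.exp_nat_mul x t).symm
      _ ≤ Real.exp (1 / 2) := by
          rw [Real.exp_le_exp]
          have : (t : ℝ) * x ≤ (t : ℝ) * (θ / 2) :=
            mul_le_mul_of_nonneg_left hx1 (Nat.cast_nonneg _)
          linarith
  have h3 : Real.exp (1 / 2) ^ 2 = Real.exp 1 := by
    rw [← Real.exp_nat_mul]; norm_num
  have h4 := Real.exp_one_lt_d9
  have h5 := Real.exp_pos (1 / 2)
  by_contra hc
  push Not at hc
  have h6 : 2 < Real.exp (1 / 2) := hc.trans_le h2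
  nlinarith

theorem start_small {M n : ℝ} (hM : 0 < M) (hn : 0 ≤ n) :
    (2 * M + n) * Real.exp (-(4 * Real.log (2 + M + n))) ≤ 1 / 4 := by
  have hL' : Real.exp (Real.log (2 + M + n)) = 2 + M + n := Real.exp_log (by linarith)
  have h1 : Real.exp (-(4 * Real.log (2 + M + n))) = ((2 + M + n) ^ 4)⁻¹ := by
    rw [Real.exp_neg, show (4 : ℝ) * Real.log (2 + M + n) = ((4 : ℕ) : ℝ) *
      Real.log (2 + M + n) by norm_num, Real.exp_nat_mul, hL']
  rw [h1, ← div_eq_mul_inv, div_le_iff₀ (by positivity)]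
  have h2 : 2 * M + n ≤ 2 * (2 + M + n) := by linarith
  have h3 : (2 : ℝ) ^ 3 ≤ (2 + M + n) ^ 3 := pow_le_pow_left₀ (by norm_num) (by linarith) 3
  have h4 : (2 + M + n) ^ 4 = (2 + M + n) ^ 3 * (2 + M + n) := by ring
  have h5 : 0 < 2 + M + n := by linarith
  rw [h4]
  have h6 := mul_le_mul_of_nonneg_right h3 h5.le
  linarith

/-- **the nibble for linear 3-uniform families** -/
theorem lin3_nibble : Lin3Statement := by
  intro γ0 hγ0
  obtain ⟨γ, hγ, hγ1, hγγ⟩ : ∃ γ : ℝ, 0 < γ ∧ γ ≤ 1 ∧ γ ≤ γ0 :=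
    ⟨min γ0 1, lt_min hγ0 one_pos, min_le_right _ _, min_le_left _ _⟩
  obtain ⟨g, hgd⟩ : ∃ g, g = γ / 2 := ⟨_, rfl⟩
  have hg : 0 < g := by rw [hgd]; positivity
  have hg1 : g ≤ 1 / 2 := by linarith
  obtain ⟨η, hηd⟩ : ∃ η, η = g ^ 20 / 16 := ⟨_, rfl⟩
  have hη : 0 < η := by rw [hηd]; positivity
  have hηg : 16 * η ≤ g ^ 20 := by rw [hηd]; linarith
  have hη1 : η ≤ 1 / 16 := by
    have : g ^ 20 ≤ 1 := pow_le_one₀ hg.le (by linarith)
    rw [hηd]; linarith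
  refine ⟨η, hη, g ^ 4 * η ^ 2 / 7680, by positivity, ?_⟩
  intro E J _ _ H0 C w τ S m hC hlin hw hs hS hτM hτL
  obtain ⟨M, hMd⟩ : ∃ M, M = (H0.card : ℝ) := ⟨_, rfl⟩
  obtain ⟨n, hnd⟩ : ∃ n, n = (Fintype.card J : ℝ) := ⟨_, rfl⟩
  rw [← hMd, ← hnd] at hτL
  rw [← hMd] at hτM
  have hM0 : 0 ≤ M := by rw [hMd]; exact Nat.cast_nonneg _
  have hn0 : 0 ≤ n := by rw [hnd]; exact Nat.cast_nonneg _
  have hMpos : 0 < M := by
    by_contra hc
    push Not at hc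
    have : M = 0 := le_antisymm hc hM0
    rw [this] at hτM
    linarith
  obtain ⟨lam, hlam, hlamη, hτ, hθη, hτη, hlam1, hx1⟩ :=
    consts hg hg1 hη hη1 hMpos hn0 hτM rfl hτL
  obtain ⟨θ, hθd⟩ : ∃ θ, θ = 3 / M := ⟨_, rfl⟩
  rw [← hθd] at hθη hlam1 hx1
  have hθ : 0 < θ := by rw [hθd]; positivity
  have hMθ : M * θ = 3 := by rw [hθd]; field_simp
  have hmpos : ∀ j, 0 < m j := by
    intro j
    have := (hS j).2.2
    exact (mul_pos_iff_of_pos_left hτ).1 (by linarith)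
  -- the potential stays below one
  have hstart := Pot_start (S := S) (m := m) (lam := lam) (fun T hT => (hC T hT).2) hη hlam hs
    hmpos (fun j => ⟨(hS j).1, (hS j).2.1⟩)
  rw [← hMd, ← hnd, hlamη] at hstart
  have hP1 := hstart.trans (start_small hMpos hn0)
  have hPot0 : 0 ≤ Pot C w S m lam H0 1 (bar η 1) := by
    unfold Pot
    refine add_nonneg (add_nonneg ?_ ?_) ?_ <;>
      exact Finset.sum_nonneg fun _ _ => (Real.exp_pos _).le
  have hsmall : ∀ t : ℕ, (t : ℝ) * θ ≤ 1 →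
      (1 + lam ^ 2 * (2 * (6 * θ / g ^ 2) ^ 2 + 2 * (12 * τ * θ / g ^ 4))) ^ t *
        Pot C w S m lam H0 1 (bar η 1) < 1 := by
    intro t ht
    have h1 := pow_small (t := t) (by positivity) hx1 ht
    calc (1 + lam ^ 2 * (2 * (6 * θ / g ^ 2) ^ 2 + 2 * (12 * τ * θ / g ^ 4))) ^ t *
          Pot C w S m lam H0 1 (bar η 1) ≤ 2 * (1 / 4) :=
            mul_le_mul h1 hP1 hPot0 (by norm_num)
      _ < 1 := by norm_num
  -- the number of steps
  obtain ⟨t, htd⟩ : ∃ t : ℕ, t = ⌊(1 - g) / θ⌋₊ := ⟨_, rfl⟩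
  have hx0 : 0 ≤ (1 - g) / θ := div_nonneg (by linarith) hθ.le
  have ht1 : (t : ℝ) * θ ≤ 1 - g := by
    have := Nat.floor_le hx0
    rwa [le_div_iff₀ hθ, ← htd] at this
  have ht2 : 1 - g < ((t : ℝ) + 1) * θ := by
    have := Nat.lt_floor_add_one ((1 - g) / θ)
    rwa [div_lt_iff₀ hθ, ← htd] at this
  obtain ⟨N, hNC, hNd, hNc, hNP⟩ := run (S := S) (m := m) (fun T hT => (hC T hT).1) hlin hw hmpos
    (fun j => (hS j).2.2) hMd.symm hMθ hg hη hηg hθ hθη hτ.le hτη hlam hlam1 hsmall t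
    (by linarith)
  refine ⟨N, hNC, hNd, fun j => ?_⟩
  have hlt := hNP.trans_lt (hsmall t (by linarith))
  have hp0 : 0 < 1 - (t : ℝ) * θ := by linarith
  have hb := (Pot_bounds hlam hp0 hmpos hlt).2 j
  have hset : S j ∩ (H0 \ N.biUnion id) = S j \ N.biUnion id := by
    ext x
    simp only [Finset.mem_inter, Finset.mem_sdiff]
    constructor
    · rintro ⟨h1, _, h2⟩; exact ⟨h1, h2⟩
    · rintro ⟨h1, h2⟩; exact ⟨h1, (hS j).1 h1, h2⟩
  rw [hset] at hb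
  have hbar := bar_le hg hηg (by linarith : g ≤ 1 - (t : ℝ) * θ)
  have hbar0 : 0 ≤ 1 + bar η (1 - (t : ℝ) * θ) := by linarith [bar_pos hη hp0]
  have hmj := hmpos j
  have hgη2 : g * η ≤ g * (1 / 16) := mul_le_mul_of_nonneg_left hη1 hg.le
  have hp1 : 1 - (t : ℝ) * θ ≤ g + g / 32 := by linarith
  calc ((S j \ N.biUnion id).card : ℝ) ≤ (1 - (t : ℝ) * θ) * m j * (1 + bar η (1 - (t : ℝ) * θ)) :=
        hb
    _ ≤ (g + g / 32) * m j * (1 + 1 / 8) := by gcongr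
    _ = ((g + g / 32) * (1 + 1 / 8)) * m j := by ring
    _ ≤ γ0 * m j := by
        refine mul_le_mul_of_nonneg_right ?_ hmj.le
        linarith

/-- **N2** -/
theorem nibble : NibbleStatement := nibble_of_lin lin3_nibble

end NW
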