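import Pool.Agent.NW.Defs

/-!
# Project NW: closing leftover edges greedily (first half of the cover down)

`close_edges`: if every edge `x y` of the leftover `L` has more than
`deg L x + deg L y + 4 B + |L| / B` common neighbours in `M`, then there is `F ⊆ M` such that
`L ∪ F` is an edge-disjoint union of triangles and `deg F v ≤ deg L v + 2 B` for every `v`.
-/

set_option linter.unusedSectionVars false

namespace NW

open Finset

variable {V : Type*} [DecidableEq V] [Fintype V]

theorem deg_insert {e : Sym2 V} {E : Finset (Sym2 V)} (he : e ∉ E) (v : V) :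
    deg (insert e E) v = deg {e} v + deg E v := by
  rw [Finset.insert_eq, deg_union (Finset.disjoint_singleton_left.2 he)]

theorem deg_single_left (x y : V) : deg ({s(x, y)} : Finset (Sym2 V)) x = 1 := by
  unfold deg
  rw [Finset.card_eq_one]
  refine ⟨y, ?_⟩
  ext u
  rw [mem_nbr, Finset.mem_singleton, Finset.mem_singleton, Sym2.eq_iff]
  constructor
  · rintro (⟨_, h⟩ | ⟨h1, h2⟩)
    · exact h
    · rw [h2]; exact h1
  · intro h
    exact Or.inl ⟨rfl, h⟩

theorem deg_single_right (x y : V) : deg ({s(x, y)} : Finset (Sym2 V)) y = 1 := by
  rw [Sym2.eq_swap]; exact deg_single_left y x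

theorem deg_pair_le {x y z : V} (hxz : x ≠ z) (hyz : y ≠ z) (v : V) :
    deg ({s(x, z), s(y, z)} : Finset (Sym2 V)) v ≤
      deg ({s(x, y)} : Finset (Sym2 V)) v + 2 * (if v = z then 1 else 0) := by
  by_cases hz : v = z
  · rw [if_pos hz]
    have h1 : nbr ({s(x, z), s(y, z)} : Finset (Sym2 V)) v ⊆ {x, y} := by
      intro u hu
      rw [mem_nbr, Finset.mem_insert, Finset.mem_singleton, Sym2.eq_iff, Sym2.eq_iff] at hu
      rw [Finset.mem_insert, Finset.mem_singleton]
      rcases hu with (⟨h, _⟩ | ⟨_, h⟩) | (⟨h, _⟩ | ⟨_, h⟩)
      · exact absurd (h.symm.trans hz) hxz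
      · exact Or.inl h
      · exact absurd (h.symm.trans hz) hyz
      · exact Or.inr h
    have h2 := Finset.card_le_card h1
    have h3 := Finset.card_le_two (a := x) (b := y)
    unfold deg
    omega
  · rw [if_neg hz]
    by_cases hx : v = x
    · subst hx
      rw [deg_single_left]
      have h1 : nbr ({s(v, z), s(y, z)} : Finset (Sym2 V)) v ⊆ {z} := by
        intro u hu
        rw [mem_nbr, Finset.mem_insert, Finset.mem_singleton, Sym2.eq_iff, Sym2.eq_iff] at hu
        rw [Finset.mem_singleton]
        rcases hu with (⟨_, h⟩ | ⟨h, _⟩) | (⟨_, h⟩ | ⟨h, _⟩)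
        · exact h
        · exact absurd h hz
        · exact h
        · exact absurd h hz
      have h2 := Finset.card_le_card h1
      rw [Finset.card_singleton] at h2
      unfold deg
      omega
    · by_cases hy : v = y
      · subst hy
        rw [deg_single_right]
        have h1 : nbr ({s(x, z), s(v, z)} : Finset (Sym2 V)) v ⊆ {z} := by
          intro u hu
          rw [mem_nbr, Finset.mem_insert, Finset.mem_singleton, Sym2.eq_iff, Sym2.eq_iff] at hu
          rw [Finset.mem_singleton]
          rcases hu with (⟨_, h⟩ | ⟨h, _⟩) | (⟨_, h⟩ | ⟨h, _⟩)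
          · exact h
          · exact absurd h hz
          · exact h
          · exact absurd h hz
        have h2 := Finset.card_le_card h1
        rw [Finset.card_singleton] at h2
        unfold deg
        omega
      · have h1 : nbr ({s(x, z), s(y, z)} : Finset (Sym2 V)) v = ∅ := by
          rw [Finset.eq_empty_iff_forall_notMem]
          intro u hu
          rw [mem_nbr, Finset.mem_insert, Finset.mem_singleton, Sym2.eq_iff, Sym2.eq_iff] at hu
          rcases hu with (⟨h, _⟩ | ⟨h, _⟩) | (⟨h, _⟩ | ⟨h, _⟩)
          · exact hx h
          · exact hz h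
          · exact hy h
          · exact hz h
        unfold deg
        rw [h1, Finset.card_empty]
        exact Nat.zero_le _

/-- the greedy closing lemma -/
theorem close_edges (L M : Finset (Sym2 V)) (hLM : Disjoint L M) (hL : NL L) (hM : NL M)
    (B : ℕ) (hB : 0 < B)
    (h : ∀ x y, s(x, y) ∈ L →
      deg L x + deg L y + 4 * B + L.card / B < (nbr M x ∩ nbr M y).card) :
    ∃ F, F ⊆ M ∧ Dec (L ∪ F) ∧ ∀ v, deg F v ≤ deg L v + 2 * B := by
  have key : ∀ L' : Finset (Sym2 V), L' ⊆ L → ∃ F : Finset (Sym2 V), ∃ load : V → ℕ, F ⊆ M ∧
      Dec (L' ∪ F) ∧ (∀ v, deg F v ≤ deg L' v + 2 * load v) ∧ (∀ v, load v ≤ B) ∧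
      ∑ v, load v = L'.card := by
    intro L'
    induction L' using Finset.induction_on with
    | empty =>
      intro _
      refine ⟨∅, fun _ => 0, Finset.empty_subset _, ?_, ?_, fun _ => Nat.zero_le _, ?_⟩
      · rw [Finset.empty_union]; exact Dec.empty
      · intro v
        exact Nat.le_add_right _ _
      · rw [Finset.sum_const_zero, Finset.card_empty]
    | insert e L' he ih =>
      intro hsub
      obtain ⟨F, load, hFM, hdec, hdeg, hload, hsum⟩ :=
        ih (fun a ha => hsub (Finset.mem_insert_of_mem ha))
      have heL : e ∈ L := hsub (Finset.mem_insert_self _ _)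
      have hL'L : L' ⊆ L := fun a ha => hsub (Finset.mem_insert_of_mem ha)
      clear ih
      induction e using Sym2.ind with
      | _ x y =>
      have hxy : x ≠ y := by
        intro hxy
        exact hL _ heL (Sym2.mk_isDiag_iff.2 hxy)
      -- the overloaded vertices
      set O : Finset V := univ.filter (fun v => load v = B) with hO
      have hOcard : O.card ≤ L.card / B := by
        rw [Nat.le_div_iff_mul_le hB]
        calc O.card * B = ∑ v ∈ O, load v := by
              rw [Finset.sum_congr rfl (fun v hv => (Finset.mem_filter.1 hv).2),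
                Finset.sum_const, smul_eq_mul]
          _ ≤ ∑ v, load v := Finset.sum_le_sum_of_subset (Finset.subset_univ _)
          _ = L'.card := hsum
          _ ≤ L.card := Finset.card_le_card hL'L
      have hbad : ((nbr F x ∪ nbr F y) ∪ O).card < (nbr M x ∩ nbr M y).card := by
        have h1 := h x y heL
        have h2 : (nbr F x).card ≤ deg L x + 2 * B := by
          have := hdeg x
          have h3 := deg_mono hL'L x
          have h4 := hload x
          unfold deg at this h3 ⊢
          omega
        have h2' : (nbr F y).card ≤ deg L y + 2 * B := by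
          have := hdeg y
          have h3 := deg_mono hL'L y
          have h4 := hload y
          unfold deg at this h3 ⊢
          omega
        have h5 := Finset.card_union_le (nbr F x ∪ nbr F y) O
        have h6 := Finset.card_union_le (nbr F x) (nbr F y)
        omega
      obtain ⟨z, hz, hzb⟩ := Finset.exists_mem_notMem_of_card_lt_card hbad
      rw [Finset.mem_inter, mem_nbr, mem_nbr] at hz
      rw [Finset.mem_union, Finset.mem_union, mem_nbr, mem_nbr, hO, Finset.mem_filter] at hzb
      push Not at hzb
      obtain ⟨⟨hzx, hzy⟩, hzO⟩ := hzb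
      have hxz : x ≠ z := by
        intro hxz
        exact hM _ hz.1 (Sym2.mk_isDiag_iff.2 hxz)
      have hyz : y ≠ z := by
        intro hyz
        exact hM _ hz.2 (Sym2.mk_isDiag_iff.2 hyz)
      have hlz : load z < B := lt_of_le_of_ne (hload z) (hzO (Finset.mem_univ _))
      refine ⟨{s(x, z), s(y, z)} ∪ F, fun v => (if v = z then 1 else 0) + load v, ?_, ?_, ?_, ?_,
        ?_⟩
      · refine Finset.union_subset ?_ hFM
        intro f hf
        rw [Finset.mem_insert, Finset.mem_singleton] at hf
        rcases hf with rfl | rfl
        · exact hz.1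
        · exact hz.2
      · have hdis : Disjoint (tri x y z) (L' ∪ F) := by
          rw [Finset.disjoint_left]
          intro f hf hf'
          rw [mem_tri] at hf
          rw [Finset.mem_union] at hf'
          rcases hf with rfl | rfl | rfl
          · rcases hf' with hf' | hf'
            · exact he hf'
            · exact Finset.disjoint_left.1 hLM heL (hFM hf')
          · rcases hf' with hf' | hf'
            · exact Finset.disjoint_left.1 hLM (hL'L hf') hz.2
            · exact hzy hf'
          · rcases hf' with hf' | hf'
            · exact Finset.disjoint_left.1 hLM (hL'L hf') hz.1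
            · exact hzx hf'
        have := Dec.cons hxy hyz hxz hdis hdec
        have heq : insert s(x, y) L' ∪ ({s(x, z), s(y, z)} ∪ F) = tri x y z ∪ (L' ∪ F) := by
          ext f
          simp only [Finset.mem_union, Finset.mem_insert, Finset.mem_singleton, mem_tri]
          tauto
        rw [heq]
        exact this
      · intro v
        have h1 := deg_union_le ({s(x, z), s(y, z)} : Finset (Sym2 V)) F v
        have h2 := deg_pair_le hxz hyz v
        have h3 := hdeg v
        have h4 := deg_insert he v
        rw [h4]
        simp only []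
        omega
      · intro v
        simp only []
        by_cases hv : v = z
        · rw [if_pos hv, hv]; omega
        · rw [if_neg hv]; have := hload v; omega
      · rw [Finset.sum_add_distrib, hsum, Finset.card_insert_of_notMem he,
          Finset.sum_ite_eq' Finset.univ z (fun _ => 1), if_pos (Finset.mem_univ _)]
        omega
  obtain ⟨F, load, h1, h2, h3, h4, _⟩ := key L (Finset.Subset.refl _)
  refine ⟨F, h1, h2, fun v => ?_⟩
  have := h3 v
  have := h4 v
  omega

end NW
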