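import Mathlib

/-!
Perfect matchings under the degree condition of Dirac: if `S` has even size and every vertex of
`S` has at least `|S|/2` neighbours in `S`, then `S` has a perfect matching, given as an
involution.
-/

namespace NW

open Finset

/-- Number of points of `S` moved by `f`. -/
def movedSet {V : Type*} [DecidableEq V] (S : Finset V) (f : V → V) : Finset V :=
  S.filter fun a => f a ≠ a

/-- Partial matchings of the relation `R` on `S`, as involutions. -/
def IsPartM {V : Type*} (S : Finset V) (R : V → V → Prop) (f : V → V) : Prop :=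
  (∀ a, f (f a) = a) ∧ (∀ a, a ∉ S → f a = a) ∧ (∀ a, f a ≠ a → R a (f a))

theorem IsPartM.mem {V : Type*} {S : Finset V} {R : V → V → Prop} {f : V → V}
    (h : IsPartM S R f) {a : V} (ha : a ∈ S) : f a ∈ S := by
  by_contra hc
  have h1 := h.2.1 _ hc
  rw [h.1 a] at h1
  exact hc (h1 ▸ ha)

/-- The parity of the number of moved points. -/
theorem even_moved {V : Type*} [DecidableEq V] {S : Finset V} {R : V → V → Prop} {f : V → V}
    (h : IsPartM S R f) : Even (movedSet S f).card := by
  have hs : ∑ a ∈ movedSet S f, (1 : ZMod 2) = 0 := by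
    refine Finset.sum_involution (fun a _ => f a) ?_ ?_ ?_ ?_
    · intro a _
      exact CharTwo.add_self_eq_zero (1 : ZMod 2)
    · intro a ha _
      exact (Finset.mem_filter.1 ha).2
    · intro a ha
      have ha' := Finset.mem_filter.1 ha
      refine Finset.mem_filter.2 ⟨h.mem ha'.1, ?_⟩
      intro hc
      exact ha'.2 (by rw [h.1 a] at hc; exact hc.symm)
    · intro a _
      exact h.1 a
  rw [Finset.sum_const, nsmul_eq_mul, mul_one] at hs
  exact (ZMod.natCast_eq_zero_iff_even).1 hs

theorem perfMatch {V : Type*} [Fintype V] [DecidableEq V] (S : Finset V) (R : V → V → Prop)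
    [DecidableRel R] (hsym : ∀ a b, R a b → R b a) (hirr : ∀ a, ¬ R a a) (heven : Even S.card)
    (hdeg : ∀ a ∈ S, S.card ≤ 2 * (S.filter fun b => R a b).card) :
    ∃ f : V → V, (∀ a, f (f a) = a) ∧ (∀ a, a ∉ S → f a = a) ∧ ∀ a ∈ S, R a (f a) := by
  classical
  -- a maximal partial matching
  obtain ⟨f, hf, hmax⟩ : ∃ f : V → V, IsPartM S R f ∧
      ∀ g : V → V, IsPartM S R g → (movedSet S g).card ≤ (movedSet S f).card := by
    have hne : ((Finset.univ : Finset (V → V)).filter fun f => IsPartM S R f).Nonempty :=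
      ⟨id, Finset.mem_filter.2 ⟨Finset.mem_univ _, fun _ => rfl, fun _ _ => rfl,
        fun a h => absurd rfl h⟩⟩
    obtain ⟨f, hf, hmax⟩ := Finset.exists_max_image _ (fun f => (movedSet S f).card) hne
    exact ⟨f, (Finset.mem_filter.1 hf).2, fun g hg =>
      hmax g (Finset.mem_filter.2 ⟨Finset.mem_univ _, hg⟩)⟩
  by_cases hall : ∀ a ∈ S, f a ≠ a
  · exact ⟨f, hf.1, hf.2.1, fun a ha => hf.2.2 a (hall a ha)⟩
  exfalso
  push Not at hall
  obtain ⟨a, haS, hfa⟩ := hall
  -- a second fixed point
  obtain ⟨b, hbS, hfb, hab⟩ : ∃ b ∈ S, f b = b ∧ a ≠ b := by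
    by_contra hno
    push Not at hno
    have h1 : movedSet S f = S.erase a := by
      ext x
      simp only [movedSet, Finset.mem_filter, Finset.mem_erase]
      constructor
      · rintro ⟨hx, hfx⟩
        exact ⟨fun h => hfx (h ▸ hfa), hx⟩
      · rintro ⟨hxa, hx⟩
        exact ⟨hx, fun h => hxa (hno x hx h).symm⟩
    have h2 := even_moved hf
    rw [h1, Finset.card_erase_of_mem haS] at h2
    have h3 : 0 < S.card := Finset.card_pos.2 ⟨a, haS⟩
    obtain ⟨k, hk⟩ := heven
    obtain ⟨l, hl⟩ := h2
    omega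
  -- `a` and `b` are not adjacent
  have hnab : ¬ R a b := by
    intro hR
    let g : V → V := fun z => if z = a then b else if z = b then a else f z
    have hga : g a = b := by simp [g]
    have hgb : g b = a := by simp [g, hab.symm]
    have hgz : ∀ z, z ≠ a → z ≠ b → g z = f z := fun z h1 h2 => by simp [g, h1, h2]
    have hfz : ∀ z, z ≠ a → z ≠ b → f z ≠ a ∧ f z ≠ b := by
      intro z h1 h2
      refine ⟨fun h => h1 ?_, fun h => h2 ?_⟩
      · rw [← hf.1 z, h, hfa]
      · rw [← hf.1 z, h, hfb]
    have hg : IsPartM S R g := by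
      refine ⟨fun z => ?_, fun z hz => ?_, fun z hz => ?_⟩
      · by_cases h1 : z = a
        · rw [h1, hga, hgb]
        by_cases h2 : z = b
        · rw [h2, hgb, hga]
        rw [hgz z h1 h2, hgz _ (hfz z h1 h2).1 (hfz z h1 h2).2, hf.1]
      · rw [hgz z (fun h => hz (h ▸ haS)) (fun h => hz (h ▸ hbS))]
        exact hf.2.1 z hz
      · by_cases h1 : z = a
        · rw [h1, hga]; exact hR
        by_cases h2 : z = b
        · rw [h2, hgb]; exact hsym _ _ hR
        rw [hgz z h1 h2] at hz ⊢
        exact hf.2.2 z hz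
    have hlt : (movedSet S f).card < (movedSet S g).card := by
      apply Finset.card_lt_card
      rw [Finset.ssubset_iff_of_subset]
      · refine ⟨a, Finset.mem_filter.2 ⟨haS, ?_⟩, ?_⟩
        · rw [hga]; exact hab.symm
        · intro h
          exact (Finset.mem_filter.1 h).2 hfa
      · intro z hz
        have hz' := Finset.mem_filter.1 hz
        have h1 : z ≠ a := fun h => hz'.2 (h ▸ hfa)
        have h2 : z ≠ b := fun h => hz'.2 (h ▸ hfb)
        refine Finset.mem_filter.2 ⟨hz'.1, ?_⟩
        rw [hgz z h1 h2]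
        exact hz'.2
    exact absurd (hmax g hg) (not_le.2 hlt)
  -- all neighbours of a fixed point are moved
  have hmoved : ∀ c ∈ S, f c = c → ∀ x ∈ S, R c x → f x ≠ x := by
    intro c hcS hfc x hxS hcx hfx
    have hcx' : c ≠ x := fun h => hirr c (by rw [← h] at hcx; exact hcx)
    let g : V → V := fun z => if z = c then x else if z = x then c else f z
    have hga : g c = x := by simp [g]
    have hgb : g x = c := by simp [g, hcx'.symm]
    have hgz : ∀ z, z ≠ c → z ≠ x → g z = f z := fun z h1 h2 => by simp [g, h1, h2]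
    have hfz : ∀ z, z ≠ c → z ≠ x → f z ≠ c ∧ f z ≠ x := by
      intro z h1 h2
      refine ⟨fun h => h1 ?_, fun h => h2 ?_⟩
      · rw [← hf.1 z, h, hfc]
      · rw [← hf.1 z, h, hfx]
    have hg : IsPartM S R g := by
      refine ⟨fun z => ?_, fun z hz => ?_, fun z hz => ?_⟩
      · by_cases h1 : z = c
        · rw [h1, hga, hgb]
        by_cases h2 : z = x
        · rw [h2, hgb, hga]
        rw [hgz z h1 h2, hgz _ (hfz z h1 h2).1 (hfz z h1 h2).2, hf.1]
      · rw [hgz z (fun h => hz (h ▸ hcS)) (fun h => hz (h ▸ hxS))]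
        exact hf.2.1 z hz
      · by_cases h1 : z = c
        · rw [h1, hga]; exact hcx
        by_cases h2 : z = x
        · rw [h2, hgb]; exact hsym _ _ hcx
        rw [hgz z h1 h2] at hz ⊢
        exact hf.2.2 z hz
    have hlt : (movedSet S f).card < (movedSet S g).card := by
      apply Finset.card_lt_card
      rw [Finset.ssubset_iff_of_subset]
      · refine ⟨c, Finset.mem_filter.2 ⟨hcS, ?_⟩, ?_⟩
        · rw [hga]; exact hcx'.symm
        · intro h
          exact (Finset.mem_filter.1 h).2 hfc
      · intro z hz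
        have hz' := Finset.mem_filter.1 hz
        have h1 : z ≠ c := fun h => hz'.2 (h ▸ hfc)
        have h2 : z ≠ x := fun h => hz'.2 (h ▸ hfx)
        refine Finset.mem_filter.2 ⟨hz'.1, ?_⟩
        rw [hgz z h1 h2]
        exact hz'.2
    exact absurd (hmax g hg) (not_le.2 hlt)
  -- pigeonhole
  obtain ⟨x, hax, hbx⟩ : ∃ x, (x ∈ S ∧ R a x) ∧ (f x ∈ S ∧ R b (f x)) := by
    by_contra hno
    push Not at hno
    have hA : (S.filter fun x => R a x) ⊆ (S.erase a).erase b := by
      intro x hx
      have hx' := Finset.mem_filter.1 hx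
      rw [Finset.mem_erase, Finset.mem_erase]
      refine ⟨fun h => ?_, fun h => ?_, hx'.1⟩
      · rw [h] at hx'; exact hnab hx'.2
      · rw [h] at hx'; exact hirr a hx'.2
    have hB : (S.filter fun x => R b (f x)) ⊆ (S.erase a).erase b := by
      intro x hx
      have hx' := Finset.mem_filter.1 hx
      rw [Finset.mem_erase, Finset.mem_erase]
      refine ⟨fun h => ?_, fun h => ?_, hx'.1⟩
      · rw [h, hfb] at hx'; exact hirr b hx'.2
      · rw [h, hfa] at hx'; exact hnab (hsym _ _ hx'.2)
    have hdis : Disjoint (S.filter fun x => R a x) (S.filter fun x => R b (f x)) := by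
      rw [Finset.disjoint_left]
      intro x hx hx2
      have h1 := Finset.mem_filter.1 hx
      have h2 := Finset.mem_filter.1 hx2
      exact hno x h1 (hf.mem h1.1) h2.2
    have hcard : (S.filter fun x => R b (f x)).card = (S.filter fun x => R b x).card := by
      refine Finset.card_bij (fun x _ => f x) ?_ ?_ ?_
      · intro x hx
        have hx' := Finset.mem_filter.1 hx
        exact Finset.mem_filter.2 ⟨hf.mem hx'.1, hx'.2⟩
      · intro x _ y _ hxy
        rw [← hf.1 x, ← hf.1 y]
        exact congrArg f hxy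
      · intro y hy
        have hy' := Finset.mem_filter.1 hy
        exact ⟨f y, Finset.mem_filter.2 ⟨hf.mem hy'.1, by rw [hf.1]; exact hy'.2⟩, hf.1 y⟩
    have h1 := Finset.card_le_card (Finset.union_subset hA hB)
    rw [Finset.card_union_of_disjoint hdis, hcard] at h1
    have hbmem : b ∈ S.erase a := Finset.mem_erase.2 ⟨hab.symm, hbS⟩
    rw [Finset.card_erase_of_mem hbmem, Finset.card_erase_of_mem haS] at h1
    have h2 := hdeg a haS
    have h3 := hdeg b hbS
    have h4 : 0 < (S.erase a).card := Finset.card_pos.2 ⟨b, hbmem⟩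
    rw [Finset.card_erase_of_mem haS] at h4
    omega
  -- augmentation
  set y := f x with hy
  have hfx : f x ≠ x := hmoved a haS hfa x hax.1 hax.2
  have hfy : f y = x := hf.1 x
  have hxa : x ≠ a := fun h => hfx (by rw [h, hfa])
  have hxb : x ≠ b := fun h => hfx (by rw [h, hfb])
  have hyx : y ≠ x := hfx
  have hya : y ≠ a := fun h => by rw [h, hfa] at hfy; exact hxa hfy.symm
  have hyb : y ≠ b := fun h => by rw [h, hfb] at hfy; exact hxb hfy.symm
  let g : V → V := fun z => if z = a then x else if z = x then a else if z = b then y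
    else if z = y then b else f z
  have hga : g a = x := by simp [g]
  have hgx : g x = a := by simp [g, hxa]
  have hgb : g b = y := by simp [g, hab.symm, hxb.symm]
  have hgy : g y = b := by simp [g, hya, hyx, hyb]
  have hgz : ∀ z, z ≠ a → z ≠ x → z ≠ b → z ≠ y → g z = f z :=
    fun z h1 h2 h3 h4 => by simp [g, h1, h2, h3, h4]
  have hfz : ∀ z, z ≠ a → z ≠ x → z ≠ b → z ≠ y →
      f z ≠ a ∧ f z ≠ x ∧ f z ≠ b ∧ f z ≠ y := by
    intro z h1 h2 h3 h4
    refine ⟨fun h => h1 ?_, fun h => h4 ?_, fun h => h3 ?_, fun h => h2 ?_⟩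
    · rw [← hf.1 z, h, hfa]
    · rw [← hf.1 z, h]
    · rw [← hf.1 z, h, hfb]
    · rw [← hf.1 z, h, hfy]
  have hg : IsPartM S R g := by
    refine ⟨fun z => ?_, fun z hz => ?_, fun z hz => ?_⟩
    · by_cases h1 : z = a
      · rw [h1, hga, hgx]
      by_cases h2 : z = x
      · rw [h2, hgx, hga]
      by_cases h3 : z = b
      · rw [h3, hgb, hgy]
      by_cases h4 : z = y
      · rw [h4, hgy, hgb]
      have h5 := hfz z h1 h2 h3 h4
      rw [hgz z h1 h2 h3 h4, hgz _ h5.1 h5.2.1 h5.2.2.1 h5.2.2.2, hf.1]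
    · have h1 : z ≠ a := fun h => hz (h ▸ haS)
      have h2 : z ≠ x := fun h => hz (h ▸ hax.1)
      have h3 : z ≠ b := fun h => hz (h ▸ hbS)
      have h4 : z ≠ y := fun h => hz (h ▸ hbx.1)
      rw [hgz z h1 h2 h3 h4]
      exact hf.2.1 z hz
    · by_cases h1 : z = a
      · rw [h1, hga]; exact hax.2
      by_cases h2 : z = x
      · rw [h2, hgx]; exact hsym _ _ hax.2
      by_cases h3 : z = b
      · rw [h3, hgb]; exact hbx.2
      by_cases h4 : z = y
      · rw [h4, hgy]; exact hsym _ _ hbx.2
      rw [hgz z h1 h2 h3 h4] at hz ⊢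
      exact hf.2.2 z hz
  have hlt : (movedSet S f).card < (movedSet S g).card := by
    apply Finset.card_lt_card
    rw [Finset.ssubset_iff_of_subset]
    · refine ⟨a, Finset.mem_filter.2 ⟨haS, ?_⟩, ?_⟩
      · rw [hga]; exact hxa
      · intro h
        exact (Finset.mem_filter.1 h).2 hfa
    · intro z hz
      have hz' := Finset.mem_filter.1 hz
      have h1 : z ≠ a := fun h => hz'.2 (h ▸ hfa)
      have h3 : z ≠ b := fun h => hz'.2 (h ▸ hfb)
      refine Finset.mem_filter.2 ⟨hz'.1, ?_⟩
      by_cases h2 : z = x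
      · rw [h2, hgx]; exact hxa.symm
      by_cases h4 : z = y
      · rw [h4, hgy]; exact hyb.symm
      rw [hgz z h1 h2 h3 h4]
      exact hz'.2
  exact absurd (hmax g hg) (not_le.2 hlt)

end NW
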