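import Pool.Agent.NW.Defs
import Pool.Agent.NW.PerfMatch

/-!
# Project NW: the matching loop of the cover down

Every vertex `v` of `W` wants a perfect matching `M v` of the set `D v`, made of edges of `K v`,
and the matchings have to be pairwise disjoint.  If `K v` meets at most `T` of the other `K v'` and
every vertex of `D v` has degree at least `|D v| / 2 + T` in `K v`, the vertices of `W` can be
served one after the other.
-/

set_option linter.unusedSectionVars false

namespace NW

open Finset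

variable {V : Type*} [DecidableEq V]

/-- all pairs `v a` with `a` in `D` -/
def star (v : V) (D : Finset V) : Finset (Sym2 V) := D.image fun a => s(v, a)

theorem mem_star {v : V} {D : Finset V} {e : Sym2 V} : e ∈ star v D ↔ ∃ a ∈ D, s(v, a) = e := by
  simp [star]

/-- `F` contains a perfect matching of `S`, given by the involution `f` -/
def PMOn (S : Finset V) (F : Finset (Sym2 V)) (f : V → V) : Prop :=
  (∀ a, f (f a) = a) ∧ (∀ a, a ∉ S → f a = a) ∧ ∀ a ∈ S, s(a, f a) ∈ F

/-- the edges of the matching given by `f` -/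
def pmEdges (S : Finset V) (f : V → V) : Finset (Sym2 V) := S.image fun a => s(a, f a)

theorem mem_pmEdges {S : Finset V} {f : V → V} {e : Sym2 V} :
    e ∈ pmEdges S f ↔ ∃ a ∈ S, s(a, f a) = e := by
  simp [pmEdges]

theorem PMOn.mem {S : Finset V} {F : Finset (Sym2 V)} {f : V → V} (h : PMOn S F f) {a : V}
    (ha : a ∈ S) : f a ∈ S := by
  by_contra hc
  have h1 := h.2.1 _ hc
  rw [h.1 a] at h1
  exact hc (h1 ▸ ha)

theorem PMOn.ne {S : Finset V} {F : Finset (Sym2 V)} {f : V → V} (h : PMOn S F f) (hF : NL F)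
    {a : V} (ha : a ∈ S) : a ≠ f a := fun hc => hF _ (h.2.2 a ha) (Sym2.mk_isDiag_iff.2 hc)

theorem PMOn.sub {S : Finset V} {F : Finset (Sym2 V)} {f : V → V} (h : PMOn S F f) :
    pmEdges S f ⊆ F := by
  intro e he
  obtain ⟨a, ha, rfl⟩ := mem_pmEdges.1 he
  exact h.2.2 a ha

theorem pmEdges_eq {S : Finset V} {f : V → V} (hf : ∀ a, f (f a) = a) (hS : ∀ a ∈ S, f a ∈ S)
    {a b : V} (hab : s(a, b) ∈ pmEdges S f) : a ∈ S ∧ b = f a := by
  obtain ⟨c, hc, hce⟩ := mem_pmEdges.1 hab
  rcases Sym2.eq_iff.1 hce with ⟨h1, h2⟩ | ⟨h1, h2⟩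
  · rw [← h1, ← h2]
    exact ⟨hc, rfl⟩
  · rw [← h1, ← h2]
    exact ⟨hS c hc, (hf c).symm⟩

/-- The star of `v` over `S` together with a perfect matching of `S` is a union of triangles. -/
theorem dec_star_pm_aux {v : V} {f : V → V} (hf : ∀ a, f (f a) = a) (n : ℕ) :
    ∀ S : Finset V, S.card ≤ n → (∀ a ∈ S, f a ∈ S) → (∀ a ∈ S, a ≠ f a) → v ∉ S →
      Dec (star v S ∪ pmEdges S f) := by
  induction n with
  | zero =>
    intro S hS _ _ _
    have : S = ∅ := Finset.card_eq_zero.1 (Nat.le_zero.1 hS)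
    subst this
    simpa [star, pmEdges] using Dec.empty
  | succ n ih =>
    intro S hS hS1 hS2 hv
    rcases S.eq_empty_or_nonempty with rfl | ⟨a, ha⟩
    · simpa [star, pmEdges] using Dec.empty
    · have hfa := hS1 a ha
      have hne := hS2 a ha
      have hva : v ≠ a := fun h => hv (h ▸ ha)
      have hvfa : v ≠ f a := fun h => hv (h ▸ hfa)
      set S' := (S.erase a).erase (f a) with hS'
      have hsub : ∀ x, x ∈ S' ↔ x ≠ f a ∧ x ≠ a ∧ x ∈ S := by
        intro x; rw [hS', Finset.mem_erase, Finset.mem_erase]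
      have hcard : S'.card ≤ n := by
        have h1 : S'.card ≤ (S.erase a).card := Finset.card_le_card (Finset.erase_subset _ _)
        rw [Finset.card_erase_of_mem ha] at h1
        omega
      have hcl : ∀ x ∈ S', f x ∈ S' := by
        intro x hx
        have hx' := (hsub x).1 hx
        refine (hsub _).2 ⟨fun h => hx'.2.1 ?_, fun h => hx'.1 ?_, hS1 x hx'.2.2⟩
        · rw [← hf x, h, hf]
        · rw [← hf x, h]
      have hdec := ih S' hcard hcl (fun x hx => hS2 x ((hsub x).1 hx).2.2)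
        (fun h => hv ((hsub v).1 h).2.2)
      have heq : star v S ∪ pmEdges S f = tri v a (f a) ∪ (star v S' ∪ pmEdges S' f) := by
        ext e
        simp only [Finset.mem_union, mem_star, mem_pmEdges, mem_tri]
        constructor
        · rintro (⟨x, hx, rfl⟩ | ⟨x, hx, rfl⟩)
          · by_cases h1 : x = a
            · subst h1; exact Or.inl (Or.inl rfl)
            by_cases h2 : x = f a
            · subst h2; exact Or.inl (Or.inr (Or.inr rfl))
            exact Or.inr (Or.inl ⟨x, (hsub x).2 ⟨h2, h1, hx⟩, rfl⟩)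
          · by_cases h1 : x = a
            · subst h1; exact Or.inl (Or.inr (Or.inl rfl))
            by_cases h2 : x = f a
            · subst h2
              rw [hf]
              exact Or.inl (Or.inr (Or.inl Sym2.eq_swap))
            exact Or.inr (Or.inr ⟨x, (hsub x).2 ⟨h2, h1, hx⟩, rfl⟩)
        · rintro ((rfl | rfl | rfl) | (⟨x, hx, rfl⟩ | ⟨x, hx, rfl⟩))
          · exact Or.inl ⟨a, ha, rfl⟩
          · exact Or.inr ⟨a, ha, rfl⟩
          · exact Or.inl ⟨f a, hfa, rfl⟩
          · exact Or.inl ⟨x, ((hsub x).1 hx).2.2, rfl⟩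
          · exact Or.inr ⟨x, ((hsub x).1 hx).2.2, rfl⟩
      rw [heq]
      refine Dec.cons hva hne hvfa ?_ hdec
      rw [Finset.disjoint_left]
      intro e he1 he2
      rw [mem_tri] at he1
      rw [Finset.mem_union, mem_star, mem_pmEdges] at he2
      rcases he2 with ⟨x, hx, rfl⟩ | ⟨x, hx, rfl⟩
      · have hx' := (hsub x).1 hx
        rcases he1 with h | h | h
        · rcases Sym2.eq_iff.1 h with ⟨_, h⟩ | ⟨h, _⟩
          · exact hx'.2.1 h
          · exact hva h
        · rcases Sym2.eq_iff.1 h with ⟨h, _⟩ | ⟨h, _⟩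
          · exact hva h
          · exact hvfa h
        · rcases Sym2.eq_iff.1 h with ⟨_, h⟩ | ⟨h, _⟩
          · exact hx'.1 h
          · exact hvfa h
      · have hx' := (hsub x).1 hx
        have hxv : x ≠ v := fun h => hv (h ▸ hx'.2.2)
        have hfxv : f x ≠ v := fun h => hv (h ▸ hS1 x hx'.2.2)
        rcases he1 with h | h | h
        · rcases Sym2.eq_iff.1 h with ⟨h, _⟩ | ⟨_, h⟩
          · exact hxv h
          · exact hfxv h
        · rcases Sym2.eq_iff.1 h with ⟨h, _⟩ | ⟨h, _⟩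
          · exact hx'.2.1 h
          · exact hx'.1 h
        · rcases Sym2.eq_iff.1 h with ⟨h, _⟩ | ⟨_, h⟩
          · exact hxv h
          · exact hfxv h

theorem dec_star_pm {v : V} {S : Finset V} {F : Finset (Sym2 V)} {f : V → V} (h : PMOn S F f)
    (hF : NL F) (hv : v ∉ S) : Dec (star v S ∪ pmEdges S f) :=
  dec_star_pm_aux h.1 S.card S le_rfl (fun _ ha => h.mem ha) (fun _ ha => h.ne hF ha) hv

variable [Fintype V]

theorem deg_pmEdges_eq {S : Finset V} {F : Finset (Sym2 V)} {f : V → V} (h : PMOn S F f)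
    {a : V} (ha : a ∈ S) : deg (pmEdges S f) a = 1 := by
  unfold deg
  rw [Finset.card_eq_one]
  refine ⟨f a, ?_⟩
  ext u
  rw [mem_nbr, Finset.mem_singleton]
  constructor
  · intro hu
    exact (pmEdges_eq h.1 (fun _ hb => h.mem hb) hu).2
  · rintro rfl
    exact mem_pmEdges.2 ⟨a, ha, rfl⟩

theorem deg_pmEdges_zero {S : Finset V} {F : Finset (Sym2 V)} {f : V → V} (h : PMOn S F f)
    {a : V} (ha : a ∉ S) : deg (pmEdges S f) a = 0 := by
  unfold deg
  rw [Finset.card_eq_zero, Finset.eq_empty_iff_forall_notMem]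
  intro u hu
  exact ha (pmEdges_eq h.1 (fun _ hb => h.mem hb) (mem_nbr.1 hu)).1

/-- The matching loop, with an abstract perfect matching hypothesis. -/
theorem match_loop_gen (W : Finset V) (D : V → Finset V) (K : V → Finset (Sym2 V)) (T : ℕ)
    (hT : ∀ v ∈ W, (W.filter fun w => w ≠ v ∧ ¬ Disjoint (K v) (K w)).card ≤ T)
    (hPM : ∀ v ∈ W, ∀ F : Finset (Sym2 V), F ⊆ K v → (∀ a ∈ D v, deg (K v \ F) a ≤ T) →
      ∃ f, PMOn (D v) F f) :
    ∃ f : V → V → V, (∀ v ∈ W, PMOn (D v) (K v) (f v)) ∧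
      ∀ v ∈ W, ∀ w ∈ W, v ≠ w → Disjoint (pmEdges (D v) (f v)) (pmEdges (D w) (f w)) := by
  classical
  suffices h : ∀ X : Finset V, X ⊆ W → ∃ f : V → V → V, (∀ v ∈ X, PMOn (D v) (K v) (f v)) ∧
      ∀ v ∈ X, ∀ w ∈ X, v ≠ w → Disjoint (pmEdges (D v) (f v)) (pmEdges (D w) (f w)) from
    h W subset_rfl
  intro X
  induction X using Finset.induction_on with
  | empty => intro _; exact ⟨fun _ => id, by simp, by simp⟩
  | insert v X hvX ih =>
    intro hX
    obtain ⟨f, hf1, hf2⟩ := ih ((Finset.subset_insert _ _).trans hX)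
    have hvW : v ∈ W := hX (Finset.mem_insert_self _ _)
    have hXW : X ⊆ W := (Finset.subset_insert _ _).trans hX
    -- the edges used so far
    set Used : Finset (Sym2 V) := X.biUnion fun w => pmEdges (D w) (f w) with hUsed
    obtain ⟨g, hg⟩ := hPM v hvW (K v \ Used) Finset.sdiff_subset (by
      intro a ha
      refine le_trans ?_ (hT v hvW)
      unfold deg
      -- every used edge of `K v` at `a` determines its `w`
      have h1 : ∀ u ∈ nbr (K v \ (K v \ Used)) a, ∃ w ∈ X, s(a, u) ∈ pmEdges (D w) (f w) := by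
        intro u hu
        rw [mem_nbr, Finset.mem_sdiff, Finset.mem_sdiff] at hu
        have h2 : s(a, u) ∈ Used := by
          by_contra hc
          exact hu.2 ⟨hu.1, hc⟩
        exact Finset.mem_biUnion.1 h2
      choose! w hw1 hw2 using h1
      refine Finset.card_le_card_of_injOn w ?_ ?_
      · intro u hu
        have hu' := hu
        rw [Finset.mem_coe, mem_nbr, Finset.mem_sdiff, Finset.mem_sdiff] at hu'
        have h3 := hw1 u hu
        refine Finset.mem_coe.2 (Finset.mem_filter.2 ⟨hXW h3, ?_, ?_⟩)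
        · rintro h4
          rw [h4] at h3
          exact hvX h3
        · intro hdis
          exact Finset.disjoint_left.1 hdis hu'.1 ((hf1 _ h3).sub (hw2 u hu))
      · intro u hu u' hu' huu
        have h3 := hw2 u hu
        have h4 := hw2 u' hu'
        rw [← huu] at h4
        have h5 := hf1 _ (hw1 u hu)
        rw [(pmEdges_eq h5.1 (fun _ hb => h5.mem hb) h3).2,
          (pmEdges_eq h5.1 (fun _ hb => h5.mem hb) h4).2])
    have hgK : PMOn (D v) (K v) g :=
      ⟨hg.1, hg.2.1, fun a ha => (Finset.mem_sdiff.1 (hg.2.2 a ha)).1⟩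
    have hgd : ∀ w ∈ X, Disjoint (pmEdges (D v) g) (pmEdges (D w) (f w)) := by
      intro w hw
      rw [Finset.disjoint_left]
      intro e he1 he2
      have h3 := hg.sub he1
      exact (Finset.mem_sdiff.1 h3).2 (Finset.mem_biUnion.2 ⟨w, hw, he2⟩)
    refine ⟨Function.update f v g, ?_, ?_⟩
    · intro w hw
      rcases Finset.mem_insert.1 hw with rfl | hw
      · rw [Function.update_self]; exact hgK
      · have hne : w ≠ v := fun h => hvX (h ▸ hw)
        rw [Function.update_of_ne hne]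
        exact hf1 w hw
    · intro w hw0 w' hw0' hne
      rcases Finset.mem_insert.1 hw0 with h1 | h1
      · rcases Finset.mem_insert.1 hw0' with h2 | h2
        · exact absurd (h1.trans h2.symm) hne
        · have hne2 : w' ≠ v := fun h => hvX (h ▸ h2)
          rw [h1, Function.update_self, Function.update_of_ne hne2]
          exact hgd w' h2
      · have hne1 : w ≠ v := fun h => hvX (h ▸ h1)
        rcases Finset.mem_insert.1 hw0' with h2 | h2
        · rw [h2, Function.update_self, Function.update_of_ne hne1]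
          exact (hgd w h1).symm
        · have hne2 : w' ≠ v := fun h => hvX (h ▸ h2)
          rw [Function.update_of_ne hne1, Function.update_of_ne hne2]
          exact hf2 w h1 w' h2 hne

/-- The degree condition gives the perfect matchings (graph case). -/
theorem pm_of_deg (S : Finset V) (K : Finset (Sym2 V)) (hK : K ⊆ edg S) (T : ℕ)
    (heven : Even S.card) (hdeg : ∀ a ∈ S, S.card + 2 * T ≤ 2 * deg K a)
    (F : Finset (Sym2 V)) (hF : F ⊆ K) (hFK : ∀ a ∈ S, deg (K \ F) a ≤ T) :
    ∃ f, PMOn S F f := by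
  classical
  obtain ⟨f, hf1, hf2, hf3⟩ := perfMatch S (fun a b => s(a, b) ∈ F)
    (fun a b h => by rw [Sym2.eq_swap]; exact h)
    (fun a h => (mem_edg.1 (hK (hF h))).2 (Sym2.mk_isDiag_iff.2 rfl)) heven (by
      intro a ha
      have h1 := hdeg a ha
      have h2 := hFK a ha
      have h3 : deg K a ≤ deg F a + deg (K \ F) a := by
        have h4 := deg_sdiff_add hF a
        omega
      have h4 : deg F a ≤ (S.filter fun b => s(a, b) ∈ F).card := by
        refine Finset.card_le_card ?_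
        intro u hu
        rw [mem_nbr] at hu
        exact Finset.mem_filter.2 ⟨(mk_mem_edg.1 (hK (hF hu))).2.1, hu⟩
      omega)
  exact ⟨f, hf1, hf2, hf3⟩

/-- Assembly of the triangles `v a (f v a)`. -/
theorem dec_stars (W : Finset V) (D : V → Finset V) (K : V → Finset (Sym2 V))
    (hNL : ∀ v ∈ W, NL (K v)) (hDW : ∀ v ∈ W, ∀ w ∈ W, v ∉ D w) (f : V → V → V)
    (hf : ∀ v ∈ W, PMOn (D v) (K v) (f v))
    (hdis : ∀ v ∈ W, ∀ w ∈ W, v ≠ w →
      Disjoint (pmEdges (D v) (f v)) (pmEdges (D w) (f w))) :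
    Dec (W.biUnion fun v => star v (D v) ∪ pmEdges (D v) (f v)) := by
  refine Dec.biUnion W _ (fun v hv => dec_star_pm (hf v hv) (hNL v hv) (hDW v hv v hv)) ?_
  intro v hv w hw hne
  rw [Finset.disjoint_union_left, Finset.disjoint_union_right, Finset.disjoint_union_right]
  refine ⟨⟨?_, ?_⟩, ?_, hdis v hv w hw hne⟩
  · rw [Finset.disjoint_left]
    intro e he1 he2
    obtain ⟨a, ha, rfl⟩ := mem_star.1 he1
    obtain ⟨b, hb, hbe⟩ := mem_star.1 he2
    rcases Sym2.eq_iff.1 hbe with ⟨h, _⟩ | ⟨h, _⟩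
    · exact hne h.symm
    · exact hDW w hw v hv (h ▸ ha)
  · rw [Finset.disjoint_left]
    intro e he1 he2
    obtain ⟨a, ha, rfl⟩ := mem_star.1 he1
    exact hDW v hv w hw (pmEdges_eq (hf w hw).1 (fun _ hb => (hf w hw).mem hb) he2).1
  · rw [Finset.disjoint_left]
    intro e he1 he2
    obtain ⟨a, ha, rfl⟩ := mem_star.1 he2
    exact hDW w hw v hv (pmEdges_eq (hf v hv).1 (fun _ hb => (hf v hv).mem hb) he1).1

/-- The degrees in the union of the matchings. -/
theorem deg_matchings_le (W : Finset V) (D : V → Finset V) (K : V → Finset (Sym2 V))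
    (f : V → V → V) (hf : ∀ v ∈ W, PMOn (D v) (K v) (f v)) (u : V) :
    deg (W.biUnion fun v => pmEdges (D v) (f v)) u ≤ (W.filter fun v => u ∈ D v).card := by
  classical
  unfold deg
  have h1 : ∀ x ∈ nbr (W.biUnion fun v => pmEdges (D v) (f v)) u,
      ∃ w ∈ W, s(u, x) ∈ pmEdges (D w) (f w) := by
    intro x hx
    exact Finset.mem_biUnion.1 (mem_nbr.1 hx)
  choose! w hw1 hw2 using h1
  refine Finset.card_le_card_of_injOn w ?_ ?_
  · intro x hx
    have h3 := hf _ (hw1 x hx)
    exact Finset.mem_coe.2 (Finset.mem_filter.2 ⟨hw1 x hx,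
      (pmEdges_eq h3.1 (fun _ hb => h3.mem hb) (hw2 x hx)).1⟩)
  · intro x hx y hy hxy
    have h3 := hw2 x hx
    have h4 := hw2 y hy
    rw [← hxy] at h4
    have h5 := hf _ (hw1 x hx)
    rw [(pmEdges_eq h5.1 (fun _ hb => h5.mem hb) h3).2,
      (pmEdges_eq h5.1 (fun _ hb => h5.mem hb) h4).2]

/-- **The matching loop (graph case).** -/
theorem match_loop (W : Finset V) (D : V → Finset V) (K : V → Finset (Sym2 V)) (T : ℕ)
    (hK : ∀ v ∈ W, K v ⊆ edg (D v)) (hDW : ∀ v ∈ W, ∀ w ∈ W, v ∉ D w)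
    (hT : ∀ v ∈ W, (W.filter fun w => w ≠ v ∧ ¬ Disjoint (K v) (K w)).card ≤ T)
    (heven : ∀ v ∈ W, Even (D v).card)
    (hdeg : ∀ v ∈ W, ∀ a ∈ D v, (D v).card + 2 * T ≤ 2 * deg (K v) a) :
    ∃ M : V → Finset (Sym2 V), (∀ v ∈ W, M v ⊆ K v) ∧
      (∀ v ∈ W, ∀ a ∈ D v, deg (M v) a = 1) ∧
      (∀ v ∈ W, ∀ w ∈ W, v ≠ w → Disjoint (M v) (M w)) ∧
      (∀ u, deg (W.biUnion M) u ≤ (W.filter fun v => u ∈ D v).card) ∧
      Dec (W.biUnion fun v => star v (D v) ∪ M v) := by
  obtain ⟨f, hf1, hf2⟩ := match_loop_gen W D K T hT (fun v hv F hF hFK =>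
    pm_of_deg (D v) (K v) (hK v hv) T (heven v hv) (hdeg v hv) F hF hFK)
  exact ⟨fun v => pmEdges (D v) (f v), fun v hv => (hf1 v hv).sub,
    fun v hv a ha => deg_pmEdges_eq (hf1 v hv) ha, hf2,
    fun u => deg_matchings_le W D K f hf1 u,
    dec_stars W D K (fun v hv => (nl_edg _).mono (hK v hv)) hDW f hf1 hf2⟩

end NW
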