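import Pool.Agent.NW.Plane
import Pool.Agent.NW.Close
import Pool.Agent.NW.MatchLoop

/-!
# Project NW: the cover down, combinatorial core

The vertices of `U` are coloured by the points of a projective plane, the vertices `v` outside `U`
get a line `lam v`; the edges from `v` to the vertices of `U` whose colour lies on `lam v` are
reserved.  Given an approximate decomposition `P` of the graph without the reserved edges and
without the edges inside `U`, everything outside `U` can be covered.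
-/

set_option linter.unusedSectionVars false

namespace NW

open Finset

section Defs

variable {V : Type*} [DecidableEq V]

/-- the vertices of `U` of colour `p` -/
def cell (q : ℕ) (c : V → PlPoint q) (U : Finset V) (p : PlPoint q) : Finset V :=
  U.filter fun u => c u = p

/-- the vertices of `U` whose colour lies on the line `l` -/
def lineSet (q : ℕ) (c : V → PlPoint q) (U : Finset V) (l : PlLine q) : Finset V :=
  U.filter fun u => PlOn q (c u) l

/-- the reserved pairs -/
def resv (q : ℕ) (W U : Finset V) (c : V → PlPoint q) (lam : V → PlLine q) : Finset (Sym2 V) :=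
  W.biUnion fun v => star v (lineSet q c U (lam v))

theorem mem_cell {q : ℕ} {c : V → PlPoint q} {U : Finset V} {p : PlPoint q} {u : V} :
    u ∈ cell q c U p ↔ u ∈ U ∧ c u = p := by simp [cell]

theorem mem_lineSet {q : ℕ} {c : V → PlPoint q} {U : Finset V} {l : PlLine q} {u : V} :
    u ∈ lineSet q c U l ↔ u ∈ U ∧ PlOn q (c u) l := by simp [lineSet]

theorem cell_subset_lineSet {q : ℕ} {c : V → PlPoint q} {U : Finset V} {p : PlPoint q}
    {l : PlLine q} (h : PlOn q p l) : cell q c U p ⊆ lineSet q c U l := by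
  intro u hu
  rw [mem_cell] at hu
  exact mem_lineSet.2 ⟨hu.1, by rw [hu.2]; exact h⟩

/-- A reserved pair at a vertex `v` outside `U`. -/
theorem mem_resv_iff {q : ℕ} {W U : Finset V} (hWU : Disjoint W U) {c : V → PlPoint q}
    {lam : V → PlLine q} {v u : V} (hv : v ∈ W) :
    s(v, u) ∈ resv q W U c lam ↔ u ∈ lineSet q c U (lam v) := by
  unfold resv
  rw [Finset.mem_biUnion]
  constructor
  · rintro ⟨w, hw, hwu⟩
    obtain ⟨a, ha, hae⟩ := mem_star.1 hwu
    rcases Sym2.eq_iff.1 hae with ⟨h1, h2⟩ | ⟨h1, h2⟩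
    · subst h1; subst h2; exact ha
    · subst h2
      exact absurd (mem_lineSet.1 ha).1 (Finset.disjoint_left.1 hWU hv)
  · intro hu
    exact ⟨v, hv, mem_star.2 ⟨u, hu, rfl⟩⟩

theorem resv_cases {q : ℕ} {W U : Finset V} {c : V → PlPoint q} {lam : V → PlLine q}
    {e : Sym2 V} (he : e ∈ resv q W U c lam) :
    ∃ v ∈ W, ∃ u ∈ lineSet q c U (lam v), e = s(v, u) := by
  unfold resv at he
  obtain ⟨w, hw, hwu⟩ := Finset.mem_biUnion.1 he
  obtain ⟨a, ha, hae⟩ := mem_star.1 hwu
  exact ⟨w, hw, a, ha, hae.symm⟩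

end Defs

variable {V : Type*} [DecidableEq V] [Fintype V]

theorem deg_resv_left {q : ℕ} {W U : Finset V} (hWU : Disjoint W U) (c : V → PlPoint q)
    (lam : V → PlLine q) {v : V} (hv : v ∈ W) :
    deg (resv q W U c lam) v = (lineSet q c U (lam v)).card := by
  unfold deg
  congr 1
  ext u
  rw [mem_nbr, mem_resv_iff hWU hv]

theorem deg_resv_right {q : ℕ} [Fact q.Prime] {W U : Finset V} (hWU : Disjoint W U)
    (c : V → PlPoint q) (lam : V → PlLine q) {T : ℕ}
    (hT : ∀ l, (W.filter fun v => lam v = l).card ≤ T) {u : V} (hu : u ∈ U) :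
    deg (resv q W U c lam) u ≤ q * T := by
  classical
  have h1 : nbr (resv q W U c lam) u ⊆
      (Finset.univ.filter fun l => PlOn q (c u) l).biUnion fun l =>
        W.filter fun v => lam v = l := by
    intro v hv
    rw [mem_nbr] at hv
    obtain ⟨w, hw, a, ha, hae⟩ := resv_cases hv
    rcases Sym2.eq_iff.1 hae with ⟨h1, _⟩ | ⟨h1, h2⟩
    · exact absurd hu (h1 ▸ Finset.disjoint_left.1 hWU hw)
    · refine Finset.mem_biUnion.2 ⟨lam v, Finset.mem_filter.2 ⟨Finset.mem_univ _, ?_⟩,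
        Finset.mem_filter.2 ⟨h2 ▸ hw, rfl⟩⟩
      rw [h1, h2]
      exact (mem_lineSet.1 ha).2
  have h2 := Finset.card_le_card h1
  have h3 : ((Finset.univ.filter fun l => PlOn q (c u) l).biUnion fun l =>
      W.filter fun v => lam v = l).card ≤ (Finset.univ.filter fun l => PlOn q (c u) l).card * T :=
    Finset.card_biUnion_le_card_mul _ _ _ (fun l _ => hT l)
  rw [pl_lines_card] at h3
  exact h2.trans h3

/-- The number of vertices of `W` whose line passes through the colour of `u`. -/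
theorem card_lines_through {q : ℕ} [Fact q.Prime] {W : Finset V}
    (c : V → PlPoint q) (lam : V → PlLine q) {T : ℕ}
    (hT : ∀ l, (W.filter fun v => lam v = l).card ≤ T) (u : V) :
    (W.filter fun v => PlOn q (c u) (lam v)).card ≤ q * T := by
  classical
  have h1 : (W.filter fun v => PlOn q (c u) (lam v)) ⊆
      (Finset.univ.filter fun l => PlOn q (c u) l).biUnion fun l =>
        W.filter fun v => lam v = l := by
    intro v hv
    have hv' := Finset.mem_filter.1 hv
    exact Finset.mem_biUnion.2 ⟨lam v, Finset.mem_filter.2 ⟨Finset.mem_univ _, hv'.2⟩,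
      Finset.mem_filter.2 ⟨hv'.1, rfl⟩⟩
  have h2 := Finset.card_le_card h1
  have h3 : ((Finset.univ.filter fun l => PlOn q (c u) l).biUnion fun l =>
      W.filter fun v => lam v = l).card ≤ (Finset.univ.filter fun l => PlOn q (c u) l).card * T :=
    Finset.card_biUnion_le_card_mul _ _ _ (fun l _ => hT l)
  rw [pl_lines_card] at h3
  exact h2.trans h3

/-- The number of edges is at most the sum of the degrees over a vertex cover. -/
theorem card_le_of_deg {L : Finset (Sym2 V)} {X : Finset V} (hLX : L ⊆ X.sym2) {g : ℕ}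
    (hg : ∀ v ∈ X, deg L v ≤ g) : L.card ≤ g * X.card := by
  classical
  have h1 : L ⊆ X.biUnion fun v => (nbr L v).image fun u => s(v, u) := by
    intro e he
    induction e using Sym2.ind with
    | _ x y =>
      have hx : x ∈ X := (Finset.mk_mem_sym2_iff.1 (hLX he)).1
      exact Finset.mem_biUnion.2 ⟨x, hx, Finset.mem_image.2 ⟨y, mem_nbr.2 he, rfl⟩⟩
  have h2 := Finset.card_le_card h1
  have h3 : (X.biUnion fun v => (nbr L v).image fun u => s(v, u)).card ≤ X.card * g :=
    Finset.card_biUnion_le_card_mul _ _ _ (fun v hv => Finset.card_image_le.trans (hg v hv))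
  rw [mul_comm g]
  exact h2.trans h3

/-- **The combinatorial core of the cover down**, with an abstract perfect matching hypothesis
(used for graphs and for 3-partite graphs). -/
theorem cover_core_gen (q : ℕ) [Fact q.Prime] (G : Finset (Sym2 V)) (X U : Finset V) (hNL : NL G)
    (hGX : G ⊆ X.sym2) (hUX : U ⊆ X) (c : V → PlPoint q) (lam : V → PlLine q) (g B T cm : ℕ)
    (hB : 0 < B) (P : Finset (Sym2 V))
    (hP : P ⊆ G \ (U.sym2 ∪ resv q (X \ U) U c lam)) (hPdec : Dec P)
    (hPdeg : ∀ v ∈ X, deg ((G \ (U.sym2 ∪ resv q (X \ U) U c lam)) \ P) v ≤ g)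
    (hT : ∀ l, ((X \ U).filter fun v => lam v = l).card ≤ T)
    (hcell : ∀ p, (cell q c U p).card ≤ cm)
    (hcom : ∀ x ∈ X \ U, ∀ y, s(x, y) ∈ G → ∀ p,
      2 * g + 4 * B + g * X.card / B < (nbr G x ∩ nbr G y ∩ cell q c U p).card)
    (hpm : ∀ v ∈ X \ U, ∀ E' ⊆ G, Dec E' → ∀ D : Finset V, D = nbr G v \ nbr E' v →
      D ⊆ nbr G v ∩ lineSet q c U (lam v) →
      (nbr G v ∩ lineSet q c U (lam v)).card ≤ D.card + (g + 2 * B) →
      ∀ F ⊆ edg D, F ⊆ G →
      (∀ a ∈ D, (nbr G a ∩ D).card ≤ deg F a + (cm + (g + 2 * B) + T)) → ∃ f, PMOn D F f) :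
    ∃ D, D ⊆ G ∧ Dec D ∧ G \ D ⊆ U.sym2 ∧ ∀ v ∈ U, degIn D U v ≤ g + 2 * B + q * T := by
  classical
  set W : Finset V := X \ U with hW
  have hWU : Disjoint W U := Finset.sdiff_disjoint
  set R0 : Finset (Sym2 V) := resv q W U c lam with hR0
  set G' : Finset (Sym2 V) := G \ (U.sym2 ∪ R0) with hG'
  set L : Finset (Sym2 V) := G' \ P with hL
  set R : Finset (Sym2 V) := G ∩ R0 with hR
  set GU : Finset (Sym2 V) := G ∩ U.sym2 with hGU
  set M : Finset (Sym2 V) := R ∪ GU with hM
  have hG'G : G' ⊆ G := Finset.sdiff_subset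
  have hLG' : L ⊆ G' := Finset.sdiff_subset
  have hLG : L ⊆ G := hLG'.trans hG'G
  have hMG : M ⊆ G := Finset.union_subset Finset.inter_subset_left Finset.inter_subset_left
  have hG'M : Disjoint G' M := by
    rw [Finset.disjoint_left]
    intro e he1 he2
    have h1 := (Finset.mem_sdiff.1 he1).2
    rcases Finset.mem_union.1 he2 with h | h
    · exact h1 (Finset.mem_union_right _ (Finset.mem_inter.1 h).2)
    · exact h1 (Finset.mem_union_left _ (Finset.mem_inter.1 h).2)
  have hLM : Disjoint L M := Finset.disjoint_of_subset_left hLG' hG'M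
  have hRGU : Disjoint R GU := by
    rw [Finset.disjoint_left]
    intro e he1 he2
    obtain ⟨v, hv, u, hu, rfl⟩ := resv_cases (Finset.mem_inter.1 he1).2
    have h1 := (Finset.mk_mem_sym2_iff.1 (Finset.mem_inter.1 he2).2).1
    exact Finset.disjoint_left.1 hWU hv h1
  -- the neighbourhoods in `M`
  have hnbrW : ∀ v ∈ W, ∀ u, u ∈ nbr M v ↔ u ∈ nbr G v ∧ u ∈ lineSet q c U (lam v) := by
    intro v hv u
    rw [mem_nbr, mem_nbr, hM, Finset.mem_union, hR, hGU, Finset.mem_inter, Finset.mem_inter]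
    constructor
    · rintro (⟨h1, h2⟩ | ⟨_, h2⟩)
      · exact ⟨h1, (mem_resv_iff hWU hv).1 h2⟩
      · exact absurd (Finset.mk_mem_sym2_iff.1 h2).1 (Finset.disjoint_left.1 hWU hv)
    · rintro ⟨h1, h2⟩
      exact Or.inl ⟨h1, (mem_resv_iff hWU hv).2 h2⟩
  have hnbrU : ∀ v ∈ U, ∀ u ∈ U, u ∈ nbr G v → u ∈ nbr M v := by
    intro v hv u hu h
    rw [mem_nbr] at h ⊢
    exact Finset.mem_union_right _ (Finset.mem_inter.2 ⟨h, Finset.mk_mem_sym2_iff.2 ⟨hv, hu⟩⟩)
  -- greedy closing of the leftover edges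
  have hLX : L ⊆ X.sym2 := hLG.trans hGX
  have hLcard : L.card ≤ g * X.card := card_le_of_deg hLX hPdeg
  have hclose : ∀ x y, s(x, y) ∈ L → x ∈ W →
      deg L x + deg L y + 4 * B + L.card / B < (nbr M x ∩ nbr M y).card := by
    intro x y hxy hxW
    have hxX : x ∈ X := (Finset.mk_mem_sym2_iff.1 (hLX hxy)).1
    have hyX : y ∈ X := (Finset.mk_mem_sym2_iff.1 (hLX hxy)).2
    have h1 := hPdeg x hxX
    have h2 := hPdeg y hyX
    have h3 : L.card / B ≤ g * X.card / B := Nat.div_le_div_right hLcard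
    obtain ⟨p, hp1, hp2⟩ : ∃ p, PlOn q p (lam x) ∧ (y ∈ W → PlOn q p (lam y)) := by
      obtain ⟨p, hp1, hp2⟩ := pl_meet q (lam x) (lam y)
      exact ⟨p, hp1, fun _ => hp2⟩
    have h4 := hcom x hxW y (hLG hxy) p
    have h5 : nbr G x ∩ nbr G y ∩ cell q c U p ⊆ nbr M x ∩ nbr M y := by
      intro u hu
      rw [Finset.mem_inter, Finset.mem_inter] at hu
      rw [Finset.mem_inter]
      refine ⟨(hnbrW x hxW u).2 ⟨hu.1.1, cell_subset_lineSet hp1 hu.2⟩, ?_⟩
      by_cases hy : y ∈ W
      · exact (hnbrW y hy u).2 ⟨hu.1.2, cell_subset_lineSet (hp2 hy) hu.2⟩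
      · have hyU : y ∈ U := by
          by_contra hc
          exact hy (Finset.mem_sdiff.2 ⟨hyX, hc⟩)
        exact hnbrU y hyU u (mem_cell.1 hu.2).1 hu.1.2
    have h6 := Finset.card_le_card h5
    omega
  have hLW : ∀ x y, s(x, y) ∈ L → x ∈ W ∨ y ∈ W := by
    intro x y hxy
    by_contra hc
    push Not at hc
    have hxX : x ∈ X := (Finset.mk_mem_sym2_iff.1 (hLX hxy)).1
    have hyX : y ∈ X := (Finset.mk_mem_sym2_iff.1 (hLX hxy)).2
    have hxU : x ∈ U := by
      by_contra h; exact hc.1 (Finset.mem_sdiff.2 ⟨hxX, h⟩)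
    have hyU : y ∈ U := by
      by_contra h; exact hc.2 (Finset.mem_sdiff.2 ⟨hyX, h⟩)
    have h1 := (Finset.mem_sdiff.1 (hLG' hxy)).2
    exact h1 (Finset.mem_union_left _ (Finset.mk_mem_sym2_iff.2 ⟨hxU, hyU⟩))
  obtain ⟨F, hFM, hFdec, hFdeg⟩ := close_edges L M hLM (hNL.mono hLG) (hNL.mono hMG) B hB (by
    intro x y hxy
    rcases hLW x y hxy with h | h
    · exact hclose x y hxy h
    · have h1 := hclose y x (by rw [Sym2.eq_swap]; exact hxy) h
      rw [Finset.inter_comm]
      omega)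
  have hFdeg' : ∀ v ∈ X, deg F v ≤ g + 2 * B := by
    intro v hv
    have h1 := hFdeg v
    have h2 := hPdeg v hv
    omega
  have hWX : W ⊆ X := Finset.sdiff_subset
  -- the sets to be matched
  set Dv : V → Finset V := fun v => nbr (R \ F) v with hDv
  have hDvmem : ∀ v ∈ W, ∀ u, u ∈ Dv v ↔
      u ∈ nbr G v ∧ u ∈ lineSet q c U (lam v) ∧ s(v, u) ∉ F := by
    intro v hv u
    rw [hDv, mem_nbr, Finset.mem_sdiff, hR, Finset.mem_inter, mem_resv_iff hWU hv, mem_nbr]
    tauto
  have hDvU : ∀ v ∈ W, Dv v ⊆ U := by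
    intro v hv u hu
    exact (mem_lineSet.1 ((hDvmem v hv u).1 hu).2.1).1
  set K : V → Finset (Sym2 V) := fun v =>
    ((GU \ F) ∩ edg (Dv v)) \ (Finset.univ.filter fun e : Sym2 V => (e.map c).IsDiag) with hK
  have hKmem : ∀ v a b, s(a, b) ∈ K v ↔
      s(a, b) ∈ GU ∧ s(a, b) ∉ F ∧ a ∈ Dv v ∧ b ∈ Dv v ∧ a ≠ b ∧ c a ≠ c b := by
    intro v a b
    rw [hK, Finset.mem_sdiff, Finset.mem_inter, Finset.mem_sdiff, mk_mem_edg, Finset.mem_filter]
    simp only [Finset.mem_univ, true_and, Sym2.map_mk, Sym2.mk_isDiag_iff]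
    tauto
  have hKedg : ∀ v ∈ W, K v ⊆ edg (Dv v) := fun v _ =>
    Finset.sdiff_subset.trans Finset.inter_subset_right
  have hDvW : ∀ v ∈ W, ∀ w ∈ W, v ∉ Dv w := fun v hv w hw h =>
    Finset.disjoint_left.1 hWU hv (hDvU w hw h)
  have hTcount : ∀ v ∈ W, (W.filter fun w => w ≠ v ∧ ¬ Disjoint (K v) (K w)).card ≤ T := by
    intro v hv
    refine (Finset.card_le_card ?_).trans (hT (lam v))
    intro w hw
    obtain ⟨hwW, hne, hnd⟩ := Finset.mem_filter.1 hw
    refine Finset.mem_filter.2 ⟨hwW, ?_⟩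
    rw [Finset.not_disjoint_iff] at hnd
    obtain ⟨e, he1, he2⟩ := hnd
    induction e using Sym2.ind with
    | _ a b =>
      have h1 := (hKmem v a b).1 he1
      have h2 := (hKmem w a b).1 he2
      have ha1 := (mem_lineSet.1 ((hDvmem v hv a).1 h1.2.2.1).2.1).2
      have hb1 := (mem_lineSet.1 ((hDvmem v hv b).1 h1.2.2.2.1).2.1).2
      have ha2 := (mem_lineSet.1 ((hDvmem w hwW a).1 h2.2.2.1).2.1).2
      have hb2 := (mem_lineSet.1 ((hDvmem w hwW b).1 h2.2.2.2.1).2.1).2
      exact pl_unique q h1.2.2.2.2.2 ha2 hb2 ha1 hb1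
  -- the edges at `v` are those of `P`, `L ∪ F` and `R \ F`
  have hnbrE : ∀ v ∈ W, Dv v = nbr G v \ nbr (P ∪ (L ∪ F)) v := by
    intro v hv
    ext u
    rw [Finset.mem_sdiff, hDvmem v hv u, mem_nbr, mem_nbr, Finset.mem_union, Finset.mem_union]
    constructor
    · rintro ⟨h1, h2, h3⟩
      have h6 : s(v, u) ∈ M := mem_nbr.1 ((hnbrW v hv u).2 ⟨mem_nbr.2 h1, h2⟩)
      refine ⟨h1, ?_⟩
      rintro (h | h | h)
      · exact Finset.disjoint_left.1 hG'M (hP h) h6
      · exact Finset.disjoint_left.1 hLM h h6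
      · exact h3 h
    · rintro ⟨hu, h⟩
      push Not at h
      obtain ⟨h5, h5', h7⟩ := h
      refine ⟨hu, ?_, h7⟩
      have h6 : s(v, u) ∉ G' := fun h6 => h5' (Finset.mem_sdiff.2 ⟨h6, h5⟩)
      have h8 : s(v, u) ∈ U.sym2 ∪ R0 := by
        by_contra hc
        exact h6 (Finset.mem_sdiff.2 ⟨hu, hc⟩)
      rcases Finset.mem_union.1 h8 with h | h
      · exact absurd (Finset.mk_mem_sym2_iff.1 h).1 (Finset.disjoint_left.1 hWU hv)
      · exact (mem_resv_iff hWU hv).1 h
  have hPLF : Dec (P ∪ (L ∪ F)) := by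
    refine Dec.union hPdec hFdec ?_
    rw [Finset.disjoint_left]
    intro e he1 he2
    rcases Finset.mem_union.1 he2 with h | h
    · exact (Finset.mem_sdiff.1 h).2 he1
    · exact Finset.disjoint_left.1 hG'M (hP he1) (hFM h)
  have hPLFG : P ∪ (L ∪ F) ⊆ G := Finset.union_subset (hP.trans hG'G)
    (Finset.union_subset hLG (hFM.trans hMG))
  obtain ⟨fm, hfm1, hMtdis⟩ := match_loop_gen W Dv K T hTcount (by
    intro v hv F' hF' hF'deg
    refine hpm v hv (P ∪ (L ∪ F)) hPLFG hPLF (Dv v) (hnbrE v hv) ?_ ?_ F'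
      (hF'.trans (hKedg v hv)) ?_ ?_
    · intro u hu
      have hu' := (hDvmem v hv u).1 hu
      exact Finset.mem_inter.2 ⟨hu'.1, hu'.2.1⟩
    · have h1 : nbr G v ∩ lineSet q c U (lam v) ⊆ Dv v ∪ nbr F v := by
        intro u hu
        rw [Finset.mem_inter] at hu
        by_cases h5 : s(v, u) ∈ F
        · exact Finset.mem_union_right _ (mem_nbr.2 h5)
        · exact Finset.mem_union_left _ ((hDvmem v hv u).2 ⟨hu.1, hu.2, h5⟩)
      have h2 := Finset.card_le_card h1
      have h3 := Finset.card_union_le (Dv v) (nbr F v)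
      have h4 := hFdeg' v (hWX hv)
      unfold deg at h4
      omega
    · intro e he
      induction e using Sym2.ind with
      | _ a b =>
        exact (Finset.mem_inter.1 ((hKmem v a b).1 (hF' he)).1).1
    · intro a ha
      have haU : a ∈ U := hDvU v hv ha
      have h3 : nbr G a ∩ Dv v ⊆ nbr (K v) a ∪ (cell q c U (c a) ∪ nbr F a) := by
        intro b hb
        rw [Finset.mem_inter] at hb
        obtain ⟨hba, hbD⟩ := hb
        have hbU : b ∈ U := hDvU v hv hbD
        by_cases h4 : c a = c b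
        · exact Finset.mem_union_right _ (Finset.mem_union_left _ (mem_cell.2 ⟨hbU, h4.symm⟩))
        by_cases h6 : s(a, b) ∈ F
        · exact Finset.mem_union_right _ (Finset.mem_union_right _ (mem_nbr.2 h6))
        refine Finset.mem_union_left _ (mem_nbr.2 ((hKmem v a b).2 ⟨?_, h6, ha, hbD, ?_, h4⟩))
        · exact Finset.mem_inter.2 ⟨mem_nbr.1 hba, Finset.mk_mem_sym2_iff.2 ⟨haU, hbU⟩⟩
        · exact fun h => h4 (congrArg c h)
      have h4 := Finset.card_le_card h3
      have h5 := Finset.card_union_le (nbr (K v) a) (cell q c U (c a) ∪ nbr F a)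
      have h6 := Finset.card_union_le (cell q c U (c a)) (nbr F a)
      have h8 := hcell (c a)
      have h10 := hFdeg' a (hUX haU)
      have h11 := deg_sdiff_add hF' a
      have h12 := hF'deg a ha
      unfold deg at h10 h11 h12 ⊢
      omega)
  set Mt : V → Finset (Sym2 V) := fun v => pmEdges (Dv v) (fm v) with hMt
  have hMtK : ∀ v ∈ W, Mt v ⊆ K v := fun v hv => (hfm1 v hv).sub
  have hMtdeg : ∀ u, deg (W.biUnion Mt) u ≤ (W.filter fun v => u ∈ Dv v).card :=
    deg_matchings_le W Dv K fm hfm1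
  have hMtdec : Dec (W.biUnion fun v => star v (Dv v) ∪ Mt v) :=
    dec_stars W Dv K (fun v hv => (nl_edg _).mono (hKedg v hv)) hDvW fm hfm1 hMtdis
  set H3 : Finset (Sym2 V) := W.biUnion fun v => star v (Dv v) ∪ Mt v with hH3
  -- `H3` consists of unused edges of `M`
  have hH3sub : H3 ⊆ M \ F := by
    intro e he
    obtain ⟨v, hv, hev⟩ := Finset.mem_biUnion.1 he
    rcases Finset.mem_union.1 hev with h | h
    · obtain ⟨u, hu, rfl⟩ := mem_star.1 h
      have hu' := (hDvmem v hv u).1 hu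
      exact Finset.mem_sdiff.2 ⟨mem_nbr.1 ((hnbrW v hv u).2 ⟨hu'.1, hu'.2.1⟩), hu'.2.2⟩
    · have h1 := hMtK v hv h
      rw [hK, Finset.mem_sdiff, Finset.mem_inter, Finset.mem_sdiff] at h1
      exact Finset.mem_sdiff.2 ⟨Finset.mem_union_right _ h1.1.1.1, h1.1.1.2⟩
  refine ⟨P ∪ ((L ∪ F) ∪ H3), ?_, ?_, ?_, ?_⟩
  · refine Finset.union_subset (hP.trans hG'G) (Finset.union_subset
      (Finset.union_subset hLG (hFM.trans hMG)) ?_)
    exact (hH3sub.trans Finset.sdiff_subset).trans hMG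
  · refine Dec.union hPdec (Dec.union hFdec hMtdec ?_) ?_
    · rw [Finset.disjoint_left]
      intro e he1 he2
      have h1 := Finset.mem_sdiff.1 (hH3sub he2)
      rcases Finset.mem_union.1 he1 with h | h
      · exact Finset.disjoint_left.1 hLM h h1.1
      · exact h1.2 h
    · rw [Finset.disjoint_left]
      intro e he1 he2
      rcases Finset.mem_union.1 he2 with h | h
      · rcases Finset.mem_union.1 h with h | h
        · exact (Finset.mem_sdiff.1 h).2 he1
        · exact Finset.disjoint_left.1 hG'M (hP he1) (hFM h)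
      · exact Finset.disjoint_left.1 hG'M (hP he1) (Finset.mem_sdiff.1 (hH3sub h)).1
  · intro e he
    obtain ⟨heG, heD⟩ := Finset.mem_sdiff.1 he
    by_contra heU
    apply heD
    by_cases h1 : e ∈ P
    · exact Finset.mem_union_left _ h1
    by_cases h2 : e ∈ G'
    · exact Finset.mem_union_right _ (Finset.mem_union_left _
        (Finset.mem_union_left _ (Finset.mem_sdiff.2 ⟨h2, h1⟩)))
    by_cases h3 : e ∈ F
    · exact Finset.mem_union_right _ (Finset.mem_union_left _ (Finset.mem_union_right _ h3))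
    have h4 : e ∈ R0 := by
      have h5 : e ∈ U.sym2 ∪ R0 := by
        by_contra hc
        exact h2 (Finset.mem_sdiff.2 ⟨heG, hc⟩)
      rcases Finset.mem_union.1 h5 with h | h
      · exact absurd h heU
      · exact h
    obtain ⟨v, hv, u, hu, rfl⟩ := resv_cases h4
    refine Finset.mem_union_right _ (Finset.mem_union_right _ (Finset.mem_biUnion.2 ⟨v, hv, ?_⟩))
    exact Finset.mem_union_left _ (mem_star.2 ⟨u, (hDvmem v hv u).2
      ⟨mem_nbr.2 heG, hu, h3⟩, rfl⟩)
  · intro v hv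
    have h1 : nbr (P ∪ ((L ∪ F) ∪ H3)) v ∩ U ⊆
        nbr F v ∪ nbr (W.biUnion Mt) v := by
      intro u hu
      rw [Finset.mem_inter, mem_nbr, Finset.mem_union, Finset.mem_union, Finset.mem_union] at hu
      obtain ⟨hu1, huU⟩ := hu
      have hvuU : s(v, u) ∈ U.sym2 := Finset.mk_mem_sym2_iff.2 ⟨hv, huU⟩
      have hnotG' : s(v, u) ∉ G' := fun h =>
        (Finset.mem_sdiff.1 h).2 (Finset.mem_union_left _ hvuU)
      rcases hu1 with h | (h | h) | h
      · exact absurd (hP h) hnotG'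
      · exact absurd (hLG' h) hnotG'
      · exact Finset.mem_union_left _ (mem_nbr.2 h)
      · obtain ⟨w, hw, hew⟩ := Finset.mem_biUnion.1 h
        rcases Finset.mem_union.1 hew with h5 | h5
        · obtain ⟨a, ha, hae⟩ := mem_star.1 h5
          have hwU : w ∈ U := by
            rcases Sym2.eq_iff.1 hae with ⟨h6, _⟩ | ⟨h6, _⟩
            · rw [h6]; exact hv
            · rw [h6]; exact huU
          exact absurd hwU (Finset.disjoint_left.1 hWU hw)
        · exact Finset.mem_union_right _ (mem_nbr.2 (Finset.mem_biUnion.2 ⟨w, hw, h5⟩))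
    have h2 := Finset.card_le_card h1
    have h3 := Finset.card_union_le (nbr F v) (nbr (W.biUnion Mt) v)
    have h4 := hFdeg' v (hUX hv)
    have h5 := hMtdeg v
    have h6 : (W.filter fun w => v ∈ Dv w).card ≤ q * T := by
      refine le_trans (Finset.card_le_card ?_) (card_lines_through c lam hT v)
      intro w hw
      obtain ⟨hwW, hvw⟩ := Finset.mem_filter.1 hw
      exact Finset.mem_filter.2 ⟨hwW, (mem_lineSet.1 ((hDvmem w hwW v).1 hvw).2.1).2⟩
    unfold degIn
    unfold deg at h4 h5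
    omega

/-- **The combinatorial core of the cover down (graph case).** -/
theorem cover_core (q : ℕ) [Fact q.Prime] (G : Finset (Sym2 V)) (X U : Finset V) (hNL : NL G)
    (hGX : G ⊆ X.sym2) (hUX : U ⊆ X) (c : V → PlPoint q) (lam : V → PlLine q) (g B T cm : ℕ)
    (hB : 0 < B) (P : Finset (Sym2 V))
    (hP : P ⊆ G \ (U.sym2 ∪ resv q (X \ U) U c lam)) (hPdec : Dec P)
    (hPdeg : ∀ v ∈ X, deg ((G \ (U.sym2 ∪ resv q (X \ U) U c lam)) \ P) v ≤ g)
    (hT : ∀ l, ((X \ U).filter fun v => lam v = l).card ≤ T)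
    (hcell : ∀ p, (cell q c U p).card ≤ cm)
    (hcom : ∀ x ∈ X, ∀ y ∈ X, ∀ p,
      2 * g + 4 * B + g * X.card / B < (nbr G x ∩ nbr G y ∩ cell q c U p).card)
    (hline : ∀ v ∈ X \ U, ∀ a ∈ U,
      (nbr G v ∩ lineSet q c U (lam v)).card + 2 * T + 2 * cm + 4 * (g + 2 * B) ≤
        2 * (nbr G v ∩ nbr G a ∩ lineSet q c U (lam v)).card)
    (heven : ∀ v ∈ X \ U, Even (deg G v)) :
    ∃ D, D ⊆ G ∧ Dec D ∧ G \ D ⊆ U.sym2 ∧ ∀ v ∈ U, degIn D U v ≤ g + 2 * B + q * T := by
  classical
  refine cover_core_gen q G X U hNL hGX hUX c lam g B T cm hB P hP hPdec hPdeg hT hcell ?_ ?_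
  · intro x hx y hxy p
    exact hcom x (Finset.mem_sdiff.1 hx).1 y (Finset.mk_mem_sym2_iff.1 (hGX hxy)).2 p
  · intro v hv E' hE' hdec D hD hDl hDc F hF hFG hFdeg
    refine pm_of_deg D F hF 0 ?_ ?_ F subset_rfl (by
      intro a _
      rw [Finset.sdiff_self]
      simp [deg, nbr])
    · have h1 := heven v hv
      have h2 := hdec.even_deg v
      have h3 : D.card + deg E' v = deg G v := by
        rw [hD]
        unfold deg
        rw [Finset.card_sdiff_of_subset (nbr_mono hE' v)]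
        exact Nat.sub_add_cancel (Finset.card_le_card (nbr_mono hE' v))
      obtain ⟨a, ha⟩ := h1
      obtain ⟨b, hb⟩ := h2
      exact ⟨a - b, by omega⟩
    · intro a ha
      have haU : a ∈ U := (mem_lineSet.1 (Finset.mem_inter.1 (hDl ha)).2).1
      have h1 := hline v hv a haU
      have h2 := hFdeg a ha
      have h3 : (nbr G v ∩ nbr G a ∩ lineSet q c U (lam v)).card ≤
          (nbr G a ∩ D).card + (g + 2 * B) := by
        have h4 : nbr G v ∩ nbr G a ∩ lineSet q c U (lam v) ⊆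
            (nbr G a ∩ D) ∪ ((nbr G v ∩ lineSet q c U (lam v)) \ D) := by
          intro b hb
          rw [Finset.mem_inter, Finset.mem_inter] at hb
          by_cases h5 : b ∈ D
          · exact Finset.mem_union_left _ (Finset.mem_inter.2 ⟨hb.1.2, h5⟩)
          · exact Finset.mem_union_right _ (Finset.mem_sdiff.2
              ⟨Finset.mem_inter.2 ⟨hb.1.1, hb.2⟩, h5⟩)
        have h5 := Finset.card_le_card h4
        have h6 := Finset.card_union_le (nbr G a ∩ D) ((nbr G v ∩ lineSet q c U (lam v)) \ D)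
        have h7 := Finset.card_sdiff_add_card_eq_card hDl
        omega
      have h4 := Finset.card_le_card hDl
      omega

end NW
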