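import Pool.Agent.NW.Defs
import Pool.Agent.NW.Conc

/-!
# Project NW, part N3: sampling and vortices
-/

set_option linter.unusedSectionVars false

namespace NW

open Finset NWC

/-- **Sampling lemma.** There is a set `Y` that meets every set of a family in about the expected
number of points. -/
theorem sample {V ι : Type*} [Fintype V] [DecidableEq V] (S : Finset ι) (F : ι → Finset V)
    (ξ : ℝ) (h0 : 0 ≤ ξ) (h1 : ξ ≤ 1) (N : ℝ) (hN : 0 < N) (hF : ∀ j ∈ S, ((F j).card : ℝ) ≤ N)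
    (x : ℝ) (hx : 0 ≤ x) (h : (S.card : ℝ) * (2 * Real.exp (-(x ^ 2 / (2 * N)))) < 1) :
    ∃ Y : Finset V, ∀ j ∈ S, |((F j ∩ Y).card : ℝ) - ξ * (F j).card| < x := by
  classical
  have hp : ∀ _ : V, PW (coinW ξ) := fun _ => pw_coin h0 h1
  have hex : Ex (coinW ξ) (fun b : Bool => if b then (1 : ℝ) else 0) = ξ := by
    simp [Ex, coinW]
  obtain ⟨ω, _, hω⟩ := exists_avoid_card (pw_prod (A := fun _ : V => Bool)
    (p := fun _ => coinW ξ) hp) S
    (fun j ω => ((∑ i ∈ F j, Ex (coinW ξ) (fun b : Bool => if b then (1 : ℝ) else 0)) + x ≤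
        ∑ i ∈ F j, (if ω i then (1 : ℝ) else 0)) ∨
      (∑ i ∈ F j, (if ω i then (1 : ℝ) else 0) ≤
        (∑ i ∈ F j, Ex (coinW ξ) (fun b : Bool => if b then (1 : ℝ) else 0)) - x))
    (2 * Real.exp (-(x ^ 2 / (2 * N)))) (by
      intro j hj
      refine (pr_or (pw_prod hp) _ _).trans ?_
      have h1 := hoeffding_upper (p := fun _ : V => coinW ξ) hp (F j)
        (fun _ b => if b then (1 : ℝ) else 0) (fun _ b => by split_ifs <;> norm_num)
        (fun _ b => by split_ifs <;> norm_num) N hN (hF j hj) x hx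
      have h2 := hoeffding_lower (p := fun _ : V => coinW ξ) hp (F j)
        (fun _ b => if b then (1 : ℝ) else 0) (fun _ b => by split_ifs <;> norm_num)
        (fun _ b => by split_ifs <;> norm_num) N hN (hF j hj) x hx
      linarith) h
  refine ⟨univ.filter (fun v => ω v = true), fun j hj => ?_⟩
  have h2 := hω j hj
  rw [not_or, not_le, not_le, hex] at h2
  have h3 : ∑ i ∈ F j, (if ω i then (1 : ℝ) else 0) =
      ((F j ∩ univ.filter (fun v => ω v = true)).card : ℝ) := by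
    rw [Finset.sum_ite, Finset.sum_const_zero, add_zero, Finset.sum_const, nsmul_eq_mul, mul_one]
    congr 2
    ext v
    simp
  rw [h3, Finset.sum_const, nsmul_eq_mul] at h2
  rw [abs_lt]
  constructor <;> linarith [h2.1, h2.2]

/-- **One step.** `X j` (`j` in a finite index set) are sets of size `N`; sets `Y j ⊆ X j` of size
`⌊ξ N⌋` in which all vertices have nearly the same density as in `X j`. -/
theorem vortex_step {V κ : Type*} [Fintype V] [DecidableEq V] [Fintype κ] [DecidableEq κ]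
    (E : Finset (Sym2 V)) (ξ : ℝ) (h0 : 0 ≤ ξ) (h1 : ξ ≤ 1) (N : ℕ) (hN : 0 < N)
    (X : κ → Finset V) (hX : ∀ j, (X j).card = N) (x : ℝ) (hx : 0 ≤ x)
    (h : ((Fintype.card κ : ℝ) * (Fintype.card κ * N + 1)) *
      (2 * Real.exp (-(x ^ 2 / (2 * (N : ℝ))))) < 1) :
    ∃ Y : κ → Finset V, (∀ j, Y j ⊆ X j) ∧ (∀ j, (Y j).card = ⌊ξ * N⌋₊) ∧
      ∀ j, ∀ k, ∀ v ∈ X k, ξ * degIn E (X j) v - 2 * x - 1 ≤ (degIn E (Y j) v : ℝ) := by
  classical
  -- the test sets
  set W : Finset V := univ.biUnion X with hW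
  have hWcard : (W.card : ℝ) ≤ Fintype.card κ * N := by
    have : W.card ≤ ∑ j : κ, (X j).card := Finset.card_biUnion_le
    simp only [hX, Finset.sum_const, Finset.card_univ, smul_eq_mul] at this
    exact_mod_cast this
  set S : Finset (κ × Option V) := univ ×ˢ (insertNone W) with hS
  have hScard : (S.card : ℝ) ≤ (Fintype.card κ : ℝ) * (Fintype.card κ * N + 1) := by
    rw [hS, Finset.card_product, Finset.card_insertNone, Finset.card_univ]
    push_cast
    exact mul_le_mul_of_nonneg_left (by linarith) (by positivity)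
  set F : κ × Option V → Finset V := fun q => match q.2 with
    | none => X q.1
    | some v => nbr E v ∩ X q.1 with hF
  have hNR : (0 : ℝ) < N := by exact_mod_cast hN
  obtain ⟨Y, hY⟩ := sample S F ξ h0 h1 (N : ℝ) hNR (by
    rintro ⟨j, _ | v⟩ _
    · simp only [hF, hX]; exact le_rfl
    · simp only [hF]
      rw [← hX j]
      exact_mod_cast Finset.card_le_card Finset.inter_subset_right) x hx (by
    refine lt_of_le_of_lt (mul_le_mul_of_nonneg_right hScard (by positivity)) h)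
  have hsz : ∀ j, |((X j ∩ Y).card : ℝ) - ξ * N| < x := by
    intro j
    have := hY (j, none) (by rw [hS]; simp)
    simpa only [hF, hX] using this
  have hdg : ∀ j, ∀ v ∈ W, |((nbr E v ∩ X j ∩ Y).card : ℝ) - ξ * degIn E (X j) v| < x := by
    intro j v hv
    have := hY (j, some v) (by rw [hS]; simp [hv])
    simpa only [hF, degIn] using this
  have hfl : ((⌊ξ * N⌋₊ : ℕ) : ℝ) ≤ ξ * N := Nat.floor_le (by positivity)
  have hfl2 : ξ * N < (⌊ξ * N⌋₊ : ℕ) + 1 := Nat.lt_floor_add_one _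
  have hflN : ⌊ξ * N⌋₊ ≤ N := by
    have : ((⌊ξ * N⌋₊ : ℕ) : ℝ) ≤ N := hfl.trans (by nlinarith)
    exact_mod_cast this
  have hex : ∀ j, ∃ Z : Finset V, Z ⊆ X j ∧ Z.card = ⌊ξ * N⌋₊ ∧
      ((X j ∩ Y) ⊆ Z ∨ Z ⊆ (X j ∩ Y)) := by
    intro j
    rcases le_total (X j ∩ Y).card ⌊ξ * N⌋₊ with hle | hle
    · obtain ⟨Z, hZ1, hZ2, hZ3⟩ := Finset.exists_subsuperset_card_eq
        (Finset.inter_subset_left : X j ∩ Y ⊆ X j) hle (by rw [hX j]; exact hflN)
      exact ⟨Z, hZ2, hZ3, Or.inl hZ1⟩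
    · obtain ⟨Z, hZ1, hZ2⟩ := Finset.exists_subset_card_eq hle
      exact ⟨Z, hZ1.trans Finset.inter_subset_left, hZ2, Or.inr hZ1⟩
  choose Z hZ1 hZ2 hZ3 using hex
  refine ⟨Z, hZ1, hZ2, fun j k v hv => ?_⟩
  have hvW : v ∈ W := by
    rw [hW]; exact Finset.mem_biUnion.2 ⟨k, Finset.mem_univ _, hv⟩
  have h3 := abs_lt.1 (hdg j v hvW)
  have h4 := abs_lt.1 (hsz j)
  have h5 : ((nbr E v ∩ X j ∩ Y).card : ℝ) ≤ degIn E (Z j) v + (x + 1) := by
    rcases hZ3 j with h6 | h6
    · have : (nbr E v ∩ X j ∩ Y).card ≤ degIn E (Z j) v := by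
        unfold degIn
        refine Finset.card_le_card ?_
        rw [Finset.inter_assoc]
        exact Finset.inter_subset_inter_left h6
      have : ((nbr E v ∩ X j ∩ Y).card : ℝ) ≤ degIn E (Z j) v := by exact_mod_cast this
      linarith
    · have : (nbr E v ∩ X j ∩ Y).card ≤ degIn E (Z j) v + ((X j ∩ Y) \ Z j).card := by
        unfold degIn
        refine le_trans (Finset.card_le_card (t := (nbr E v ∩ Z j) ∪ ((X j ∩ Y) \ Z j)) ?_)
          (Finset.card_union_le _ _)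
        intro u hu
        simp only [Finset.mem_inter] at hu
        by_cases huZ : u ∈ Z j
        · exact Finset.mem_union_left _ (Finset.mem_inter.2 ⟨hu.1.1, huZ⟩)
        · exact Finset.mem_union_right _ (Finset.mem_sdiff.2
            ⟨Finset.mem_inter.2 ⟨hu.1.2, hu.2⟩, huZ⟩)
      have h7 : ((X j ∩ Y) \ Z j).card + ⌊ξ * N⌋₊ = (X j ∩ Y).card := by
        rw [← hZ2 j]
        exact Finset.card_sdiff_add_card_eq_card h6
      have h8 : (((X j ∩ Y) \ Z j).card : ℝ) + (⌊ξ * N⌋₊ : ℕ) = (X j ∩ Y).card := by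
        exact_mod_cast h7
      have h9 : ((nbr E v ∩ X j ∩ Y).card : ℝ) ≤ degIn E (Z j) v + ((X j ∩ Y) \ Z j).card := by
        exact_mod_cast this
      linarith
  linarith

/-- the fourth root, as an iterated square root -/
noncomputable def qr (x : ℝ) : ℝ := √(√x)

theorem qr_nonneg (x : ℝ) : 0 ≤ qr x := Real.sqrt_nonneg _

theorem qr_pow {x : ℝ} (hx : 0 ≤ x) : qr x ^ 4 = x := by
  have h1 : qr x ^ 2 = √x := by
    unfold qr
    exact Real.sq_sqrt (Real.sqrt_nonneg _)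
  have h2 : √x ^ 2 = x := Real.sq_sqrt hx
  calc qr x ^ 4 = (qr x ^ 2) ^ 2 := by ring
    _ = x := by rw [h1, h2]

theorem qr_pos {x : ℝ} (hx : 0 < x) : 0 < qr x := Real.sqrt_pos.2 (Real.sqrt_pos.2 hx)

theorem qr_mono {x y : ℝ} (h : x ≤ y) : qr x ≤ qr y := Real.sqrt_le_sqrt (Real.sqrt_le_sqrt h)

/-- the fourth root drops by a factor when the argument is halved -/
theorem qr_half {x y : ℝ} (hx : 0 ≤ x) (hy : 0 ≤ y) (h : x ≤ y / 2) : qr x ≤ 17 / 20 * qr y := by
  by_contra hc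
  push Not at hc
  have h1 : (17 / 20 * qr y) ^ 4 < qr x ^ 4 :=
    pow_lt_pow_left₀ hc (by have := qr_nonneg y; positivity) (by norm_num)
  rw [mul_pow, qr_pow hx, qr_pow hy] at h1
  nlinarith

/-- the failure probability tends to zero -/
theorem exists_large (r : ℝ) (hr : 0 ≤ r) (c : ℝ) (hc : 0 < c) : ∃ N₀ : ℕ, 0 < N₀ ∧ ∀ N : ℕ, N₀ ≤ N →
    (r * (r * N + 1)) * (2 * Real.exp (-(c * √(N : ℝ)))) < 1 := by
  have h1 : Filter.Tendsto (fun y : ℝ => y ^ 2 * Real.exp (-(c * y))) Filter.atTop (nhds 0) := by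
    have h2 := Real.tendsto_pow_mul_exp_neg_atTop_nhds_zero 2
    have h3 : Filter.Tendsto (fun y : ℝ => c * y) Filter.atTop Filter.atTop :=
      Filter.tendsto_id.const_mul_atTop hc
    have h4 := (h2.comp h3).const_mul (1 / c ^ 2)
    rw [mul_zero] at h4
    refine h4.congr fun y => ?_
    simp only [Function.comp_apply, mul_pow]
    field_simp
  have h2 : Filter.Tendsto (fun N : ℕ => √(N : ℝ)) Filter.atTop Filter.atTop :=
    Real.tendsto_sqrt_atTop.comp tendsto_natCast_atTop_atTop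
  have h3 := (h1.comp h2).const_mul (2 * r * (r + 1))
  rw [mul_zero] at h3
  have h4 := h3.eventually (gt_mem_nhds (show (0 : ℝ) < 1 by norm_num))
  obtain ⟨N₀, hN₀⟩ := Filter.eventually_atTop.1 h4
  refine ⟨max N₀ 1, by positivity, fun N hN => ?_⟩
  have h5 := hN₀ N (le_trans (le_max_left _ _) hN)
  have h6 : (1 : ℝ) ≤ N := by exact_mod_cast le_trans (le_max_right _ _) hN
  simp only [Function.comp_apply] at h5
  rw [Real.sq_sqrt (by positivity)] at h5
  refine lt_of_le_of_lt ?_ h5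
  have h7 : 0 < Real.exp (-(c * √(N : ℝ))) := Real.exp_pos _
  have h8 : r * (r * N + 1) ≤ r * (r + 1) * N := by nlinarith
  have := mul_le_mul_of_nonneg_right h8 h7.le
  nlinarith

/-- **Vortex, general form.** `κ` is the index set of the parts (one part in the case of all graphs,
three parts in the 3-partite case), `R v j` says that the density of the neighbourhood of `v` in
the part `j` matters. -/
theorem vortex_gen (κ : Type) [Fintype κ] [DecidableEq κ] (ξ ε : ℝ) (hξ : 0 < ξ) (hξ1 : ξ ≤ 1 / 2)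
    (hε : 0 < ε) : ∃ M₀ : ℕ, ∀ M : ℕ, M₀ ≤ M → ∀ (V : Type) [Fintype V] [DecidableEq V]
      (E : Finset (Sym2 V)) (R : V → κ → Prop) (δ : ℝ), 0 ≤ δ → ∀ (N : ℕ) (X : κ → Finset V),
      M ≤ N → (∀ j, (X j).card = N) →
      (∀ k, ∀ v ∈ X k, ∀ j, R v j → (δ + ε) * N ≤ degIn E (X j) v) →
      ∃ (ℓ : ℕ) (U : ℕ → κ → Finset V) (m : ℕ → ℕ), U 0 = X ∧ m 0 = N ∧
        (∀ i j, (U i j).card = m i) ∧ (∀ i j, U (i + 1) j ⊆ U i j) ∧
        (∀ i < ℓ, m (i + 1) = ⌊ξ * m i⌋₊ ∧ ∀ k, ∀ v ∈ U i k, ∀ j, R v j →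
          δ * m (i + 1) ≤ degIn E (U (i + 1) j) v) ∧
        M ≤ m ℓ ∧ ⌊ξ * m ℓ⌋₊ < M := by
  obtain ⟨N₀, hN₀, hlarge⟩ := exists_large (Fintype.card κ : ℝ) (by positivity) (1 / 2) (by norm_num)
  set a : ℝ := 36 / ξ with ha
  have ha0 : 0 < a := by positivity
  have haξ : a * ξ = 36 := by rw [ha]; field_simp
  refine ⟨max N₀ (max ⌈(a / ε) ^ 4⌉₊ (max ⌈2 / ξ⌉₊ 1)), fun M hM V _ _ E R δ hδ => ?_⟩
  have hM1 : N₀ ≤ M := le_trans (le_max_left _ _) hM
  have hM2 : (a / ε) ^ 4 ≤ M := by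
    refine le_trans (Nat.le_ceil _) ?_
    exact_mod_cast le_trans (le_trans (le_max_left _ _) (le_max_right _ _)) hM
  have hM3 : 2 / ξ ≤ M := by
    refine le_trans (Nat.le_ceil _) ?_
    exact_mod_cast le_trans (le_trans (le_trans (le_max_left _ _) (le_max_right _ _))
      (le_max_right _ _)) hM
  have hM4 : 1 ≤ M := le_trans (le_trans (le_trans (le_max_right _ _) (le_max_right _ _))
      (le_max_right _ _)) hM
  -- facts about the fourth root
  have hq1 : ∀ N : ℕ, M ≤ N → 1 ≤ qr (N : ℝ) := by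
    intro N hN
    have : (1 : ℝ) ≤ N := by exact_mod_cast hM4.trans hN
    have h2 := qr_mono this
    have h3 : qr 1 = 1 := by simp [qr]
    rwa [h3] at h2
  have hqa : ∀ N : ℕ, M ≤ N → a / qr (N : ℝ) ≤ ε := by
    intro N hN
    have h1 : (a / ε) ^ 4 ≤ qr (N : ℝ) ^ 4 := by
      rw [qr_pow (by positivity)]
      exact hM2.trans (by exact_mod_cast hN)
    have h2 : a / ε ≤ qr (N : ℝ) := le_of_pow_le_pow_left₀ (by norm_num) (qr_nonneg _) h1
    have h3 := hq1 N hN
    rw [div_le_iff₀ (by linarith)]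
    rw [div_le_iff₀ hε] at h2
    linarith
  -- the induction
  suffices H : ∀ (N : ℕ), M ≤ N → ∀ (X : κ → Finset V), (∀ j, (X j).card = N) →
      (∀ k, ∀ v ∈ X k, ∀ j, R v j → (δ + ε - a / qr N) * N ≤ degIn E (X j) v) →
      ∃ (ℓ : ℕ) (U : ℕ → κ → Finset V) (m : ℕ → ℕ), U 0 = X ∧ m 0 = N ∧
        (∀ i j, (U i j).card = m i) ∧ (∀ i j, U (i + 1) j ⊆ U i j) ∧
        (∀ i < ℓ, m (i + 1) = ⌊ξ * m i⌋₊ ∧ ∀ k, ∀ v ∈ U i k, ∀ j, R v j →
          δ * m (i + 1) ≤ degIn E (U (i + 1) j) v) ∧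
        M ≤ m ℓ ∧ ⌊ξ * m ℓ⌋₊ < M by
    intro N X hMN hX hdeg
    refine H N hMN X hX fun k v hv j hvj => le_trans ?_ (hdeg k v hv j hvj)
    have h1 : 0 ≤ a / qr (N : ℝ) := div_nonneg ha0.le (qr_nonneg _)
    exact mul_le_mul_of_nonneg_right (by linarith) (by positivity)
  intro N
  induction N using Nat.strong_induction_on with
  | _ N ih =>
    intro hMN X hX hdeg
    by_cases hstop : ⌊ξ * N⌋₊ < M
    · exact ⟨0, fun _ => X, fun _ => N, rfl, rfl, fun _ j => hX j, fun _ _ => Finset.Subset.refl _,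
        fun i hi => absurd hi (Nat.not_lt_zero i), hMN, hstop⟩
    push Not at hstop
    have hNpos : 0 < N := lt_of_lt_of_le hM4 hMN
    have hNR : (0 : ℝ) < N := by exact_mod_cast hNpos
    set q : ℝ := qr N with hq
    have hq1' : 1 ≤ q := hq1 N hMN
    have hq4 : q ^ 4 = N := qr_pow hNR.le
    set m₁ : ℕ := ⌊ξ * N⌋₊ with hm₁
    have hfl : (m₁ : ℝ) ≤ ξ * N := Nat.floor_le (by positivity)
    have hfl2 : ξ * N < m₁ + 1 := Nat.lt_floor_add_one _
    have hm₁half : ξ * N / 2 ≤ m₁ := by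
      have h1 : 2 / ξ ≤ N := hM3.trans (by exact_mod_cast hMN)
      rw [div_le_iff₀ hξ] at h1
      linarith
    have hm₁N : m₁ < N := by
      have : (m₁ : ℝ) < N := by nlinarith
      exact_mod_cast this
    obtain ⟨Y, hYX, hYc, hYd⟩ := vortex_step E ξ hξ.le (by linarith) N hNpos X hX (q ^ 3)
      (by positivity) (by
        have h1 := hlarge N (hM1.trans hMN)
        have h2 : (q ^ 3) ^ 2 / (2 * (N : ℝ)) = 1 / 2 * √(N : ℝ) := by
          have h3 : q ^ 2 = √(N : ℝ) := by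
            rw [hq]; unfold qr; exact Real.sq_sqrt (Real.sqrt_nonneg _)
          rw [← h3, ← hq4]
          have : q ≠ 0 := by positivity
          field_simp
        rw [h2]
        exact h1)
    set q₁ : ℝ := qr (m₁ : ℝ) with hq₁
    have hq₁1 : 1 ≤ q₁ := hq1 m₁ hstop
    have hqq : q₁ ≤ 17 / 20 * q := qr_half (by positivity) hNR.le (by
      refine hfl.trans ?_
      nlinarith)
    have haq : a / q ≤ ε := hqa N hMN
    have haq₁ : a / q₁ ≤ ε := hqa m₁ hstop
    have haq0 : 0 ≤ a / q := by positivity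
    have hYd' : ∀ k, ∀ v ∈ X k, ∀ j, R v j → (δ + ε - a / q₁) * m₁ ≤ degIn E (Y j) v := by
      intro k v hv j hvj
      have h1 := hYd j k v hv
      have h2 := hdeg k v hv j hvj
      refine le_trans ?_ h1
      have h3 : (δ + ε - a / q) * m₁ ≤ ξ * degIn E (X j) v := by
        have h4 : (δ + ε - a / q) * m₁ ≤ (δ + ε - a / q) * (ξ * N) :=
          mul_le_mul_of_nonneg_left hfl (by linarith)
        have h5 : ξ * ((δ + ε - a / q) * N) ≤ ξ * degIn E (X j) v :=
          mul_le_mul_of_nonneg_left h2 hξ.le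
        linarith
      have h6 : 3 * q ^ 3 ≤ (a / q₁ - a / q) * m₁ := by
        have h7 : 20 / 17 * (a / q) ≤ a / q₁ := by
          rw [le_div_iff₀ (by linarith)]
          have h8 : a / q * q₁ ≤ a / q * (17 / 20 * q) := mul_le_mul_of_nonneg_left hqq haq0
          have h9 : a / q * (17 / 20 * q) = 17 / 20 * a := by field_simp
          nlinarith
        have h8 : 3 / 17 * (a / q) * (ξ * N / 2) ≤ (a / q₁ - a / q) * m₁ :=
          mul_le_mul (by linarith) hm₁half (by positivity) (by linarith)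
        have h9 : 3 / 17 * (a / q) * (ξ * N / 2) = 3 * 36 / 34 * q ^ 3 := by
          rw [← hq4]
          have : q ≠ 0 := by positivity
          have h10 : 3 / 17 * (a / q) * (ξ * q ^ 4 / 2) = 3 / 34 * (a * ξ) * q ^ 3 := by
            field_simp
            ring
          rw [h10, haξ]
          ring
        have h11 : 0 ≤ q ^ 3 := by positivity
        linarith
      have h7 : (1 : ℝ) ≤ q ^ 3 := one_le_pow₀ hq1'
      linarith
    obtain ⟨ℓ, U, m, hU0, hm0, hUc, hUs, hUd, hMl, hst⟩ := ih m₁ hm₁N hstop Y hYc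
      (fun k v hv j hvj => hYd' k v (hYX k hv) j hvj)
    refine ⟨ℓ + 1, fun i => Nat.casesOn i X U, fun i => Nat.casesOn i N m, rfl, rfl, ?_, ?_, ?_,
      hMl, hst⟩
    · intro i j
      cases i with
      | zero => exact hX j
      | succ i => exact hUc i j
    · intro i j
      cases i with
      | zero =>
        show U 0 j ⊆ X j
        rw [hU0]
        exact hYX j
      | succ i => exact hUs i j
    · intro i hi
      cases i with
      | zero =>
        refine ⟨?_, ?_⟩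
        · exact hm0
        · intro k v hv j hvj
          show δ * ((m 0 : ℕ) : ℝ) ≤ (degIn E (U 0 j) v : ℝ)
          rw [hm0, hU0]
          refine le_trans ?_ (hYd' k v hv j hvj)
          exact mul_le_mul_of_nonneg_right (by linarith) (by positivity)
      | succ i => exact hUd i (Nat.lt_of_succ_lt_succ hi)

/-- **Vortex**, one part. -/
theorem vortex (ξ ε : ℝ) (hξ : 0 < ξ) (hξ1 : ξ ≤ 1 / 2) (hε : 0 < ε) :
    ∃ M₀ : ℕ, ∀ M : ℕ, M₀ ≤ M → ∀ (V : Type) [Fintype V] [DecidableEq V]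
      (E : Finset (Sym2 V)) (δ : ℝ), 0 ≤ δ → M ≤ Fintype.card V →
      (∀ v, (δ + ε) * (Fintype.card V : ℝ) ≤ deg E v) →
      ∃ (ℓ : ℕ) (U : ℕ → Finset V), U 0 = univ ∧ (∀ i, U (i + 1) ⊆ U i) ∧
        (∀ i < ℓ, (U (i + 1)).card = ⌊ξ * (U i).card⌋₊) ∧
        (∀ i < ℓ, ∀ v ∈ U i, δ * (U (i + 1)).card ≤ degIn E (U (i + 1)) v) ∧
        (∀ i ≤ ℓ, ∀ v ∈ U i, δ * (U i).card ≤ degIn E (U i) v) ∧
        M ≤ (U ℓ).card ∧ ⌊ξ * (U ℓ).card⌋₊ < M := by
  obtain ⟨M₀, h⟩ := vortex_gen Unit ξ ε hξ hξ1 hε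
  refine ⟨M₀, fun M hM V _ _ E δ hδ hMV hdeg => ?_⟩
  obtain ⟨ℓ, U, m, hU0, hm0, hUc, hUs, hUd, hMl, hst⟩ := h M hM V E (fun _ _ => True) δ hδ
    (Fintype.card V) (fun _ => univ) hMV (fun _ => Finset.card_univ) (by
      intro _ v _ _ _
      have := hdeg v
      unfold degIn
      rw [Finset.inter_univ]
      exact this)
  have hnext : ∀ i < ℓ, ∀ v ∈ U i (), δ * (U (i + 1) ()).card ≤ degIn E (U (i + 1) ()) v := by
    intro i hi v hv
    have := (hUd i hi).2 () v hv () trivial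
    rwa [← hUc (i + 1) ()] at this
  refine ⟨ℓ, fun i => U i (), by simp only [hU0], fun i => hUs i (), ?_, hnext, ?_, ?_, ?_⟩
  · intro i hi
    rw [hUc, hUc]
    exact (hUd i hi).1
  · intro i hi v hv
    cases i with
    | zero =>
      simp only [hU0] at hv ⊢
      unfold degIn
      rw [Finset.inter_univ, Finset.card_univ]
      refine le_trans ?_ (hdeg v)
      exact mul_le_mul_of_nonneg_right (by linarith) (by positivity)
    | succ i => exact hnext i hi v (hUs i () hv)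
  · rw [hUc]; exact hMl
  · rw [hUc]; exact hst

end NW
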