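import Pool.Agent.NW.Bounded
import Pool.Agent.NW.Statements
import Pool.Agent.H56.NW.Main
import Pool.Agent.H56.NW.Perfect

set_option autoImplicit false
set_option linter.unusedSectionVars false

/-!
# N1: proof of `FracStatement`
-/

open Finset

namespace NW

/-- the fractional Nash-Williams theorem -/
theorem fnw : FNW := by
  intro m H _ hd
  have hex := H56NW.exists_perfect' (H56NW.ga H) (H56NW.ga01 H) (H56NW.ga_symm H) (by
    intro x
    rw [H56NW.ga_sum, Fintype.card_fin]
    have h := hd x
    have h' : (3 : ℚ) * m ≤ 4 * H.degree x := by exact_mod_cast h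
    have h0 : (0 : ℚ) ≤ m := Nat.cast_nonneg m
    linarith)
  obtain ⟨w, w0, wc, w1⟩ := H56NW.frac_nash_williams H hex (by
    intro v
    rw [Fintype.card_fin]
    exact hd v)
  have hone : ∀ u v, H.Adj u v →
      ∑ T ∈ (H.cliqueFinset 3).filter (fun T => u ∈ T ∧ v ∈ T), w T = 1 := by
    intro u v huv
    rw [← w1 u v huv]
    refine Finset.sum_subset ?_ ?_
    · intro T hT
      rw [Finset.mem_filter] at hT ⊢
      exact ⟨Finset.mem_univ _, hT.2⟩
    · intro T hT hT'
      by_contra h0
      refine hT' ?_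
      rw [Finset.mem_filter] at hT ⊢
      exact ⟨SimpleGraph.mem_cliqueFinset_iff.2 (wc T h0), hT.2⟩
  refine ⟨fun T => (w T : ℝ), ?_, ?_⟩
  · intro T hT
    simp only
    refine ⟨by exact_mod_cast w0 T, ?_⟩
    have hc := SimpleGraph.mem_cliqueFinset_iff.1 hT
    obtain ⟨a, b, c, hab, hac, hbc, rfl⟩ := SimpleGraph.is3Clique_iff.1 hc
    have h1 : w {a, b, c} ≤ 1 := by
      rw [← hone a b hab]
      exact Finset.single_le_sum (f := w) (fun i _ => w0 i)
        (Finset.mem_filter.2 ⟨hT, by simp, by simp⟩)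
    exact_mod_cast h1
  · intro u v huv
    have := hone u v huv
    simp only
    exact_mod_cast this

/-- from ordered triples to sets -/
theorem sets_of_ord {V : Type*} [DecidableEq V] [Fintype V] (E : Finset (Sym2 V)) (hE : NL E)
    (C δ : ℝ) (W : V → V → V → ℝ) (h0 : ∀ x y z, 0 ≤ W x y z)
    (hC : ∀ x y z, W x y z * (Fintype.card V : ℝ) ≤ C) (hC0 : 0 ≤ C)
    (h12 : ∀ x y z, W x y z = W y x z) (h23 : ∀ x y z, W x y z = W x z y)
    (hs : ∀ x y z, W x y z ≠ 0 → s(x, y) ∈ E ∧ s(y, z) ∈ E ∧ s(x, z) ∈ E)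
    (hsum : ∀ x y, s(x, y) ∈ E → 1 - δ ≤ ∑ z, W x y z ∧ ∑ z, W x y z ≤ 1) :
    ∃ w : Finset V → ℝ, IsWt E w C ∧ (∀ a b c, a ≠ b → b ≠ c → a ≠ c → w {a, b, c} = W a b c) ∧
      ∀ e ∈ E, 1 - δ ≤ wsum w e ∧ wsum w e ≤ 1 := by
  have hne : ∀ x y, s(x, y) ∈ E → x ≠ y := by
    rintro x y h rfl
    exact hE _ h (by simp)
  have hz1 : ∀ x z, W x x z = 0 := by
    intro x z
    by_contra h
    exact hne _ _ (hs x x z h).1 rfl
  have hz2 : ∀ x z, W x z z = 0 := by
    intro x z
    by_contra h
    exact hne _ _ (hs x z z h).2.1 rfl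
  have hz3 : ∀ x z, W x z x = 0 := by
    intro x z
    by_contra h
    exact hne _ _ (hs x z x h).2.2 rfl
  set w : Finset V → ℝ := fun t =>
    if t.card = 3 then (∑ x ∈ t, ∑ y ∈ t, ∑ z ∈ t, W x y z) / 6 else 0 with hw
  have hwt : ∀ a b c, a ≠ b → b ≠ c → a ≠ c → w {a, b, c} = W a b c := by
    intro a b c hab hbc hac
    have hcard : ({a, b, c} : Finset V).card = 3 := Finset.card_eq_three.2 ⟨a, b, c, hab, hac, hbc, rfl⟩
    simp only [hw]
    rw [if_pos hcard]
    have hsum3 : ∀ f : V → ℝ, ∑ x ∈ ({a, b, c} : Finset V), f x = f a + f b + f c := by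
      intro f
      rw [Finset.sum_insert (by simp [hab, hac]), Finset.sum_insert (by simp [hbc]),
        Finset.sum_singleton]
      ring
    simp only [hsum3, hz1, hz2, hz3]
    have e1 : W a c b = W a b c := h23 a c b
    have e2 : W b a c = W a b c := h12 b a c
    have e3 : W b c a = W a b c := by rw [h23 b c a, h12 b a c]
    have e4 : W c a b = W a b c := by rw [h12 c a b, h23 a c b]
    have e5 : W c b a = W a b c := by rw [h23 c b a, h12 c a b, h23 a c b]
    rw [e1, e2, e3, e4, e5]
    ring
  have hform : ∀ t : Finset V, w t ≠ 0 → ∃ a b c, a ≠ b ∧ b ≠ c ∧ a ≠ c ∧ t = {a, b, c} := by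
    intro t ht
    have h3 : t.card = 3 := by
      by_contra h
      exact ht (by simp only [hw]; rw [if_neg h])
    obtain ⟨a, b, c, hab, hac, hbc, rfl⟩ := Finset.card_eq_three.1 h3
    exact ⟨a, b, c, hab, hbc, hac, rfl⟩
  refine ⟨w, ⟨?_, ?_, ?_⟩, hwt, ?_⟩
  · intro t
    by_cases ht : w t = 0
    · rw [ht]
    · obtain ⟨a, b, c, hab, hbc, hac, rfl⟩ := hform t ht
      rw [hwt a b c hab hbc hac]
      exact h0 a b c
  · intro t
    by_cases ht : w t = 0
    · rw [ht, zero_mul]
      exact hC0
    · obtain ⟨a, b, c, hab, hbc, hac, rfl⟩ := hform t ht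
      rw [hwt a b c hab hbc hac]
      exact hC a b c
  · intro t ht
    obtain ⟨a, b, c, hab, hbc, hac, rfl⟩ := hform t ht
    rw [hwt a b c hab hbc hac] at ht
    have h := hs a b c ht
    refine ⟨Finset.card_eq_three.2 ⟨a, b, c, hab, hac, hbc, rfl⟩, ?_⟩
    rw [edg_triple hab hbc hac]
    intro e he
    rcases mem_tri.1 he with rfl | rfl | rfl
    · exact h.1
    · exact h.2.1
    · exact h.2.2
  · intro e he
    induction e using Sym2.ind with
    | _ x y =>
      have hxy := hne x y he
      have hkey : wsum w s(x, y) = ∑ z, W x y z := by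
        unfold wsum
        symm
        refine Finset.sum_bij_ne_zero (fun z _ _ => ({x, y, z} : Finset V)) ?_ ?_ ?_ ?_
        · intro z _ _
          rw [Finset.mem_filter]
          refine ⟨Finset.mem_univ _, mk_mem_edg.2 ⟨by simp, by simp, hxy⟩⟩
        · intro z _ hz z' _ hz' hzz
          have h1 : z ∈ ({x, y, z'} : Finset V) := by
            rw [← hzz]; simp
          simp only [Finset.mem_insert, Finset.mem_singleton] at h1
          rcases h1 with h1 | h1 | h1
          · exact absurd (by rw [h1, hz3]) hz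
          · exact absurd (by rw [h1, hz2]) hz
          · exact h1
        · intro t ht ht0
          obtain ⟨h1, h2, h3⟩ := mk_mem_edg.1 (Finset.mem_filter.1 ht).2
          obtain ⟨a, b, c, hab, hbc, hac, rfl⟩ := hform t ht0
          have hmain : ∃ z, z ≠ x ∧ z ≠ y ∧ ({a, b, c} : Finset V) = {x, y, z} := by
            have h4 : (({a, b, c} : Finset V) \ {x, y}).Nonempty := by
              rw [← Finset.card_pos, Finset.card_sdiff_of_subset]
              · rw [Finset.card_pair hxy, Finset.card_eq_three.2 ⟨a, b, c, hab, hac, hbc, rfl⟩]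
                norm_num
              · intro u hu
                rcases Finset.mem_insert.1 hu with rfl | hu
                · exact h1
                · rw [Finset.mem_singleton.1 hu]; exact h2
            obtain ⟨z, hz⟩ := h4
            obtain ⟨hz1', hz2'⟩ := Finset.mem_sdiff.1 hz
            simp only [Finset.mem_insert, Finset.mem_singleton, not_or] at hz2'
            refine ⟨z, hz2'.1, hz2'.2, ?_⟩
            symm
            refine Finset.eq_of_subset_of_card_le ?_ ?_
            · intro u hu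
              simp only [Finset.mem_insert, Finset.mem_singleton] at hu
              rcases hu with rfl | rfl | rfl
              · exact h1
              · exact h2
              · exact hz1'
            · rw [Finset.card_eq_three.2 ⟨a, b, c, hab, hac, hbc, rfl⟩,
                Finset.card_eq_three.2 ⟨x, y, z, hxy, (Ne.symm hz2'.1), (Ne.symm hz2'.2), rfl⟩]
          obtain ⟨z, hzx, hzy, hzt⟩ := hmain
          refine ⟨z, Finset.mem_univ _, ?_, hzt.symm⟩
          rw [hzt, hwt x y z hxy (Ne.symm hzy) (Ne.symm hzx)] at ht0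
          exact ht0
        · intro z _ hz
          have hzx : x ≠ z := by
            rintro rfl
            exact hz (hz3 _ _)
          have hzy : y ≠ z := by
            rintro rfl
            exact hz (hz2 _ _)
          rw [hwt x y z hxy hzy hzx]
      rw [hkey]
      exact hsum x y he

/-- **N1** -/
theorem frac : FracStatement := by
  intro ε hε δ hδ
  obtain ⟨C, hC, h⟩ := bounded_edges fnw ε δ hε hδ
  refine ⟨C, 0, ?_⟩
  intro V _ _ E hE _ hdeg
  obtain ⟨W, h1, h2, h3, h4, h5, h6⟩ := h V E hE hdeg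
  obtain ⟨w, hw1, -, hw3⟩ := sets_of_ord E hE C δ W h1 h2 hC.le h3 h4 h5 h6
  exact ⟨w, hw1, hw3⟩

end NW
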