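import Pool.Agent.NW.Statements
import Pool.Agent.NW.Transfer
import Pool.Agent.NW.FracProof
import Pool.Agent.NW.LinNibble

/-!
# Project NW: the approximate decomposition relative to a vertex set
-/

set_option linter.unusedSectionVars false

namespace NW

open Finset

theorem subset_edg_of_nl {V : Type*} [DecidableEq V] {E : Finset (Sym2 V)} {X : Finset V}
    (hE : NL E) (hX : E ⊆ X.sym2) : E ⊆ edg X := by
  intro e he
  rw [mem_edg]
  exact ⟨fun v hv => Finset.mem_sym2_iff.1 (hX he) v hv, hE e he⟩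

theorem ad_of (hF : FracStatement) (hN : NibbleStatement) : ADStatement := by
  intro ε hε γ hγ
  obtain ⟨δ, hδ, hN'⟩ := hN γ hγ
  obtain ⟨C, n1, hF'⟩ := hF ε hε δ hδ
  obtain ⟨n2, hN''⟩ := hN' C
  refine ⟨max n1 n2, fun V _ _ E X hNL hEX hn hdeg => ?_⟩
  have hE : E ⊆ edg X := subset_edg_of_nl hNL hEX
  have hcard : Fintype.card X = X.card := Fintype.card_coe X
  have hdeg' : ∀ v : X, (3 / 4 + ε) * (Fintype.card X : ℝ) ≤ (deg (res X E) v : ℝ) := by
    intro v
    rw [hcard, deg_res hE v]
    exact hdeg v v.2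
  obtain ⟨w, hw, hs⟩ := hF' X (res X E) (nl_res hNL) (by
    rw [hcard]; exact (le_max_left _ _).trans hn) hdeg'
  obtain ⟨𝒯, hT, hdT⟩ := hN'' X (res X E) (nl_res hNL) (by
    rw [hcard]; exact (le_max_right _ _).trans hn) (by
      intro v
      have h1 := hdeg' v
      have h2 : (0 : ℝ) ≤ Fintype.card X := Nat.cast_nonneg _
      nlinarith) w hw hs
  have hP : 𝒯.biUnion edg ⊆ res X E := hT.subset
  refine ⟨img Subtype.val (𝒯.biUnion edg), img_val_subset_of_subset_res hP,
    hT.dec.img Subtype.val_injective, fun v hv => ?_⟩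
  have h1 : E \ img Subtype.val (𝒯.biUnion edg) =
      img Subtype.val (res X E \ 𝒯.biUnion edg) := by
    unfold img
    rw [Finset.image_sdiff _ _ (Sym2.map.injective Subtype.val_injective)]
    have h2 := img_res hE
    unfold img at h2
    rw [h2]
  rw [h1]
  have h3 := deg_img_val (H := res X E \ 𝒯.biUnion edg) ⟨v, hv⟩
  have h4 := hdT ⟨v, hv⟩
  rw [hcard] at h4
  have h5 : deg (img Subtype.val (res X E \ 𝒯.biUnion edg)) v =
    deg (res X E \ 𝒯.biUnion edg) ⟨v, hv⟩ := h3
  rw [h5]
  exact h4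

/-- the approximate decomposition -/
theorem ad_final : ADStatement := ad_of frac nibble

end NW
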