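import Pool.Agent.NW.Statements

/-!
# Absorbers, part A: triangle decompositions of multisets of pairs

The construction with virtual pairs inside a small set `W`: octahedra (`St.oct`) and switches
(`St.cancel`).
-/

set_option linter.unusedSectionVars false

namespace NW

open Finset

namespace Ab

variable {V : Type} [DecidableEq V]

/-- the edges of a triangle as a multiset -/
def trim (a b c : V) : Multiset (Sym2 V) := {s(a, b)} + {s(b, c)} + {s(a, c)}

/-- a multiset of pairs which is a sum of triangles, none of them inside `W` -/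
inductive MDec (W : Finset V) : Multiset (Sym2 V) → Prop
  | zero : MDec W 0
  | cons {a b c : V} {M : Multiset (Sym2 V)} (hab : a ≠ b) (hbc : b ≠ c) (hac : a ≠ c)
      (hn : ¬ (a ∈ W ∧ b ∈ W ∧ c ∈ W)) (h : MDec W M) : MDec W (trim a b c + M)

theorem MDec.add {W : Finset V} {M M' : Multiset (Sym2 V)} (h : MDec W M) (h' : MDec W M') :
    MDec W (M + M') := by
  induction h with
  | zero => rwa [zero_add]
  | cons hab hbc hac hn _ ih =>
    rw [add_assoc]
    exact MDec.cons hab hbc hac hn ih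

theorem MDec.single {W : Finset V} {a b c : V} (hab : a ≠ b) (hbc : b ≠ c) (hac : a ≠ c)
    (hn : ¬ (a ∈ W ∧ b ∈ W ∧ c ∈ W)) : MDec W (trim a b c) := by
  have := MDec.cons hab hbc hac hn (MDec.zero (W := W))
  rwa [add_zero] at this

theorem trim_rot (a b c : V) : trim a b c = trim b c a := by
  unfold trim
  rw [Sym2.eq_swap (a := a) (b := c), Sym2.eq_swap (a := b) (b := a)]
  abel

theorem trim_swap (a b c : V) : trim a b c = trim b a c := by
  unfold trim
  rw [Sym2.eq_swap (a := a) (b := b)]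
  abel

/-- the triangle which contains a given pair -/
theorem MDec.find {W : Finset V} {M : Multiset (Sym2 V)} (h : MDec W M) {x y : V}
    (hx : x ∈ W) (hy : y ∈ W) (hm : s(x, y) ∈ M) :
    ∃ z M', z ∉ W ∧ M = trim x y z + M' ∧ MDec W M' := by
  induction h with
  | zero => simp at hm
  | @cons a b c M hab hbc hac hn h ih =>
    rcases Multiset.mem_add.1 hm with h1 | h1
    · simp only [trim, Multiset.mem_add, Multiset.mem_singleton, Sym2.eq_iff] at h1
      rcases h1 with ((⟨rfl, rfl⟩ | ⟨rfl, rfl⟩) | ⟨rfl, rfl⟩ | ⟨rfl, rfl⟩) |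
        ⟨rfl, rfl⟩ | ⟨rfl, rfl⟩
      · exact ⟨c, M, fun hc => hn ⟨hx, hy, hc⟩, rfl, h⟩
      · exact ⟨c, M, fun hc => hn ⟨hy, hx, hc⟩, by rw [trim_swap], h⟩
      · exact ⟨a, M, fun hc => hn ⟨hc, hx, hy⟩, by rw [trim_rot], h⟩
      · exact ⟨a, M, fun hc => hn ⟨hc, hy, hx⟩, by rw [trim_rot, trim_swap], h⟩
      · exact ⟨b, M, fun hc => hn ⟨hx, hc, hy⟩, by rw [trim_swap, trim_rot, trim_swap], h⟩
      · exact ⟨b, M, fun hc => hn ⟨hy, hc, hx⟩, by rw [trim_rot, trim_rot], h⟩
    · obtain ⟨z, M', hz, e, h2⟩ := ih h1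
      refine ⟨z, trim a b c + M', hz, ?_, MDec.cons hab hbc hac hn h2⟩
      rw [e]
      abel

theorem trim_val {a b c : V} (hab : a ≠ b) (hbc : b ≠ c) (hac : a ≠ c) :
    (tri a b c).val = trim a b c := by
  unfold tri trim
  rw [Finset.insert_val_of_notMem, Finset.insert_val_of_notMem, Finset.singleton_val]
  · rw [← Multiset.singleton_add, ← Multiset.singleton_add, add_assoc]
  · simp only [Finset.mem_singleton, Sym2.eq_iff]
    rintro (⟨h, _⟩ | ⟨_, h⟩)
    · exact hab h.symm
    · exact hac h.symm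
  · simp only [Finset.mem_insert, Finset.mem_singleton, Sym2.eq_iff]
    rintro ((⟨h, _⟩ | ⟨h, _⟩) | (⟨_, h⟩ | ⟨_, h⟩))
    · exact hab h
    · exact hac h
    · exact hbc h
    · exact hab h.symm

theorem MDec.dec {W : Finset V} {M : Multiset (Sym2 V)} (h : MDec W M) :
    ∀ E : Finset (Sym2 V), E.val = M → Dec E := by
  induction h with
  | zero =>
    intro E hE
    rw [Finset.val_eq_zero] at hE
    rw [hE]
    exact Dec.empty
  | @cons a b c M hab hbc hac hn h ih =>
    intro E hE
    have hnd := E.nodup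
    rw [hE, ← trim_val hab hbc hac, Multiset.nodup_add] at hnd
    obtain ⟨_, hM, hd⟩ := hnd
    have h1 := ih ⟨M, hM⟩ rfl
    have hd' : Disjoint (tri a b c) (⟨M, hM⟩ : Finset (Sym2 V)) := by
      rw [← Finset.disjoint_val]
      exact hd
    have e : E = tri a b c ∪ ⟨M, hM⟩ := by
      rw [← Finset.disjUnion_eq_union _ _ hd']
      apply Finset.val_injective
      rw [hE, Finset.disjUnion_val, trim_val hab hbc hac]
    rw [e]
    exact Dec.cons hab hbc hac hd' h1

/-- the edges from `w` to the vertices of the list `l` -/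
def star (w : V) (l : List V) : Multiset (Sym2 V) := ↑(l.map fun a => s(w, a))

/-- `N` is a set of edges of `E`, each with a new vertex, all vertices in `S` -/
structure Good (E : Finset (Sym2 V)) (B S : Finset V) (N : Multiset (Sym2 V)) : Prop where
  nd : N.Nodup
  sub : ∀ e ∈ N, e ∈ E
  new : ∀ e ∈ N, ∃ v ∈ e, v ∉ B
  supp : ∀ e ∈ N, ∀ v ∈ e, v ∈ S

theorem Good.grow {E : Finset (Sym2 V)} {B S : Finset V} {N : Multiset (Sym2 V)}
    (h : Good E B S N) {w : V} {l : List V} (hw : w ∉ S) (hwB : w ∉ B) (hl : l.Nodup)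
    (hlS : ∀ a ∈ l, a ∈ S) (hE : ∀ a ∈ l, s(w, a) ∈ E) : Good E B (insert w S) (star w l + N) := by
  have hm : ∀ e, e ∈ star w l ↔ ∃ a ∈ l, s(w, a) = e := by
    intro e
    unfold star
    rw [Multiset.mem_coe, List.mem_map]
  constructor
  · rw [Multiset.nodup_add]
    refine ⟨?_, h.nd, ?_⟩
    · unfold star
      rw [Multiset.coe_nodup]
      refine hl.map fun a b hab => ?_
      rw [Sym2.eq_iff] at hab
      rcases hab with hab | hab
      · exact hab.2
      · exact hab.2.trans hab.1
    · rw [Multiset.disjoint_left]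
      intro e he he'
      obtain ⟨a, _, rfl⟩ := (hm e).1 he
      exact hw (h.supp _ he' w (Sym2.mem_mk_left _ _))
  · intro e he
    rcases Multiset.mem_add.1 he with he | he
    · obtain ⟨a, ha, rfl⟩ := (hm e).1 he
      exact hE a ha
    · exact h.sub e he
  · intro e he
    rcases Multiset.mem_add.1 he with he | he
    · obtain ⟨a, ha, rfl⟩ := (hm e).1 he
      exact ⟨w, Sym2.mem_mk_left _ _, hwB⟩
    · exact h.new e he
  · intro e he v hv
    rw [Finset.mem_insert]
    rcases Multiset.mem_add.1 he with he | he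
    · obtain ⟨a, ha, rfl⟩ := (hm e).1 he
      rcases Sym2.mem_iff.1 hv with rfl | rfl
      · exact Or.inl rfl
      · exact Or.inr (hlS _ ha)
    · exact Or.inr (h.supp e he v hv)

/-- the state of the construction -/
def St (E : Finset (Sym2 V)) (W B S₀ : Finset V) (k : ℕ) (a b : Multiset (Sym2 V)) : Prop :=
  ∃ (S : Finset V) (N : Multiset (Sym2 V)), S₀ ⊆ S ∧ S.card ≤ k ∧ Good E B S N ∧
    MDec W (N + a) ∧ MDec W (N + b)

theorem St.symm {E : Finset (Sym2 V)} {W B S₀ : Finset V} {k : ℕ} {a b : Multiset (Sym2 V)}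
    (h : St E W B S₀ k a b) : St E W B S₀ k b a := by
  obtain ⟨S, N, h1, h2, h3, h4, h5⟩ := h
  exact ⟨S, N, h1, h2, h3, h5, h4⟩

theorem St.mono {E : Finset (Sym2 V)} {W B S₀ : Finset V} {k k' : ℕ} {a b : Multiset (Sym2 V)}
    (h : St E W B S₀ k a b) (hk : k ≤ k') : St E W B S₀ k' a b := by
  obtain ⟨S, N, h1, h2, h3⟩ := h
  exact ⟨S, N, h1, h2.trans hk, h3⟩

theorem St.start (E : Finset (Sym2 V)) (W B S₀ : Finset V) : St E W B S₀ S₀.card 0 0 := by
  refine ⟨S₀, 0, Finset.Subset.refl _, le_rfl, ⟨Multiset.nodup_zero, ?_, ?_, ?_⟩, ?_, ?_⟩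
  · intro e he
    exact absurd he (Multiset.notMem_zero e)
  · intro e he
    exact absurd he (Multiset.notMem_zero e)
  · intro e he
    exact absurd he (Multiset.notMem_zero e)
  · rw [add_zero]
    exact MDec.zero
  · rw [add_zero]
    exact MDec.zero

/-- new vertices exist -/
def Rich (E : Finset (Sym2 V)) (B : Finset V) (q : ℕ) : Prop :=
  ∀ (l : List V) (S : Finset V), l.length ≤ 4 → S.card < q →
    ∃ w, w ∉ S ∧ w ∉ B ∧ ∀ a ∈ l, s(w, a) ∈ E

/-- **octahedron** -/
theorem St.oct {E : Finset (Sym2 V)} {W B S₀ : Finset V} {k q : ℕ} {a b : Multiset (Sym2 V)}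
    (hR : Rich E B q) (hk : k + 3 ≤ q) (hWB : W ⊆ B) (hWS : W ⊆ S₀)
    (h : St E W B S₀ k a b) {x y z : V} (hx : x ∈ W) (hy : y ∈ W) (hz : z ∈ W)
    (hxy : x ≠ y) (hyz : y ≠ z) (hxz : x ≠ z) :
    St E W B S₀ (k + 3) (trim x y z + a) b := by
  obtain ⟨S, N, h1, h2, h3, h4, h5⟩ := h
  have xS : x ∈ S := h1 (hWS hx)
  have yS : y ∈ S := h1 (hWS hy)
  have zS : z ∈ S := h1 (hWS hz)
  obtain ⟨x', x1, x2, x3⟩ := hR [y, z] S (by simp) (by omega)
  have c1 := Finset.card_insert_le x' S
  obtain ⟨y', y1, y2, y3⟩ := hR [x, z, x'] (insert x' S) (by simp) (by omega)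
  have c2 := Finset.card_insert_le y' (insert x' S)
  obtain ⟨z', z1, z2, z3⟩ := hR [x, y, x', y'] (insert y' (insert x' S)) (by simp) (by omega)
  have c3 := Finset.card_insert_le z' (insert y' (insert x' S))
  have k1 : x' ≠ x := fun e => x1 (e ▸ xS)
  have k2 : x' ≠ y := fun e => x1 (e ▸ yS)
  have k3 : x' ≠ z := fun e => x1 (e ▸ zS)
  have x'W : x' ∉ W := fun h => x2 (hWB h)
  have y'W : y' ∉ W := fun h => y2 (hWB h)
  have z'W : z' ∉ W := fun h => z2 (hWB h)
  rw [Finset.mem_insert, not_or] at y1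
  rw [Finset.mem_insert, not_or, Finset.mem_insert, not_or] at z1
  have l1 : y' ≠ x := fun e => y1.2 (e ▸ xS)
  have l2 : y' ≠ y := fun e => y1.2 (e ▸ yS)
  have l3 : y' ≠ z := fun e => y1.2 (e ▸ zS)
  have m1 : z' ≠ x := fun e => z1.2.2 (e ▸ xS)
  have m2 : z' ≠ y := fun e => z1.2.2 (e ▸ yS)
  have m3 : z' ≠ z := fun e => z1.2.2 (e ▸ zS)
  have g1 := h3.grow (w := x') (l := [y, z]) x1 x2 (by simp [hyz]) (by
    intro a ha
    simp only [List.mem_cons, List.not_mem_nil, or_false] at ha
    rcases ha with rfl | rfl <;> assumption) x3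
  have g2 := g1.grow (w := y') (l := [x, z, x']) (by
    rw [Finset.mem_insert, not_or]; exact y1) y2 (by simp [hxz, k1.symm, k3.symm]) (by
    intro a ha
    simp only [List.mem_cons, List.not_mem_nil, or_false] at ha
    rcases ha with rfl | rfl | rfl
    · exact Finset.mem_insert_of_mem xS
    · exact Finset.mem_insert_of_mem zS
    · exact Finset.mem_insert_self _ _) y3
  have g3 := g2.grow (w := z') (l := [x, y, x', y']) (by
    rw [Finset.mem_insert, not_or, Finset.mem_insert, not_or]; exact z1) z2 (by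
      simp [hxy, k1.symm, k2.symm, l1.symm, l2.symm, Ne.symm y1.1]) (by
    intro a ha
    simp only [List.mem_cons, List.not_mem_nil, or_false] at ha
    rcases ha with rfl | rfl | rfl | rfl
    · exact Finset.mem_insert_of_mem (Finset.mem_insert_of_mem xS)
    · exact Finset.mem_insert_of_mem (Finset.mem_insert_of_mem yS)
    · exact Finset.mem_insert_of_mem (Finset.mem_insert_self _ _)
    · exact Finset.mem_insert_self _ _) z3
  refine ⟨_, _, ?_, ?_, g3, ?_, ?_⟩
  · intro v hv
    exact Finset.mem_insert_of_mem (Finset.mem_insert_of_mem (Finset.mem_insert_of_mem (h1 hv)))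
  · omega
  · have e : star z' [x, y, x', y'] + (star y' [x, z, x'] + (star x' [y, z] + N)) +
        (trim x y z + a) = trim x' y z + (trim x y' z + (trim x y z' + (trim x' y' z' +
          (N + a)))) := by
      unfold trim star
      simp only [List.map_cons, List.map_nil, ← Multiset.cons_coe, Multiset.coe_nil,
        ← Multiset.singleton_add]
      rw [Sym2.eq_swap (a := z') (b := x), Sym2.eq_swap (a := z') (b := y),
        Sym2.eq_swap (a := z') (b := x'), Sym2.eq_swap (a := z') (b := y'),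
        Sym2.eq_swap (a := y') (b := x), Sym2.eq_swap (a := y') (b := x')]
      abel
    rw [e]
    refine MDec.cons k2 hyz k3 (fun h => x'W h.1) (MDec.cons l1.symm l3 hxz (fun h => y'W h.2.1)
      (MDec.cons hxy m2.symm m1.symm (fun h => z'W h.2.2) (MDec.cons (Ne.symm y1.1)
        (Ne.symm z1.1) (Ne.symm z1.2.1) (fun h => x'W h.1) h4)))
  · have e : star z' [x, y, x', y'] + (star y' [x, z, x'] + (star x' [y, z] + N)) + b =
        trim x y' z' + (trim x' y z' + (trim x' y' z + (N + b))) := by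
      unfold trim star
      simp only [List.map_cons, List.map_nil, ← Multiset.cons_coe, Multiset.coe_nil,
        ← Multiset.singleton_add]
      rw [Sym2.eq_swap (a := z') (b := x), Sym2.eq_swap (a := z') (b := y),
        Sym2.eq_swap (a := z') (b := x'), Sym2.eq_swap (a := z') (b := y'),
        Sym2.eq_swap (a := y') (b := x), Sym2.eq_swap (a := y') (b := x')]
      abel
    rw [e]
    exact MDec.cons l1.symm (Ne.symm z1.1) m1.symm (fun h => y'W h.2.1) (MDec.cons k2 m2.symm
      (Ne.symm z1.2.1) (fun h => x'W h.1) (MDec.cons (Ne.symm y1.1) l3 k3 (fun h => x'W h.1) h5))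

theorem Good.sub' {E : Finset (Sym2 V)} {B S : Finset V} {N M : Multiset (Sym2 V)}
    (h : Good E B S (M + N)) : Good E B S N where
  nd := (Multiset.nodup_add.1 h.nd).2.1
  sub e he := h.sub e (Multiset.mem_add.2 (Or.inr he))
  new e he := h.new e (Multiset.mem_add.2 (Or.inr he))
  supp e he := h.supp e (Multiset.mem_add.2 (Or.inr he))

/-- splitting off two edges at a new vertex -/
theorem peel {W : Finset V} {N a M' : Multiset (Sym2 V)} {x y z : V}
    (hz : z ∉ W) (ha : ∀ e ∈ a, ∀ v ∈ e, v ∈ W)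
    (h : N + (s(x, y) ::ₘ a) = trim x y z + M') :
    ∃ N', N = {s(y, z)} + {s(x, z)} + N' ∧ M' = N' + a := by
  have h' : N + a = {s(y, z)} + {s(x, z)} + M' := by
    have e1 : N + (s(x, y) ::ₘ a) = {s(x, y)} + (N + a) := by
      rw [← Multiset.singleton_add]
      abel
    have e2 : trim x y z + M' = {s(x, y)} + ({s(y, z)} + {s(x, z)} + M') := by
      unfold trim
      abel
    rw [e1, e2] at h
    exact add_left_cancel h
  have na : ∀ u, s(u, z) ∉ a := fun u hu => hz (ha _ hu z (Sym2.mem_mk_right _ _))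
  have h1 : s(y, z) ∈ N := by
    have : s(y, z) ∈ N + a := by
      rw [h']
      simp
    rcases Multiset.mem_add.1 this with h | h
    · exact h
    · exact absurd h (na y)
  obtain ⟨N₁, hN₁⟩ := Multiset.exists_cons_of_mem h1
  have h2 : s(x, z) ∈ N₁ := by
    have h3 : N₁ + a = {s(x, z)} + M' := by
      rw [hN₁, Multiset.cons_add, ← Multiset.singleton_add, add_assoc] at h'
      exact add_left_cancel h'
    have : s(x, z) ∈ N₁ + a := by
      rw [h3]
      simp
    rcases Multiset.mem_add.1 this with h | h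
    · exact h
    · exact absurd h (na x)
  obtain ⟨N₂, hN₂⟩ := Multiset.exists_cons_of_mem h2
  refine ⟨N₂, ?_, ?_⟩
  · rw [hN₁, hN₂, ← Multiset.singleton_add, ← Multiset.singleton_add, add_assoc]
  · rw [hN₁, hN₂, ← Multiset.singleton_add, ← Multiset.singleton_add] at h'
    have : ({s(y, z)} + {s(x, z)} : Multiset (Sym2 V)) + (N₂ + a) =
        {s(y, z)} + {s(x, z)} + M' := by
      rw [← h']
      abel
    exact (add_left_cancel this).symm

/-- **cancellation** -/
theorem St.cancel {E : Finset (Sym2 V)} {W B S₀ : Finset V} {k q : ℕ} {a b : Multiset (Sym2 V)}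
    (hR : Rich E B q) (hk : k + 2 ≤ q) (hWB : W ⊆ B) (hWS : W ⊆ S₀)
    (ha : ∀ e ∈ a, ∀ v ∈ e, v ∈ W) (hb : ∀ e ∈ b, ∀ v ∈ e, v ∈ W) {x y : V}
    (hx : x ∈ W) (hy : y ∈ W) (hxy : x ≠ y)
    (h : St E W B S₀ k (s(x, y) ::ₘ a) (s(x, y) ::ₘ b)) :
    St E W B S₀ (k + 2) a b := by
  obtain ⟨S, N, h1, h2, h3, h4, h5⟩ := h
  obtain ⟨z, M₂, hz, e2, d2⟩ := h4.find hx hy
    (Multiset.mem_add.2 (Or.inr (Multiset.mem_cons_self _ _)))
  obtain ⟨t, M₁, ht, e1, d1⟩ := h5.find hx hy
    (Multiset.mem_add.2 (Or.inr (Multiset.mem_cons_self _ _)))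
  obtain ⟨N₂, f2, r2⟩ := peel hz ha e2
  obtain ⟨N₁, f1, r1⟩ := peel ht hb e1
  by_cases hzt : z = t
  · subst hzt
    have : N₂ = N₁ := by
      rw [f2] at f1
      exact add_left_cancel f1
    subst this
    refine ⟨S, N₂, h1, by omega, ?_, r2 ▸ d2, r1 ▸ d1⟩
    rw [f2] at h3
    exact h3.sub'
  · have xS : x ∈ S := h1 (hWS hx)
    have yS : y ∈ S := h1 (hWS hy)
    have zS : z ∈ S := h3.supp s(y, z) (by rw [f2]; simp) z (Sym2.mem_mk_right _ _)
    have tS : t ∈ S := h3.supp s(y, t) (by rw [f1]; simp) t (Sym2.mem_mk_right _ _)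
    have hzx : z ≠ x := fun e => hz (e ▸ hx)
    have hzy : z ≠ y := fun e => hz (e ▸ hy)
    have htx : t ≠ x := fun e => ht (e ▸ hx)
    have hty : t ≠ y := fun e => ht (e ▸ hy)
    obtain ⟨w, w1, w2, w3⟩ := hR [x, z, t] S (by simp) (by omega)
    have c1 := Finset.card_insert_le w S
    obtain ⟨u, u1, u2, u3⟩ := hR [z, y, t, w] (insert w S) (by simp) (by omega)
    have c2 := Finset.card_insert_le u (insert w S)
    have wW : w ∉ W := fun h => w2 (hWB h)
    have uW : u ∉ W := fun h => u2 (hWB h)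
    rw [Finset.mem_insert, not_or] at u1
    have p1 : w ≠ x := fun e => w1 (e ▸ xS)
    have p2 : w ≠ y := fun e => w1 (e ▸ yS)
    have p3 : w ≠ z := fun e => w1 (e ▸ zS)
    have p4 : w ≠ t := fun e => w1 (e ▸ tS)
    have q1 : u ≠ x := fun e => u1.2 (e ▸ xS)
    have q2 : u ≠ y := fun e => u1.2 (e ▸ yS)
    have q3 : u ≠ z := fun e => u1.2 (e ▸ zS)
    have q4 : u ≠ t := fun e => u1.2 (e ▸ tS)
    have g1 := h3.grow (w := w) (l := [x, z, t]) w1 w2 (by simp [hzx.symm, htx.symm, hzt]) (by
      intro a ha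
      simp only [List.mem_cons, List.not_mem_nil, or_false] at ha
      rcases ha with rfl | rfl | rfl <;> assumption) w3
    have g2 := g1.grow (w := u) (l := [z, y, t, w]) (by
      rw [Finset.mem_insert, not_or]; exact u1) u2 (by
        simp [hzy, hzt, hty.symm, p2.symm, p3.symm, p4.symm]) (by
      intro a ha
      simp only [List.mem_cons, List.not_mem_nil, or_false] at ha
      rcases ha with rfl | rfl | rfl | rfl
      · exact Finset.mem_insert_of_mem zS
      · exact Finset.mem_insert_of_mem yS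
      · exact Finset.mem_insert_of_mem tS
      · exact Finset.mem_insert_self _ _) u3
    refine ⟨_, _, ?_, ?_, g2, ?_, ?_⟩
    · intro v hv
      exact Finset.mem_insert_of_mem (Finset.mem_insert_of_mem (h1 hv))
    · omega
    · have e : star u [z, y, t, w] + (star w [x, z, t] + N) + a =
          trim x z w + (trim z y u + (trim t w u + M₂)) := by
        rw [r2, f2]
        unfold trim star
        simp only [List.map_cons, List.map_nil, ← Multiset.cons_coe, Multiset.coe_nil,
          ← Multiset.singleton_add]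
        rw [Sym2.eq_swap (a := u) (b := z), Sym2.eq_swap (a := u) (b := y),
          Sym2.eq_swap (a := u) (b := t), Sym2.eq_swap (a := u) (b := w),
          Sym2.eq_swap (a := w) (b := x), Sym2.eq_swap (a := w) (b := z),
          Sym2.eq_swap (a := w) (b := t), Sym2.eq_swap (a := y) (b := z)]
        abel
      rw [e]
      exact MDec.cons hzx.symm p3.symm p1.symm (fun h => hz h.2.1) (MDec.cons hzy q2.symm
        q3.symm (fun h => hz h.1) (MDec.cons p4.symm (Ne.symm u1.1) q4.symm (fun h => ht h.1) d2))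
    · have e : star u [z, y, t, w] + (star w [x, z, t] + N) + b =
          trim x t w + (trim t y u + (trim z w u + M₁)) := by
        rw [r1, f1]
        unfold trim star
        simp only [List.map_cons, List.map_nil, ← Multiset.cons_coe, Multiset.coe_nil,
          ← Multiset.singleton_add]
        rw [Sym2.eq_swap (a := u) (b := z), Sym2.eq_swap (a := u) (b := y),
          Sym2.eq_swap (a := u) (b := t), Sym2.eq_swap (a := u) (b := w),
          Sym2.eq_swap (a := w) (b := x), Sym2.eq_swap (a := w) (b := z),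
          Sym2.eq_swap (a := w) (b := t), Sym2.eq_swap (a := y) (b := t)]
        abel
      rw [e]
      exact MDec.cons htx.symm p4.symm p1.symm (fun h => ht h.2.1) (MDec.cons hty q2.symm
        q4.symm (fun h => ht h.1) (MDec.cons p3.symm (Ne.symm u1.1) q3.symm (fun h => hz h.1) d1))

end Ab

end NW
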