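import Mathlib
import Pool.Agent.NW.Conc

set_option autoImplicit false
set_option linter.unusedSectionVars false

/-!
# Bernstein-McDiarmid inequality on finite weighted product spaces

`c i` bounds the change of `f` when the coordinate `i` is changed, and `v i` bounds the second
moment (over a random new value of the coordinate `i`) of the difference to a base value `b i`.
Then `E exp (t (f - E f)) ≤ exp (t^2 ∑ v i)` as long as `t * c i ≤ 1`.

* `NWC.bern_upper`, `NWC.bern_lower`, `NWC.bern_two` : general product spaces;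
* `NWC.coins_upper`, `NWC.coins_lower`, `NWC.coins_two` : independent coins (random subsets) with
  success probabilities `q i`, where `v i = q i * c i ^ 2`.
-/

open Finset

namespace NWC

noncomputable section

/-- One coordinate. -/
theorem bern_lemma {K : Type*} [Fintype K] {p : K → ℝ} (hp : PW p) (ξ : K → ℝ) (c v : ℝ)
    (hξ : ∀ k l, |ξ k - ξ l| ≤ c) (b : K) (hv : Ex p (fun k => (ξ k - ξ b) ^ 2) ≤ v)
    (t : ℝ) (ht : |t| * c ≤ 1) :
    Ex p (fun k => Real.exp (t * (ξ k - Ex p ξ))) ≤ Real.exp (t ^ 2 * v) := by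
  set m := Ex p ξ with hm
  have habs : ∀ k, |ξ k - m| ≤ c := by
    intro k
    obtain ⟨l, hl⟩ := exists_ge_ex (f := ξ) hp
    obtain ⟨l', hl'⟩ := exists_le_ex (f := ξ) hp
    have h1 := abs_le.1 (hξ k l)
    have h2 := abs_le.1 (hξ k l')
    rw [abs_le]
    constructor <;> linarith
  have h1 : ∀ k, Real.exp (t * (ξ k - m)) ≤
      1 + t * (ξ k - m) + t ^ 2 * ((ξ k - ξ b) ^ 2 - 2 * (ξ k - m) * (m - ξ b) * (-1) * (-1)
        - (m - ξ b) ^ 2) := by
    intro k
    have h2 : |t * (ξ k - m)| ≤ 1 := by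
      rw [abs_mul]
      exact (mul_le_mul_of_nonneg_left (habs k) (abs_nonneg t)).trans ht
    have h3 := (abs_le.1 (Real.abs_exp_sub_one_sub_id_le h2)).2
    have h4 : (ξ k - ξ b) ^ 2 - 2 * (ξ k - m) * (m - ξ b) * (-1) * (-1) - (m - ξ b) ^ 2
        = (ξ k - m) ^ 2 := by ring
    rw [h4]
    nlinarith
  refine (ex_mono hp h1).trans ?_
  have h5 : Ex p (fun k => 1 + t * (ξ k - m) + t ^ 2 * ((ξ k - ξ b) ^ 2
      - 2 * (ξ k - m) * (m - ξ b) * (-1) * (-1) - (m - ξ b) ^ 2))
      = 1 + t ^ 2 * (Ex p (fun k => (ξ k - ξ b) ^ 2) - (m - ξ b) ^ 2) := by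
    have e1 : (fun k => 1 + t * (ξ k - m) + t ^ 2 * ((ξ k - ξ b) ^ 2
      - 2 * (ξ k - m) * (m - ξ b) * (-1) * (-1) - (m - ξ b) ^ 2))
      = fun k => ((1 - t ^ 2 * (m - ξ b) ^ 2)
          + (t - 2 * t ^ 2 * (m - ξ b)) * (ξ k - m)) + t ^ 2 * (ξ k - ξ b) ^ 2 := by
      funext k; ring
    rw [e1, ex_add, ex_add, ex_mul_left, ex_mul_left, ex_const hp, ex_sub, ex_const hp, ← hm,
      sub_self]
    ring
  rw [h5]
  have h6 : Ex p (fun k => (ξ k - ξ b) ^ 2) - (m - ξ b) ^ 2 ≤ v := by
    have := sq_nonneg (m - ξ b)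
    linarith
  have h7 : t ^ 2 * (Ex p (fun k => (ξ k - ξ b) ^ 2) - (m - ξ b) ^ 2) ≤ t ^ 2 * v :=
    mul_le_mul_of_nonneg_left h6 (sq_nonneg t)
  have h8 := Real.add_one_le_exp (t ^ 2 * v)
  linarith

/-- Jensen for the square. -/
theorem sq_ex_le {Ω : Type*} [Fintype Ω] {w : Ω → ℝ} (hw : PW w) (f : Ω → ℝ) :
    (Ex w f) ^ 2 ≤ Ex w (fun ω => f ω ^ 2) := by
  have h : 0 ≤ Ex w (fun ω => (f ω - Ex w f) ^ 2) := ex_nonneg hw fun ω => sq_nonneg _
  have e : (fun ω => (f ω - Ex w f) ^ 2)
      = fun ω => f ω ^ 2 - (2 * Ex w f) * f ω + (Ex w f) ^ 2 := by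
    funext ω; ring
  rw [e, ex_add, ex_sub, ex_mul_left, ex_const hw] at h
  nlinarith

section Prod

variable {ι : Type*} [Fintype ι] [DecidableEq ι] {A : ι → Type*} [∀ i, Fintype (A i)]

/-- The pointwise conditional exponential moment bound. -/
theorem bern_aux {p : ∀ i, A i → ℝ} (hp : ∀ i, PW (p i)) (c v : ι → ℝ) (b : ∀ i, A i) (t : ℝ)
    (ht : ∀ i, |t| * c i ≤ 1) (s : Finset ι) :
    ∀ (f : (∀ i, A i) → ℝ), (∀ i ω a, |f (Function.update ω i a) - f ω| ≤ c i) →
    (∀ i ω, Ex (p i) (fun a => (f (Function.update ω i a) - f (Function.update ω i (b i))) ^ 2)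
      ≤ v i) →
    ∀ ω : ∀ i, A i,
    Ex (prodW p) (fun η => Real.exp (t * (f (s.piecewise η ω)
      - Ex (prodW p) (fun η' => f (s.piecewise η' ω)))))
      ≤ Real.exp (t ^ 2 * (∑ i ∈ s, v i)) := by
  induction s using Finset.induction_on with
  | empty =>
    intro f hf hv ω
    simp only [Finset.piecewise_empty, Finset.sum_empty, mul_zero, Real.exp_zero]
    rw [ex_const (pw_prod hp), ex_const (pw_prod hp), sub_self, mul_zero, Real.exp_zero]
  | insert i s hi ih =>
    intro f hf hv ω
    set g : (∀ i, A i) → ℝ := fun ω => Ex (prodW p) (fun η' => f (s.piecewise η' ω)) with hg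
    have hpw : ∀ (η ω : ∀ i, A i) (a : A i),
        (insert i s).piecewise (Function.update η i a) ω
          = s.piecewise η (Function.update ω i a) := by
      intro η ω a
      rw [Finset.piecewise_insert, Function.update_self]
      ext j
      by_cases hj : j = i
      · subst hj
        rw [Function.update_self, Finset.piecewise_eq_of_notMem _ _ _ hi, Function.update_self]
      · rw [Function.update_of_ne hj]
        by_cases hjs : j ∈ s
        · rw [Finset.piecewise_eq_of_mem _ _ _ hjs, Finset.piecewise_eq_of_mem _ _ _ hjs,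
            Function.update_of_ne hj]
        · rw [Finset.piecewise_eq_of_notMem _ _ _ hjs, Finset.piecewise_eq_of_notMem _ _ _ hjs,
            Function.update_of_ne hj]
    have hfub : ∀ (F : (∀ i, A i) → ℝ) (ω : ∀ i, A i),
        Ex (prodW p) (fun η => F ((insert i s).piecewise η ω))
          = Ex (p i) (fun a => Ex (prodW p) (fun η => F (s.piecewise η (Function.update ω i a)))) := by
      intro F ω
      rw [ex_resample hp i]
      simp_rw [hpw]
      unfold Ex
      simp_rw [Finset.mul_sum]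
      rw [Finset.sum_comm]
      refine Finset.sum_congr rfl fun a _ => Finset.sum_congr rfl fun η _ => ?_
      ring
    have hmean : Ex (prodW p) (fun η' => f ((insert i s).piecewise η' ω))
        = Ex (p i) (fun a => g (Function.update ω i a)) := hfub f ω
    rw [hmean]
    set m := Ex (p i) (fun a => g (Function.update ω i a)) with hm
    have h1 := hfub (fun ζ => Real.exp (t * (f ζ - m))) ω
    rw [h1]
    have h2 : ∀ a, Ex (prodW p)
        (fun η => Real.exp (t * (f (s.piecewise η (Function.update ω i a)) - m)))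
        ≤ Real.exp (t * (g (Function.update ω i a) - m))
          * Real.exp (t ^ 2 * (∑ i ∈ s, v i)) := by
      intro a
      have h3 := ih f hf hv (Function.update ω i a)
      have h4 : (fun η => Real.exp (t * (f (s.piecewise η (Function.update ω i a)) - m)))
          = fun η => Real.exp (t * (g (Function.update ω i a) - m)) *
            Real.exp (t * (f (s.piecewise η (Function.update ω i a))
              - g (Function.update ω i a))) := by
        funext η
        rw [← Real.exp_add]
        congr 1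
        ring
      rw [h4, ex_mul_left]
      exact mul_le_mul_of_nonneg_left h3 (Real.exp_pos _).le
    refine (ex_mono (hp i) h2).trans ?_
    rw [ex_mul_right, Finset.sum_insert hi]
    -- updating commutes with the piecewise section
    have h9 : ∀ (η' : ∀ i, A i) (a a' : A i),
        Function.update (s.piecewise η' (Function.update ω i a')) i a
          = s.piecewise η' (Function.update ω i a) := by
      intro η' a a'
      ext j
      by_cases hj : j = i
      · subst hj
        rw [Function.update_self, Finset.piecewise_eq_of_notMem _ _ _ hi,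
          Function.update_self]
      · rw [Function.update_of_ne hj]
        by_cases hjs : j ∈ s
        · rw [Finset.piecewise_eq_of_mem _ _ _ hjs, Finset.piecewise_eq_of_mem _ _ _ hjs]
        · rw [Finset.piecewise_eq_of_notMem _ _ _ hjs,
            Finset.piecewise_eq_of_notMem _ _ _ hjs, Function.update_of_ne hj,
            Function.update_of_ne hj]
    have hdiff : ∀ a a', g (Function.update ω i a) - g (Function.update ω i a')
          = Ex (prodW p) (fun η' => f (s.piecewise η' (Function.update ω i a))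
            - f (s.piecewise η' (Function.update ω i a'))) := by
      intro a a'
      rw [ex_sub]
    have h5 : Ex (p i) (fun a => Real.exp (t * (g (Function.update ω i a) - m)))
        ≤ Real.exp (t ^ 2 * v i) := by
      refine bern_lemma (hp i) (fun a => g (Function.update ω i a)) (c i) (v i) ?_ (b i) ?_ t (ht i)
      · intro a a'
        rw [hdiff]
        have h7 : ∀ η', |f (s.piecewise η' (Function.update ω i a))
              - f (s.piecewise η' (Function.update ω i a'))| ≤ c i := by
          intro η'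
          have h8 := hf i (s.piecewise η' (Function.update ω i a')) a
          rw [h9] at h8
          exact h8
        rw [abs_le]
        constructor
        · exact const_le_ex (pw_prod hp) fun η' => (abs_le.1 (h7 η')).1
        · exact ex_le_const (pw_prod hp) fun η' => (abs_le.1 (h7 η')).2
      · have h10 : ∀ a, (g (Function.update ω i a) - g (Function.update ω i (b i))) ^ 2 ≤
            Ex (prodW p) (fun η' => (f (s.piecewise η' (Function.update ω i a))
              - f (s.piecewise η' (Function.update ω i (b i)))) ^ 2) := by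
          intro a
          rw [hdiff]
          exact sq_ex_le (pw_prod hp) _
        refine (ex_mono (hp i) h10).trans ?_
        have h11 : Ex (p i) (fun a => Ex (prodW p) (fun η' =>
            (f (s.piecewise η' (Function.update ω i a))
              - f (s.piecewise η' (Function.update ω i (b i)))) ^ 2))
            = Ex (prodW p) (fun η' => Ex (p i) (fun a =>
            (f (s.piecewise η' (Function.update ω i a))
              - f (s.piecewise η' (Function.update ω i (b i)))) ^ 2)) := by
          unfold Ex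
          simp_rw [Finset.mul_sum]
          rw [Finset.sum_comm]
          refine Finset.sum_congr rfl fun a _ => Finset.sum_congr rfl fun η _ => ?_
          ring
        rw [h11]
        refine ex_le_const (pw_prod hp) fun η' => ?_
        have h12 := hv i (s.piecewise η' ω)
        have h13 : ∀ a, Function.update (s.piecewise η' ω) i a
            = s.piecewise η' (Function.update ω i a) := by
          intro a
          have := h9 η' a (ω i)
          rwa [Function.update_eq_self] at this
        simp only [h13] at h12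
        exact h12
    refine (mul_le_mul_of_nonneg_right h5 (Real.exp_pos _).le).trans (le_of_eq ?_)
    rw [← Real.exp_add]
    congr 1
    ring

/-- Exponential moment, Bernstein form. -/
theorem bern_mgf {p : ∀ i, A i → ℝ} (hp : ∀ i, PW (p i)) (f : (∀ i, A i) → ℝ) (c v : ι → ℝ)
    (b : ∀ i, A i) (hf : ∀ i ω a, |f (Function.update ω i a) - f ω| ≤ c i)
    (hv : ∀ i ω, Ex (p i)
      (fun a => (f (Function.update ω i a) - f (Function.update ω i (b i))) ^ 2) ≤ v i)
    (t : ℝ) (ht : ∀ i, |t| * c i ≤ 1) :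
    Ex (prodW p) (fun η => Real.exp (t * (f η - Ex (prodW p) f)))
      ≤ Real.exp (t ^ 2 * (∑ i, v i)) := by
  have h := bern_aux hp c v b t ht univ f hf hv b
  simp only [Finset.piecewise_univ] at h
  exact h

/-- Bernstein-McDiarmid, upper tail. -/
theorem bern_upper {p : ∀ i, A i → ℝ} (hp : ∀ i, PW (p i)) (f : (∀ i, A i) → ℝ) (c v : ι → ℝ)
    (b : ∀ i, A i) (hf : ∀ i ω a, |f (Function.update ω i a) - f ω| ≤ c i)
    (hv : ∀ i ω, Ex (p i)
      (fun a => (f (Function.update ω i a) - f (Function.update ω i (b i))) ^ 2) ≤ v i)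
    (V : ℝ) (hV : 0 < V) (hvV : ∑ i, v i ≤ V) (C : ℝ) (hC : ∀ i, c i ≤ C)
    (x : ℝ) (hx : 0 ≤ x) (hxC : x * C ≤ 2 * V) :
    Pr (prodW p) (fun ω => Ex (prodW p) f + x ≤ f ω) ≤ Real.exp (-(x ^ 2 / (4 * V))) := by
  set t : ℝ := x / (2 * V) with ht
  have ht0 : 0 ≤ t := by positivity
  have htc : ∀ i, |t| * c i ≤ 1 := by
    intro i
    rw [abs_of_nonneg ht0]
    have h1 : t * c i ≤ t * C := mul_le_mul_of_nonneg_left (hC i) ht0
    have h2 : t * C ≤ 1 := by
      rw [ht, div_mul_eq_mul_div, div_le_one (by positivity)]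
      exact hxC
    linarith
  have h1 := bern_mgf hp f c v b hf hv t htc
  have h2 : Pr (prodW p) (fun ω => Ex (prodW p) f + x ≤ f ω)
      ≤ Ex (prodW p) (fun η => Real.exp (t * (f η - Ex (prodW p) f)) * Real.exp (-(t * x))) := by
    refine pr_le_ex (pw_prod hp) (fun ω => by positivity) fun ω hω => ?_
    rw [← Real.exp_add]
    refine Real.one_le_exp ?_
    have : t * x ≤ t * (f ω - Ex (prodW p) f) := mul_le_mul_of_nonneg_left (by linarith) ht0
    linarith
  rw [ex_mul_right] at h2
  refine h2.trans ((mul_le_mul_of_nonneg_right h1 (Real.exp_pos _).le).trans ?_)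
  rw [← Real.exp_add]
  refine Real.exp_le_exp.2 ?_
  have h3 : t ^ 2 * (∑ i, v i) ≤ t ^ 2 * V := mul_le_mul_of_nonneg_left hvV (sq_nonneg t)
  have h4 : t ^ 2 * V + -(t * x) = -(x ^ 2 / (4 * V)) := by
    rw [ht]
    field_simp
    ring
  linarith

/-- Bernstein-McDiarmid, lower tail. -/
theorem bern_lower {p : ∀ i, A i → ℝ} (hp : ∀ i, PW (p i)) (f : (∀ i, A i) → ℝ) (c v : ι → ℝ)
    (b : ∀ i, A i) (hf : ∀ i ω a, |f (Function.update ω i a) - f ω| ≤ c i)
    (hv : ∀ i ω, Ex (p i)
      (fun a => (f (Function.update ω i a) - f (Function.update ω i (b i))) ^ 2) ≤ v i)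
    (V : ℝ) (hV : 0 < V) (hvV : ∑ i, v i ≤ V) (C : ℝ) (hC : ∀ i, c i ≤ C)
    (x : ℝ) (hx : 0 ≤ x) (hxC : x * C ≤ 2 * V) :
    Pr (prodW p) (fun ω => f ω ≤ Ex (prodW p) f - x) ≤ Real.exp (-(x ^ 2 / (4 * V))) := by
  have h := bern_upper hp (fun ω => - f ω) c v b (fun i ω a => by
    rw [show - f (Function.update ω i a) - - f ω = -(f (Function.update ω i a) - f ω) by ring,
      abs_neg]
    exact hf i ω a) (fun i ω => by
    have := hv i ω
    have e : (fun a => (- f (Function.update ω i a) - - f (Function.update ω i (b i))) ^ 2)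
        = fun a => (f (Function.update ω i a) - f (Function.update ω i (b i))) ^ 2 := by
      funext a; ring
    rw [e]; exact this) V hV hvV C hC x hx hxC
  refine le_trans (pr_mono (pw_prod hp) ?_) h
  intro ω hω
  rw [ex_neg]
  linarith

/-- Bernstein-McDiarmid, two sided. -/
theorem bern_two {p : ∀ i, A i → ℝ} (hp : ∀ i, PW (p i)) (f : (∀ i, A i) → ℝ) (c v : ι → ℝ)
    (b : ∀ i, A i) (hf : ∀ i ω a, |f (Function.update ω i a) - f ω| ≤ c i)
    (hv : ∀ i ω, Ex (p i)
      (fun a => (f (Function.update ω i a) - f (Function.update ω i (b i))) ^ 2) ≤ v i)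
    (V : ℝ) (hV : 0 < V) (hvV : ∑ i, v i ≤ V) (C : ℝ) (hC : ∀ i, c i ≤ C)
    (x : ℝ) (hx : 0 ≤ x) (hxC : x * C ≤ 2 * V) :
    Pr (prodW p) (fun ω => x ≤ |f ω - Ex (prodW p) f|) ≤ 2 * Real.exp (-(x ^ 2 / (4 * V))) := by
  have h1 := bern_upper hp f c v b hf hv V hV hvV C hC x hx hxC
  have h2 := bern_lower hp f c v b hf hv V hV hvV C hC x hx hxC
  refine le_trans (pr_mono (pw_prod hp) (F := fun ω => (Ex (prodW p) f + x ≤ f ω) ∨
    (f ω ≤ Ex (prodW p) f - x)) ?_) ((pr_or (pw_prod hp) _ _).trans (by linarith))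
  intro ω hω
  rcases le_abs.1 hω with h | h
  · left; linarith
  · right; linarith

end Prod

section Coins

variable {ι : Type*} [Fintype ι] [DecidableEq ι]

theorem coin_hyp (q : ι → ℝ) (hq0 : ∀ i, 0 ≤ q i) (hq1 : ∀ i, q i ≤ 1) (f : (ι → Bool) → ℝ)
    (c : ι → ℝ)
    (hf : ∀ i ω, |f (Function.update ω i true) - f (Function.update ω i false)| ≤ c i) :
    (∀ i (ω : ι → Bool) (a : Bool), |f (Function.update ω i a) - f ω| ≤ c i) ∧
    (∀ i (ω : ι → Bool), Ex (coinW (q i)) (fun a => (f (Function.update ω i a)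
      - f (Function.update ω i false)) ^ 2) ≤ q i * c i ^ 2) := by
  constructor
  · intro i ω a
    have h1 := hf i ω
    have h0 : 0 ≤ c i := le_trans (abs_nonneg _) h1
    have h2 : f ω = f (Function.update ω i (ω i)) := by rw [Function.update_eq_self]
    rw [h2]
    cases hω : ω i <;> cases a
    · simpa using h0
    · exact h1
    · rw [abs_sub_comm]; exact h1
    · simpa using h0
  · intro i ω
    have h1 := hf i ω
    have h2 : (f (Function.update ω i true) - f (Function.update ω i false)) ^ 2 ≤ c i ^ 2 := by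
      have h0 : 0 ≤ c i := le_trans (abs_nonneg _) h1
      exact sq_le_sq' (by linarith [(abs_le.1 h1).1]) (abs_le.1 h1).2
    unfold Ex coinW
    simp only [Fintype.sum_bool, if_true, sub_self]
    have h3 := mul_le_mul_of_nonneg_left h2 (hq0 i)
    norm_num
    exact h3

/-- Random subsets with element probabilities `q i`; upper tail. -/
theorem coins_upper (q : ι → ℝ) (hq0 : ∀ i, 0 ≤ q i) (hq1 : ∀ i, q i ≤ 1) (f : (ι → Bool) → ℝ)
    (c : ι → ℝ)
    (hf : ∀ i ω, |f (Function.update ω i true) - f (Function.update ω i false)| ≤ c i)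
    (V : ℝ) (hV : 0 < V) (hvV : ∑ i, q i * c i ^ 2 ≤ V) (C : ℝ) (hC : ∀ i, c i ≤ C)
    (x : ℝ) (hx : 0 ≤ x) (hxC : x * C ≤ 2 * V) :
    Pr (prodW fun i => coinW (q i)) (fun ω => Ex (prodW fun i => coinW (q i)) f + x ≤ f ω)
      ≤ Real.exp (-(x ^ 2 / (4 * V))) :=
  bern_upper (A := fun _ => Bool) (fun i => pw_coin (hq0 i) (hq1 i)) f c (fun i => q i * c i ^ 2)
    (fun _ => false) (coin_hyp q hq0 hq1 f c hf).1 (coin_hyp q hq0 hq1 f c hf).2 V hV hvV C hC x hx
    hxC

/-- Random subsets with element probabilities `q i`; lower tail. -/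
theorem coins_lower (q : ι → ℝ) (hq0 : ∀ i, 0 ≤ q i) (hq1 : ∀ i, q i ≤ 1) (f : (ι → Bool) → ℝ)
    (c : ι → ℝ)
    (hf : ∀ i ω, |f (Function.update ω i true) - f (Function.update ω i false)| ≤ c i)
    (V : ℝ) (hV : 0 < V) (hvV : ∑ i, q i * c i ^ 2 ≤ V) (C : ℝ) (hC : ∀ i, c i ≤ C)
    (x : ℝ) (hx : 0 ≤ x) (hxC : x * C ≤ 2 * V) :
    Pr (prodW fun i => coinW (q i)) (fun ω => f ω ≤ Ex (prodW fun i => coinW (q i)) f - x)
      ≤ Real.exp (-(x ^ 2 / (4 * V))) :=
  bern_lower (A := fun _ => Bool) (fun i => pw_coin (hq0 i) (hq1 i)) f c (fun i => q i * c i ^ 2)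
    (fun _ => false) (coin_hyp q hq0 hq1 f c hf).1 (coin_hyp q hq0 hq1 f c hf).2 V hV hvV C hC x hx
    hxC

/-- Random subsets with element probabilities `q i`; two sided. -/
theorem coins_two (q : ι → ℝ) (hq0 : ∀ i, 0 ≤ q i) (hq1 : ∀ i, q i ≤ 1) (f : (ι → Bool) → ℝ)
    (c : ι → ℝ)
    (hf : ∀ i ω, |f (Function.update ω i true) - f (Function.update ω i false)| ≤ c i)
    (V : ℝ) (hV : 0 < V) (hvV : ∑ i, q i * c i ^ 2 ≤ V) (C : ℝ) (hC : ∀ i, c i ≤ C)
    (x : ℝ) (hx : 0 ≤ x) (hxC : x * C ≤ 2 * V) :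
    Pr (prodW fun i => coinW (q i)) (fun ω => x ≤ |f ω - Ex (prodW fun i => coinW (q i)) f|)
      ≤ 2 * Real.exp (-(x ^ 2 / (4 * V))) :=
  bern_two (A := fun _ => Bool) (fun i => pw_coin (hq0 i) (hq1 i)) f c (fun i => q i * c i ^ 2)
    (fun _ => false) (coin_hyp q hq0 hq1 f c hf).1 (coin_hyp q hq0 hq1 f c hf).2 V hV hvV C hC x hx
    hxC

end Coins

end

end NWC
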