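import Pool.Agent.NW.TailPerm

/-! # One bite of the bijection nibble: the probabilistic part

`φ : V ≃ Γ` a uniformly random bijection onto an abelian group; for `x ≠ y` and relations `A`, `B`
the number of `z ∈ Z` with `¬ A z (φ⁻¹(-φ x - φ z))` and `¬ B z (φ⁻¹(-φ y - φ z))` is concentrated
around `∑ z ∈ Z, (1 - dA z / n) (1 - dB z / n)`. -/

set_option autoImplicit false

open Finset

namespace NWT

/-- three-fold transitivity of the symmetric group -/
theorem exists_perm_three {W : Type*} [DecidableEq W] {a b c a' b' c' : W} (hab : a ≠ b)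
    (hac : a ≠ c) (hbc : b ≠ c) (hab' : a' ≠ b') (hac' : a' ≠ c') (hbc' : b' ≠ c') :
    ∃ π : Equiv.Perm W, π a = a' ∧ π b = b' ∧ π c = c' := by
  obtain ⟨π1, h1⟩ : ∃ π : Equiv.Perm W, π a = a' := ⟨Equiv.swap a a', Equiv.swap_apply_left _ _⟩
  have hb1 : π1 b ≠ a' := fun h => hab (π1.injective (h1.trans h.symm))
  obtain ⟨π2, h2a, h2b⟩ : ∃ π : Equiv.Perm W, π a' = a' ∧ π (π1 b) = b' :=
    ⟨Equiv.swap (π1 b) b', Equiv.swap_apply_of_ne_of_ne hb1.symm hab',
      Equiv.swap_apply_left _ _⟩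
  have hc1 : π2 (π1 c) ≠ a' := fun h => hac (π1.injective (h1.trans
    (π2.injective (h2a.trans h.symm))))
  have hc2 : π2 (π1 c) ≠ b' := fun h => hbc (π1.injective (π2.injective (h2b.trans h.symm)))
  refine ⟨Equiv.swap (π2 (π1 c)) c' * (π2 * π1), ?_, ?_, ?_⟩
  · rw [Equiv.Perm.mul_apply, Equiv.Perm.mul_apply, h1, h2a]
    exact Equiv.swap_apply_of_ne_of_ne hc1.symm hac'
  · rw [Equiv.Perm.mul_apply, Equiv.Perm.mul_apply, h2b]
    exact Equiv.swap_apply_of_ne_of_ne hc2.symm hbc'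
  · rw [Equiv.Perm.mul_apply, Equiv.Perm.mul_apply]
    exact Equiv.swap_apply_left _ _

section Main

variable {V : Type} [Fintype V] [DecidableEq V]

/-- the complement of `{x, y}` -/
abbrev Wt (x y : V) : Type := {v : V // v ≠ x ∧ v ≠ y}

/-- extension of a permutation of the complement of `{x, y}` -/
def hat {x y : V} (ρ : Equiv.Perm (Wt x y)) : Equiv.Perm V := Equiv.Perm.ofSubtype ρ

theorem hat_left {x y : V} (ρ : Equiv.Perm (Wt x y)) : hat ρ x = x :=
  Equiv.Perm.ofSubtype_apply_of_not_mem _ (by simp)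

theorem hat_right {x y : V} (ρ : Equiv.Perm (Wt x y)) : hat ρ y = y :=
  Equiv.Perm.ofSubtype_apply_of_not_mem _ (by simp)

theorem hat_apply {x y : V} (ρ : Equiv.Perm (Wt x y)) (v : Wt x y) : hat ρ v = (ρ v : V) :=
  Equiv.Perm.ofSubtype_apply_coe _ _

theorem hat_mul {x y : V} (ρ τ : Equiv.Perm (Wt x y)) : hat (ρ * τ) = hat ρ * hat τ :=
  map_mul _ _ _

theorem hat_inv {x y : V} (ρ : Equiv.Perm (Wt x y)) : hat ρ⁻¹ = (hat ρ)⁻¹ :=
  map_inv _ _

theorem hat_swap {x y : V} (u v : Wt x y) :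
    hat (Equiv.swap u v) = Equiv.swap (u : V) (v : V) := by
  unfold hat
  exact Equiv.Perm.ofSubtype_swap_eq u v

/-- triples of distinct elements outside `{x, y}` -/
def D3 (x y : V) : Finset (V × V × V) :=
  univ.filter fun t => (t.1 ≠ x ∧ t.1 ≠ y) ∧ (t.2.1 ≠ x ∧ t.2.1 ≠ y) ∧ (t.2.2 ≠ x ∧ t.2.2 ≠ y) ∧
    t.1 ≠ t.2.1 ∧ t.1 ≠ t.2.2 ∧ t.2.1 ≠ t.2.2

theorem hat_ne {x y : V} (ρ : Equiv.Perm (Wt x y)) {v : V} (h : v ≠ x ∧ v ≠ y) :
    hat ρ v ≠ x ∧ hat ρ v ≠ y := by
  constructor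
  · intro h'
    exact h.1 ((hat ρ).injective (h'.trans (hat_left ρ).symm))
  · intro h'
    exact h.2 ((hat ρ).injective (h'.trans (hat_right ρ).symm))

theorem hat_mem_D3 {x y : V} (ρ : Equiv.Perm (Wt x y)) {t : V × V × V} (h : t ∈ D3 x y) :
    (hat ρ t.1, hat ρ t.2.1, hat ρ t.2.2) ∈ D3 x y := by
  simp only [D3, mem_filter, mem_univ, true_and] at h ⊢
  obtain ⟨h1, h2, h3, h4, h5, h6⟩ := h
  exact ⟨hat_ne ρ h1, hat_ne ρ h2, hat_ne ρ h3, (hat ρ).injective.ne h4,
    (hat ρ).injective.ne h5, (hat ρ).injective.ne h6⟩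

theorem sum_hat_D3 {x y : V} (ρ : Equiv.Perm (Wt x y)) (h : V → V → V → ℝ) :
    ∑ t ∈ D3 x y, h (hat ρ t.1) (hat ρ t.2.1) (hat ρ t.2.2) = ∑ t ∈ D3 x y, h t.1 t.2.1 t.2.2 := by
  refine Finset.sum_nbij' (fun t => (hat ρ t.1, hat ρ t.2.1, hat ρ t.2.2))
    (fun t => (hat ρ⁻¹ t.1, hat ρ⁻¹ t.2.1, hat ρ⁻¹ t.2.2)) (fun t ht => hat_mem_D3 ρ ht)
    (fun t ht => hat_mem_D3 ρ⁻¹ ht) ?_ ?_ ?_
  · intro t _
    simp [hat_inv]
  · intro t _
    simp [hat_inv]
  · intro t _
    rfl

/-- three-point function of a random permutation -/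
theorem avg_three {x y : V} (h : V → V → V → ℝ) {c : V × V × V} (hc : c ∈ D3 x y) :
    (D3 x y).card * avg (fun ρ : Equiv.Perm (Wt x y) => h (hat ρ c.1) (hat ρ c.2.1) (hat ρ c.2.2)) =
      ∑ t ∈ D3 x y, h t.1 t.2.1 t.2.2 := by
  have key : ∀ t ∈ D3 x y,
      avg (fun ρ : Equiv.Perm (Wt x y) => h (hat ρ t.1) (hat ρ t.2.1) (hat ρ t.2.2)) =
      avg (fun ρ : Equiv.Perm (Wt x y) => h (hat ρ c.1) (hat ρ c.2.1) (hat ρ c.2.2)) := by
    intro t ht
    simp only [D3, mem_filter, mem_univ, true_and] at ht hc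
    obtain ⟨h1, h2, h3, h4, h5, h6⟩ := ht
    obtain ⟨g1, g2, g3, g4, g5, g6⟩ := hc
    obtain ⟨π, p1, p2, p3⟩ := exists_perm_three (W := Wt x y) (a := ⟨c.1, g1⟩) (b := ⟨c.2.1, g2⟩)
      (c := ⟨c.2.2, g3⟩) (a' := ⟨t.1, h1⟩) (b' := ⟨t.2.1, h2⟩) (c' := ⟨t.2.2, h3⟩)
      (fun h => g4 (Subtype.ext_iff.1 h)) (fun h => g5 (Subtype.ext_iff.1 h))
      (fun h => g6 (Subtype.ext_iff.1 h)) (fun h => h4 (Subtype.ext_iff.1 h))
      (fun h => h5 (Subtype.ext_iff.1 h)) (fun h => h6 (Subtype.ext_iff.1 h))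
    have q1 : hat π c.1 = t.1 := by
      have := hat_apply π ⟨c.1, g1⟩; rw [p1] at this; exact this
    have q2 : hat π c.2.1 = t.2.1 := by
      have := hat_apply π ⟨c.2.1, g2⟩; rw [p2] at this; exact this
    have q3 : hat π c.2.2 = t.2.2 := by
      have := hat_apply π ⟨c.2.2, g3⟩; rw [p3] at this; exact this
    have := avg_equiv (Equiv.mulRight π)
      (fun ρ : Equiv.Perm (Wt x y) => h (hat ρ c.1) (hat ρ c.2.1) (hat ρ c.2.2))
    rw [← this]
    congr 1
    funext ρ
    simp only [Equiv.coe_mulRight]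
    rw [hat_mul, Equiv.Perm.mul_apply, Equiv.Perm.mul_apply, Equiv.Perm.mul_apply, q1, q2, q3]
  have h1 : ((D3 x y).card : ℝ) *
      avg (fun ρ : Equiv.Perm (Wt x y) => h (hat ρ c.1) (hat ρ c.2.1) (hat ρ c.2.2)) =
      ∑ t ∈ D3 x y,
        avg (fun ρ : Equiv.Perm (Wt x y) => h (hat ρ t.1) (hat ρ t.2.1) (hat ρ t.2.2)) := by
    rw [Finset.sum_congr rfl key, Finset.sum_const, nsmul_eq_mul]
  rw [h1, ← avg_sum]
  have h2 : (fun ρ : Equiv.Perm (Wt x y) => ∑ t ∈ D3 x y,
      h (hat ρ t.1) (hat ρ t.2.1) (hat ρ t.2.2)) =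
      fun _ => ∑ t ∈ D3 x y, h t.1 t.2.1 t.2.2 := by
    funext ρ
    exact sum_hat_D3 ρ h
  rw [h2, avg_const]

/-- all but `9 n²` of the `n³` triples are in `D3` -/
theorem card_D3 (x y : V) : (Fintype.card V : ℝ) ^ 3 - 9 * (Fintype.card V : ℝ) ^ 2 ≤
    ((D3 x y).card : ℝ) := by
  set n := Fintype.card V with hn
  have hsub : (univ : Finset (V × V × V)) ⊆ D3 x y ∪
      (((({x, y} : Finset V) ×ˢ (univ : Finset (V × V))) ∪
        ((univ : Finset V) ×ˢ (({x, y} : Finset V) ×ˢ (univ : Finset V)))) ∪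
        (((univ : Finset V) ×ˢ ((univ : Finset V) ×ˢ ({x, y} : Finset V))) ∪
        (((univ : Finset (V × V)).image fun p => (p.1, p.1, p.2)) ∪
        (((univ : Finset (V × V)).image fun p => (p.1, p.2, p.1)) ∪
        ((univ : Finset (V × V)).image fun p => (p.1, p.2, p.2)))))) := by
    intro t _
    by_cases ht : t ∈ D3 x y
    · exact mem_union_left _ ht
    · apply mem_union_right
      simp only [D3, mem_filter, mem_univ, true_and] at ht
      simp only [mem_union, mem_product, mem_insert, mem_singleton, mem_univ, and_true, true_and,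
        mem_image]
      by_cases h1 : t.1 = x ∨ t.1 = y
      · exact Or.inl (Or.inl h1)
      by_cases h2 : t.2.1 = x ∨ t.2.1 = y
      · exact Or.inl (Or.inr h2)
      by_cases h3 : t.2.2 = x ∨ t.2.2 = y
      · exact Or.inr (Or.inl h3)
      refine Or.inr (Or.inr ?_)
      push Not at h1 h2 h3
      by_cases h4 : t.1 = t.2.1
      · exact Or.inl ⟨(t.1, t.2.2), by ext <;> simp [h4]⟩
      by_cases h5 : t.1 = t.2.2
      · exact Or.inr (Or.inl ⟨(t.1, t.2.1), by ext <;> simp [h5]⟩)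
      by_cases h6 : t.2.1 = t.2.2
      · exact Or.inr (Or.inr ⟨(t.1, t.2.1), by ext <;> simp [h6]⟩)
      exact absurd ⟨h1, h2, h3, h4, h5, h6⟩ ht
  have h1 := Finset.card_le_card hsub
  have hxy : ({x, y} : Finset V).card ≤ 2 := Finset.card_le_two
  have c0 : (univ : Finset (V × V × V)).card = n ^ 3 := by
    rw [Finset.card_univ, Fintype.card_prod, Fintype.card_prod]; ring
  have c1 : (({x, y} : Finset V) ×ˢ (univ : Finset (V × V))).card ≤ 2 * n ^ 2 := by
    rw [card_product, Finset.card_univ, Fintype.card_prod]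
    nlinarith [Nat.zero_le (n * n)]
  have c2 : ((univ : Finset V) ×ˢ (({x, y} : Finset V) ×ˢ (univ : Finset V))).card ≤ 2 * n ^ 2 := by
    rw [card_product, card_product, Finset.card_univ]
    have : ({x, y} : Finset V).card * n ≤ 2 * n := Nat.mul_le_mul_right _ hxy
    calc n * (({x, y} : Finset V).card * n) ≤ n * (2 * n) := Nat.mul_le_mul_left _ this
      _ = 2 * n ^ 2 := by ring
  have c3 : ((univ : Finset V) ×ˢ ((univ : Finset V) ×ˢ ({x, y} : Finset V))).card ≤ 2 * n ^ 2 := by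
    rw [card_product, card_product, Finset.card_univ]
    have : n * ({x, y} : Finset V).card ≤ n * 2 := Nat.mul_le_mul_left _ hxy
    calc n * (n * ({x, y} : Finset V).card) ≤ n * (n * 2) := Nat.mul_le_mul_left _ this
      _ = 2 * n ^ 2 := by ring
  have hp : (univ : Finset (V × V)).card = n ^ 2 := by
    rw [Finset.card_univ, Fintype.card_prod]; ring
  have c4 : ((univ : Finset (V × V)).image fun p => (p.1, p.1, p.2)).card ≤ n ^ 2 :=
    hp ▸ card_image_le
  have c5 : ((univ : Finset (V × V)).image fun p => (p.1, p.2, p.1)).card ≤ n ^ 2 :=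
    hp ▸ card_image_le
  have c6 : ((univ : Finset (V × V)).image fun p => (p.1, p.2, p.2)).card ≤ n ^ 2 :=
    hp ▸ card_image_le
  have h2 : n ^ 3 ≤ (D3 x y).card + 9 * n ^ 2 := by
    rw [c0] at h1
    refine h1.trans ?_
    refine (card_union_le _ _).trans (Nat.add_le_add_left ?_ _)
    refine (card_union_le _ _).trans ?_
    have d1 := card_union_le (({x, y} : Finset V) ×ˢ (univ : Finset (V × V)))
      ((univ : Finset V) ×ˢ (({x, y} : Finset V) ×ˢ (univ : Finset V)))
    have d2 := card_union_le (((univ : Finset V) ×ˢ ((univ : Finset V) ×ˢ ({x, y} : Finset V))))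
      (((univ : Finset (V × V)).image fun p => (p.1, p.1, p.2)) ∪
        (((univ : Finset (V × V)).image fun p => (p.1, p.2, p.1)) ∪
        ((univ : Finset (V × V)).image fun p => (p.1, p.2, p.2))))
    have d3 := card_union_le (((univ : Finset (V × V)).image fun p => (p.1, p.1, p.2)))
        (((univ : Finset (V × V)).image fun p => (p.1, p.2, p.1)) ∪
        ((univ : Finset (V × V)).image fun p => (p.1, p.2, p.2)))
    have d4 := card_union_le ((univ : Finset (V × V)).image fun p => (p.1, p.2, p.1))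
        ((univ : Finset (V × V)).image fun p => (p.1, p.2, p.2))
    omega
  have h3 : (n : ℝ) ^ 3 ≤ ((D3 x y).card : ℝ) + 9 * (n : ℝ) ^ 2 := by exact_mod_cast h2
  linarith

/-- average over `D3` against average over all triples -/
theorem avg_D3 {x y : V} (h : V → V → V → ℝ) (h0 : ∀ a b c, 0 ≤ h a b c) (h1 : ∀ a b c, h a b c ≤ 1)
    (hD : 0 < (D3 x y).card) (hn : 0 < Fintype.card V) :
    |(∑ t ∈ D3 x y, h t.1 t.2.1 t.2.2) / (D3 x y).card -
      (∑ a, ∑ b, ∑ c, h a b c) / (Fintype.card V : ℝ) ^ 3| ≤ 9 / Fintype.card V := by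
  set n : ℝ := (Fintype.card V : ℝ) with hnn
  have hn' : 0 < n := Nat.cast_pos.2 hn
  set d : ℝ := ((D3 x y).card : ℝ) with hd
  have hd' : 0 < d := Nat.cast_pos.2 hD
  set T := ∑ t ∈ D3 x y, h t.1 t.2.1 t.2.2 with hT
  set S := ∑ a, ∑ b, ∑ c, h a b c with hS
  have hS2 : S = ∑ t : V × V × V, h t.1 t.2.1 t.2.2 := by
    rw [Fintype.sum_prod_type]
    refine Finset.sum_congr rfl fun a _ => ?_
    rw [Fintype.sum_prod_type]
  have hcard : ((univ : Finset (V × V × V)).card : ℝ) = n ^ 3 := by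
    rw [Finset.card_univ, Fintype.card_prod, Fintype.card_prod]; push_cast; ring
  have hdn : d ≤ n ^ 3 := by
    rw [← hcard, hd]
    exact_mod_cast Finset.card_le_card (Finset.subset_univ _)
  have hTS : T ≤ S := by
    rw [hS2]
    exact Finset.sum_le_sum_of_subset_of_nonneg (Finset.subset_univ _) fun _ _ _ => h0 _ _ _
  have hST : S ≤ T + (n ^ 3 - d) := by
    rw [hS2, ← Finset.sum_sdiff (Finset.subset_univ (D3 x y)), add_comm]
    refine add_le_add le_rfl ?_
    calc ∑ t ∈ univ \ D3 x y, h t.1 t.2.1 t.2.2 ≤ ∑ t ∈ univ \ D3 x y, (1 : ℝ) :=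
          Finset.sum_le_sum fun _ _ => h1 _ _ _
      _ = n ^ 3 - d := by
          rw [Finset.sum_const, nsmul_eq_mul, mul_one, ← hcard, hd,
            Finset.card_sdiff_of_subset (Finset.subset_univ _), Nat.cast_sub
            (Finset.card_le_card (Finset.subset_univ _))]
  have hT0 : 0 ≤ T := Finset.sum_nonneg fun _ _ => h0 _ _ _
  have hTd : T ≤ d := by
    calc T ≤ ∑ t ∈ D3 x y, (1 : ℝ) := Finset.sum_le_sum fun _ _ => h1 _ _ _
      _ = d := by rw [Finset.sum_const, nsmul_eq_mul, mul_one]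
  have hc := card_D3 x y
  have h9 : 1 - d / n ^ 3 ≤ 9 / n := by
    rw [sub_le_iff_le_add, div_add_div _ _ hn'.ne' (pow_pos hn' 3).ne', le_div_iff₀ (by positivity)]
    nlinarith [hn']
  have hr : d / n ^ 3 ≤ 1 := (div_le_one (by positivity)).2 hdn
  have hq0 : 0 ≤ T / d := div_nonneg hT0 hd'.le
  have hq1 : T / d ≤ 1 := (div_le_one hd').2 hTd
  have hTn : T / n ^ 3 = (T / d) * (d / n ^ 3) := by field_simp
  have hSa : S / n ^ 3 ≤ T / n ^ 3 + (1 - d / n ^ 3) := by
    have : T / n ^ 3 + (1 - d / n ^ 3) = (T + (n ^ 3 - d)) / n ^ 3 := by field_simp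
    rw [this]
    exact div_le_div_of_nonneg_right hST (by positivity)
  have hSb : T / n ^ 3 ≤ S / n ^ 3 := div_le_div_of_nonneg_right hTS (by positivity)
  rw [abs_le]
  constructor
  · nlinarith
  · nlinarith

/-- the functional of a permutation -/
noncomputable def gsum {x y : V} (h : V → V → V → ℝ) (da db : V → V)
    (ρ : Equiv.Perm (Wt x y)) : ℝ := ∑ w, h (hat ρ w) (hat ρ (da w)) (hat ρ (db w))

theorem card_pre_le (f : V → V) (hf : Function.Injective f) (u v : V) :
    (univ.filter fun w => f w = u ∨ f w = v).card ≤ 2 := by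
  calc (univ.filter fun w => f w = u ∨ f w = v).card
      = ((univ.filter fun w => f w = u ∨ f w = v).image f).card :=
        (card_image_of_injective _ hf).symm
    _ ≤ ({u, v} : Finset V).card := by
        refine card_le_card fun a ha => ?_
        rw [mem_image] at ha
        obtain ⟨w, hw, rfl⟩ := ha
        rw [mem_filter] at hw
        simp only [mem_insert, mem_singleton]
        exact hw.2
    _ ≤ 2 := card_le_two

theorem gsum_lip {x y : V} (h : V → V → V → ℝ) (h0 : ∀ a b c, 0 ≤ h a b c)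
    (h1 : ∀ a b c, h a b c ≤ 1) {da db : V → V} (hda : Function.Injective da)
    (hdb : Function.Injective db) (ρ : Equiv.Perm (Wt x y)) (u v : Wt x y) :
    |gsum h da db (Equiv.swap u v * ρ) - gsum h da db ρ| ≤ 6 := by
  unfold gsum
  rw [← Finset.sum_sub_distrib]
  set Bd : Finset V := (univ.filter fun w => hat ρ w = (u : V) ∨ hat ρ w = (v : V)) ∪
    ((univ.filter fun w => hat ρ (da w) = (u : V) ∨ hat ρ (da w) = (v : V)) ∪
    (univ.filter fun w => hat ρ (db w) = (u : V) ∨ hat ρ (db w) = (v : V))) with hBd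
  have hcard : Bd.card ≤ 6 := by
    have c1 := card_pre_le (fun w => hat ρ w) (hat ρ).injective (u : V) (v : V)
    have c2 := card_pre_le (fun w => hat ρ (da w)) ((hat ρ).injective.comp hda) (u : V) (v : V)
    have c3 := card_pre_le (fun w => hat ρ (db w)) ((hat ρ).injective.comp hdb) (u : V) (v : V)
    have d1 := card_union_le (univ.filter fun w => hat ρ w = (u : V) ∨ hat ρ w = (v : V))
      ((univ.filter fun w => hat ρ (da w) = (u : V) ∨ hat ρ (da w) = (v : V)) ∪
      (univ.filter fun w => hat ρ (db w) = (u : V) ∨ hat ρ (db w) = (v : V)))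
    have d2 := card_union_le
      (univ.filter fun w => hat ρ (da w) = (u : V) ∨ hat ρ (da w) = (v : V))
      (univ.filter fun w => hat ρ (db w) = (u : V) ∨ hat ρ (db w) = (v : V))
    beta_reduce at c1 c2 c3
    rw [← hBd] at d1
    omega
  have hswap : ∀ w : V, ¬ (w = (u : V) ∨ w = (v : V)) →
      hat (Equiv.swap u v) w = w := by
    intro w hw
    push Not at hw
    rw [hat_swap]
    exact Equiv.swap_apply_of_ne_of_ne hw.1 hw.2
  have hz : ∀ w ∉ Bd, h (hat (Equiv.swap u v * ρ) w) (hat (Equiv.swap u v * ρ) (da w))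
      (hat (Equiv.swap u v * ρ) (db w)) - h (hat ρ w) (hat ρ (da w)) (hat ρ (db w)) = 0 := by
    intro w hw
    simp only [hBd, mem_union, mem_filter, mem_univ, true_and, not_or] at hw
    rw [hat_mul, Equiv.Perm.mul_apply, Equiv.Perm.mul_apply, Equiv.Perm.mul_apply,
      hswap _ (by rw [not_or]; exact hw.1), hswap _ (by rw [not_or]; exact hw.2.1),
      hswap _ (by rw [not_or]; exact hw.2.2), sub_self]
  rw [← Finset.sum_subset (Finset.subset_univ Bd) fun w _ hw => hz w hw]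
  refine (Finset.abs_sum_le_sum_abs _ _).trans ?_
  calc ∑ w ∈ Bd, abs (h (hat (Equiv.swap u v * ρ) w) (hat (Equiv.swap u v * ρ) (da w))
        (hat (Equiv.swap u v * ρ) (db w)) - h (hat ρ w) (hat ρ (da w)) (hat ρ (db w)))
      ≤ ∑ w ∈ Bd, (1 : ℝ) := by
        refine Finset.sum_le_sum fun w _ => ?_
        rw [abs_le]
        constructor <;> linarith [h0 (hat (Equiv.swap u v * ρ) w)
          (hat (Equiv.swap u v * ρ) (da w)) (hat (Equiv.swap u v * ρ) (db w)),
          h1 (hat (Equiv.swap u v * ρ) w)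
          (hat (Equiv.swap u v * ρ) (da w)) (hat (Equiv.swap u v * ρ) (db w)),
          h0 (hat ρ w) (hat ρ (da w)) (hat ρ (db w)), h1 (hat ρ w) (hat ρ (da w)) (hat ρ (db w))]
    _ = Bd.card := by rw [Finset.sum_const, nsmul_eq_mul, mul_one]
    _ ≤ 6 := by exact_mod_cast hcard

/-- the mean of the functional -/
theorem gsum_mean {x y : V} (h : V → V → V → ℝ) (h0 : ∀ a b c, 0 ≤ h a b c)
    (h1 : ∀ a b c, h a b c ≤ 1) {da db : V → V} (hda : Function.Injective da)
    (hdb : Function.Injective db) (hab : ∀ w, da w ≠ db w)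
    (hfa : (univ.filter fun w => w = da w).card ≤ 2) (hfb : (univ.filter fun w => w = db w).card ≤ 2) :
    |avg (fun ρ : Equiv.Perm (Wt x y) => gsum h da db ρ) -
      (∑ a, ∑ b, ∑ c, h a b c) / (Fintype.card V : ℝ) ^ 2| ≤ 19 := by
  rcases Nat.eq_zero_or_pos (Fintype.card V) with hn0 | hn0
  · have : IsEmpty V := Fintype.card_eq_zero_iff.1 hn0
    simp [gsum, avg]
  set n : ℝ := (Fintype.card V : ℝ) with hnn
  have hn' : 0 < n := Nat.cast_pos.2 hn0
  set S := ∑ a, ∑ b, ∑ c, h a b c with hS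
  have hS0 : 0 ≤ S := Finset.sum_nonneg fun _ _ => Finset.sum_nonneg fun _ _ =>
    Finset.sum_nonneg fun _ _ => h0 _ _ _
  have hS1 : S ≤ n ^ 3 := by
    calc S ≤ ∑ _a : V, ∑ _b : V, ∑ _c : V, (1 : ℝ) := Finset.sum_le_sum fun _ _ =>
          Finset.sum_le_sum fun _ _ => Finset.sum_le_sum fun _ _ => h1 _ _ _
      _ = n ^ 3 := by
          simp only [Finset.sum_const, Finset.card_univ, nsmul_eq_mul, mul_one]
          ring
  have e1 : avg (fun ρ : Equiv.Perm (Wt x y) => gsum h da db ρ) =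
      ∑ w, avg (fun ρ : Equiv.Perm (Wt x y) => h (hat ρ w) (hat ρ (da w)) (hat ρ (db w))) := by
    unfold gsum
    exact avg_sum _ _
  have e2 : S / n ^ 2 = ∑ _w : V, S / n ^ 3 := by
    rw [Finset.sum_const, Finset.card_univ, nsmul_eq_mul, ← hnn]
    field_simp
  rw [e1, e2, ← Finset.sum_sub_distrib]
  refine (Finset.abs_sum_le_sum_abs _ _).trans ?_
  set Bd : Finset V := (univ.filter fun w => w = x ∨ w = y) ∪
    ((univ.filter fun w => da w = x ∨ da w = y) ∪ ((univ.filter fun w => db w = x ∨ db w = y) ∪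
    ((univ.filter fun w => w = da w) ∪ (univ.filter fun w => w = db w)))) with hBd
  have hcard : Bd.card ≤ 10 := by
    have c1 := card_pre_le (fun w : V => w) Function.injective_id x y
    have c2 := card_pre_le da hda x y
    have c3 := card_pre_le db hdb x y
    have d1 := card_union_le (univ.filter fun w : V => w = x ∨ w = y)
      ((univ.filter fun w => da w = x ∨ da w = y) ∪ ((univ.filter fun w => db w = x ∨ db w = y) ∪
      ((univ.filter fun w => w = da w) ∪ (univ.filter fun w => w = db w))))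
    have d2 := card_union_le (univ.filter fun w => da w = x ∨ da w = y)
      ((univ.filter fun w => db w = x ∨ db w = y) ∪
      ((univ.filter fun w => w = da w) ∪ (univ.filter fun w => w = db w)))
    have d3 := card_union_le (univ.filter fun w => db w = x ∨ db w = y)
      ((univ.filter fun w => w = da w) ∪ (univ.filter fun w => w = db w))
    have d4 := card_union_le (univ.filter fun w => w = da w) (univ.filter fun w => w = db w)
    beta_reduce at c1 c2 c3
    rw [← hBd] at d1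
    omega
  have hgood : ∀ w ∉ Bd,
      |avg (fun ρ : Equiv.Perm (Wt x y) => h (hat ρ w) (hat ρ (da w)) (hat ρ (db w))) -
        S / n ^ 3| ≤ 9 / n := by
    intro w hw
    simp only [hBd, mem_union, mem_filter, mem_univ, true_and, not_or] at hw
    have hc : (w, da w, db w) ∈ D3 x y := by
      simp only [D3, mem_filter, mem_univ, true_and]
      exact ⟨hw.1, hw.2.1, hw.2.2.1, hw.2.2.2.1, hw.2.2.2.2, hab w⟩
    have hD : 0 < (D3 x y).card := Finset.card_pos.2 ⟨_, hc⟩
    have := avg_three h hc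
    have hD' : (0 : ℝ) < (D3 x y).card := by exact_mod_cast hD
    have e3 : avg (fun ρ : Equiv.Perm (Wt x y) => h (hat ρ w) (hat ρ (da w)) (hat ρ (db w))) =
        (∑ t ∈ D3 x y, h t.1 t.2.1 t.2.2) / (D3 x y).card := by
      rw [eq_div_iff hD'.ne', mul_comm]
      exact this
    rw [e3]
    exact avg_D3 h h0 h1 hD hn0
  have hbad : ∀ w,
      |avg (fun ρ : Equiv.Perm (Wt x y) => h (hat ρ w) (hat ρ (da w)) (hat ρ (db w))) -
        S / n ^ 3| ≤ 1 := by
    intro w
    have g0 : 0 ≤ avg (fun ρ : Equiv.Perm (Wt x y) => h (hat ρ w) (hat ρ (da w))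
        (hat ρ (db w))) := avg_nonneg fun _ => h0 _ _ _
    have g1 : avg (fun ρ : Equiv.Perm (Wt x y) => h (hat ρ w) (hat ρ (da w))
        (hat ρ (db w))) ≤ 1 := by
      calc _ ≤ avg (fun _ : Equiv.Perm (Wt x y) => (1 : ℝ)) := avg_mono fun _ => h1 _ _ _
        _ = 1 := avg_const _
    have g2 : 0 ≤ S / n ^ 3 := by positivity
    have g3 : S / n ^ 3 ≤ 1 := (div_le_one (by positivity)).2 hS1
    rw [abs_le]
    constructor <;> linarith
  rw [← Finset.sum_sdiff (Finset.subset_univ Bd)]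
  have s1 : ∑ w ∈ univ \ Bd,
      |avg (fun ρ : Equiv.Perm (Wt x y) => h (hat ρ w) (hat ρ (da w)) (hat ρ (db w))) -
        S / n ^ 3| ≤ 9 := by
    calc _ ≤ ∑ w ∈ univ \ Bd, 9 / n :=
          Finset.sum_le_sum fun w hw => hgood w (Finset.mem_sdiff.1 hw).2
      _ ≤ ∑ w : V, 9 / n := Finset.sum_le_sum_of_subset_of_nonneg (Finset.subset_univ _)
          fun _ _ _ => by positivity
      _ = 9 := by
          rw [Finset.sum_const, Finset.card_univ, nsmul_eq_mul, ← hnn]
          field_simp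
  have s2 : ∑ w ∈ Bd,
      |avg (fun ρ : Equiv.Perm (Wt x y) => h (hat ρ w) (hat ρ (da w)) (hat ρ (db w))) -
        S / n ^ 3| ≤ 10 := by
    calc _ ≤ ∑ w ∈ Bd, (1 : ℝ) := Finset.sum_le_sum fun w _ => hbad w
      _ = Bd.card := by rw [Finset.sum_const, nsmul_eq_mul, mul_one]
      _ ≤ 10 := by exact_mod_cast hcard
  linarith

theorem card_Wt_le (x y : V) : Fintype.card (Wt x y) ≤ Fintype.card V :=
  Fintype.card_subtype_le _

theorem gsum_subG {x y : V} (h : V → V → V → ℝ) (h0 : ∀ a b c, 0 ≤ h a b c)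
    (h1 : ∀ a b c, h a b c ≤ 1) {da db : V → V} (hda : Function.Injective da)
    (hdb : Function.Injective db) :
    SubG (fun ρ : Equiv.Perm (Wt x y) => gsum h da db ρ) (36 * Fintype.card V) := by
  have := subG_perm (c := 6) (by norm_num) (Wt x y)
    (fun ρ : Equiv.Perm (Wt x y) => gsum h da db ρ) (fun ρ u v => gsum_lip h h0 h1 hda hdb ρ u v)
  refine this.mono ?_
  have h2 : (Fintype.card (Wt x y) : ℝ) ≤ Fintype.card V := by exact_mod_cast card_Wt_le x y
  linarith

/-- both tails -/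
theorem gsum_tail {x y : V} (h : V → V → V → ℝ) (h0 : ∀ a b c, 0 ≤ h a b c)
    (h1 : ∀ a b c, h a b c ≤ 1) {da db : V → V} (hda : Function.Injective da)
    (hdb : Function.Injective db) (hab : ∀ w, da w ≠ db w)
    (hfa : (univ.filter fun w => w = da w).card ≤ 2)
    (hfb : (univ.filter fun w => w = db w).card ≤ 2) {s : ℝ} (hs : 0 ≤ s) :
    ((univ.filter fun ρ : Equiv.Perm (Wt x y) => s + 19 ≤ |gsum h da db ρ -
      (∑ a, ∑ b, ∑ c, h a b c) / (Fintype.card V : ℝ) ^ 2|).card : ℝ) ≤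
      2 * Real.exp (-(s ^ 2 / (72 * Fintype.card V))) * Fintype.card (Equiv.Perm (Wt x y)) := by
  have hV : (0 : ℝ) < Fintype.card V := by
    have : 0 < Fintype.card V := Fintype.card_pos_iff.2 ⟨x⟩
    exact_mod_cast this
  have hsub := gsum_subG (x := x) (y := y) h h0 h1 hda hdb
  have t1 := hsub.tail (by positivity) hs
  have t2 := hsub.tail' (by positivity) hs
  have hm := gsum_mean (x := x) (y := y) h h0 h1 hda hdb hab hfa hfb
  have hm1 := abs_le.1 hm
  have hcov : (univ.filter fun ρ : Equiv.Perm (Wt x y) => s + 19 ≤ |gsum h da db ρ -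
      (∑ a, ∑ b, ∑ c, h a b c) / (Fintype.card V : ℝ) ^ 2|) ⊆
      (univ.filter fun ρ : Equiv.Perm (Wt x y) =>
        avg (fun ρ : Equiv.Perm (Wt x y) => gsum h da db ρ) + s ≤ gsum h da db ρ) ∪
      (univ.filter fun ρ : Equiv.Perm (Wt x y) =>
        gsum h da db ρ ≤ avg (fun ρ : Equiv.Perm (Wt x y) => gsum h da db ρ) - s) := by
    intro ρ hρ
    simp only [mem_filter, mem_univ, true_and, mem_union] at hρ ⊢
    rcases le_abs.1 hρ with h' | h'
    · left; linarith
    · right; linarith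
  have hc : ((univ.filter fun ρ : Equiv.Perm (Wt x y) => s + 19 ≤ |gsum h da db ρ -
      (∑ a, ∑ b, ∑ c, h a b c) / (Fintype.card V : ℝ) ^ 2|).card : ℝ) ≤
      ((univ.filter fun ρ : Equiv.Perm (Wt x y) =>
        avg (fun ρ : Equiv.Perm (Wt x y) => gsum h da db ρ) + s ≤ gsum h da db ρ).card : ℝ) +
      ((univ.filter fun ρ : Equiv.Perm (Wt x y) =>
        gsum h da db ρ ≤ avg (fun ρ : Equiv.Perm (Wt x y) => gsum h da db ρ) - s).card : ℝ) := by
    exact_mod_cast (card_le_card hcov).trans (card_union_le _ _)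
  have he : s ^ 2 / (2 * (36 * (Fintype.card V : ℝ))) = s ^ 2 / (72 * Fintype.card V) := by
    congr 1; ring
  rw [he] at t1 t2
  linarith

/-- the functional of a bijection `φ : V ≃ Γ` -/
noncomputable def fsum {Γ : Type} [AddCommGroup Γ] (h : V → V → V → ℝ) (x y : V) (φ : V ≃ Γ) : ℝ :=
  ∑ z, h z (φ.symm (-φ x - φ z)) (φ.symm (-φ y - φ z))

theorem fsum_twist {Γ : Type} [AddCommGroup Γ] (h : V → V → V → ℝ) {x y : V} (φ : V ≃ Γ)
    (τ : Equiv.Perm (Wt x y)) :
    fsum h x y ((hat τ).trans φ) = gsum h (fun w => φ.symm (-φ x - φ w))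
      (fun w => φ.symm (-φ y - φ w)) τ⁻¹ := by
  unfold fsum gsum
  rw [← Equiv.sum_comp (hat τ) (fun w => h (hat τ⁻¹ w) (hat τ⁻¹ (φ.symm (-φ x - φ w)))
    (hat τ⁻¹ (φ.symm (-φ y - φ w))))]
  refine Finset.sum_congr rfl fun z _ => ?_
  have e1 : hat τ⁻¹ (hat τ z) = z := by rw [hat_inv]; simp
  have e2 : ∀ c : Γ, ((hat τ).trans φ).symm c = hat τ⁻¹ (φ.symm c) := by
    intro c
    rw [hat_inv]
    rfl
  rw [e1, e2, e2]
  simp only [Equiv.trans_apply, hat_left, hat_right]

/-- **Concentration for one bite.** -/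
theorem fsum_conc {Γ : Type} [AddCommGroup Γ] [Fintype Γ] [DecidableEq Γ]
    (hΓ : ∀ s : Γ, (univ.filter fun c : Γ => c + c = s).card ≤ 2)
    (h : V → V → V → ℝ) (h0 : ∀ a b c, 0 ≤ h a b c) (h1 : ∀ a b c, h a b c ≤ 1) {x y : V}
    (hxy : x ≠ y) {s : ℝ} (hs : 0 ≤ s) :
    ((univ.filter fun φ : V ≃ Γ => s + 19 ≤ |fsum h x y φ -
      (∑ a, ∑ b, ∑ c, h a b c) / (Fintype.card V : ℝ) ^ 2|).card : ℝ) ≤
      2 * Real.exp (-(s ^ 2 / (72 * Fintype.card V))) * Fintype.card (V ≃ Γ) := by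
  classical
  set μ := (∑ a, ∑ b, ∑ c, h a b c) / (Fintype.card V : ℝ) ^ 2 with hμ
  set P : ℝ := (Fintype.card (Equiv.Perm (Wt x y)) : ℝ) with hP
  have hPpos : 0 < P := by rw [hP]; exact Nat.cast_pos.2 Fintype.card_pos
  -- for every `φ` few twists are bad
  have key : ∀ φ : V ≃ Γ, ((univ.filter fun τ : Equiv.Perm (Wt x y) =>
      s + 19 ≤ |fsum h x y ((hat τ).trans φ) - μ|).card : ℝ) ≤
      2 * Real.exp (-(s ^ 2 / (72 * Fintype.card V))) * P := by
    intro φ
    have hinj : ∀ a : Γ, Function.Injective fun w => φ.symm (-a - φ w) := by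
      intro a w w' hw
      have := φ.symm.injective hw
      exact φ.injective (by simpa using this)
    have hne : ∀ w, φ.symm (-φ x - φ w) ≠ φ.symm (-φ y - φ w) := by
      intro w hw
      have := φ.symm.injective hw
      have h3 : φ x = φ y := by simpa using this
      exact hxy (φ.injective h3)
    have hfix : ∀ a : Γ, (univ.filter fun w => w = φ.symm (-a - φ w)).card ≤ 2 := by
      intro a
      refine le_trans ?_ (hΓ (-a))
      rw [← card_image_of_injective (univ.filter fun w => w = φ.symm (-a - φ w)) φ.injective]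
      refine card_le_card fun c hc => ?_
      rw [mem_image] at hc
      obtain ⟨w, hw, rfl⟩ := hc
      rw [mem_filter] at hw ⊢
      refine ⟨mem_univ _, ?_⟩
      have h5 : φ w = -a - φ w := by
        have := congrArg φ hw.2
        rwa [Equiv.apply_symm_apply] at this
      calc φ w + φ w = (-a - φ w) + φ w := by rw [← h5]
        _ = -a := by abel
    have := gsum_tail (x := x) (y := y) h h0 h1 (hinj (φ x)) (hinj (φ y)) hne
      (hfix (φ x)) (hfix (φ y)) hs
    refine le_trans (le_of_eq ?_) this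
    congr 1
    refine Finset.card_bij (fun τ _ => τ⁻¹) ?_ ?_ ?_
    · intro τ hτ
      rw [mem_filter] at hτ ⊢
      refine ⟨mem_univ _, ?_⟩
      rw [← fsum_twist]
      exact hτ.2
    · intro τ _ τ' _ hh
      exact inv_injective hh
    · intro τ hτ
      refine ⟨τ⁻¹, ?_, inv_inv τ⟩
      rw [mem_filter] at hτ ⊢
      refine ⟨mem_univ _, ?_⟩
      rw [fsum_twist, inv_inv]
      exact hτ.2
  -- double counting
  have hdc : ((univ.filter fun φ : V ≃ Γ => s + 19 ≤ |fsum h x y φ - μ|).card : ℝ) * P =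
      ∑ φ : V ≃ Γ, ((univ.filter fun τ : Equiv.Perm (Wt x y) =>
        s + 19 ≤ |fsum h x y ((hat τ).trans φ) - μ|).card : ℝ) := by
    have e1 : ∀ τ : Equiv.Perm (Wt x y),
        ((univ.filter fun φ : V ≃ Γ => s + 19 ≤ |fsum h x y φ - μ|).card : ℝ) =
        ∑ φ : V ≃ Γ, if s + 19 ≤ |fsum h x y ((hat τ).trans φ) - μ| then (1 : ℝ) else 0 := by
      intro τ
      rw [← Finset.sum_filter, Finset.sum_const, nsmul_eq_mul, mul_one]
      congr 1
      symm
      refine Finset.card_bij (fun φ _ => (hat τ).trans φ) ?_ ?_ ?_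
      · intro φ hφ
        rw [mem_filter] at hφ ⊢
        exact ⟨mem_univ _, hφ.2⟩
      · intro φ _ φ' _ hh
        ext v
        have := congrArg (fun e : V ≃ Γ => e ((hat τ).symm v)) hh
        simpa using this
      · intro φ hφ
        have e3 : (hat τ).trans ((hat τ).symm.trans φ) = φ := by
          ext v; simp
        refine ⟨(hat τ).symm.trans φ, ?_, e3⟩
        rw [mem_filter] at hφ ⊢
        refine ⟨mem_univ _, ?_⟩
        rw [e3]
        exact hφ.2
    have e2 : ∀ φ : V ≃ Γ, ((univ.filter fun τ : Equiv.Perm (Wt x y) =>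
        s + 19 ≤ |fsum h x y ((hat τ).trans φ) - μ|).card : ℝ) =
        ∑ τ : Equiv.Perm (Wt x y),
          if s + 19 ≤ |fsum h x y ((hat τ).trans φ) - μ| then (1 : ℝ) else 0 := by
      intro φ
      rw [← Finset.sum_filter, Finset.sum_const, nsmul_eq_mul, mul_one]
    rw [Finset.sum_congr rfl fun φ _ => e2 φ, Finset.sum_comm,
      Finset.sum_congr rfl fun τ _ => (e1 τ).symm, Finset.sum_const, Finset.card_univ,
      nsmul_eq_mul, mul_comm]
  have hfin : ((univ.filter fun φ : V ≃ Γ => s + 19 ≤ |fsum h x y φ - μ|).card : ℝ) * P ≤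
      2 * Real.exp (-(s ^ 2 / (72 * Fintype.card V))) * Fintype.card (V ≃ Γ) * P := by
    rw [hdc]
    calc _ ≤ ∑ _φ : V ≃ Γ, 2 * Real.exp (-(s ^ 2 / (72 * Fintype.card V))) * P :=
          Finset.sum_le_sum fun φ _ => key φ
      _ = _ := by
          rw [Finset.sum_const, Finset.card_univ, nsmul_eq_mul]
          ring
  exact le_of_mul_le_mul_right hfin hPpos

theorem zmod_two_torsion (n : ℕ) [NeZero n] (s : ZMod n) :
    (univ.filter fun c : ZMod n => c + c = s).card ≤ 2 := by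
  classical
  by_cases hne : (univ.filter fun c : ZMod n => c + c = s).Nonempty
  · obtain ⟨c0, hc0⟩ := hne
    rw [mem_filter] at hc0
    refine le_trans ?_ (IsAddCyclic.card_nsmul_eq_zero_le (α := ZMod n) (n := 2) (by norm_num))
    refine Finset.card_le_card_of_injOn (fun c => c - c0) ?_ ?_
    · intro c hc
      simp only [coe_filter, mem_univ, true_and, Set.mem_ofPred_eq] at hc ⊢
      rw [two_nsmul]
      have : c - c0 + (c - c0) = (c + c) - (c0 + c0) := by abel
      rw [this, hc, hc0.2, sub_self]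
    · intro c _ c' _ hh
      simpa using hh
  · rw [not_nonempty_iff_eq_empty.1 hne]
    simp

open Classical in
/-- number of `z ∈ Z` that survive at `x` and `y` -/
noncomputable def unc {n : ℕ} (φ : V ≃ ZMod n) (x y : V) (Z : Finset V) (A B : V → V → Prop) : ℕ :=
  (Z.filter fun z => ¬ A z (φ.symm (-φ x - φ z)) ∧ ¬ B z (φ.symm (-φ y - φ z))).card

open Classical in
theorem unc_conc {n : ℕ} [NeZero n] (hn : Fintype.card V = n) {x y : V} (hxy : x ≠ y) (Z : Finset V)
    (A B : V → V → Prop) {s : ℝ} (hs : 0 ≤ s) :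
    ((univ.filter fun φ : V ≃ ZMod n => s + 19 ≤ |(unc φ x y Z A B : ℝ) -
      ∑ z ∈ Z, (1 - ((univ.filter fun u => A z u).card : ℝ) / n) *
        (1 - ((univ.filter fun u => B z u).card : ℝ) / n)|).card : ℝ) ≤
      2 * Real.exp (-(s ^ 2 / (72 * n))) * Fintype.card (V ≃ ZMod n) := by
  have hn0 : (0 : ℝ) < n := Nat.cast_pos.2 (Nat.pos_of_ne_zero (NeZero.ne n))
  have key := fsum_conc (Γ := ZMod n) (zmod_two_torsion n)
    (fun z u v => if z ∈ Z ∧ ¬ A z u ∧ ¬ B z v then (1 : ℝ) else 0)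
    (fun a b c => by split_ifs <;> norm_num)
    (fun a b c => by split_ifs <;> norm_num) hxy hs
  have e1 : ∀ φ : V ≃ ZMod n, fsum (fun z u v => if z ∈ Z ∧ ¬ A z u ∧ ¬ B z v then (1 : ℝ) else 0)
      x y φ = (unc φ x y Z A B : ℝ) := by
    intro φ
    unfold fsum unc
    rw [← Finset.sum_filter, Finset.sum_const, nsmul_eq_mul, mul_one]
    congr 2
    ext z
    simp only [mem_filter, mem_univ, true_and]
  have cA : ∀ (A : V → V → Prop) (z : V), ((univ.filter fun u => ¬ A z u).card : ℝ) =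
      n - (univ.filter fun u => A z u).card := by
    intro A z
    have := Finset.card_filter_add_card_filter_not (s := (univ : Finset V)) (fun u => A z u)
    rw [Finset.card_univ, hn] at this
    have h2 : ((univ.filter fun u => A z u).card : ℝ) + (univ.filter fun u => ¬ A z u).card = n := by
      exact_mod_cast this
    linarith
  have e2 : (∑ a, ∑ b, ∑ c, (if a ∈ Z ∧ ¬ A a b ∧ ¬ B a c then (1 : ℝ) else 0)) /
      (Fintype.card V : ℝ) ^ 2 =
      ∑ z ∈ Z, (1 - ((univ.filter fun u => A z u).card : ℝ) / n) *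
        (1 - ((univ.filter fun u => B z u).card : ℝ) / n) := by
    rw [hn, Finset.sum_div, ← Finset.sum_filter_add_sum_filter_not univ (fun a => a ∈ Z)]
    have z1 : ∑ a ∈ univ.filter (fun a => ¬ a ∈ Z), (∑ b, ∑ c,
        (if a ∈ Z ∧ ¬ A a b ∧ ¬ B a c then (1 : ℝ) else 0)) / (n : ℝ) ^ 2 = 0 := by
      refine Finset.sum_eq_zero fun a ha => ?_
      rw [mem_filter] at ha
      rw [Finset.sum_eq_zero, zero_div]
      intro b _
      refine Finset.sum_eq_zero fun c _ => ?_
      rw [if_neg]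
      exact fun h => ha.2 h.1
    rw [z1, add_zero]
    have z2 : univ.filter (fun a => a ∈ Z) = Z := by ext; simp
    rw [z2]
    refine Finset.sum_congr rfl fun a ha => ?_
    have z3 : ∀ b c, (if a ∈ Z ∧ ¬ A a b ∧ ¬ B a c then (1 : ℝ) else 0) =
        (if ¬ A a b then (1 : ℝ) else 0) * (if ¬ B a c then (1 : ℝ) else 0) := by
      intro b c
      by_cases g1 : A a b <;> by_cases g2 : B a c <;> simp [ha, g1, g2]
    simp_rw [z3]
    rw [← Finset.sum_mul_sum, ← Finset.sum_filter, ← Finset.sum_filter, Finset.sum_const,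
      Finset.sum_const, nsmul_eq_mul, nsmul_eq_mul, mul_one, mul_one, cA A a, cA B a]
    field_simp
  rw [e2, hn] at key
  simp_rw [e1] at key
  exact key

end Main

end NWT
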