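import Pool.Agent.NW.Statements
import Pool.Agent.NW.Vortex

/-!
# Project NW, part N3: the statement `VortexStatement`
-/

namespace NW

open Finset

theorem vortexStatement : VortexStatement := by
  intro ε hε K hK m
  have hK0 : (0 : ℝ) < K := by
    have : 0 < K := lt_of_lt_of_le (by norm_num) hK
    exact_mod_cast this
  have hK32 : (32 : ℝ) ≤ K := by exact_mod_cast hK
  have hξ0 : (0 : ℝ) < 1 / K := by positivity
  have hξ1 : (1 : ℝ) / K ≤ 1 / 2 := by
    apply one_div_le_one_div_of_le (by norm_num)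
    linarith
  obtain ⟨M₀, hM₀⟩ := vortex (1 / K) (ε / 2) hξ0 hξ1 (by positivity)
  set M : ℕ := max M₀ (max m 1) with hM
  have hMm : m ≤ M := le_trans (le_max_left _ _) (le_max_right _ _)
  have hM1 : 1 ≤ M := le_trans (le_max_right _ _) (le_max_right _ _)
  refine ⟨K * M, K * M, fun V _ _ E _ hn hdeg => ?_⟩
  have hKpos : 0 < K := lt_of_lt_of_le (by norm_num) hK
  have hMn : M ≤ Fintype.card V := le_trans (Nat.le_mul_of_pos_left M hKpos) hn
  obtain ⟨ℓ, U, hU0, hUs, hUc, hUd, _, hMl, hst⟩ := hM₀ M (le_max_left _ _) V E (3 / 4 + ε / 2)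
    (by positivity) hMn (fun v => le_trans (by rw [show 3 / 4 + ε / 2 + ε / 2 = 3 / 4 + ε by ring])
      (hdeg v))
  have hfloor : ∀ x : ℕ, ⌊1 / (K : ℝ) * (x : ℝ)⌋₊ = x / K := by
    intro x
    rw [one_div, inv_mul_eq_div]
    exact Nat.floor_div_eq_div x K
  have hanti : ∀ i, i ≤ ℓ → (U ℓ).card ≤ (U i).card := by
    intro i hi
    exact Finset.card_le_card (antitone_nat_of_succ_le (fun i => hUs i) hi)
  refine ⟨ℓ, U, ?_, hU0, ?_, hMm.trans hMl, ?_⟩
  · rcases Nat.eq_zero_or_pos ℓ with h0 | h0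
    · exfalso
      subst h0
      rw [hU0, Finset.card_univ, hfloor] at hst
      have : M ≤ Fintype.card V / K := (Nat.le_div_iff_mul_le hKpos).2 (by rwa [Nat.mul_comm])
      omega
    · exact h0
  · intro i hi
    have h1 : (U (i + 1)).card = (U i).card / K := by rw [hUc i hi, hfloor]
    have h2 : 1 ≤ (U (i + 1)).card := hM1.trans (hMl.trans (hanti (i + 1) hi))
    have h3 := Nat.div_add_mod (U i).card K
    have h4 := Nat.mod_lt (U i).card hKpos
    refine ⟨hUs i, ?_, ?_, ?_⟩
    · have : K ≤ K * (U (i + 1)).card := Nat.le_mul_of_pos_right K h2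
      rw [← h1] at h3
      nlinarith
    · rw [← h1] at h3
      have h5 : K * (U (i + 1)).card ≤ (U i).card := Nat.le.intro h3
      exact h5.trans (Nat.le_mul_of_pos_left _ (by norm_num))
    · intro x hx
      exact hUd i hi x hx
  · rw [hfloor] at hst
    exact (Nat.div_lt_iff_lt_mul hKpos).1 hst |>.le.trans (by rw [Nat.mul_comm])

end NW
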