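import Mathlib
import Pool.Agent.NW.Statements
import Pool.Agent.NW.Final
import Pool.Agent.NW.VortexProof

/-!
# Project NW: iteration of the cover down along a vortex, and the main theorem
-/

set_option linter.unusedSectionVars false

namespace NW

open Finset

section Lemmas

variable {V : Type*} [DecidableEq V] [Fintype V]

theorem nbr_sym2_of_notMem {W : Finset V} {v : V} (hv : v ∉ W) (E : Finset (Sym2 V)) :
    nbr (E \ W.sym2) v = nbr E v := by
  rw [nbr_sdiff]
  refine Finset.sdiff_eq_self_of_disjoint ?_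
  rw [Finset.disjoint_left]
  intro u _ hu
  rw [mem_nbr, Finset.mk_mem_sym2_iff] at hu
  exact hv hu.1

theorem deg_sym2_le (W : Finset V) (v : V) : deg W.sym2 v ≤ W.card := by
  refine Finset.card_le_card ?_
  intro u hu
  rw [mem_nbr, Finset.mk_mem_sym2_iff] at hu
  exact hu.2

/-- the degree into `Y` in terms of the graph `G`, for vertices of `X ⊇ Y` -/
theorem degIn_le_of_agree {E G : Finset (Sym2 V)} {X Y : Finset V} (hY : Y ⊆ X)
    (h : ∀ e ∈ X.sym2, e ∈ E → e ∈ G) {v : V} (hv : v ∈ X) : degIn E Y v ≤ degIn G Y v := by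
  refine Finset.card_le_card ?_
  intro u hu
  rw [Finset.mem_inter, mem_nbr] at hu ⊢
  exact ⟨h _ (Finset.mk_mem_sym2_iff.2 ⟨hv, hY hu.2⟩) hu.1, hu.2⟩

theorem degIn_sdiff_le (E D : Finset (Sym2 V)) (X : Finset V) (v : V) :
    degIn E X v ≤ degIn (E \ D) X v + degIn D X v := by
  unfold degIn
  refine le_trans (Finset.card_le_card (t := (nbr (E \ D) v ∩ X) ∪ (nbr D v ∩ X)) ?_)
    (Finset.card_union_le _ _)
  intro u hu
  rw [Finset.mem_inter] at hu
  rw [Finset.mem_union, Finset.mem_inter, Finset.mem_inter, nbr_sdiff, Finset.mem_sdiff]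
  by_cases h : u ∈ nbr D v
  · exact Or.inr ⟨h, hu.2⟩
  · exact Or.inl ⟨⟨hu.1, h⟩, hu.2⟩

theorem degIn_mono_right {E : Finset (Sym2 V)} {X Y : Finset V} (h : X ⊆ Y) (v : V) :
    degIn E X v ≤ degIn E Y v :=
  Finset.card_le_card (Finset.inter_subset_inter_left h)

end Lemmas

theorem iterate_of_cover (hC : CoverStatement) : IterateStatement := by
  intro α hα
  obtain ⟨K1, hK1⟩ := exists_nat_ge (32 / α)
  refine ⟨max 1 K1, fun K hK => ?_⟩
  have hK1' : 1 ≤ K := (le_max_left _ _).trans hK
  have hKpos : (0 : ℝ) < K := by exact_mod_cast hK1'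
  have hKα : 32 ≤ α * K := by
    have h1 : 32 / α ≤ (K : ℝ) := hK1.trans (by exact_mod_cast (le_max_right _ _).trans hK)
    rw [div_le_iff₀ hα] at h1
    linarith
  obtain ⟨n0, hn0⟩ := hC (α / 2) (by positivity) (1 / (2 * K)) (by positivity) (α / (2 * K))
    (by positivity)
  refine ⟨n0, ?_⟩
  intro V _ _ E H l U hl hV hNL hH0 hn hagree hdeg0 hdegIn0 heven
  -- monotonicity of the vortex
  have hmono : ∀ i j, i ≤ j → j ≤ l → U j ⊆ U i := by
    intro i j hij
    induction j, hij using Nat.le_induction with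
    | base => intro _; exact Finset.Subset.refl _
    | succ j hj ih => intro hjl; exact ((hV j (by omega)).1).trans (ih (by omega))
  have hupper : ∀ i < l, ((U (i + 1)).card : ℝ) ≤ α / 16 * (U i).card := by
    intro i hi
    have h1 : (K : ℝ) * (U (i + 1)).card ≤ 2 * (U i).card := by exact_mod_cast (hV i hi).2.2.1
    have h2 : 32 * ((U (i + 1)).card : ℝ) ≤ α * K * (U (i + 1)).card :=
      mul_le_mul_of_nonneg_right hKα (Nat.cast_nonneg _)
    have h3 : α * (K * ((U (i + 1)).card : ℝ)) ≤ α * (2 * (U i).card) :=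
      mul_le_mul_of_nonneg_left h1 hα.le
    linarith
  have hlower : ∀ i < l, ((U i).card : ℝ) ≤ 2 * K * (U (i + 1)).card := by
    intro i hi
    exact_mod_cast (hV i hi).2.1
  suffices hmain : ∀ i, i ≤ l → ∃ D, D ⊆ H ∧ Dec D ∧ H \ D ⊆ (U i).sym2 ∧
      (i < l → (∀ v ∈ U i, (3 / 4 + α) * ((U i).card : ℝ) ≤ deg (H \ D) v) ∧
        (∀ v ∈ U i, (3 / 4 + α) * ((U (i + 1)).card : ℝ) ≤ degIn (H \ D) (U (i + 1)) v) ∧
        Disjoint D (U (i + 1)).sym2) by
    obtain ⟨D, h1, h2, h3, -⟩ := hmain l le_rfl
    exact ⟨D, h1, h2, h3⟩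
  intro i
  induction i with
  | zero =>
    intro _
    refine ⟨∅, Finset.empty_subset _, Dec.empty, ?_, fun _ => ⟨?_, ?_, ?_⟩⟩
    · rw [Finset.sdiff_empty]; exact hH0
    · rw [Finset.sdiff_empty]; exact hdeg0
    · rw [Finset.sdiff_empty]; exact hdegIn0
    · exact Finset.disjoint_empty_left _
  | succ i ih =>
    intro hil
    have hi : i < l := by omega
    obtain ⟨D, hDH, hDdec, hDU, hD⟩ := ih (by omega)
    obtain ⟨ha, hb, hd⟩ := hD hi
    obtain ⟨W, hW⟩ : ∃ W : Finset V, W = if i + 1 < l then U (i + 2) else ∅ := ⟨_, rfl⟩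
    have hWU : W ⊆ U (i + 1) := by
      rw [hW]
      split_ifs with h
      · exact (hV (i + 1) h).1
      · exact Finset.empty_subset _
    have hWcard : (W.card : ℝ) ≤ α / 2 * (U (i + 1)).card := by
      rw [hW]
      split_ifs with h
      · have h1 := hupper (i + 1) h
        have h2 : (0 : ℝ) ≤ α * (U (i + 1)).card := by positivity
        have h3 : U (i + 1 + 1) = U (i + 2) := rfl
        rw [h3] at h1
        linarith
      · rw [Finset.card_empty]
        push_cast
        positivity
    have hUcard : ((U (i + 1)).card : ℝ) ≤ (U i).card := by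
      exact_mod_cast Finset.card_le_card (hV i hi).1
    obtain ⟨D', hD'G, hD'dec, hD'U, hD'deg⟩ := hn0 V ((H \ D) \ W.sym2) (U i) (U (i + 1))
      ((hNL.mono Finset.sdiff_subset).mono Finset.sdiff_subset)
      (Finset.sdiff_subset.trans hDU) (hV i hi).1
      (hn.trans (Finset.card_le_card (hmono i l (by omega) le_rfl)))
      (by
        have h1 := hlower i hi
        rw [div_mul_eq_mul_div, one_mul, div_le_iff₀ (by positivity)]
        linarith)
      (by
        have h1 := hupper i hi
        linarith)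
      (fun v hv => by
        have h1 := ha v hv
        have h2 : (deg (H \ D) v : ℝ) ≤ deg ((H \ D) \ W.sym2) v + deg W.sym2 v := by
          exact_mod_cast deg_le_sdiff_add _ _ v
        have h3 : (deg W.sym2 v : ℝ) ≤ W.card := by exact_mod_cast deg_sym2_le W v
        have h4 : α / 2 * ((U (i + 1)).card : ℝ) ≤ α / 2 * (U i).card :=
          mul_le_mul_of_nonneg_left hUcard (by positivity)
        linarith)
      (fun v hv => by
        have h1 := hb v hv
        have h2 : (degIn (H \ D) (U (i + 1)) v : ℝ) ≤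
            degIn ((H \ D) \ W.sym2) (U (i + 1)) v + deg W.sym2 v := by
          exact_mod_cast degIn_le_sdiff_add _ _ _ v
        have h3 : (deg W.sym2 v : ℝ) ≤ W.card := by exact_mod_cast deg_sym2_le W v
        linarith)
      (fun v hv => by
        rw [Finset.mem_sdiff] at hv
        have h1 : deg ((H \ D) \ W.sym2) v = deg (H \ D) v := by
          unfold deg
          rw [nbr_sym2_of_notMem (fun h => hv.2 (hWU h))]
        rw [h1]
        have h2 := deg_sdiff_add hDH v
        have h3 := heven v (Finset.mem_sdiff.2 ⟨hmono 0 i (by omega) (by omega) hv.1,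
          fun h => hv.2 (hmono (i + 1) l hil le_rfl h)⟩)
        rw [← h2] at h3
        exact (Nat.even_add.1 h3).2 (hDdec.even_deg v))
    have hD'H : D' ⊆ H \ D := hD'G.trans Finset.sdiff_subset
    have hsd : H \ (D ∪ D') = (H \ D) \ D' := by
      ext e
      simp only [Finset.mem_sdiff, Finset.mem_union]
      tauto
    refine ⟨D ∪ D', Finset.union_subset hDH (hD'H.trans Finset.sdiff_subset),
      hDdec.union hD'dec ?_, ?_, fun hil' => ?_⟩
    · rw [Finset.disjoint_right]
      intro e he
      exact (Finset.mem_sdiff.1 (hD'H he)).2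
    · rw [hsd]
      intro e he
      rw [Finset.mem_sdiff] at he
      by_cases heW : e ∈ W.sym2
      · exact Finset.sym2_mono hWU heW
      · exact hD'U (Finset.mem_sdiff.2 ⟨Finset.mem_sdiff.2 ⟨he.1, heW⟩, he.2⟩)
    · -- inside `U (i+1)` the set `H \ D` still agrees with `E`
      have hag : ∀ e ∈ (U (i + 1)).sym2, e ∈ E → e ∈ H \ D := by
        intro e he heE
        rw [Finset.mem_sdiff]
        refine ⟨(hagree e (Finset.sym2_mono (hmono 1 (i + 1) (by omega) hil) he)).2 heE,
          fun h => ?_⟩
        exact Finset.disjoint_left.1 hd h he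
      have hUi1 : (0 : ℝ) ≤ (U (i + 1)).card := Nat.cast_nonneg _
      refine ⟨fun v hv => ?_, fun v hv => ?_, ?_⟩
      · have h6 := (hV i hi).2.2.2 v ((hV i hi).1 hv)
        have h7 : (degIn E (U (i + 1)) v : ℝ) ≤ degIn (H \ D) (U (i + 1)) v := by
          exact_mod_cast degIn_le_of_agree (Finset.Subset.refl _) hag hv
        have h8 : (degIn (H \ D) (U (i + 1)) v : ℝ) ≤
            degIn ((H \ D) \ D') (U (i + 1)) v + degIn D' (U (i + 1)) v := by
          exact_mod_cast degIn_sdiff_le _ _ _ v
        have h9 : (degIn ((H \ D) \ D') (U (i + 1)) v : ℝ) ≤ deg ((H \ D) \ D') v := by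
          exact_mod_cast degIn_le_deg _ _ v
        have h10 := hD'deg v hv
        have h11 : α / (2 * K) * ((U (i + 1)).card : ℝ) ≤ α * (U (i + 1)).card := by
          refine mul_le_mul_of_nonneg_right ?_ hUi1
          rw [div_le_iff₀ (by positivity)]
          have h12 : (1 : ℝ) ≤ K := by exact_mod_cast hK1'
          have h13 : α * 1 ≤ α * K := mul_le_mul_of_nonneg_left h12 hα.le
          linarith
        rw [hsd]
        linarith
      · have h6 := (hV (i + 1) hil').2.2.2 v hv
        have hYX : U (i + 2) ⊆ U (i + 1) := (hV (i + 1) hil').1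
        have h7 : (degIn E (U (i + 2)) v : ℝ) ≤ degIn (H \ D) (U (i + 2)) v := by
          exact_mod_cast degIn_le_of_agree hYX hag hv
        have h8 : (degIn (H \ D) (U (i + 2)) v : ℝ) ≤
            degIn ((H \ D) \ D') (U (i + 2)) v + degIn D' (U (i + 2)) v := by
          exact_mod_cast degIn_sdiff_le _ _ _ v
        have h9 : (degIn D' (U (i + 2)) v : ℝ) ≤ degIn D' (U (i + 1)) v := by
          exact_mod_cast degIn_mono_right hYX v
        have h10 := hD'deg v hv
        have h12 := hlower (i + 1) hil'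
        have h13 : U (i + 1 + 1) = U (i + 2) := rfl
        rw [h13] at h6 h12 ⊢
        have h14 : α / (2 * K) * ((U (i + 1)).card : ℝ) ≤
            α / (2 * K) * (2 * K * (U (i + 2)).card) :=
          mul_le_mul_of_nonneg_left h12 (by positivity)
        have h15 : α / (2 * K) * (2 * K * ((U (i + 2)).card : ℝ)) = α * (U (i + 2)).card := by
          field_simp
        rw [hsd]
        linarith
      · rw [Finset.disjoint_union_left]
        refine ⟨Finset.disjoint_of_subset_right (Finset.sym2_mono (hV (i + 1) hil').1) hd, ?_⟩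
        rw [Finset.disjoint_left]
        intro e he he'
        have h1 := hD'G he
        rw [Finset.mem_sdiff, hW, if_pos hil'] at h1
        exact h1.2 he'

/-- The main theorem from the cover down and the absorbers. -/
theorem main_of_cover (hC : CoverStatement) (hA : AbsorberStatement) : MainStatement :=
  main_of (iterate_of_cover hC) vortexStatement hA

end NW
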