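import Mathlib

/-!
Project NW, cover down: the choice of the constants.
-/

namespace NW

theorem cover_err {u K a : ℝ} (hu : 0 < u) (hK : 0 < K) (ha : 0 < a)
    (h : (16 * K / a + 16 * K) ^ 4 ≤ u) :
    u ^ (3 / 4 : ℝ) ≤ a / 16 * (u / K) ∧ u ^ (3 / 4 : ℝ) ≤ u / K := by
  set c : ℝ := 16 * K / a + 16 * K with hc
  have h1 : 0 < 16 * K / a := by positivity
  have hc0 : 0 < c := by positivity
  have h2 : c ≤ u ^ (1 / 4 : ℝ) := by
    have h3 : (c ^ 4) ^ (1 / 4 : ℝ) = c := by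
      rw [← Real.rpow_natCast c 4, ← Real.rpow_mul hc0.le]
      norm_num
    rw [← h3]
    exact Real.rpow_le_rpow (by positivity) h (by norm_num)
  have h4 : u ^ (3 / 4 : ℝ) * u ^ (1 / 4 : ℝ) = u := by
    rw [← Real.rpow_add hu]
    norm_num
  have h5 : 0 < u ^ (3 / 4 : ℝ) := Real.rpow_pos_of_pos hu _
  have h6 : u ^ (3 / 4 : ℝ) * c ≤ u := by
    calc u ^ (3 / 4 : ℝ) * c ≤ u ^ (3 / 4 : ℝ) * u ^ (1 / 4 : ℝ) :=
          mul_le_mul_of_nonneg_left h2 h5.le
      _ = u := h4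
  have h7 : 16 * K / a ≤ c := by rw [hc]; linarith [mul_pos (show (0:ℝ) < 16 by norm_num) hK]
  have h8 : K ≤ c := by rw [hc]; linarith
  constructor
  · have h9 : u ^ (3 / 4 : ℝ) * (16 * K / a) ≤ u :=
      (mul_le_mul_of_nonneg_left h7 h5.le).trans h6
    have h10 : a / 16 * (u / K) = u / (16 * K / a) := by field_simp
    rw [h10, le_div_iff₀ h1]
    exact h9
  · rw [le_div_iff₀ hK]
    exact (mul_le_mul_of_nonneg_left h8 h5.le).trans h6

/-- the constants of the cover down step -/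
theorem cover_consts (a h m : ℝ) (ha : 0 < a) (hh : 0 < h) (hm : 0 < m) :
    ∃ q : ℕ, q.Prime ∧ 64 ≤ q ∧ ∃ γ b : ℝ, 0 < γ ∧ 0 < b ∧ ∀ N0 : ℕ, ∃ n0 : ℕ,
      ∀ n u : ℕ, n0 ≤ n → h * n ≤ u → (u : ℝ) ≤ a / 8 * n →
        N0 ≤ u ∧ N0 ≤ n ∧ (n : ℝ) + 1 ≤ (1 / h + 1) * u ∧
        ∀ M e : ℝ, M = u / ((q : ℝ) ^ 2 + q) → e = (u : ℝ) ^ (3 / 4 : ℝ) →
        ∀ g B T : ℕ, g = ⌊γ * n⌋₊ → B = ⌊b * n⌋₊ + 1 → T = n / q ^ 2 + 1 →
          0 < M ∧ e ≤ a / 16 * M ∧ e ≤ M ∧
          ((2 * g + 4 * B + g * n / B : ℕ) : ℝ) < M / 2 ∧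
          2 * (T : ℝ) + 2 * (M + e) + 4 * (g + 2 * B) ≤ (q + 1) * M / 4 ∧
          (q + 1) * (M + e) ≤ a / 2 * n ∧ (u : ℝ) + q * T ≤ a / 2 * n ∧
          (g : ℝ) + 2 * B + q * T ≤ m * u := by
  obtain ⟨q, hQ, hq⟩ := Nat.exists_infinite_primes (⌈64 + h + 32 / h + 8 / a + 8 / (h * m)⌉₊)
  have hQ' : 64 + h + 32 / h + 8 / a + 8 / (h * m) ≤ (q : ℝ) :=
    (Nat.le_ceil _).trans (by exact_mod_cast hQ)
  have hhm : 0 < h * m := by positivity
  have p1 : 0 < 32 / h := by positivity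
  have p2 : 0 < 8 / a := by positivity
  have p3 : 0 < 8 / (h * m) := by positivity
  have q64 : (64 : ℝ) ≤ q := by linarith
  have q64n : 64 ≤ q := by exact_mod_cast q64
  have qh : h ≤ (q : ℝ) := by linarith
  have q1 : 32 / h ≤ (q : ℝ) := by linarith
  have q2 : 8 / a ≤ (q : ℝ) := by linarith
  have q3 : 8 / (h * m) ≤ (q : ℝ) := by linarith
  have q0 : (0 : ℝ) < q := by linarith
  have q1' : 32 ≤ q * h := by rwa [div_le_iff₀ hh] at q1
  have q2' : 8 ≤ q * a := by rwa [div_le_iff₀ ha] at q2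
  have q3' : 8 ≤ q * (h * m) := by rwa [div_le_iff₀ hhm] at q3
  set Q : ℝ := (q : ℝ) with hQdef
  set K : ℝ := Q ^ 2 + Q with hK
  have K0 : 0 < K := by positivity
  have KQ : K = Q * (Q + 1) := by rw [hK]; ring
  set b : ℝ := h / (64 * K) with hb
  have b0 : 0 < b := by positivity
  have bK : b * (64 * K) = h := by rw [hb]; field_simp
  have b1 : b ≤ 1 := by
    rw [hb, div_le_one (by positivity)]
    nlinarith
  have bhm : b ≤ h * m / 16 := by
    rw [hb, div_le_iff₀ (by positivity)]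
    -- h ≤ h m / 16 * (64 K) = 4 h m K
    have : 1 ≤ m * K * 4 := by
      have h1 : 8 ≤ (Q * h) * m := by linarith
      have h2 : (Q * h) * m ≤ (Q * Q) * m := by
        apply mul_le_mul_of_nonneg_right _ hm.le
        exact mul_le_mul_of_nonneg_left qh q0.le
      nlinarith
    nlinarith
  refine ⟨q, hq, q64n, b ^ 2, b, by positivity, b0, fun N0 => ?_⟩
  have hbq : 12 * b * (32 * Q) ≤ h := by
    -- 384 b Q ≤ 64 K b
    rw [← bK]
    nlinarith
  refine ⟨⌈(N0 : ℝ) / h + N0 + (16 * K / a + 16 * K) ^ 4 / h + 1 / b + 1 / h + 320 * Q / h +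
    8 * Q / a + 8 * (Q + 2) / (h * m) + 1⌉₊, ?_⟩
  intro n u hn hu hu'
  have hn' : (N0 : ℝ) / h + N0 + (16 * K / a + 16 * K) ^ 4 / h + 1 / b + 1 / h + 320 * Q / h +
    8 * Q / a + 8 * (Q + 2) / (h * m) + 1 ≤ (n : ℝ) := (Nat.le_ceil _).trans (by exact_mod_cast hn)
  set N : ℝ := (n : ℝ) with hN
  have r1 : 0 ≤ (N0 : ℝ) / h := by positivity
  have r2 : 0 ≤ (N0 : ℝ) := by positivity
  have r3 : 0 ≤ (16 * K / a + 16 * K) ^ 4 / h := by positivity
  have r4 : 0 ≤ 1 / b := by positivity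
  have r5 : 0 ≤ 1 / h := by positivity
  have r6 : 0 ≤ 320 * Q / h := by positivity
  have r7 : 0 ≤ 8 * Q / a := by positivity
  have r8 : 0 ≤ 8 * (Q + 2) / (h * m) := by positivity
  have s1 : (N0 : ℝ) / h ≤ N := by linarith
  have s2 : (N0 : ℝ) ≤ N := by linarith
  have s3 : (16 * K / a + 16 * K) ^ 4 / h ≤ N := by linarith
  have s4 : 1 / b ≤ N := by linarith
  have s5 : 1 / h ≤ N := by linarith
  have s6 : 320 * Q / h ≤ N := by linarith
  have s7 : 8 * Q / a ≤ N := by linarith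
  have s8 : 8 * (Q + 2) / (h * m) ≤ N := by linarith
  have N1 : 1 ≤ N := by linarith
  rw [div_le_iff₀ hh] at s1 s3 s5 s6
  rw [div_le_iff₀ b0] at s4
  rw [div_le_iff₀ ha] at s7
  rw [div_le_iff₀ hhm] at s8
  have hNh : N * h ≤ (u : ℝ) := by linarith
  have u1 : (1 : ℝ) ≤ u := s5.trans hNh
  have u0 : (0 : ℝ) < u := by linarith
  refine ⟨Nat.cast_le.1 (s1.trans hNh), Nat.cast_le.1 s2, ?_, ?_⟩
  · have : N ≤ 1 / h * u := by
      rw [one_div, inv_mul_eq_div, le_div_iff₀ hh]; exact hNh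
    have h2 : (1 / h + 1) * (u : ℝ) = 1 / h * u + u := by ring
    rw [h2]
    linarith
  intro M e hM he g B T hg hB hT
  have hM' : M = u / K := hM
  have hMK : M * K = u := by rw [hM']; exact div_mul_cancel₀ _ K0.ne'
  have M0 : 0 < M := by rw [hM']; positivity
  obtain ⟨e1, e2⟩ := cover_err (u := (u : ℝ)) (K := K) (a := a) u0 K0 ha (s3.trans hNh)
  have e1' : e ≤ a / 16 * M := by rw [he, hM']; exact e1
  have e2' : e ≤ M := by rw [he, hM']; exact e2
  -- bounds for g, B, T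
  have g1 : (g : ℝ) ≤ b ^ 2 * N := by
    rw [hg]; exact Nat.floor_le (by positivity)
  have B1 : (B : ℝ) ≤ b * N + 1 := by
    rw [hB]; push_cast
    have := Nat.floor_le (show 0 ≤ b * N by positivity)
    linarith
  have B2 : b * N ≤ (B : ℝ) := by
    rw [hB]; push_cast
    exact (Nat.lt_floor_add_one _).le
  have bN : 0 < b * N := by positivity
  have B0 : (0 : ℝ) < B := lt_of_lt_of_le bN B2
  have T1 : (T : ℝ) ≤ N / Q ^ 2 + 1 := by
    rw [hT]; push_cast
    have : ((n / q ^ 2 : ℕ) : ℝ) ≤ (n : ℝ) / ((q ^ 2 : ℕ) : ℝ) := Nat.cast_div_le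
    push_cast at this
    linarith
  have g2 : (g : ℝ) ≤ b * N := by
    have h1 : b ^ 2 * N ≤ b * N := by
      have h2 : b * (b * N) ≤ 1 * (b * N) := mul_le_mul_of_nonneg_right b1 bN.le
      have h3 : b ^ 2 * N = b * (b * N) := by ring
      rw [h3]; linarith
    exact g1.trans h1
  have bN1 : 1 ≤ N * b := s4
  have MN : h * N ≤ M * K := by rw [hMK]; linarith
  have Mb : 64 * (b * N) ≤ M := by
    -- h N = 64 K b N ≤ M K
    have : 64 * (b * N) * K ≤ M * K := by
      have : 64 * (b * N) * K = h * N := by rw [← bK]; ring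
      linarith
    exact le_of_mul_le_mul_right this K0
  have MQ : h * N ≤ ((Q + 1) * M) * Q := by
    have : ((Q + 1) * M) * Q = M * K := by rw [KQ]; ring
    linarith
  refine ⟨M0, e1', e2', ?_, ?_, ?_, ?_, ?_⟩
  · -- common neighbours
    push_cast
    have h1 : ((g * n / B : ℕ) : ℝ) ≤ ((g * n : ℕ) : ℝ) / (B : ℝ) := Nat.cast_div_le
    have h2 : ((g * n : ℕ) : ℝ) / (B : ℝ) ≤ b * N := by
      rw [div_le_iff₀ B0]
      push_cast
      calc (g : ℝ) * N ≤ (b ^ 2 * N) * N := mul_le_mul_of_nonneg_right g1 (by linarith)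
        _ = (b * N) * (b * N) := by ring
        _ ≤ b * N * B := mul_le_mul_of_nonneg_left B2 bN.le
    have h3 : ((g * n / B : ℕ) : ℝ) ≤ b * N := h1.trans h2
    have h4 : (2 : ℝ) * g + 4 * B + ((g * n / B : ℕ) : ℝ) ≤ 7 * (b * N) + 4 := by linarith
    have h5 : 7 * (b * N) + 4 < M / 2 := by
      have : 1 ≤ b * N := by linarith
      linarith
    linarith
  · -- lines
    have hT2 : 2 * (T : ℝ) ≤ (Q + 1) * M / 16 + 2 := by
      have h1 : N / Q ^ 2 * 32 ≤ (Q + 1) * M := by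
        rw [div_mul_eq_mul_div, div_le_iff₀ (by positivity)]
        -- 32 N ≤ (Q+1) M Q^2
        have : N * 32 ≤ N * (Q * h) := mul_le_mul_of_nonneg_left q1' (by linarith)
        have h3 : (Q + 1) * M * Q ^ 2 = ((Q + 1) * M) * Q * Q := by ring
        rw [h3]
        have h4 : h * N * Q ≤ ((Q + 1) * M) * Q * Q := mul_le_mul_of_nonneg_right MQ q0.le
        linarith
      linarith
    have hM4 : 4 * M ≤ (Q + 1) * M / 16 := by
      have h1 : 64 * M ≤ Q * M := mul_le_mul_of_nonneg_right q64 M0.le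
      have h2 : (Q + 1) * M = Q * M + M := by ring
      rw [h2]; linarith
    have hb12 : 12 * (b * N) + 10 ≤ (Q + 1) * M / 16 := by
      -- multiply by 16 Q
      have h1 : 12 * (b * N) * (32 * Q) ≤ h * N := by
        have := mul_le_mul_of_nonneg_right hbq (show 0 ≤ N by linarith)
        linarith
      have h2 : 320 * Q ≤ N * h := s6
      have h3 : (12 * (b * N)) * (16 * Q) ≤ h * N / 2 := by linarith
      have h5 : (12 * (b * N) + 10) * (16 * Q) ≤ h * N := by linarith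
      have h6 : (12 * (b * N) + 10) * (16 * Q) ≤ ((Q + 1) * M / 16) * (16 * Q) := by
        have h7 : ((Q + 1) * M / 16) * (16 * Q) = ((Q + 1) * M) * Q := by ring
        rw [h7]
        exact h5.trans MQ
      exact le_of_mul_le_mul_right h6 (by positivity)
    have : 4 * ((g : ℝ) + 2 * B) ≤ 12 * (b * N) + 8 := by linarith
    linarith
  · -- degrees at vertices outside U
    have h1 : (Q + 1) * (M + e) ≤ 2 * ((Q + 1) * M) := by
      have : (Q + 1) * e ≤ (Q + 1) * M := mul_le_mul_of_nonneg_left e2' (by linarith)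
      linarith
    have h2 : (Q + 1) * M * Q = u := by rw [← hMK, KQ]; ring
    have h3 : (Q + 1) * M ≤ (u : ℝ) := by
      have h4 : 0 < (Q + 1) * M := by positivity
      rw [← h2]
      exact le_mul_of_one_le_right h4.le (by linarith)
    linarith
  · have h1 : Q * T ≤ N / Q + Q := by
      have := mul_le_mul_of_nonneg_left T1 q0.le
      have h2 : Q * (N / Q ^ 2 + 1) = N / Q + Q := by field_simp
      linarith
    have h3 : N / Q ≤ a / 8 * N := by
      rw [div_le_iff₀ q0]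
      have h5 : N * 8 ≤ N * (Q * a) := mul_le_mul_of_nonneg_left q2' (by linarith)
      have h6 : a / 8 * N * Q = N * (Q * a) / 8 := by ring
      rw [h6]; linarith
    have h4 : Q ≤ a / 8 * N := by linarith
    linarith
  · have h1 : Q * T ≤ N / Q + Q := by
      have := mul_le_mul_of_nonneg_left T1 q0.le
      have h2 : Q * (N / Q ^ 2 + 1) = N / Q + Q := by field_simp
      linarith
    have h3 : N / Q ≤ h * m / 8 * N := by
      rw [div_le_iff₀ q0]
      have h5 : N * 8 ≤ N * (Q * (h * m)) := mul_le_mul_of_nonneg_left q3' (by linarith)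
      have h6 : h * m / 8 * N * Q = N * (Q * (h * m)) / 8 := by ring
      rw [h6]; linarith
    have h4 : Q + 2 ≤ h * m / 8 * N := by linarith
    have h5 : 3 * (b * N) ≤ 3 * (h * m / 16 * N) := by
      have := mul_le_mul_of_nonneg_right bhm (show 0 ≤ N by linarith)
      linarith
    have h6 : h * m * N ≤ m * u := by
      have := mul_le_mul_of_nonneg_left hNh hm.le
      linarith
    have h7 : 0 ≤ h * m * N := by positivity
    linarith

end NW
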