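import Pool.Agent.NW.Statements
import Pool.Agent.NW.CoverCore
import Pool.Agent.NW.CoverNum

/-!
# Project NW: the cover down (`CoverStatement` from `ADStatement` and `SplitStatement`)
-/

set_option linter.unusedSectionVars false

namespace NW

open Finset

section Lines

variable {V : Type*} [DecidableEq V]

/-- the part of `S` on a line, cell by cell -/
theorem card_inter_lineSet (q : ℕ) [Fact q.Prime] (c : V → PlPoint q) (U S : Finset V)
    (l : PlLine q) : (S ∩ lineSet q c U l).card =
      ∑ p ∈ Finset.univ.filter (fun p => PlOn q p l), (S ∩ cell q c U p).card := by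
  classical
  rw [← Finset.card_biUnion]
  · congr 1
    ext u
    simp only [Finset.mem_inter, mem_lineSet, Finset.mem_biUnion, Finset.mem_filter,
      Finset.mem_univ, true_and, mem_cell]
    constructor
    · rintro ⟨h1, h2, h3⟩
      exact ⟨c u, h3, h1, h2, rfl⟩
    · rintro ⟨p, h1, h2, h3, h4⟩
      exact ⟨h2, h3, by rw [h4]; exact h1⟩
  · intro p _ p' _ hpp
    rw [Function.onFun, Finset.disjoint_left]
    intro u hu hu'
    exact hpp (((mem_cell.1 (Finset.mem_inter.1 hu).2).2).symm.trans
      (mem_cell.1 (Finset.mem_inter.1 hu').2).2)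

theorem card_lineSet (q : ℕ) [Fact q.Prime] (c : V → PlPoint q) (U : Finset V)
    (l : PlLine q) : (lineSet q c U l).card =
      ∑ p ∈ Finset.univ.filter (fun p => PlOn q p l), (cell q c U p).card := by
  classical
  have h := card_inter_lineSet q c U U l
  have h1 : U ∩ lineSet q c U l = lineSet q c U l :=
    Finset.inter_eq_right.2 (Finset.filter_subset _ _)
  have h2 : ∀ p, U ∩ cell q c U p = cell q c U p := fun p =>
    Finset.inter_eq_right.2 (Finset.filter_subset _ _)
  rw [h1] at h
  rw [h]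
  exact Finset.sum_congr rfl fun p _ => by rw [h2]

end Lines

/-- a balanced assignment of lines to the vertices of `W` -/
theorem exists_lines {V : Type*} [Fintype V] [DecidableEq V] (q : ℕ) [Fact q.Prime]
    (W : Finset V) : ∃ lam : V → PlLine q,
      ∀ l, (W.filter fun v => lam v = l).card ≤ W.card / q ^ 2 + 1 := by
  classical
  have : NeZero q := ⟨(Fact.out : q.Prime).ne_zero⟩
  have : Nonempty (PlLine q) := ⟨(0, 0)⟩
  obtain ⟨f, hf⟩ := exists_balanced (V := {x // x ∈ W}) (L := PlLine q)
  refine ⟨fun v => if h : v ∈ W then f ⟨v, h⟩ else (0, 0), fun l => ?_⟩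
  have h1 := hf l
  rw [Fintype.card_coe, Fintype.card_prod, ZMod.card, ← pow_two] at h1
  refine le_trans ?_ h1
  refine le_trans (Finset.card_le_card (t := (Finset.univ.filter fun v => f v = l).image
    Subtype.val) fun v hv => ?_) Finset.card_image_le
  obtain ⟨hvW, hvl⟩ := Finset.mem_filter.1 hv
  beta_reduce at hvl
  rw [dif_pos hvW] at hvl
  exact Finset.mem_image.2 ⟨⟨v, hvW⟩, Finset.mem_filter.2 ⟨Finset.mem_univ _, hvl⟩, rfl⟩

/-- **N4**: the cover down. -/
theorem coverStatement_of (hAD : ADStatement) (hS : SplitStatement) : CoverStatement := by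
  classical
  intro a ha h hh m hm
  obtain ⟨q, hq, hq64, γ, b, hγ, hb, hconst⟩ := cover_consts a h m ha hh hm
  have : Fact q.Prime := ⟨hq⟩
  have hqpos : 0 < q := hq.pos
  obtain ⟨nA, hnA⟩ := hAD (a / 2) (by positivity) γ hγ
  obtain ⟨nS, hnS⟩ := hS (q ^ 2 + q) (by positivity) (1 / h + 1)
  obtain ⟨n0, hn0⟩ := hconst (max nA nS)
  refine ⟨n0, ?_⟩
  intro V _ _ G X U hNL hGX hUX hnX hηU hUa hdeg hdegIn heven
  obtain ⟨hNu, hNn, hCard, hall⟩ := hn0 X.card U.card hnX hηU hUa
  set n := X.card with hn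
  set u := U.card with hu
  set M : ℝ := (u : ℝ) / ((q : ℝ) ^ 2 + q) with hM
  set e : ℝ := (u : ℝ) ^ (3 / 4 : ℝ) with he
  set g : ℕ := ⌊γ * n⌋₊ with hg
  set B : ℕ := ⌊b * n⌋₊ + 1 with hB
  set T : ℕ := n / q ^ 2 + 1 with hT
  obtain ⟨hM0, heM, _, hc1, hc2, hc3, hc4, hc5⟩ := hall M e rfl rfl g B T rfl rfl rfl
  -- the colouring
  have hcardP : Fintype.card (PlPoint q) = q ^ 2 + q := by
    rw [Fintype.card_sum, Fintype.card_prod, ZMod.card, pow_two]
  let eq : PlPoint q ≃ Fin (q ^ 2 + q) := Fintype.equivFinOfCardEq hcardP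
  obtain ⟨c', hc'⟩ := hnS V U (Option {x // x ∈ X})
    (fun i => i.elim U (fun x => nbr G x.1)) ((le_max_right _ _).trans hNu) (by
      rw [Fintype.card_option, Fintype.card_coe]
      push_cast
      exact hCard)
  set c : V → PlPoint q := fun v => eq.symm (c' v) with hc
  have hcell_eq : ∀ (S : Finset V) (p : PlPoint q),
      (S ∩ U).filter (fun v => c' v = eq p) = S ∩ cell q c U p := by
    intro S p
    ext v
    simp only [Finset.mem_filter, Finset.mem_inter, mem_cell, hc]
    constructor
    · rintro ⟨⟨h1, h2⟩, h3⟩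
      exact ⟨h1, h2, by rw [h3]; exact eq.symm_apply_apply p⟩
    · rintro ⟨h1, h2, h3⟩
      exact ⟨⟨h1, h2⟩, by rw [← h3]; exact (eq.apply_symm_apply _).symm⟩
  have hKcast : ((q ^ 2 + q : ℕ) : ℝ) = (q : ℝ) ^ 2 + q := by push_cast; ring
  have hcell : ∀ p, ((cell q c U p).card : ℝ) ≤ M + e := by
    intro p
    have h1 := hc' none (eq p)
    simp only [Option.elim] at h1
    rw [hcell_eq U p, Finset.inter_self, hKcast] at h1
    have h2 : U ∩ cell q c U p = cell q c U p :=
      Finset.inter_eq_right.2 (Finset.filter_subset _ _)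
    rw [h2] at h1
    have h3 := (abs_le.1 h1).2
    linarith
  have hnbc : ∀ x ∈ X, ∀ p, (3 / 4 + a) * M - e ≤ ((nbr G x ∩ cell q c U p).card : ℝ) := by
    intro x hx p
    have h1 := hc' (some ⟨x, hx⟩) (eq p)
    simp only [Option.elim] at h1
    rw [hcell_eq (nbr G x) p, hKcast] at h1
    have h3 := (abs_le.1 h1).1
    have h4 : (3 / 4 + a) * (u : ℝ) ≤ ((nbr G x ∩ U).card : ℝ) := hdegIn x hx
    have h5 : (3 / 4 + a) * M ≤ ((nbr G x ∩ U).card : ℝ) / ((q : ℝ) ^ 2 + q) := by
      rw [hM, ← mul_div_assoc]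
      exact div_le_div_of_nonneg_right h4 (by positivity)
    linarith
  -- two vertices and a cell
  have hincl : ∀ v, ∀ y ∈ X, ∀ p, ((nbr G v ∩ cell q c U p).card : ℝ) -
      ((1 / 4 - a) * M + 2 * e) ≤ ((nbr G v ∩ nbr G y ∩ cell q c U p).card : ℝ) := by
    intro v y hy p
    have h1 : (nbr G v ∩ cell q c U p).card + (nbr G y ∩ cell q c U p).card ≤
        (nbr G v ∩ nbr G y ∩ cell q c U p).card + (cell q c U p).card := by
      rw [← Finset.card_union_add_card_inter, add_comm]
      refine Nat.add_le_add ?_ ?_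
      · refine Finset.card_le_card fun z hz => ?_
        simp only [Finset.mem_inter] at hz ⊢
        tauto
      · refine Finset.card_le_card fun z hz => ?_
        simp only [Finset.mem_union, Finset.mem_inter] at hz ⊢
        tauto
    have h2 : ((nbr G v ∩ cell q c U p).card : ℝ) + ((nbr G y ∩ cell q c U p).card : ℝ) ≤
        ((nbr G v ∩ nbr G y ∩ cell q c U p).card : ℝ) + ((cell q c U p).card : ℝ) := by
      exact_mod_cast h1
    have h3 := hcell p
    have h4 := hnbc y hy p
    linarith
  obtain ⟨lam, hlam⟩ := exists_lines q (X \ U)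
  have hWle : (X \ U).card ≤ n := Finset.card_le_card Finset.sdiff_subset
  have hT' : ∀ l, ((X \ U).filter fun v => lam v = l).card ≤ T := fun l =>
    (hlam l).trans (Nat.add_le_add_right (Nat.div_le_div_right hWle) 1)
  have hWU : Disjoint (X \ U) U := Finset.sdiff_disjoint
  have hlineCard : ∀ l, ((lineSet q c U l).card : ℝ) ≤ (q + 1) * (M + e) := by
    intro l
    rw [card_lineSet]
    push_cast
    calc (∑ p ∈ Finset.univ.filter (fun p => PlOn q p l), ((cell q c U p).card : ℝ))
        ≤ ∑ p ∈ Finset.univ.filter (fun p => PlOn q p l), (M + e) :=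
          Finset.sum_le_sum fun p _ => hcell p
      _ = (q + 1) * (M + e) := by
          rw [Finset.sum_const, pl_points_card, nsmul_eq_mul]
          push_cast
          ring
  -- the approximate decomposition
  set R0 := resv q (X \ U) U c lam with hR0
  set G' := G \ (U.sym2 ∪ R0) with hG'
  have hG'deg : ∀ v ∈ X, (3 / 4 + a / 2) * (n : ℝ) ≤ (deg G' v : ℝ) := by
    intro v hv
    have h1 : deg G v ≤ deg G' v + deg (U.sym2 ∪ R0) v := by
      refine le_trans (deg_mono (fun e he => ?_) v) (deg_union_le G' (U.sym2 ∪ R0) v)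
      by_cases h : e ∈ U.sym2 ∪ R0
      · exact Finset.mem_union_right _ h
      · exact Finset.mem_union_left _ (Finset.mem_sdiff.2 ⟨he, h⟩)
    have h2 : (deg (U.sym2 ∪ R0) v : ℝ) ≤ a / 2 * n := by
      by_cases hvU : v ∈ U
      · have h3 : deg (U.sym2 ∪ R0) v ≤ u + q * T := by
          refine (deg_union_le _ _ v).trans (Nat.add_le_add ?_ ?_)
          · refine Finset.card_le_card fun z hz => ?_
            rw [mem_nbr] at hz
            exact (Finset.mk_mem_sym2_iff.1 hz).2
          · exact deg_resv_right hWU c lam hT' hvU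
        have h4 : (deg (U.sym2 ∪ R0) v : ℝ) ≤ (u : ℝ) + q * T := by exact_mod_cast h3
        exact h4.trans hc4
      · have hvW : v ∈ X \ U := Finset.mem_sdiff.2 ⟨hv, hvU⟩
        have h3 : deg (U.sym2 ∪ R0) v ≤ (lineSet q c U (lam v)).card := by
          rw [← deg_resv_left hWU c lam hvW]
          refine Finset.card_le_card fun z hz => ?_
          rw [mem_nbr, Finset.mem_union] at hz
          rw [mem_nbr]
          rcases hz with hz | hz
          · exact absurd (Finset.mk_mem_sym2_iff.1 hz).1 hvU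
          · exact hz
        have h4 : (deg (U.sym2 ∪ R0) v : ℝ) ≤ ((lineSet q c U (lam v)).card : ℝ) := by
          exact_mod_cast h3
        exact h4.trans ((hlineCard _).trans hc3)
    have h3 : (deg G v : ℝ) ≤ (deg G' v : ℝ) + (deg (U.sym2 ∪ R0) v : ℝ) := by exact_mod_cast h1
    have h4 := hdeg v hv
    linarith
  obtain ⟨P, hPG, hPdec, hPdeg⟩ := hnA V G' X (hNL.mono Finset.sdiff_subset)
    (Finset.sdiff_subset.trans hGX) ((le_max_left _ _).trans hNn) hG'deg
  have hPdeg' : ∀ v ∈ X, deg (G' \ P) v ≤ g := fun v hv => Nat.le_floor (hPdeg v hv)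
  -- the core
  obtain ⟨D, hD1, hD2, hD3, hD4⟩ := cover_core q G X U hNL hGX hUX c lam g B T ⌊M + e⌋₊
    (Nat.succ_pos _) P hPG hPdec hPdeg' hT' (fun p => Nat.le_floor (hcell p))
    (by
      intro x hx y hy p
      have h1 := hincl x y hy p
      have h2 := hnbc x hx p
      have h3 : M / 2 ≤ ((nbr G x ∩ nbr G y ∩ cell q c U p).card : ℝ) := by
        have h4 : a / 16 * M ≤ a * M := by nlinarith [mul_pos ha hM0]
        nlinarith [mul_pos ha hM0]
      exact_mod_cast hc1.trans_le h3)
    (by
      intro v hv y hy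
      have hvX : v ∈ X := (Finset.mem_sdiff.1 hv).1
      have hyX : y ∈ X := hUX hy
      have h1 : ((q : ℝ) + 1) * ((3 / 4 + a) * M - e) ≤
          ((nbr G v ∩ lineSet q c U (lam v)).card : ℝ) := by
        rw [card_inter_lineSet]
        push_cast
        calc ((q : ℝ) + 1) * ((3 / 4 + a) * M - e)
            = ∑ p ∈ Finset.univ.filter (fun p => PlOn q p (lam v)), ((3 / 4 + a) * M - e) := by
              rw [Finset.sum_const, pl_points_card, nsmul_eq_mul]
              push_cast
              ring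
          _ ≤ _ := Finset.sum_le_sum fun p _ => hnbc v hvX p
      have h2 : ((nbr G v ∩ lineSet q c U (lam v)).card : ℝ) -
          ((q : ℝ) + 1) * ((1 / 4 - a) * M + 2 * e) ≤
          ((nbr G v ∩ nbr G y ∩ lineSet q c U (lam v)).card : ℝ) := by
        rw [card_inter_lineSet, card_inter_lineSet]
        push_cast
        have h3 : ((q : ℝ) + 1) * ((1 / 4 - a) * M + 2 * e) =
            ∑ p ∈ Finset.univ.filter (fun p => PlOn q p (lam v)),
              ((1 / 4 - a) * M + 2 * e) := by
          rw [Finset.sum_const, pl_points_card, nsmul_eq_mul]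
          push_cast
          ring
        rw [h3, ← Finset.sum_sub_distrib]
        exact Finset.sum_le_sum fun p _ => hincl v y hyX p
      have h3 : ((⌊M + e⌋₊ : ℕ) : ℝ) ≤ M + e :=
        Nat.floor_le (add_nonneg hM0.le (Real.rpow_nonneg (Nat.cast_nonneg _) _))
      have h5 : ((q : ℝ) + 1) * M / 4 ≤ ((q : ℝ) + 1) * ((3 / 4 + a) * M - e) -
          2 * (((q : ℝ) + 1) * ((1 / 4 - a) * M + 2 * e)) := by
        have h6 : 5 * e ≤ 3 * (a * M) := by nlinarith [mul_pos ha hM0]
        have h7 : (0 : ℝ) < (q : ℝ) + 1 := by positivity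
        nlinarith [mul_le_mul_of_nonneg_left h6 h7.le]
      have h8 : (((nbr G v ∩ lineSet q c U (lam v)).card + 2 * T + 2 * ⌊M + e⌋₊ +
          4 * (g + 2 * B) : ℕ) : ℝ) ≤
          ((2 * (nbr G v ∩ nbr G y ∩ lineSet q c U (lam v)).card : ℕ) : ℝ) := by
        push_cast
        linarith
      exact_mod_cast h8)
    heven
  refine ⟨D, hD1, hD2, hD3, fun v hv => ?_⟩
  have h1 : (degIn D U v : ℝ) ≤ (g : ℝ) + 2 * B + q * T := by exact_mod_cast hD4 v hv
  exact h1.trans hc5

theorem cover_of (hS : SplitStatement) (hAD : ADStatement) : CoverStatement :=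
  coverStatement_of hAD hS

end NW
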