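import Mathlib

/-!
Project NW: perfect matchings under the Dirac condition, as involutions.
-/

namespace NW.Match

open Finset

variable {α : Type*} [DecidableEq α]

/-- `s` is a perfect matching of the symmetric relation `K` on the finite set `S`. -/
def IsPM (K : α → α → Prop) (S : Finset α) (s : α → α) : Prop :=
  ∀ u ∈ S, s u ∈ S ∧ K u (s u) ∧ s (s u) = u

/-- Dirac: an even set `F` in which every vertex has at least `|F|/2` neighbours inside `F` has a
perfect matching. -/
theorem exists_isPM_of_card (K : α → α → Prop) (hsymm : ∀ x y, K x y → K y x)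
    (hirr : ∀ x, ¬ K x x) (F : Finset α) [DecidableRel K]
    (hdeg : ∀ u ∈ F, F.card ≤ 2 * (F.filter (fun x => K u x)).card) (k : ℕ)
    (hk : 2 * k ≤ F.card) : ∃ S ⊆ F, S.card = 2 * k ∧ ∃ s, IsPM K S s := by
  induction k with
  | zero => exact ⟨∅, by simp, by simp, id, by intro u hu; simp at hu⟩
  | succ k ih =>
    obtain ⟨S, hSF, hScard, s, hs⟩ := ih (by omega)
    -- two points outside `S`
    have h2 : 1 < (F \ S).card := by
      have := Finset.card_sdiff_of_subset hSF
      omega
    obtain ⟨a, ha, b, hb, hab⟩ := Finset.one_lt_card.1 h2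
    simp only [mem_sdiff] at ha hb
    -- adding an edge outside `S`
    have hadd : ∀ x y : α, x ∈ F → y ∈ F → x ∉ S → y ∉ S → x ≠ y → K x y →
        ∃ S ⊆ F, S.card = 2 * (k + 1) ∧ ∃ s, IsPM K S s := by
      intro x y hxF hyF hxS hyS hxy hK
      refine ⟨insert x (insert y S), ?_, ?_, fun u => if u = x then y else if u = y then x else s u,
        ?_⟩
      · intro u hu
        simp only [mem_insert] at hu
        rcases hu with rfl | rfl | hu
        · exact hxF
        · exact hyF
        · exact hSF hu
      · rw [card_insert_of_notMem, card_insert_of_notMem hyS, hScard]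
        · ring
        · simp [hxy, hxS]
      · intro u hu
        simp only [mem_insert] at hu
        by_cases h1 : u = x
        · subst h1
          simp [hK, Ne.symm hxy]
        · by_cases h3 : u = y
          · subst h3
            simp [h1, hsymm _ _ hK]
          · have huS : u ∈ S := by tauto
            obtain ⟨e1, e2, e3⟩ := hs u huS
            have h4 : s u ≠ x := fun h => hxS (h ▸ e1)
            have h5 : s u ≠ y := fun h => hyS (h ▸ e1)
            simp [h1, h3, h4, h5, e1, e2, e3]
    by_cases hA : ∃ c ∈ F, c ∉ S ∧ K a c
    · obtain ⟨c, hcF, hcS, hc⟩ := hA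
      exact hadd a c ha.1 hcF ha.2 hcS (fun h => hirr a (h ▸ hc)) hc
    by_cases hB : ∃ c ∈ F, c ∉ S ∧ K b c
    · obtain ⟨c, hcF, hcS, hc⟩ := hB
      exact hadd b c hb.1 hcF hb.2 hcS (fun h => hirr b (h ▸ hc)) hc
    push Not at hA hB
    -- counting
    have hda := hdeg a ha.1
    have hdb := hdeg b hb.1
    have eqA : F.filter (fun x => K a x) = S.filter (fun x => K a x) := by
      ext x
      simp only [mem_filter]
      constructor
      · rintro ⟨h1, h3⟩
        exact ⟨by by_contra h4; exact hA x h1 h4 h3, h3⟩
      · rintro ⟨h1, h3⟩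
        exact ⟨hSF h1, h3⟩
    have eqB : (F.filter (fun x => K b x)).card = (S.filter (fun x => K b (s x))).card := by
      have : F.filter (fun x => K b x) = (S.filter (fun x => K b (s x))).image s := by
        ext x
        simp only [mem_filter, mem_image]
        constructor
        · rintro ⟨h1, h3⟩
          have h4 : x ∈ S := by by_contra h4; exact hB x h1 h4 h3
          obtain ⟨e1, e2, e3⟩ := hs x h4
          exact ⟨s x, ⟨e1, by rw [e3]; exact h3⟩, e3⟩
        · rintro ⟨y, ⟨h1, h3⟩, rfl⟩
          exact ⟨hSF (hs y h1).1, h3⟩
      rw [this, card_image_of_injOn]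
      intro x hx y hy hxy
      simp only [coe_filter, Set.mem_ofPred_eq] at hx hy
      rw [← (hs x hx.1).2.2, hxy, (hs y hy.1).2.2]
    have hex : ∃ x ∈ S, K a x ∧ K b (s x) := by
      by_contra hno
      push Not at hno
      have hdisj : Disjoint (S.filter (fun x => K a x)) (S.filter (fun x => K b (s x))) := by
        rw [Finset.disjoint_left]
        intro x hx hy
        simp only [mem_filter] at hx hy
        exact hno x hx.1 hx.2 hy.2
      have hle : (S.filter (fun x => K a x)).card + (S.filter (fun x => K b (s x))).card ≤
          S.card := by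
        rw [← card_union_of_disjoint hdisj]
        apply card_le_card
        intro x hx
        simp only [mem_union, mem_filter] at hx
        tauto
      rw [eqA] at hda
      rw [eqB] at hdb
      omega
    obtain ⟨x, hxS, hax, hbx⟩ := hex
    obtain ⟨e1, e2, e3⟩ := hs x hxS
    have hxne : x ≠ s x := fun h => hirr x (by nth_rewrite 2 [h]; exact e2)
    have hax' : a ≠ x := fun h => ha.2 (h ▸ hxS)
    have hbx' : b ≠ x := fun h => hb.2 (h ▸ hxS)
    have hasx : a ≠ s x := fun h => ha.2 (h ▸ e1)
    have hbsx : b ≠ s x := fun h => hb.2 (h ▸ e1)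
    refine ⟨insert a (insert b S), ?_, ?_, fun u => if u = a then x else if u = b then s x else
      if u = x then a else if u = s x then b else s u, ?_⟩
    · intro u hu
      simp only [mem_insert] at hu
      rcases hu with rfl | rfl | hu
      · exact ha.1
      · exact hb.1
      · exact hSF hu
    · rw [card_insert_of_notMem, card_insert_of_notMem hb.2, hScard]
      · ring
      · simp [hab, ha.2]
    · intro u hu
      simp only [mem_insert] at hu
      by_cases h1 : u = a
      · subst h1
        simp [hax, hax'.symm, hbx'.symm, hxS]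
      · by_cases h3 : u = b
        · subst h3
          simp [h1, hbx, hasx.symm, hbsx.symm, hxne.symm, e1]
        · have huS : u ∈ S := by tauto
          by_cases h4 : u = x
          · subst h4
            simp [h1, h3, hsymm _ _ hax]
          · by_cases h5 : u = s x
            · subst h5
              simp [h1, h3, h4, hab.symm, hsymm _ _ hbx]
            · obtain ⟨f1, f2, f3⟩ := hs u huS
              have g1 : s u ≠ a := fun h => ha.2 (h ▸ f1)
              have g2 : s u ≠ b := fun h => hb.2 (h ▸ f1)
              have g3 : s u ≠ x := fun h => h5 (by rw [← f3, h])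
              have g4 : s u ≠ s x := fun h => h4 (by rw [← f3, h, e3])
              simp [h1, h3, h4, h5, g1, g2, g3, g4, f1, f2, f3]

/-- Dirac: an even set `F` in which every vertex has at least `|F|/2` neighbours inside `F` has a
perfect matching. -/
theorem exists_isPM (K : α → α → Prop) (hsymm : ∀ x y, K x y → K y x)
    (hirr : ∀ x, ¬ K x x) (F : Finset α) (hF : Even F.card) [DecidableRel K]
    (hdeg : ∀ u ∈ F, F.card ≤ 2 * (F.filter (fun x => K u x)).card) :
    ∃ s, IsPM K F s := by
  obtain ⟨k, hk⟩ := hF
  obtain ⟨S, hSF, hS, s, hs⟩ := exists_isPM_of_card K hsymm hirr F hdeg k (by omega)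
  have : S = F := Finset.eq_of_subset_of_card_le hSF (by omega)
  subst this
  exact ⟨s, hs⟩

/-- `t` pairwise edge-disjoint perfect matchings, if the minimum degree is at least `|F|/2 + t`. -/
theorem exists_many_isPM (K : α → α → Prop) (hsymm : ∀ x y, K x y → K y x)
    (hirr : ∀ x, ¬ K x x) (F : Finset α) (hF : Even F.card) [DecidableRel K] (t : ℕ)
    (hdeg : ∀ u ∈ F, F.card + 2 * t ≤ 2 * (F.filter (fun x => K u x)).card) :
    ∃ s : Fin t → α → α, (∀ i, IsPM K F (s i)) ∧
      ∀ u ∈ F, ∀ i j, s i u = s j u → i = j := by
  induction t with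
  | zero => exact ⟨fun i => i.elim0, fun i => i.elim0, fun u _ i => i.elim0⟩
  | succ t ih =>
    obtain ⟨s, hs, hinj⟩ := ih (fun u hu => by have := hdeg u hu; omega)
    classical
    -- remove the used edges
    let K' : α → α → Prop := fun x y => K x y ∧ x ∈ F ∧ y ∈ F ∧ ∀ i, s i x ≠ y
    have hK'symm : ∀ x y, K' x y → K' y x := by
      rintro x y ⟨h1, hx, hy, h2⟩
      refine ⟨hsymm _ _ h1, hy, hx, ?_⟩
      intro i hi
      apply h2 i
      rw [← hi]
      exact (hs i y hy).2.2
    have hdeg' : ∀ u ∈ F, F.card ≤ 2 * (F.filter (fun x => K' u x)).card := by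
      intro u hu
      have hsub : F.filter (fun x => K u x) ⊆ F.filter (fun x => K' u x) ∪
          Finset.univ.image (fun i : Fin t => s i u) := by
        intro x hx
        simp only [mem_filter] at hx
        simp only [mem_union, mem_filter, mem_image, mem_univ, true_and]
        by_cases h : ∃ i, s i u = x
        · right; exact h
        · left
          push Not at h
          exact ⟨hx.1, hx.2, hu, hx.1, h⟩
      have h1 := card_le_card hsub
      have h2 := card_union_le (F.filter (fun x => K' u x))
        (Finset.univ.image (fun i : Fin t => s i u))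
      have h3 : (Finset.univ.image (fun i : Fin t => s i u)).card ≤ t := by
        have := Finset.card_image_le (s := (Finset.univ : Finset (Fin t))) (f := fun i => s i u)
        simpa using this
      have := hdeg u hu
      omega
    obtain ⟨s', hs'⟩ := exists_isPM K' hK'symm (fun x h => hirr x h.1) F hF hdeg'
    refine ⟨Fin.cons s' s, ?_, ?_⟩
    · intro i
      refine Fin.cases ?_ (fun i => ?_) i
      · intro u hu
        exact ⟨(hs' u hu).1, (hs' u hu).2.1.1, (hs' u hu).2.2⟩
      · exact hs i
    · intro u hu i j
      refine Fin.cases ?_ (fun i => ?_) i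
      · refine Fin.cases ?_ (fun j => ?_) j
        · intro _; rfl
        · intro h
          simp only [Fin.cons_zero, Fin.cons_succ] at h
          exact absurd h.symm ((hs' u hu).2.1.2.2.2 j)
      · refine Fin.cases ?_ (fun j => ?_) j
        · intro h
          simp only [Fin.cons_zero, Fin.cons_succ] at h
          exact absurd h ((hs' u hu).2.1.2.2.2 i)
        · intro h
          simp only [Fin.cons_succ] at h
          rw [hinj u hu i j h]

end NW.Match
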