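import Mathlib

/-!
# Greedy choice with bounded counters (derandomised random greedy algorithm)

`NW.greedy_counters` : at every step one may choose one of finitely many options; every option
raises every counter by at most one, and the average raise of the counter `i` at step `s` is
at most `a s i`.  If `∑ s, a s i ≤ A` and `|I| * exp (2 A) < exp t`, then the choices can be
made in such a way that all counters stay below `t` for ever.
-/

open Finset

namespace NW

theorem exp_le_linear {y : ℝ} (h0 : 0 ≤ y) (h1 : y ≤ 1) : Real.exp y ≤ 1 + 2 * y := by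
  have hconv : ConvexOn ℝ Set.univ Real.exp := convexOn_exp
  have h := hconv.2 (Set.mem_univ (0 : ℝ)) (Set.mem_univ (1 : ℝ)) (sub_nonneg.2 h1) h0
    (by ring)
  have he : Real.exp 1 < 3 := lt_trans Real.exp_one_lt_d9 (by norm_num)
  have h2 : Real.exp y ≤ (1 - y) * 1 + y * Real.exp 1 := by
    have h3 : (1 - y) • (0 : ℝ) + y • (1 : ℝ) = y := by simp
    rw [h3] at h
    simpa [smul_eq_mul] using h
  nlinarith

/-- Derandomised random greedy algorithm. -/
theorem greedy_counters {σ I : Type*} [Fintype I] (N : ℕ) (P : ℕ → σ → Prop)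
    (c : σ → I → ℝ) (a : ℕ → I → ℝ) (A t : ℝ)
    (ha : ∀ s i, 0 ≤ a s i)
    (hA : ∀ i, ∑ s ∈ Finset.range N, a s i ≤ A)
    (ht : (Fintype.card I : ℝ) * Real.exp (2 * A) < Real.exp t)
    (x₀ : σ) (h0 : P 0 x₀) (hc0 : ∀ i, c x₀ i ≤ 0)
    (step : ∀ s < N, ∀ x, P s x → (∀ i, c x i < t) → ∃ O : Finset σ, O.Nonempty ∧
      (∀ y ∈ O, P (s + 1) y) ∧
      (∀ y ∈ O, ∀ i, c x i ≤ c y i ∧ c y i ≤ c x i + 1) ∧
      (∀ i, ∑ y ∈ O, (c y i - c x i) ≤ (O.card : ℝ) * a s i)) :
    ∃ x, P N x ∧ ∀ i, c x i < t := by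
  classical
  -- the potential
  let Φ : ℕ → σ → ℝ := fun s x =>
    ∑ i, Real.exp (c x i + 2 * ∑ r ∈ Finset.Ico s N, a r i)
  have hΦ0 : Φ 0 x₀ ≤ (Fintype.card I : ℝ) * Real.exp (2 * A) := by
    have h1 : ∀ i ∈ (Finset.univ : Finset I),
        Real.exp (c x₀ i + 2 * ∑ r ∈ Finset.Ico 0 N, a r i) ≤ Real.exp (2 * A) := by
      intro i _
      apply Real.exp_le_exp.2
      have h2 := hA i
      have h3 := hc0 i
      rw [Finset.range_eq_Ico] at h2
      linarith
    calc Φ 0 x₀ ≤ ∑ _i : I, Real.exp (2 * A) := Finset.sum_le_sum h1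
      _ = (Fintype.card I : ℝ) * Real.exp (2 * A) := by
        rw [Finset.sum_const, nsmul_eq_mul, Finset.card_univ]
  have hlt : ∀ s x, Φ s x ≤ (Fintype.card I : ℝ) * Real.exp (2 * A) → ∀ i, c x i < t := by
    intro s x hx i
    have h1 : Real.exp (c x i) ≤ Φ s x := by
      have h2 : Real.exp (c x i) ≤ Real.exp (c x i + 2 * ∑ r ∈ Finset.Ico s N, a r i) := by
        apply Real.exp_le_exp.2
        have : 0 ≤ ∑ r ∈ Finset.Ico s N, a r i := Finset.sum_nonneg fun r _ => ha r i
        linarith
      exact h2.trans (Finset.single_le_sum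
        (f := fun i => Real.exp (c x i + 2 * ∑ r ∈ Finset.Ico s N, a r i))
        (fun j _ => (Real.exp_pos _).le) (Finset.mem_univ i))
    have h3 : Real.exp (c x i) < Real.exp t := lt_of_le_of_lt (h1.trans hx) ht
    exact Real.exp_lt_exp.1 h3
  have key : ∀ s, s ≤ N → ∃ x, P s x ∧ Φ s x ≤ (Fintype.card I : ℝ) * Real.exp (2 * A) := by
    intro s
    induction s with
    | zero => intro _; exact ⟨x₀, h0, hΦ0⟩
    | succ s ih =>
      intro hs
      obtain ⟨x, hPx, hΦx⟩ := ih (by omega)
      obtain ⟨O, hOne, hOP, hOc, hOa⟩ := step s (by omega) x hPx (hlt s x hΦx)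
      -- the average of the new potential is at most the old potential
      have hsum : ∑ y ∈ O, Φ (s + 1) y ≤ (O.card : ℝ) * Φ s x := by
        have e1 : ∑ y ∈ O, Φ (s + 1) y =
            ∑ i, ∑ y ∈ O, Real.exp (c y i + 2 * ∑ r ∈ Finset.Ico (s + 1) N, a r i) :=
          Finset.sum_comm
        rw [e1]
        have e2 : (O.card : ℝ) * Φ s x =
            ∑ i, (O.card : ℝ) * Real.exp (c x i + 2 * ∑ r ∈ Finset.Ico s N, a r i) := by
          rw [Finset.mul_sum]
        rw [e2]
        apply Finset.sum_le_sum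
        intro i _
        set R : ℝ := ∑ r ∈ Finset.Ico (s + 1) N, a r i with hR
        have hRs : ∑ r ∈ Finset.Ico s N, a r i = a s i + R := by
          rw [hR, Finset.sum_eq_sum_Ico_succ_bot (by omega : s < N)]
        rw [hRs]
        have h1 : ∀ y ∈ O, Real.exp (c y i + 2 * R) ≤
            Real.exp (c x i + 2 * R) * (1 + 2 * (c y i - c x i)) := by
          intro y hy
          have h2 := hOc y hy i
          have h3 : Real.exp (c y i + 2 * R) =
              Real.exp (c x i + 2 * R) * Real.exp (c y i - c x i) := by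
            rw [← Real.exp_add]; congr 1; ring
          rw [h3]
          apply mul_le_mul_of_nonneg_left _ (Real.exp_pos _).le
          exact exp_le_linear (by linarith) (by linarith)
        calc ∑ y ∈ O, Real.exp (c y i + 2 * R)
            ≤ ∑ y ∈ O, Real.exp (c x i + 2 * R) * (1 + 2 * (c y i - c x i)) :=
              Finset.sum_le_sum h1
          _ = Real.exp (c x i + 2 * R) * ((O.card : ℝ) + 2 * ∑ y ∈ O, (c y i - c x i)) := by
              rw [← Finset.mul_sum, Finset.sum_add_distrib, Finset.sum_const, nsmul_eq_mul,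
                mul_one, ← Finset.mul_sum]
          _ ≤ Real.exp (c x i + 2 * R) * ((O.card : ℝ) * Real.exp (2 * a s i)) := by
              apply mul_le_mul_of_nonneg_left _ (Real.exp_pos _).le
              have h4 := hOa i
              have h5 : 1 + 2 * a s i ≤ Real.exp (2 * a s i) := by
                have := Real.add_one_le_exp (2 * a s i); linarith
              have h6 : (0 : ℝ) ≤ (O.card : ℝ) := Nat.cast_nonneg _
              nlinarith [mul_le_mul_of_nonneg_left h5 h6]
          _ = (O.card : ℝ) * Real.exp (c x i + 2 * (a s i + R)) := by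
              rw [show c x i + 2 * (a s i + R) = (c x i + 2 * R) + 2 * a s i by ring,
                Real.exp_add (c x i + 2 * R)]
              ring
      have hex : ∃ y ∈ O, Φ (s + 1) y ≤ Φ s x := by
        by_contra hcon
        push Not at hcon
        have h1 : ∑ _y ∈ O, Φ s x < ∑ y ∈ O, Φ (s + 1) y :=
          Finset.sum_lt_sum_of_nonempty hOne hcon
        rw [Finset.sum_const, nsmul_eq_mul] at h1
        linarith
      obtain ⟨y, hyO, hy⟩ := hex
      exact ⟨y, hOP y hyO, hy.trans hΦx⟩
  obtain ⟨x, hPx, hΦx⟩ := key N le_rfl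
  exact ⟨x, hPx, hlt N x hΦx⟩

end NW
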