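import Mathlib

/-!
# Project NW, N2: the real inequalities of one step of the derandomised greedy nibble

`p` is the proportion of points alive, `p' = p - θ` after one step, `bar η p = 2 η p⁻²⁰` the
barrier, `s` the weight of a point, `W` the total weight of the outcomes, `DEC` the weighted sum of
the decrements of `s`, `c` the number of alive points in a set of size at most `m`, `CN` the
weighted sum of the numbers of points removed from it.
-/

set_option autoImplicit false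

namespace NW

/-- the barrier -/
noncomputable def bar (η p : ℝ) : ℝ := 2 * η / p ^ 20

theorem bar_pos {η p : ℝ} (hη : 0 < η) (hp : 0 < p) : 0 < bar η p := by
  unfold bar; positivity

theorem bar_ge {η p : ℝ} (hη : 0 < η) (hp : 0 < p) (hp1 : p ≤ 1) : 2 * η ≤ bar η p := by
  unfold bar
  rw [le_div_iff₀ (by positivity)]
  have : p ^ 20 ≤ 1 := pow_le_one₀ hp.le hp1
  nlinarith

theorem bar_le {γ η p : ℝ} (hγ : 0 < γ) (hη2 : 16 * η ≤ γ ^ 20) (hp : γ ≤ p) :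
    bar η p ≤ 1 / 8 := by
  unfold bar
  have h0 : 0 < p := hγ.trans_le hp
  rw [div_le_iff₀ (by positivity)]
  have : γ ^ 20 ≤ p ^ 20 := pow_le_pow_left₀ hγ.le hp 20
  linarith

/-- Bernoulli: `b ^ 20 ≥ a ^ 20 + 20 a ^ 19 (b - a)` -/
theorem bern20 {a b : ℝ} (ha : 0 < a) (hb : 0 < b) : a ^ 20 + 20 * a ^ 19 * (b - a) ≤ b ^ 20 := by
  have h1 : (1 : ℝ) + (20 : ℕ) * (b / a - 1) ≤ (1 + (b / a - 1)) ^ 20 := by
    apply one_add_mul_le_pow
    have : 0 < b / a := div_pos hb ha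
    linarith
  have h2 : 1 + (b / a - 1) = b / a := by ring
  rw [h2, div_pow, le_div_iff₀ (by positivity)] at h1
  push_cast at h1
  have h3 : (1 + 20 * (b / a - 1)) * a ^ 20 = a ^ 20 + 20 * a ^ 19 * (b - a) := by
    field_simp
  rw [h3] at h1
  exact h1

theorem bar_inc_ge {η p θ : ℝ} (hη : 0 < η) (hθ : 0 < θ) (hp : θ < p) :
    20 * bar η p * θ / (p - θ) ≤ bar η (p - θ) - bar η p := by
  have h0 : 0 < p := hθ.trans hp
  have h1 : 0 < p - θ := by linarith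
  have h2 := bern20 (a := 1 / p) (b := 1 / (p - θ)) (by positivity) (by positivity)
  have h3 : bar η (p - θ) - bar η p = 2 * η * ((1 / (p - θ)) ^ 20 - (1 / p) ^ 20) := by
    unfold bar
    rw [one_div_pow, one_div_pow]
    ring
  have h4 : 20 * bar η p * θ / (p - θ) = 2 * η * (20 * (1 / p) ^ 19 * (1 / (p - θ) - 1 / p)) := by
    unfold bar
    field_simp
    ring
  rw [h3, h4]
  exact mul_le_mul_of_nonneg_left (by linarith) (by linarith)

theorem bar_inc_le {γ η p θ : ℝ} (hγ : 0 < γ) (hη : 0 < η) (hη2 : 16 * η ≤ γ ^ 20)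
    (hθ : 0 < θ) (hp : γ ≤ p - θ) : bar η (p - θ) - bar η p ≤ 5 / 2 * θ / γ := by
  have h1 : 0 < p - θ := hγ.trans_le hp
  have h0 : 0 < p := by linarith
  have h2 := bern20 (a := 1 / (p - θ)) (b := 1 / p) (by positivity) (by positivity)
  have h3 : bar η (p - θ) - bar η p = 2 * η * ((1 / (p - θ)) ^ 20 - (1 / p) ^ 20) := by
    unfold bar
    rw [one_div_pow, one_div_pow]
    ring
  have h4 : (1 / (p - θ)) ^ 20 - (1 / p) ^ 20 ≤ 20 * (1 / (p - θ)) ^ 19 * (1 / (p - θ) - 1 / p) := by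
    linarith
  have h5 : 20 * (1 / (p - θ)) ^ 19 * (1 / (p - θ) - 1 / p) = 20 * θ / ((p - θ) ^ 20 * p) := by
    field_simp
    ring
  have h6 : 20 * θ / ((p - θ) ^ 20 * p) ≤ 20 * θ / (γ ^ 20 * γ) := by
    apply div_le_div_of_nonneg_left (by positivity) (by positivity)
    exact mul_le_mul (pow_le_pow_left₀ hγ.le hp 20) (by linarith) hγ.le (by positivity)
  rw [h3]
  calc 2 * η * ((1 / (p - θ)) ^ 20 - (1 / p) ^ 20) ≤ 2 * η * (20 * θ / (γ ^ 20 * γ)) :=
        mul_le_mul_of_nonneg_left (by linarith) (by linarith)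
    _ = (40 * η / γ ^ 20) * (θ / γ) := by field_simp; ring
    _ ≤ (5 / 2) * (θ / γ) := by
        refine mul_le_mul_of_nonneg_right ?_ (by positivity)
        rw [div_le_iff₀ (by positivity)]
        linarith
    _ = 5 / 2 * θ / γ := by ring

/-- the standing assumptions on the parameters of one step -/
structure StepOK (γ η p θ τ : ℝ) : Prop where
  γ0 : 0 < γ
  η0 : 0 < η
  ηγ : 16 * η ≤ γ ^ 20
  θ0 : 0 < θ
  p1 : p ≤ 1
  γp : γ ≤ p - θ
  θη : θ ≤ γ * η / 2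
  τ0 : 0 ≤ τ
  τη : τ ≤ 2 * η * γ ^ 2

namespace StepOK

variable {γ η p θ τ : ℝ} (h : StepOK γ η p θ τ)
include h

theorem p0 : 0 < p := by
  have := h.γ0; have := h.θ0; have := h.γp; linarith

theorem p'0 : 0 < p - θ := by
  have := h.γ0; have := h.γp; linarith

theorem γ1 : γ ≤ 1 := by
  have := h.θ0; have := h.γp; have := h.p1; linarith

theorem η1 : 16 * η ≤ 1 := h.ηγ.trans (pow_le_one₀ h.γ0.le h.γ1)

theorem δ0 : 0 < bar η p := bar_pos h.η0 h.p0

theorem δ1 : bar η p ≤ 1 / 8 := bar_le h.γ0 h.ηγ (by linarith [h.γp, h.θ0])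

theorem θδ : 4 * θ ≤ bar η p * γ := by
  have h1 := bar_ge h.η0 h.p0 h.p1
  have h2 := h.θη
  have h3 := h.γ0
  nlinarith

theorem τδ : τ ≤ bar η p * p ^ 2 := by
  have h1 := bar_ge h.η0 h.p0 h.p1
  have h2 := h.τη
  have h3 : γ ^ 2 ≤ p ^ 2 := pow_le_pow_left₀ h.γ0.le (by linarith [h.γp, h.θ0]) 2
  calc τ ≤ 2 * η * γ ^ 2 := h2
    _ ≤ bar η p * p ^ 2 := mul_le_mul h1 h3 (by positivity) (h.δ0.le)

/-- `32 θ ≤ p` -/
theorem θp : 32 * θ ≤ p := by
  have h1 := h.θδ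
  have h2 := h.δ1
  have h3 := h.γp
  have h4 := h.θ0
  have h5 := h.γ0
  nlinarith

theorem θp' : 31 * θ ≤ p - θ := by linarith [h.θp]

/-- lower bound for the barrier term -/
theorem bar_term {W : ℝ} (hW : p ^ 3 * (1 - bar η p) ≤ W * θ) :
    35 / 2 * bar η p * p ^ 3 / (p - θ) ≤ W * (bar η (p - θ) - bar η p) := by
  have h0 := h.p0
  have h1 := h.p'0
  have hd := h.δ0
  have hd1 := h.δ1
  have h2 := bar_inc_ge h.η0 h.θ0 (by linarith : θ < p)
  have hθ := h.θ0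
  have hW0 : 0 ≤ W := by
    have : 0 ≤ p ^ 3 * (1 - bar η p) := mul_nonneg (by positivity) (by linarith)
    by_contra hc
    push Not at hc
    nlinarith
  calc 35 / 2 * bar η p * p ^ 3 / (p - θ) = (p ^ 3 * (7 / 8)) * (20 * bar η p / (p - θ)) := by ring
    _ ≤ (W * θ) * (20 * bar η p / (p - θ)) := by
        refine mul_le_mul_of_nonneg_right ?_ (by positivity)
        refine le_trans ?_ hW
        exact mul_le_mul_of_nonneg_left (by linarith) (by positivity)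
    _ = W * (20 * bar η p * θ / (p - θ)) := by ring
    _ ≤ _ := mul_le_mul_of_nonneg_left h2 hW0

/-- `s ≤ W / 2` -/
theorem s_le {W s : ℝ} (hW : p ^ 3 * (1 - bar η p) ≤ W * θ) (hs : s ≤ p ^ 2 * (1 + bar η p)) :
    2 * s ≤ W := by
  have h0 := h.p0
  have hd := h.δ0
  have hd1 := h.δ1
  have hθ := h.θ0
  have h3 := h.θp
  have h4 : 2 * s * θ ≤ W * θ := by
    calc 2 * s * θ ≤ 2 * (p ^ 2 * (1 + bar η p)) * (p / 32) := by
          apply mul_le_mul
          · linarith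
          · linarith
          · exact hθ.le
          · positivity
      _ ≤ p ^ 3 * (1 - bar η p) := by
          have : 0 < p ^ 3 := by positivity
          nlinarith
      _ ≤ W * θ := hW
  exact le_of_mul_le_mul_right h4 hθ

/-- the drift of the upper potential of a point is not positive -/
theorem drift_up {W s DEC : ℝ} (hW : p ^ 3 * (1 - bar η p) ≤ W * θ)
    (hW' : W * θ ≤ p ^ 3 * (1 + bar η p)) (hs : 0 ≤ s) (hs' : s ≤ p ^ 2 * (1 + bar η p))
    (hD : 2 * (p ^ 2 * (1 - bar η p) - τ) * s ≤ DEC) :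
    (W - s) * (s * (1 / (p - θ) ^ 2 - 1 / p ^ 2) - (bar η (p - θ) - bar η p)) -
      DEC / (p - θ) ^ 2 ≤ 0 := by
  have h0 := h.p0
  have h1 := h.p'0
  have hd := h.δ0
  have hd1 := h.δ1
  have hθ := h.θ0
  have hb := h.bar_term hW
  have h2s := h.s_le hW hs'
  have hτ := h.τδ
  have h31 := h.θp'
  set δ := bar η p with hδ
  set Δ := bar η (p - θ) - δ with hΔ
  have hΔ0 : 0 ≤ Δ := by
    have := bar_inc_ge h.η0 h.θ0 (by linarith : θ < p)
    have h5 : 0 ≤ 20 * bar η p * θ / (p - θ) := by positivity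
    linarith
  have hW0 : 0 ≤ W := by linarith
  -- the first term
  have e1 : 1 / (p - θ) ^ 2 - 1 / p ^ 2 = θ * (2 * p - θ) / (p ^ 2 * (p - θ) ^ 2) := by
    field_simp
    ring
  have t1 : (W - s) * (s * (1 / (p - θ) ^ 2 - 1 / p ^ 2)) ≤
      2 * (p ^ 2 * (1 + δ)) * s / (p - θ) ^ 2 := by
    rw [e1]
    calc (W - s) * (s * (θ * (2 * p - θ) / (p ^ 2 * (p - θ) ^ 2)))
        ≤ W * (s * (θ * (2 * p) / (p ^ 2 * (p - θ) ^ 2))) := by
          apply mul_le_mul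
          · linarith
          · apply mul_le_mul_of_nonneg_left _ hs
            apply div_le_div_of_nonneg_right _ (by positivity)
            exact mul_le_mul_of_nonneg_left (by linarith) hθ.le
          · apply mul_nonneg hs
            apply div_nonneg _ (by positivity)
            exact mul_nonneg hθ.le (by linarith)
          · exact hW0
      _ = (W * θ) * (2 * s / (p * (p - θ) ^ 2)) := by
          field_simp
      _ ≤ (p ^ 3 * (1 + δ)) * (2 * s / (p * (p - θ) ^ 2)) := by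
          apply mul_le_mul_of_nonneg_right hW'
          positivity
      _ = _ := by
          field_simp
  have t2 : 2 * (p ^ 2 * (1 - δ) - τ) * s / (p - θ) ^ 2 ≤ DEC / (p - θ) ^ 2 :=
    div_le_div_of_nonneg_right hD (by positivity)
  have t3 : 2 * (p ^ 2 * (1 + δ)) * s / (p - θ) ^ 2 - 2 * (p ^ 2 * (1 - δ) - τ) * s / (p - θ) ^ 2
      = 2 * s * (2 * δ * p ^ 2 + τ) / (p - θ) ^ 2 := by
    field_simp
    ring
  have t4 : 2 * s * (2 * δ * p ^ 2 + τ) / (p - θ) ^ 2 ≤ 35 / 4 * δ * p ^ 3 / (p - θ) := by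
    rw [div_le_div_iff₀ (by positivity) h1]
    have a1 : 2 * s * (2 * δ * p ^ 2 + τ) ≤ 2 * (p ^ 2 * (9 / 8)) * (3 * δ * p ^ 2) := by
      apply mul_le_mul
      · nlinarith [sq_nonneg p]
      · linarith
      · have := h.τ0; positivity
      · positivity
    have a2 : 31 * p ≤ 32 * (p - θ) := by linarith
    calc 2 * s * (2 * δ * p ^ 2 + τ) * (p - θ)
        ≤ 2 * (p ^ 2 * (9 / 8)) * (3 * δ * p ^ 2) * (p - θ) :=
          mul_le_mul_of_nonneg_right a1 h1.le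
      _ = (27 / 4 * δ * p ^ 3 * (p - θ)) * p := by ring
      _ ≤ (27 / 4 * δ * p ^ 3 * (p - θ)) * (32 / 31 * (p - θ)) := by
          apply mul_le_mul_of_nonneg_left (by linarith) (by positivity)
      _ ≤ 35 / 4 * δ * p ^ 3 * (p - θ) ^ 2 := by
          have : 0 ≤ δ * p ^ 3 * (p - θ) ^ 2 := by positivity
          nlinarith
  have t5 : 35 / 4 * δ * p ^ 3 / (p - θ) ≤ (W - s) * Δ := by
    have : W / 2 * Δ ≤ (W - s) * Δ := mul_le_mul_of_nonneg_right (by linarith) hΔ0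
    have e : 35 / 4 * δ * p ^ 3 / (p - θ) = (35 / 2 * δ * p ^ 3 / (p - θ)) / 2 := by ring
    rw [e]
    linarith
  have : (W - s) * (s * (1 / (p - θ) ^ 2 - 1 / p ^ 2) - Δ) =
      (W - s) * (s * (1 / (p - θ) ^ 2 - 1 / p ^ 2)) - (W - s) * Δ := by ring
  rw [this]
  linarith

/-- the drift of the lower potential of a point is not positive -/
theorem drift_down {W s DEC : ℝ} (hW : p ^ 3 * (1 - bar η p) ≤ W * θ)
    (hs : 0 ≤ s) (hs' : s ≤ p ^ 2 * (1 + bar η p))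
    (hD : DEC ≤ 2 * (p ^ 2 * (1 + bar η p)) * s) :
    (W - s) * (s * (1 / p ^ 2 - 1 / (p - θ) ^ 2) - (bar η (p - θ) - bar η p)) +
      DEC / (p - θ) ^ 2 ≤ 0 := by
  have h0 := h.p0
  have h1 := h.p'0
  have hd := h.δ0
  have hd1 := h.δ1
  have hθ := h.θ0
  have hb := h.bar_term hW
  have h2s := h.s_le hW hs'
  have h31 := h.θp'
  have hθδ := h.θδ
  have hγp := h.γp
  set δ := bar η p with hδ
  set Δ := bar η (p - θ) - δ with hΔ
  have hΔ0 : 0 ≤ Δ := by
    have := bar_inc_ge h.η0 h.θ0 (by linarith : θ < p)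
    have h5 : 0 ≤ 20 * bar η p * θ / (p - θ) := by positivity
    linarith
  have hW0 : 0 ≤ W := by linarith
  have e1 : 1 / (p - θ) ^ 2 - 1 / p ^ 2 = θ * (2 * p - θ) / (p ^ 2 * (p - θ) ^ 2) := by
    field_simp
    ring
  -- the first term
  have t1 : (2 * (p ^ 2 * (1 - δ)) * s - s * (p ^ 2 * (1 + δ)) * (3 * θ / p)) / (p - θ) ^ 2 ≤
      (W - s) * (s * (1 / (p - θ) ^ 2 - 1 / p ^ 2)) := by
    rw [e1]
    have a1 : (W - s) * (s * (θ * (2 * p - θ) / (p ^ 2 * (p - θ) ^ 2))) =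
        (((W * θ) * (2 * p - θ) * s - s * s * θ * (2 * p - θ)) / p ^ 2) / (p - θ) ^ 2 := by
      field_simp
    rw [a1]
    apply div_le_div_of_nonneg_right _ (by positivity)
    rw [le_div_iff₀ (by positivity)]
    have b1 : p ^ 3 * (1 - δ) * (2 * p - θ) * s ≤ (W * θ) * (2 * p - θ) * s := by
      apply mul_le_mul_of_nonneg_right _ hs
      exact mul_le_mul_of_nonneg_right hW (by linarith)
    have b2 : s * s * θ * (2 * p - θ) ≤ s * (p ^ 2 * (1 + δ)) * θ * (2 * p) := by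
      have c1 : s * s ≤ s * (p ^ 2 * (1 + δ)) := mul_le_mul_of_nonneg_left hs' hs
      have c2 : s * s * θ ≤ s * (p ^ 2 * (1 + δ)) * θ := mul_le_mul_of_nonneg_right c1 hθ.le
      exact mul_le_mul c2 (by linarith) (by linarith) (by positivity)
    have b3 : s * (p ^ 2 * (1 + δ)) * (3 * θ / p) * p ^ 2 = 3 * (s * (p ^ 3 * (1 + δ)) * θ) := by
      field_simp
    have b4 : p ^ 3 * (1 - δ) * θ * s ≤ s * (p ^ 3 * (1 + δ)) * θ := by
      have : 0 ≤ p ^ 3 * θ * s := by positivity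
      nlinarith
    have b5 : s * (p ^ 2 * (1 + δ)) * θ * (2 * p) = 2 * (s * (p ^ 3 * (1 + δ)) * θ) := by ring
    have b6 : (2 * (p ^ 2 * (1 - δ)) * s) * p ^ 2 - p ^ 3 * (1 - δ) * (2 * p - θ) * s =
        p ^ 3 * (1 - δ) * θ * s := by ring
    rw [sub_mul, b3]
    linarith
  have t2 : DEC / (p - θ) ^ 2 ≤ 2 * (p ^ 2 * (1 + δ)) * s / (p - θ) ^ 2 :=
    div_le_div_of_nonneg_right hD (by positivity)
  have t3 : 2 * (p ^ 2 * (1 + δ)) * s / (p - θ) ^ 2 -
      (2 * (p ^ 2 * (1 - δ)) * s - s * (p ^ 2 * (1 + δ)) * (3 * θ / p)) / (p - θ) ^ 2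
      = s * (4 * δ * p ^ 2 + 3 * (1 + δ) * p * θ) / (p - θ) ^ 2 := by
    field_simp
    ring
  have t4 : s * (4 * δ * p ^ 2 + 3 * (1 + δ) * p * θ) / (p - θ) ^ 2 ≤
      35 / 4 * δ * p ^ 3 / (p - θ) := by
    rw [div_le_div_iff₀ (by positivity) h1]
    have a0 : θ ≤ δ * p / 4 := by
      have : δ * γ ≤ δ * p := mul_le_mul_of_nonneg_left (by linarith) hd.le
      linarith
    have a1 : s * (4 * δ * p ^ 2 + 3 * (1 + δ) * p * θ) ≤ (p ^ 2 * (9 / 8)) * (5 * δ * p ^ 2) := by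
      apply mul_le_mul
      · nlinarith [sq_nonneg p]
      · have c1 : 3 * (1 + δ) * p * θ ≤ 3 * (9 / 8) * p * (δ * p / 4) := by
          apply mul_le_mul
          · nlinarith
          · exact a0
          · exact hθ.le
          · positivity
        nlinarith [mul_pos hd (pow_pos h0 2)]
      · positivity
      · positivity
    have a2 : 31 * p ≤ 32 * (p - θ) := by linarith
    calc s * (4 * δ * p ^ 2 + 3 * (1 + δ) * p * θ) * (p - θ)
        ≤ (p ^ 2 * (9 / 8)) * (5 * δ * p ^ 2) * (p - θ) :=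
          mul_le_mul_of_nonneg_right a1 h1.le
      _ = (45 / 8 * δ * p ^ 3 * (p - θ)) * p := by ring
      _ ≤ (45 / 8 * δ * p ^ 3 * (p - θ)) * (32 / 31 * (p - θ)) := by
          apply mul_le_mul_of_nonneg_left (by linarith) (by positivity)
      _ ≤ 35 / 4 * δ * p ^ 3 * (p - θ) ^ 2 := by
          have : 0 ≤ δ * p ^ 3 * (p - θ) ^ 2 := by positivity
          nlinarith
  have t5 : 35 / 4 * δ * p ^ 3 / (p - θ) ≤ (W - s) * Δ := by
    have : W / 2 * Δ ≤ (W - s) * Δ := mul_le_mul_of_nonneg_right (by linarith) hΔ0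
    have e : 35 / 4 * δ * p ^ 3 / (p - θ) = (35 / 2 * δ * p ^ 3 / (p - θ)) / 2 := by ring
    rw [e]
    linarith
  have : (W - s) * (s * (1 / p ^ 2 - 1 / (p - θ) ^ 2) - Δ) =
      -((W - s) * (s * (1 / (p - θ) ^ 2 - 1 / p ^ 2))) - (W - s) * Δ := by ring
  rw [this]
  linarith

/-- the drift of the potential of a set is not positive -/
theorem drift_set {W c m CN : ℝ} (hW : p ^ 3 * (1 - bar η p) ≤ W * θ)
    (hW' : W * θ ≤ p ^ 3 * (1 + bar η p)) (hm : 0 < m) (hc : 0 ≤ c)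
    (hc' : c ≤ (1 + bar η p) * p * m) (hC : c * (p ^ 2 * (1 - bar η p)) ≤ CN) :
    W * (c * (1 / ((p - θ) * m) - 1 / (p * m)) - (bar η (p - θ) - bar η p)) -
      CN / ((p - θ) * m) ≤ 0 := by
  have h0 := h.p0
  have h1 := h.p'0
  have hd := h.δ0
  have hd1 := h.δ1
  have hθ := h.θ0
  have hb := h.bar_term hW
  set δ := bar η p with hδ
  set Δ := bar η (p - θ) - δ with hΔ
  have e1 : 1 / ((p - θ) * m) - 1 / (p * m) = θ / (p * ((p - θ) * m)) := by
    field_simp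
    ring
  have t1 : W * (c * (1 / ((p - θ) * m) - 1 / (p * m))) ≤
      c * (p ^ 2 * (1 + δ)) / ((p - θ) * m) := by
    rw [e1]
    calc W * (c * (θ / (p * ((p - θ) * m)))) = (W * θ) * (c / (p * ((p - θ) * m))) := by
          ring
      _ ≤ (p ^ 3 * (1 + δ)) * (c / (p * ((p - θ) * m))) := by
          apply mul_le_mul_of_nonneg_right hW'
          positivity
      _ = _ := by
          field_simp
  have t2 : c * (p ^ 2 * (1 - δ)) / ((p - θ) * m) ≤ CN / ((p - θ) * m) :=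
    div_le_div_of_nonneg_right hC (by positivity)
  have t3 : c * (p ^ 2 * (1 + δ)) / ((p - θ) * m) - c * (p ^ 2 * (1 - δ)) / ((p - θ) * m) =
      2 * δ * p ^ 2 * c / ((p - θ) * m) := by
    field_simp
    ring
  have t4 : 2 * δ * p ^ 2 * c / ((p - θ) * m) ≤ 35 / 2 * δ * p ^ 3 / (p - θ) := by
    rw [div_le_div_iff₀ (by positivity) h1]
    calc 2 * δ * p ^ 2 * c * (p - θ) ≤ 2 * δ * p ^ 2 * (2 * p * m) * (p - θ) := by
          apply mul_le_mul_of_nonneg_right _ h1.le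
          apply mul_le_mul_of_nonneg_left _ (by positivity)
          have : 0 < p * m := by positivity
          nlinarith
      _ ≤ 35 / 2 * δ * p ^ 3 * ((p - θ) * m) := by
          have : 0 ≤ δ * p ^ 3 * (p - θ) * m := by positivity
          nlinarith
  have : W * (c * (1 / ((p - θ) * m) - 1 / (p * m)) - Δ) =
      W * (c * (1 / ((p - θ) * m) - 1 / (p * m))) - W * Δ := by ring
  rw [this]
  linarith

/-- size of the deterministic part, points -/
theorem x_pt {s : ℝ} (hs : 0 ≤ s) (hs' : s ≤ p ^ 2 * (1 + bar η p)) :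
    0 ≤ s * (1 / (p - θ) ^ 2 - 1 / p ^ 2) ∧
    s * (1 / (p - θ) ^ 2 - 1 / p ^ 2) ≤ 5 / 2 * θ / γ := by
  have h0 := h.p0
  have h1 := h.p'0
  have hd := h.δ0
  have hd1 := h.δ1
  have hθ := h.θ0
  have hγ := h.γ0
  have hγp := h.γp
  have h31 := h.θp'
  have e1 : 1 / (p - θ) ^ 2 - 1 / p ^ 2 = θ * (2 * p - θ) / (p ^ 2 * (p - θ) ^ 2) := by
    field_simp
    ring
  rw [e1]
  constructor
  · apply mul_nonneg hs
    apply div_nonneg _ (by positivity)
    exact mul_nonneg hθ.le (by linarith)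
  · calc s * (θ * (2 * p - θ) / (p ^ 2 * (p - θ) ^ 2))
        ≤ (p ^ 2 * (9 / 8)) * (θ * (2 * (32 / 31 * (p - θ))) / (p ^ 2 * (p - θ) ^ 2)) := by
          apply mul_le_mul
          · refine hs'.trans (mul_le_mul_of_nonneg_left (by linarith) (by positivity))
          · apply div_le_div_of_nonneg_right _ (by positivity)
            exact mul_le_mul_of_nonneg_left (by linarith) hθ.le
          · apply div_nonneg _ (by positivity)
            exact mul_nonneg hθ.le (by linarith)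
          · positivity
      _ = (72 / 31) * (θ / (p - θ)) := by
          field_simp
          ring
      _ ≤ (5 / 2) * (θ / γ) := by
          apply mul_le_mul (by norm_num) _ (by positivity) (by norm_num)
          exact div_le_div_of_nonneg_left hθ.le hγ hγp
      _ = 5 / 2 * θ / γ := by ring

theorem Δ_nonneg : 0 ≤ bar η (p - θ) - bar η p := by
  have h0 := h.p0
  have h1 := h.p'0
  have hd := h.δ0
  have hθ := h.θ0
  have := bar_inc_ge h.η0 h.θ0 (by linarith : θ < p)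
  have h5 : 0 ≤ 20 * bar η p * θ / (p - θ) := by positivity
  linarith

theorem Δ_le : bar η (p - θ) - bar η p ≤ 5 / 2 * θ / γ :=
  bar_inc_le h.γ0 h.η0 h.ηγ h.θ0 h.γp

theorem abs_up {s : ℝ} (hs : 0 ≤ s) (hs' : s ≤ p ^ 2 * (1 + bar η p)) :
    |s * (1 / (p - θ) ^ 2 - 1 / p ^ 2) - (bar η (p - θ) - bar η p)| ≤ 5 * θ / γ := by
  obtain ⟨a1, a2⟩ := h.x_pt hs hs'
  have a3 := h.Δ_nonneg
  have a4 := h.Δ_le
  have a5 : 5 * θ / γ = 5 / 2 * θ / γ + 5 / 2 * θ / γ := by ring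
  rw [abs_le]
  constructor <;> linarith

theorem abs_down {s : ℝ} (hs : 0 ≤ s) (hs' : s ≤ p ^ 2 * (1 + bar η p)) :
    |s * (1 / p ^ 2 - 1 / (p - θ) ^ 2) - (bar η (p - θ) - bar η p)| ≤ 5 * θ / γ := by
  obtain ⟨a1, a2⟩ := h.x_pt hs hs'
  have a3 := h.Δ_nonneg
  have a4 := h.Δ_le
  have a5 : 5 * θ / γ = 5 / 2 * θ / γ + 5 / 2 * θ / γ := by ring
  have a6 : s * (1 / p ^ 2 - 1 / (p - θ) ^ 2) = -(s * (1 / (p - θ) ^ 2 - 1 / p ^ 2)) := by ring
  rw [a6, abs_le]
  constructor <;> linarith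

theorem abs_set {c m : ℝ} (hm : 0 < m) (hc : 0 ≤ c) (hc' : c ≤ (1 + bar η p) * p * m) :
    |c * (1 / ((p - θ) * m) - 1 / (p * m)) - (bar η (p - θ) - bar η p)| ≤ 5 * θ / γ := by
  have h0 := h.p0
  have h1 := h.p'0
  have hd := h.δ0
  have hd1 := h.δ1
  have hθ := h.θ0
  have hγ := h.γ0
  have hγp := h.γp
  have a3 := h.Δ_nonneg
  have a4 := h.Δ_le
  have e1 : 1 / ((p - θ) * m) - 1 / (p * m) = θ / (p * ((p - θ) * m)) := by
    field_simp
    ring
  have b1 : 0 ≤ c * (θ / (p * ((p - θ) * m))) := by positivity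
  have b2 : c * (θ / (p * ((p - θ) * m))) ≤ 5 / 2 * θ / γ := by
    calc c * (θ / (p * ((p - θ) * m))) ≤ (9 / 8 * (p * m)) * (θ / (p * ((p - θ) * m))) := by
          apply mul_le_mul_of_nonneg_right _ (by positivity)
          refine hc'.trans ?_
          have : 0 < p * m := by positivity
          nlinarith
      _ = (9 / 8) * (θ / (p - θ)) := by
          field_simp
      _ ≤ (5 / 2) * (θ / γ) := by
          apply mul_le_mul (by norm_num) _ (by positivity) (by norm_num)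
          exact div_le_div_of_nonneg_left hθ.le hγ hγp
      _ = 5 / 2 * θ / γ := by ring
  have a5 : 5 * θ / γ = 5 / 2 * θ / γ + 5 / 2 * θ / γ := by ring
  rw [e1, abs_le]
  constructor <;> linarith

/-- size of an increment, points -/
theorem abs_pt {x d : ℝ} (hx : |x| ≤ 5 * θ / γ) (hd : 0 ≤ d) (hd' : d ≤ 3 * τ) :
    |x - d / (p - θ) ^ 2| ≤ 5 * (θ + τ) / γ ^ 2 ∧ |x + d / (p - θ) ^ 2| ≤ 5 * (θ + τ) / γ ^ 2 := by
  have hγ := h.γ0
  have hγ1 := h.γ1
  have hγp := h.γp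
  have hθ := h.θ0
  have h1 := h.p'0
  have hτ := h.τ0
  have b1 : 0 ≤ d / (p - θ) ^ 2 := by positivity
  have b2 : d / (p - θ) ^ 2 ≤ 3 * τ / γ ^ 2 := by
    apply div_le_div₀ (by positivity) hd' (by positivity)
    exact pow_le_pow_left₀ hγ.le hγp 2
  have b3 : 5 * θ / γ ≤ 5 * θ / γ ^ 2 := by
    apply div_le_div_of_nonneg_left (by positivity) (by positivity)
    nlinarith
  have b4 : 5 * (θ + τ) / γ ^ 2 = 5 * θ / γ ^ 2 + 3 * τ / γ ^ 2 + 2 * τ / γ ^ 2 := by ring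
  have b5 : 0 ≤ 2 * τ / γ ^ 2 := by positivity
  have hx1 := (abs_le.1 hx).1
  have hx2 := (abs_le.1 hx).2
  constructor <;> rw [abs_le] <;> constructor <;> linarith

/-- size of an increment, sets -/
theorem abs_st {x k m : ℝ} (hx : |x| ≤ 5 * θ / γ) (hm : 0 < m) (hmτ : 1 ≤ τ * m) (hk : 0 ≤ k)
    (hk' : k ≤ 3) : |x - k / ((p - θ) * m)| ≤ 5 * (θ + τ) / γ ^ 2 := by
  have hγ := h.γ0
  have hγ1 := h.γ1
  have hγp := h.γp
  have hθ := h.θ0
  have h1 := h.p'0
  have hτ := h.τ0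
  have b1 : 0 ≤ k / ((p - θ) * m) := by positivity
  have b2 : k / ((p - θ) * m) ≤ 3 * τ / γ ^ 2 := by
    rw [div_le_div_iff₀ (by positivity) (by positivity)]
    have c1 : γ ^ 2 ≤ p - θ := by nlinarith
    calc k * γ ^ 2 ≤ 3 * (p - θ) := mul_le_mul hk' c1 (by positivity) (by norm_num)
      _ = 3 * 1 * (p - θ) := by ring
      _ ≤ 3 * (τ * m) * (p - θ) := by
          apply mul_le_mul_of_nonneg_right _ h1.le
          linarith
      _ = 3 * τ * ((p - θ) * m) := by ring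
  have b3 : 5 * θ / γ ≤ 5 * θ / γ ^ 2 := by
    apply div_le_div_of_nonneg_left (by positivity) (by positivity)
    nlinarith
  have b4 : 5 * (θ + τ) / γ ^ 2 = 5 * θ / γ ^ 2 + 3 * τ / γ ^ 2 + 2 * τ / γ ^ 2 := by ring
  have b5 : 0 ≤ 2 * τ / γ ^ 2 := by positivity
  have hx1 := (abs_le.1 hx).1
  have hx2 := (abs_le.1 hx).2
  rw [abs_le]
  constructor <;> linarith

/-- second moment, points -/
theorem sq_pt {W s x SQ DEC : ℝ} (hW : p ^ 3 * (1 - bar η p) ≤ W * θ) (hx : |x| ≤ 5 * θ / γ)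
    (hs : 0 ≤ s) (hs' : s ≤ p ^ 2 * (1 + bar η p))
    (hD : DEC ≤ 2 * (p ^ 2 * (1 + bar η p)) * s) (hSQ : SQ ≤ 3 * τ * DEC) :
    2 * x ^ 2 * W + 2 * SQ / (p - θ) ^ 4 ≤ 80 * θ * (θ + τ) / γ ^ 4 * W := by
  have h0 := h.p0
  have h1 := h.p'0
  have hd := h.δ0
  have hd1 := h.δ1
  have hθ := h.θ0
  have hγ := h.γ0
  have hγ1 := h.γ1
  have hγp := h.γp
  have hτ := h.τ0
  have hp1 := h.p1
  have h2s := h.s_le hW hs'
  have hW0 : 0 ≤ W := by linarith
  have c1 : s ≤ p ^ 2 * (9 / 8) :=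
    hs'.trans (mul_le_mul_of_nonneg_left (by linarith) (by positivity))
  have c2 : DEC ≤ 2 * (p ^ 2 * (9 / 8)) * (p ^ 2 * (9 / 8)) := by
    refine hD.trans (mul_le_mul ?_ c1 hs (by positivity))
    have : p ^ 2 * (1 + bar η p) ≤ p ^ 2 * (9 / 8) :=
      mul_le_mul_of_nonneg_left (by linarith) (by positivity)
    linarith
  have c3 : p ^ 3 * (7 / 8) ≤ W * θ :=
    le_trans (mul_le_mul_of_nonneg_left (by linarith) (by positivity)) hW
  have c4 : p ^ 4 ≤ 8 / 7 * (W * θ) := by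
    have : p ^ 4 = p * p ^ 3 := by ring
    have : p * p ^ 3 ≤ 1 * p ^ 3 := mul_le_mul_of_nonneg_right hp1 (by positivity)
    linarith
  have c5 : SQ ≤ 9 * τ * (W * θ) := by
    calc SQ ≤ 3 * τ * DEC := hSQ
      _ ≤ 3 * τ * (2 * (p ^ 2 * (9 / 8)) * (p ^ 2 * (9 / 8))) :=
          mul_le_mul_of_nonneg_left c2 (by positivity)
      _ = 3 * τ * (81 / 32) * p ^ 4 := by ring
      _ ≤ 3 * τ * (81 / 32) * (8 / 7 * (W * θ)) :=
          mul_le_mul_of_nonneg_left c4 (by positivity)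
      _ ≤ 9 * τ * (W * θ) := by
          have : 0 ≤ τ * (W * θ) := by positivity
          nlinarith
  have c6 : 2 * SQ / (p - θ) ^ 4 ≤ 18 * τ * (W * θ) / γ ^ 4 := by
    apply div_le_div₀ (by positivity) (by linarith) (by positivity)
    exact pow_le_pow_left₀ hγ.le hγp 4
  have c7 : x ^ 2 ≤ 25 * θ ^ 2 / γ ^ 4 := by
    have : x ^ 2 ≤ (5 * θ / γ) ^ 2 := by
      rw [← sq_abs]
      exact pow_le_pow_left₀ (abs_nonneg _) hx 2
    refine this.trans ?_
    rw [div_pow]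
    have e : (5 * θ) ^ 2 = 25 * θ ^ 2 := by ring
    rw [e]
    apply div_le_div_of_nonneg_left (by positivity) (by positivity)
    exact pow_le_pow_of_le_one hγ.le hγ1 (by norm_num)
  have c8 : 2 * x ^ 2 * W ≤ 50 * θ ^ 2 / γ ^ 4 * W := by
    apply mul_le_mul_of_nonneg_right _ hW0
    have : 50 * θ ^ 2 / γ ^ 4 = 2 * (25 * θ ^ 2 / γ ^ 4) := by ring
    linarith
  have c9 : 80 * θ * (θ + τ) / γ ^ 4 * W = 50 * θ ^ 2 / γ ^ 4 * W + 18 * τ * (W * θ) / γ ^ 4 +
      (30 * θ ^ 2 / γ ^ 4 * W + 62 * τ * (W * θ) / γ ^ 4) := by ring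
  have c10 : 0 ≤ 30 * θ ^ 2 / γ ^ 4 * W + 62 * τ * (W * θ) / γ ^ 4 := by positivity
  linarith

/-- second moment, sets -/
theorem sq_st {W x c m SQ CN : ℝ} (hW : p ^ 3 * (1 - bar η p) ≤ W * θ) (hx : |x| ≤ 5 * θ / γ)
    (hW0 : 0 ≤ W) (hm : 0 < m) (hmτ : 1 ≤ τ * m) (hc : 0 ≤ c)
    (hc' : c ≤ (1 + bar η p) * p * m)
    (hC : CN ≤ c * (p ^ 2 * (1 + bar η p))) (hSQ : SQ ≤ 3 * CN) :
    2 * x ^ 2 * W + 2 * SQ / ((p - θ) * m) ^ 2 ≤ 80 * θ * (θ + τ) / γ ^ 4 * W := by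
  have h0 := h.p0
  have h1 := h.p'0
  have hd := h.δ0
  have hd1 := h.δ1
  have hθ := h.θ0
  have hγ := h.γ0
  have hγ1 := h.γ1
  have hγp := h.γp
  have hτ := h.τ0
  have hp1 := h.p1
  have c1 : c ≤ 9 / 8 * (p * m) := by
    refine hc'.trans ?_
    have : 0 < p * m := by positivity
    nlinarith
  have c2 : CN ≤ (9 / 8 * (p * m)) * (p ^ 2 * (9 / 8)) := by
    refine hC.trans (mul_le_mul c1 ?_ (by positivity) (by positivity))
    exact mul_le_mul_of_nonneg_left (by linarith) (by positivity)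
  have c3 : p ^ 3 * (7 / 8) ≤ W * θ :=
    le_trans (mul_le_mul_of_nonneg_left (by linarith) (by positivity)) hW
  have c5 : SQ ≤ 9 / 2 * (W * θ) * m := by
    calc SQ ≤ 3 * CN := hSQ
      _ ≤ 3 * ((9 / 8 * (p * m)) * (p ^ 2 * (9 / 8))) := by linarith
      _ = (243 / 64 * (8 / 7)) * (p ^ 3 * (7 / 8)) * m := by ring
      _ ≤ (243 / 64 * (8 / 7)) * (W * θ) * m := by
          apply mul_le_mul_of_nonneg_right _ hm.le
          exact mul_le_mul_of_nonneg_left c3 (by norm_num)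
      _ ≤ 9 / 2 * (W * θ) * m := by
          have : 0 ≤ (W * θ) * m := by positivity
          nlinarith
  have c6 : 2 * SQ / ((p - θ) * m) ^ 2 ≤ 18 * τ * (W * θ) / γ ^ 4 := by
    rw [div_le_div_iff₀ (by positivity) (by positivity)]
    have d1 : γ ^ 4 ≤ (p - θ) ^ 2 := by
      calc γ ^ 4 ≤ γ ^ 2 := pow_le_pow_of_le_one hγ.le hγ1 (by norm_num)
        _ ≤ (p - θ) ^ 2 := pow_le_pow_left₀ hγ.le hγp 2
    calc 2 * SQ * γ ^ 4 ≤ (9 * (W * θ) * m) * (p - θ) ^ 2 := by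
          apply mul_le_mul (by linarith) d1 (by positivity) (by positivity)
      _ = 9 * (W * θ) * m * 1 * (p - θ) ^ 2 := by ring
      _ ≤ 9 * (W * θ) * m * (τ * m) * (p - θ) ^ 2 := by
          apply mul_le_mul_of_nonneg_right _ (by positivity)
          exact mul_le_mul_of_nonneg_left hmτ (by positivity)
      _ = 9 * τ * (W * θ) * ((p - θ) * m) ^ 2 := by ring
      _ ≤ 18 * τ * (W * θ) * ((p - θ) * m) ^ 2 := by
          apply mul_le_mul_of_nonneg_right _ (by positivity)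
          have : 0 ≤ τ * (W * θ) := by positivity
          linarith
  have c7 : x ^ 2 ≤ 25 * θ ^ 2 / γ ^ 4 := by
    have : x ^ 2 ≤ (5 * θ / γ) ^ 2 := by
      rw [← sq_abs]
      exact pow_le_pow_left₀ (abs_nonneg _) hx 2
    refine this.trans ?_
    rw [div_pow]
    have e : (5 * θ) ^ 2 = 25 * θ ^ 2 := by ring
    rw [e]
    apply div_le_div_of_nonneg_left (by positivity) (by positivity)
    exact pow_le_pow_of_le_one hγ.le hγ1 (by norm_num)
  have c8 : 2 * x ^ 2 * W ≤ 50 * θ ^ 2 / γ ^ 4 * W := by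
    apply mul_le_mul_of_nonneg_right _ hW0
    have : 50 * θ ^ 2 / γ ^ 4 = 2 * (25 * θ ^ 2 / γ ^ 4) := by ring
    linarith
  have c9 : 80 * θ * (θ + τ) / γ ^ 4 * W = 50 * θ ^ 2 / γ ^ 4 * W + 18 * τ * (W * θ) / γ ^ 4 +
      (30 * θ ^ 2 / γ ^ 4 * W + 62 * τ * (W * θ) / γ ^ 4) := by ring
  have c10 : 0 ≤ 30 * θ ^ 2 / γ ^ 4 * W + 62 * τ * (W * θ) / γ ^ 4 := by positivity
  linarith

end StepOK

/-! ## The forms with an abstract barrier increment `Δ` -/

section Abstract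

variable {g p q δ τ Δ M W : ℝ}

theorem absW1 (hqp : q < p) (hM : M * (p - q) = 3) (hW1 : p * M * (p ^ 2 * (1 - δ)) ≤ 3 * W) :
    p ^ 3 * (1 - δ) ≤ W * (p - q) := by
  have h1 : p * M * (p ^ 2 * (1 - δ)) * (p - q) ≤ 3 * W * (p - q) :=
    mul_le_mul_of_nonneg_right hW1 (by linarith)
  have h2 : p * M * (p ^ 2 * (1 - δ)) * (p - q) = p ^ 3 * (1 - δ) * (M * (p - q)) := by ring
  rw [h2, hM] at h1
  linarith

theorem absW2 (hqp : q < p) (hM : M * (p - q) = 3) (hW2 : 3 * W ≤ p * M * (p ^ 2 * (1 + δ))) :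
    W * (p - q) ≤ p ^ 3 * (1 + δ) := by
  have h1 : 3 * W * (p - q) ≤ p * M * (p ^ 2 * (1 + δ)) * (p - q) :=
    mul_le_mul_of_nonneg_right hW2 (by linarith)
  have h2 : p * M * (p ^ 2 * (1 + δ)) * (p - q) = p ^ 3 * (1 + δ) * (M * (p - q)) := by ring
  rw [h2, hM] at h1
  linarith

theorem absWΔ (hp : 0 < p) (hqp : q < p) (hδ0 : 0 < δ) (hδ : δ ≤ 1 / 8)
    (hΔ : 20 * (p - q) * δ / p ≤ Δ) (hW : p ^ 3 * (1 - δ) ≤ W * (p - q)) (hW0 : 0 ≤ W) :
    35 / 2 * δ * p ^ 2 ≤ W * Δ := by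
  calc 35 / 2 * δ * p ^ 2 = (p ^ 3 * (7 / 8)) * (20 * δ / p) := by
        field_simp
        ring
    _ ≤ (W * (p - q)) * (20 * δ / p) := by
        refine mul_le_mul_of_nonneg_right ?_ (by positivity)
        refine le_trans ?_ hW
        exact mul_le_mul_of_nonneg_left (by linarith) (by positivity)
    _ = W * (20 * (p - q) * δ / p) := by ring
    _ ≤ _ := mul_le_mul_of_nonneg_left hΔ hW0

theorem absW0 (hp : 0 < p) (hqp : q < p) (hδ : δ ≤ 1 / 8)
    (hW : p ^ 3 * (1 - δ) ≤ W * (p - q)) : 0 ≤ W := by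
  have : 0 < p ^ 3 * (1 - δ) := mul_pos (by positivity) (by linarith)
  by_contra hc
  push Not at hc
  nlinarith

theorem absS {s : ℝ} (hp : 0 < p) (hqp : q < p) (hδ0 : 0 < δ) (hδ : δ ≤ 1 / 8)
    (hθ : p - q ≤ δ * p / 10) (hW : p ^ 3 * (1 - δ) ≤ W * (p - q))
    (hs' : s ≤ p ^ 2 * (1 + δ)) : 2 * s ≤ W := by
  have hθ' : p - q ≤ p / 80 := by nlinarith
  have h4 : 2 * s * (p - q) ≤ W * (p - q) := by
    calc 2 * s * (p - q) ≤ 2 * (p ^ 2 * (1 + δ)) * (p / 80) := by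
          apply mul_le_mul
          · linarith
          · exact hθ'
          · linarith
          · positivity
      _ ≤ p ^ 3 * (1 - δ) := by
          have : 0 < p ^ 3 := by positivity
          nlinarith
      _ ≤ W * (p - q) := hW
  exact le_of_mul_le_mul_right h4 (by linarith)

/-- (D1) -/
theorem real_D1 {s DEC : ℝ} (hg : 0 < g) (hgq : g ≤ q) (hqp : q < p) (hδ0 : 0 < δ)
    (hδ : δ ≤ 1 / 8) (hτ0 : 0 ≤ τ) (hτ : τ ≤ δ * p ^ 2 / 2) (hθ : p - q ≤ δ * p / 10)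
    (hM : M * (p - q) = 3) (hΔ : 20 * (p - q) * δ / p ≤ Δ)
    (hW1 : p * M * (p ^ 2 * (1 - δ)) ≤ 3 * W) (hW2 : 3 * W ≤ p * M * (p ^ 2 * (1 + δ)))
    (hs : 0 ≤ s) (hs' : s ≤ p ^ 2 * (1 + δ))
    (hD : 2 * (p ^ 2 * (1 - δ) - τ) * s ≤ DEC) :
    (W - s) * (s * (1 / q ^ 2 - 1 / p ^ 2) - Δ) - DEC / q ^ 2 ≤ 0 := by
  have h1 : 0 < q := hg.trans_le hgq
  have h0 : 0 < p := h1.trans hqp
  have hW := absW1 hqp hM hW1
  have hW' := absW2 hqp hM hW2
  have hW0 := absW0 h0 hqp hδ hW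
  have hb := absWΔ h0 hqp hδ0 hδ hΔ hW hW0
  have h2s := absS h0 hqp hδ0 hδ hθ hW hs'
  have hΔ0 : 0 ≤ Δ := le_trans (div_nonneg (mul_nonneg (by linarith) hδ0.le) h0.le) hΔ
  have e1 : 1 / q ^ 2 - 1 / p ^ 2 = (p - q) * (p + q) / (p ^ 2 * q ^ 2) := by
    field_simp
    ring
  have t1 : (W - s) * (s * (1 / q ^ 2 - 1 / p ^ 2)) ≤ 2 * (p ^ 2 * (1 + δ)) * s / q ^ 2 := by
    rw [e1]
    calc (W - s) * (s * ((p - q) * (p + q) / (p ^ 2 * q ^ 2)))
        ≤ W * (s * ((p - q) * (2 * p) / (p ^ 2 * q ^ 2))) := by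
          apply mul_le_mul
          · linarith
          · apply mul_le_mul_of_nonneg_left _ hs
            apply div_le_div_of_nonneg_right _ (by positivity)
            exact mul_le_mul_of_nonneg_left (by linarith) (by linarith)
          · apply mul_nonneg hs
            apply div_nonneg _ (by positivity)
            exact mul_nonneg (by linarith) (by linarith)
          · exact hW0
      _ = (W * (p - q)) * (2 * s / (p * q ^ 2)) := by
          field_simp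
      _ ≤ (p ^ 3 * (1 + δ)) * (2 * s / (p * q ^ 2)) := by
          apply mul_le_mul_of_nonneg_right hW'
          positivity
      _ = _ := by
          field_simp
  have t2 : 2 * (p ^ 2 * (1 - δ) - τ) * s / q ^ 2 ≤ DEC / q ^ 2 :=
    div_le_div_of_nonneg_right hD (by positivity)
  have t3 : 2 * (p ^ 2 * (1 + δ)) * s / q ^ 2 - 2 * (p ^ 2 * (1 - δ) - τ) * s / q ^ 2
      = 2 * s * (2 * δ * p ^ 2 + τ) / q ^ 2 := by
    field_simp
    ring
  have t4 : 2 * s * (2 * δ * p ^ 2 + τ) / q ^ 2 ≤ 35 / 4 * δ * p ^ 2 := by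
    rw [div_le_iff₀ (by positivity)]
    have a1 : 2 * s * (2 * δ * p ^ 2 + τ) ≤ 2 * (p ^ 2 * (9 / 8)) * (5 / 2 * δ * p ^ 2) := by
      apply mul_le_mul
      · nlinarith [sq_nonneg p]
      · linarith
      · positivity
      · positivity
    have a2 : 79 * p ≤ 80 * q := by nlinarith
    have a3 : p ^ 2 ≤ (80 / 79 * q) ^ 2 := pow_le_pow_left₀ h0.le (by linarith) 2
    calc 2 * s * (2 * δ * p ^ 2 + τ) ≤ 2 * (p ^ 2 * (9 / 8)) * (5 / 2 * δ * p ^ 2) := a1
      _ = (45 / 8 * δ * p ^ 2) * p ^ 2 := by ring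
      _ ≤ (45 / 8 * δ * p ^ 2) * (80 / 79 * q) ^ 2 :=
          mul_le_mul_of_nonneg_left a3 (by positivity)
      _ ≤ 35 / 4 * δ * p ^ 2 * q ^ 2 := by
          have : 0 ≤ δ * p ^ 2 * q ^ 2 := by positivity
          nlinarith
  have t5 : 35 / 4 * δ * p ^ 2 ≤ (W - s) * Δ := by
    have : W / 2 * Δ ≤ (W - s) * Δ := mul_le_mul_of_nonneg_right (by linarith) hΔ0
    linarith
  have : (W - s) * (s * (1 / q ^ 2 - 1 / p ^ 2) - Δ) =
      (W - s) * (s * (1 / q ^ 2 - 1 / p ^ 2)) - (W - s) * Δ := by ring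
  rw [this]
  linarith

/-- (D2) -/
theorem real_D2 {s DEC : ℝ} (hg : 0 < g) (hgq : g ≤ q) (hqp : q < p) (hδ0 : 0 < δ)
    (hδ : δ ≤ 1 / 8) (hθ : p - q ≤ δ * p / 10)
    (hM : M * (p - q) = 3) (hΔ : 20 * (p - q) * δ / p ≤ Δ)
    (hW1 : p * M * (p ^ 2 * (1 - δ)) ≤ 3 * W)
    (hs : 0 ≤ s) (hs' : s ≤ p ^ 2 * (1 + δ))
    (hD : DEC ≤ 2 * (p ^ 2 * (1 + δ)) * s) :
    (W - s) * (-(s * (1 / q ^ 2 - 1 / p ^ 2)) - Δ) + DEC / q ^ 2 ≤ 0 := by
  have h1 : 0 < q := hg.trans_le hgq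
  have h0 : 0 < p := h1.trans hqp
  have hW := absW1 hqp hM hW1
  have hW0 := absW0 h0 hqp hδ hW
  have hb := absWΔ h0 hqp hδ0 hδ hΔ hW hW0
  have h2s := absS h0 hqp hδ0 hδ hθ hW hs'
  have hΔ0 : 0 ≤ Δ := le_trans (div_nonneg (mul_nonneg (by linarith) hδ0.le) h0.le) hΔ
  have e1 : 1 / q ^ 2 - 1 / p ^ 2 = (p - q) * (p + q) / (p ^ 2 * q ^ 2) := by
    field_simp
    ring
  have t1 : (2 * (p ^ 2 * (1 - δ)) * s - s * (p ^ 2 * (1 + δ)) * (3 * (p - q) / p)) / q ^ 2 ≤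
      (W - s) * (s * (1 / q ^ 2 - 1 / p ^ 2)) := by
    rw [e1]
    have a1 : (W - s) * (s * ((p - q) * (p + q) / (p ^ 2 * q ^ 2))) =
        (((W * (p - q)) * (p + q) * s - s * s * (p - q) * (p + q)) / p ^ 2) / q ^ 2 := by
      field_simp
    rw [a1]
    apply div_le_div_of_nonneg_right _ (by positivity)
    rw [le_div_iff₀ (by positivity)]
    have b1 : p ^ 3 * (1 - δ) * (p + q) * s ≤ (W * (p - q)) * (p + q) * s := by
      apply mul_le_mul_of_nonneg_right _ hs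
      exact mul_le_mul_of_nonneg_right hW (by linarith)
    have b2 : s * s * (p - q) * (p + q) ≤ s * (p ^ 2 * (1 + δ)) * (p - q) * (2 * p) := by
      have c1 : s * s ≤ s * (p ^ 2 * (1 + δ)) := mul_le_mul_of_nonneg_left hs' hs
      have c2 : s * s * (p - q) ≤ s * (p ^ 2 * (1 + δ)) * (p - q) :=
        mul_le_mul_of_nonneg_right c1 (by linarith)
      exact mul_le_mul c2 (by linarith) (by linarith)
        (mul_nonneg (by positivity) (by linarith))
    have b3 : s * (p ^ 2 * (1 + δ)) * (3 * (p - q) / p) * p ^ 2 =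
        3 * (s * (p ^ 3 * (1 + δ)) * (p - q)) := by
      field_simp
    have b4 : p ^ 3 * (1 - δ) * (p - q) * s ≤ s * (p ^ 3 * (1 + δ)) * (p - q) := by
      have : 0 ≤ p ^ 3 * (p - q) * s := mul_nonneg (mul_nonneg (by positivity) (by linarith)) hs
      nlinarith
    have b5 : s * (p ^ 2 * (1 + δ)) * (p - q) * (2 * p) =
        2 * (s * (p ^ 3 * (1 + δ)) * (p - q)) := by ring
    have b6 : (2 * (p ^ 2 * (1 - δ)) * s) * p ^ 2 - p ^ 3 * (1 - δ) * (p + q) * s =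
        p ^ 3 * (1 - δ) * (p - q) * s := by ring
    rw [sub_mul, b3]
    linarith
  have t2 : DEC / q ^ 2 ≤ 2 * (p ^ 2 * (1 + δ)) * s / q ^ 2 :=
    div_le_div_of_nonneg_right hD (by positivity)
  have t3 : 2 * (p ^ 2 * (1 + δ)) * s / q ^ 2 -
      (2 * (p ^ 2 * (1 - δ)) * s - s * (p ^ 2 * (1 + δ)) * (3 * (p - q) / p)) / q ^ 2
      = s * (4 * δ * p ^ 2 + 3 * (1 + δ) * p * (p - q)) / q ^ 2 := by
    field_simp
    ring
  have t4 : s * (4 * δ * p ^ 2 + 3 * (1 + δ) * p * (p - q)) / q ^ 2 ≤ 35 / 4 * δ * p ^ 2 := by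
    rw [div_le_iff₀ (by positivity)]
    have a1 : s * (4 * δ * p ^ 2 + 3 * (1 + δ) * p * (p - q)) ≤
        (p ^ 2 * (9 / 8)) * (9 / 2 * δ * p ^ 2) := by
      apply mul_le_mul
      · nlinarith [sq_nonneg p]
      · have c1 : 3 * (1 + δ) * p * (p - q) ≤ 3 * (9 / 8) * p * (δ * p / 10) := by
          apply mul_le_mul
          · nlinarith
          · exact hθ
          · linarith
          · positivity
        nlinarith [mul_pos hδ0 (pow_pos h0 2)]
      · have : 0 ≤ 3 * (1 + δ) * p * (p - q) := mul_nonneg (by positivity) (by linarith)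
        have : 0 ≤ 4 * δ * p ^ 2 := by positivity
        linarith
      · positivity
    have a2 : 79 * p ≤ 80 * q := by nlinarith
    have a3 : p ^ 2 ≤ (80 / 79 * q) ^ 2 := pow_le_pow_left₀ h0.le (by linarith) 2
    calc s * (4 * δ * p ^ 2 + 3 * (1 + δ) * p * (p - q))
        ≤ (p ^ 2 * (9 / 8)) * (9 / 2 * δ * p ^ 2) := a1
      _ = (81 / 16 * δ * p ^ 2) * p ^ 2 := by ring
      _ ≤ (81 / 16 * δ * p ^ 2) * (80 / 79 * q) ^ 2 :=
          mul_le_mul_of_nonneg_left a3 (by positivity)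
      _ ≤ 35 / 4 * δ * p ^ 2 * q ^ 2 := by
          have : 0 ≤ δ * p ^ 2 * q ^ 2 := by positivity
          nlinarith
  have t5 : 35 / 4 * δ * p ^ 2 ≤ (W - s) * Δ := by
    have : W / 2 * Δ ≤ (W - s) * Δ := mul_le_mul_of_nonneg_right (by linarith) hΔ0
    linarith
  have : (W - s) * (-(s * (1 / q ^ 2 - 1 / p ^ 2)) - Δ) =
      -((W - s) * (s * (1 / q ^ 2 - 1 / p ^ 2))) - (W - s) * Δ := by ring
  rw [this]
  linarith

/-- (D3) -/
theorem real_D3 {x m Y : ℝ} (hg : 0 < g) (hgq : g ≤ q) (hqp : q < p) (hδ0 : 0 < δ)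
    (hδ : δ ≤ 1 / 8) (hθ : p - q ≤ δ * p / 10)
    (hM : M * (p - q) = 3) (hΔ : 20 * (p - q) * δ / p ≤ Δ)
    (hW1 : p * M * (p ^ 2 * (1 - δ)) ≤ 3 * W) (hW2 : 3 * W ≤ p * M * (p ^ 2 * (1 + δ)))
    (hm : 0 < m) (hx : 0 ≤ x) (hx' : x ≤ p * m * (1 + δ))
    (hY : x * (p ^ 2 * (1 - δ)) ≤ Y) :
    W * ((x / q - x / p) / m - Δ) - Y / (q * m) ≤ 0 := by
  have h1 : 0 < q := hg.trans_le hgq
  have h0 : 0 < p := h1.trans hqp
  have hW := absW1 hqp hM hW1
  have hW' := absW2 hqp hM hW2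
  have hW0 := absW0 h0 hqp hδ hW
  have hb := absWΔ h0 hqp hδ0 hδ hΔ hW hW0
  have e1 : (x / q - x / p) / m = x * (p - q) / (p * (q * m)) := by
    field_simp
  have t1 : W * ((x / q - x / p) / m) ≤ x * (p ^ 2 * (1 + δ)) / (q * m) := by
    rw [e1]
    calc W * (x * (p - q) / (p * (q * m))) = (W * (p - q)) * (x / (p * (q * m))) := by
          ring
      _ ≤ (p ^ 3 * (1 + δ)) * (x / (p * (q * m))) := by
          apply mul_le_mul_of_nonneg_right hW'
          positivity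
      _ = _ := by
          field_simp
  have t2 : x * (p ^ 2 * (1 - δ)) / (q * m) ≤ Y / (q * m) :=
    div_le_div_of_nonneg_right hY (by positivity)
  have t3 : x * (p ^ 2 * (1 + δ)) / (q * m) - x * (p ^ 2 * (1 - δ)) / (q * m) =
      2 * δ * p ^ 2 * x / (q * m) := by
    field_simp
    ring
  have a2 : 79 * p ≤ 80 * q := by nlinarith
  have t4 : 2 * δ * p ^ 2 * x / (q * m) ≤ 35 / 2 * δ * p ^ 2 := by
    rw [div_le_iff₀ (by positivity)]
    calc 2 * δ * p ^ 2 * x ≤ 2 * δ * p ^ 2 * (2 * (80 / 79 * q) * m) := by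
          apply mul_le_mul_of_nonneg_left _ (by positivity)
          refine hx'.trans ?_
          have c1 : p * m * (1 + δ) ≤ p * m * 2 :=
            mul_le_mul_of_nonneg_left (by linarith) (by positivity)
          have c2 : p * m ≤ 80 / 79 * q * m := mul_le_mul_of_nonneg_right (by linarith) hm.le
          linarith
      _ ≤ 35 / 2 * δ * p ^ 2 * (q * m) := by
          have : 0 ≤ δ * p ^ 2 * q * m := by positivity
          nlinarith
  have : W * ((x / q - x / p) / m - Δ) = W * ((x / q - x / p) / m) - W * Δ := by ring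
  rw [this]
  linarith

end Abstract

end NW
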