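import Mathlib

/-!
# Project NW, N2A: real inequalities for the one-triangle-at-a-time nibble, part 2
(sizes of the increments, second moments, barrier)
-/

namespace NW

/-- `0 ≤ s (1/q² - 1/p²)` and it is at most `(9/4)(p-q)/g²`. -/
theorem gr_main {g p q δ s : ℝ} (hg : 0 < g) (hgq : g ≤ q) (hqp : q < p) (hp1 : p ≤ 1)
    (hδ : δ ≤ 1 / 8) (hs0 : 0 ≤ s) (hs2 : s ≤ p ^ 2 * (1 + δ)) :
    0 ≤ s * (1 / q ^ 2 - 1 / p ^ 2) ∧
      s * (1 / q ^ 2 - 1 / p ^ 2) ≤ 9 / 4 * (p - q) / g ^ 2 := by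
  have hq : 0 < q := lt_of_lt_of_le hg hgq
  have hp : 0 < p := hq.trans hqp
  have h1 : 1 / q ^ 2 - 1 / p ^ 2 = (p - q) * (p + q) / (p ^ 2 * q ^ 2) := by
    field_simp
    ring
  have h0 : 0 ≤ 1 / q ^ 2 - 1 / p ^ 2 := by
    rw [h1]
    have : 0 ≤ p - q := by linarith
    positivity
  refine ⟨mul_nonneg hs0 h0, ?_⟩
  have h2 : s * (1 / q ^ 2 - 1 / p ^ 2) ≤ (p ^ 2 * (9 / 8)) * (1 / q ^ 2 - 1 / p ^ 2) := by
    refine mul_le_mul_of_nonneg_right (hs2.trans ?_) h0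
    nlinarith [sq_nonneg p]
  refine h2.trans ?_
  have h3 : (p ^ 2 * (9 / 8)) * (1 / q ^ 2 - 1 / p ^ 2) = 9 / 8 * ((p - q) * (p + q)) / q ^ 2 := by
    rw [h1]
    field_simp
  rw [h3]
  have h4 : 9 / 8 * ((p - q) * (p + q)) ≤ 9 / 4 * (p - q) := by nlinarith
  have h5 : 0 ≤ 9 / 4 * (p - q) := by nlinarith
  have h6 : g ^ 2 ≤ q ^ 2 := by nlinarith
  calc 9 / 8 * ((p - q) * (p + q)) / q ^ 2 ≤ 9 / 4 * (p - q) / q ^ 2 := by
        gcongr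
    _ ≤ 9 / 4 * (p - q) / g ^ 2 := by
        gcongr

theorem gr_Delta {g p q Δ : ℝ} (hg : 0 < g) (hgq : g ≤ q) (hqp : q < p) (hp1 : p ≤ 1)
    (hΔ : Δ ≤ 3 * (p - q) / g) : Δ ≤ 3 * (p - q) / g ^ 2 := by
  refine hΔ.trans ?_
  have hg1 : g ≤ 1 := by linarith
  have h1 : g ^ 2 ≤ g := by nlinarith
  have h2 : 0 ≤ 3 * (p - q) := by linarith
  gcongr

/-- (A1) -/
theorem gr_A1 {g p q δ s Δ : ℝ} (hg : 0 < g) (hgq : g ≤ q) (hqp : q < p) (hp1 : p ≤ 1)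
    (hδ : δ ≤ 1 / 8) (hs0 : 0 ≤ s) (hs2 : s ≤ p ^ 2 * (1 + δ))
    (hΔ0 : 0 ≤ Δ) (hΔ : Δ ≤ 3 * (p - q) / g) :
    |s * (1 / q ^ 2 - 1 / p ^ 2) - Δ| ≤ 6 * (p - q) / g ^ 2 := by
  obtain ⟨h1, h2⟩ := gr_main hg hgq hqp hp1 hδ hs0 hs2
  have h3 := gr_Delta hg hgq hqp hp1 hΔ
  have h4 : 0 ≤ (p - q) / g ^ 2 := by
    have : 0 ≤ p - q := by linarith
    positivity
  have e1 : 9 / 4 * (p - q) / g ^ 2 = 9 / 4 * ((p - q) / g ^ 2) := by ring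
  have e2 : 3 * (p - q) / g ^ 2 = 3 * ((p - q) / g ^ 2) := by ring
  have e3 : 6 * (p - q) / g ^ 2 = 6 * ((p - q) / g ^ 2) := by ring
  rw [e1] at h2; rw [e2] at h3; rw [e3]
  rw [abs_le]
  constructor <;> nlinarith

/-- (B1) -/
theorem gr_B1 {g p q δ s Δ τ dec : ℝ} (hg : 0 < g) (hgq : g ≤ q) (hqp : q < p) (hp1 : p ≤ 1)
    (hδ : δ ≤ 1 / 8) (hs0 : 0 ≤ s) (hs2 : s ≤ p ^ 2 * (1 + δ))
    (hΔ0 : 0 ≤ Δ) (hΔ : Δ ≤ 3 * (p - q) / g) (hdec0 : 0 ≤ dec) (hdec : dec ≤ 3 * τ) :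
    |s * (1 / q ^ 2 - 1 / p ^ 2) - dec / q ^ 2 - Δ| ≤ (6 * (p - q) + 3 * τ) / g ^ 2 := by
  obtain ⟨h1, h2⟩ := gr_main hg hgq hqp hp1 hδ hs0 hs2
  have h3 := gr_Delta hg hgq hqp hp1 hΔ
  have hq : 0 < q := lt_of_lt_of_le hg hgq
  have h4 : 0 ≤ (p - q) / g ^ 2 := by
    have : 0 ≤ p - q := by linarith
    positivity
  have h6 : g ^ 2 ≤ q ^ 2 := by nlinarith
  have h5 : dec / q ^ 2 ≤ 3 * τ / g ^ 2 := by
    have : 0 ≤ 3 * τ := hdec0.trans hdec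
    calc dec / q ^ 2 ≤ 3 * τ / q ^ 2 := by gcongr
      _ ≤ 3 * τ / g ^ 2 := by gcongr
  have h7 : 0 ≤ dec / q ^ 2 := by positivity
  have e1 : 9 / 4 * (p - q) / g ^ 2 = 9 / 4 * ((p - q) / g ^ 2) := by ring
  have e2 : 3 * (p - q) / g ^ 2 = 3 * ((p - q) / g ^ 2) := by ring
  have e3 : (6 * (p - q) + 3 * τ) / g ^ 2 = 6 * ((p - q) / g ^ 2) + 3 * τ / g ^ 2 := by ring
  rw [e1] at h2; rw [e2] at h3; rw [e3]
  rw [abs_le]
  constructor <;> nlinarith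

/-- the vertex analogue of `gr_main` -/
theorem gr_main3 {g p q δ x m : ℝ} (hg : 0 < g) (hgq : g ≤ q) (hqp : q < p) (hp1 : p ≤ 1)
    (hδ : δ ≤ 1 / 8) (hm : 0 < m) (hx0 : 0 ≤ x) (hx : x ≤ p * m * (1 + δ)) :
    0 ≤ (x / q - x / p) / m ∧ (x / q - x / p) / m ≤ 9 / 8 * (p - q) / g ^ 2 := by
  have hq : 0 < q := lt_of_lt_of_le hg hgq
  have hp : 0 < p := hq.trans hqp
  have hpq : 0 < p - q := by linarith
  have h1 : (x / q - x / p) / m = x * (p - q) / (p * q * m) := by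
    field_simp
  rw [h1]
  refine ⟨by positivity, ?_⟩
  have h2 : x ≤ p * m * (9 / 8) := by
    refine hx.trans ?_
    have : 0 < p * m := by positivity
    nlinarith
  have hg1 : g ≤ 1 := by linarith
  have h6 : g ^ 2 ≤ q := by nlinarith
  calc x * (p - q) / (p * q * m) ≤ p * m * (9 / 8) * (p - q) / (p * q * m) := by gcongr
    _ = 9 / 8 * (p - q) / q := by field_simp
    _ ≤ 9 / 8 * (p - q) / g ^ 2 := by gcongr

/-- (A3) -/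
theorem gr_A3 {g p q δ x m Δ : ℝ} (hg : 0 < g) (hgq : g ≤ q) (hqp : q < p) (hp1 : p ≤ 1)
    (hδ : δ ≤ 1 / 8) (hm : 0 < m) (hx0 : 0 ≤ x) (hx : x ≤ p * m * (1 + δ))
    (hΔ0 : 0 ≤ Δ) (hΔ : Δ ≤ 3 * (p - q) / g) :
    |(x / q - x / p) / m - Δ| ≤ 6 * (p - q) / g ^ 2 := by
  obtain ⟨h1, h2⟩ := gr_main3 hg hgq hqp hp1 hδ hm hx0 hx
  have h3 := gr_Delta hg hgq hqp hp1 hΔ
  have h4 : 0 ≤ (p - q) / g ^ 2 := by
    have : 0 ≤ p - q := by linarith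
    positivity
  have e1 : 9 / 8 * (p - q) / g ^ 2 = 9 / 8 * ((p - q) / g ^ 2) := by ring
  have e2 : 3 * (p - q) / g ^ 2 = 3 * ((p - q) / g ^ 2) := by ring
  have e3 : 6 * (p - q) / g ^ 2 = 6 * ((p - q) / g ^ 2) := by ring
  rw [e1] at h2; rw [e2] at h3; rw [e3]
  rw [abs_le]
  constructor <;> nlinarith

/-- (B3) -/
theorem gr_B3 {g p q δ x m Δ τ k : ℝ} (hg : 0 < g) (hgq : g ≤ q) (hqp : q < p) (hp1 : p ≤ 1)
    (hδ : δ ≤ 1 / 8) (hm : 0 < m) (hx0 : 0 ≤ x) (hx : x ≤ p * m * (1 + δ))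
    (hΔ0 : 0 ≤ Δ) (hΔ : Δ ≤ 3 * (p - q) / g) (hτm : 1 ≤ τ * m) (hk0 : 0 ≤ k) (hk : k ≤ 3) :
    |(x / q - x / p) / m - k / (q * m) - Δ| ≤ (6 * (p - q) + 3 * τ) / g ^ 2 := by
  obtain ⟨h1, h2⟩ := gr_main3 hg hgq hqp hp1 hδ hm hx0 hx
  have h3 := gr_Delta hg hgq hqp hp1 hΔ
  have hq : 0 < q := lt_of_lt_of_le hg hgq
  have h4 : 0 ≤ (p - q) / g ^ 2 := by
    have : 0 ≤ p - q := by linarith
    positivity
  have hg1 : g ≤ 1 := by linarith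
  have h6 : g ^ 2 ≤ q := by nlinarith
  have hτ : 0 < τ := by
    by_contra hcon
    have : τ * m ≤ 0 := mul_nonpos_of_nonpos_of_nonneg (not_lt.1 hcon) hm.le
    linarith
  have h5 : k / (q * m) ≤ 3 * τ / g ^ 2 := by
    calc k / (q * m) ≤ 3 / (q * m) := by gcongr
      _ ≤ 3 * (τ * m) / (q * m) := by
          have : (3:ℝ) ≤ 3 * (τ * m) := by linarith
          gcongr
      _ = 3 * τ / q := by field_simp
      _ ≤ 3 * τ / g ^ 2 := by gcongr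
  have h7 : 0 ≤ k / (q * m) := by positivity
  have e1 : 9 / 8 * (p - q) / g ^ 2 = 9 / 8 * ((p - q) / g ^ 2) := by ring
  have e2 : 3 * (p - q) / g ^ 2 = 3 * ((p - q) / g ^ 2) := by ring
  have e3 : (6 * (p - q) + 3 * τ) / g ^ 2 = 6 * ((p - q) / g ^ 2) + 3 * τ / g ^ 2 := by ring
  rw [e1] at h2; rw [e2] at h3; rw [e3]
  rw [abs_le]
  constructor <;> nlinarith

/-- `W (p - q) ≥ p³ (1 - δ)` -/
theorem gr_W {p q δ M W : ℝ} (hqp : q < p) (hM : M * (p - q) = 3)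
    (hW1 : p * M * (p ^ 2 * (1 - δ)) ≤ 3 * W) : p ^ 3 * (1 - δ) ≤ (p - q) * W := by
  have hpq : 0 < p - q := by linarith
  have h1 := mul_le_mul_of_nonneg_right hW1 hpq.le
  have h2 : p * M * (p ^ 2 * (1 - δ)) * (p - q) = 3 * (p ^ 3 * (1 - δ)) := by
    calc p * M * (p ^ 2 * (1 - δ)) * (p - q) = p ^ 3 * (1 - δ) * (M * (p - q)) := by ring
      _ = 3 * (p ^ 3 * (1 - δ)) := by rw [hM]; ring
  rw [h2] at h1
  linarith

/-- (V1) -/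
theorem gr_V1 {g p q δ s τ M W DEC : ℝ} (hg : 0 < g) (hgq : g ≤ q) (hqp : q < p) (hp1 : p ≤ 1)
    (hδ0 : 0 ≤ δ) (hδ : δ ≤ 1 / 8) (hτ0 : 0 ≤ τ) (hs2 : s ≤ p ^ 2 * (1 + δ))
    (hM : M * (p - q) = 3) (hW1 : p * M * (p ^ 2 * (1 - δ)) ≤ 3 * W)
    (hDEC : DEC ≤ 2 * (p ^ 2 * (1 + δ)) * s) :
    3 * τ / g ^ 2 * (DEC / q ^ 2) ≤ 12 * τ * (p - q) / g ^ 4 * W := by
  have hq : 0 < q := lt_of_lt_of_le hg hgq
  have hp : 0 < p := hq.trans hqp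
  have hW := gr_W hqp hM hW1
  have h1 : DEC ≤ 2 * (p ^ 2 * (9 / 8)) ^ 2 := by
    have a1 : p ^ 2 * (1 + δ) ≤ p ^ 2 * (9 / 8) := by nlinarith [sq_nonneg p]
    have a2 : 0 ≤ p ^ 2 * (1 + δ) := by positivity
    calc DEC ≤ 2 * (p ^ 2 * (1 + δ)) * s := hDEC
      _ ≤ 2 * (p ^ 2 * (1 + δ)) * (p ^ 2 * (1 + δ)) := by gcongr
      _ ≤ 2 * (p ^ 2 * (9 / 8)) * (p ^ 2 * (9 / 8)) := by gcongr
      _ = 2 * (p ^ 2 * (9 / 8)) ^ 2 := by ring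
  have h6 : g ^ 2 ≤ q ^ 2 := by nlinarith
  have h7 : p ^ 3 * (7 / 8) ≤ (p - q) * W := by
    refine le_trans ?_ hW
    have : 0 < p ^ 3 := by positivity
    nlinarith
  have h8 : 2 * (p ^ 2 * (9 / 8)) ^ 2 ≤ 4 * (p ^ 3 * (7 / 8)) := by
    have : p ^ 4 ≤ p ^ 3 := pow_le_pow_of_le_one hp.le hp1 (by norm_num)
    have h0 : 0 < p ^ 3 := by positivity
    nlinarith
  have h9 : DEC / q ^ 2 ≤ 4 * ((p - q) * W) / g ^ 2 := by
    have hnn : 0 ≤ 4 * ((p - q) * W) := by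
      have : 0 < p ^ 3 := by positivity
      linarith
    calc DEC / q ^ 2 ≤ 4 * ((p - q) * W) / q ^ 2 := by
          have : DEC ≤ 4 * ((p - q) * W) := by linarith
          gcongr
      _ ≤ 4 * ((p - q) * W) / g ^ 2 := by gcongr
  calc 3 * τ / g ^ 2 * (DEC / q ^ 2) ≤ 3 * τ / g ^ 2 * (4 * ((p - q) * W) / g ^ 2) := by gcongr
    _ = 12 * τ * (p - q) / g ^ 4 * W := by
        field_simp
        ring

/-- (V3) -/
theorem gr_V3 {g p q δ x m τ M W Y : ℝ} (hg : 0 < g) (hgq : g ≤ q) (hqp : q < p) (hp1 : p ≤ 1)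
    (hδ0 : 0 ≤ δ) (hδ : δ ≤ 1 / 8) (hτ0 : 0 ≤ τ) (hm : 0 < m) (hx : x ≤ p * m * (1 + δ))
    (hM : M * (p - q) = 3) (hW1 : p * M * (p ^ 2 * (1 - δ)) ≤ 3 * W)
    (hY : Y ≤ x * (p ^ 2 * (1 + δ))) :
    3 * τ / g * (Y / (q * m)) ≤ 12 * τ * (p - q) / g ^ 4 * W := by
  have hq : 0 < q := lt_of_lt_of_le hg hgq
  have hp : 0 < p := hq.trans hqp
  have hg1 : g ≤ 1 := by linarith
  have hW := gr_W hqp hM hW1
  have h7 : p ^ 3 * (7 / 8) ≤ (p - q) * W := by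
    refine le_trans ?_ hW
    have : 0 < p ^ 3 := by positivity
    nlinarith
  have h1 : Y ≤ 4 * ((p - q) * W) * m := by
    have a2 : 0 ≤ p ^ 2 * (1 + δ) := by positivity
    calc Y ≤ x * (p ^ 2 * (1 + δ)) := hY
      _ ≤ (p * m * (1 + δ)) * (p ^ 2 * (1 + δ)) := by gcongr
      _ = (1 + δ) ^ 2 * p ^ 3 * m := by ring
      _ ≤ 4 * (p ^ 3 * (7 / 8)) * m := by
          have : (1 + δ) ^ 2 ≤ 7 / 2 := by nlinarith
          have h0 : 0 < p ^ 3 * m := by positivity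
          nlinarith
      _ ≤ 4 * ((p - q) * W) * m := by gcongr
  have hnn : 0 ≤ 4 * ((p - q) * W) := by
    have : 0 < p ^ 3 := by positivity
    linarith
  have h2 : Y / (q * m) ≤ 4 * ((p - q) * W) / g := by
    calc Y / (q * m) ≤ 4 * ((p - q) * W) * m / (q * m) := by gcongr
      _ = 4 * ((p - q) * W) / q := by field_simp
      _ ≤ 4 * ((p - q) * W) / g := by gcongr
  have h3 : g ^ 4 ≤ g ^ 2 := pow_le_pow_of_le_one hg.le hg1 (by norm_num)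
  calc 3 * τ / g * (Y / (q * m)) ≤ 3 * τ / g * (4 * ((p - q) * W) / g) := by gcongr
    _ = 3 * τ * (4 * ((p - q) * W)) / g ^ 2 := by field_simp
    _ ≤ 3 * τ * (4 * ((p - q) * W)) / g ^ 4 := by gcongr
    _ = 12 * τ * (p - q) / g ^ 4 * W := by ring

/-- (Dl), lower bound of the barrier increment (Bernoulli) -/
theorem gr_barrier_le {p q η : ℝ} (hq : 0 < q) (hqp : q ≤ p) (hη : 0 ≤ η) :
    20 * (p - q) * (2 * η / p ^ 20) / p ≤ 2 * η / q ^ 20 - 2 * η / p ^ 20 := by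
  have hp : 0 < p := lt_of_lt_of_le hq hqp
  have h1 : 1 + (20 : ℕ) * (p / q - 1) ≤ (1 + (p / q - 1)) ^ 20 := by
    refine one_add_mul_le_pow ?_ 20
    have : 0 ≤ p / q := by positivity
    linarith
  have h2 : (1 + (p / q - 1)) ^ 20 = p ^ 20 / q ^ 20 := by
    rw [add_sub_cancel, div_pow]
  rw [h2] at h1
  have h3 : (p - q) / p ≤ p / q - 1 := by
    have : p / q - 1 = (p - q) / q := by field_simp
    rw [this]
    have : 0 ≤ p - q := by linarith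
    gcongr
  have h4 : 20 * ((p - q) / p) ≤ p ^ 20 / q ^ 20 - 1 := by
    push_cast at h1
    linarith
  have h5 : 0 ≤ 2 * η / p ^ 20 := by positivity
  calc 20 * (p - q) * (2 * η / p ^ 20) / p = 20 * ((p - q) / p) * (2 * η / p ^ 20) := by ring
    _ ≤ (p ^ 20 / q ^ 20 - 1) * (2 * η / p ^ 20) := by gcongr
    _ = 2 * η / q ^ 20 - 2 * η / p ^ 20 := by field_simp

/-- (Dl), upper bound of the barrier increment -/
theorem gr_barrier_ge {g p q η : ℝ} (hg : 0 < g) (hgq : g ≤ q) (hqp : q ≤ p) (hη : 0 ≤ η)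
    (hη8 : 2 * η / g ^ 20 ≤ 1 / 8) :
    2 * η / q ^ 20 - 2 * η / p ^ 20 ≤ 3 * (p - q) / g := by
  have hq : 0 < q := lt_of_lt_of_le hg hgq
  have hp : 0 < p := lt_of_lt_of_le hq hqp
  have h1 : 1 + (20 : ℕ) * (q / p - 1) ≤ (1 + (q / p - 1)) ^ 20 := by
    refine one_add_mul_le_pow ?_ 20
    have : 0 ≤ q / p := by positivity
    linarith
  have h2 : (1 + (q / p - 1)) ^ 20 = q ^ 20 / p ^ 20 := by
    rw [add_sub_cancel, div_pow]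
  rw [h2] at h1
  have h3 : 1 - q ^ 20 / p ^ 20 ≤ 20 * ((p - q) / p) := by
    have : q / p - 1 = -((p - q) / p) := by field_simp; ring
    rw [this] at h1
    push_cast at h1
    linarith
  have h4 : 2 * η / q ^ 20 ≤ 1 / 8 := by
    refine le_trans ?_ hη8
    gcongr
  have h5 : 0 ≤ 2 * η / q ^ 20 := by positivity
  have h6 : 0 ≤ (p - q) / p := by
    have : 0 ≤ p - q := by linarith
    positivity
  calc 2 * η / q ^ 20 - 2 * η / p ^ 20 = 2 * η / q ^ 20 * (1 - q ^ 20 / p ^ 20) := by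
        field_simp
    _ ≤ 2 * η / q ^ 20 * (20 * ((p - q) / p)) := by gcongr
    _ ≤ 1 / 8 * (20 * ((p - q) / p)) := by gcongr
    _ ≤ 3 * ((p - q) / p) := by nlinarith
    _ ≤ 3 * (p - q) / g := by
        rw [mul_div_assoc]
        have : 0 ≤ p - q := by linarith
        have hgp : g ≤ p := hgq.trans hqp
        gcongr

end NW
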