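import Mathlib

/-!
# Project NW, N2: expectation identities for linear 3-uniform families

`C` is a finite family of three-element sets, two different members meet in at most one point.
`H` is the set of points still uncovered, `alive C H` the members inside `H`, `wt` their total
weight, `sw e` the weight of those containing `e`.
-/

namespace NW

open Finset

variable {E : Type*} [DecidableEq E]

/-- the members of the family contained in `H` -/
def alive (C : Finset (Finset E)) (H : Finset E) : Finset (Finset E) := C.filter (· ⊆ H)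

/-- the total weight of the members inside `H` -/
noncomputable def wt (C : Finset (Finset E)) (w : Finset E → ℝ) (H : Finset E) : ℝ :=
  ∑ T ∈ alive C H, w T

/-- the weight of the members inside `H` containing `e` -/
noncomputable def sw (C : Finset (Finset E)) (w : Finset E → ℝ) (H : Finset E) (e : E) : ℝ :=
  ∑ T ∈ (alive C H).filter (fun T => e ∈ T), w T

/-- the expected loss at `e` (not normalised): the sum over the members `T` not containing `e` of
`w T` times the loss at `e` when `T` is removed -/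
noncomputable def DEC (C : Finset (Finset E)) (w : Finset E → ℝ) (H : Finset E) (e : E) : ℝ :=
  ∑ T ∈ (alive C H).filter (fun T => e ∉ T), w T * (sw C w H e - sw C w (H \ T) e)

variable {C : Finset (Finset E)} {w : Finset E → ℝ} {H : Finset E} {τ : ℝ}

theorem mem_alive {T : Finset E} : T ∈ alive C H ↔ T ∈ C ∧ T ⊆ H := by simp [alive]

theorem alive_sdiff (T : Finset E) :
    alive C (H \ T) = (alive C H).filter (fun T' => Disjoint T' T) := by
  ext T'
  simp only [mem_alive, Finset.mem_filter]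
  constructor
  · rintro ⟨h1, h2⟩
    exact ⟨⟨h1, h2.trans Finset.sdiff_subset⟩, (Finset.subset_sdiff.1 h2).2⟩
  · rintro ⟨⟨h1, h2⟩, h3⟩
    exact ⟨h1, Finset.subset_sdiff.2 ⟨h2, h3⟩⟩

theorem wt_nonneg (hw : ∀ T ∈ C, 0 ≤ w T) : 0 ≤ wt C w H :=
  Finset.sum_nonneg fun T hT => hw T (mem_alive.1 hT).1

theorem sw_nonneg (hw : ∀ T ∈ C, 0 ≤ w T) (e : E) : 0 ≤ sw C w H e :=
  Finset.sum_nonneg fun T hT => hw T (mem_alive.1 (Finset.mem_filter.1 hT).1).1

/-- (I2) -/
theorem sum_card_inter (S : Finset E) :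
    ∑ T ∈ alive C H, w T * ((S ∩ T).card : ℝ) = ∑ f ∈ S ∩ H, sw C w H f := by
  have h1 : ∀ T ∈ alive C H, w T * ((S ∩ T).card : ℝ) =
      ∑ f ∈ S ∩ H, if f ∈ T then w T else 0 := by
    intro T hT
    rw [← Finset.sum_filter, Finset.sum_const, nsmul_eq_mul, mul_comm]
    have : (S ∩ H).filter (fun f => f ∈ T) = S ∩ T := by
      ext f
      simp only [Finset.mem_filter, Finset.mem_inter]
      constructor
      · rintro ⟨⟨h1, _⟩, h3⟩; exact ⟨h1, h3⟩
      · rintro ⟨h1, h3⟩; exact ⟨⟨h1, (mem_alive.1 hT).2 h3⟩, h3⟩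
    rw [this]
  rw [Finset.sum_congr rfl h1, Finset.sum_comm]
  refine Finset.sum_congr rfl fun f _ => ?_
  rw [sw, Finset.sum_filter]

/-- (I1) -/
theorem sum_sw (hC : ∀ T ∈ C, T.card = 3) : ∑ f ∈ H, sw C w H f = 3 * wt C w H := by
  have h := sum_card_inter (C := C) (w := w) (H := H) H
  rw [Finset.inter_self] at h
  rw [← h, wt, Finset.mul_sum]
  refine Finset.sum_congr rfl fun T hT => ?_
  rw [Finset.inter_eq_right.2 (mem_alive.1 hT).2, hC T (mem_alive.1 hT).1]
  push_cast
  ring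

/-- (I2'), second moment -/
theorem sum_card_inter_sq (hC : ∀ T ∈ C, T.card = 3) (hw : ∀ T ∈ C, 0 ≤ w T) (S : Finset E) :
    ∑ T ∈ alive C H, w T * ((S ∩ T).card : ℝ) ^ 2 ≤ 3 * ∑ f ∈ S ∩ H, sw C w H f := by
  rw [← sum_card_inter S, Finset.mul_sum]
  refine Finset.sum_le_sum fun T hT => ?_
  have h0 := hw T (mem_alive.1 hT).1
  have h1 : ((S ∩ T).card : ℝ) ≤ 3 := by
    have := Finset.card_le_card (Finset.inter_subset_right (s₁ := S) (s₂ := T))
    rw [hC T (mem_alive.1 hT).1] at this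
    exact_mod_cast this
  have h2 : (0 : ℝ) ≤ ((S ∩ T).card : ℝ) := Nat.cast_nonneg _
  nlinarith [mul_nonneg h0 (mul_nonneg h2 (sub_nonneg.2 h1))]

theorem card_inter_le (hC : ∀ T ∈ C, T.card = 3) (S : Finset E) {T : Finset E} (hT : T ∈ C) :
    ((S ∩ T).card : ℝ) ≤ 3 := by
  have := Finset.card_le_card (Finset.inter_subset_right (s₁ := S) (s₂ := T))
  rw [hC T hT] at this
  exact_mod_cast this

section Linear

variable (hlin : ∀ T ∈ C, ∀ T' ∈ C, T ≠ T' → (T ∩ T').card ≤ 1)

include hlin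

theorem eq_of_two_mem {T T' : Finset E} (hT : T ∈ C) (hT' : T' ∈ C) {e f : E} (hef : e ≠ f)
    (h1 : e ∈ T) (h2 : f ∈ T) (h3 : e ∈ T') (h4 : f ∈ T') : T = T' := by
  by_contra hne
  have h := hlin T hT T' hT' hne
  have h5 : ({e, f} : Finset E) ⊆ T ∩ T' := by
    intro x hx
    rcases Finset.mem_insert.1 hx with rfl | hx
    · exact Finset.mem_inter.2 ⟨h1, h3⟩
    · rw [Finset.mem_singleton.1 hx]
      exact Finset.mem_inter.2 ⟨h2, h4⟩
  have h6 := Finset.card_le_card h5
  rw [Finset.card_pair hef] at h6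
  omega

/-- two points are in at most one member: the weight of the members containing both is at most
`τ` -/
theorem sum_two_le (hw : ∀ T ∈ C, 0 ≤ w T ∧ w T ≤ τ) (hτ : 0 ≤ τ) {e f : E} (hef : e ≠ f) :
    ∑ T ∈ (alive C H).filter (fun T => e ∈ T ∧ f ∈ T), w T ≤ τ := by
  by_cases h : ((alive C H).filter (fun T => e ∈ T ∧ f ∈ T)).Nonempty
  · obtain ⟨T, hT⟩ := h
    have h1 : (alive C H).filter (fun T => e ∈ T ∧ f ∈ T) = {T} := by
      refine Finset.eq_singleton_iff_unique_mem.2 ⟨hT, fun T' hT' => ?_⟩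
      rw [Finset.mem_filter, mem_alive] at hT hT'
      exact eq_of_two_mem hlin hT'.1.1 hT.1.1 hef hT'.2.1 hT'.2.2 hT.2.1 hT.2.2
    rw [h1, Finset.sum_singleton]
    rw [Finset.mem_filter, mem_alive] at hT
    exact (hw T hT.1.1).2
  · rw [Finset.not_nonempty_iff_eq_empty.1 h, Finset.sum_empty]
    exact hτ

theorem sum_two_eq {T' : Finset E} (hT' : T' ∈ alive C H) {e f : E} (hef : e ≠ f)
    (he : e ∈ T') (hf : f ∈ T') :
    ∑ T ∈ (alive C H).filter (fun T => e ∈ T ∧ f ∈ T), w T = w T' := by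
  have h1 : (alive C H).filter (fun T => e ∈ T ∧ f ∈ T) = {T'} := by
    refine Finset.eq_singleton_iff_unique_mem.2 ⟨Finset.mem_filter.2 ⟨hT', he, hf⟩,
      fun T hT => ?_⟩
    rw [Finset.mem_filter, mem_alive] at hT
    exact eq_of_two_mem hlin hT.1.1 (mem_alive.1 hT').1 hef hT.2.1 hT.2.2 he hf
  rw [h1, Finset.sum_singleton]

omit hlin in
theorem sw_sub (T : Finset E) (e : E) :
    sw C w H e - sw C w (H \ T) e =
      ∑ T' ∈ (alive C H).filter (fun T' => e ∈ T' ∧ ¬ Disjoint T' T), w T' := by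
  rw [sw, sw, alive_sdiff, Finset.filter_filter, sub_eq_iff_eq_add]
  have h : (alive C H).filter (fun T => e ∈ T) =
      (alive C H).filter (fun T' => e ∈ T' ∧ ¬ Disjoint T' T) ∪
        (alive C H).filter (fun T' => Disjoint T' T ∧ e ∈ T') := by
    ext T'
    simp only [Finset.mem_filter, Finset.mem_union]
    tauto
  rw [h, Finset.sum_union]
  rw [Finset.disjoint_left]
  intro T' h1 h2
  exact (Finset.mem_filter.1 h1).2.2 (Finset.mem_filter.1 h2).2.1

omit hlin in
theorem dec_nonneg (hw : ∀ T ∈ C, 0 ≤ w T) (T : Finset E) (e : E) :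
    0 ≤ sw C w H e - sw C w (H \ T) e := by
  rw [sw_sub]
  exact Finset.sum_nonneg fun T hT => hw T (mem_alive.1 (Finset.mem_filter.1 hT).1).1

/-- (I3) -/
theorem dec_le (hC : ∀ T ∈ C, T.card = 3) (hw : ∀ T ∈ C, 0 ≤ w T ∧ w T ≤ τ) (hτ : 0 ≤ τ)
    {T : Finset E} (hT : T ∈ C) {e : E} (he : e ∉ T) :
    sw C w H e - sw C w (H \ T) e ≤ 3 * τ := by
  rw [sw_sub]
  have h1 : ∀ T' ∈ (alive C H).filter (fun T' => e ∈ T' ∧ ¬ Disjoint T' T),
      w T' ≤ ∑ f ∈ T, if f ∈ T' then w T' else 0 := by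
    intro T' hT'
    rw [Finset.mem_filter] at hT'
    have h0 := (hw T' (mem_alive.1 hT'.1).1).1
    obtain ⟨f, hf1, hf2⟩ := Finset.not_disjoint_iff.1 hT'.2.2
    calc w T' = if f ∈ T' then w T' else 0 := by rw [if_pos hf1]
      _ ≤ _ := Finset.single_le_sum (f := fun f => if f ∈ T' then w T' else 0)
          (fun g _ => by split_ifs <;> simp [h0]) hf2
  calc ∑ T' ∈ (alive C H).filter (fun T' => e ∈ T' ∧ ¬ Disjoint T' T), w T'
      ≤ ∑ T' ∈ (alive C H).filter (fun T' => e ∈ T' ∧ ¬ Disjoint T' T),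
          ∑ f ∈ T, (if f ∈ T' then w T' else 0) := Finset.sum_le_sum h1
    _ ≤ ∑ T' ∈ (alive C H).filter (fun T' => e ∈ T'),
          ∑ f ∈ T, (if f ∈ T' then w T' else 0) := by
        refine Finset.sum_le_sum_of_subset_of_nonneg ?_ ?_
        · intro T' hT'
          rw [Finset.mem_filter] at hT' ⊢
          exact ⟨hT'.1, hT'.2.1⟩
        · intro T' hT' _
          refine Finset.sum_nonneg fun f _ => ?_
          have h0 := (hw T' (mem_alive.1 (Finset.mem_filter.1 hT').1).1).1
          split_ifs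
          · exact h0
          · exact le_refl 0
    _ = ∑ f ∈ T, ∑ T' ∈ (alive C H).filter (fun T' => e ∈ T' ∧ f ∈ T'), w T' := by
        rw [Finset.sum_comm]
        refine Finset.sum_congr rfl fun f _ => ?_
        rw [← Finset.sum_filter, Finset.filter_filter]
    _ ≤ ∑ _f ∈ T, τ := by
        refine Finset.sum_le_sum fun f hf => sum_two_le hlin hw hτ ?_
        rintro rfl
        exact he hf
    _ = 3 * τ := by
        rw [Finset.sum_const, hC T hT, nsmul_eq_mul]
        norm_num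

/-- for a fixed member `T'` through `e`: the weight of the members meeting `T'` but not
containing `e` -/
theorem sum_meet {T' : Finset E} (hT' : T' ∈ alive C H) {e : E} (he : e ∈ T') :
    ∑ T ∈ (alive C H).filter (fun T => e ∉ T ∧ ¬ Disjoint T' T), w T =
      ∑ f ∈ T'.erase e, (sw C w H f - w T') := by
  have h1 : ∀ T ∈ alive C H, (if e ∉ T ∧ ¬ Disjoint T' T then w T else 0) =
      ∑ f ∈ T'.erase e, if f ∈ T ∧ e ∉ T then w T else 0 := by
    intro T hT
    by_cases heT : e ∈ T
    · rw [if_neg (by tauto)]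
      refine (Finset.sum_eq_zero fun f _ => ?_).symm
      rw [if_neg (by tauto)]
    · by_cases hd : Disjoint T' T
      · rw [if_neg (by tauto)]
        refine (Finset.sum_eq_zero fun f hf => ?_).symm
        rw [if_neg]
        rintro ⟨h, _⟩
        exact Finset.disjoint_left.1 hd (Finset.mem_of_mem_erase hf) h
      · rw [if_pos ⟨heT, hd⟩]
        obtain ⟨f, hf1, hf2⟩ := Finset.not_disjoint_iff.1 hd
        have hfe : f ≠ e := by rintro rfl; exact heT hf2
        rw [Finset.sum_eq_single f]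
        · rw [if_pos ⟨hf2, heT⟩]
        · intro g hg hgf
          rw [if_neg]
          rintro ⟨hgT, _⟩
          have := eq_of_two_mem hlin (mem_alive.1 hT').1 (mem_alive.1 hT).1 hgf
            (Finset.mem_of_mem_erase hg) hf1 hgT hf2
          rw [this] at he
          exact heT he
        · intro hf
          exact absurd (Finset.mem_erase.2 ⟨hfe, hf1⟩) hf
  rw [Finset.sum_filter, Finset.sum_congr rfl h1, Finset.sum_comm]
  refine Finset.sum_congr rfl fun f hf => ?_
  have hfe : f ≠ e := Finset.ne_of_mem_erase hf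
  have hfT : f ∈ T' := Finset.mem_of_mem_erase hf
  rw [← Finset.sum_filter]
  have h2 := sum_two_eq hlin (w := w) hT' hfe.symm he hfT
  rw [← h2, sw, eq_sub_iff_add_eq, ← Finset.sum_union]
  · refine Finset.sum_congr ?_ fun _ _ => rfl
    ext T
    simp only [Finset.mem_filter, Finset.mem_union]
    tauto
  · rw [Finset.disjoint_left]
    intro T h3 h4
    exact (Finset.mem_filter.1 h3).2.2 (Finset.mem_filter.1 h4).2.1

/-- (I4), the exact expected loss -/
theorem DEC_eq (e : E) : DEC C w H e = ∑ T' ∈ (alive C H).filter (fun T => e ∈ T),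
    w T' * ∑ f ∈ T'.erase e, (sw C w H f - w T') := by
  have h1 : DEC C w H e = ∑ T' ∈ (alive C H).filter (fun T => e ∈ T), w T' *
      ∑ T ∈ (alive C H).filter (fun T => e ∉ T ∧ ¬ Disjoint T' T), w T := by
    rw [DEC]
    have h2 : ∀ T ∈ (alive C H).filter (fun T => e ∉ T),
        w T * (sw C w H e - sw C w (H \ T) e) =
          ∑ T' ∈ (alive C H).filter (fun T => e ∈ T),
            if ¬ Disjoint T' T then w T' * w T else 0 := by
      intro T _
      rw [sw_sub, Finset.mul_sum, ← Finset.filter_filter, Finset.sum_filter]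
      refine Finset.sum_congr rfl fun T' _ => ?_
      split_ifs <;> ring
    rw [Finset.sum_congr rfl h2, Finset.sum_comm]
    refine Finset.sum_congr rfl fun T' _ => ?_
    rw [Finset.mul_sum, ← Finset.filter_filter, Finset.sum_filter (fun T => ¬ Disjoint T' T)]
  rw [h1]
  refine Finset.sum_congr rfl fun T' hT' => ?_
  rw [Finset.mem_filter] at hT'
  rw [sum_meet hlin hT'.1 hT'.2]

theorem DEC_le (hC : ∀ T ∈ C, T.card = 3) (hw : ∀ T ∈ C, 0 ≤ w T) {b : ℝ}
    (hb : ∀ f ∈ H, sw C w H f ≤ b) (e : E) : DEC C w H e ≤ 2 * b * sw C w H e := by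
  rw [DEC_eq hlin, sw, Finset.mul_sum]
  refine Finset.sum_le_sum fun T' hT' => ?_
  rw [Finset.mem_filter, mem_alive] at hT'
  have h0 := hw T' hT'.1.1
  have h1 : ∑ f ∈ T'.erase e, (sw C w H f - w T') ≤ ∑ _f ∈ T'.erase e, b := by
    refine Finset.sum_le_sum fun f hf => ?_
    have := hb f (hT'.1.2 (Finset.mem_of_mem_erase hf))
    linarith
  rw [Finset.sum_const, Finset.card_erase_of_mem hT'.2, hC T' hT'.1.1, nsmul_eq_mul] at h1
  have h2 := mul_le_mul_of_nonneg_left h1 h0
  push_cast at h2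
  linarith

theorem le_DEC (hC : ∀ T ∈ C, T.card = 3) (hw : ∀ T ∈ C, 0 ≤ w T ∧ w T ≤ τ) {a : ℝ}
    (ha : ∀ f ∈ H, a ≤ sw C w H f) (e : E) : 2 * (a - τ) * sw C w H e ≤ DEC C w H e := by
  rw [DEC_eq hlin, sw, Finset.mul_sum]
  refine Finset.sum_le_sum fun T' hT' => ?_
  rw [Finset.mem_filter, mem_alive] at hT'
  have h0 := hw T' hT'.1.1
  have h1 : ∑ _f ∈ T'.erase e, (a - τ) ≤ ∑ f ∈ T'.erase e, (sw C w H f - w T') := by
    refine Finset.sum_le_sum fun f hf => ?_
    have := ha f (hT'.1.2 (Finset.mem_of_mem_erase hf))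
    linarith
  rw [Finset.sum_const, Finset.card_erase_of_mem hT'.2, hC T' hT'.1.1, nsmul_eq_mul] at h1
  have h2 := mul_le_mul_of_nonneg_left h1 h0.1
  push_cast at h2
  linarith

/-- (I5) -/
theorem sum_dec_sq_le (hC : ∀ T ∈ C, T.card = 3) (hw : ∀ T ∈ C, 0 ≤ w T ∧ w T ≤ τ)
    (hτ : 0 ≤ τ) (e : E) :
    ∑ T ∈ (alive C H).filter (fun T => e ∉ T), w T * (sw C w H e - sw C w (H \ T) e) ^ 2 ≤
      3 * τ * DEC C w H e := by
  rw [DEC, Finset.mul_sum]
  refine Finset.sum_le_sum fun T hT => ?_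
  rw [Finset.mem_filter, mem_alive] at hT
  have h0 := (hw T hT.1.1).1
  have h1 := dec_nonneg (H := H) (fun T hT => (hw T hT).1) T e
  have h2 := dec_le (H := H) hlin hC hw hτ hT.1.1 hT.2
  nlinarith [mul_nonneg h0 (mul_nonneg h1 (sub_nonneg.2 h2))]

end Linear

/-- (I6) -/
theorem sum_not_mem (e : E) :
    ∑ T ∈ (alive C H).filter (fun T => e ∉ T), w T = wt C w H - sw C w H e := by
  rw [wt, sw, eq_sub_iff_add_eq, add_comm]
  exact Finset.sum_filter_add_sum_filter_not _ _ _

end NW
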