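import Mathlib
import Pool.Agent.NW.LinExp
import Pool.Agent.NW.GreedyReal
import Pool.Agent.NW.GreedyReal2

/-!
# Project NW, part N2: one step of the derandomised single-triangle nibble
-/

set_option linter.unusedSectionVars false

namespace NW

open Finset

/-! ### the averaging lemma -/

theorem exp_le_quad {x : ℝ} (hx : |x| ≤ 1) : Real.exp x ≤ 1 + x + x ^ 2 := by
  have := Real.abs_exp_sub_one_sub_id_le hx
  have h := abs_le.1 this
  linarith [h.2]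

/-- one term of the potential -/
theorem exp_avg_le {O : Type*} (os : Finset O) (om ka D : O → ℝ) (lam v : ℝ)
    (hom : ∀ o ∈ os, 0 ≤ om o) (hka0 : ∀ o ∈ os, 0 ≤ ka o) (hka1 : ∀ o ∈ os, ka o ≤ 1)
    (hlam : 0 ≤ lam)
    (hD : ∀ o ∈ os, om o * ka o ≠ 0 → |lam * D o| ≤ 1)
    (hmean : ∑ o ∈ os, om o * ka o * D o ≤ 0)
    (hvar : ∑ o ∈ os, om o * ka o * (D o) ^ 2 ≤ v * ∑ o ∈ os, om o) :
    ∑ o ∈ os, om o * ka o * Real.exp (lam * D o) ≤ (1 + lam ^ 2 * v) * ∑ o ∈ os, om o := by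
  have h1 : ∀ o ∈ os, om o * ka o * Real.exp (lam * D o) ≤
      om o + lam * (om o * ka o * D o) + lam ^ 2 * (om o * ka o * (D o) ^ 2) := by
    intro o ho
    have hk : 0 ≤ om o * ka o := mul_nonneg (hom o ho) (hka0 o ho)
    by_cases hz : om o * ka o = 0
    · rw [hz]; simp only [zero_mul, mul_zero, add_zero]; exact hom o ho
    · have h2 := exp_le_quad (hD o ho hz)
      have h3 : om o * ka o * Real.exp (lam * D o) ≤
          om o * ka o * (1 + lam * D o + (lam * D o) ^ 2) := mul_le_mul_of_nonneg_left h2 hk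
      have h4 : om o * ka o ≤ om o := by
        have := mul_le_mul_of_nonneg_left (hka1 o ho) (hom o ho)
        simpa using this
      nlinarith [h3, h4]
  refine (Finset.sum_le_sum h1).trans ?_
  rw [Finset.sum_add_distrib, Finset.sum_add_distrib, ← Finset.mul_sum, ← Finset.mul_sum]
  have h5 : lam * ∑ o ∈ os, om o * ka o * D o ≤ 0 :=
    mul_nonpos_of_nonneg_of_nonpos hlam hmean
  have h6 : lam ^ 2 * ∑ o ∈ os, om o * ka o * (D o) ^ 2 ≤ lam ^ 2 * (v * ∑ o ∈ os, om o) :=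
    mul_le_mul_of_nonneg_left hvar (sq_nonneg _)
  nlinarith [h5, h6]

/-- averaging: some outcome is at most the mean -/
theorem exists_le_avg {O : Type*} (os : Finset O) (om F : O → ℝ) (B : ℝ)
    (hom : ∀ o ∈ os, 0 ≤ om o) (hpos : 0 < ∑ o ∈ os, om o)
    (h : ∑ o ∈ os, om o * F o ≤ B * ∑ o ∈ os, om o) :
    ∃ o ∈ os, 0 < om o ∧ F o ≤ B := by
  by_contra hcon
  push Not at hcon
  have h1 : ∀ o ∈ os, om o * B ≤ om o * F o := by
    intro o ho
    rcases eq_or_lt_of_le (hom o ho) with h0 | h0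
    · rw [← h0]; simp
    · exact mul_le_mul_of_nonneg_left (hcon o ho h0).le h0.le
  obtain ⟨o, ho, ho'⟩ : ∃ o ∈ os, 0 < om o := by
    by_contra hc
    push Not at hc
    exact absurd (Finset.sum_nonpos hc) (not_le.2 hpos)
  have h2 : ∑ o ∈ os, om o * B < ∑ o ∈ os, om o * F o :=
    Finset.sum_lt_sum h1 ⟨o, ho, mul_lt_mul_of_pos_left (hcon o ho ho') ho'⟩
  rw [← Finset.sum_mul] at h2
  linarith [mul_comm B (∑ o ∈ os, om o)]

/-- one term of the potential, shift `A + X o` -/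
theorem term_le {O : Type*} (os : Finset O) (om ka X : O → ℝ) (x0 A B a2 v2 lam : ℝ)
    (hom : ∀ o ∈ os, 0 ≤ om o) (hka0 : ∀ o ∈ os, 0 ≤ ka o) (hka1 : ∀ o ∈ os, ka o ≤ 1)
    (hlam : 0 ≤ lam) (hD : ∀ o ∈ os, ka o ≠ 0 → |A + X o| ≤ B) (hB : lam * B ≤ 1)
    (hmean : A * ∑ o ∈ os, om o * ka o + ∑ o ∈ os, om o * ka o * X o ≤ 0)
    (hA : A ^ 2 ≤ a2)
    (hX : ∑ o ∈ os, om o * ka o * (X o) ^ 2 ≤ v2 * ∑ o ∈ os, om o) :
    ∑ o ∈ os, om o * (ka o * Real.exp (lam * (x0 + (A + X o)))) ≤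
      (1 + lam ^ 2 * (2 * a2 + 2 * v2)) * (Real.exp (lam * x0) * ∑ o ∈ os, om o) := by
  have hk : ∀ o ∈ os, 0 ≤ om o * ka o := fun o ho => mul_nonneg (hom o ho) (hka0 o ho)
  have hkle : ∀ o ∈ os, om o * ka o ≤ om o := fun o ho => by
    have := mul_le_mul_of_nonneg_left (hka1 o ho) (hom o ho)
    simpa using this
  have key := exp_avg_le os om ka (fun o => A + X o) lam (2 * a2 + 2 * v2) hom hka0 hka1 hlam
    (by
      intro o ho hne
      have hka : ka o ≠ 0 := fun h => hne (by rw [h, mul_zero])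
      rw [abs_mul, abs_of_nonneg hlam]
      exact (mul_le_mul_of_nonneg_left (hD o ho hka) hlam).trans hB)
    (by
      have : ∑ o ∈ os, om o * ka o * (A + X o) =
          A * ∑ o ∈ os, om o * ka o + ∑ o ∈ os, om o * ka o * X o := by
        rw [Finset.mul_sum, ← Finset.sum_add_distrib]
        exact Finset.sum_congr rfl fun o _ => by ring
      rw [this]; exact hmean)
    (by
      have h1 : ∀ o ∈ os, om o * ka o * (A + X o) ^ 2 ≤
          2 * a2 * om o + 2 * (om o * ka o * (X o) ^ 2) := by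
        intro o ho
        have e1 : (A + X o) ^ 2 ≤ 2 * A ^ 2 + 2 * (X o) ^ 2 := by nlinarith [sq_nonneg (A - X o)]
        have e2 := mul_le_mul_of_nonneg_left e1 (hk o ho)
        have e3 : om o * ka o * (2 * A ^ 2) ≤ om o * (2 * a2) := by
          have : 2 * A ^ 2 ≤ 2 * a2 := by linarith
          exact mul_le_mul (hkle o ho) this (by positivity) (hom o ho)
        nlinarith [e2, e3]
      refine (Finset.sum_le_sum h1).trans ?_
      rw [Finset.sum_add_distrib, ← Finset.mul_sum, ← Finset.mul_sum]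
      nlinarith [hX])
  have hsum : ∑ o ∈ os, om o * (ka o * Real.exp (lam * (x0 + (A + X o)))) =
      Real.exp (lam * x0) * ∑ o ∈ os, om o * ka o * Real.exp (lam * (A + X o)) := by
    rw [Finset.mul_sum]
    refine Finset.sum_congr rfl fun o _ => ?_
    rw [mul_add lam x0, Real.exp_add]; ring
  rw [hsum]
  have := mul_le_mul_of_nonneg_left key (Real.exp_pos (lam * x0)).le
  calc Real.exp (lam * x0) * ∑ o ∈ os, om o * ka o * Real.exp (lam * (A + X o))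
      ≤ Real.exp (lam * x0) * ((1 + lam ^ 2 * (2 * a2 + 2 * v2)) * ∑ o ∈ os, om o) := this
    _ = _ := by ring

/-! ### real inequalities -/

/-- the numerical situation of one step -/
structure Cm (η g p q δ Δ τ M W : ℝ) : Prop where
  hOK : StepOK g η p (p - q) τ
  hδe : δ = bar η p
  hΔe : Δ = bar η q - bar η p
  hM : M * (p - q) = 3
  hW1 : p * M * (p ^ 2 * (1 - δ)) ≤ 3 * W
  hW2 : 3 * W ≤ p * M * (p ^ 2 * (1 + δ))

section Real

variable {η g p q δ Δ τ M W s x m DEC' Y dec k : ℝ}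

theorem Cm.hg (h : Cm η g p q δ Δ τ M W) : 0 < g := h.hOK.γ0

theorem Cm.hgq (h : Cm η g p q δ Δ τ M W) : g ≤ q := by
  have := h.hOK.γp; linarith

theorem Cm.hqp (h : Cm η g p q δ Δ τ M W) : q < p := by
  have := h.hOK.θ0; linarith

theorem Cm.hp1 (h : Cm η g p q δ Δ τ M W) : p ≤ 1 := h.hOK.p1

theorem Cm.hδ0 (h : Cm η g p q δ Δ τ M W) : 0 < δ := by
  rw [h.hδe]; exact h.hOK.δ0

theorem Cm.hδ (h : Cm η g p q δ Δ τ M W) : δ ≤ 1 / 8 := by
  rw [h.hδe]; exact h.hOK.δ1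

theorem Cm.hτ0 (h : Cm η g p q δ Δ τ M W) : 0 ≤ τ := h.hOK.τ0

theorem Cm.hp0 (h : Cm η g p q δ Δ τ M W) : 0 < p := h.hOK.p0

theorem Cm.hq0 (h : Cm η g p q δ Δ τ M W) : 0 < q := h.hg.trans_le h.hgq

theorem Cm.hΔ3 (h : Cm η g p q δ Δ τ M W) : Δ ≤ 3 * (p - q) / g := by
  rw [h.hΔe]
  have h1 := bar_inc_le h.hOK.γ0 h.hOK.η0 h.hOK.ηγ h.hOK.θ0 h.hOK.γp
  have h2 : p - (p - q) = q := by ring
  rw [h2] at h1
  refine h1.trans ?_
  have h3 := h.hOK.θ0
  have h4 := h.hg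
  gcongr
  norm_num

theorem Cm.hΔ0 (h : Cm η g p q δ Δ τ M W) : 0 ≤ Δ := by
  rw [h.hΔe]
  have h1 := bar_inc_ge h.hOK.η0 h.hOK.θ0 (by linarith [h.hq0] : p - q < p)
  have h2 : p - (p - q) = q := by ring
  rw [h2] at h1
  refine le_trans ?_ h1
  have h3 := h.hOK.θ0
  have h4 := h.hq0
  have h5 := h.hOK.δ0
  positivity

theorem Cm.s0 (h : Cm η g p q δ Δ τ M W) (hs1 : p ^ 2 * (1 - δ) ≤ s) : 0 ≤ s := by
  refine le_trans ?_ hs1
  have : 0 ≤ 1 - δ := by linarith [h.hδ]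
  positivity

theorem Cm.W1 (h : Cm η g p q δ Δ τ M W) : p ^ 3 * (1 - bar η p) ≤ W * (p - q) := by
  have h1 := gr_W h.hqp h.hM h.hW1
  rw [← h.hδe]
  linarith

theorem Cm.W2 (h : Cm η g p q δ Δ τ M W) : W * (p - q) ≤ p ^ 3 * (1 + bar η p) := by
  have hpq : 0 < p - q := h.hOK.θ0
  have h1 := mul_le_mul_of_nonneg_right h.hW2 hpq.le
  have h2 : p * M * (p ^ 2 * (1 + δ)) * (p - q) = 3 * (p ^ 3 * (1 + δ)) := by
    calc p * M * (p ^ 2 * (1 + δ)) * (p - q) = p ^ 3 * (1 + δ) * (M * (p - q)) := by ring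
      _ = 3 * (p ^ 3 * (1 + δ)) := by rw [h.hM]; ring
  rw [h2] at h1
  rw [← h.hδe]
  linarith

theorem realD1 (h : Cm η g p q δ Δ τ M W) (hs1 : p ^ 2 * (1 - δ) ≤ s)
    (hs2 : s ≤ p ^ 2 * (1 + δ)) (hD : 2 * (p ^ 2 * (1 - δ) - τ) * s ≤ DEC') :
    (W - s) * (s * (1 / q ^ 2 - 1 / p ^ 2) - Δ) - DEC' / q ^ 2 ≤ 0 := by
  have hD' : 2 * (p ^ 2 * (1 - bar η p) - τ) * s ≤ DEC' := by rw [← h.hδe]; exact hD
  have hs2' : s ≤ p ^ 2 * (1 + bar η p) := by rw [← h.hδe]; exact hs2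
  have h1 := h.hOK.drift_up h.W1 h.W2 (h.s0 hs1) hs2' hD'
  have h2 : p - (p - q) = q := by ring
  rw [h2] at h1
  rw [h.hΔe]
  exact h1

theorem realD2 (h : Cm η g p q δ Δ τ M W) (hs1 : p ^ 2 * (1 - δ) ≤ s)
    (hs2 : s ≤ p ^ 2 * (1 + δ)) (hD : DEC' ≤ 2 * (p ^ 2 * (1 + δ)) * s) :
    (W - s) * (-(s * (1 / q ^ 2 - 1 / p ^ 2)) - Δ) + DEC' / q ^ 2 ≤ 0 := by
  have hD' : DEC' ≤ 2 * (p ^ 2 * (1 + bar η p)) * s := by rw [← h.hδe]; exact hD
  have hs2' : s ≤ p ^ 2 * (1 + bar η p) := by rw [← h.hδe]; exact hs2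
  have h1 := h.hOK.drift_down h.W1 (h.s0 hs1) hs2' hD'
  have h2 : p - (p - q) = q := by ring
  rw [h2] at h1
  rw [h.hΔe]
  have h3 : -(s * (1 / q ^ 2 - 1 / p ^ 2)) = s * (1 / p ^ 2 - 1 / q ^ 2) := by ring
  rw [h3]
  exact h1

theorem realD3 (h : Cm η g p q δ Δ τ M W) (hm : 0 < m) (hx0 : 0 ≤ x)
    (hx : x ≤ p * m * (1 + δ)) (hY : x * (p ^ 2 * (1 - δ)) ≤ Y) :
    W * ((x / q - x / p) / m - Δ) - Y / (q * m) ≤ 0 := by
  have hY' : x * (p ^ 2 * (1 - bar η p)) ≤ Y := by rw [← h.hδe]; exact hY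
  have hx' : x ≤ (1 + bar η p) * p * m := by rw [← h.hδe]; linarith
  have h1 := h.hOK.drift_set h.W1 h.W2 hm hx0 hx' hY'
  have h2 : p - (p - q) = q := by ring
  rw [h2] at h1
  rw [h.hΔe]
  have hq := h.hq0
  have hp := h.hp0
  have h3 : (x / q - x / p) / m = x * (1 / (q * m) - 1 / (p * m)) := by
    field_simp
  rw [h3]
  exact h1

theorem realB1 (h : Cm η g p q δ Δ τ M W) (hs1 : p ^ 2 * (1 - δ) ≤ s)
    (hs2 : s ≤ p ^ 2 * (1 + δ)) (hd0 : 0 ≤ dec) (hd : dec ≤ 3 * τ) :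
    |s * (1 / q ^ 2 - 1 / p ^ 2) - dec / q ^ 2 - Δ| ≤ (6 * (p - q) + 3 * τ) / g ^ 2 :=
  gr_B1 h.hg h.hgq h.hqp h.hp1 h.hδ (h.s0 hs1) hs2 h.hΔ0 h.hΔ3 hd0 hd

theorem realB2 (h : Cm η g p q δ Δ τ M W) (hs1 : p ^ 2 * (1 - δ) ≤ s)
    (hs2 : s ≤ p ^ 2 * (1 + δ)) (hd0 : 0 ≤ dec) (hd : dec ≤ 3 * τ) :
    |-(s * (1 / q ^ 2 - 1 / p ^ 2)) + dec / q ^ 2 - Δ| ≤ (6 * (p - q) + 3 * τ) / g ^ 2 := by
  obtain ⟨h1, h2⟩ := gr_main h.hg h.hgq h.hqp h.hp1 h.hδ (h.s0 hs1) hs2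
  have h3 := gr_Delta h.hg h.hgq h.hqp h.hp1 h.hΔ3
  have hq := h.hq0
  have hg := h.hg
  have hΔ0 := h.hΔ0
  have h4 : 0 ≤ (p - q) / g ^ 2 := by
    have : 0 ≤ p - q := h.hOK.θ0.le
    positivity
  have h6 : g ^ 2 ≤ q ^ 2 := pow_le_pow_left₀ hg.le h.hgq 2
  have h5 : dec / q ^ 2 ≤ 3 * τ / g ^ 2 := by
    have : 0 ≤ 3 * τ := hd0.trans hd
    gcongr
  have h7 : 0 ≤ dec / q ^ 2 := by positivity
  have h8 : 0 ≤ 3 * τ / g ^ 2 := h7.trans h5
  have e1 : 9 / 4 * (p - q) / g ^ 2 = 9 / 4 * ((p - q) / g ^ 2) := by ring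
  have e2 : 3 * (p - q) / g ^ 2 = 3 * ((p - q) / g ^ 2) := by ring
  have e3 : (6 * (p - q) + 3 * τ) / g ^ 2 = 6 * ((p - q) / g ^ 2) + 3 * τ / g ^ 2 := by ring
  rw [e1] at h2; rw [e2] at h3; rw [e3]
  rw [abs_le]
  constructor <;> linarith

theorem realB3 (h : Cm η g p q δ Δ τ M W) (hm : 0 < m) (hm1 : 1 ≤ τ * m) (hx0 : 0 ≤ x)
    (hx : x ≤ p * m * (1 + δ)) (hk0 : 0 ≤ k) (hk : k ≤ 3) :
    |(x / q - x / p) / m - k / (q * m) - Δ| ≤ (6 * (p - q) + 3 * τ) / g ^ 2 :=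
  gr_B3 h.hg h.hgq h.hqp h.hp1 h.hδ hm hx0 hx h.hΔ0 h.hΔ3 hm1 hk0 hk

theorem realA1 (h : Cm η g p q δ Δ τ M W) (hs1 : p ^ 2 * (1 - δ) ≤ s)
    (hs2 : s ≤ p ^ 2 * (1 + δ)) :
    |s * (1 / q ^ 2 - 1 / p ^ 2) - Δ| ≤ 6 * (p - q) / g ^ 2 :=
  gr_A1 h.hg h.hgq h.hqp h.hp1 h.hδ (h.s0 hs1) hs2 h.hΔ0 h.hΔ3

theorem realA2 (h : Cm η g p q δ Δ τ M W) (hs1 : p ^ 2 * (1 - δ) ≤ s)
    (hs2 : s ≤ p ^ 2 * (1 + δ)) :
    |-(s * (1 / q ^ 2 - 1 / p ^ 2)) - Δ| ≤ 6 * (p - q) / g ^ 2 := by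
  obtain ⟨h1, h2⟩ := gr_main h.hg h.hgq h.hqp h.hp1 h.hδ (h.s0 hs1) hs2
  have h3 := gr_Delta h.hg h.hgq h.hqp h.hp1 h.hΔ3
  have hg := h.hg
  have hΔ0 := h.hΔ0
  have h4 : 0 ≤ (p - q) / g ^ 2 := by
    have : 0 ≤ p - q := h.hOK.θ0.le
    positivity
  have e1 : 9 / 4 * (p - q) / g ^ 2 = 9 / 4 * ((p - q) / g ^ 2) := by ring
  have e2 : 3 * (p - q) / g ^ 2 = 3 * ((p - q) / g ^ 2) := by ring
  have e3 : 6 * (p - q) / g ^ 2 = 6 * ((p - q) / g ^ 2) := by ring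
  rw [e1] at h2; rw [e2] at h3; rw [e3]
  rw [abs_le]
  constructor <;> linarith

theorem realA3 (h : Cm η g p q δ Δ τ M W) (hm : 0 < m) (hx0 : 0 ≤ x)
    (hx : x ≤ p * m * (1 + δ)) :
    |(x / q - x / p) / m - Δ| ≤ 6 * (p - q) / g ^ 2 :=
  gr_A3 h.hg h.hgq h.hqp h.hp1 h.hδ hm hx0 hx h.hΔ0 h.hΔ3

theorem realV1 (h : Cm η g p q δ Δ τ M W) (hs2 : s ≤ p ^ 2 * (1 + δ))
    (hD : DEC' ≤ 2 * (p ^ 2 * (1 + δ)) * s) :
    (3 * τ / g ^ 2) * (DEC' / q ^ 2) ≤ (12 * τ * (p - q) / g ^ 4) * W :=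
  gr_V1 h.hg h.hgq h.hqp h.hp1 h.hδ0.le h.hδ h.hτ0 hs2 h.hM h.hW1 hD

theorem realV3 (h : Cm η g p q δ Δ τ M W) (hm : 0 < m)
    (hx : x ≤ p * m * (1 + δ)) (hY : Y ≤ x * (p ^ 2 * (1 + δ))) :
    (3 * τ / g) * (Y / (q * m)) ≤ (12 * τ * (p - q) / g ^ 4) * W :=
  gr_V3 h.hg h.hgq h.hqp h.hp1 h.hδ0.le h.hδ h.hτ0 hm hx h.hM h.hW1 hY

end Real

/-! ### the three kinds of terms -/

section Step

variable {E : Type*} [DecidableEq E] {C : Finset (Finset E)} {w : Finset E → ℝ}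
variable {H : Finset E} {τ η g p q δ Δ M lam : ℝ}

theorem up_term (hC : ∀ T ∈ C, T.card = 3)
    (hlin : ∀ T ∈ C, ∀ T' ∈ C, T ≠ T' → (T ∩ T').card ≤ 1)
    (hw : ∀ T ∈ C, 0 ≤ w T ∧ w T ≤ τ) (h : Cm η g p q δ Δ τ M (wt C w H))
    (hsw : ∀ f ∈ H, p ^ 2 * (1 - δ) ≤ sw C w H f ∧ sw C w H f ≤ p ^ 2 * (1 + δ))
    (hlam : 0 ≤ lam) (hlam1 : lam * ((6 * (p - q) + 3 * τ) / g ^ 2) ≤ 1)
    {e : E} (he : e ∈ H) :
    ∑ T ∈ alive C H, w T * (if e ∈ T then 0 else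
        Real.exp (lam * (sw C w (H \ T) e / q ^ 2 - 1 - (δ + Δ)))) ≤
      (1 + lam ^ 2 * (2 * (6 * (p - q) / g ^ 2) ^ 2 + 2 * (12 * τ * (p - q) / g ^ 4))) *
        (Real.exp (lam * (sw C w H e / p ^ 2 - 1 - δ)) * wt C w H) := by
  have hw0 : ∀ T ∈ C, 0 ≤ w T := fun T hT => (hw T hT).1
  have hq : 0 < q := h.hg.trans_le h.hgq
  have hp : 0 < p := hq.trans h.hqp
  obtain ⟨hs1, hs2⟩ := hsw e he
  set s := sw C w H e with hs
  have hom : ∀ T ∈ alive C H, 0 ≤ w T := fun T hT => hw0 T (mem_alive.1 hT).1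
  have hDle := DEC_le hlin hC hw0 (fun f hf => (hsw f hf).2) e
  have hDge := le_DEC hlin hC hw (fun f hf => (hsw f hf).1) e
  have hkey := term_le (alive C H) w (fun T => if e ∈ T then (0 : ℝ) else 1)
    (fun T => -((s - sw C w (H \ T) e) / q ^ 2)) (s / p ^ 2 - 1 - δ)
    (s * (1 / q ^ 2 - 1 / p ^ 2) - Δ) ((6 * (p - q) + 3 * τ) / g ^ 2)
    ((6 * (p - q) / g ^ 2) ^ 2) (12 * τ * (p - q) / g ^ 4) lam hom
    (fun T _ => by positivity) (fun T _ => by split_ifs <;> norm_num) hlam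
    (by
      intro T hT hne
      have heT : e ∉ T := by
        intro h'; exact hne (if_pos h')
      have h1 := dec_nonneg (H := H) hw0 T e
      have h2 := dec_le (H := H) hlin hC hw h.hτ0 (mem_alive.1 hT).1 heT
      have := realB1 h hs1 hs2 h1 h2
      have e1 : s * (1 / q ^ 2 - 1 / p ^ 2) - Δ + -((s - sw C w (H \ T) e) / q ^ 2) =
        s * (1 / q ^ 2 - 1 / p ^ 2) - (s - sw C w (H \ T) e) / q ^ 2 - Δ := by ring
      rw [e1]; exact this)
    hlam1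
    (by
      have e1 : ∑ T ∈ alive C H, w T * (if e ∈ T then (0 : ℝ) else 1) = wt C w H - s := by
        rw [hs, ← sum_not_mem e, Finset.sum_filter]
        refine Finset.sum_congr rfl fun T _ => ?_
        by_cases h' : e ∈ T <;> simp [h']
      have e2 : ∑ T ∈ alive C H, w T * (if e ∈ T then (0 : ℝ) else 1) *
          -((s - sw C w (H \ T) e) / q ^ 2) = -(DEC C w H e / q ^ 2) := by
        rw [DEC, Finset.sum_filter, Finset.sum_div, ← Finset.sum_neg_distrib]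
        refine Finset.sum_congr rfl fun T _ => ?_
        by_cases h' : e ∈ T
        · simp [h']
        · simp only [h', if_false, not_false_eq_true, if_true]; ring
      rw [e1, e2]
      have := realD1 h hs1 hs2 hDge
      linarith [mul_comm (s * (1 / q ^ 2 - 1 / p ^ 2) - Δ) (wt C w H - s)])
    (by
      have h2 := pow_le_pow_left₀ (abs_nonneg _) (realA1 h hs1 hs2) 2
      rwa [sq_abs] at h2)
    (by
      have e2 : ∀ T ∈ alive C H, w T * (if e ∈ T then (0 : ℝ) else 1) *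
          (-((s - sw C w (H \ T) e) / q ^ 2)) ^ 2 ≤
            (3 * τ / g ^ 2) * ((if e ∉ T then w T * (s - sw C w (H \ T) e) else 0) / q ^ 2) := by
        intro T hT
        by_cases h' : e ∈ T
        · simp [h']
        · simp only [h', if_false, not_false_eq_true, if_true]
          have h1 := dec_nonneg (H := H) hw0 T e
          have h2 := dec_le (H := H) hlin hC hw h.hτ0 (mem_alive.1 hT).1 h'
          have h3 := hom T hT
          have h4 : (s - sw C w (H \ T) e) / q ^ 2 ≤ 3 * τ / g ^ 2 := by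
            have := h.hτ0
            have h5 : g ^ 2 ≤ q ^ 2 := pow_le_pow_left₀ h.hg.le h.hgq 2
            have := h.hg
            gcongr
          have h5 : 0 ≤ (s - sw C w (H \ T) e) / q ^ 2 := div_nonneg h1 (by positivity)
          calc w T * 1 * (-((s - sw C w (H \ T) e) / q ^ 2)) ^ 2
              = w T * (((s - sw C w (H \ T) e) / q ^ 2) * ((s - sw C w (H \ T) e) / q ^ 2)) := by
                ring
            _ ≤ w T * ((3 * τ / g ^ 2) * ((s - sw C w (H \ T) e) / q ^ 2)) := by gcongr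
            _ = _ := by ring
      refine (Finset.sum_le_sum e2).trans ?_
      rw [← Finset.mul_sum, ← Finset.sum_div, ← Finset.sum_filter]
      exact realV1 h hs2 hDle)
  refine le_trans (le_of_eq ?_) hkey
  refine Finset.sum_congr rfl fun T _ => ?_
  by_cases h' : e ∈ T
  · simp [h']
  · simp only [h', if_false, one_mul]
    congr 2
    rw [add_comm δ Δ]
    have : s / p ^ 2 - 1 - δ + (s * (1 / q ^ 2 - 1 / p ^ 2) - Δ +
        -((s - sw C w (H \ T) e) / q ^ 2)) = sw C w (H \ T) e / q ^ 2 - 1 - (Δ + δ) := by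
      field_simp
      ring
    rw [this]

theorem lo_term (hC : ∀ T ∈ C, T.card = 3)
    (hlin : ∀ T ∈ C, ∀ T' ∈ C, T ≠ T' → (T ∩ T').card ≤ 1)
    (hw : ∀ T ∈ C, 0 ≤ w T ∧ w T ≤ τ) (h : Cm η g p q δ Δ τ M (wt C w H))
    (hsw : ∀ f ∈ H, p ^ 2 * (1 - δ) ≤ sw C w H f ∧ sw C w H f ≤ p ^ 2 * (1 + δ))
    (hlam : 0 ≤ lam) (hlam1 : lam * ((6 * (p - q) + 3 * τ) / g ^ 2) ≤ 1)
    {e : E} (he : e ∈ H) :
    ∑ T ∈ alive C H, w T * (if e ∈ T then 0 else
        Real.exp (lam * (1 - (δ + Δ) - sw C w (H \ T) e / q ^ 2))) ≤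
      (1 + lam ^ 2 * (2 * (6 * (p - q) / g ^ 2) ^ 2 + 2 * (12 * τ * (p - q) / g ^ 4))) *
        (Real.exp (lam * (1 - δ - sw C w H e / p ^ 2)) * wt C w H) := by
  have hw0 : ∀ T ∈ C, 0 ≤ w T := fun T hT => (hw T hT).1
  have hq : 0 < q := h.hg.trans_le h.hgq
  have hp : 0 < p := hq.trans h.hqp
  obtain ⟨hs1, hs2⟩ := hsw e he
  set s := sw C w H e with hs
  have hom : ∀ T ∈ alive C H, 0 ≤ w T := fun T hT => hw0 T (mem_alive.1 hT).1
  have hDle := DEC_le hlin hC hw0 (fun f hf => (hsw f hf).2) e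
  have hDge := le_DEC hlin hC hw (fun f hf => (hsw f hf).1) e
  have hkey := term_le (alive C H) w (fun T => if e ∈ T then (0 : ℝ) else 1)
    (fun T => (s - sw C w (H \ T) e) / q ^ 2) (1 - δ - s / p ^ 2)
    (-(s * (1 / q ^ 2 - 1 / p ^ 2)) - Δ) ((6 * (p - q) + 3 * τ) / g ^ 2)
    ((6 * (p - q) / g ^ 2) ^ 2) (12 * τ * (p - q) / g ^ 4) lam hom
    (fun T _ => by positivity) (fun T _ => by split_ifs <;> norm_num) hlam
    (by
      intro T hT hne
      have heT : e ∉ T := by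
        intro h'; exact hne (if_pos h')
      have h1 := dec_nonneg (H := H) hw0 T e
      have h2 := dec_le (H := H) hlin hC hw h.hτ0 (mem_alive.1 hT).1 heT
      have := realB2 h hs1 hs2 h1 h2
      have e1 : -(s * (1 / q ^ 2 - 1 / p ^ 2)) - Δ + (s - sw C w (H \ T) e) / q ^ 2 =
        -(s * (1 / q ^ 2 - 1 / p ^ 2)) + (s - sw C w (H \ T) e) / q ^ 2 - Δ := by ring
      rw [e1]; exact this)
    hlam1
    (by
      have e1 : ∑ T ∈ alive C H, w T * (if e ∈ T then (0 : ℝ) else 1) = wt C w H - s := by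
        rw [hs, ← sum_not_mem e, Finset.sum_filter]
        refine Finset.sum_congr rfl fun T _ => ?_
        by_cases h' : e ∈ T <;> simp [h']
      have e2 : ∑ T ∈ alive C H, w T * (if e ∈ T then (0 : ℝ) else 1) *
          ((s - sw C w (H \ T) e) / q ^ 2) = DEC C w H e / q ^ 2 := by
        rw [DEC, Finset.sum_filter, Finset.sum_div]
        refine Finset.sum_congr rfl fun T _ => ?_
        by_cases h' : e ∈ T
        · simp [h']
        · simp only [h', if_false, not_false_eq_true, if_true]; ring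
      rw [e1, e2]
      have := realD2 h hs1 hs2 hDle
      linarith [mul_comm (-(s * (1 / q ^ 2 - 1 / p ^ 2)) - Δ) (wt C w H - s)])
    (by
      have h2 := pow_le_pow_left₀ (abs_nonneg _) (realA2 h hs1 hs2) 2
      rwa [sq_abs] at h2)
    (by
      have e2 : ∀ T ∈ alive C H, w T * (if e ∈ T then (0 : ℝ) else 1) *
          ((s - sw C w (H \ T) e) / q ^ 2) ^ 2 ≤
            (3 * τ / g ^ 2) * ((if e ∉ T then w T * (s - sw C w (H \ T) e) else 0) / q ^ 2) := by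
        intro T hT
        by_cases h' : e ∈ T
        · simp [h']
        · simp only [h', if_false, not_false_eq_true, if_true]
          have h1 := dec_nonneg (H := H) hw0 T e
          have h2 := dec_le (H := H) hlin hC hw h.hτ0 (mem_alive.1 hT).1 h'
          have h3 := hom T hT
          have h4 : (s - sw C w (H \ T) e) / q ^ 2 ≤ 3 * τ / g ^ 2 := by
            have := h.hτ0
            have h5 : g ^ 2 ≤ q ^ 2 := pow_le_pow_left₀ h.hg.le h.hgq 2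
            have := h.hg
            gcongr
          have h5 : 0 ≤ (s - sw C w (H \ T) e) / q ^ 2 := div_nonneg h1 (by positivity)
          calc w T * 1 * ((s - sw C w (H \ T) e) / q ^ 2) ^ 2
              = w T * (((s - sw C w (H \ T) e) / q ^ 2) * ((s - sw C w (H \ T) e) / q ^ 2)) := by
                ring
            _ ≤ w T * ((3 * τ / g ^ 2) * ((s - sw C w (H \ T) e) / q ^ 2)) := by gcongr
            _ = _ := by ring
      refine (Finset.sum_le_sum e2).trans ?_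
      rw [← Finset.mul_sum, ← Finset.sum_div, ← Finset.sum_filter]
      exact realV1 h hs2 hDle)
  refine le_trans (le_of_eq ?_) hkey
  refine Finset.sum_congr rfl fun T _ => ?_
  by_cases h' : e ∈ T
  · simp [h']
  · simp only [h', if_false, one_mul]
    have : 1 - δ - s / p ^ 2 + (-(s * (1 / q ^ 2 - 1 / p ^ 2)) - Δ +
        (s - sw C w (H \ T) e) / q ^ 2) = 1 - (δ + Δ) - sw C w (H \ T) e / q ^ 2 := by
      field_simp
      ring
    rw [this]

theorem deg_term (hC : ∀ T ∈ C, T.card = 3)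
    (hw : ∀ T ∈ C, 0 ≤ w T ∧ w T ≤ τ) (h : Cm η g p q δ Δ τ M (wt C w H))
    (hsw : ∀ f ∈ H, p ^ 2 * (1 - δ) ≤ sw C w H f ∧ sw C w H f ≤ p ^ 2 * (1 + δ))
    (hlam : 0 ≤ lam) (hlam1 : lam * ((6 * (p - q) + 3 * τ) / g ^ 2) ≤ 1)
    (S : Finset E) {m : ℝ} (hm : 0 < m) (hm1 : 1 ≤ τ * m)
    (hx : ((S ∩ H).card : ℝ) ≤ p * m * (1 + δ)) :
    ∑ T ∈ alive C H, w T *
        Real.exp (lam * (((S ∩ (H \ T)).card : ℝ) / (q * m) - 1 - (δ + Δ))) ≤
      (1 + lam ^ 2 * (2 * (6 * (p - q) / g ^ 2) ^ 2 + 2 * (12 * τ * (p - q) / g ^ 4))) *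
        (Real.exp (lam * (((S ∩ H).card : ℝ) / (p * m) - 1 - δ)) * wt C w H) := by
  have hw0 : ∀ T ∈ C, 0 ≤ w T := fun T hT => (hw T hT).1
  have hq : 0 < q := h.hg.trans_le h.hgq
  have hp : 0 < p := hq.trans h.hqp
  have hom : ∀ T ∈ alive C H, 0 ≤ w T := fun T hT => hw0 T (mem_alive.1 hT).1
  set x : ℝ := ((S ∩ H).card : ℝ) with hxd
  have hx0 : 0 ≤ x := Nat.cast_nonneg _
  have hY1 : x * (p ^ 2 * (1 - δ)) ≤ ∑ f ∈ S ∩ H, sw C w H f := by
    have := Finset.card_nsmul_le_sum (S ∩ H) (fun f => sw C w H f) (p ^ 2 * (1 - δ))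
      (fun f hf => (hsw f (Finset.mem_inter.1 hf).2).1)
    rwa [nsmul_eq_mul] at this
  have hY2 : ∑ f ∈ S ∩ H, sw C w H f ≤ x * (p ^ 2 * (1 + δ)) := by
    have := Finset.sum_le_card_nsmul (S ∩ H) (fun f => sw C w H f) (p ^ 2 * (1 + δ))
      (fun f hf => (hsw f (Finset.mem_inter.1 hf).2).2)
    rwa [nsmul_eq_mul] at this
  have hkey := term_le (alive C H) w (fun _ => (1 : ℝ))
    (fun T => -(((S ∩ T).card : ℝ) / (q * m))) (x / (p * m) - 1 - δ)
    ((x / q - x / p) / m - Δ) ((6 * (p - q) + 3 * τ) / g ^ 2)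
    ((6 * (p - q) / g ^ 2) ^ 2) (12 * τ * (p - q) / g ^ 4) lam hom
    (fun T _ => by positivity) (fun T _ => le_refl _) hlam
    (by
      intro T hT _
      have h1 : (0 : ℝ) ≤ ((S ∩ T).card : ℝ) := Nat.cast_nonneg _
      have h2 := card_inter_le hC S (mem_alive.1 hT).1
      have := realB3 h hm hm1 hx0 hx h1 h2
      have e1 : (x / q - x / p) / m - Δ + -(((S ∩ T).card : ℝ) / (q * m)) =
        (x / q - x / p) / m - ((S ∩ T).card : ℝ) / (q * m) - Δ := by ring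
      rw [e1]; exact this)
    hlam1
    (by
      have e1 : ∑ T ∈ alive C H, w T * (1 : ℝ) = wt C w H := by
        rw [wt]; exact Finset.sum_congr rfl fun T _ => mul_one _
      have e2 : ∑ T ∈ alive C H, w T * (1 : ℝ) * -(((S ∩ T).card : ℝ) / (q * m)) =
          -((∑ f ∈ S ∩ H, sw C w H f) / (q * m)) := by
        rw [← sum_card_inter S, Finset.sum_div, ← Finset.sum_neg_distrib]
        exact Finset.sum_congr rfl fun T _ => by ring
      rw [e1, e2]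
      have := realD3 h hm hx0 hx hY1
      linarith [mul_comm ((x / q - x / p) / m - Δ) (wt C w H)])
    (by
      have h2 := pow_le_pow_left₀ (abs_nonneg _) (realA3 h hm hx0 hx) 2
      rwa [sq_abs] at h2)
    (by
      have e2 : ∀ T ∈ alive C H, w T * (1 : ℝ) * (-(((S ∩ T).card : ℝ) / (q * m))) ^ 2 ≤
            (3 * τ / g) * ((w T * ((S ∩ T).card : ℝ)) / (q * m)) := by
        intro T hT
        have h1 : (0 : ℝ) ≤ ((S ∩ T).card : ℝ) := Nat.cast_nonneg _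
        have h2 := card_inter_le hC S (mem_alive.1 hT).1
        have h3 := hom T hT
        have h4 : ((S ∩ T).card : ℝ) / (q * m) ≤ 3 * τ / g := by
          rw [div_le_div_iff₀ (mul_pos hq hm) h.hg]
          have h6 : g ≤ q * (τ * m) := by
            have := mul_le_mul_of_nonneg_left hm1 hq.le
            linarith [h.hgq]
          nlinarith [mul_le_mul_of_nonneg_right h2 h.hg.le]
        have h5 : 0 ≤ ((S ∩ T).card : ℝ) / (q * m) := div_nonneg h1 (by positivity)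
        calc w T * (1 : ℝ) * (-(((S ∩ T).card : ℝ) / (q * m))) ^ 2
            = w T * ((((S ∩ T).card : ℝ) / (q * m)) * (((S ∩ T).card : ℝ) / (q * m))) := by
              ring
          _ ≤ w T * ((3 * τ / g) * (((S ∩ T).card : ℝ) / (q * m))) := by gcongr
          _ = _ := by ring
      refine (Finset.sum_le_sum e2).trans ?_
      rw [← Finset.mul_sum, ← Finset.sum_div, sum_card_inter]
      exact realV3 h hm hx hY2)
  refine le_trans (le_of_eq ?_) hkey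
  refine Finset.sum_congr rfl fun T hT => ?_
  have hcard : ((S ∩ (H \ T)).card : ℝ) = x - ((S ∩ T).card : ℝ) := by
    have h1 : S ∩ (H \ T) = (S ∩ H) \ (S ∩ T) := by
      ext f
      simp only [Finset.mem_inter, Finset.mem_sdiff]
      tauto
    have h2 : S ∩ T ⊆ S ∩ H := Finset.inter_subset_inter_left (mem_alive.1 hT).2
    rw [h1, Finset.card_sdiff_of_subset h2, Nat.cast_sub (Finset.card_le_card h2)]
  rw [one_mul, hcard]
  have : x / (p * m) - 1 - δ + ((x / q - x / p) / m - Δ + -(((S ∩ T).card : ℝ) / (q * m))) =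
      (x - ((S ∩ T).card : ℝ)) / (q * m) - 1 - (δ + Δ) := by
    field_simp
    ring
  rw [this]

/-! ### the potential and the step -/

/-- the potential -/
noncomputable def Pot {J : Type*} [Fintype J] (C : Finset (Finset E)) (w : Finset E → ℝ)
    (S : J → Finset E) (m : J → ℝ) (lam : ℝ) (H : Finset E) (p δ : ℝ) : ℝ :=
  ∑ e ∈ H, Real.exp (lam * (sw C w H e / p ^ 2 - 1 - δ)) +
    ∑ e ∈ H, Real.exp (lam * (1 - δ - sw C w H e / p ^ 2)) +
    ∑ j, Real.exp (lam * (((S j ∩ H).card : ℝ) / (p * m j) - 1 - δ))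

variable {J : Type*} [Fintype J] {S : J → Finset E} {m : J → ℝ}

theorem Pot_bounds (hlam : 0 < lam) (hp : 0 < p) (hm : ∀ j, 0 < m j)
    (hPot : Pot C w S m lam H p δ < 1) :
    (∀ f ∈ H, p ^ 2 * (1 - δ) ≤ sw C w H f ∧ sw C w H f ≤ p ^ 2 * (1 + δ)) ∧
      ∀ j, ((S j ∩ H).card : ℝ) ≤ p * m j * (1 + δ) := by
  have h1 : 0 ≤ ∑ e ∈ H, Real.exp (lam * (sw C w H e / p ^ 2 - 1 - δ)) :=
    Finset.sum_nonneg fun _ _ => (Real.exp_pos _).le
  have h2 : 0 ≤ ∑ e ∈ H, Real.exp (lam * (1 - δ - sw C w H e / p ^ 2)) :=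
    Finset.sum_nonneg fun _ _ => (Real.exp_pos _).le
  have h3 : 0 ≤ ∑ j, Real.exp (lam * (((S j ∩ H).card : ℝ) / (p * m j) - 1 - δ)) :=
    Finset.sum_nonneg fun _ _ => (Real.exp_pos _).le
  have key : ∀ y : ℝ, Real.exp (lam * y) < 1 → y ≤ 0 := by
    intro y hy
    by_contra hc
    push Not at hc
    have := Real.one_lt_exp_iff.2 (mul_pos hlam hc)
    linarith
  unfold Pot at hPot
  refine ⟨fun f hf => ⟨?_, ?_⟩, fun j => ?_⟩
  · have h4 := Finset.single_le_sum (f := fun e => Real.exp (lam * (1 - δ - sw C w H e / p ^ 2)))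
      (fun _ _ => (Real.exp_pos _).le) hf
    have h5 := key (1 - δ - sw C w H f / p ^ 2) (by linarith)
    have h6 : 1 - δ ≤ sw C w H f / p ^ 2 := by linarith
    rw [le_div_iff₀ (by positivity)] at h6
    linarith
  · have h4 := Finset.single_le_sum (f := fun e => Real.exp (lam * (sw C w H e / p ^ 2 - 1 - δ)))
      (fun _ _ => (Real.exp_pos _).le) hf
    have h5 := key (sw C w H f / p ^ 2 - 1 - δ) (by linarith)
    have h6 : sw C w H f / p ^ 2 ≤ 1 + δ := by linarith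
    rw [div_le_iff₀ (by positivity)] at h6
    linarith
  · have h4 := Finset.single_le_sum (s := Finset.univ)
      (f := fun j => Real.exp (lam * (((S j ∩ H).card : ℝ) / (p * m j) - 1 - δ)))
      (fun _ _ => (Real.exp_pos _).le) (Finset.mem_univ j)
    have h5 := key (((S j ∩ H).card : ℝ) / (p * m j) - 1 - δ) (by linarith)
    have h6 : ((S j ∩ H).card : ℝ) / (p * m j) ≤ 1 + δ := by linarith
    rw [div_le_iff₀ (mul_pos hp (hm j))] at h6
    linarith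

/-- ONE STEP -/
theorem one_step {θ : ℝ} (hC : ∀ T ∈ C, T.card = 3)
    (hlin : ∀ T ∈ C, ∀ T' ∈ C, T ≠ T' → (T ∩ T').card ≤ 1)
    (hw : ∀ T ∈ C, 0 ≤ w T ∧ w T ≤ τ) (hm : ∀ j, 0 < m j) (hm1 : ∀ j, 1 ≤ τ * m j)
    (hH : (H.card : ℝ) = p * M) (hOK : StepOK g η p θ τ) (hM : M * θ = 3)
    (hlam : 0 < lam) (hlam1 : lam * ((6 * θ + 3 * τ) / g ^ 2) ≤ 1)
    (hPot : Pot C w S m lam H p (bar η p) < 1) :
    ∃ T ∈ alive C H, Pot C w S m lam (H \ T) (p - θ) (bar η (p - θ)) ≤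
      (1 + lam ^ 2 * (2 * (6 * θ / g ^ 2) ^ 2 + 2 * (12 * τ * θ / g ^ 4))) *
        Pot C w S m lam H p (bar η p) := by
  obtain ⟨q, rfl⟩ : ∃ q, θ = p - q := ⟨p - θ, by ring⟩
  have hqe : p - (p - q) = q := by ring
  rw [hqe]
  have hp : 0 < p := hOK.p0
  have hMpos : 0 < M := by
    have : 0 < M * (p - q) := by rw [hM]; norm_num
    exact (mul_pos_iff_of_pos_right hOK.θ0).1 this
  obtain ⟨hsw, hdg⟩ := Pot_bounds hlam hp hm hPot
  set δ := bar η p with hδ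
  set Δ := bar η q - bar η p with hΔ
  have hδΔ : bar η q = δ + Δ := by rw [hδ, hΔ]; ring
  rw [hδΔ]
  have hW := sum_sw (C := C) (w := w) (H := H) hC
  have hW1 : p * M * (p ^ 2 * (1 - δ)) ≤ 3 * wt C w H := by
    rw [← hW, ← hH]
    have := Finset.card_nsmul_le_sum H (fun f => sw C w H f) (p ^ 2 * (1 - δ))
      (fun f hf => (hsw f hf).1)
    rwa [nsmul_eq_mul] at this
  have hW2 : 3 * wt C w H ≤ p * M * (p ^ 2 * (1 + δ)) := by
    rw [← hW, ← hH]
    have := Finset.sum_le_card_nsmul H (fun f => sw C w H f) (p ^ 2 * (1 + δ))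
      (fun f hf => (hsw f hf).2)
    rwa [nsmul_eq_mul] at this
  have h : Cm η g p q δ Δ τ M (wt C w H) := ⟨hOK, hδ, hΔ, hM, hW1, hW2⟩
  have hWpos : 0 < wt C w H := by
    have : 0 < p * M * (p ^ 2 * (1 - δ)) := by
      have : 0 < 1 - δ := by linarith [h.hδ]
      positivity
    linarith
  set Q := 1 + lam ^ 2 * (2 * (6 * (p - q) / g ^ 2) ^ 2 + 2 * (12 * τ * (p - q) / g ^ 4)) with hQ
  have main : ∑ T ∈ alive C H, w T * Pot C w S m lam (H \ T) q (δ + Δ) ≤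
      (Q * Pot C w S m lam H p δ) * ∑ T ∈ alive C H, w T := by
    have e1 : ∀ T ∈ alive C H, w T * Pot C w S m lam (H \ T) q (δ + Δ) =
        ∑ e ∈ H, w T * (if e ∈ T then 0 else
          Real.exp (lam * (sw C w (H \ T) e / q ^ 2 - 1 - (δ + Δ)))) +
        ∑ e ∈ H, w T * (if e ∈ T then 0 else
          Real.exp (lam * (1 - (δ + Δ) - sw C w (H \ T) e / q ^ 2))) +
        ∑ j, w T * Real.exp (lam * (((S j ∩ (H \ T)).card : ℝ) / (q * m j) - 1 - (δ + Δ))) := by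
      intro T _
      unfold Pot
      rw [← Finset.mul_sum, ← Finset.mul_sum, ← Finset.mul_sum, ← mul_add, ← mul_add]
      congr 3
      · rw [Finset.sdiff_eq_filter, Finset.sum_filter]
        refine Finset.sum_congr rfl fun e _ => ?_
        by_cases h' : e ∈ T <;> simp [h']
      · rw [Finset.sdiff_eq_filter, Finset.sum_filter]
        refine Finset.sum_congr rfl fun e _ => ?_
        by_cases h' : e ∈ T <;> simp [h']
    rw [Finset.sum_congr rfl e1, Finset.sum_add_distrib, Finset.sum_add_distrib]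
    have a1 := Finset.sum_le_sum fun e (he : e ∈ H) =>
      up_term hC hlin hw h hsw hlam.le hlam1 he
    have a2 := Finset.sum_le_sum fun e (he : e ∈ H) =>
      lo_term hC hlin hw h hsw hlam.le hlam1 he
    have a3 := Finset.sum_le_sum fun j (_ : j ∈ (Finset.univ : Finset J)) =>
      deg_term hC hw h hsw hlam.le hlam1 (S j) (hm j) (hm1 j) (hdg j)
    rw [← Finset.mul_sum, ← Finset.sum_mul] at a1 a2 a3
    have : (Q * Pot C w S m lam H p δ) * ∑ T ∈ alive C H, w T =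
        Q * ((∑ e ∈ H, Real.exp (lam * (sw C w H e / p ^ 2 - 1 - δ))) * wt C w H) +
        Q * ((∑ e ∈ H, Real.exp (lam * (1 - δ - sw C w H e / p ^ 2))) * wt C w H) +
        Q * ((∑ j, Real.exp (lam * (((S j ∩ H).card : ℝ) / (p * m j) - 1 - δ))) *
          wt C w H) := by
      unfold Pot
      rw [wt]
      ring
    rw [this]
    refine add_le_add (add_le_add ?_ ?_) ?_
    · rw [Finset.sum_comm]; exact a1
    · rw [Finset.sum_comm]; exact a2
    · rw [Finset.sum_comm]; exact a3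
  obtain ⟨T, hT, _, hT2⟩ := exists_le_avg (alive C H) w
    (fun T => Pot C w S m lam (H \ T) q (δ + Δ)) (Q * Pot C w S m lam H p δ)
    (fun T hT => (hw T (mem_alive.1 hT).1).1) hWpos main
  exact ⟨T, hT, hT2⟩

end Step

end NW
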