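import Pool.Agent.NW.Conc
import Pool.Agent.NW.Statements

/-!
# Project NW, T3: one random colouring splits a small family evenly
-/

set_option autoImplicit false
set_option linter.unusedSectionVars false

namespace NW

open Finset NWC

/-- For `n` large, `2 C K n exp (- sqrt n / 2) < 1`. -/
theorem split_numeric (K : ℕ) (C : ℝ) : ∃ n0 : ℕ, ∀ n : ℕ, n0 ≤ n → ∀ N : ℝ,
    N ≤ C * (n : ℝ) → 0 ≤ N →
    0 < n ∧ N * (K : ℝ) * (2 * Real.exp (-(Real.sqrt n / 2))) < 1 := by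
  obtain ⟨n0, hn0⟩ := exists_nat_gt ((96 * (|C| + 1) * ((K : ℝ) + 1)) ^ 2)
  refine ⟨n0 + 1, fun n hn N hN hN0 => ?_⟩
  have hnpos : 0 < n := by omega
  refine ⟨hnpos, ?_⟩
  have hK : (0 : ℝ) ≤ K := Nat.cast_nonneg K
  have hC : (0 : ℝ) ≤ |C| := abs_nonneg C
  have hnn : ((n0 : ℕ) : ℝ) ≤ (n : ℝ) := by exact_mod_cast (by omega : n0 ≤ n)
  have hnp : (0 : ℝ) < n := by exact_mod_cast hnpos
  set y : ℝ := Real.sqrt n / 2 with hy
  have hsq : Real.sqrt n ^ 2 = n := Real.sq_sqrt hnp.le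
  have hn4 : (n : ℝ) = 4 * y ^ 2 := by
    rw [hy]
    linarith [hsq, show 4 * (Real.sqrt n / 2) ^ 2 = Real.sqrt n ^ 2 by ring]
  have hbig : 96 * (|C| + 1) * ((K : ℝ) + 1) < Real.sqrt n := by
    refine Real.lt_sqrt_of_sq_lt ?_
    linarith
  have hy0 : 48 * (|C| + 1) * ((K : ℝ) + 1) < y := by
    rw [hy]
    linarith
  have hypos : 0 < y := lt_of_le_of_lt (by positivity) hy0
  have hexp : y ^ 3 / 6 ≤ Real.exp y := by
    have := Real.pow_div_factorial_le_exp y hypos.le 3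
    simpa [Nat.factorial] using this
  have hN1 : N ≤ |C| * (4 * y ^ 2) := by
    rw [← hn4]
    exact hN.trans (mul_le_mul_of_nonneg_right (le_abs_self C) hnp.le)
  have h1 : N * (K : ℝ) * 2 < Real.exp y := by
    refine lt_of_lt_of_le ?_ hexp
    have h2 : N * (K : ℝ) * 2 ≤ |C| * (4 * y ^ 2) * K * 2 := by gcongr
    refine lt_of_le_of_lt h2 ?_
    have h3 : |C| * K * 48 < y := by
      refine lt_of_le_of_lt ?_ hy0
      nlinarith
    have h4 : 0 < y ^ 2 := by positivity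
    have h5 := mul_lt_mul_of_pos_right h3 h4
    nlinarith
  have h6 : Real.exp (-y) * Real.exp y = 1 := by rw [← Real.exp_add]; simp
  have h7 := mul_lt_mul_of_pos_right h1 (Real.exp_pos (-y))
  rw [mul_comm (Real.exp y), h6] at h7
  calc N * (K : ℝ) * (2 * Real.exp (-y)) = N * K * 2 * Real.exp (-y) := by ring
    _ < 1 := h7

/-- T3: one random colouring splits every set of a small family evenly. -/
theorem split : SplitStatement := by
  intro K hK C
  obtain ⟨n0, hn0⟩ := split_numeric K C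
  refine ⟨n0, ?_⟩
  intro V _ U ι _ F hU hι
  classical
  have hKp : (0 : ℝ) < K := by exact_mod_cast hK
  have : Nonempty (Fin K) := ⟨⟨0, hK⟩⟩
  obtain ⟨hn, hlt⟩ := hn0 U.card hU (Fintype.card ι : ℝ) hι (Nat.cast_nonneg _)
  have hnp : (0 : ℝ) < (U.card : ℝ) := by exact_mod_cast hn
  set x : ℝ := (U.card : ℝ) ^ (3 / 4 : ℝ) with hx
  have hx0 : 0 ≤ x := Real.rpow_nonneg hnp.le _
  -- the product space of the colourings of `U`
  let p : ∀ _ : {v // v ∈ U}, Fin K → ℝ := fun _ => unifW (Fin K)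
  have hp : ∀ u : {v // v ∈ U}, PW (p u) := fun _ => pw_unif
  let s : ι → Finset {v // v ∈ U} := fun i => univ.filter (fun u => (u : V) ∈ F i)
  let X : Fin K → ∀ _ : {v // v ∈ U}, Fin K → ℝ := fun k _ a => if a = k then 1 else 0
  have hX0 : ∀ k u a, 0 ≤ X k u a := by
    intro k u a
    simp only [X]
    split_ifs <;> norm_num
  have hX1 : ∀ k u a, X k u a ≤ 1 := by
    intro k u a
    simp only [X]
    split_ifs <;> norm_num
  have hEX : ∀ k u, Ex (p u) (X k u) = 1 / (K : ℝ) := by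
    intro k u
    simp only [Ex, p, X, unifW, Fintype.card_fin, mul_ite, mul_one, mul_zero,
      Finset.sum_ite_eq', Finset.mem_univ, if_true]
  have hscard : ∀ i, (s i).card = (F i ∩ U).card := by
    intro i
    refine Finset.card_bij (fun u _ => (u : V)) ?_ ?_ ?_
    · intro u hu
      exact Finset.mem_inter.2 ⟨(Finset.mem_filter.1 hu).2, u.2⟩
    · intro u _ u' _ h
      exact Subtype.ext h
    · intro v hv
      obtain ⟨h1, h2⟩ := Finset.mem_inter.1 hv
      exact ⟨⟨v, h2⟩, Finset.mem_filter.2 ⟨Finset.mem_univ _, h1⟩, rfl⟩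
  have hsN : ∀ i, ((s i).card : ℝ) ≤ (U.card : ℝ) := by
    intro i
    rw [hscard i]
    exact_mod_cast Finset.card_le_card Finset.inter_subset_right
  have hmean : ∀ i k, ∑ u ∈ s i, Ex (p u) (X k u) = ((F i ∩ U).card : ℝ) / K := by
    intro i k
    rw [Finset.sum_congr rfl (fun u _ => hEX k u), Finset.sum_const, nsmul_eq_mul, hscard i]
    ring
  have hexpo : Real.exp (-(x ^ 2 / (2 * (U.card : ℝ)))) = Real.exp (-(Real.sqrt U.card / 2)) := by
    congr 2
    have h1 : x ^ 2 = (U.card : ℝ) * Real.sqrt U.card := by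
      rw [hx, Real.sqrt_eq_rpow, ← Real.rpow_natCast, ← Real.rpow_mul hnp.le]
      nth_rewrite 2 [← Real.rpow_one (U.card : ℝ)]
      rw [← Real.rpow_add hnp]
      norm_num
    rw [h1]
    field_simp
  -- the bad events
  let B : ι × Fin K → (∀ _ : {v // v ∈ U}, Fin K) → Prop := fun ik ω =>
    ((F ik.1 ∩ U).card : ℝ) / K + x ≤ ∑ u ∈ s ik.1, X ik.2 u (ω u) ∨
      ∑ u ∈ s ik.1, X ik.2 u (ω u) ≤ ((F ik.1 ∩ U).card : ℝ) / K - x
  have hB : ∀ ik ∈ (univ : Finset (ι × Fin K)),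
      Pr (prodW p) (B ik) ≤ 2 * Real.exp (-(Real.sqrt U.card / 2)) := by
    rintro ⟨i, k⟩ -
    have h1 := hoeffding_upper hp (s i) (X k) (hX0 k) (hX1 k) (U.card : ℝ) hnp (hsN i) x hx0
    have h2 := hoeffding_lower hp (s i) (X k) (hX0 k) (hX1 k) (U.card : ℝ) hnp (hsN i) x hx0
    rw [hmean i k, hexpo] at h1 h2
    refine (pr_or (pw_prod hp) _ _).trans ?_
    linarith
  obtain ⟨ω, -, hω⟩ := exists_avoid_card (pw_prod hp) univ B _ hB (by
    rw [Finset.card_univ, Fintype.card_prod, Fintype.card_fin, Nat.cast_mul]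
    exact hlt)
  refine ⟨fun v => if h : v ∈ U then ω ⟨v, h⟩ else ⟨0, hK⟩, fun i k => ?_⟩
  have hcard : ∑ u ∈ s i, X k u (ω u) =
      ((((F i ∩ U).filter (fun v => (if h : v ∈ U then ω ⟨v, h⟩ else ⟨0, hK⟩) = k)).card : ℕ) : ℝ) := by
    have h1 : ∑ u ∈ s i, X k u (ω u) = (((s i).filter (fun u => ω u = k)).card : ℝ) := by
      simp only [X]
      rw [Finset.sum_boole]
    rw [h1]
    congr 1
    refine Finset.card_bij (fun u _ => (u : V)) ?_ ?_ ?_
    · intro u hu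
      obtain ⟨h2, h3⟩ := Finset.mem_filter.1 hu
      refine Finset.mem_filter.2 ⟨Finset.mem_inter.2 ⟨(Finset.mem_filter.1 h2).2, u.2⟩, ?_⟩
      rw [dif_pos u.2]
      exact h3
    · intro u _ u' _ h
      exact Subtype.ext h
    · intro v hv
      obtain ⟨h2, h3⟩ := Finset.mem_filter.1 hv
      obtain ⟨h4, h5⟩ := Finset.mem_inter.1 h2
      rw [dif_pos h5] at h3
      exact ⟨⟨v, h5⟩, Finset.mem_filter.2 ⟨Finset.mem_filter.2 ⟨Finset.mem_univ _, h4⟩, h3⟩, rfl⟩
  have h1 := hω (i, k) (Finset.mem_univ _)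
  simp only [B, not_or, not_le] at h1
  rw [hcard] at h1
  rw [abs_le]
  constructor
  · linarith [h1.2]
  · linarith [h1.1]

end NW
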