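import Pool.Agent.NW.MatchLoop

/-!
# Project NW: perfect matchings in bipartite graphs

If `S` and `T` are disjoint sets of the same size and every vertex of `S` is joined to at least
half of `T` and every vertex of `T` to at least half of `S`, there is a perfect matching between
`S` and `T`, given as an involution.
-/

set_option linter.unusedSectionVars false

namespace NW

open Finset

variable {V : Type*} [DecidableEq V]

/-- Hall: an injection of `S` into `T` along the relation `R`. -/
theorem hall_half (S T : Finset V) (hcard : S.card = T.card) (R : V → V → Prop) [DecidableRel R]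
    (hsym : ∀ a b, R a b → R b a)
    (hS : ∀ a ∈ S, T.card ≤ 2 * (T.filter fun b => R a b).card)
    (hT : ∀ b ∈ T, S.card ≤ 2 * (S.filter fun a => R b a).card) :
    ∃ f : S → V, Function.Injective f ∧ ∀ a, f a ∈ T ∧ R a (f a) := by
  classical
  have hall : ∀ A : Finset S, A.card ≤ (A.biUnion fun a => T.filter fun b => R a b).card := by
    intro A
    rcases A.eq_empty_or_nonempty with rfl | ⟨a0, ha0⟩
    · simp
    set N := A.biUnion fun a => T.filter fun b => R (a : V) b with hN
    have hNT : N ⊆ T := by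
      intro b hb
      obtain ⟨a, _, h⟩ := Finset.mem_biUnion.1 hb
      exact (Finset.mem_filter.1 h).1
    have hAS : (A.map (Function.Embedding.subtype _)) ⊆ S := by
      intro x hx
      obtain ⟨a, _, rfl⟩ := Finset.mem_map.1 hx
      exact a.2
    have hAc : (A.map (Function.Embedding.subtype _)).card = A.card := Finset.card_map _
    by_cases hall : T ⊆ N
    · have h1 := Finset.card_le_card hall
      have h2 := Finset.card_le_card hAS
      omega
    · obtain ⟨b, hbT, hbN⟩ := Finset.not_subset.1 hall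
      have h1 : (S.filter fun a => R b a) ⊆ S \ A.map (Function.Embedding.subtype _) := by
        intro a ha
        have ha' := Finset.mem_filter.1 ha
        refine Finset.mem_sdiff.2 ⟨ha'.1, fun hc => ?_⟩
        obtain ⟨a', ha'A, rfl⟩ := Finset.mem_map.1 hc
        exact hbN (Finset.mem_biUnion.2 ⟨a', ha'A, Finset.mem_filter.2 ⟨hbT, hsym _ _ ha'.2⟩⟩)
      have h2 := Finset.card_le_card h1
      rw [Finset.card_sdiff_of_subset hAS, hAc] at h2
      have h3 := hT b hbT
      have h4 := Finset.card_le_card hAS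
      rw [hAc] at h4
      have h5 : (T.filter fun b => R (a0 : V) b) ⊆ N := by
        intro x hx
        exact Finset.mem_biUnion.2 ⟨a0, ha0, hx⟩
      have h6 := Finset.card_le_card h5
      have h7 := hS a0 a0.2
      omega
  obtain ⟨f, hf1, hf2⟩ := (Finset.all_card_le_biUnion_card_iff_exists_injective _).1 hall
  exact ⟨f, hf1, fun a => Finset.mem_filter.1 (hf2 a)⟩

/-- **Bipartite perfect matching**, as an involution. -/
theorem perfMatchBip (S T : Finset V) (hST : Disjoint S T) (hcard : S.card = T.card)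
    (R : V → V → Prop) [DecidableRel R] (hsym : ∀ a b, R a b → R b a)
    (hS : ∀ a ∈ S, T.card ≤ 2 * (T.filter fun b => R a b).card)
    (hT : ∀ b ∈ T, S.card ≤ 2 * (S.filter fun a => R b a).card) :
    ∃ f : V → V, (∀ a, f (f a) = a) ∧ (∀ a, a ∉ S ∪ T → f a = a) ∧ (∀ a ∈ S, f a ∈ T) ∧
      (∀ b ∈ T, f b ∈ S) ∧ ∀ a ∈ S ∪ T, R a (f a) := by
  classical
  obtain ⟨h, hinj, hmem⟩ := hall_half S T hcard R hsym hS hT
  have himg : Finset.univ.image h = T := by
    apply Finset.eq_of_subset_of_card_le
    · intro b hb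
      obtain ⟨a, _, rfl⟩ := Finset.mem_image.1 hb
      exact (hmem a).1
    · rw [Finset.card_image_of_injective _ hinj, Finset.card_univ, Fintype.card_coe]
      exact hcard.ge
  have hsurj : ∀ b ∈ T, ∃ a : S, h a = b := by
    intro b hb
    rw [← himg] at hb
    obtain ⟨a, _, ha⟩ := Finset.mem_image.1 hb
    exact ⟨a, ha⟩
  -- the inverse
  let g : V → V := fun b => if hb : b ∈ T then ((hsurj b hb).choose : V) else b
  have hg : ∀ a : S, g (h a) = a := by
    intro a
    have h1 : g (h a) = ((hsurj (h a) (hmem a).1).choose : V) := by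
      simp only [g]
      rw [dif_pos (hmem a).1]
    rw [h1]
    exact congrArg Subtype.val (hinj (hsurj (h a) (hmem a).1).choose_spec)
  have hgS : ∀ b ∈ T, g b ∈ S := by
    intro b hb
    obtain ⟨a, rfl⟩ := hsurj b hb
    rw [hg]
    exact a.2
  let f : V → V := fun a => if ha : a ∈ S then h ⟨a, ha⟩ else g a
  have hfS : ∀ a (ha : a ∈ S), f a = h ⟨a, ha⟩ := fun a ha => dif_pos ha
  have hfn : ∀ a, a ∉ S → f a = g a := fun a ha => dif_neg ha
  have hTS : ∀ b ∈ T, b ∉ S := fun b hb hbS => Finset.disjoint_left.1 hST hbS hb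
  have hfT : ∀ b ∈ T, f b = g b := fun b hb => hfn b (hTS b hb)
  have hgn : ∀ b, b ∉ T → g b = b := fun b hb => dif_neg hb
  have hff : ∀ a (ha : a ∈ S), f (f a) = a := by
    intro a ha
    rw [hfS a ha, hfT _ (hmem _).1, hg]
  have hmapS : ∀ a ∈ S, f a ∈ T := by
    intro a ha
    rw [hfS a ha]
    exact (hmem _).1
  have hmapT : ∀ b ∈ T, f b ∈ S := by
    intro b hb
    rw [hfT b hb]
    exact hgS b hb
  refine ⟨f, ?_, ?_, hmapS, hmapT, ?_⟩
  · intro a
    by_cases ha : a ∈ S
    · exact hff a ha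
    by_cases ha' : a ∈ T
    · obtain ⟨x, rfl⟩ := hsurj a ha'
      have h1 : f (h x) = x := by rw [hfT _ ha', hg]
      rw [h1, hfS x x.2]
    · have h1 : f a = a := by rw [hfn a ha, hgn a ha']
      rw [h1, h1]
  · intro a ha
    rw [Finset.mem_union, not_or] at ha
    rw [hfn a ha.1, hgn a ha.2]
  · intro a ha
    rcases Finset.mem_union.1 ha with ha | ha
    · rw [hfS a ha]
      exact (hmem ⟨a, ha⟩).2
    · obtain ⟨x, rfl⟩ := hsurj a ha
      rw [hfT _ ha, hg]
      exact hsym _ _ (hmem x).2

/-- The bipartite perfect matching in the language of edge sets. -/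
theorem pm_bip (S T : Finset V) (hST : Disjoint S T) (hcard : S.card = T.card)
    (F : Finset (Sym2 V)) (hS : ∀ a ∈ S, T.card ≤ 2 * (T.filter fun b => s(a, b) ∈ F).card)
    (hT : ∀ b ∈ T, S.card ≤ 2 * (S.filter fun a => s(b, a) ∈ F).card) :
    ∃ f, PMOn (S ∪ T) F f ∧ (∀ a ∈ S, f a ∈ T) ∧ ∀ b ∈ T, f b ∈ S := by
  obtain ⟨f, h1, h2, h3, h4, h5⟩ := perfMatchBip S T hST hcard (fun a b => s(a, b) ∈ F)
    (fun a b h => by rw [Sym2.eq_swap]; exact h) hS hT
  exact ⟨f, ⟨h1, h2, h5⟩, h3, h4⟩

/-- The degree condition gives the perfect matchings (bipartite case): all edges of `K` go between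
`S` and `T`. -/
theorem pm_of_deg_bip [Fintype V] (S T : Finset V) (hST : Disjoint S T) (hcard : S.card = T.card)
    (K : Finset (Sym2 V))
    (hK : ∀ a b, s(a, b) ∈ K → (a ∈ S ∧ b ∈ T) ∨ (a ∈ T ∧ b ∈ S)) (t : ℕ)
    (hdeg : ∀ a ∈ S ∪ T, S.card + 2 * t ≤ 2 * deg K a)
    (F : Finset (Sym2 V)) (hF : F ⊆ K) (hFK : ∀ a ∈ S ∪ T, deg (K \ F) a ≤ t) :
    ∃ f, PMOn (S ∪ T) F f ∧ (∀ a ∈ S, f a ∈ T) ∧ ∀ b ∈ T, f b ∈ S := by
  classical
  have hd : ∀ a ∈ S ∪ T, S.card ≤ 2 * deg F a := by
    intro a ha
    have h1 := hdeg a ha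
    have h2 := hFK a ha
    have h3 := deg_sdiff_add hF a
    omega
  refine pm_bip S T hST hcard F ?_ ?_
  · intro a ha
    have h1 := hd a (Finset.mem_union_left _ ha)
    have h2 : deg F a ≤ (T.filter fun b => s(a, b) ∈ F).card := by
      refine Finset.card_le_card ?_
      intro u hu
      rw [mem_nbr] at hu
      rcases hK a u (hF hu) with h | h
      · exact Finset.mem_filter.2 ⟨h.2, hu⟩
      · exact absurd h.1 (Finset.disjoint_left.1 hST ha)
    omega
  · intro a ha
    have h1 := hd a (Finset.mem_union_right _ ha)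
    have h2 : deg F a ≤ (S.filter fun b => s(a, b) ∈ F).card := by
      refine Finset.card_le_card ?_
      intro u hu
      rw [mem_nbr] at hu
      rcases hK a u (hF hu) with h | h
      · exact absurd h.1 (Finset.disjoint_right.1 hST ha)
      · exact Finset.mem_filter.2 ⟨h.2, hu⟩
    omega

end NW
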