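import Mathlib

/-!
The projective plane of order `q` without its vertical line (and without the point at infinity of
the vertical lines): `q ^ 2 + q` points, `q ^ 2` lines, `q + 1` points on every line, `q` lines
through every point, two lines always meet, two points lie on at most one line.
-/

namespace NW

open Finset

/-- Points: affine points and the points at infinity of the non-vertical directions. -/
abbrev PlPoint (q : ℕ) : Type := (ZMod q × ZMod q) ⊕ ZMod q

/-- Lines `y = a x + b`, coded as `(a, b)`. -/
abbrev PlLine (q : ℕ) : Type := ZMod q × ZMod q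

/-- The point `p` lies on the line `l`. -/
def PlOn (q : ℕ) (p : PlPoint q) (l : PlLine q) : Prop :=
  Sum.elim (fun xy : ZMod q × ZMod q => xy.2 = l.1 * xy.1 + l.2) (fun a : ZMod q => a = l.1) p

instance (q : ℕ) (p : PlPoint q) (l : PlLine q) : Decidable (PlOn q p l) := by
  unfold PlOn
  cases p
  · simp only [Sum.elim_inl]; infer_instance
  · simp only [Sum.elim_inr]; infer_instance

/-- Two lines have a common point. -/
theorem pl_meet (q : ℕ) [Fact q.Prime] (l m : PlLine q) :
    ∃ p, PlOn q p l ∧ PlOn q p m := by
  by_cases h : l.1 = m.1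
  · exact ⟨Sum.inr l.1, rfl, h⟩
  · have h1 : l.1 - m.1 ≠ 0 := sub_ne_zero.2 h
    refine ⟨Sum.inl ((m.2 - l.2) / (l.1 - m.1), l.1 * ((m.2 - l.2) / (l.1 - m.1)) + l.2), rfl, ?_⟩
    show l.1 * ((m.2 - l.2) / (l.1 - m.1)) + l.2 = m.1 * ((m.2 - l.2) / (l.1 - m.1)) + m.2
    field_simp
    ring

/-- Two different points lie on at most one line. -/
theorem pl_unique (q : ℕ) [Fact q.Prime] {p r : PlPoint q} (hpr : p ≠ r) {l m : PlLine q}
    (h1 : PlOn q p l) (h2 : PlOn q r l) (h3 : PlOn q p m) (h4 : PlOn q r m) : l = m := by
  obtain ⟨a, b⟩ := l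
  obtain ⟨a', b'⟩ := m
  rcases p with ⟨x, y⟩ | c
  · rcases r with ⟨x', y'⟩ | c'
    · simp only [PlOn, Sum.elim_inl] at h1 h2 h3 h4
      have hx : x - x' ≠ 0 := by
        intro hx
        have hx' : x = x' := sub_eq_zero.1 hx
        apply hpr
        rw [h1, h2, hx']
      have h5 : (a - a') * (x - x') = 0 := by
        linear_combination h1 * (-1) + h2 + h3 - h4
      have ha : a = a' := by
        rcases mul_eq_zero.1 h5 with h | h
        · exact sub_eq_zero.1 h
        · exact absurd h hx
      subst ha
      have hb : b = b' := by linear_combination h3 - h1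
      rw [hb]
    · simp only [PlOn, Sum.elim_inl, Sum.elim_inr] at h1 h2 h3 h4
      have ha : a = a' := by rw [← h2, ← h4]
      subst ha
      have hb : b = b' := by linear_combination h3 - h1
      rw [hb]
  · rcases r with ⟨x', y'⟩ | c'
    · simp only [PlOn, Sum.elim_inl, Sum.elim_inr] at h1 h2 h3 h4
      have ha : a = a' := by rw [← h1, ← h3]
      subst ha
      have hb : b = b' := by linear_combination h4 - h2
      rw [hb]
    · simp only [PlOn, Sum.elim_inr] at h1 h2
      exact absurd (by rw [h1, h2]) hpr

/-- A line has `q + 1` points. -/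
theorem pl_points_card (q : ℕ) [Fact q.Prime] (l : PlLine q) :
    (Finset.univ.filter fun p => PlOn q p l).card = q + 1 := by
  classical
  have h : (Finset.univ.filter fun p => PlOn q p l) =
      (Finset.univ.image fun x : Option (ZMod q) =>
        (x.elim (Sum.inr l.1) fun y => Sum.inl (y, l.1 * y + l.2) : PlPoint q)) := by
    ext p
    simp only [Finset.mem_filter, Finset.mem_univ, true_and, Finset.mem_image]
    constructor
    · intro hp
      rcases p with ⟨x, y⟩ | c
      · simp only [PlOn, Sum.elim_inl] at hp
        exact ⟨some x, by simp [hp]⟩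
      · simp only [PlOn, Sum.elim_inr] at hp
        exact ⟨none, by simp [hp]⟩
    · rintro ⟨x, rfl⟩
      rcases x with _ | x <;> simp [PlOn]
  rw [h, Finset.card_image_of_injective, Finset.card_univ, Fintype.card_option, ZMod.card]
  intro x y hxy
  rcases x with _ | x <;> rcases y with _ | y
  · rfl
  · simp at hxy
  · simp at hxy
  · simp only [Option.elim, Sum.inl.injEq, Prod.mk.injEq] at hxy
    rw [hxy.1]

/-- A point is on `q` lines. -/
theorem pl_lines_card (q : ℕ) [Fact q.Prime] (p : PlPoint q) :
    (Finset.univ.filter fun l => PlOn q p l).card = q := by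
  classical
  rcases p with ⟨x, y⟩ | c
  · have h : (Finset.univ.filter fun l => PlOn q (Sum.inl (x, y)) l) =
        (Finset.univ.image fun a : ZMod q => (a, y - a * x)) := by
      ext l
      simp only [Finset.mem_filter, Finset.mem_univ, true_and, Finset.mem_image, PlOn,
        Sum.elim_inl]
      constructor
      · intro hp
        exact ⟨l.1, by rw [hp]; ext <;> simp⟩
      · rintro ⟨a, rfl⟩
        simp
    rw [h, Finset.card_image_of_injective, Finset.card_univ, ZMod.card]
    intro a b hab
    exact (Prod.mk.inj hab).1
  · have h : (Finset.univ.filter fun l => PlOn q (Sum.inr c) l) =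
        (Finset.univ.image fun b : ZMod q => (c, b)) := by
      ext l
      simp only [Finset.mem_filter, Finset.mem_univ, true_and, Finset.mem_image, PlOn,
        Sum.elim_inr]
      constructor
      · intro hp
        exact ⟨l.2, by rw [hp]⟩
      · rintro ⟨a, rfl⟩
        rfl
    rw [h, Finset.card_image_of_injective, Finset.card_univ, ZMod.card]
    intro a b hab
    exact (Prod.mk.inj hab).2

/-- A balanced map onto a nonempty finite type. -/
theorem exists_balanced {V L : Type*} [Fintype V] [Fintype L] [DecidableEq L] [Nonempty L] :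
    ∃ f : V → L, ∀ l, (Finset.univ.filter fun v => f v = l).card ≤
      Fintype.card V / Fintype.card L + 1 := by
  classical
  set n := Fintype.card V
  set k := Fintype.card L with hk
  have hk0 : 0 < k := Fintype.card_pos
  let e : V ≃ Fin n := Fintype.equivFin V
  let g : L ≃ Fin k := Fintype.equivFin L
  refine ⟨fun v => g.symm ⟨(e v).val % k, Nat.mod_lt _ hk0⟩, fun l => ?_⟩
  have h1 : (Finset.univ.filter fun v => g.symm ⟨(e v).val % k, Nat.mod_lt _ hk0⟩ = l).card ≤
      ((Finset.range n).filter fun i => i % k = (g l).val).card := by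
    refine Finset.card_le_card_of_injOn (fun v => (e v).val) ?_ ?_
    · intro v hv
      have hv' := (Finset.mem_filter.1 hv).2
      refine Finset.mem_coe.2 (Finset.mem_filter.2 ⟨Finset.mem_range.2 (e v).isLt, ?_⟩)
      rw [← hv']
      simp
    · intro v _ w _ hvw
      exact e.injective (Fin.ext hvw)
  refine h1.trans ?_
  have h2 : ((Finset.range n).filter fun i => i % k = (g l).val).card ≤
      (Finset.range (n / k + 1)).card := by
    refine Finset.card_le_card_of_injOn (fun i => i / k) ?_ ?_
    · intro i hi
      have hi' := Finset.mem_filter.1 hi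
      refine Finset.mem_coe.2 (Finset.mem_range.2 ?_)
      exact Nat.lt_succ_of_le (Nat.div_le_div_right (Finset.mem_range.1 hi'.1).le)
    · intro i hi j hj hij
      have hi' := (Finset.mem_filter.1 hi).2
      have hj' := (Finset.mem_filter.1 hj).2
      have hij' : i / k = j / k := hij
      rw [← Nat.div_add_mod i k, ← Nat.div_add_mod j k, hij', hi', hj']
  rwa [Finset.card_range] at h2

end NW
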