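import Pool.Agent.NW.Dirac

/-!
Project NW: edge-disjoint perfect matchings in many sets `F v` chosen one after the other, with a
deterministic exponential potential instead of a random choice.
-/

namespace NW.Match

open Finset

variable {ι α : Type*} [Fintype ι] [DecidableEq ι] [Fintype α] [DecidableEq α]

/-- One averaging step: the potential does not increase for some choice. -/
theorem avg_choice {C : Type*} (s : Finset C) (T : ℕ) (hT : 0 < T) (f : C → ℝ)
    (g : Fin T → C → ℝ) (hg : ∀ c ∈ s, ∑ j, g j c ≤ T * f c) :
    ∃ j, ∑ c ∈ s, g j c ≤ ∑ c ∈ s, f c := by
  have : Nonempty (Fin T) := ⟨⟨0, hT⟩⟩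
  have h1 : ∑ j : Fin T, ∑ c ∈ s, g j c ≤ ∑ _j : Fin T, ∑ c ∈ s, f c := by
    rw [Finset.sum_comm]
    simp only [sum_const, card_univ, Fintype.card_fin, nsmul_eq_mul]
    rw [Finset.mul_sum]
    exact Finset.sum_le_sum hg
  obtain ⟨j, -, hj⟩ := Finset.exists_le_of_sum_le (Finset.univ_nonempty) h1
  exact ⟨j, hj⟩

/-- The number of indices `v` in `D` with `u ∈ F v` whose partner of `u` lies in `F w`. -/
def cnt (F : ι → Finset α) (M : ι → α → α) (D : Finset ι) (w : ι) (u : α) : ℕ :=
  (D.filter (fun v => u ∈ F v ∧ M v u ∈ F w)).card

/-- The number of indices `v` outside `D` with `u ∈ F v`. -/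
def rem (F : ι → Finset α) (D : Finset ι) (u : α) : ℕ :=
  (Dᶜ.filter (fun v => u ∈ F v)).card

/-- The potential. -/
noncomputable def Phi (F : ι → Finset α) (a : ℝ) (M : ι → α → α) (D : Finset ι) : ℝ :=
  ∑ w ∈ Dᶜ, ∑ u ∈ F w, Real.exp (cnt F M D w u + a * rem F D u)

/-- Edge-disjoint perfect matchings of all the sets `F v` in the relation `K`. -/
theorem seq_match (K : α → α → Prop) (hsymm : ∀ x y, K x y → K y x)
    (hirr : ∀ x, ¬ K x x) [DecidableRel K] (F : ι → Finset α) (hF : ∀ v, Even (F v).card)
    (T B Dm L : ℕ) (hT : 0 < T)
    (hdeg : ∀ v, ∀ u ∈ F v, (F v).card + 2 * T + 2 * B ≤ 2 * ((F v).filter (fun x => K u x)).card)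
    (hinter : ∀ v w, v ≠ w → (F v ∩ F w).card ≤ Dm)
    (hload : ∀ u, (Finset.univ.filter (fun v => u ∈ F v)).card ≤ L)
    (hnum : (Fintype.card ι : ℝ) * Fintype.card α * Real.exp (2 * ((Dm : ℝ) / T) * L) <
      Real.exp B) :
    ∃ M : ι → α → α, (∀ v, IsPM K (F v) (M v)) ∧
      ∀ v w, v ≠ w → ∀ u ∈ F v, u ∈ F w → M v u ≠ M w u := by
  classical
  set a : ℝ := 2 * ((Dm : ℝ) / T) with ha
  have ha0 : 0 ≤ a := by positivity
  -- the potential at the start
  have hstart : Phi F a (fun _ => id) ∅ < Real.exp B := by
    refine lt_of_le_of_lt ?_ hnum
    unfold Phi
    have h1 : ∀ w ∈ (∅ : Finset ι)ᶜ, ∑ u ∈ F w,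
        Real.exp (cnt F (fun _ => id) ∅ w u + a * rem F ∅ u) ≤
        Fintype.card α * Real.exp (a * L) := by
      intro w _
      have h2 : ∀ u ∈ F w, Real.exp (cnt F (fun _ => id) ∅ w u + a * rem F ∅ u) ≤
          Real.exp (a * L) := by
        intro u _
        apply Real.exp_le_exp.2
        have e1 : cnt F (fun _ => id) ∅ w u = 0 := by simp [cnt]
        have e2 : (rem F ∅ u : ℝ) ≤ L := by
          have := hload u
          unfold rem
          rw [compl_empty]
          exact_mod_cast this
        rw [e1]
        have := mul_le_mul_of_nonneg_left e2 ha0
        simpa using this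
      calc ∑ u ∈ F w, Real.exp (cnt F (fun _ => id) ∅ w u + a * rem F ∅ u)
          ≤ ∑ _u ∈ F w, Real.exp (a * L) := Finset.sum_le_sum h2
        _ = (F w).card * Real.exp (a * L) := by simp
        _ ≤ Fintype.card α * Real.exp (a * L) := by
            apply mul_le_mul_of_nonneg_right _ (Real.exp_pos _).le
            exact_mod_cast Finset.card_le_univ _
    calc _ ≤ ∑ _w ∈ (∅ : Finset ι)ᶜ, (Fintype.card α * Real.exp (a * L)) :=
          Finset.sum_le_sum h1
      _ = Fintype.card ι * Fintype.card α * Real.exp (a * L) := by
          rw [compl_empty]; simp [mul_assoc]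
  -- induction on the set of finished indices
  have key : ∀ D : Finset ι, ∃ M : ι → α → α, (∀ v ∈ D, IsPM K (F v) (M v)) ∧
      (∀ v ∈ D, ∀ w ∈ D, v ≠ w → ∀ u ∈ F v, u ∈ F w → M v u ≠ M w u) ∧
      Phi F a M D < Real.exp B := by
    intro D
    induction D using Finset.induction_on with
    | empty =>
      exact ⟨fun _ => id, by simp, by simp, hstart⟩
    | insert v D hvD ih =>
      obtain ⟨M, hM, hdisj, hPhi⟩ := ih
      -- all counters are at most `B`
      have hcnt : ∀ u ∈ F v, cnt F M D v u < B := by
        intro u hu
        have h1 : Real.exp (cnt F M D v u + a * rem F D u) ≤ Phi F a M D := by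
          unfold Phi
          have hv : v ∈ Dᶜ := by simpa using hvD
          calc Real.exp (cnt F M D v u + a * rem F D u)
              ≤ ∑ u ∈ F v, Real.exp (cnt F M D v u + a * rem F D u) :=
                Finset.single_le_sum (f := fun u => Real.exp (cnt F M D v u + a * rem F D u))
                  (fun _ _ => (Real.exp_pos _).le) hu
            _ ≤ _ := Finset.single_le_sum
                (f := fun w => ∑ u ∈ F w, Real.exp (cnt F M D w u + a * rem F D u))
                (fun _ _ => Finset.sum_nonneg fun _ _ => (Real.exp_pos _).le) hv
        have h2 := lt_of_le_of_lt h1 hPhi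
        rw [Real.exp_lt_exp] at h2
        have h3 : 0 ≤ a * rem F D u := by positivity
        have h4 : (cnt F M D v u : ℝ) < B := by linarith
        exact_mod_cast h4
      -- the remaining relation
      let K' : α → α → Prop := fun x y => K x y ∧ ∀ w ∈ D, x ∈ F w → y ∈ F w → M w x ≠ y
      have hK'symm : ∀ x y, K' x y → K' y x := by
        rintro x y ⟨h1, h2⟩
        refine ⟨hsymm _ _ h1, ?_⟩
        intro w hw hy hx h3
        apply h2 w hw hx hy
        rw [← h3]
        exact (hM w hw y hy).2.2
      have hdeg' : ∀ u ∈ F v, (F v).card + 2 * T ≤
          2 * ((F v).filter (fun x => K' u x)).card := by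
        intro u hu
        have hsub : (F v).filter (fun x => K u x) ⊆ (F v).filter (fun x => K' u x) ∪
            (D.filter (fun w => u ∈ F w ∧ M w u ∈ F v)).image (fun w => M w u) := by
          intro x hx
          simp only [mem_filter] at hx
          simp only [mem_union, mem_filter, mem_image]
          by_cases h : ∃ w ∈ D, u ∈ F w ∧ x ∈ F w ∧ M w u = x
          · right
            obtain ⟨w, hw, h1, h2, h3⟩ := h
            exact ⟨w, ⟨hw, h1, by rw [h3]; exact hx.1⟩, h3⟩
          · left
            push Not at h
            exact ⟨hx.1, hx.2, fun w hw h1 h2 => h w hw h1 h2⟩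
        have h1 := card_le_card hsub
        have h2 := card_union_le ((F v).filter (fun x => K' u x))
          ((D.filter (fun w => u ∈ F w ∧ M w u ∈ F v)).image (fun w => M w u))
        have h3 : ((D.filter (fun w => u ∈ F w ∧ M w u ∈ F v)).image (fun w => M w u)).card ≤
            cnt F M D v u := Finset.card_image_le
        have h4 := hcnt u hu
        have := hdeg v u hu
        omega
      obtain ⟨s, hs, hinj⟩ := exists_many_isPM K' hK'symm (fun x h => hirr x h.1) (F v) (hF v) T
        hdeg'
      -- choose one of the `T` matchings
      let Mj : Fin T → ι → α → α := fun j => Function.update M v (s j)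
      have hMj : ∀ j, ∀ w ∈ D, Mj j w = M w := by
        intro j w hw
        have : w ≠ v := fun h => hvD (h ▸ hw)
        simp [Mj, this]
      have hMjv : ∀ j, Mj j v = s j := by intro j; simp [Mj]
      have havg : ∃ j, Phi F a (Mj j) (insert v D) ≤ Phi F a M D := by
        -- compare term by term
        have hsubset : (insert v D)ᶜ ⊆ Dᶜ := by
          intro x hx
          simp only [mem_compl, mem_insert, not_or] at hx ⊢
          exact hx.2
        have h0 := avg_choice ((insert v D)ᶜ.sigma (fun w => F w)) T hT
          (fun c => Real.exp (cnt F M D c.1 c.2 + a * rem F D c.2))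
          (fun j c => Real.exp (cnt F (Mj j) (insert v D) c.1 c.2 + a * rem F (insert v D) c.2))
          ?_
        · obtain ⟨j, hj⟩ := h0
          refine ⟨j, ?_⟩
          rw [Finset.sum_sigma, Finset.sum_sigma] at hj
          refine le_trans hj ?_
          unfold Phi
          exact Finset.sum_le_sum_of_subset_of_nonneg hsubset
            (fun _ _ _ => Finset.sum_nonneg fun _ _ => (Real.exp_pos _).le)
        · rintro ⟨w, u⟩ hc
          simp only [mem_sigma, mem_compl, mem_insert, not_or] at hc
          obtain ⟨⟨hwv, hwD⟩, huw⟩ := hc
          simp only
          -- the counters after the step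
          have hcnt' : ∀ j, cnt F (Mj j) (insert v D) w u =
              cnt F M D w u + if (u ∈ F v ∧ s j u ∈ F w) then 1 else 0 := by
            intro j
            unfold cnt
            rw [Finset.filter_insert]
            have e1 : D.filter (fun x => u ∈ F x ∧ Mj j x u ∈ F w) =
                D.filter (fun x => u ∈ F x ∧ M x u ∈ F w) := by
              apply Finset.filter_congr
              intro x hx
              rw [hMj j x hx]
            rw [hMjv j, e1]
            split_ifs with h
            · rw [card_insert_of_notMem (by simp [hvD])]
            · rfl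
          have hrem : (rem F D u : ℝ) = rem F (insert v D) u + if u ∈ F v then 1 else 0 := by
            have hcompl : Dᶜ = insert v (insert v D)ᶜ := by
              ext x
              simp only [mem_compl, mem_insert, not_or]
              constructor
              · intro hx
                by_cases hxv : x = v
                · exact Or.inl hxv
                · exact Or.inr ⟨hxv, hx⟩
              · rintro (rfl | ⟨_, hx⟩)
                · exact hvD
                · exact hx
            unfold rem
            rw [hcompl, Finset.filter_insert]
            split_ifs with h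
            · rw [card_insert_of_notMem (by simp)]
              push_cast; ring
            · simp
          by_cases huv : u ∈ F v
          · -- at most `Dm` of the `T` matchings increase the counter
            have hfew : ((Finset.univ : Finset (Fin T)).filter
                (fun j => s j u ∈ F w)).card ≤ Dm := by
              refine le_trans ?_ (hinter v w (Ne.symm hwv))
              refine Finset.card_le_card_of_injOn (fun j => s j u) ?_ ?_
              · intro j hj
                simp only [coe_filter, mem_univ, true_and, Set.mem_ofPred_eq] at hj
                simp only [coe_inter, Set.mem_inter_iff, mem_coe]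
                exact ⟨(hs j u huv).1, hj⟩
              · intro i _ j _ hij
                exact hinj u huv i j hij
            have hterm : ∀ j : Fin T,
                Real.exp (cnt F (Mj j) (insert v D) w u + a * rem F (insert v D) u) ≤
                Real.exp (cnt F M D w u + a * rem F D u) * Real.exp (-a) *
                  (1 + if s j u ∈ F w then 2 else 0) := by
              intro j
              rw [hcnt' j, hrem, ← Real.exp_add]
              by_cases h : s j u ∈ F w
              · rw [if_pos ⟨huv, h⟩, if_pos huv, if_pos h]
                have e3 : Real.exp 1 ≤ 3 := by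
                  have := Real.exp_one_lt_d9
                  linarith
                have : ((cnt F M D w u + 1 : ℕ) : ℝ) + a * rem F (insert v D) u =
                    (cnt F M D w u + a * (rem F (insert v D) u + 1) + -a) + 1 := by
                  push_cast; ring
                rw [this, Real.exp_add _ 1]
                have h5 := (Real.exp_pos (cnt F M D w u + a * (rem F (insert v D) u + 1) + -a)).le
                nlinarith
              · rw [if_neg (fun h' => h h'.2), if_pos huv, if_neg h]
                simp only [add_zero, mul_one]
                apply le_of_eq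
                congr 1
                ring
            calc ∑ j, Real.exp (cnt F (Mj j) (insert v D) w u + a * rem F (insert v D) u)
                ≤ ∑ j : Fin T, Real.exp (cnt F M D w u + a * rem F D u) * Real.exp (-a) *
                  (1 + if s j u ∈ F w then 2 else 0) := Finset.sum_le_sum fun j _ => hterm j
              _ = Real.exp (cnt F M D w u + a * rem F D u) * Real.exp (-a) *
                  (T + 2 * ((Finset.univ : Finset (Fin T)).filter
                    (fun j => s j u ∈ F w)).card) := by
                  rw [← Finset.mul_sum, Finset.sum_add_distrib]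
                  congr 1
                  rw [Finset.sum_ite]
                  simp
                  ring
              _ ≤ Real.exp (cnt F M D w u + a * rem F D u) * Real.exp (-a) *
                  (T * Real.exp a) := by
                  apply mul_le_mul_of_nonneg_left _ (by positivity)
                  have hTR : (0 : ℝ) < T := by exact_mod_cast hT
                  have h6 : a + 1 ≤ Real.exp a := Real.add_one_le_exp a
                  have h7 : (((Finset.univ : Finset (Fin T)).filter
                    (fun j => s j u ∈ F w)).card : ℝ) ≤ Dm := by exact_mod_cast hfew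
                  have h8 : (T : ℝ) * (a + 1) = T + 2 * Dm := by
                    rw [ha]; field_simp; ring
                  nlinarith
              _ = T * Real.exp (cnt F M D w u + a * rem F D u) := by
                  have : Real.exp (-a) * Real.exp a = 1 := by rw [← Real.exp_add]; simp
                  linear_combination (T * Real.exp (cnt F M D w u + a * rem F D u)) * this
          · have hterm : ∀ j : Fin T,
                Real.exp (cnt F (Mj j) (insert v D) w u + a * rem F (insert v D) u) =
                Real.exp (cnt F M D w u + a * rem F D u) := by
              intro j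
              rw [hcnt' j, hrem, if_neg (fun h => huv h.1), if_neg huv]
              simp
            rw [Finset.sum_congr rfl fun j _ => hterm j]
            simp
      obtain ⟨j, hj⟩ := havg
      refine ⟨Mj j, ?_, ?_, lt_of_le_of_lt hj hPhi⟩
      · intro w hw
        rw [mem_insert] at hw
        rcases hw with rfl | hw
        · rw [hMjv]
          intro u hu
          exact ⟨(hs j u hu).1, (hs j u hu).2.1.1, (hs j u hu).2.2⟩
        · rw [hMj j w hw]
          exact hM w hw
      · intro w hw w' hw' hne u hu hu'
        rw [mem_insert] at hw hw'
        rcases hw with rfl | hw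
        · rcases hw' with rfl | hw'
          · exact absurd rfl hne
          · rw [hMjv, hMj j w' hw']
            obtain ⟨h1, h2, -⟩ := hs j u hu
            intro h
            exact h2.2 w' hw' hu' (by rw [h]; exact (hM w' hw' u hu').1) h.symm
        · rcases hw' with rfl | hw'
          · rw [hMjv, hMj j w hw]
            obtain ⟨h1, h2, -⟩ := hs j u hu'
            intro h
            exact h2.2 w hw hu (by rw [← h]; exact (hM w hw u hu).1) h
          · rw [hMj j w hw, hMj j w' hw']
            exact hdisj w hw w' hw' hne u hu hu'
  obtain ⟨M, hM, hdisj, -⟩ := key Finset.univ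
  exact ⟨M, fun v => hM v (mem_univ v), fun v w hne => hdisj v (mem_univ v) w (mem_univ w) hne⟩

end NW.Match
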