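import Mathlib

/-!
# Finite probability toolbox (project NW)

Everything is a finite weighted sum; no measure theory.

* `NW.IsProb w`      : `w : X → ℝ` is a probability weight on the finite type `X`;
* `NW.Ex w f`        : expectation, `NW.Pr w p` : probability;
* `NW.prodW μ`       : product weight on `ι → Ω` of the weights `μ i` on `Ω`;
* `NW.mcdiarmid`     : McDiarmid's inequality on `ι → Ω` with `exp (-t^2/(2 S))`, `∑ c_i^2 ≤ S`;
* `NW.mcdiarmid_abs` : two-sided form;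
* `NW.exists_of_mcdiarmid` : union bound for finitely many functions.
-/

open Finset

namespace NW

section Basic

variable {X : Type*} [Fintype X]

/-- `w` is a probability weight. -/
structure IsProb (w : X → ℝ) : Prop where
  nonneg : ∀ x, 0 ≤ w x
  sum_one : ∑ x, w x = 1

/-- Expectation of `f` with respect to the weight `w`. -/
noncomputable def Ex (w f : X → ℝ) : ℝ := ∑ x, w x * f x

open Classical in
/-- Probability of the event `p` with respect to the weight `w`. -/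
noncomputable def Pr (w : X → ℝ) (p : X → Prop) : ℝ := Ex w (fun x => if p x then 1 else 0)

theorem Ex_def (w f : X → ℝ) : Ex w f = ∑ x, w x * f x := rfl

open Classical in
theorem Pr_def (w : X → ℝ) (p : X → Prop) : Pr w p = Ex w (fun x => if p x then 1 else 0) := rfl

open Classical in
theorem Pr_eq_sum (w : X → ℝ) (p : X → Prop) : Pr w p = ∑ x with p x, w x := by
  unfold Pr Ex
  rw [Finset.sum_filter]
  refine Finset.sum_congr rfl fun x _ => ?_
  by_cases hx : p x <;> simp [hx]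

theorem Ex_add (w f g : X → ℝ) : Ex w (fun x => f x + g x) = Ex w f + Ex w g := by
  unfold Ex; rw [← Finset.sum_add_distrib]; exact Finset.sum_congr rfl fun x _ => by ring

theorem Ex_sub (w f g : X → ℝ) : Ex w (fun x => f x - g x) = Ex w f - Ex w g := by
  unfold Ex; rw [← Finset.sum_sub_distrib]; exact Finset.sum_congr rfl fun x _ => by ring

theorem Ex_mul_left (w f : X → ℝ) (c : ℝ) : Ex w (fun x => c * f x) = c * Ex w f := by
  unfold Ex; rw [Finset.mul_sum]; exact Finset.sum_congr rfl fun x _ => by ring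

theorem Ex_mul_right (w f : X → ℝ) (c : ℝ) : Ex w (fun x => f x * c) = Ex w f * c := by
  unfold Ex; rw [Finset.sum_mul]; exact Finset.sum_congr rfl fun x _ => by ring

theorem Ex_neg (w f : X → ℝ) : Ex w (fun x => - f x) = - Ex w f := by
  unfold Ex; rw [← Finset.sum_neg_distrib]; exact Finset.sum_congr rfl fun x _ => by ring

theorem Ex_sum {J : Type*} (w : X → ℝ) (s : Finset J) (f : J → X → ℝ) :
    Ex w (fun x => ∑ j ∈ s, f j x) = ∑ j ∈ s, Ex w (f j) := by
  unfold Ex; rw [Finset.sum_comm]; exact Finset.sum_congr rfl fun x _ => by rw [Finset.mul_sum]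

theorem Ex_const {w : X → ℝ} (hw : IsProb w) (c : ℝ) : Ex w (fun _ => c) = c := by
  unfold Ex; rw [← Finset.sum_mul, hw.sum_one, one_mul]

theorem Ex_congr {w f g : X → ℝ} (h : ∀ x, w x ≠ 0 → f x = g x) : Ex w f = Ex w g := by
  unfold Ex
  refine Finset.sum_congr rfl fun x _ => ?_
  by_cases hx : w x = 0
  · simp [hx]
  · rw [h x hx]

theorem Ex_mono {w f g : X → ℝ} (hw : ∀ x, 0 ≤ w x) (h : ∀ x, f x ≤ g x) : Ex w f ≤ Ex w g :=
  Finset.sum_le_sum fun x _ => mul_le_mul_of_nonneg_left (h x) (hw x)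

theorem Ex_nonneg {w f : X → ℝ} (hw : ∀ x, 0 ≤ w x) (h : ∀ x, 0 ≤ f x) : 0 ≤ Ex w f :=
  Finset.sum_nonneg fun x _ => mul_nonneg (hw x) (h x)

theorem Ex_le_of_le {w f : X → ℝ} (hw : IsProb w) {c : ℝ} (h : ∀ x, f x ≤ c) : Ex w f ≤ c := by
  have := Ex_mono hw.nonneg (g := fun _ => c) h
  rwa [Ex_const hw] at this

theorem le_Ex_of_le {w f : X → ℝ} (hw : IsProb w) {c : ℝ} (h : ∀ x, c ≤ f x) : c ≤ Ex w f := by
  have := Ex_mono hw.nonneg (f := fun _ => c) h
  rwa [Ex_const hw] at this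

theorem exists_le_Ex {w f : X → ℝ} (hw : IsProb w) : ∃ x, 0 < w x ∧ f x ≤ Ex w f := by
  by_contra hcon
  push Not at hcon
  have h1 : ∑ x, w x * Ex w f < ∑ x, w x * f x := by
    apply Finset.sum_lt_sum
    · intro x _
      rcases (hw.nonneg x).eq_or_lt with h | h
      · rw [← h]; simp
      · exact (mul_lt_mul_of_pos_left (hcon x h) h).le
    · have h2 : ∃ x, 0 < w x := by
        by_contra h3
        push Not at h3
        have h4 : ∑ x, w x = 0 :=
          Finset.sum_eq_zero fun x _ => le_antisymm (h3 x) (hw.nonneg x)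
        rw [hw.sum_one] at h4
        exact one_ne_zero h4
      obtain ⟨x, hx⟩ := h2
      exact ⟨x, Finset.mem_univ x, mul_lt_mul_of_pos_left (hcon x hx) hx⟩
  rw [← Finset.sum_mul, hw.sum_one, one_mul] at h1
  exact lt_irrefl _ h1

theorem exists_Ex_le {w f : X → ℝ} (hw : IsProb w) : ∃ x, 0 < w x ∧ Ex w f ≤ f x := by
  obtain ⟨x, hx, h⟩ := exists_le_Ex (f := fun x => - f x) hw
  rw [Ex_neg] at h
  exact ⟨x, hx, by linarith⟩

theorem Pr_nonneg {w : X → ℝ} (hw : ∀ x, 0 ≤ w x) (p : X → Prop) : 0 ≤ Pr w p := by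
  classical
  exact Ex_nonneg hw fun x => by split_ifs <;> norm_num

theorem Pr_mono {w : X → ℝ} (hw : ∀ x, 0 ≤ w x) {p q : X → Prop} (h : ∀ x, p x → q x) :
    Pr w p ≤ Pr w q := by
  classical
  refine Ex_mono hw fun x => ?_
  by_cases hp : p x
  · simp [hp, h x hp]
  · simp only [hp, if_false]
    split_ifs <;> norm_num

theorem Pr_le_one {w : X → ℝ} (hw : IsProb w) (p : X → Prop) : Pr w p ≤ 1 := by
  classical
  exact Ex_le_of_le hw fun x => by split_ifs <;> norm_num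

theorem Pr_congr {w : X → ℝ} {p q : X → Prop} (h : ∀ x, w x ≠ 0 → (p x ↔ q x)) :
    Pr w p = Pr w q := by
  classical
  refine Ex_congr fun x hx => ?_
  simp [h x hx]

theorem Pr_or_le {w : X → ℝ} (hw : ∀ x, 0 ≤ w x) (p q : X → Prop) :
    Pr w (fun x => p x ∨ q x) ≤ Pr w p + Pr w q := by
  classical
  rw [Pr_def, Pr_def, Pr_def, ← Ex_add]
  refine Ex_mono hw fun x => ?_
  by_cases hp : p x <;> by_cases hq : q x <;> simp [hp, hq]

theorem Pr_not {w : X → ℝ} (hw : IsProb w) (p : X → Prop) :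
    Pr w (fun x => ¬ p x) = 1 - Pr w p := by
  classical
  have h1 : Ex w (fun _ => (1 : ℝ)) = 1 := Ex_const hw 1
  rw [Pr_def, Pr_def]
  nth_rewrite 2 [← h1]
  rw [← Ex_sub]
  refine Ex_congr fun x _ => ?_
  by_cases hp : p x <;> simp [hp]

theorem Pr_exists_le {J : Type*} {w : X → ℝ} (hw : ∀ x, 0 ≤ w x) (s : Finset J)
    (p : J → X → Prop) : Pr w (fun x => ∃ j ∈ s, p j x) ≤ ∑ j ∈ s, Pr w (p j) := by
  classical
  have h : ∑ j ∈ s, Pr w (p j) = Ex w (fun x => ∑ j ∈ s, if p j x then (1 : ℝ) else 0) := by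
    rw [Ex_sum]; rfl
  rw [h, Pr_def]
  refine Ex_mono hw fun x => ?_
  split_ifs with hx
  · obtain ⟨j, hj, hpj⟩ := hx
    have h1 : (if p j x then (1 : ℝ) else 0) ≤ ∑ j ∈ s, if p j x then (1 : ℝ) else 0 :=
      Finset.single_le_sum (f := fun j => if p j x then (1 : ℝ) else 0)
        (fun i _ => by split_ifs <;> norm_num) hj
    rw [if_pos hpj] at h1
    exact h1
  · exact Finset.sum_nonneg fun i _ => by split_ifs <;> norm_num

/-- The existence form of the union bound. -/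
theorem exists_of_Pr_lt_one {w : X → ℝ} (hw : IsProb w) {p : X → Prop} (h : Pr w p < 1) :
    ∃ x, 0 < w x ∧ ¬ p x := by
  classical
  by_contra hcon
  push Not at hcon
  have h1 : Pr w p = Ex w (fun _ => (1 : ℝ)) := by
    rw [Pr_def]
    refine Ex_congr fun x hx => ?_
    rw [if_pos (hcon x (lt_of_le_of_ne (hw.nonneg x) (Ne.symm hx)))]
  rw [Ex_const hw] at h1
  linarith

theorem exists_of_sum_Pr_lt_one {J : Type*} {w : X → ℝ} (hw : IsProb w) (s : Finset J)
    (p : J → X → Prop) (h : ∑ j ∈ s, Pr w (p j) < 1) :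
    ∃ x, 0 < w x ∧ ∀ j ∈ s, ¬ p j x := by
  obtain ⟨x, hx, h2⟩ := exists_of_Pr_lt_one hw (lt_of_le_of_lt (Pr_exists_le hw.nonneg s p) h)
  push Not at h2
  exact ⟨x, hx, h2⟩

/-- Markov's inequality for the exponential function. -/
theorem Pr_ge_le_exp {w : X → ℝ} (hw : ∀ x, 0 ≤ w x) (f : X → ℝ) (a b l : ℝ) (hl : 0 ≤ l)
    (h : Ex w (fun x => Real.exp (l * f x)) ≤ Real.exp b) :
    Pr w (fun x => a ≤ f x) ≤ Real.exp (b - l * a) := by
  classical
  have h1 : Pr w (fun x => a ≤ f x) ≤ Ex w (fun x => Real.exp (-(l * a)) * Real.exp (l * f x)) := by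
    refine Ex_mono hw fun x => ?_
    split_ifs with hx
    · rw [← Real.exp_add]
      apply Real.one_le_exp
      nlinarith
    · positivity
  rw [Ex_mul_left] at h1
  calc Pr w (fun x => a ≤ f x) ≤ Real.exp (-(l * a)) * Real.exp b :=
        h1.trans (mul_le_mul_of_nonneg_left h (Real.exp_pos _).le)
    _ = Real.exp (b - l * a) := by rw [← Real.exp_add]; congr 1; ring

/-- Jensen's inequality for `exp`. -/
theorem exp_Ex_le {w : X → ℝ} (hw : IsProb w) (f : X → ℝ) :
    Real.exp (Ex w f) ≤ Ex w (fun x => Real.exp (f x)) := by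
  have h := convexOn_exp.map_sum_le (t := (Finset.univ : Finset X)) (w := w) (p := f)
    (fun x _ => hw.nonneg x) hw.sum_one (fun x _ => Set.mem_univ _)
  simpa [Ex, smul_eq_mul] using h

/-- Hoeffding's lemma, with the constant `1/2`. -/
theorem hoeffding_one {w : X → ℝ} (hw : IsProb w) (g : X → ℝ) (c l : ℝ)
    (hg : ∀ x y, |g x - g y| ≤ c) :
    Ex w (fun x => Real.exp (l * g x)) ≤ Real.exp (l * Ex w g + l ^ 2 * c ^ 2 / 2) := by
  -- symmetrisation
  have h1 : Real.exp (-(l * Ex w g)) ≤ Ex w (fun y => Real.exp (-(l * g y))) := by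
    have := exp_Ex_le hw (fun y => -(l * g y))
    rwa [Ex_neg, Ex_mul_left] at this
  have h2 : Ex w (fun x => Real.exp (l * g x)) * Ex w (fun y => Real.exp (-(l * g y))) =
      ∑ x, ∑ y, w x * w y * Real.exp (l * (g x - g y)) := by
    unfold Ex
    rw [Finset.sum_mul_sum]
    refine Finset.sum_congr rfl fun x _ => Finset.sum_congr rfl fun y _ => ?_
    rw [show l * (g x - g y) = l * g x + -(l * g y) by ring, Real.exp_add]
    ring
  have h3 : ∑ x, ∑ y, w x * w y * Real.exp (l * (g x - g y)) =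
      ∑ x, ∑ y, w x * w y * Real.cosh (l * (g x - g y)) := by
    have h4 : ∑ x, ∑ y, w x * w y * Real.exp (l * (g x - g y)) =
        ∑ x, ∑ y, w x * w y * Real.exp (-(l * (g x - g y))) := by
      rw [Finset.sum_comm]
      refine Finset.sum_congr rfl fun x _ => Finset.sum_congr rfl fun y _ => ?_
      rw [show l * (g y - g x) = -(l * (g x - g y)) by ring]
      ring
    have h5 : ∑ x, ∑ y, w x * w y * Real.cosh (l * (g x - g y)) =
        (∑ x, ∑ y, w x * w y * Real.exp (l * (g x - g y)) +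
          ∑ x, ∑ y, w x * w y * Real.exp (-(l * (g x - g y)))) / 2 := by
      rw [← Finset.sum_add_distrib, Finset.sum_div]
      refine Finset.sum_congr rfl fun x _ => ?_
      rw [← Finset.sum_add_distrib, Finset.sum_div]
      refine Finset.sum_congr rfl fun y _ => ?_
      rw [Real.cosh_eq]
      ring
    rw [h5, ← h4]
    ring
  have h6 : ∑ x, ∑ y, w x * w y * Real.cosh (l * (g x - g y)) ≤ Real.exp (l ^ 2 * c ^ 2 / 2) := by
    have h7 : ∀ x y, Real.cosh (l * (g x - g y)) ≤ Real.exp (l ^ 2 * c ^ 2 / 2) := by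
      intro x y
      refine (Real.cosh_le_exp_half_sq _).trans (Real.exp_le_exp.2 ?_)
      have h8 : (g x - g y) ^ 2 ≤ c ^ 2 := by
        have := hg x y
        exact sq_le_sq' (by linarith [abs_le.1 this]) (abs_le.1 this).2
      have h9 : (l * (g x - g y)) ^ 2 = l ^ 2 * (g x - g y) ^ 2 := by ring
      rw [h9]
      have := mul_le_mul_of_nonneg_left h8 (sq_nonneg l)
      linarith
    calc ∑ x, ∑ y, w x * w y * Real.cosh (l * (g x - g y))
        ≤ ∑ x, ∑ y, w x * w y * Real.exp (l ^ 2 * c ^ 2 / 2) :=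
          Finset.sum_le_sum fun x _ => Finset.sum_le_sum fun y _ =>
            mul_le_mul_of_nonneg_left (h7 x y) (mul_nonneg (hw.nonneg x) (hw.nonneg y))
      _ = Real.exp (l ^ 2 * c ^ 2 / 2) := by
          simp_rw [mul_assoc, ← Finset.mul_sum, ← Finset.sum_mul, hw.sum_one, one_mul]
  have hpos : 0 ≤ Ex w (fun x => Real.exp (l * g x)) :=
    Ex_nonneg hw.nonneg fun x => (Real.exp_pos _).le
  have h10 : Ex w (fun x => Real.exp (l * g x)) * Real.exp (-(l * Ex w g)) ≤
      Real.exp (l ^ 2 * c ^ 2 / 2) := by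
    calc _ ≤ Ex w (fun x => Real.exp (l * g x)) * Ex w (fun y => Real.exp (-(l * g y))) :=
          mul_le_mul_of_nonneg_left h1 hpos
      _ ≤ _ := by rw [h2, h3]; exact h6
  have h11 : Ex w (fun x => Real.exp (l * g x)) =
      (Ex w (fun x => Real.exp (l * g x)) * Real.exp (-(l * Ex w g))) * Real.exp (l * Ex w g) := by
    rw [mul_assoc, ← Real.exp_add]; simp
  rw [h11, show l * Ex w g + l ^ 2 * c ^ 2 / 2 = l ^ 2 * c ^ 2 / 2 + l * Ex w g by ring,
    Real.exp_add]
  exact mul_le_mul_of_nonneg_right h10 (Real.exp_pos _).le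

end Basic

section Product

variable {ι Ω : Type*} [Fintype ι] [DecidableEq ι] [Fintype Ω]

/-- The product weight. -/
noncomputable def prodW (μ : ι → Ω → ℝ) (x : ι → Ω) : ℝ := ∏ i, μ i (x i)

/-- Expectation of a product of functions of the single coordinates. -/
theorem Ex_prodW_prod (μ : ι → Ω → ℝ) (g : ι → Ω → ℝ) :
    Ex (prodW μ) (fun x => ∏ i, g i (x i)) = ∏ i, Ex (μ i) (g i) := by
  unfold Ex prodW
  rw [Finset.prod_univ_sum, Fintype.piFinset_univ]
  exact Finset.sum_congr rfl fun x _ => (Finset.prod_mul_distrib).symm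

theorem IsProb.prodW {μ : ι → Ω → ℝ} (hμ : ∀ i, IsProb (μ i)) : IsProb (prodW μ) := by
  refine ⟨fun x => Finset.prod_nonneg fun i _ => (hμ i).nonneg _, ?_⟩
  have h := Ex_prodW_prod μ (fun _ _ => (1 : ℝ))
  simp only [Finset.prod_const_one] at h
  have h2 : ∀ i, Ex (μ i) (fun _ => (1 : ℝ)) = 1 := fun i => Ex_const (hμ i) 1
  simp only [h2, Finset.prod_const_one] at h
  unfold Ex at h
  simpa using h

/-- Expectation of a product over a set of coordinates. -/
theorem Ex_prodW_prod_finset {μ : ι → Ω → ℝ} (hμ : ∀ i, IsProb (μ i)) (s : Finset ι)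
    (g : ι → Ω → ℝ) :
    Ex (NW.prodW μ) (fun x => ∏ i ∈ s, g i (x i)) = ∏ i ∈ s, Ex (μ i) (g i) := by
  have h := Ex_prodW_prod μ (fun i a => if i ∈ s then g i a else 1)
  have e1 : ∀ x : ι → Ω, ∏ i, (if i ∈ s then g i (x i) else 1) = ∏ i ∈ s, g i (x i) := by
    intro x; rw [Finset.prod_ite_mem, Finset.univ_inter]
  simp only [e1] at h
  rw [h, ← Finset.prod_subset (Finset.subset_univ s)]
  · exact Finset.prod_congr rfl fun i hi => by simp [hi]
  · intro i _ hi
    simp only [hi, if_false]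
    exact Ex_const (hμ i) 1

/-- Expectation of a function of one coordinate. -/
theorem Ex_prodW_single {μ : ι → Ω → ℝ} (hμ : ∀ i, IsProb (μ i)) (i : ι) (g : Ω → ℝ) :
    Ex (NW.prodW μ) (fun x => g (x i)) = Ex (μ i) g := by
  have h := Ex_prodW_prod_finset hμ {i} (fun _ => g)
  simpa using h

/-- Probability of a box. -/
theorem Pr_prodW_forall {μ : ι → Ω → ℝ} (hμ : ∀ i, IsProb (μ i)) (s : Finset ι)
    (p : ι → Ω → Prop) :
    Pr (NW.prodW μ) (fun x => ∀ i ∈ s, p i (x i)) = ∏ i ∈ s, Pr (μ i) (p i) := by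
  classical
  have h := Ex_prodW_prod_finset hμ s (fun i a => if p i a then (1 : ℝ) else 0)
  have e2 : ∀ i, Pr (μ i) (p i) = Ex (μ i) (fun a => if p i a then (1 : ℝ) else 0) :=
    fun i => rfl
  simp only [e2]
  rw [← h, Pr_def]
  refine Ex_congr fun x _ => ?_
  rw [Finset.prod_ite_zero]
  by_cases hx : ∀ i ∈ s, p i (x i) <;> simp [hx]

theorem Pr_prodW_single {μ : ι → Ω → ℝ} (hμ : ∀ i, IsProb (μ i)) (i : ι) (p : Ω → Prop) :
    Pr (NW.prodW μ) (fun x => p (x i)) = Pr (μ i) p := by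
  have h := Pr_prodW_forall hμ {i} (fun _ => p)
  simpa using h

end Product

section Fin

variable {Ω : Type*} [Fintype Ω]

theorem Ex_fin_succ {n : ℕ} (μ : Fin (n + 1) → Ω → ℝ) (f : (Fin (n + 1) → Ω) → ℝ) :
    Ex (prodW μ) f =
      Ex (μ 0) (fun a => Ex (prodW (fun i : Fin n => μ i.succ)) (fun x => f (Fin.cons a x))) := by
  unfold Ex prodW
  rw [← (Fin.consEquiv (fun _ : Fin (n + 1) => Ω)).sum_comp, Fintype.sum_prod_type]
  refine Finset.sum_congr rfl fun a _ => ?_
  rw [Finset.mul_sum]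
  refine Finset.sum_congr rfl fun x _ => ?_
  have e1 : (Fin.consEquiv fun _ : Fin (n + 1) => Ω) (a, x) = Fin.cons a x := rfl
  rw [e1, Fin.prod_univ_succ]
  simp only [Fin.cons_zero, Fin.cons_succ]
  ring

/-- Exponential moments of functions with bounded differences, on `Fin n → Ω`. -/
theorem mgf_fin (n : ℕ) (μ : Fin n → Ω → ℝ) (hμ : ∀ i, IsProb (μ i))
    (f : (Fin n → Ω) → ℝ) (c : Fin n → ℝ)
    (hf : ∀ (i : Fin n) (x y : Fin n → Ω), (∀ j, j ≠ i → x j = y j) → |f x - f y| ≤ c i)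
    (l : ℝ) :
    Ex (prodW μ) (fun x => Real.exp (l * f x)) ≤
      Real.exp (l * Ex (prodW μ) f + l ^ 2 * (∑ i, c i ^ 2) / 2) := by
  induction n with
  | zero =>
    have h0 : ∀ g : (Fin 0 → Ω) → ℝ, Ex (prodW μ) g = g default := by
      intro g
      unfold Ex prodW
      simp
    rw [h0, h0]
    simp
  | succ n ih =>
    rw [Ex_fin_succ, Ex_fin_succ]
    set μ' : Fin n → Ω → ℝ := fun i => μ i.succ with hμ'
    have hμ'' : ∀ i, IsProb (μ' i) := fun i => hμ i.succ
    have h1 : ∀ a, Ex (prodW μ') (fun x => Real.exp (l * f (Fin.cons a x))) ≤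
        Real.exp (l * Ex (prodW μ') (fun x => f (Fin.cons a x)) +
          l ^ 2 * (∑ i : Fin n, c i.succ ^ 2) / 2) := by
      intro a
      refine ih μ' hμ'' (fun x => f (Fin.cons a x)) (fun i => c i.succ) ?_
      intro i x y hxy
      refine hf i.succ _ _ ?_
      intro j hj
      refine Fin.cases ?_ (fun k => ?_) j (motive := fun j => j ≠ i.succ →
        (Fin.cons a x : Fin (n + 1) → Ω) j = (Fin.cons a y : Fin (n + 1) → Ω) j) hj
      · intro _; simp
      · intro hk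
        simp only [Fin.cons_succ]
        exact hxy k fun h => hk (by rw [h])
    set g : Ω → ℝ := fun a => Ex (prodW μ') (fun x => f (Fin.cons a x)) with hg
    set S : ℝ := l ^ 2 * (∑ i : Fin n, c i.succ ^ 2) / 2 with hS
    have h2 : Ex (μ 0) (fun a => Ex (prodW μ') (fun x => Real.exp (l * f (Fin.cons a x)))) ≤
        Ex (μ 0) (fun a => Real.exp (l * g a) * Real.exp S) := by
      refine Ex_mono (hμ 0).nonneg fun a => ?_
      rw [← Real.exp_add]
      exact h1 a
    rw [Ex_mul_right] at h2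
    have h3 : Ex (μ 0) (fun a => Real.exp (l * g a)) ≤
        Real.exp (l * Ex (μ 0) g + l ^ 2 * (c 0) ^ 2 / 2) := by
      refine hoeffding_one (hμ 0) g (c 0) l ?_
      intro a b
      rw [hg]
      simp only
      rw [← Ex_sub]
      have hp : IsProb (prodW μ') := IsProb.prodW hμ''
      have hab : ∀ x : Fin n → Ω, |f (Fin.cons a x) - f (Fin.cons b x)| ≤ c 0 := by
        intro x
        refine hf 0 _ _ ?_
        intro j hj
        refine Fin.cases ?_ (fun k => ?_) j (motive := fun j => j ≠ 0 →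
          (Fin.cons a x : Fin (n + 1) → Ω) j = (Fin.cons b x : Fin (n + 1) → Ω) j) hj
        · intro h; exact absurd rfl h
        · intro _; simp
      rw [abs_le]
      refine ⟨le_Ex_of_le hp fun x => (abs_le.1 (hab x)).1,
        Ex_le_of_le hp fun x => (abs_le.1 (hab x)).2⟩
    calc _ ≤ Ex (μ 0) (fun a => Real.exp (l * g a)) * Real.exp S := h2
      _ ≤ Real.exp (l * Ex (μ 0) g + l ^ 2 * (c 0) ^ 2 / 2) * Real.exp S :=
          mul_le_mul_of_nonneg_right h3 (Real.exp_pos _).le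
      _ = _ := by
          rw [← Real.exp_add]
          congr 1
          rw [hS, Fin.sum_univ_succ]
          ring

end Fin

section McDiarmid

variable {ι Ω : Type*} [Fintype ι] [DecidableEq ι] [Fintype Ω]

/-- Reindexing of the coordinates. -/
theorem Ex_prodW_equiv {κ : Type*} [Fintype κ] [DecidableEq κ] (e : κ ≃ ι) (μ : ι → Ω → ℝ)
    (f : (ι → Ω) → ℝ) :
    Ex (prodW μ) f = Ex (prodW (fun k => μ (e k))) (fun y => f (fun i => y (e.symm i))) := by
  unfold Ex prodW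
  rw [← (Equiv.arrowCongr e (Equiv.refl Ω)).sum_comp]
  refine Finset.sum_congr rfl fun y _ => ?_
  have h1 : ((Equiv.arrowCongr e (Equiv.refl Ω)) y) = fun i => y (e.symm i) := by
    funext i; simp [Equiv.arrowCongr]
  rw [h1]
  congr 1
  rw [← e.prod_comp]
  exact Finset.prod_congr rfl fun k _ => by simp

/-- Exponential moments of functions with bounded differences. -/
theorem mgf_le (μ : ι → Ω → ℝ) (hμ : ∀ i, IsProb (μ i)) (f : (ι → Ω) → ℝ) (c : ι → ℝ)
    (hf : ∀ (i : ι) (x y : ι → Ω), (∀ j, j ≠ i → x j = y j) → |f x - f y| ≤ c i) (l : ℝ) :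
    Ex (prodW μ) (fun x => Real.exp (l * f x)) ≤
      Real.exp (l * Ex (prodW μ) f + l ^ 2 * (∑ i, c i ^ 2) / 2) := by
  let e : Fin (Fintype.card ι) ≃ ι := (Fintype.equivFin ι).symm
  rw [Ex_prodW_equiv e μ, Ex_prodW_equiv e μ]
  have h := mgf_fin (Fintype.card ι) (fun k => μ (e k)) (fun k => hμ (e k))
    (fun y => f (fun i => y (e.symm i))) (fun k => c (e k)) ?_ l
  · have h2 : ∑ k, c (e k) ^ 2 = ∑ i, c i ^ 2 := e.sum_comp (fun i => c i ^ 2)
    rw [h2] at h
    exact h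
  · intro k x y hxy
    refine hf (e k) _ _ ?_
    intro j hj
    refine hxy _ fun h => hj ?_
    rw [← h]; simp

/-- **McDiarmid's inequality** (upper tail), `∑ i, c i ^ 2 ≤ S`. -/
theorem mcdiarmid (μ : ι → Ω → ℝ) (hμ : ∀ i, IsProb (μ i)) (f : (ι → Ω) → ℝ) (c : ι → ℝ)
    (hf : ∀ (i : ι) (x y : ι → Ω), (∀ j, j ≠ i → x j = y j) → |f x - f y| ≤ c i)
    (S t : ℝ) (hS : ∑ i, c i ^ 2 ≤ S) (hS0 : 0 < S) (ht : 0 ≤ t) :
    Pr (prodW μ) (fun x => Ex (prodW μ) f + t ≤ f x) ≤ Real.exp (-(t ^ 2 / (2 * S))) := by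
  have hp : IsProb (prodW μ) := IsProb.prodW hμ
  have hl : 0 ≤ t / S := by positivity
  have h1 := mgf_le μ hμ f c hf (t / S)
  have h2 : Ex (prodW μ) (fun x => Real.exp (t / S * f x)) ≤
      Real.exp (t / S * Ex (prodW μ) f + (t / S) ^ 2 * S / 2) := by
    refine h1.trans (Real.exp_le_exp.2 ?_)
    have := mul_le_mul_of_nonneg_left hS (sq_nonneg (t / S))
    linarith
  have h3 := Pr_ge_le_exp hp.nonneg f (Ex (prodW μ) f + t) _ (t / S) hl h2
  refine h3.trans (le_of_eq ?_)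
  congr 1
  field_simp
  ring

/-- McDiarmid's inequality (lower tail). -/
theorem mcdiarmid_lower (μ : ι → Ω → ℝ) (hμ : ∀ i, IsProb (μ i)) (f : (ι → Ω) → ℝ) (c : ι → ℝ)
    (hf : ∀ (i : ι) (x y : ι → Ω), (∀ j, j ≠ i → x j = y j) → |f x - f y| ≤ c i)
    (S t : ℝ) (hS : ∑ i, c i ^ 2 ≤ S) (hS0 : 0 < S) (ht : 0 ≤ t) :
    Pr (prodW μ) (fun x => f x ≤ Ex (prodW μ) f - t) ≤ Real.exp (-(t ^ 2 / (2 * S))) := by
  have h := mcdiarmid μ hμ (fun x => - f x) c ?_ S t hS hS0 ht
  · rw [Ex_neg] at h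
    refine le_trans (Pr_mono (IsProb.prodW hμ).nonneg fun x hx => ?_) h
    linarith
  · intro i x y hxy
    have := hf i x y hxy
    rwa [← abs_neg, show -(-f x - -f y) = f x - f y by ring]

/-- McDiarmid's inequality (two-sided). -/
theorem mcdiarmid_abs (μ : ι → Ω → ℝ) (hμ : ∀ i, IsProb (μ i)) (f : (ι → Ω) → ℝ) (c : ι → ℝ)
    (hf : ∀ (i : ι) (x y : ι → Ω), (∀ j, j ≠ i → x j = y j) → |f x - f y| ≤ c i)
    (S t : ℝ) (hS : ∑ i, c i ^ 2 ≤ S) (hS0 : 0 < S) (ht : 0 ≤ t) :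
    Pr (prodW μ) (fun x => t ≤ |f x - Ex (prodW μ) f|) ≤
      2 * Real.exp (-(t ^ 2 / (2 * S))) := by
  have hp : IsProb (prodW μ) := IsProb.prodW hμ
  have h1 := mcdiarmid μ hμ f c hf S t hS hS0 ht
  have h2 := mcdiarmid_lower μ hμ f c hf S t hS hS0 ht
  calc Pr (prodW μ) (fun x => t ≤ |f x - Ex (prodW μ) f|)
      ≤ Pr (prodW μ) (fun x => Ex (prodW μ) f + t ≤ f x ∨ f x ≤ Ex (prodW μ) f - t) := by
        refine Pr_mono hp.nonneg fun x hx => ?_
        rcases le_abs.1 hx with h | h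
        · left; linarith
        · right; linarith
    _ ≤ _ := (Pr_or_le hp.nonneg _ _).trans (by linarith)

/-- Union bound for finitely many functions with bounded differences. -/
theorem exists_of_mcdiarmid {J : Type*} (s : Finset J) (μ : ι → Ω → ℝ) (hμ : ∀ i, IsProb (μ i))
    (f : J → (ι → Ω) → ℝ) (c : J → ι → ℝ)
    (hf : ∀ j ∈ s, ∀ (i : ι) (x y : ι → Ω), (∀ k, k ≠ i → x k = y k) →
      |f j x - f j y| ≤ c j i)
    (S t : J → ℝ) (hS : ∀ j ∈ s, ∑ i, c j i ^ 2 ≤ S j) (hS0 : ∀ j ∈ s, 0 < S j)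
    (ht : ∀ j ∈ s, 0 ≤ t j)
    (hlt : ∑ j ∈ s, 2 * Real.exp (-(t j ^ 2 / (2 * S j))) < 1) :
    ∃ x, 0 < prodW μ x ∧ ∀ j ∈ s, |f j x - Ex (prodW μ) (f j)| < t j := by
  have hp : IsProb (prodW μ) := IsProb.prodW hμ
  obtain ⟨x, hx, h⟩ := exists_of_sum_Pr_lt_one hp s
    (fun j x => t j ≤ |f j x - Ex (prodW μ) (f j)|)
    (lt_of_le_of_lt (Finset.sum_le_sum fun j hj =>
      mcdiarmid_abs μ hμ (f j) (c j) (hf j hj) (S j) (t j) (hS j hj) (hS0 j hj) (ht j hj)) hlt)
  exact ⟨x, hx, fun j hj => not_le.1 (h j hj)⟩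

end McDiarmid

end NW
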