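import Mathlib

/-! # Concentration on finite uniform spaces: products and random bijections

`avg f` is the average of `f` over a finite type, `SubG f v` says that `f` is subgaussian with
variance proxy `v` (all exponential moments). Main results:
* `SubG.prod` : two-stage composition;
* `subG_fun` : McDiarmid on `ι → β`;
* `subG_perm`, `subG_equiv` : McDiarmid for uniform random permutations and bijections;
* `SubG.tail`, `SubG.tail'` : tail bounds as counting statements. -/

set_option autoImplicit false

open Finset Real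

namespace NWT

/-- average over a finite type -/
noncomputable def avg {Ω : Type*} [Fintype Ω] (f : Ω → ℝ) : ℝ := (∑ ω, f ω) / Fintype.card Ω

/-- subgaussian with variance proxy `v` -/
def SubG {Ω : Type*} [Fintype Ω] (f : Ω → ℝ) (v : ℝ) : Prop :=
  ∀ t : ℝ, avg (fun ω => exp (t * (f ω - avg f))) ≤ exp (t ^ 2 * v / 2)

section Basic

variable {Ω Ω' : Type*} [Fintype Ω] [Fintype Ω']

theorem avg_mono {f g : Ω → ℝ} (h : ∀ ω, f ω ≤ g ω) : avg f ≤ avg g := by
  unfold avg
  exact div_le_div_of_nonneg_right (Finset.sum_le_sum fun ω _ => h ω) (Nat.cast_nonneg _)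

theorem avg_const_mul (a : ℝ) (f : Ω → ℝ) : avg (fun ω => a * f ω) = a * avg f := by
  unfold avg
  rw [← Finset.mul_sum, mul_div_assoc]

theorem avg_add (f g : Ω → ℝ) : avg (fun ω => f ω + g ω) = avg f + avg g := by
  unfold avg
  rw [Finset.sum_add_distrib, add_div]

theorem avg_sub (f g : Ω → ℝ) : avg (fun ω => f ω - g ω) = avg f - avg g := by
  unfold avg
  rw [Finset.sum_sub_distrib, sub_div]

theorem avg_const [Nonempty Ω] (a : ℝ) : avg (fun _ : Ω => a) = a := by
  unfold avg
  rw [Finset.sum_const, Finset.card_univ, nsmul_eq_mul]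
  field_simp

theorem avg_nonneg {f : Ω → ℝ} (h : ∀ ω, 0 ≤ f ω) : 0 ≤ avg f := by
  unfold avg
  exact div_nonneg (Finset.sum_nonneg fun ω _ => h ω) (Nat.cast_nonneg _)

theorem avg_sum {ι : Type*} (s : Finset ι) (f : ι → Ω → ℝ) :
    avg (fun ω => ∑ i ∈ s, f i ω) = ∑ i ∈ s, avg (f i) := by
  unfold avg
  rw [Finset.sum_comm, Finset.sum_div]

theorem avg_equiv (e : Ω' ≃ Ω) (f : Ω → ℝ) : avg (fun ω => f (e ω)) = avg f := by
  unfold avg
  rw [Fintype.card_congr e, Equiv.sum_comp e f]

theorem avg_prod (f : Ω × Ω' → ℝ) : avg f = avg (fun a => avg (fun b => f (a, b))) := by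
  unfold avg
  rw [Fintype.sum_prod_type, Fintype.card_prod, ← Finset.sum_div, div_div]
  push_cast
  rw [mul_comm (Fintype.card Ω : ℝ)]

theorem avg_eq_zero_of_isEmpty [IsEmpty Ω] (f : Ω → ℝ) : avg f = 0 := by
  unfold avg; simp

theorem SubG.equiv {f : Ω → ℝ} {v : ℝ} (h : SubG f v) (e : Ω' ≃ Ω) :
    SubG (fun ω => f (e ω)) v := by
  intro t
  rw [avg_equiv e f]
  rw [avg_equiv e (fun ω => exp (t * (f ω - avg f)))]
  exact h t

theorem subG_of_isEmpty [IsEmpty Ω] (f : Ω → ℝ) (v : ℝ) : SubG f v := by
  intro t
  rw [avg_eq_zero_of_isEmpty]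
  exact (exp_pos _).le

theorem SubG.mono {f : Ω → ℝ} {v w : ℝ} (h : SubG f v) (hvw : v ≤ w) : SubG f w := by
  intro t
  refine (h t).trans (exp_le_exp.2 ?_)
  have : t ^ 2 * v ≤ t ^ 2 * w := mul_le_mul_of_nonneg_left hvw (sq_nonneg t)
  linarith

theorem SubG.neg {f : Ω → ℝ} {v : ℝ} (h : SubG f v) : SubG (fun ω => - f ω) v := by
  intro t
  have h1 := h (-t)
  have h2 : avg (fun ω => - f ω) = - avg f := by
    have := avg_const_mul (-1) f
    simpa using this
  rw [h2]
  have h3 : (fun ω => exp (t * (-f ω - -avg f))) = fun ω => exp (-t * (f ω - avg f)) := by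
    funext ω; congr 1; ring
  rw [h3]
  simpa using h1

/-- constants -/
theorem subG_const (a : ℝ) : SubG (fun _ : Ω => a) 0 := by
  rcases isEmpty_or_nonempty Ω with hΩ | hΩ
  · exact subG_of_isEmpty _ _
  intro t
  rw [avg_const]
  simp only [mul_zero]
  rw [avg_const]
  simp

/-- Hoeffding's lemma: a function with oscillation at most `c` is subgaussian with proxy `c²`. -/
theorem subG_of_osc (f : Ω → ℝ) {c : ℝ} (hc : 0 ≤ c) (h : ∀ a b, |f a - f b| ≤ c) :
    SubG f (c ^ 2) := by
  rcases isEmpty_or_nonempty Ω with hΩ | hΩ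
  · exact subG_of_isEmpty _ _
  intro t
  have hcard : (0 : ℝ) < Fintype.card Ω := by exact_mod_cast Fintype.card_pos
  have hY : ∀ a, |f a - avg f| ≤ c := by
    intro a
    have h1 : f a - avg f = avg (fun b => f a - f b) := by
      rw [avg_sub, avg_const]
    rw [h1]
    have h2 : avg (fun b => f a - f b) ≤ c := by
      calc avg (fun b => f a - f b) ≤ avg (fun _ : Ω => c) :=
            avg_mono fun b => (le_abs_self _).trans (h a b)
        _ = c := avg_const c
    have h3 : -c ≤ avg (fun b => f a - f b) := by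
      calc -c = avg (fun _ : Ω => -c) := (avg_const _).symm
        _ ≤ avg (fun b => f a - f b) := avg_mono fun b => by
            have := (abs_le.1 (h a b)).1
            linarith
    exact abs_le.2 ⟨h3, h2⟩
  rcases hc.eq_or_lt with hc0 | hc0
  · have h0 : ∀ a, f a - avg f = 0 := fun a => by
      have := hY a
      rw [← hc0] at this
      exact abs_nonpos_iff.1 this
    have : (fun ω => exp (t * (f ω - avg f))) = fun _ => (1 : ℝ) := by
      funext ω; rw [h0]; simp
    rw [this, avg_const, ← hc0]
    simp
  have hconv : ∀ a, exp (t * (f a - avg f)) ≤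
      cosh (t * c) + (f a - avg f) * (sinh (t * c) / c) := by
    intro a
    set y := f a - avg f with hy
    have hy1 := (abs_le.1 (hY a)).1
    have hy2 := (abs_le.1 (hY a)).2
    have hcx := convexOn_exp
    have hA : 0 ≤ (c - y) / (2 * c) := div_nonneg (by linarith) (by linarith)
    have hB : 0 ≤ (c + y) / (2 * c) := div_nonneg (by linarith) (by linarith)
    have hAB : (c - y) / (2 * c) + (c + y) / (2 * c) = 1 := by
      field_simp; ring
    have := hcx.2 (Set.mem_univ (-(t * c))) (Set.mem_univ (t * c)) hA hB hAB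
    simp only [smul_eq_mul] at this
    have e1 : (c - y) / (2 * c) * -(t * c) + (c + y) / (2 * c) * (t * c) = t * y := by
      field_simp; ring
    rw [e1] at this
    refine this.trans (le_of_eq ?_)
    rw [cosh_eq, sinh_eq]
    field_simp
    ring
  have hz : avg (fun a => f a - avg f) = 0 := by
    rw [avg_sub, avg_const]; ring
  calc avg (fun ω => exp (t * (f ω - avg f)))
      ≤ avg (fun a => cosh (t * c) + (sinh (t * c) / c) * (f a - avg f)) :=
        avg_mono fun a => by rw [mul_comm (sinh (t * c) / c)]; exact hconv a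
    _ = cosh (t * c) := by
        rw [avg_add, avg_const, avg_const_mul, hz, mul_zero, add_zero]
    _ ≤ exp ((t * c) ^ 2 / 2) := cosh_le_exp_half_sq _
    _ = exp (t ^ 2 * c ^ 2 / 2) := by congr 1; ring

/-- two-stage composition -/
theorem SubG.prod {f : Ω × Ω' → ℝ} {v w : ℝ} (h1 : SubG (fun a => avg (fun b => f (a, b))) v)
    (h2 : ∀ a, SubG (fun b => f (a, b)) w) : SubG f (v + w) := by
  intro t
  rw [avg_prod (fun ω => exp (t * (f ω - avg f)))]
  set g : Ω → ℝ := fun a => avg (fun b => f (a, b)) with hg
  have hgf : avg g = avg f := (avg_prod f).symm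
  have step : ∀ a, avg (fun b => exp (t * (f (a, b) - avg f))) ≤
      exp (t ^ 2 * w / 2) * exp (t * (g a - avg g)) := by
    intro a
    have e : (fun b => exp (t * (f (a, b) - avg f))) =
        fun b => exp (t * (g a - avg g)) * exp (t * (f (a, b) - g a)) := by
      funext b
      rw [← exp_add, hgf]
      congr 1; ring
    rw [e, avg_const_mul, mul_comm]
    exact mul_le_mul_of_nonneg_right (h2 a t) (exp_pos _).le
  calc avg (fun a => avg (fun b => exp (t * (f (a, b) - avg f))))
      ≤ avg (fun a => exp (t ^ 2 * w / 2) * exp (t * (g a - avg g))) := avg_mono step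
    _ = exp (t ^ 2 * w / 2) * avg (fun a => exp (t * (g a - avg g))) := avg_const_mul _ _
    _ ≤ exp (t ^ 2 * w / 2) * exp (t ^ 2 * v / 2) :=
        mul_le_mul_of_nonneg_left (h1 t) (exp_pos _).le
    _ = exp (t ^ 2 * (v + w) / 2) := by rw [← exp_add]; congr 1; ring

/-- tail bound: at most `|Ω| exp(-s²/(2v))` points have `f ≥ avg f + s`. -/
theorem SubG.tail {f : Ω → ℝ} {v : ℝ} (h : SubG f v) (hv : 0 < v) {s : ℝ} (hs : 0 ≤ s) :
    ((Finset.univ.filter fun ω => avg f + s ≤ f ω).card : ℝ) ≤
      Fintype.card Ω * exp (-(s ^ 2 / (2 * v))) := by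
  rcases isEmpty_or_nonempty Ω with hΩ | hΩ
  · simp
  have hcard : (0 : ℝ) < Fintype.card Ω := by exact_mod_cast Fintype.card_pos
  have h1 := h (s / v)
  unfold avg at h1
  rw [div_le_iff₀ hcard] at h1
  have h2 : ((Finset.univ.filter fun ω => avg f + s ≤ f ω).card : ℝ) * exp (s / v * s) ≤
      ∑ ω, exp (s / v * (f ω - (∑ ω, f ω) / Fintype.card Ω)) := by
    rw [Finset.card_filter]
    push_cast
    rw [Finset.sum_mul]
    refine Finset.sum_le_sum fun ω _ => ?_
    split_ifs with hω
    · rw [one_mul]
      refine exp_le_exp.2 (mul_le_mul_of_nonneg_left ?_ (div_nonneg hs hv.le))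
      unfold avg at hω
      linarith
    · rw [zero_mul]; exact (exp_pos _).le
  have h3 := h2.trans h1
  have h4 : exp (s / v * s) = exp (s ^ 2 / v) := by congr 1; field_simp
  have h5 : exp ((s / v) ^ 2 * v / 2) = exp (s ^ 2 / (2 * v)) := by congr 1; field_simp
  rw [h4, h5] at h3
  calc ((Finset.univ.filter fun ω => avg f + s ≤ f ω).card : ℝ)
      = ((Finset.univ.filter fun ω => avg f + s ≤ f ω).card : ℝ) * exp (s ^ 2 / v) *
        exp (-(s ^ 2 / v)) := by
        rw [mul_assoc, ← exp_add, add_neg_cancel, exp_zero, mul_one]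
    _ ≤ exp (s ^ 2 / (2 * v)) * Fintype.card Ω * exp (-(s ^ 2 / v)) :=
        mul_le_mul_of_nonneg_right h3 (exp_pos _).le
    _ = Fintype.card Ω * exp (-(s ^ 2 / (2 * v))) := by
        rw [mul_comm (exp (s ^ 2 / (2 * v))), mul_assoc, ← exp_add]
        congr 2
        field_simp
        ring

/-- lower tail bound -/
theorem SubG.tail' {f : Ω → ℝ} {v : ℝ} (h : SubG f v) (hv : 0 < v) {s : ℝ} (hs : 0 ≤ s) :
    ((Finset.univ.filter fun ω => f ω ≤ avg f - s).card : ℝ) ≤
      Fintype.card Ω * exp (-(s ^ 2 / (2 * v))) := by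
  have h1 := h.neg.tail hv hs
  have h2 : avg (fun ω => - f ω) = - avg f := by
    have := avg_const_mul (-1) f
    simpa using this
  rw [h2] at h1
  refine le_trans (le_of_eq ?_) h1
  congr 1
  congr 1
  ext ω
  simp only [Finset.mem_filter, Finset.mem_univ, true_and]
  constructor <;> intro h <;> linarith

end Basic

/-- McDiarmid on `Fin n → β`. -/
theorem subG_fin {β : Type*} [Fintype β] {c : ℝ} (hc : 0 ≤ c) : ∀ (n : ℕ) (f : (Fin n → β) → ℝ),
    (∀ x (i : Fin n) b, |f (Function.update x i b) - f x| ≤ c) → SubG f (n * c ^ 2)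
  | 0, f, _ => by
    have : SubG f (0 ^ 2) := subG_of_osc f le_rfl fun a b => by
      rw [Subsingleton.elim a b]; simp
    simpa using this
  | n + 1, f, h => by
    have e := Fin.consEquiv (fun _ : Fin (n + 1) => β)
    set F : β × (Fin n → β) → ℝ := fun p => f (Fin.cons p.1 p.2) with hF
    have h2 : ∀ a, SubG (fun b => F (a, b)) (n * c ^ 2) := by
      intro a
      refine subG_fin hc n _ fun x i b => ?_
      have : (Fin.cons a (Function.update x i b) : Fin (n + 1) → β) =
          Function.update (Fin.cons a x) i.succ b := by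
        rw [Fin.cons_update]
      simp only [hF]
      rw [this]
      exact h _ _ _
    have h1 : SubG (fun a => avg (fun b => F (a, b))) (c ^ 2) := by
      refine subG_of_osc _ hc fun a b => ?_
      rcases isEmpty_or_nonempty (Fin n → β) with he | he
      · rw [avg_eq_zero_of_isEmpty, avg_eq_zero_of_isEmpty]; simpa using hc
      rw [← avg_sub]
      have key : ∀ y, |F (a, y) - F (b, y)| ≤ c := by
        intro y
        have := h (Fin.cons b y) 0 a
        rw [Fin.update_cons_zero] at this
        exact this
      rw [abs_le]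
      constructor
      · calc -c = avg (fun _ : Fin n → β => -c) := (avg_const _).symm
          _ ≤ _ := avg_mono fun y => (abs_le.1 (key y)).1
      · calc _ ≤ avg (fun _ : Fin n → β => c) := avg_mono fun y => (abs_le.1 (key y)).2
          _ = c := avg_const _
    have h3 := (SubG.prod h1 h2).equiv (Fin.consEquiv (fun _ : Fin (n + 1) => β)).symm
    have h4 : (fun ω => F ((Fin.consEquiv (fun _ : Fin (n + 1) => β)).symm ω)) = f := by
      funext ω
      simp only [hF]
      congr 1
      exact Fin.cons_self_tail ω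
    rw [h4] at h3
    refine h3.mono (le_of_eq ?_)
    push_cast
    ring

/-- McDiarmid on `ι → β`. -/
theorem subG_fun {ι β : Type*} [Fintype ι] [DecidableEq ι] [Fintype β] (f : (ι → β) → ℝ) {c : ℝ}
    (hc : 0 ≤ c) (h : ∀ x (i : ι) b, |f (Function.update x i b) - f x| ≤ c) :
    SubG f (Fintype.card ι * c ^ 2) := by
  have e := Fintype.equivFin ι
  have h1 := subG_fin hc (Fintype.card ι) (fun x : Fin (Fintype.card ι) → β => f (fun i => x (e i)))
    (fun x i b => by
      have : (fun j => Function.update x i b (e j)) =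
          Function.update (fun j => x (e j)) (e.symm i) b := by
        funext j
        by_cases hj : j = e.symm i
        · subst hj; simp
        · rw [Function.update_of_ne hj, Function.update_of_ne]
          intro h'
          exact hj (by rw [← h']; simp)
      rw [this]
      exact h _ _ _)
  have h2 := h1.equiv (Equiv.arrowCongr e (Equiv.refl β))
  have h3 : (fun ω : ι → β => (fun x : Fin (Fintype.card ι) → β => f (fun i => x (e i)))
      ((Equiv.arrowCongr e (Equiv.refl β)) ω)) = f := by
    funext ω
    simp only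
    congr 1
    funext i
    simp [Equiv.arrowCongr]
  rw [h3] at h2
  exact h2

/-- McDiarmid for uniform random permutations: swapping two values changes `f` by at most `c`. -/
theorem subG_perm {c : ℝ} (hc : 0 ≤ c) : ∀ (α : Type) [Fintype α] [DecidableEq α]
    (f : Equiv.Perm α → ℝ), (∀ σ (a b : α), |f (Equiv.swap a b * σ) - f σ| ≤ c) →
    SubG f (Fintype.card α * c ^ 2) := by
  intro α hα
  refine Fintype.induction_empty_option (P := fun (α : Type) [Fintype α] =>
    ∀ [DecidableEq α] (f : Equiv.Perm α → ℝ),
      (∀ σ (a b : α), |f (Equiv.swap a b * σ) - f σ| ≤ c) →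
      SubG f (Fintype.card α * c ^ 2)) ?_ ?_ ?_ α
  · intro α β _ e ih _ f h
    let _ : Fintype α := Fintype.ofEquiv β e.symm
    classical
    have h1 := ih (fun σ : Equiv.Perm α => f (e.permCongr σ)) (fun σ a b => by
      have : e.permCongr (Equiv.swap a b * σ) = Equiv.swap (e a) (e b) * e.permCongr σ := by
        ext x
        simp [Equiv.permCongr_apply, Equiv.swap_apply_def]
        split_ifs <;> simp_all
      rw [this]
      exact h _ _ _)
    have h2 := h1.equiv (e.permCongr.symm)
    have h3 : (fun ω => (fun σ : Equiv.Perm α => f (e.permCongr σ)) (e.permCongr.symm ω)) = f := by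
      funext ω
      exact congrArg f (e.permCongr.apply_symm_apply ω)
    rw [h3] at h2
    rw [Fintype.card_congr e] at h2
    exact h2
  · intro _ f _
    have : SubG f (0 ^ 2) := subG_of_osc f le_rfl fun a b => by
      rw [Subsingleton.elim a b]; simp
    simpa using this
  · intro α _ ih inst f h
    let dα : DecidableEq α := Classical.decEq α
    obtain rfl : inst = (fun a b => @Option.instDecidableEq α dα a b) := Subsingleton.elim _ _
    set F : Option α × Equiv.Perm α → ℝ := fun p =>
      f (Equiv.Perm.decomposeOption.symm p) with hF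
    have hsym : ∀ (a : Option α) (τ : Equiv.Perm α), Equiv.Perm.decomposeOption.symm (a, τ) =
        Equiv.swap none a * Equiv.optionCongr τ := fun a τ => rfl
    have h2 : ∀ a, SubG (fun b => F (a, b)) (Fintype.card α * c ^ 2) := by
      intro a
      refine ih _ fun τ u v => ?_
      have e1 : Equiv.Perm.decomposeOption.symm (a, Equiv.swap u v * τ) =
          Equiv.swap (Equiv.swap none a (some u)) (Equiv.swap none a (some v)) *
            Equiv.Perm.decomposeOption.symm (a, τ) := by
        rw [hsym, hsym]
        have e2 : (Equiv.optionCongr (Equiv.swap u v * τ) : Equiv.Perm (Option α)) =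
            Equiv.swap (some u) (some v) * Equiv.optionCongr τ := by
          have e3 : (Equiv.optionCongr (Equiv.swap u v) : Equiv.Perm (Option α)) =
              Equiv.swap (some u) (some v) := Equiv.optionCongr_swap u v
          rw [← e3]
          exact Equiv.ext fun x => by cases x <;> rfl
        rw [e2, ← mul_assoc, Equiv.mul_swap_eq_swap_mul, mul_assoc]
      simp only [hF]
      rw [e1]
      exact h _ _ _
    have hfib : ∀ a : Option α, ∑ τ, F (a, τ) =
        ∑ σ ∈ Finset.univ.filter (fun σ : Equiv.Perm (Option α) => σ none = a), f σ := by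
      intro a
      refine Finset.sum_bij (fun τ _ => Equiv.Perm.decomposeOption.symm (a, τ)) ?_ ?_ ?_ ?_
      · intro τ _
        rw [Finset.mem_filter, hsym]
        simp
      · intro τ _ τ' _ hh
        have := Equiv.Perm.decomposeOption.symm.injective hh
        exact (Prod.ext_iff.1 this).2
      · intro σ hσ
        rw [Finset.mem_filter] at hσ
        refine ⟨(Equiv.Perm.decomposeOption σ).2, Finset.mem_univ _, ?_⟩
        have : (a, (Equiv.Perm.decomposeOption σ).2) = Equiv.Perm.decomposeOption σ :=
          Prod.ext hσ.2.symm rfl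
        rw [this, Equiv.symm_apply_apply]
      · intro τ _
        rfl
    have hsw : ∀ a b : Option α,
        ∑ σ ∈ Finset.univ.filter (fun σ : Equiv.Perm (Option α) => σ none = b), f σ =
        ∑ σ ∈ Finset.univ.filter (fun σ : Equiv.Perm (Option α) => σ none = a),
          f (Equiv.swap a b * σ) := by
      intro a b
      symm
      refine Finset.sum_bij (fun σ _ => Equiv.swap a b * σ) ?_ ?_ ?_ ?_
      · intro σ hσ
        rw [Finset.mem_filter] at hσ ⊢
        refine ⟨Finset.mem_univ _, ?_⟩
        rw [Equiv.Perm.mul_apply, hσ.2, Equiv.swap_apply_left]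
      · intro σ _ σ' _ hh
        exact mul_left_cancel hh
      · intro σ hσ
        rw [Finset.mem_filter] at hσ
        refine ⟨Equiv.swap a b * σ, ?_, ?_⟩
        · rw [Finset.mem_filter]
          refine ⟨Finset.mem_univ _, ?_⟩
          rw [Equiv.Perm.mul_apply, hσ.2, Equiv.swap_apply_right]
        · rw [← mul_assoc, Equiv.swap_mul_self, one_mul]
      · intro σ _
        rfl
    have hcardf : ∀ a : Option α, ((Finset.univ.filter
        (fun σ : Equiv.Perm (Option α) => σ none = a)).card : ℝ) = Fintype.card (Equiv.Perm α) := by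
      intro a
      have : (Finset.univ.filter (fun σ : Equiv.Perm (Option α) => σ none = a)).card =
          (Finset.univ : Finset (Equiv.Perm α)).card := by
        symm
        refine Finset.card_bij (fun τ _ => Equiv.Perm.decomposeOption.symm (a, τ)) ?_ ?_ ?_
        · intro τ _
          rw [Finset.mem_filter, hsym]
          simp
        · intro τ _ τ' _ hh
          have := Equiv.Perm.decomposeOption.symm.injective hh
          exact (Prod.ext_iff.1 this).2
        · intro σ hσ
          rw [Finset.mem_filter] at hσ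
          refine ⟨(Equiv.Perm.decomposeOption σ).2, Finset.mem_univ _, ?_⟩
          have : (a, (Equiv.Perm.decomposeOption σ).2) = Equiv.Perm.decomposeOption σ :=
            Prod.ext hσ.2.symm rfl
          rw [this, Equiv.symm_apply_apply]
      rw [this, Finset.card_univ]
    have hposP : (0 : ℝ) < Fintype.card (Equiv.Perm α) := by exact_mod_cast Fintype.card_pos
    have h1 : SubG (fun a => avg (fun b => F (a, b))) (c ^ 2) := by
      refine subG_of_osc _ hc fun a b => ?_
      unfold avg
      rw [← sub_div, hfib a, hfib b, hsw a b, ← Finset.sum_sub_distrib, abs_div,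
        abs_of_pos hposP, div_le_iff₀ hposP]
      refine (Finset.abs_sum_le_sum_abs _ _).trans ?_
      calc ∑ σ ∈ Finset.univ.filter (fun σ : Equiv.Perm (Option α) => σ none = a),
            |f σ - f (Equiv.swap a b * σ)|
          ≤ ∑ σ ∈ Finset.univ.filter (fun σ : Equiv.Perm (Option α) => σ none = a), c :=
            Finset.sum_le_sum fun σ _ => by rw [abs_sub_comm]; exact h _ _ _
        _ = c * Fintype.card (Equiv.Perm α) := by
            rw [Finset.sum_const, nsmul_eq_mul, hcardf, mul_comm]
    have h3 := (SubG.prod h1 h2).equiv (Equiv.Perm.decomposeOption)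
    have h4 : (fun ω => F (Equiv.Perm.decomposeOption ω)) = f := by
      funext ω
      simp only [hF]
      rw [Equiv.symm_apply_apply]
    rw [h4] at h3
    refine h3.mono (le_of_eq ?_)
    rw [Fintype.card_option]
    push_cast
    ring

/-- McDiarmid for uniform random bijections `α ≃ β`. -/
theorem subG_equiv {α β : Type} [Fintype α] [DecidableEq α] [Fintype β] [DecidableEq β] {c : ℝ}
    (hc : 0 ≤ c) (f : α ≃ β → ℝ) (h : ∀ (σ : α ≃ β) (a b : α), |f ((Equiv.swap a b).trans σ) - f σ| ≤ c) :
    SubG f (Fintype.card α * c ^ 2) := by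
  rcases isEmpty_or_nonempty (α ≃ β) with he | ⟨⟨e⟩⟩
  · exact subG_of_isEmpty _ _
  have h1 := subG_perm hc α (fun σ : Equiv.Perm α => f (σ.trans e)) (fun σ a b => by
    have : (Equiv.swap a b * σ).trans e =
        (Equiv.swap (σ⁻¹ a) (σ⁻¹ b)).trans (σ.trans e) := by
      rw [Equiv.swap_mul_eq_mul_swap]
      rfl
    rw [this]
    exact h _ _ _)
  have e2 : (α ≃ β) ≃ Equiv.Perm α :=
    ⟨fun σ => σ.trans e.symm, fun τ => τ.trans e, fun σ => by ext x; simp, fun τ => by ext x; simp⟩
  have h2 := h1.equiv (⟨fun σ => σ.trans e.symm, fun τ => τ.trans e, fun σ => by ext x; simp,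
    fun τ => by ext x; simp⟩ : (α ≃ β) ≃ Equiv.Perm α)
  have h3 : (fun ω : α ≃ β => (fun σ : Equiv.Perm α => f (σ.trans e))
      ((⟨fun σ => σ.trans e.symm, fun τ => τ.trans e, fun σ => by ext x; simp,
    fun τ => by ext x; simp⟩ : (α ≃ β) ≃ Equiv.Perm α) ω)) = f := by
    funext ω
    simp only [Equiv.coe_fn_mk]
    congr 1
    ext x
    simp
  rw [h3] at h2
  exact h2

end NWT
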